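import Pool.Agent.Lib.MP_dadc30_co.MET

open MeasureTheory ProbabilityTheory Filter Topology
open scoped ENNReal ComplexConjugate

namespace Dadc30

variable {G : Type} [CommGroup G] {Ω : Type} [MeasurableSpace Ω] [MulAction G Ω]

/-- Mean ergodic theorem, ergodic case -/
theorem met_erg [Countable G] {μ : Measure Ω} [IsProbabilityMeasure μ] (hμ : PMP G μ)
    (hE : Erg G μ) (M : InvMean G) {A B : Ω → ℂ} (hA : BM A) (hB : BM B) :
    M.c (fun u => ∫ x, A (u • x) * B x ∂μ) = (∫ x, A x ∂μ) * ∫ x, B x ∂μ := by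
  obtain ⟨C, hC⟩ := hB.2
  obtain ⟨B', hB'm, hB'C, hB'i, hB'⟩ := met_exists hμ hB.1 hC
  have hB'BM : BM B' := ⟨hB'm, C, hB'C⟩
  have hconst := erg_const hE hB'BM hB'i
  have hone : BM (fun _ : Ω => (1 : ℂ)) := ⟨measurable_const, 1, fun _ => by simp⟩
  have h1 := hB' M (fun _ => (1 : ℂ)) hone
  simp only [one_mul] at h1
  rw [M.c_const] at h1
  rw [hB' M A hA, h1, ← integral_mul_const]
  refine integral_congr_ae ?_
  filter_upwards [hconst] with x hx
  rw [← hx]

/-- real version -/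
theorem met_erg_real [Countable G] {μ : Measure Ω} [IsProbabilityMeasure μ] (hμ : PMP G μ)
    (hE : Erg G μ) (M : InvMean G) {A B : Ω → ℝ} (hA : BMR A) (hB : BMR B) :
    M.m (fun u => ∫ x, A (u • x) * B x ∂μ) = (∫ x, A x ∂μ) * ∫ x, B x ∂μ := by
  have hA' : BM (fun x => (A x : ℂ)) := by
    obtain ⟨C, hC⟩ := hA.2
    refine ⟨Complex.measurable_ofReal.comp hA.1, C, fun x => ?_⟩
    rw [Complex.norm_real, Real.norm_eq_abs]
    exact hC x
  have hB' : BM (fun x => (B x : ℂ)) := by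
    obtain ⟨C, hC⟩ := hB.2
    refine ⟨Complex.measurable_ofReal.comp hB.1, C, fun x => ?_⟩
    rw [Complex.norm_real, Real.norm_eq_abs]
    exact hC x
  have h1 := met_erg hμ hE M hA' hB'
  have h2 : ∀ u : G, ∫ x, (A (u • x) : ℂ) * (B x : ℂ) ∂μ =
      ((∫ x, A (u • x) * B x ∂μ : ℝ) : ℂ) := by
    intro u
    rw [← integral_complex_ofReal]
    refine integral_congr_ae (Filter.Eventually.of_forall fun x => ?_)
    simp
  have h3 : Bdd (fun u : G => ∫ x, A (u • x) * B x ∂μ) := by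
    obtain ⟨C, hC⟩ := hA.2
    obtain ⟨D, hD⟩ := hB.2
    refine ⟨C * D, fun u => ?_⟩
    have h4 : ‖∫ x, A (u • x) * B x ∂μ‖ ≤ C * D * μ.real Set.univ := by
      refine norm_integral_le_of_norm_le_const (Filter.Eventually.of_forall fun x => ?_)
      rw [Real.norm_eq_abs, abs_mul]
      exact mul_le_mul (hC _) (hD _) (abs_nonneg _) ((abs_nonneg _).trans (hC x))
    rw [probReal_univ, mul_one, Real.norm_eq_abs] at h4
    exact h4
  simp only [h2] at h1
  rw [M.c_ofReal h3, integral_complex_ofReal, integral_complex_ofReal] at h1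
  exact_mod_cast h1

end Dadc30
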