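import Pool.Agent.Lib.MP_dadc30_co.Sq
import Pool.Agent.Lib.MP_dadc30_co.METerg

/-!
# MP_dadc30_co, module Alpha: `h(φ) h(ψ) ≤ M_w h(φ(w·) ψ)` in the ergodic case.

`g = Y.E φ`, `ξ = φ - g`.  `φ(wx)ψ(x) = g(wx)ψ(x) + ξ(wx)ψ(x)`;
`Y.E(φ(w·)ψ) = g(w·) Y.E ψ + Y.E(ξ(w·)ψ)` a.e. (`E_mul`; `g(w·)` is `Y.m`-measurable because
`Y.inv`).  Expanding the square,
`h(φ(w·)ψ) ≥ ∫ |g(wx)|²|Y.E ψ|² + 2 Re ∫ g(wx) (Y.E ψ)(x) conj (Y.E(ξ(w·)ψ)(x)) dμ` and the
second integral equals `∫ (g conj ξ)(wx) · (Y.E ψ · conj ψ)(x) dμ`, whose mean over `w` is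
`(∫ g conj ξ)(∫ …) = 0` (`met_erg`; `∫ g conj ξ = 0`).  The mean of the first is
`(∫|g|²)(∫|Y.E ψ|²)` by `met_erg_real`.
-/

open MeasureTheory ProbabilityTheory Filter Topology
open scoped ENNReal ComplexConjugate

namespace Dadc30

variable {G : Type} [CommGroup G] {Ω : Type} [MeasurableSpace Ω] [MulAction G Ω]
  {μ : Measure Ω} [IsProbabilityMeasure μ]

theorem Alpha_meas_smul (Y : Fac G μ) {g : Ω → ℂ} (hg : Measurable[Y.m] g) (w : G) :
    Measurable[Y.m] fun x => g (w • x) := by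
  have h : @Measurable Ω Ω Y.m Y.m (fun x : Ω => w • x) := fun A hA => Y.inv w A hA
  exact hg.comp h

theorem Alpha_sq (p q : ℂ) : ‖p‖ ^ 2 + 2 * (p * conj q).re ≤ ‖p + q‖ ^ 2 := by
  rw [← Complex.normSq_eq_norm_sq, ← Complex.normSq_eq_norm_sq, Complex.normSq_add]
  have := Complex.normSq_nonneg q
  linarith

theorem alpha_le [Countable G] (hμ : PMP G μ) (hE : Erg G μ) (Y : Fac G μ) {φ ψ : Ω → ℂ}
    (hφ : BM φ) (hψ : BM ψ) (M : InvMean G) :
    Y.h φ * Y.h ψ ≤ M.m (fun w => Y.h (fun x => φ (w • x) * ψ x)) := by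
  have hgB : BM (Y.E φ) := Y.E_BM hφ
  have hgM : Measurable[Y.m] (Y.E φ) := Y.E_measurable hφ
  have hhφ : Y.h φ = ∫ x, ‖Y.E φ x‖ ^ 2 ∂μ := rfl
  have hgc : ∫ x, Y.E φ x * conj (φ x - Y.E φ x) ∂μ = 0 := by
    have h1 := Y.integral_mul_E hφ.conj hgB.2 hgM
    simp only [Y.E_conj] at h1
    have h2 : (fun x => Y.E φ x * conj (φ x - Y.E φ x)) =
        fun x => conj (φ x) * Y.E φ x - conj (Y.E φ x) * Y.E φ x := by
      funext x
      rw [map_sub]
      ring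
    rw [h2, integral_sub ((hφ.conj.mul hgB).integrable μ) ((hgB.conj.mul hgB).integrable μ), h1,
      sub_self]
  revert hgB hgM hhφ hgc
  generalize Y.E φ = g
  intro hgB hgM hhφ hgc
  have heB : BM (Y.E ψ) := Y.E_BM hψ
  have hgw : ∀ w : G, BM fun x => g (w • x) := fun w => hgB.comp (hμ w).measurable
  have hR : ∀ w : G, BM fun x => (φ (w • x) - g (w • x)) * ψ x := fun w =>
    ((hφ.comp (hμ w).measurable).sub (hgw w)).mul hψ
  have hF : ∀ w : G, BM fun x => φ (w • x) * ψ x := fun w => (hφ.comp (hμ w).measurable).mul hψ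
  have hP : ∀ w : G, BM fun x => g (w • x) * Y.E ψ x := fun w => (hgw w).mul heB
  have hPm : ∀ w : G, Measurable[Y.m] fun x => g (w • x) * Y.E ψ x := fun w =>
    (Alpha_meas_smul Y hgM w).mul (Y.E_measurable hψ)
  have hQ : ∀ w : G, BM (Y.E fun y => (φ (w • y) - g (w • y)) * ψ y) := fun w => Y.E_BM (hR w)
  have hdec : ∀ w : G, ∀ᵐ x ∂μ, Y.E (fun y => φ (w • y) * ψ y) x =
      g (w • x) * Y.E ψ x + Y.E (fun y => (φ (w • y) - g (w • y)) * ψ y) x := by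
    intro w
    filter_upwards [Y.E_mul hψ (hgw w).2 (Alpha_meas_smul Y hgM w)] with x hx
    rw [← hx, ← Y.E_add ((hgw w).mul hψ) (hR w)]
    congr 1
    funext y
    ring
  have hA : BM fun y => g y * conj (φ y - g y) := hgB.mul (hφ.sub hgB).conj
  have hB : BM fun y => Y.E ψ y * conj (ψ y) := heB.mul hψ.conj
  have hcross : ∀ w : G, ∫ x, (g (w • x) * Y.E ψ x) *
      conj (Y.E (fun y => (φ (w • y) - g (w • y)) * ψ y) x) ∂μ =
      ∫ x, (g (w • x) * conj (φ (w • x) - g (w • x))) * (Y.E ψ x * conj (ψ x)) ∂μ := by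
    intro w
    have h1 := Y.integral_mul_E (hR w).conj (hP w).2 (hPm w)
    simp only [Y.E_conj] at h1
    refine Eq.trans ?_ (h1.symm.trans ?_)
    · congr 1
      funext x
      ring
    · congr 1
      funext x
      rw [map_mul]
      ring
  have hlow : ∀ w : G, (∫ x, ‖g (w • x)‖ ^ 2 * ‖Y.E ψ x‖ ^ 2 ∂μ) +
      2 * (∫ x, (g (w • x) * conj (φ (w • x) - g (w • x))) * (Y.E ψ x * conj (ψ x)) ∂μ).re ≤
      Y.h (fun x => φ (w • x) * ψ x) := by
    intro w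
    have hPQ : BM fun x => (g (w • x) * Y.E ψ x) *
      conj (Y.E (fun y => (φ (w • y) - g (w • y)) * ψ y) x) := (hP w).mul (hQ w).conj
    have i1 : Integrable (fun x => ‖g (w • x)‖ ^ 2 * ‖Y.E ψ x‖ ^ 2) μ :=
      ((hgw w).normSq.mul heB.normSq).integrable μ
    have i2 : Integrable (fun x => 2 * ((g (w • x) * Y.E ψ x) *
      conj (Y.E (fun y => (φ (w • y) - g (w • y)) * ψ y) x)).re) μ :=
      (hPQ.re.integrable μ).const_mul 2
    have e2 : (∫ x, (g (w • x) * Y.E ψ x) *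
      conj (Y.E (fun y => (φ (w • y) - g (w • y)) * ψ y) x) ∂μ).re =
      ∫ x, ((g (w • x) * Y.E ψ x) *
      conj (Y.E (fun y => (φ (w • y) - g (w • y)) * ψ y) x)).re ∂μ :=
      (integral_re (hPQ.integrable μ)).symm
    rw [← hcross w, e2, ← integral_const_mul, ← integral_add i1 i2]
    refine integral_mono_ae (i1.add i2) ((Y.E_BM (hF w)).normSq.integrable μ) ?_
    filter_upwards [hdec w] with x hx
    rw [hx]
    refine le_trans (le_of_eq ?_) (Alpha_sq _ _)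
    rw [norm_mul, mul_pow]
  -- bounds for the means
  have b1 : Bdd fun w : G => ∫ x, ‖g (w • x)‖ ^ 2 * ‖Y.E ψ x‖ ^ 2 ∂μ := by
    obtain ⟨C, hC⟩ := hgB.normSq.2
    obtain ⟨D, hD⟩ := heB.normSq.2
    refine BMR.bdd_integral (C := C * D) (fun w x => ?_) μ
    rw [abs_mul]
    exact mul_le_mul (hC _) (hD x) (abs_nonneg _) ((abs_nonneg _).trans (hC x))
  have b2 : BddC fun w : G =>
      ∫ x, (g (w • x) * conj (φ (w • x) - g (w • x))) * (Y.E ψ x * conj (ψ x)) ∂μ := by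
    obtain ⟨C, hC⟩ := hA.2
    obtain ⟨D, hD⟩ := hB.2
    refine BM.bddC_integral (C := C * D) (fun w x => ?_) μ
    rw [norm_mul]
    exact mul_le_mul (hC (w • x)) (hD x) (norm_nonneg _) ((norm_nonneg _).trans (hC x))
  have b3 : Bdd fun w : G => Y.h (fun x => φ (w • x) * ψ x) := by
    obtain ⟨C, hC⟩ := hφ.2
    obtain ⟨D, hD⟩ := hψ.2
    refine BMR.bdd_integral (C := (C * D) ^ 2) (fun w x => ?_) μ
    rw [abs_of_nonneg (by positivity)]
    refine pow_le_pow_left₀ (norm_nonneg _) (Y.E_bound (fun y => ?_) x) 2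
    rw [norm_mul]
    exact mul_le_mul (hC _) (hD y) (norm_nonneg _) ((norm_nonneg _).trans (hC y))
  have m1 := met_erg_real hμ hE M hgB.normSq heB.normSq
  have m2 := met_erg hμ hE M hA hB
  rw [hgc, zero_mul] at m2
  have m3 : M.m (fun w => (∫ x, (g (w • x) * conj (φ (w • x) - g (w • x))) *
      (Y.E ψ x * conj (ψ x)) ∂μ).re) = 0 := by
    rw [← M.c_re, m2, Complex.zero_re]
  have b4 : Bdd fun w : G => 2 * (∫ x, (g (w • x) * conj (φ (w • x) - g (w • x))) *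
      (Y.E ψ x * conj (ψ x)) ∂μ).re := (Bdd.const 2).mul b2.re
  calc Y.h φ * Y.h ψ = M.m (fun w => (∫ x, ‖g (w • x)‖ ^ 2 * ‖Y.E ψ x‖ ^ 2 ∂μ) +
      2 * (∫ x, (g (w • x) * conj (φ (w • x) - g (w • x))) *
        (Y.E ψ x * conj (ψ x)) ∂μ).re) := by
        rw [M.add' _ _ b1 b4, M.smul' _ _ b2.re, m1, m3, hhφ, mul_zero, add_zero]
        rfl
    _ ≤ _ := M.mono' _ _ (b1.add b4) b3 hlow

end Dadc30
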