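import Pool.Agent.Lib.MP_dadc30_co.Defs

/-!
# MP_dadc30_co, module BMapi: closure properties of bounded measurable functions.
-/

open MeasureTheory ProbabilityTheory Filter Topology
open scoped ENNReal ComplexConjugate

namespace Dadc30

variable {Ω Ω' : Type} [MeasurableSpace Ω] [MeasurableSpace Ω']

theorem BM.const (a : ℂ) : BM (fun _ : Ω => a) := ⟨measurable_const, ‖a‖, fun _ => le_rfl⟩
theorem BM.add {f g : Ω → ℂ} (hf : BM f) (hg : BM g) : BM (fun x => f x + g x) := by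
  obtain ⟨hfm, C, hC⟩ := hf
  obtain ⟨hgm, D, hD⟩ := hg
  exact ⟨hfm.add hgm, C + D, fun i => (norm_add_le _ _).trans (add_le_add (hC i) (hD i))⟩
theorem BM.sub {f g : Ω → ℂ} (hf : BM f) (hg : BM g) : BM (fun x => f x - g x) := by
  obtain ⟨hfm, C, hC⟩ := hf
  obtain ⟨hgm, D, hD⟩ := hg
  exact ⟨hfm.sub hgm, C + D, fun i => (norm_sub_le _ _).trans (add_le_add (hC i) (hD i))⟩
theorem BM.mul {f g : Ω → ℂ} (hf : BM f) (hg : BM g) : BM (fun x => f x * g x) := by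
  obtain ⟨hfm, C, hC⟩ := hf
  obtain ⟨hgm, D, hD⟩ := hg
  refine ⟨hfm.mul hgm, C * D, fun i => ?_⟩
  rw [norm_mul]
  exact mul_le_mul (hC i) (hD i) (norm_nonneg _) ((norm_nonneg _).trans (hC i))
theorem BM.neg {f : Ω → ℂ} (hf : BM f) : BM (fun x => - f x) := by
  obtain ⟨hfm, C, hC⟩ := hf
  exact ⟨hfm.neg, C, fun i => by rw [norm_neg]; exact hC i⟩
theorem BM.conj {f : Ω → ℂ} (hf : BM f) : BM (fun x => conj (f x)) := by
  obtain ⟨hfm, C, hC⟩ := hf
  exact ⟨Complex.continuous_conj.measurable.comp hfm, C, fun i => by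
    rw [RCLike.norm_conj]; exact hC i⟩
theorem BM.comp {f : Ω → ℂ} (hf : BM f) {σ : Ω' → Ω} (hσ : Measurable σ) :
    BM (fun x => f (σ x)) := by
  obtain ⟨hfm, C, hC⟩ := hf
  exact ⟨hfm.comp hσ, C, fun i => hC _⟩
theorem BM.norm {f : Ω → ℂ} (hf : BM f) : BMR (fun x => ‖f x‖) := by
  obtain ⟨hfm, C, hC⟩ := hf
  exact ⟨hfm.norm, C, fun i => by rw [abs_of_nonneg (norm_nonneg _)]; exact hC i⟩
theorem BM.normSq {f : Ω → ℂ} (hf : BM f) : BMR (fun x => ‖f x‖ ^ 2) := by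
  obtain ⟨hfm, C, hC⟩ := hf
  refine ⟨hfm.norm.pow_const 2, C ^ 2, fun i => ?_⟩
  rw [abs_of_nonneg (by positivity)]
  exact pow_le_pow_left₀ (norm_nonneg _) (hC i) 2
theorem BM.re {f : Ω → ℂ} (hf : BM f) : BMR (fun x => (f x).re) := by
  obtain ⟨hfm, C, hC⟩ := hf
  exact ⟨Complex.measurable_re.comp hfm, C, fun i => (Complex.abs_re_le_norm _).trans (hC i)⟩
theorem BM.indicator {f : Ω → ℂ} (hf : BM f) {A : Set Ω} (hA : MeasurableSet A) :
    BM (A.indicator f) := by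
  obtain ⟨hfm, C, hC⟩ := hf
  exact ⟨hfm.indicator hA, C, fun i => (norm_indicator_le_norm_self f i).trans (hC i)⟩
theorem BM.of_indicator {A : Set Ω} (hA : MeasurableSet A) :
    BM (A.indicator (fun _ => (1 : ℂ))) := (BM.const 1).indicator hA
theorem BM.ofReal {f : Ω → ℝ} (hf : BMR f) : BM (fun x => (f x : ℂ)) := by
  obtain ⟨hfm, C, hC⟩ := hf
  exact ⟨Complex.measurable_ofReal.comp hfm, C, fun i => by
    rw [Complex.norm_real]; exact hC i⟩
theorem BM.sum {ι : Type*} (s : Finset ι) {f : ι → Ω → ℂ} (hf : ∀ i ∈ s, BM (f i)) :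
    BM (fun x => ∑ i ∈ s, f i x) := by
  classical
  induction s using Finset.induction_on with
  | empty => simpa using (BM.const (Ω := Ω) 0)
  | insert a s ha ih =>
    simp only [Finset.sum_insert ha]
    exact (hf a (Finset.mem_insert_self a s)).add
      (ih fun i hi => hf i (Finset.mem_insert_of_mem hi))
theorem BM.integrable {f : Ω → ℂ} (hf : BM f) (μ : Measure Ω) [IsFiniteMeasure μ] :
    Integrable f μ := by
  obtain ⟨hfm, C, hC⟩ := hf
  exact Integrable.of_bound hfm.aestronglyMeasurable C (Eventually.of_forall hC)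
theorem BM.bddC_integral {ι : Type*} {f : ι → Ω → ℂ} {C : ℝ} (h : ∀ i x, ‖f i x‖ ≤ C)
    (μ : Measure Ω) [IsFiniteMeasure μ] : BddC (fun i => ∫ x, f i x ∂μ) :=
  ⟨C * μ.real Set.univ, fun i => norm_integral_le_of_norm_le_const (Eventually.of_forall (h i))⟩

theorem BMR.const (a : ℝ) : BMR (fun _ : Ω => a) := ⟨measurable_const, |a|, fun _ => le_rfl⟩
theorem BMR.add {f g : Ω → ℝ} (hf : BMR f) (hg : BMR g) : BMR (fun x => f x + g x) := by
  obtain ⟨hfm, C, hC⟩ := hf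
  obtain ⟨hgm, D, hD⟩ := hg
  exact ⟨hfm.add hgm, C + D, fun i => (abs_add_le _ _).trans (add_le_add (hC i) (hD i))⟩
theorem BMR.sub {f g : Ω → ℝ} (hf : BMR f) (hg : BMR g) : BMR (fun x => f x - g x) := by
  obtain ⟨hfm, C, hC⟩ := hf
  obtain ⟨hgm, D, hD⟩ := hg
  exact ⟨hfm.sub hgm, C + D, fun i => (abs_sub _ _).trans (add_le_add (hC i) (hD i))⟩
theorem BMR.mul {f g : Ω → ℝ} (hf : BMR f) (hg : BMR g) : BMR (fun x => f x * g x) := by
  obtain ⟨hfm, C, hC⟩ := hf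
  obtain ⟨hgm, D, hD⟩ := hg
  refine ⟨hfm.mul hgm, C * D, fun i => ?_⟩
  rw [abs_mul]
  exact mul_le_mul (hC i) (hD i) (abs_nonneg _) ((abs_nonneg _).trans (hC i))
theorem BMR.comp {f : Ω → ℝ} (hf : BMR f) {σ : Ω' → Ω} (hσ : Measurable σ) :
    BMR (fun x => f (σ x)) := by
  obtain ⟨hfm, C, hC⟩ := hf
  exact ⟨hfm.comp hσ, C, fun i => hC _⟩
theorem BMR.integrable {f : Ω → ℝ} (hf : BMR f) (μ : Measure Ω) [IsFiniteMeasure μ] :
    Integrable f μ := by
  obtain ⟨hfm, C, hC⟩ := hf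
  exact Integrable.of_bound hfm.aestronglyMeasurable C (Eventually.of_forall hC)
theorem BMR.bdd_integral {ι : Type*} {f : ι → Ω → ℝ} {C : ℝ} (h : ∀ i x, |f i x| ≤ C)
    (μ : Measure Ω) [IsFiniteMeasure μ] : Bdd (fun i => ∫ x, f i x ∂μ) := by
  refine ⟨C * μ.real Set.univ, fun i => ?_⟩
  have h1 : ∀ᵐ x ∂μ, ‖f i x‖ ≤ C := Eventually.of_forall (h i)
  have h2 := norm_integral_le_of_norm_le_const h1
  rwa [Real.norm_eq_abs] at h2

theorem BMapi_cs {u v : Ω → ℝ} (hu : BMR u) (hv : BMR v) (μ : Measure Ω) [IsFiniteMeasure μ] :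
    (∫ x, u x * v x ∂μ) ^ 2 ≤ (∫ x, u x ^ 2 ∂μ) * ∫ x, v x ^ 2 ∂μ := by
  have key : ∀ t : ℝ, 0 ≤ (∫ x, v x ^ 2 ∂μ) * (t * t) + (2 * ∫ x, u x * v x ∂μ) * t +
      ∫ x, u x ^ 2 ∂μ := by
    intro t
    have h0 : 0 ≤ ∫ x, (u x + t * v x) ^ 2 ∂μ := integral_nonneg fun x => sq_nonneg _
    have i1 : Integrable (fun x => u x ^ 2) μ := by
      simpa [sq] using (hu.mul hu).integrable μ
    have i2 : Integrable (fun x => v x ^ 2) μ := by
      simpa [sq] using (hv.mul hv).integrable μ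
    have i3 : Integrable (fun x => u x * v x) μ := (hu.mul hv).integrable μ
    have h1 : ∫ x, (u x + t * v x) ^ 2 ∂μ =
        ∫ x, (u x ^ 2 + ((2 * t) * (u x * v x) + (t * t) * v x ^ 2)) ∂μ := by
      congr 1
      funext x
      ring
    have i4 : Integrable (fun x => (2 * t) * (u x * v x) + (t * t) * v x ^ 2) μ :=
      (i3.const_mul _).add (i2.const_mul _)
    rw [h1, integral_add i1 i4, integral_add (i3.const_mul _) (i2.const_mul _),
      integral_const_mul, integral_const_mul] at h0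
    linarith
  have h := discrim_le_zero key
  unfold discrim at h
  nlinarith

/-- Cauchy-Schwarz on a probability space, first moment against second moment -/
theorem BM.sq_integral_norm_le {f : Ω → ℂ} (hf : BM f) (μ : Measure Ω) [IsProbabilityMeasure μ] :
    (∫ x, ‖f x‖ ∂μ) ^ 2 ≤ ∫ x, ‖f x‖ ^ 2 ∂μ := by
  have h := BMapi_cs hf.norm (BMR.const (Ω := Ω) 1) μ
  simpa using h

/-- Cauchy-Schwarz -/
theorem BM.norm_integral_mul_sq_le {f g : Ω → ℂ} (hf : BM f) (hg : BM g) (μ : Measure Ω)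
    [IsFiniteMeasure μ] :
    ‖∫ x, f x * g x ∂μ‖ ^ 2 ≤ (∫ x, ‖f x‖ ^ 2 ∂μ) * ∫ x, ‖g x‖ ^ 2 ∂μ := by
  refine le_trans (pow_le_pow_left₀ (norm_nonneg _) ?_ 2) (BMapi_cs hf.norm hg.norm μ)
  refine (norm_integral_le_integral_norm _).trans (le_of_eq ?_)
  congr 1
  funext x
  exact norm_mul _ _

end Dadc30
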