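import Pool.Agent.Lib.MP_dadc30_co.Folner

open MeasureTheory ProbabilityTheory Filter Topology
open scoped ENNReal ComplexConjugate

namespace Dadc30

open Classical in
theorem folnerSqrt_shift {G : Type} [AddCommGroup G] (c : G →₀ ℝ) (v : G) (ψ : G → ℝ)
    (T : Finset G) (hT : ∀ g, g + v ∈ c.support → g ∈ T) :
    ∑ g ∈ T, c (g + v) * ψ g = avg c (fun g => ψ (g + -v)) := by
  have h1 : ∑ g ∈ c.support.image (fun g => g + -v), c (g + v) * ψ g =
      ∑ g ∈ T, c (g + v) * ψ g := by
    refine Finset.sum_subset ?_ ?_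
    · intro g hg
      obtain ⟨h, hh, rfl⟩ := Finset.mem_image.1 hg
      exact hT _ (by rwa [neg_add_cancel_right])
    · intro g _ hg
      by_cases hc : c (g + v) = 0
      · rw [hc, zero_mul]
      · exact absurd (Finset.mem_image.2 ⟨g + v, Finsupp.mem_support_iff.2 hc,
          add_neg_cancel_right g v⟩) hg
  rw [← h1, Finset.sum_image (fun a _ b _ hab => add_right_cancel hab)]
  unfold avg Finsupp.sum
  exact Finset.sum_congr rfl fun g _ => by rw [neg_add_cancel_right]

theorem folnerSqrt_avg {G : Type} [AddCommGroup G] (c : G →₀ ℝ) (ψ : G → ℝ)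
    (T : Finset G) (hT : c.support ⊆ T) : ∑ g ∈ T, c g * ψ g = avg c ψ := by
  unfold avg Finsupp.sum
  refine (Finset.sum_subset hT fun g _ hg => ?_).symm
  rw [Finsupp.notMem_support_iff.1 hg, zero_mul]

theorem folnerSqrt_sq {a b : ℝ} (ha : 0 ≤ a) (hb : 0 ≤ b) : (√a - √b) ^ 2 ≤ |a - b| := by
  have h1 : a - b = (√a - √b) * (√a + √b) := by
    have h2 := Real.mul_self_sqrt ha
    have h3 := Real.mul_self_sqrt hb
    nlinarith
  have h4 : |√a - √b| ≤ √a + √b := by
    have h5 := Real.sqrt_nonneg a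
    have h6 := Real.sqrt_nonneg b
    rw [abs_le]
    constructor <;> linarith
  rw [h1, abs_mul, abs_of_nonneg (add_nonneg (Real.sqrt_nonneg a) (Real.sqrt_nonneg b)),
    ← sq_abs, sq]
  exact mul_le_mul_of_nonneg_left h4 (abs_nonneg _)

open Classical in
theorem folnerSqrt_bound {G : Type} [AddCommGroup G] (F : FolnerSeq G) (v : G) (n : ℕ) :
    1 - F.e n (-v) / 2 ≤ ∑ g ∈ (F.c n).support, √(F.c n g) * √(F.c n (g + v)) ∧
      ∑ g ∈ (F.c n).support, √(F.c n g) * √(F.c n (g + v)) ≤ 1 := by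
  set c := F.c n with hc
  set T : Finset G := c.support ∪ c.support.image (fun g => g + -v) with hT
  have hT1 : c.support ⊆ T := Finset.subset_union_left
  have hT2 : ∀ g, g + v ∈ c.support → g ∈ T := fun g hg =>
    Finset.mem_union_right _ (Finset.mem_image.2 ⟨g + v, hg, add_neg_cancel_right g v⟩)
  have hone : avg c (fun _ => (1 : ℝ)) = 1 := by
    have := F.one n
    unfold avg
    simpa using this
  have s1 : ∑ g ∈ T, c g = 1 := by
    have := folnerSqrt_avg c (fun _ => (1 : ℝ)) T hT1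
    simp only [mul_one] at this
    rw [this, hone]
  have s2 : ∑ g ∈ T, c (g + v) = 1 := by
    have := folnerSqrt_shift c v (fun _ => (1 : ℝ)) T hT2
    simp only [mul_one] at this
    rw [this, hone]
  have s3 : ∑ g ∈ c.support, √(c g) * √(c (g + v)) = ∑ g ∈ T, √(c g) * √(c (g + v)) := by
    refine Finset.sum_subset hT1 fun g _ hg => ?_
    rw [Finsupp.notMem_support_iff.1 hg, Real.sqrt_zero, zero_mul]
  have hnn : ∀ g, 0 ≤ c g := fun g => F.nonneg n g
  have s4 : 2 * ∑ g ∈ T, √(c g) * √(c (g + v)) =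
      2 - ∑ g ∈ T, (√(c g) - √(c (g + v))) ^ 2 := by
    have h1 : ∑ g ∈ T, (√(c g) - √(c (g + v))) ^ 2 =
        ∑ g ∈ T, (c g + c (g + v) - 2 * (√(c g) * √(c (g + v)))) := by
      refine Finset.sum_congr rfl fun g _ => ?_
      have h2 := Real.mul_self_sqrt (hnn g)
      have h3 := Real.mul_self_sqrt (hnn (g + v))
      nlinarith
    rw [h1, Finset.sum_sub_distrib, Finset.sum_add_distrib, s1, s2, ← Finset.mul_sum]
    ring
  have s5 : 0 ≤ ∑ g ∈ T, (√(c g) - √(c (g + v))) ^ 2 := Finset.sum_nonneg fun g _ => sq_nonneg _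
  have s6 : ∑ g ∈ T, (√(c g) - √(c (g + v))) ^ 2 ≤ F.e n (-v) := by
    let σ : G → ℝ := fun g => if c (g + v) ≤ c g then 1 else -1
    have hσ : ∀ g, |σ g| ≤ 1 := by
      intro g
      show |if c (g + v) ≤ c g then (1 : ℝ) else -1| ≤ 1
      split_ifs <;> norm_num
    have h1 : ∑ g ∈ T, (√(c g) - √(c (g + v))) ^ 2 ≤ ∑ g ∈ T, (c g * σ g - c (g + v) * σ g) := by
      refine Finset.sum_le_sum fun g _ => (folnerSqrt_sq (hnn g) (hnn (g + v))).trans ?_
      show |c g - c (g + v)| ≤ c g * (if c (g + v) ≤ c g then (1 : ℝ) else -1) -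
        c (g + v) * (if c (g + v) ≤ c g then (1 : ℝ) else -1)
      split_ifs with h
      · rw [abs_of_nonneg (by linarith)]; linarith
      · push Not at h
        rw [abs_of_neg (by linarith)]; linarith
    rw [Finset.sum_sub_distrib, folnerSqrt_avg c σ T hT1, folnerSqrt_shift c v σ T hT2] at h1
    have h2 := F.inv n (-v) σ hσ
    have h3 := neg_abs_le (avg (F.c n) (fun g => σ (g + -v)) - avg (F.c n) σ)
    rw [← hc] at h2 h3
    linarith
  rw [s3]
  constructor <;> linarith

/-- the overlap of the square roots tends to 1: from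
`∑ |√c(g) - √c(g+v)|² ≤ ∑ |c(g) - c(g+v)| = avg φ(·-v) - avg φ` with a sign function `φ`. -/
theorem FolnerSeq.sqrt_tendsto {G : Type} [AddCommGroup G] (F : FolnerSeq G) (v : G) :
    Tendsto (fun n => ∑ g ∈ (F.c n).support, √(F.c n g) * √(F.c n (g + v))) atTop (𝓝 1) := by
  have h1 : Tendsto (fun n => 1 - F.e n (-v) / 2) atTop (𝓝 1) := by
    have := (tendsto_const_nhds (x := (1 : ℝ))).sub ((F.e_tendsto (-v)).div_const 2)
    simpa using this
  exact tendsto_of_tendsto_of_tendsto_of_le_of_le h1 tendsto_const_nhds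
    (fun n => (folnerSqrt_bound F v n).1) (fun n => (folnerSqrt_bound F v n).2)

end Dadc30
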