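import Pool.Agent.Lib.MP_dadc30_co.HaarX
import Pool.Agent.Lib.MP_dadc30_co.FolnerSqrt

/-!
# MP_dadc30_co, module Bochner: Bochner's theorem for the countable discrete group `K`.

`F : FolnerSeq K`, `a v = √(F.c n v)`.  Density
`D_n(x) = Re ∑_{v,v'} a v a v' f(v - v') χ_v(x) conj χ_{v'}(x) ≥ 0` (by `hpos` with coefficients
`a v χ_v(x)`; the sum is real since `f` is even), `σ_n = D_n · haar`.  Then
`∫ χ_z dσ_n = f(z) ∑_v a v a (v+z) → f z` (`FolnerSeq.sqrt_tendsto`), in particular the masses
are bounded by `f 0`.  Finite measures of mass `≤ C` on a compact metrizable space form a compact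
set (`Prokhorov.lean`): take the limit along `hyperfilter ℕ` in `FiniteMeasure X` and use that
`Re χ_z, Im χ_z` are bounded continuous. -/

open MeasureTheory ProbabilityTheory Filter Topology
open scoped ENNReal ComplexConjugate

namespace Dadc30

/-- the approximating density, complex version -/
private noncomputable def BochnerT (f : K → ℝ) (c : K →₀ ℝ) (x : X) : ℂ :=
  ∑ v ∈ c.support, ∑ v' ∈ c.support, (((√(c v) : ℝ) : ℂ) * chi v x) *
    conj (((√(c v') : ℝ) : ℂ) * chi v' x) * ((f (v - v') : ℝ) : ℂ)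

private theorem BochnerT_real (f : K → ℝ) (hsym : ∀ z, f (-z) = f z) (c : K →₀ ℝ) (x : X) :
    (((BochnerT f c x).re : ℝ) : ℂ) = BochnerT f c x := by
  rw [← Complex.conj_eq_iff_re]
  unfold BochnerT
  rw [map_sum, Finset.sum_congr rfl (fun v _ => map_sum _ _ _), Finset.sum_comm]
  refine Finset.sum_congr rfl fun v _ => Finset.sum_congr rfl fun v' _ => ?_
  rw [map_mul, map_mul, Complex.conj_conj, Complex.conj_ofReal, ← hsym (v - v'), neg_sub]
  ring

private theorem BochnerT_cont (f : K → ℝ) (c : K →₀ ℝ) : Continuous (BochnerT f c) := by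
  unfold BochnerT
  refine continuous_finsetSum _ fun v _ => continuous_finsetSum _ fun v' _ => ?_
  exact ((continuous_const.mul (continuous_chi v)).mul
    (Complex.continuous_conj.comp (continuous_const.mul (continuous_chi v')))).mul continuous_const

private theorem Bochner_orth (m : Measure X) [IsProbabilityMeasure m]
    (hm : ∀ z : K, z ≠ 0 → ∫ x, chi z x ∂m = 0) (z : K) :
    ∫ x, chi z x ∂m = if z = 0 then 1 else 0 := by
  split_ifs with h
  · subst h
    simp only [chi_zero]
    simp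
  · exact hm z h

private theorem Bochner_int_chi (m : Measure X) [IsProbabilityMeasure m] (z : K) :
    Integrable (chi z) m := (BM_chi z).integrable m

open Classical in
private theorem BochnerT_integral (f : K → ℝ) (hsym : ∀ z, f (-z) = f z) (c : K →₀ ℝ)
    (m : Measure X) [IsProbabilityMeasure m]
    (hm : ∀ z : K, z ≠ 0 → ∫ x, chi z x ∂m = 0) (z : K) :
    ∫ x, BochnerT f c x * chi z x ∂m =
      ((f z * ∑ v ∈ c.support, √(c v) * √(c (v + z)) : ℝ) : ℂ) := by
  have h1 : ∀ x, BochnerT f c x * chi z x = ∑ v ∈ c.support, ∑ v' ∈ c.support,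
      ((√(c v) * √(c v') * f (v - v') : ℝ) : ℂ) * chi (v - v' + z) x := by
    intro x
    unfold BochnerT
    rw [Finset.sum_mul]
    refine Finset.sum_congr rfl fun v _ => ?_
    rw [Finset.sum_mul]
    refine Finset.sum_congr rfl fun v' _ => ?_
    rw [chi_add, chi_sub, map_mul, Complex.conj_ofReal]
    push_cast
    ring
  simp_rw [h1]
  rw [integral_finsetSum _ fun v _ => integrable_finsetSum _ fun v' _ =>
    (Bochner_int_chi m _).const_mul _]
  have h2 : ∀ v ∈ c.support, ∫ x, ∑ v' ∈ c.support,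
      ((√(c v) * √(c v') * f (v - v') : ℝ) : ℂ) * chi (v - v' + z) x ∂m =
      ((f z * (√(c v) * √(c (v + z))) : ℝ) : ℂ) := by
    intro v _
    rw [integral_finsetSum _ fun v' _ => (Bochner_int_chi m _).const_mul _]
    have h3 : ∀ v' ∈ c.support, ∫ x, ((√(c v) * √(c v') * f (v - v') : ℝ) : ℂ) *
        chi (v - v' + z) x ∂m =
        if v' = v + z then ((f z * (√(c v) * √(c (v + z))) : ℝ) : ℂ) else 0 := by
      intro v' _
      rw [integral_const_mul, Bochner_orth m hm]
      by_cases h4 : v' = v + z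
      · subst h4
        rw [if_pos (by ring), if_pos rfl, mul_one]
        have h5 : v - (v + z) = -z := by ring
        rw [h5, hsym]
        congr 1
        ring
      · rw [if_neg, if_neg h4, mul_zero]
        intro h5
        apply h4
        have : v' = v' + (v - v' + z) := by rw [h5, add_zero]
        rw [this]
        ring
    rw [Finset.sum_congr rfl h3, Finset.sum_ite_eq']
    split_ifs with h6
    · rfl
    · rw [Finsupp.notMem_support_iff.mp h6]
      simp
  rw [Finset.sum_congr rfl h2, ← Complex.ofReal_sum, Finset.mul_sum]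

/-- the approximating measures -/
private theorem Bochner_approx (f : K → ℝ) (hsym : ∀ z, f (-z) = f z)
    (hpos : ∀ (s : Finset K) (a : K → ℂ),
      0 ≤ (∑ x ∈ s, ∑ y ∈ s, a x * conj (a y) * ((f (x - y) : ℝ) : ℂ)).re)
    (m : Measure X) [IsProbabilityMeasure m]
    (hm : ∀ z : K, z ≠ 0 → ∫ x, chi z x ∂m = 0) (c : K →₀ ℝ) :
    ∃ σ : FiniteMeasure X, ∀ z, ∫ x, chi z x ∂(σ : Measure X) =
      ((f z * ∑ v ∈ c.support, √(c v) * √(c (v + z)) : ℝ) : ℂ) := by
  have hD0 : ∀ x, 0 ≤ (BochnerT f c x).re := fun x =>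
    hpos c.support (fun v => ((√(c v) : ℝ) : ℂ) * chi v x)
  let d : X → NNReal := fun x => Real.toNNReal (BochnerT f c x).re
  have hdm : Measurable d :=
    (Complex.continuous_re.comp (BochnerT_cont f c)).measurable.real_toNNReal
  have hcont : Continuous d :=
    continuous_real_toNNReal.comp (Complex.continuous_re.comp (BochnerT_cont f c))
  have hfin : IsFiniteMeasure (m.withDensity (fun x => (d x : ℝ≥0∞))) := by
    refine isFiniteMeasure_withDensity ?_
    obtain ⟨C, hC⟩ := (isCompact_range hcont).bddAbove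
    have : ∫⁻ x, (d x : ℝ≥0∞) ∂m ≤ (C : ℝ≥0∞) := by
      calc ∫⁻ x, (d x : ℝ≥0∞) ∂m ≤ ∫⁻ _, (C : ℝ≥0∞) ∂m :=
            lintegral_mono fun x => ENNReal.coe_le_coe.mpr (hC ⟨x, rfl⟩)
        _ = C := by rw [lintegral_const, measure_univ, mul_one]
    exact ne_top_of_le_ne_top ENNReal.coe_ne_top this
  refine ⟨⟨m.withDensity (fun x => (d x : ℝ≥0∞)), hfin⟩, fun z => ?_⟩
  show ∫ x, chi z x ∂(m.withDensity (fun x => (d x : ℝ≥0∞))) = _
  rw [integral_withDensity_eq_integral_smul hdm, ← BochnerT_integral f hsym c m hm z]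
  refine integral_congr_ae (Eventually.of_forall fun x => ?_)
  show (d x) • chi z x = BochnerT f c x * chi z x
  rw [← BochnerT_real f hsym c x, NNReal.smul_def, Complex.real_smul]
  congr 1
  show (((Real.toNNReal (BochnerT f c x).re : NNReal) : ℝ) : ℂ) = _
  rw [Real.coe_toNNReal _ (hD0 x)]

theorem bochner (f : K → ℝ) (hsym : ∀ z, f (-z) = f z)
    (hpos : ∀ (s : Finset K) (a : K → ℂ),
      0 ≤ (∑ x ∈ s, ∑ y ∈ s, a x * conj (a y) * ((f (x - y) : ℝ) : ℂ)).re) :
    ∃ σ : Measure X, IsFiniteMeasure σ ∧ ∀ z, ft σ z = ((f z : ℝ) : ℂ) := by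
  obtain ⟨m, hmp, hm⟩ := exists_haar
  obtain ⟨F⟩ := exists_folner K
  choose σ hσ using fun n => Bochner_approx f hsym hpos m hm (F.c n)
  have hf0 : 0 ≤ f 0 := by
    have := hpos {0} (fun _ => 1)
    simpa using this
  have hmass : ∀ n, (σ n).mass ≤ Real.toNNReal (f 0) := by
    intro n
    have h1 := hσ n 0
    simp only [chi_zero] at h1
    rw [integral_const, Complex.real_smul, mul_one] at h1
    have h2 : ((σ n : Measure X).real Set.univ : ℝ) =
        f 0 * ∑ v ∈ (F.c n).support, √(F.c n v) * √(F.c n (v + 0)) := by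
      exact_mod_cast h1
    have h3 := (folnerSqrt_bound F (0 : K) n).2
    have h4 : ((σ n : Measure X).real Set.univ : ℝ) ≤ f 0 := by
      rw [h2]
      calc f 0 * ∑ v ∈ (F.c n).support, √(F.c n v) * √(F.c n (v + 0)) ≤ f 0 * 1 :=
            mul_le_mul_of_nonneg_left h3 hf0
        _ = f 0 := mul_one _
    rw [← NNReal.coe_le_coe, Real.coe_toNNReal _ hf0]
    exact h4
  have hcomp := isCompact_setOfPred_finiteMeasure_le_of_compactSpace X (Real.toNNReal (f 0))
  obtain ⟨τ, _, hτ⟩ := hcomp.ultrafilter_le_nhds' ((hyperfilter ℕ).map σ) (by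
    rw [Ultrafilter.mem_map]
    exact Filter.univ_mem' hmass)
  have htend : Tendsto σ (hyperfilter ℕ : Filter ℕ) (𝓝 τ) := hτ
  rw [FiniteMeasure.tendsto_iff_forall_integral_tendsto] at htend
  refine ⟨(τ : Measure X), inferInstance, fun z => ?_⟩
  have hle : (hyperfilter ℕ : Filter ℕ) ≤ atTop := by
    rw [← Nat.cofinite_eq_atTop]
    exact hyperfilter_le_cofinite
  have hlim : Tendsto (fun n => f z * ∑ v ∈ (F.c n).support, √(F.c n v) * √(F.c n (v + z)))
      (hyperfilter ℕ : Filter ℕ) (𝓝 (f z)) := by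
    have := ((F.sqrt_tendsto z).const_mul (f z)).mono_left hle
    rwa [mul_one] at this
  have hint : ∀ (μ : Measure X) [IsFiniteMeasure μ], Integrable (chi z) μ := fun μ _ =>
    (BM_chi z).integrable μ
  have hre : ∀ (μ : Measure X) [IsFiniteMeasure μ], ∫ x, (chi z x).re ∂μ =
      (∫ x, chi z x ∂μ).re := fun μ _ => integral_re (hint μ)
  have him : ∀ (μ : Measure X) [IsFiniteMeasure μ], ∫ x, (chi z x).im ∂μ =
      (∫ x, chi z x ∂μ).im := fun μ _ => integral_im (hint μ)
  let gre : BoundedContinuousFunction X ℝ := BoundedContinuousFunction.mkOfCompact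
    ⟨fun x => (chi z x).re, Complex.continuous_re.comp (continuous_chi z)⟩
  let gim : BoundedContinuousFunction X ℝ := BoundedContinuousFunction.mkOfCompact
    ⟨fun x => (chi z x).im, Complex.continuous_im.comp (continuous_chi z)⟩
  have t1 : Tendsto (fun n => ∫ x, (chi z x).re ∂(σ n : Measure X)) (hyperfilter ℕ : Filter ℕ)
      (𝓝 (∫ x, (chi z x).re ∂(τ : Measure X))) := htend gre
  have t2 : Tendsto (fun n => ∫ x, (chi z x).im ∂(σ n : Measure X)) (hyperfilter ℕ : Filter ℕ)
      (𝓝 (∫ x, (chi z x).im ∂(τ : Measure X))) := htend gim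
  have e1 : ∀ n, ∫ x, (chi z x).re ∂(σ n : Measure X) =
      f z * ∑ v ∈ (F.c n).support, √(F.c n v) * √(F.c n (v + z)) := by
    intro n
    rw [hre, hσ n z, Complex.ofReal_re]
  have e2 : ∀ n, ∫ x, (chi z x).im ∂(σ n : Measure X) = 0 := by
    intro n
    rw [him, hσ n z, Complex.ofReal_im]
  simp_rw [e1] at t1
  simp_rw [e2] at t2
  have r1 := tendsto_nhds_unique t1 hlim
  have r2 := tendsto_nhds_unique t2 tendsto_const_nhds
  rw [hre] at r1
  rw [him] at r2
  unfold ft
  apply Complex.ext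
  · rw [r1, Complex.ofReal_re]
  · rw [r2, Complex.ofReal_im]

end Dadc30
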