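import Mathlib

set_option autoImplicit false

namespace Pool.Agent.Lib.MP_dadc30_co

open Finset

/-- translation operators on functions -/
noncomputable def trans (F V : Type*) [Field F] [AddCommGroup V] :
    Multiplicative V →* Module.End F (V → F) where
  toFun v :=
    { toFun := fun f u => f (u + v.toAdd)
      map_add' := fun _ _ => rfl
      map_smul' := fun _ _ => rfl }
  map_one' := by
    ext f u
    simp
  map_mul' v w := by
    ext f u
    simp only [LinearMap.coe_mk, AddHom.coe_mk, toAdd_mul, Module.End.mul_apply]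
    congr 1
    abel

lemma trans_apply (F V : Type*) [Field F] [AddCommGroup V] (v u : V) (f : V → F) :
    trans F V (Multiplicative.ofAdd v) f u = f (u + v) := rfl

/-- the action of the group algebra -/
noncomputable def act (F V : Type*) [Field F] [AddCommGroup V] :
    AddMonoidAlgebra F V →ₐ[F] Module.End F (V → F) :=
  AddMonoidAlgebra.lift F _ V (trans F V)

lemma act_single (F V : Type*) [Field F] [AddCommGroup V] (v u : V) (f : V → F) :
    act F V (AddMonoidAlgebra.single v 1) f u = f (u + v) := by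
  rw [act, AddMonoidAlgebra.lift_single, one_smul, trans_apply]

lemma act_sum (F V : Type*) [Field F] [AddCommGroup V] {n : ℕ} (x : Fin n → V) (u : V)
    (f : V → F) :
    act F V (∑ j, AddMonoidAlgebra.single (x j) 1) f u = ∑ j, f (u + x j) := by
  rw [map_sum, LinearMap.sum_apply, Finset.sum_apply]
  exact Finset.sum_congr rfl (fun j _ => act_single F V (x j) u f)

/-- prime multipliers -/
lemma mult_prime {V : Type*} [AddCommGroup V] (g : V → ℤ) (hg : ∀ v, g v = 0 ∨ g v = 1)
    (n : ℕ) (k : ℤ) (x : Fin n → V) (h : ∀ v, ∑ j, g (v + x j) = k) (p : ℕ) (hp : p.Prime)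
    (hpn : n < p) : ∀ v, ∑ j, g (v + p • x j) = k := by
  have : Fact p.Prime := ⟨hp⟩
  intro v
  let G : V → ZMod p := fun v => (g v : ZMod p)
  let Θ : AddMonoidAlgebra (ZMod p) V := ∑ j, AddMonoidAlgebra.single (x j) 1
  have hΘG : act (ZMod p) V Θ G = fun _ => (k : ZMod p) := by
    funext u
    rw [act_sum]
    have := congrArg (fun z : ℤ => (z : ZMod p)) (h u)
    push_cast at this
    exact this
  have hΘc : ∀ c : ZMod p, act (ZMod p) V Θ (fun _ => c) = fun _ => (n : ZMod p) * c := by
    intro c
    funext u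
    rw [act_sum]
    simp
  have hpow : ∀ i : ℕ, act (ZMod p) V (Θ ^ (i + 1)) G = fun _ => (n : ZMod p) ^ i * k := by
    intro i
    induction i with
    | zero => simpa using hΘG
    | succ i ih =>
      rw [pow_succ', map_mul, Module.End.mul_apply, ih, hΘc]
      funext u
      ring
  have : CharP (AddMonoidAlgebra (ZMod p) V) p :=
    charP_of_injective_algebraMap (algebraMap (ZMod p) (AddMonoidAlgebra (ZMod p) V)).injective p
  have hΘp : Θ ^ p = ∑ j, AddMonoidAlgebra.single (p • x j) 1 := by
    rw [sum_pow_char]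
    refine Finset.sum_congr rfl (fun j _ => ?_)
    rw [AddMonoidAlgebra.single_pow, one_pow]
  have h1 : act (ZMod p) V (Θ ^ p) G v = (k : ZMod p) := by
    obtain ⟨i, hi⟩ : ∃ i, p = i + 1 := ⟨p - 1, by have := hp.pos; omega⟩
    have hn0 : (n : ZMod p) ≠ 0 ∨ n = 0 := by
      rcases Nat.eq_zero_or_pos n with h0 | h0
      · right; exact h0
      · left
        intro hz
        have := (ZMod.natCast_eq_zero_iff _ _).mp hz
        have := Nat.le_of_dvd h0 this
        omega
    have h2 : Θ ^ p = Θ ^ ((p - 1) + 1) := by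
      congr 1
      omega
    rw [h2, hpow]
    rcases hn0 with hn0 | hn0
    · rw [ZMod.pow_card_sub_one_eq_one hn0, one_mul]
    · subst hn0
      have hk0 : k = 0 := by
        rw [← h 0]
        simp
      rw [hk0]
      simp
  rw [hΘp, act_sum] at h1
  have h2 : ((∑ j, g (v + p • x j) : ℤ) : ZMod p) = (k : ZMod p) := by
    push_cast
    exact h1
  have h3 : (p : ℤ) ∣ k - ∑ j, g (v + p • x j) := (ZMod.intCast_eq_intCast_iff_dvd_sub _ _ _).mp h2
  have hbound : ∀ y : Fin n → V, 0 ≤ ∑ j, g (v + y j) ∧ ∑ j, g (v + y j) ≤ n := by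
    intro y
    constructor
    · exact Finset.sum_nonneg (fun j _ => by rcases hg (v + y j) with h | h <;> rw [h]; norm_num)
    · calc ∑ j, g (v + y j) ≤ ∑ _j : Fin n, (1 : ℤ) :=
          Finset.sum_le_sum (fun j _ => by rcases hg (v + y j) with h | h <;> rw [h]; norm_num)
        _ = n := by simp
  have hb1 := hbound (fun j => p • x j)
  have hb2 := hbound x
  rw [h v] at hb2
  obtain ⟨z, hz⟩ := h3
  have hpn' : (n : ℤ) < p := by exact_mod_cast hpn
  have hz0 : z = 0 := by
    rcases lt_trichotomy z 0 with h | h | h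
    · nlinarith [hb1.1, hb1.2, hb2.1, hb2.2]
    · exact h
    · nlinarith [hb1.1, hb1.2, hb2.1, hb2.2]
  rw [hz0] at hz
  linarith

/-- all multipliers congruent to `1` modulo `n!`. -/
lemma mult_all {V : Type*} [AddCommGroup V] (g : V → ℤ) (hg : ∀ v, g v = 0 ∨ g v = 1)
    (n : ℕ) (k : ℤ) (x : Fin n → V) (h : ∀ v, ∑ j, g (v + x j) = k) :
    ∀ m : ℕ, 0 < m → (∀ p : ℕ, p.Prime → p ∣ m → n < p) → ∀ v, ∑ j, g (v + m • x j) = k := by
  intro m
  induction m using Nat.strong_induction_on with
  | _ m ih =>
  intro hm hpm v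
  by_cases h1 : m = 1
  · subst h1
    simpa using h v
  · have hmf := Nat.minFac_prime h1
    obtain ⟨m', hm'⟩ := Nat.minFac_dvd m
    have hm'0 : 0 < m' := by
      rcases Nat.eq_zero_or_pos m' with h0 | h0
      · rw [h0] at hm'
        omega
      · exact h0
    have hlt : m' < m := by
      have := hmf.two_le
      rw [hm']
      have h2 : 2 * m' ≤ m.minFac * m' := Nat.mul_le_mul_right _ this
      omega
    have hm'p : ∀ p : ℕ, p.Prime → p ∣ m' → n < p := by
      intro p hp hpd
      exact hpm p hp (by rw [hm']; exact hpd.mul_left _)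
    have hstep := mult_prime g hg n k (fun j => m' • x j) (ih m' hlt hm'0 hm'p) m.minFac hmf
      (hpm _ hmf (Nat.minFac_dvd m)) v
    rw [← hstep]
    refine Finset.sum_congr rfl (fun j _ => ?_)
    rw [smul_smul, ← hm']

end Pool.Agent.Lib.MP_dadc30_co
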