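import Mathlib
import Pool.Agent.Lib.MP_dadc30_co.Multiplier

set_option autoImplicit false

namespace Pool.Agent.Lib.MP_dadc30_co

open Finset

/-- If all sums `∑ ζ_j η_j^t` vanish then so do the sums over the classes of equal `η`. -/
lemma class_sum {L : Type*} [Field L] [DecidableEq L] {n : ℕ} (ζ η : Fin n → L)
    (h : ∀ t : ℕ, ∑ j, ζ j * η j ^ t = 0) (j₀ : Fin n) :
    ∑ j with η j = η j₀, ζ j = 0 := by
  classical
  have hpoly : ∀ P : Polynomial L, ∑ j, ζ j * P.eval (η j) = 0 := by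
    intro P
    induction P using Polynomial.induction_on' with
    | add p q hp hq =>
      simp only [Polynomial.eval_add, mul_add, Finset.sum_add_distrib, hp, hq, add_zero]
    | monomial t a =>
      simp only [Polynomial.eval_monomial]
      have : ∀ j, ζ j * (a * η j ^ t) = a * (ζ j * η j ^ t) := fun j => by ring
      simp only [this, ← Finset.mul_sum, h t, mul_zero]
  let S := (Finset.univ.image η).erase (η j₀)
  let P : Polynomial L := ∏ y ∈ S, (Polynomial.X - Polynomial.C y)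
  have hP0 : P.eval (η j₀) ≠ 0 := by
    rw [Polynomial.eval_prod, Finset.prod_ne_zero_iff]
    intro y hy
    rw [Polynomial.eval_sub, Polynomial.eval_X, Polynomial.eval_C, sub_ne_zero]
    exact (Finset.ne_of_mem_erase hy).symm
  have hP1 : ∀ j, η j ≠ η j₀ → P.eval (η j) = 0 := by
    intro j hj
    rw [Polynomial.eval_prod]
    apply Finset.prod_eq_zero (i := η j)
    · exact Finset.mem_erase.mpr ⟨hj, Finset.mem_image_of_mem _ (Finset.mem_univ _)⟩
    · simp
  have h1 := hpoly P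
  have h2 : ∑ j, ζ j * P.eval (η j) = (∑ j with η j = η j₀, ζ j) * P.eval (η j₀) := by
    rw [Finset.sum_mul, Finset.sum_filter]
    refine Finset.sum_congr rfl (fun j _ => ?_)
    split_ifs with hj
    · rw [hj]
    · rw [hP1 j hj, mul_zero]
  rw [h2] at h1
  exact (mul_eq_zero.mp h1).resolve_right hP0

/-- the integer sequence with `B_D = N^D (q^D + q^{-D})` when `q + 1/q = 1/N`. -/
def Bseq (N : ℤ) : ℕ → ℤ
  | 0 => 2
  | 1 => 1
  | (D + 2) => Bseq N (D + 1) - N ^ 2 * Bseq N D

lemma Bseq_mod (N : ℤ) : ∀ D : ℕ, ∃ b : ℤ, Bseq N (D + 1) = 1 + N * b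
  | 0 => ⟨0, by simp [Bseq]⟩
  | (D + 1) => by
    obtain ⟨b, hb⟩ := Bseq_mod N D
    refine ⟨b - N * Bseq N D, ?_⟩
    have : Bseq N (D + 1 + 1) = Bseq N (D + 1) - N ^ 2 * Bseq N D := rfl
    rw [this, hb]
    ring

lemma Bseq_rel {R : Type*} [CommRing R] (N : ℤ) (q : R) (hq : (N : R) * (q ^ 2 + 1) = q) :
    ∀ D : ℕ, (N : R) ^ D * (q ^ (2 * D) + 1) = (Bseq N D : R) * q ^ D
  | 0 => by
    simp [Bseq]
    norm_num
  | 1 => by
    simp only [Bseq, pow_one, mul_one, Int.cast_one, one_mul]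
    exact hq
  | (D + 2) => by
    have h1 := Bseq_rel N q hq (D + 1)
    have h2 := Bseq_rel N q hq D
    have : Bseq N (D + 2) = Bseq N (D + 1) - N ^ 2 * Bseq N D := rfl
    rw [this]
    push_cast
    have e1 : ((Bseq N (D + 1) : R) - (N : R) ^ 2 * (Bseq N D : R)) * q ^ (D + 2) =
        q * ((Bseq N (D + 1) : R) * q ^ (D + 1)) - (N : R) ^ 2 * q ^ 2 * ((Bseq N D : R) * q ^ D) := by
      ring
    rw [e1, ← h1, ← h2]
    have e2 : q * ((N : R) ^ (D + 1) * (q ^ (2 * (D + 1)) + 1)) =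
        ((N : R) * (q ^ 2 + 1)) * ((N : R) ^ (D + 1) * (q ^ (2 * (D + 1)) + 1)) := by rw [hq]
    rw [e2]
    ring

/-- no character kills all the copies. -/
theorem char_contra {V L : Type*} [AddCommGroup V] [Field L] [CharZero L] (χ : V → L)
    (h0 : χ 0 = 1) (hadd : ∀ v w, χ (v + w) = χ v * χ w) (n N : ℕ) (hn : 0 < n) (hN : 0 < N)
    (y : ℕ → Fin n → V)
    (hrel : ∀ a D : ℕ, 0 < D → ∃ (A : ℕ) (b : ℤ), ∀ j, (A * N) • (y (a + 2 * D) j + y a j) =
      (1 + N * b) • y (a + D) j)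
    (hsum : ∀ a t : ℕ, ∑ j, χ ((1 + t * N) • y a j) = 0) : False := by
  classical
  have hne : ∀ v, χ v ≠ 0 := by
    intro v hv
    have := hadd v (-v)
    rw [add_neg_cancel, h0, hv, zero_mul] at this
    exact one_ne_zero this
  have hnsmul : ∀ (m : ℕ) (v : V), χ (m • v) = χ v ^ m := by
    intro m v
    induction m with
    | zero => simpa using h0
    | succ m ih => rw [succ_nsmul, hadd, ih, pow_succ]
  have hneg : ∀ v, χ (-v) = (χ v)⁻¹ := by
    intro v
    have := hadd v (-v)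
    rw [add_neg_cancel, h0] at this
    exact eq_inv_of_mul_eq_one_right this.symm
  have hsub : ∀ v w, χ (v - w) = χ v * (χ w)⁻¹ := by
    intro v w
    rw [sub_eq_add_neg, hadd, hneg]
  have hzsmul : ∀ (m : ℤ) (v : V), χ (m • v) = χ v ^ m := by
    intro m v
    rcases Int.eq_nat_or_neg m with ⟨k, rfl | rfl⟩
    · rw [natCast_zsmul, hnsmul, zpow_natCast]
    · rw [neg_smul, hneg, natCast_zsmul, hnsmul, zpow_neg, zpow_natCast]
  -- the colouring
  let c : ℕ → (Fin n → Fin n → Bool) := fun a j l => decide (χ (y a j) ^ N = χ (y a l) ^ N)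
  obtain ⟨D, hD, b, col, hcol⟩ := Combinatorics.exists_mono_homothetic_copy
    (({0, 1, 2} : Finset ℕ)) c
  have hc0 : c b = col := by
    have := hcol 0 (by simp)
    simpa using this
  have hc1 : c (b + D) = col := by
    have := hcol 1 (by simp)
    simp only [smul_eq_mul, mul_one] at this
    rw [add_comm]
    exact this
  have hc2 : c (b + 2 * D) = col := by
    have := hcol 2 (by simp)
    simp only [smul_eq_mul] at this
    rw [add_comm, mul_comm]
    exact this
  obtain ⟨A, z, hAz⟩ := hrel b D hD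
  have key : ∀ j l, χ (y (b + D) j) ^ N = χ (y (b + D) l) ^ N → χ (y (b + D) j) = χ (y (b + D) l) := by
    intro j l hjl
    have e1 : col j l = true := by
      rw [← hc1]
      simpa [c] using hjl
    have e0 : χ (y b j) ^ N = χ (y b l) ^ N := by
      have : c b j l = true := by rw [hc0, e1]
      simpa [c] using this
    have e2 : χ (y (b + 2 * D) j) ^ N = χ (y (b + 2 * D) l) ^ N := by
      have : c (b + 2 * D) j l = true := by rw [hc2, e1]
      simpa [c] using this
    -- evaluate the relation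
    have f1 : ∀ i, (χ (y (b + 2 * D) i) ^ N * χ (y b i) ^ N) ^ A =
        χ (y (b + D) i) * (χ (y (b + D) i) ^ N) ^ z := by
      intro i
      have := congrArg χ (hAz i)
      rw [hnsmul, hadd, hzsmul] at this
      rw [← mul_pow, ← pow_mul, mul_comm N A, this, zpow_add₀ (hne _), zpow_one, zpow_mul,
        zpow_natCast]
    have f2 := f1 j
    have f3 := f1 l
    rw [e0, e2, hjl, f3] at f2
    have hne2 : (χ (y (b + D) l) ^ N) ^ z ≠ 0 := zpow_ne_zero _ (pow_ne_zero _ (hne _))
    exact (mul_right_cancel₀ hne2 f2).symm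
  have hcls := class_sum (fun j => χ (y (b + D) j)) (fun j => χ (y (b + D) j) ^ N) (by
    intro t
    rw [← hsum (b + D) t]
    refine Finset.sum_congr rfl (fun j _ => ?_)
    rw [hnsmul, pow_add, pow_one, mul_comm t N, pow_mul]) ⟨0, hn⟩
  have h3 : ∑ j with χ (y (b + D) j) ^ N = χ (y (b + D) ⟨0, hn⟩) ^ N, χ (y (b + D) j) =
      ∑ _j with χ (y (b + D) _j) ^ N = χ (y (b + D) ⟨0, hn⟩) ^ N, χ (y (b + D) ⟨0, hn⟩) := by
    refine Finset.sum_congr rfl (fun j hj => ?_)
    exact key j _ (Finset.mem_filter.mp hj).2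
  beta_reduce at hcls
  rw [h3, Finset.sum_const, nsmul_eq_mul] at hcls
  rcases mul_eq_zero.mp hcls with h4 | h4
  · have h5 := Nat.cast_eq_zero.mp h4
    rw [Finset.card_eq_zero] at h5
    have : (⟨0, hn⟩ : Fin n) ∈ ({j | χ (y (b + D) j) ^ N = χ (y (b + D) ⟨0, hn⟩) ^ N} : Finset (Fin n)) := by
      simp
    rw [h5] at this
    simp at this
  · exact hne _ h4

end Pool.Agent.Lib.MP_dadc30_co
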