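import Pool.Agent.Lib.MP_dadc30_co.BMapi

/-!
# MP_dadc30_co, module Chars: elementary facts on the dual group `X` of `K` and on `Xc`.
-/

open MeasureTheory ProbabilityTheory Filter Topology
open scoped ENNReal ComplexConjugate

namespace Dadc30

theorem chi_norm (z : K) (x : X) : ‖chi z x‖ = 1 := Circle.norm_coe _
theorem chi_add (a b : K) (x : X) : chi (a + b) x = chi a x * chi b x := by
  unfold chi
  rw [x.2 a b, Circle.coe_mul]
theorem chi_zero (x : X) : chi 0 x = 1 := by
  have h := chi_add 0 0 x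
  rw [add_zero] at h
  have h0 : chi 0 x ≠ 0 := Circle.coe_ne_zero _
  have h2 : chi 0 x * chi 0 x = chi 0 x * 1 := by rw [mul_one]; exact h.symm
  exact mul_left_cancel₀ h0 h2
theorem Chars_conj (z : K) (x : X) : conj (chi z x) = (chi z x)⁻¹ := by
  unfold chi
  rw [← Circle.coe_inv_eq_conj, Circle.coe_inv]
theorem chi_neg (z : K) (x : X) : chi (-z) x = conj (chi z x) := by
  rw [Chars_conj]
  have h := chi_add (-z) z x
  rw [neg_add_cancel, chi_zero] at h
  exact eq_inv_of_mul_eq_one_left h.symm
theorem chi_sub (a b : K) (x : X) : chi (a - b) x = chi a x * conj (chi b x) := by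
  rw [sub_eq_add_neg, chi_add, chi_neg]
theorem chi_nsmul (n : ℕ) (z : K) (x : X) : chi ((n : K) * z) x = (chi z x) ^ n := by
  induction n with
  | zero => rw [Nat.cast_zero, zero_mul, chi_zero, pow_zero]
  | succ n ih => rw [Nat.cast_succ, add_mul, one_mul, chi_add, ih, pow_succ]
theorem chi_smul (z : K) (w : Γ₀) (x : X) : chi z (w • x) = chi (toK w * z) x := rfl
theorem chi_scale (t z : K) (x : X) : chi z (scale t x) = chi (t * z) x := rfl
theorem chi_mul (z : K) (x y : X) : chi z (x * y) = chi z x * chi z y := rfl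
theorem chi_inv (z : K) (x : X) : chi z x⁻¹ = conj (chi z x) := by
  rw [Chars_conj]
  rfl
theorem chi_div (z : K) (x y : X) : chi z (x / y) = chi z x * conj (chi z y) := by
  rw [div_eq_mul_inv, chi_mul, chi_inv]
theorem X_ext {x y : X} (h : ∀ z, chi z x = chi z y) : x = y := by
  apply Subtype.ext
  funext z
  exact Circle.ext (h z)

theorem smul_mul_X (w : Γ₀) (x y : X) : w • (x * y) = (w • x) * (w • y) := by
  apply X_ext
  intro z
  rw [chi_smul, chi_mul, chi_mul, chi_smul, chi_smul]
theorem smul_div_X (w : Γ₀) (x y : X) : w • (x / y) = (w • x) / (w • y) := by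
  apply X_ext
  intro z
  rw [chi_smul, chi_div, chi_div, chi_smul, chi_smul]
theorem smul_scale_X (w : Γ₀) (t : K) (x : X) : w • scale t x = scale t (w • x) := by
  apply X_ext
  intro z
  rw [chi_smul, chi_scale, chi_scale, chi_smul, mul_left_comm]
theorem smul_eq_scale (w : Γ₀) (x : X) : w • x = scale (toK w) x := rfl
theorem scale_scale (s t : K) (x : X) : scale s (scale t x) = scale (t * s) x := by
  apply X_ext
  intro z
  rw [chi_scale, chi_scale, chi_scale, mul_assoc]
theorem scale_div_X (t : K) (x y : X) : scale t (x / y) = scale t x / scale t y := by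
  apply X_ext
  intro z
  rw [chi_scale, chi_div, chi_div, chi_scale, chi_scale]
theorem scale_one (x : X) : scale 1 x = x := by
  apply X_ext
  intro z
  rw [chi_scale, one_mul]

theorem Chars_measurable_apply (z : K) : Measurable (fun x : X => x.1 z) :=
  (measurable_pi_apply z).comp measurable_subtype_coe

theorem Chars_continuous_coe : Continuous (fun w : Circle => (w : ℂ)) := continuous_subtype_val

theorem Chars_measurable_coe : @Measurable Circle ℂ _ _ (fun w : Circle => (w : ℂ)) :=
  @Continuous.measurable Circle ℂ _ _ _ _ _ _ _ Chars_continuous_coe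

theorem measurable_chi (z : K) : Measurable (chi z) :=
  Measurable.comp (g := fun w : Circle => (w : ℂ)) Chars_measurable_coe (Chars_measurable_apply z)
theorem BM_chi (z : K) : BM (chi z) := ⟨measurable_chi z, 1, fun x => (chi_norm z x).le⟩
theorem measurable_scale (t : K) : Measurable (scale t) := by
  apply Measurable.subtype_mk
  rw [measurable_pi_iff]
  intro z
  exact Chars_measurable_apply (t * z)
theorem measurable_smul_X (w : Γ₀) : Measurable (fun x : X => w • x) := measurable_scale (toK w)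
theorem measurable_div_X : Measurable (fun z : X × X => z.1 / z.2) := by
  apply Measurable.subtype_mk
  rw [measurable_pi_iff]
  intro z
  have h1 : Measurable (fun p : X × X => p.1.1 z) := (Chars_measurable_apply z).comp measurable_fst
  have h2 : Measurable (fun p : X × X => p.2.1 z) := (Chars_measurable_apply z).comp measurable_snd
  exact h1.div h2

/-- `K` is a number field closure: countable -/
instance : Countable K := by
  have h : Set.Countable {x : ℂ | IsAlgebraic ℚ x} := Algebraic.countable ℚ ℂ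
  have h2 : Set.Countable ((Falg : Subfield ℂ) : Set ℂ) := by
    refine h.mono ?_
    intro x hx
    exact mem_algebraicClosure_iff.mp hx
  exact h2.to_subtype
instance : Countable Γ₀ := by
  have h : Function.Injective toK := by
    intro a b hab
    apply Subtype.ext
    apply Circle.ext
    have h2 : ((toK a : K) : ℂ) = ((toK b : K) : ℂ) := congrArg Subtype.val hab
    exact h2
  exact h.countable
instance : Countable A₀ := by
  have h : Function.Injective A₀.toK := by
    intro a b hab
    apply Subtype.ext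
    have := congrArg Subtype.val hab
    exact Complex.ofReal_injective this
  exact h.countable

instance : StandardBorelSpace X := by
  have h : MeasurableSet ((XX : Subgroup (K → Circle)) : Set (K → Circle)) := by
    have h1 : ((XX : Subgroup (K → Circle)) : Set (K → Circle)) =
        ⋂ a : K, ⋂ b : K, {x | x (a + b) = x a * x b} := by
      ext x
      simp only [Set.mem_iInter]
      rfl
    rw [h1]
    refine MeasurableSet.iInter fun a => MeasurableSet.iInter fun b => ?_
    exact measurableSet_eq_fun (measurable_pi_apply _)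
      ((measurable_pi_apply a).mul (measurable_pi_apply b))
  exact h.standardBorel

theorem Chars_mem_Xc (x : X) : x ∈ Xc ↔ ∀ n : ℕ, ∃ m : ℕ, ∀ z : K,
    ‖(z : ℂ)‖ < 1 / ((m : ℝ) + 1) → ‖chi z x - 1‖ < 1 / ((n : ℝ) + 1) := by
  constructor
  · intro h n
    obtain ⟨δ, hδ, hz⟩ := h (1 / ((n : ℝ) + 1)) (by positivity)
    obtain ⟨m, hm⟩ := exists_nat_one_div_lt hδ
    exact ⟨m, fun z hzm => hz z (hzm.trans hm)⟩
  · intro h ε hε
    obtain ⟨n, hn⟩ := exists_nat_one_div_lt hε
    obtain ⟨m, hm⟩ := h n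
    exact ⟨1 / ((m : ℝ) + 1), by positivity, fun z hz => (hm z hz).trans hn⟩

theorem measurableSet_Xc : MeasurableSet Xc := by
  have h : Xc = ⋂ n : ℕ, ⋃ m : ℕ, ⋂ z : K, {x : X | ‖(z : ℂ)‖ < 1 / ((m : ℝ) + 1) →
      ‖chi z x - 1‖ < 1 / ((n : ℝ) + 1)} := by
    ext x
    rw [Chars_mem_Xc]
    simp only [Set.mem_iInter, Set.mem_iUnion, Set.mem_ofPred_eq]
  rw [h]
  refine MeasurableSet.iInter fun n => MeasurableSet.iUnion fun m => MeasurableSet.iInter fun z => ?_
  by_cases hz : ‖(z : ℂ)‖ < 1 / ((m : ℝ) + 1)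
  · simp only [hz, forall_true_left]
    exact measurableSet_lt ((measurable_chi z).sub_const 1).norm measurable_const
  · simp only [hz, false_imp_iff]
    exact MeasurableSet.univ
theorem Xc_one : (1 : X) ∈ Xc := by
  intro ε hε
  refine ⟨1, one_pos, fun z _ => ?_⟩
  have : chi z 1 = 1 := rfl
  rw [this, sub_self, norm_zero]
  exact hε
theorem Xc_mul {x y : X} (hx : x ∈ Xc) (hy : y ∈ Xc) : x * y ∈ Xc := by
  intro ε hε
  obtain ⟨δ, hδ, h1⟩ := hx (ε / 2) (by positivity)
  obtain ⟨δ', hδ', h2⟩ := hy (ε / 2) (by positivity)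
  refine ⟨min δ δ', lt_min hδ hδ', fun z hz => ?_⟩
  have e1 := h1 z (hz.trans_le (min_le_left _ _))
  have e2 := h2 z (hz.trans_le (min_le_right _ _))
  have e3 : chi z (x * y) - 1 = (chi z x - 1) * chi z y + (chi z y - 1) := by
    rw [chi_mul]; ring
  rw [e3]
  calc _ ≤ ‖(chi z x - 1) * chi z y‖ + ‖chi z y - 1‖ := norm_add_le _ _
    _ = ‖chi z x - 1‖ + ‖chi z y - 1‖ := by rw [norm_mul, chi_norm, mul_one]
    _ < ε := by linarith
theorem Xc_inv {x : X} (hx : x ∈ Xc) : x⁻¹ ∈ Xc := by
  intro ε hε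
  obtain ⟨δ, hδ, h1⟩ := hx ε hε
  refine ⟨δ, hδ, fun z hz => ?_⟩
  have e3 : chi z x⁻¹ - 1 = conj (chi z x - 1) := by
    rw [chi_inv, map_sub, map_one]
  rw [e3, RCLike.norm_conj]
  exact h1 z hz
theorem Xc_div {x y : X} (hx : x ∈ Xc) (hy : y ∈ Xc) : x / y ∈ Xc := by
  rw [div_eq_mul_inv]
  exact Xc_mul hx (Xc_inv hy)
theorem Chars_scale {t : K} (ht : t ≠ 0) {x : X} (hx : x ∈ Xc) : scale t x ∈ Xc := by
  have htn : 0 < ‖(t : ℂ)‖ := norm_pos_iff.mpr (fun h => ht (Subtype.ext h))
  intro ε hε
  obtain ⟨δ, hδ, h1⟩ := hx ε hε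
  refine ⟨δ / ‖(t : ℂ)‖, by positivity, fun z hz => ?_⟩
  rw [chi_scale]
  apply h1
  have : ((t * z : K) : ℂ) = (t : ℂ) * (z : ℂ) := rfl
  rw [this, norm_mul]
  rw [lt_div_iff₀ htn] at hz
  linarith
theorem Xc_scale {t : K} (ht : t ≠ 0) (x : X) : scale t x ∈ Xc ↔ x ∈ Xc := by
  constructor
  · intro h
    have h1 := Chars_scale (inv_ne_zero ht) h
    rwa [scale_scale, mul_inv_cancel₀ ht, scale_one] at h1
  · exact Chars_scale ht
theorem Xc_smul (w : Γ₀) (x : X) : w • x ∈ Xc ↔ x ∈ Xc := by
  rw [smul_eq_scale]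
  apply Xc_scale
  intro h
  exact Circle.coe_ne_zero (w : Circle) (congrArg Subtype.val h)

end Dadc30
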