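import Mathlib
import Pool.Agent.Lib.MP_dadc30_co.Character

set_option autoImplicit false

namespace Pool.Agent.Lib.MP_dadc30_co

open Finset

/-- the annihilator of a function in the group algebra -/
noncomputable def annIdeal {V : Type*} [AddCommGroup V] (f : V → ℚ) :
    Ideal (AddMonoidAlgebra ℚ V) where
  carrier := {Θ | act ℚ V Θ f = 0}
  add_mem' := by
    intro a b ha hb
    simp only [Set.mem_ofPred_eq] at *
    rw [map_add, LinearMap.add_apply, ha, hb, add_zero]
  zero_mem' := by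
    simp
  smul_mem' := by
    intro c a ha
    simp only [Set.mem_ofPred_eq] at *
    rw [smul_eq_mul, map_mul, Module.End.mul_apply, ha, map_zero]

lemma mem_annIdeal {V : Type*} [AddCommGroup V] (f : V → ℚ) (Θ : AddMonoidAlgebra ℚ V) :
    Θ ∈ annIdeal f ↔ act ℚ V Θ f = 0 := Iff.rfl

theorem no_function {V : Type*} [AddCommGroup V] (n N : ℕ) (hn : 0 < n) (hN : 0 < N)
    (y : ℕ → Fin n → V)
    (hrel : ∀ a D : ℕ, 0 < D → ∃ (A : ℕ) (b : ℤ), ∀ j, (A * N) • (y (a + 2 * D) j + y a j) =
      (1 + N * b) • y (a + D) j)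
    (f : V → ℚ) (hf : ∀ a t : ℕ, ∀ v, ∑ j, f (v + (1 + t * N) • y a j) = 0) : f = 0 := by
  by_contra hne
  have hproper : annIdeal f ≠ ⊤ := by
    intro h
    have h1 : (1 : AddMonoidAlgebra ℚ V) ∈ annIdeal f := by rw [h]; trivial
    rw [mem_annIdeal, map_one] at h1
    exact hne (by simpa using h1)
  obtain ⟨M, hM, hle⟩ := Ideal.exists_le_maximal _ hproper
  let _ : Field (AddMonoidAlgebra ℚ V ⧸ M) := Ideal.Quotient.field M
  have : CharZero (AddMonoidAlgebra ℚ V ⧸ M) := algebraRat.charZero _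
  refine char_contra (V := V) (L := AddMonoidAlgebra ℚ V ⧸ M)
    (fun v => Ideal.Quotient.mk M (AddMonoidAlgebra.single v 1)) ?_ ?_ n N hn hN y hrel ?_
  · rw [← AddMonoidAlgebra.one_def, map_one]
  · intro v w
    rw [← map_mul, AddMonoidAlgebra.single_mul_single, one_mul]
  · intro a t
    rw [← map_sum, Ideal.Quotient.eq_zero_iff_mem]
    apply hle
    rw [mem_annIdeal]
    funext v
    rw [act_sum]
    exact hf a t v

/-- There is no set of points of the plane meeting every directly congruent copy of an `n`-tuple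
in exactly `k` points, `0 < k < n`. -/
theorem no_steinhaus (n k : ℕ) (hk : 0 < k) (hkn : k < n) (x : Fin n → ℂ) (g : ℂ → ℤ)
    (hg : ∀ v, g v = 0 ∨ g v = 1)
    (h : ∀ v ρ : ℂ, ‖ρ‖ = 1 → ∑ j, g (v + ρ * x j) = k) : False := by
  have hn : 0 < n := by omega
  set N : ℕ := n.factorial with hNdef
  have hN : 0 < N := Nat.factorial_pos n
  have hN1 : (1 : ℝ) ≤ N := by exact_mod_cast hN
  -- the rotation
  set s : ℝ := Real.sqrt (1 - (1 / (2 * N)) ^ 2) with hs
  have hs2 : s ^ 2 = 1 - (1 / (2 * N)) ^ 2 := by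
    rw [hs]
    apply Real.sq_sqrt
    have : (1 / (2 * (N : ℝ))) ^ 2 ≤ 1 := by
      rw [sq_le_one_iff₀ (by positivity)]
      rw [div_le_one (by positivity)]
      linarith
    linarith
  set q : ℂ := ⟨1 / (2 * N), s⟩ with hq
  have hqn : ‖q‖ = 1 := by
    rw [Complex.norm_def, Complex.normSq_mk, Real.sqrt_eq_one]
    nlinarith [hs2]
  have hN0 : (N : ℝ) ≠ 0 := by positivity
  have hqrel : (((N : ℤ)) : ℂ) * (q ^ 2 + 1) = q := by
    rw [Int.cast_natCast]
    apply Complex.ext
    · simp only [hq, pow_two, Complex.mul_re, Complex.add_re, Complex.natCast_re, Complex.natCast_im,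
        Complex.one_re, zero_mul, sub_zero]
      have : s * s = 1 - (1 / (2 * (N : ℝ))) ^ 2 := by rw [← hs2]; ring
      rw [this]
      field_simp
      ring
    · simp only [hq, pow_two, Complex.mul_im, Complex.add_im, Complex.natCast_re, Complex.natCast_im,
        Complex.one_im, zero_mul, add_zero]
      field_simp
      ring
  have hqpow : ∀ a : ℕ, ‖q ^ a‖ = 1 := by
    intro a
    rw [norm_pow, hqn, one_pow]
  have hprimes : ∀ t p : ℕ, p.Prime → p ∣ 1 + t * N → n < p := by
    intro t p hp hpd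
    by_contra hle
    push Not at hle
    have h1 : p ∣ N := (hp.dvd_factorial).mpr hle
    have h2 : p ∣ 1 := (Nat.dvd_add_left (h1.mul_left t)).mp hpd
    exact hp.one_lt.ne' (Nat.dvd_one.mp h2)
  have hmain : ∀ a t : ℕ, ∀ v, ∑ j, g (v + (1 + t * N) • (q ^ a * x j)) = k := by
    intro a t v
    exact mult_all g hg n k (fun j => q ^ a * x j) (fun v => h v (q ^ a) (hqpow a)) (1 + t * N)
      (by omega) (hprimes t) v
  have hf := no_function n N hn hN (fun a j => q ^ a * x j) (by
    intro a D hD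
    obtain ⟨b, hb⟩ := Bseq_mod (N : ℤ) (D - 1)
    refine ⟨N ^ (D - 1), b, ?_⟩
    intro j
    have e1 : D - 1 + 1 = D := by omega
    rw [e1] at hb
    have hrel := Bseq_rel (N : ℤ) q hqrel D
    rw [hb] at hrel
    rw [Int.cast_natCast] at hrel
    rw [nsmul_eq_mul, zsmul_eq_mul]
    have e2 : ((N ^ (D - 1) * N : ℕ) : ℂ) = (N : ℂ) ^ D := by
      rw [← pow_succ, e1]
      push_cast
      rfl
    rw [e2]
    push_cast at hrel ⊢
    calc (N : ℂ) ^ D * (q ^ (a + 2 * D) * x j + q ^ a * x j)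
        = ((N : ℂ) ^ D * (q ^ (2 * D) + 1)) * (q ^ a * x j) := by ring
      _ = _ := by rw [hrel]; ring) (fun v => (g v : ℚ) - (k : ℚ) / n) (by
    intro a t v
    rw [Finset.sum_sub_distrib]
    have := hmain a t v
    have h2 : (∑ j, (g (v + (1 + t * N) • (q ^ a * x j)) : ℚ)) = k := by exact_mod_cast this
    rw [h2]
    simp only [Finset.sum_const, Finset.card_univ, Fintype.card_fin, nsmul_eq_mul]
    have : (n : ℚ) ≠ 0 := by exact_mod_cast hn.ne'
    field_simp
    ring)
  have h0 := congrFun hf 0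
  simp only [Pi.zero_apply] at h0
  have hkq : (0 : ℚ) < k := by exact_mod_cast hk
  have hnq : (0 : ℚ) < n := by exact_mod_cast hn
  have hknq : (k : ℚ) < n := by exact_mod_cast hkn
  have h1 : 0 < (k : ℚ) / n := by positivity
  have h2 : (k : ℚ) / n < 1 := (div_lt_one hnq).mpr hknq
  rcases hg 0 with h3 | h3
  · rw [h3] at h0
    push_cast at h0
    linarith
  · rw [h3] at h0
    push_cast at h0
    linarith

end Pool.Agent.Lib.MP_dadc30_co
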