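import Mathlib
import Pool.Agent.Lib.MP_dadc30_co.NoSteinhaus

set_option autoImplicit false

namespace Pool.Agent.Lib.MP_dadc30_co

open Finset

/-- no two points of `S` are at distance exactly `1`. -/
def UnitFree {P : Type*} [MetricSpace P] (S : Set P) : Prop :=
  ∀ x ∈ S, ∀ y ∈ S, dist x y ≠ 1

open Classical in
/-- The independence number of the unit-distance graph on the finite set `X`: the largest size of
a subset of `X` no two points of which are at distance exactly `1`. -/
noncomputable def alpha {P : Type*} [MetricSpace P] (X : Finset P) : ℕ :=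
  (X.powerset.filter (fun S : Finset P => UnitFree (S : Set P))).sup Finset.card

lemma le_alpha {P : Type*} [MetricSpace P] {X S : Finset P} (hS : S ⊆ X)
    (h : UnitFree (S : Set P)) : S.card ≤ alpha X := by
  classical
  exact Finset.le_sup (f := Finset.card)
    (Finset.mem_filter.mpr ⟨Finset.mem_powerset.mpr hS, h⟩)

lemma exists_alpha {P : Type*} [MetricSpace P] (X : Finset P) :
    ∃ S ⊆ X, UnitFree (S : Set P) ∧ S.card = alpha X := by
  classical
  have hne : (X.powerset.filter (fun S : Finset P => UnitFree (S : Set P))).Nonempty :=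
    ⟨∅, Finset.mem_filter.mpr ⟨by simp, by intro x hx; simp at hx⟩⟩
  obtain ⟨S, hS, hS'⟩ := Finset.exists_mem_eq_sup _ hne Finset.card
  rw [Finset.mem_filter, Finset.mem_powerset] at hS
  refine ⟨S, hS.1, hS.2, ?_⟩
  rw [alpha, ← hS']

lemma alpha_le_card {P : Type*} [MetricSpace P] (X : Finset P) : alpha X ≤ X.card := by
  obtain ⟨S, hS, _, h⟩ := exists_alpha X
  rw [← h]
  exact Finset.card_le_card hS

lemma alpha_pos {P : Type*} [MetricSpace P] {X : Finset P} (h : X.Nonempty) : 0 < alpha X := by
  obtain ⟨x, hx⟩ := h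
  have := le_alpha (X := X) (S := {x}) (by simpa using hx) (by
    intro a ha b hb
    simp only [Finset.coe_singleton, Set.mem_singleton_iff] at ha hb
    subst ha hb
    simp)
  simp only [Finset.card_singleton] at this
  omega

/-- finitely many congruent copies already exclude all sets. -/
lemma finite_family (n k : ℕ) (hk : 0 < k) (hkn : k < n) (x : Fin n → ℂ) :
    ∃ G : Finset (ℂ × ℂ), (∀ c ∈ G, ‖c.2‖ = 1) ∧
      ∀ g : ℂ → Bool, ∃ c ∈ G, (∑ j, if g (c.1 + c.2 * x j) then (1 : ℕ) else 0) ≠ k := by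
  classical
  let T := {c : ℂ × ℂ // ‖c.2‖ = 1}
  let C : T → Set (ℂ → Bool) := fun c =>
    {g | (∑ j, if g (c.1.1 + c.1.2 * x j) then (1 : ℕ) else 0) = k}
  have hclosed : ∀ c, IsClosed (C c) := by
    intro c
    have hcont : Continuous (fun g : ℂ → Bool =>
        (∑ j, if g (c.1.1 + c.1.2 * x j) then (1 : ℕ) else 0)) := by
      apply continuous_finsetSum
      intro j _
      exact (continuous_of_discreteTopology (f := fun b : Bool => if b then (1 : ℕ) else 0)).comp
        (continuous_apply _)
    exact isClosed_eq hcont continuous_const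
  have hempty : (Set.univ : Set (ℂ → Bool)) ∩ ⋂ c, C c = ∅ := by
    rw [Set.univ_inter, Set.eq_empty_iff_forall_notMem]
    intro g hg
    rw [Set.mem_iInter] at hg
    refine no_steinhaus n k hk hkn x (fun v => if g v then 1 else 0) ?_ ?_
    · intro v
      split_ifs
      · right; rfl
      · left; rfl
    · intro v ρ hρ
      have := hg ⟨(v, ρ), hρ⟩
      simp only [C, Set.mem_ofPred_eq] at this
      rw [← this]
      push_cast
      rfl
  obtain ⟨t, ht⟩ := (isCompact_univ (X := ℂ → Bool)).elim_finite_subfamily_closed C hclosed hempty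
  refine ⟨t.image Subtype.val, ?_, ?_⟩
  · intro c hc
    obtain ⟨c', _, rfl⟩ := Finset.mem_image.mp hc
    exact c'.2
  · intro g
    by_contra hcon
    push Not at hcon
    have hg : g ∈ (Set.univ : Set (ℂ → Bool)) ∩ ⋂ c ∈ t, C c := by
      refine ⟨Set.mem_univ _, ?_⟩
      rw [Set.mem_iInter₂]
      intro c hc
      exact hcon c.1 (Finset.mem_image_of_mem _ hc)
    rw [ht] at hg
    exact hg

/-- growing finite sets -/
noncomputable def grow {ι : Type*} [Fintype ι] (z : ι → ℂ) : ℕ → Finset ℂ
  | 0 => {0}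
  | (L + 1) => by
    classical
    exact grow z L ∪ (Finset.univ.biUnion fun t => (grow z L).image (fun w => w + z t))

lemma grow_sub {ι : Type*} [Fintype ι] (z : ι → ℂ) (L : ℕ) : grow z L ⊆ grow z (L + 1) := by
  classical
  intro w hw
  simp only [grow]
  exact Finset.mem_union_left _ hw

lemma grow_add {ι : Type*} [Fintype ι] (z : ι → ℂ) (L : ℕ) (t : ι) (w : ℂ) (hw : w ∈ grow z L) :
    w + z t ∈ grow z (L + 1) := by
  classical
  simp only [grow]
  apply Finset.mem_union_right
  rw [Finset.mem_biUnion]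
  exact ⟨t, Finset.mem_univ _, Finset.mem_image_of_mem (fun w => w + z t) hw⟩

lemma grow_pos {ι : Type*} [Fintype ι] (z : ι → ℂ) : ∀ L : ℕ, 0 < (grow z L).card
  | 0 => by simp [grow]
  | (L + 1) => (grow_pos z L).trans_le (Finset.card_le_card (grow_sub z L))

lemma grow_card {ι : Type*} [Fintype ι] (z : ι → ℂ) (L : ℕ) :
    (grow z L).card ≤ (L + 1) ^ Fintype.card ι := by
  classical
  have hsub : ∀ L : ℕ, ∀ w ∈ grow z L, ∃ a : ι → Fin (L + 1), w = ∑ t, ((a t : ℕ) : ℂ) * z t := by
    intro L
    induction L with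
    | zero =>
      intro w hw
      simp only [grow, Finset.mem_singleton] at hw
      exact ⟨fun _ => 0, by simp [hw]⟩
    | succ L ih =>
      intro w hw
      simp only [grow, Finset.mem_union, Finset.mem_biUnion, Finset.mem_image] at hw
      rcases hw with hw | ⟨t, _, w', hw', rfl⟩
      · obtain ⟨a, ha⟩ := ih w hw
        exact ⟨fun t => (a t).castSucc, by simpa using ha⟩
      · obtain ⟨a, ha⟩ := ih w' hw'
        refine ⟨fun t' => if t' = t then (a t').succ else (a t').castSucc, ?_⟩
        rw [ha]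
        have : ∀ t', (((if t' = t then (a t').succ else (a t').castSucc : Fin (L + 1 + 1)) : ℕ) : ℂ)
            * z t' = ((a t' : ℕ) : ℂ) * z t' + (if t' = t then z t' else 0) := by
          intro t'
          split_ifs with h
          · simp only [Fin.val_succ]
            push_cast
            ring
          · simp
        simp only [this, Finset.sum_add_distrib, Finset.sum_ite_eq', Finset.mem_univ, if_true]
  have h1 : grow z L ⊆ (Finset.univ : Finset (ι → Fin (L + 1))).image
      (fun a => ∑ t, ((a t : ℕ) : ℂ) * z t) := by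
    intro w hw
    obtain ⟨a, ha⟩ := hsub L w hw
    exact Finset.mem_image.mpr ⟨a, Finset.mem_univ _, ha.symm⟩
  refine (Finset.card_le_card h1).trans (Finset.card_image_le.trans ?_)
  simp

lemma exists_small_growth {ι : Type*} [Fintype ι] (z : ι → ℂ) (T : ℕ) (hT : 0 < T) :
    ∃ L, T * (grow z (L + 1)).card < (T + 1) * (grow z L).card := by
  by_contra hcon
  push Not at hcon
  set r : ℝ := ((T : ℝ) + 1) / T with hr
  have hT0 : (0 : ℝ) < T := by exact_mod_cast hT
  have hr1 : 1 < r := by
    rw [hr, lt_div_iff₀ hT0]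
    linarith
  have hlow : ∀ L, r ^ L ≤ ((grow z L).card : ℝ) := by
    intro L
    induction L with
    | zero =>
      simp only [pow_zero]
      exact_mod_cast grow_pos z 0
    | succ L ih =>
      have h1 : ((T : ℝ) + 1) * (grow z L).card ≤ T * (grow z (L + 1)).card := by
        exact_mod_cast hcon L
      rw [pow_succ]
      calc r ^ L * r ≤ (grow z L).card * r := by gcongr
        _ = ((T + 1) * (grow z L).card) / T := by rw [hr]; ring
        _ ≤ (T * (grow z (L + 1)).card) / T := by gcongr
        _ = _ := by field_simp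
  have htend := tendsto_pow_const_div_const_pow_of_one_lt (Fintype.card ι) hr1
  have hev : ∀ᶠ L : ℕ in Filter.atTop, (L : ℝ) ^ Fintype.card ι / r ^ L < 1 / (r * 2) := by
    apply htend.eventually_lt_const
    positivity
  obtain ⟨L, hL⟩ := (hev.and (Filter.eventually_ge_atTop 1)).exists
  obtain ⟨hL1, hL2⟩ := hL
  obtain ⟨L', rfl⟩ : ∃ L', L = L' + 1 := ⟨L - 1, by omega⟩
  have h1 : ((grow z L').card : ℝ) ≤ ((L' + 1 : ℕ) : ℝ) ^ Fintype.card ι := by
    exact_mod_cast grow_card z L'
  have h2 := hlow L'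
  have hrp : 0 < r ^ L' := by positivity
  have hr0 : 0 < r := by linarith
  rw [pow_succ, div_lt_div_iff₀ (by positivity) (by positivity)] at hL1
  have h3 : r ^ L' ≤ ((L' + 1 : ℕ) : ℝ) ^ Fintype.card ι := h2.trans h1
  nlinarith [mul_le_mul_of_nonneg_right h3 hr0.le]

/-- A tuple of points every copy of which meets each unit free set in at most `k` points
(`0 < k < n`) can be improved. -/
theorem improve_tuple (n k : ℕ) (hk0 : 0 < k) (hlt : k < n) (x : Fin n → ℂ)
    (hcopy : ∀ (I : Finset ℂ), UnitFree (I : Set ℂ) → ∀ v ρ : ℂ, ‖ρ‖ = 1 →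
      (∑ j, if v + ρ * x j ∈ I then (1 : ℕ) else 0) ≤ k) :
    ∃ Y : Finset ℂ, Y.Nonempty ∧ alpha Y * n < k * Y.card := by
  classical
  have hn0 : 0 < n := by omega
  obtain ⟨G, hG1, hG2⟩ := finite_family n k hk0 hlt x
  set R := G.card with hR
  have hfam : ∀ (I : Finset ℂ), UnitFree (I : Set ℂ) → ∀ w : ℂ,
      (∑ c ∈ G, ∑ j, if w + (c.1 + c.2 * x j) ∈ I then (1 : ℕ) else 0) < R * k := by
    intro I hI w
    obtain ⟨c₀, hc₀, hc₀'⟩ := hG2 (fun u => decide (w + u ∈ I))
    have hle : ∀ c ∈ G, (∑ j, if w + (c.1 + c.2 * x j) ∈ I then (1 : ℕ) else 0) ≤ k := by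
      intro c hc
      have := hcopy I hI (w + c.1) c.2 (hG1 c hc)
      simpa only [add_assoc] using this
    have hlt' : (∑ j, if w + (c₀.1 + c₀.2 * x j) ∈ I then (1 : ℕ) else 0) < k := by
      refine lt_of_le_of_ne (hle c₀ hc₀) ?_
      simpa using hc₀'
    calc (∑ c ∈ G, ∑ j, if w + (c.1 + c.2 * x j) ∈ I then (1 : ℕ) else 0)
        < ∑ _c ∈ G, k := Finset.sum_lt_sum hle ⟨c₀, hc₀, hlt'⟩
      _ = R * k := by rw [Finset.sum_const, smul_eq_mul]
  -- the points
  let z : (G × Fin n) → ℂ := fun t => t.1.1.1 + t.1.1.2 * x t.2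
  have hRpos : 0 < R := by
    obtain ⟨c, hc, _⟩ := hG2 (fun _ => true)
    exact Finset.card_pos.mpr ⟨c, hc⟩
  have hT : 0 < R * n := Nat.mul_pos hRpos hn0
  obtain ⟨L, hL⟩ := exists_small_growth z (R * n) hT
  refine ⟨grow z (L + 1), Finset.card_pos.mp (grow_pos z _), ?_⟩
  obtain ⟨I, hIsub, hIfree, hIcard⟩ := exists_alpha (grow z (L + 1))
  rw [← hIcard]
  set W := grow z L with hW
  set W' := grow z (L + 1) with hW'
  -- double count
  have hupper : (∑ w ∈ W, ∑ t : G × Fin n, if w + z t ∈ I then (1 : ℕ) else 0) + W.card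
      ≤ W.card * (R * k) := by
    have h1 : ∀ w ∈ W, (∑ t : G × Fin n, if w + z t ∈ I then (1 : ℕ) else 0) + 1 ≤ R * k := by
      intro w _
      have := hfam I hIfree w
      rw [Fintype.sum_prod_type]
      have h2 : (∑ c : G, ∑ j, if w + z (c, j) ∈ I then (1 : ℕ) else 0) < R * k := by
        refine lt_of_eq_of_lt ?_ this
        rw [← Finset.sum_coe_sort G]
      omega
    calc (∑ w ∈ W, ∑ t : G × Fin n, if w + z t ∈ I then (1 : ℕ) else 0) + W.card
        = ∑ w ∈ W, ((∑ t : G × Fin n, if w + z t ∈ I then (1 : ℕ) else 0) + 1) := by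
          rw [Finset.sum_add_distrib]
          simp
      _ ≤ ∑ _w ∈ W, R * k := Finset.sum_le_sum h1
      _ = W.card * (R * k) := by rw [Finset.sum_const, smul_eq_mul]
  have hlower : ∀ t : G × Fin n, I.card ≤ (∑ w ∈ W, if w + z t ∈ I then (1 : ℕ) else 0)
      + (W'.card - W.card) := by
    intro t
    have h1 : I ⊆ ((W.filter (fun w => w + z t ∈ I)).image (fun w => w + z t)) ∪
        (W' \ (W.image (fun w => w + z t))) := by
      intro y hy
      by_cases hy' : y ∈ W.image (fun w => w + z t)
      · apply Finset.mem_union_left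
        obtain ⟨w, hw, rfl⟩ := Finset.mem_image.mp hy'
        exact Finset.mem_image_of_mem (fun w => w + z t) (Finset.mem_filter.mpr ⟨hw, hy⟩)
      · apply Finset.mem_union_right
        exact Finset.mem_sdiff.mpr ⟨hIsub hy, hy'⟩
    have h2 : (W.image (fun w => w + z t)) ⊆ W' := by
      intro y hy
      obtain ⟨w, hw, rfl⟩ := Finset.mem_image.mp hy
      exact grow_add z L t w hw
    have h3 : (W.image (fun w => w + z t)).card = W.card :=
      Finset.card_image_of_injective _ (add_left_injective _)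
    refine (Finset.card_le_card h1).trans ((Finset.card_union_le _ _).trans ?_)
    rw [Finset.card_sdiff_of_subset h2, h3]
    refine Nat.add_le_add_right ?_ _
    refine Finset.card_image_le.trans ?_
    rw [Finset.card_filter]
  have hsumlow : (R * n) * I.card ≤
      (∑ w ∈ W, ∑ t : G × Fin n, if w + z t ∈ I then (1 : ℕ) else 0)
        + (R * n) * (W'.card - W.card) := by
    rw [Finset.sum_comm]
    calc (R * n) * I.card = ∑ _t : G × Fin n, I.card := by
          rw [Finset.sum_const, smul_eq_mul, Finset.card_univ, Fintype.card_prod,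
            Fintype.card_coe, Fintype.card_fin]
      _ ≤ ∑ t : G × Fin n, ((∑ w ∈ W, if w + z t ∈ I then (1 : ℕ) else 0)
          + (W'.card - W.card)) := Finset.sum_le_sum (fun t _ => hlower t)
      _ = _ := by
          rw [Finset.sum_add_distrib, Finset.sum_const, smul_eq_mul, Finset.card_univ,
            Fintype.card_prod, Fintype.card_coe, Fintype.card_fin]
  have hWW' : W.card ≤ W'.card := Finset.card_le_card (grow_sub z L)
  obtain ⟨d, hd⟩ := Nat.exists_eq_add_of_le hWW'
  have hd' : W'.card - W.card = d := by omega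
  rw [hd'] at hsumlow
  rw [hd] at hL ⊢
  -- (R n) |I| < R k |W'|
  have h5 : (R * n) * d < W.card := by nlinarith
  have h6 : (R * n) * I.card < (R * k) * (W.card + d) := by nlinarith
  have h7 : R * (I.card * n) < R * (k * (W.card + d)) := by nlinarith
  exact Nat.lt_of_mul_lt_mul_left h7

/-- Every finite configuration in the plane with natural number weights can be improved. -/
theorem improve_weighted (X : Finset ℂ) (w : ℂ → ℕ) (hw : 0 < ∑ x ∈ X, w x) :
    ∃ S ⊆ X, UnitFree (S : Set ℂ) ∧ ∃ Y : Finset ℂ, Y.Nonempty ∧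
      alpha Y * (∑ x ∈ X, w x) < (∑ x ∈ S, w x) * Y.card := by
  classical
  set n := ∑ x ∈ X, w x with hn
  -- the heaviest unit free subset
  have hne : (X.powerset.filter (fun S : Finset ℂ => UnitFree (S : Set ℂ))).Nonempty :=
    ⟨∅, Finset.mem_filter.mpr ⟨by simp, by intro x hx; simp at hx⟩⟩
  obtain ⟨S, hS, hmax⟩ := Finset.exists_max_image _ (fun S : Finset ℂ => ∑ x ∈ S, w x) hne
  rw [Finset.mem_filter, Finset.mem_powerset] at hS
  refine ⟨S, hS.1, hS.2, ?_⟩
  set k := ∑ x ∈ S, w x with hk
  have hmax' : ∀ S' ⊆ X, UnitFree (S' : Set ℂ) → ∑ x ∈ S', w x ≤ k := by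
    intro S' h1 h2
    exact hmax S' (Finset.mem_filter.mpr ⟨Finset.mem_powerset.mpr h1, h2⟩)
  have hkn : k ≤ n := Finset.sum_le_sum_of_subset hS.1
  have hk0 : 0 < k := by
    obtain ⟨x, hx, hx0⟩ := Finset.exists_ne_zero_of_sum_ne_zero hw.ne'
    have := hmax' {x} (by simpa using hx) (by
      intro a ha b hb
      simp only [Finset.coe_singleton, Set.mem_singleton_iff] at ha hb
      subst ha hb
      simp)
    rw [Finset.sum_singleton] at this
    omega
  rcases Nat.lt_or_ge k n with hlt | hge
  swap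
  · refine ⟨{0, 1}, by simp, ?_⟩
    have hc2 : ({0, 1} : Finset ℂ).card = 2 := by
      rw [Finset.card_pair]
      exact zero_ne_one
    have hY : alpha ({0, 1} : Finset ℂ) ≤ 1 := by
      obtain ⟨S, hS, hfree, hc⟩ := exists_alpha ({0, 1} : Finset ℂ)
      rw [← hc]
      by_contra hgt
      push Not at hgt
      have hSeq : S = {0, 1} := Finset.eq_of_subset_of_card_le hS (by omega)
      apply hfree 0 (by rw [hSeq]; simp) 1 (by rw [hSeq]; simp)
      simp
    rw [hc2]
    nlinarith
  -- the enumeration with multiplicities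
  have hcardT : Fintype.card (Σ x : X, Fin (w x)) = n := by
    rw [Fintype.card_sigma]
    simp only [Fintype.card_fin]
    rw [hn, ← Finset.sum_coe_sort X]
  let e : Fin n ≃ (Σ x : X, Fin (w x)) := (Fintype.equivFinOfCardEq hcardT).symm
  let x : Fin n → ℂ := fun j => ((e j).1 : ℂ)
  have hcount : ∀ p : ℂ → Prop, ∀ [DecidablePred p],
      (∑ j, if p (x j) then (1 : ℕ) else 0) = ∑ y ∈ X with p y, w y := by
    intro p _
    rw [← Equiv.sum_comp e.symm (fun j => if p (x j) then (1 : ℕ) else 0)]
    simp only [x, Equiv.apply_symm_apply]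
    rw [Fintype.sum_sigma]
    simp only [Finset.sum_const, Finset.card_univ, Fintype.card_fin, smul_eq_mul]
    rw [Finset.sum_filter, ← Finset.sum_coe_sort X]
    refine Finset.sum_congr rfl (fun y _ => ?_)
    split_ifs <;> simp
  refine improve_tuple n k hk0 hlt x ?_
  intro I hI v ρ hρ
  rw [hcount (fun y => v + ρ * y ∈ I)]
  apply hmax'
  · exact Finset.filter_subset _ _
  · intro y hy y' hy' hd
    have h1 := (Finset.mem_filter.mp (Finset.mem_coe.mp hy)).2
    have h2 := (Finset.mem_filter.mp (Finset.mem_coe.mp hy')).2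
    apply hI _ (Finset.mem_coe.mpr h1) _ (Finset.mem_coe.mpr h2)
    rw [dist_eq_norm] at hd ⊢
    have : v + ρ * y - (v + ρ * y') = ρ * (y - y') := by ring
    rw [this, norm_mul, hρ, one_mul, hd]

end Pool.Agent.Lib.MP_dadc30_co
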