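import Mathlib

/-!
# MP_dadc30_co: `lim f(n)/n = m_1(ℝ²)`.  Definitions for the whole proof.
-/

open MeasureTheory ProbabilityTheory Filter Topology
open scoped ENNReal ComplexConjugate

namespace Dadc30

/-! ## Part 0. Means and Følner sequences -/

/-- bounded real function -/
def Bdd {ι : Type*} (f : ι → ℝ) : Prop := ∃ C : ℝ, ∀ i, |f i| ≤ C

/-- bounded complex function -/
def BddC {ι : Type*} (f : ι → ℂ) : Prop := ∃ C : ℝ, ∀ i, ‖f i‖ ≤ C

/-- An invariant mean on a commutative group (only the values on bounded functions matter). -/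
structure InvMean (G : Type) [CommGroup G] where
  m : (G → ℝ) → ℝ
  add' : ∀ f g, Bdd f → Bdd g → m (fun u => f u + g u) = m f + m g
  smul' : ∀ (c : ℝ) f, Bdd f → m (fun u => c * f u) = c * m f
  mono' : ∀ f g, Bdd f → Bdd g → (∀ u, f u ≤ g u) → m f ≤ m g
  one' : m (fun _ => 1) = 1
  inv' : ∀ (w : G) f, Bdd f → m (fun u => f (w * u)) = m f

/-- The complex-linear extension of the mean. -/
noncomputable def InvMean.c {G : Type} [CommGroup G] (M : InvMean G) (f : G → ℂ) : ℂ :=
  ⟨M.m fun u => (f u).re, M.m fun u => (f u).im⟩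

/-- finite weighted average -/
noncomputable def avg {G : Type} (c : G →₀ ℝ) (φ : G → ℝ) : ℝ := c.sum fun g r => r * φ g

/-- finite weighted average, complex valued functions -/
noncomputable def avgC {G : Type} (c : G →₀ ℝ) (φ : G → ℂ) : ℂ := c.sum fun g r => (r : ℂ) * φ g

/-- A (weighted) Følner sequence of an additive commutative group. -/
structure FolnerSeq (G : Type) [AddCommGroup G] where
  c : ℕ → G →₀ ℝ
  nonneg : ∀ n g, 0 ≤ c n g
  one : ∀ n, ((c n).sum fun _ r => r) = 1
  e : ℕ → G → ℝ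
  e_tendsto : ∀ v, Tendsto (fun n => e n v) atTop (𝓝 0)
  inv : ∀ n v (φ : G → ℝ), (∀ g, |φ g| ≤ 1) →
    |avg (c n) (fun g => φ (g + v)) - avg (c n) φ| ≤ e n v

/-- infinitely divisible -/
def Divis (G : Type) [CommGroup G] : Prop := ∀ n : ℕ, 0 < n → ∀ g : G, ∃ h : G, h ^ n = g

/-! ## Part 1. Group actions, factors with kernels, relative squares -/

section Actions

variable (G : Type) [CommGroup G] {Ω : Type} [MeasurableSpace Ω] [MulAction G Ω]

/-- probability/finite measure preserved by the action -/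
def PMP (μ : Measure Ω) : Prop := ∀ g : G, MeasurePreserving (fun x : Ω => g • x) μ μ

/-- strictly invariant measurable sets -/
def InvSet (A : Set Ω) : Prop := MeasurableSet A ∧ ∀ g : G, (fun x : Ω => g • x) ⁻¹' A = A

/-- ergodicity -/
def Erg (μ : Measure Ω) : Prop := ∀ A : Set Ω, InvSet G A → μ A = 0 ∨ μ Aᶜ = 0

variable (Ω) in
/-- the σ-algebra of strictly invariant measurable sets -/
@[reducible] def invSA : MeasurableSpace Ω where
  MeasurableSet' := InvSet G
  measurableSet_empty := ⟨MeasurableSet.empty, fun _ => rfl⟩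
  measurableSet_compl := fun A hA => ⟨hA.1.compl, fun g => by
    rw [Set.preimage_compl, hA.2 g]⟩
  measurableSet_iUnion := fun A hA => ⟨MeasurableSet.iUnion fun i => (hA i).1, fun g => by
    rw [Set.preimage_iUnion]; exact Set.iUnion_congr fun i => (hA i).2 g⟩

end Actions

/-- bounded measurable complex function -/
def BM {Ω : Type} [MeasurableSpace Ω] (f : Ω → ℂ) : Prop := Measurable f ∧ BddC f

/-- bounded measurable real function -/
def BMR {Ω : Type} [MeasurableSpace Ω] (f : Ω → ℝ) : Prop := Measurable f ∧ Bdd f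

/-- A factor (invariant sub-σ-algebra containing the null sets) together with a strictly
equivariant regular conditional probability `κ`. -/
structure Fac (G : Type) [CommGroup G] {Ω : Type} [mΩ : MeasurableSpace Ω] [MulAction G Ω]
    (μ : Measure Ω) where
  m : MeasurableSpace Ω
  le : m ≤ mΩ
  null : ∀ N : Set Ω, MeasurableSet[mΩ] N → μ N = 0 → MeasurableSet[m] N
  inv : ∀ (g : G) (A : Set Ω), MeasurableSet[m] A → MeasurableSet[m] ((fun x : Ω => g • x) ⁻¹' A)
  κ : @Kernel Ω Ω mΩ mΩ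
  markov : IsMarkovKernel κ
  meas : ∀ B : Set Ω, MeasurableSet[mΩ] B → Measurable[m] (fun x => κ x B)
  equiv : ∀ (g : G) (x : Ω), κ (g • x) = @Measure.map Ω Ω mΩ mΩ (fun y : Ω => g • y) (κ x)
  cond : ∀ A B : Set Ω, MeasurableSet[m] A → MeasurableSet[mΩ] B →
    ∫⁻ x in A, κ x B ∂μ = μ (A ∩ B)
  self : ∀ A : Set Ω, MeasurableSet[m] A → ∀ᵐ x ∂μ, ∀ᵐ y ∂(κ x), (y ∈ A ↔ x ∈ A)
  idem : ∀ᵐ x ∂μ, ∀ᵐ y ∂(κ x), κ y = κ x

section FacDefs

variable {G : Type} [CommGroup G] {Ω : Type} [MeasurableSpace Ω] [MulAction G Ω]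
  {μ : Measure Ω}

instance (Y : Fac G μ) : IsMarkovKernel Y.κ := Y.markov

/-- conditional expectation on the factor, everywhere defined through the kernel -/
noncomputable def Fac.E (Y : Fac G μ) (φ : Ω → ℂ) (x : Ω) : ℂ := ∫ y, φ y ∂(Y.κ x)

/-- `h_Y(φ) = E |E[φ|Y]|²` -/
noncomputable def Fac.h (Y : Fac G μ) (φ : Ω → ℂ) : ℝ := ∫ x, ‖Y.E φ x‖ ^ 2 ∂μ

/-- the relative square `Ω ×_Y Ω` -/
noncomputable def Fac.sq (Y : Fac G μ) : Measure (Ω × Ω) := μ ⊗ₘ Y.κ

/-- `q_{D,B}(x) = κ_x({y ∈ B : (x,y) ∈ D})` -/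
noncomputable def Fac.q (Y : Fac G μ) (D : Set (Ω × Ω)) (B : Set Ω) (x : Ω) : ℝ≥0∞ :=
  Y.κ x {y | y ∈ B ∧ (x, y) ∈ D}

/-- the σ-algebra of the next factor `I(Y)` -/
@[reducible] def Fac.nextM (Y : Fac G μ) : MeasurableSpace Ω :=
  MeasurableSpace.generateFrom
    ({A | MeasurableSet[Y.m] A} ∪
      {S | ∃ (D : Set (Ω × Ω)) (B : Set Ω) (s : ℝ≥0∞), InvSet G D ∧ MeasurableSet B ∧
        S = {x | Y.q D B x < s}})

/-- `V` is the next factor after `Y` -/
def IsNext (Y V : Fac G μ) : Prop := V.m = Y.nextM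

end FacDefs

/-! ## Part 2. The field, the circle group, the dual group -/

/-- the algebraic numbers in `ℂ` -/
noncomputable def Falg : Subfield ℂ := (algebraicClosure ℚ ℂ).toSubfield

/-- the countable field `K` of algebraic numbers (= countable dense subset of the plane) -/
abbrev K : Type := ↥Falg

/-- the unit circle inside `K` -/
noncomputable def Gam : Subgroup Circle where
  carrier := {w | (w : ℂ) ∈ Falg}
  mul_mem' := fun {a b} ha hb => by
    simp only [Set.mem_ofPred_eq, Circle.coe_mul] at *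
    exact Falg.mul_mem ha hb
  one_mem' := by simp only [Set.mem_ofPred_eq, Circle.coe_one]; exact Falg.one_mem
  inv_mem' := fun {a} ha => by
    simp only [Set.mem_ofPred_eq, Circle.coe_inv] at *
    exact Falg.inv_mem ha

/-- the group `Γ` of algebraic numbers of modulus one -/
abbrev Γ₀ : Type := ↥Gam

/-- inclusion `Γ → K` -/
def toK (w : Γ₀) : K := ⟨((w : Circle) : ℂ), w.2⟩

/-- real algebraic numbers, as a subfield of `ℝ` -/
noncomputable def AR : Subfield ℝ := Falg.comap Complex.ofRealHom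

/-- the real algebraic numbers -/
abbrev A₀ : Type := ↥AR

/-- inclusion `A → K` -/
def A₀.toK (t : A₀) : K := ⟨((t : ℝ) : ℂ), t.2⟩

noncomputable instance : MeasurableSpace Circle := borel Circle
instance : BorelSpace Circle := ⟨rfl⟩

/-- the dual group of the discrete additive group `K` -/
def XX : Subgroup (K → Circle) where
  carrier := {x | ∀ a b, x (a + b) = x a * x b}
  mul_mem' := fun {x y} hx hy a b => by
    simp only [Pi.mul_apply, hx a b, hy a b]; exact mul_mul_mul_comm _ _ _ _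
  one_mem' := fun a b => by simp
  inv_mem' := fun {x} hx a b => by
    simp only [Pi.inv_apply, hx a b, mul_inv]

/-- the dual group `X` of `K` -/
abbrev X : Type := ↥XX

/-- evaluation character -/
noncomputable def chi (z : K) (x : X) : ℂ := ((x.1 z : Circle) : ℂ)

/-- `(t·x)(z) = x(tz)` -/
noncomputable def scale (t : K) (x : X) : X := ⟨fun z => x.1 (t * z), fun a b => by
  show x.1 (t * (a + b)) = x.1 (t * a) * x.1 (t * b)
  rw [mul_add]; exact x.2 _ _⟩

noncomputable instance : MulAction Γ₀ X where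
  smul w x := scale (toK w) x
  one_smul x := by
    apply Subtype.ext; funext z
    show x.1 (toK 1 * z) = x.1 z
    have : toK (1 : Γ₀) = 1 := by apply Subtype.ext; simp [toK]
    rw [this, one_mul]
  mul_smul a b x := by
    apply Subtype.ext; funext z
    show x.1 (toK (a * b) * z) = x.1 (toK b * (toK a * z))
    have : toK (a * b) = toK b * toK a := by apply Subtype.ext; simp [toK, mul_comm]
    rw [this, mul_assoc]

/-- characters that are continuous for the Euclidean topology of `K` -/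
def Xc : Set X := {x | ∀ ε > (0 : ℝ), ∃ δ > (0 : ℝ), ∀ z : K, ‖(z : ℂ)‖ < δ → ‖chi z x - 1‖ < ε}

/-- Fourier transform -/
noncomputable def ft (ν : Measure X) (z : K) : ℂ := ∫ x, chi z x ∂ν

/-- a factor of `(X, ν)` is singular: `x - x' ∉ X_c` almost surely in the relative square -/
def Fac.sing {ν : Measure X} (Y : Fac Γ₀ ν) : Prop := Y.sq {z : X × X | z.1 / z.2 ∈ Xc} = 0

/-- `t mod ε` in `[0, ε)` -/
noncomputable def tmod (ε t : A₀) : A₀ := t - (⌊(t : ℝ) / (ε : ℝ)⌋ : ℤ) • ε

/-- discontinuous character of the real algebraic numbers -/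
def DiscA (ξ : A₀ → Circle) : Prop :=
  ¬ (∀ ε > (0 : ℝ), ∃ δ > (0 : ℝ), ∀ t : A₀, |(t : ℝ)| < δ → ‖((ξ t : Circle) : ℂ) - 1‖ < ε)

/-! ## Part 3. The combinatorial side -/

/-- no two points at distance one -/
def Avoids {E : Type*} [Dist E] (S : Set E) : Prop := ∀ x ∈ S, ∀ y ∈ S, dist x y ≠ 1

/-- every finite set of points of the plane has an independent subset of ratio at least `c` -/
def HasRatio (c : ℝ) : Prop :=
  ∀ P : Finset ℂ, ∃ S ⊆ P, Avoids (S : Set ℂ) ∧ c * P.card ≤ S.card

/-- the closed square `[-R,R]²` in `ℂ` -/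
def sqBox (R : ℝ) : Set ℂ := {z | |z.re| ≤ R ∧ |z.im| ≤ R}

/-- upper density of a subset of `ℂ` -/
noncomputable def upDens (A : Set ℂ) : ℝ :=
  limsup (fun R : ℝ => (volume (A ∩ sqBox R)).toReal / (2 * R) ^ 2) atTop

/-- `m_1(ℂ)` -/
noncomputable def m1C : ℝ :=
  sSup {d | ∃ A : Set ℂ, MeasurableSet A ∧ Avoids A ∧ d = upDens A}

end Dadc30
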