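import Pool.Agent.Lib.MP_dadc30_co.BMapi

/-!
# MP_dadc30_co, module Eapi: conditional expectation `Y.E` of a factor.
Everything follows from the fields of `Fac`.  `E_self` for indicator functions is `Fac.self`;
in general approximate (simple functions), or: for rational balls/half-planes `U` the set
`φ⁻¹ U` is in `Y.m`, so for a.e. `x`, κ_x-a.e. `y`: `φ y = φ x`.
-/

open MeasureTheory ProbabilityTheory Filter Topology
open scoped ENNReal ComplexConjugate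

namespace Dadc30

variable {G : Type} [CommGroup G] {Ω : Type} [MeasurableSpace Ω] [MulAction G Ω]
  {μ : Measure Ω}

/-- the kernel of a factor is measurable for the σ-algebra of the factor -/
theorem Eapi_measurable_kernel (Y : Fac G μ) : Measurable[Y.m] (fun x => Y.κ x) :=
  @Measure.measurable_of_measurable_coe Ω Ω _ Y.m (fun x => Y.κ x) (fun s hs => Y.meas s hs)

theorem Fac.E_measurable (Y : Fac G μ) {φ : Ω → ℂ} (hφ : BM φ) : Measurable[Y.m] (Y.E φ) := by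
  have h := @StronglyMeasurable.integral_kernel (α := Ω) (β := Ω) (E := ℂ) (mα := Y.m)
    (κ := @Kernel.mk Ω Ω Y.m _ (fun x => Y.κ x) (Eapi_measurable_kernel Y)) (f := φ)
    (hf := hφ.1.stronglyMeasurable)
  exact (h _).measurable

theorem Fac.E_measurable' (Y : Fac G μ) {φ : Ω → ℂ} (hφ : BM φ) : Measurable (Y.E φ) :=
  (Y.E_measurable hφ).mono Y.le le_rfl

theorem Fac.E_bound (Y : Fac G μ) {φ : Ω → ℂ} {C : ℝ} (h : ∀ x, ‖φ x‖ ≤ C) (x : Ω) :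
    ‖Y.E φ x‖ ≤ C := by
  have h1 := norm_integral_le_of_norm_le_const (μ := Y.κ x) (f := φ) (C := C)
    (Filter.Eventually.of_forall h)
  unfold Fac.E
  simpa using h1

theorem Fac.E_BM (Y : Fac G μ) {φ : Ω → ℂ} (hφ : BM φ) : BM (Y.E φ) := by
  obtain ⟨C, hC⟩ := hφ.2
  exact ⟨Y.E_measurable' hφ, C, fun x => Y.E_bound hC x⟩

theorem Fac.E_equiv (Y : Fac G μ) (hμ : PMP G μ) {φ : Ω → ℂ} (hφ : BM φ) (g : G) (x : Ω) :
    Y.E φ (g • x) = Y.E (fun y => φ (g • y)) x := by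
  unfold Fac.E
  rw [Y.equiv g x]
  exact integral_map (hμ g).measurable.aemeasurable hφ.1.aestronglyMeasurable

theorem Fac.E_add (Y : Fac G μ) {φ ψ : Ω → ℂ} (hφ : BM φ) (hψ : BM ψ) (x : Ω) :
    Y.E (fun y => φ y + ψ y) x = Y.E φ x + Y.E ψ x :=
  integral_add (hφ.integrable _) (hψ.integrable _)

theorem Fac.E_sub (Y : Fac G μ) {φ ψ : Ω → ℂ} (hφ : BM φ) (hψ : BM ψ) (x : Ω) :
    Y.E (fun y => φ y - ψ y) x = Y.E φ x - Y.E ψ x :=
  integral_sub (hφ.integrable _) (hψ.integrable _)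

theorem Fac.E_smul (Y : Fac G μ) (a : ℂ) (φ : Ω → ℂ) (x : Ω) :
    Y.E (fun y => a * φ y) x = a * Y.E φ x :=
  integral_const_mul a φ

theorem Fac.E_conj (Y : Fac G μ) (φ : Ω → ℂ) (x : Ω) :
    Y.E (fun y => conj (φ y)) x = conj (Y.E φ x) :=
  integral_conj

/-- stronger: a.e. `x`, κ_x-a.e. `y`, `φ y = φ x` -/
theorem Fac.ae_ae_eq (Y : Fac G μ) {φ : Ω → ℂ} (hφ : Measurable[Y.m] φ) :
    ∀ᵐ x ∂μ, ∀ᵐ y ∂(Y.κ x), φ y = φ x := by
  have h1 : ∀ᵐ x ∂μ, ∀ U ∈ TopologicalSpace.countableBasis ℂ,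
      ∀ᵐ y ∂(Y.κ x), (y ∈ φ ⁻¹' U ↔ x ∈ φ ⁻¹' U) := by
    rw [ae_ball_iff (TopologicalSpace.countable_countableBasis ℂ)]
    intro U hU
    exact Y.self (φ ⁻¹' U)
      (hφ (TopologicalSpace.isOpen_of_mem_countableBasis hU).measurableSet)
  filter_upwards [h1] with x hx
  rw [← ae_ball_iff (TopologicalSpace.countable_countableBasis ℂ)] at hx
  filter_upwards [hx] with y hy
  rw [(TopologicalSpace.isBasis_countableBasis ℂ).eq_iff]
  exact hy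

theorem Fac.E_self (Y : Fac G μ) {φ : Ω → ℂ} (hb : BddC φ) (hφ : Measurable[Y.m] φ) :
    ∀ᵐ x ∂μ, Y.E φ x = φ x := by
  filter_upwards [Y.ae_ae_eq hφ] with x hx
  unfold Fac.E
  rw [integral_congr_ae hx]
  simp

theorem Fac.E_mul (Y : Fac G μ) {φ ψ : Ω → ℂ} (hφ : BM φ) (hb : BddC ψ)
    (hψ : Measurable[Y.m] ψ) :
    ∀ᵐ x ∂μ, Y.E (fun y => ψ y * φ y) x = ψ x * Y.E φ x := by
  filter_upwards [Y.ae_ae_eq hψ] with x hx
  unfold Fac.E
  rw [← integral_const_mul]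
  refine integral_congr_ae ?_
  filter_upwards [hx] with y hy
  rw [hy]

theorem Eapi_bind (Y : Fac G μ) : μ.bind Y.κ = μ := by
  ext B hB
  rw [Measure.bind_apply hB Y.κ.aemeasurable]
  simpa using Y.cond Set.univ B MeasurableSet.univ hB

/-- the disintegration formula for bounded functions -/
theorem Eapi_integral {F : Type*} [NormedAddCommGroup F] [NormedSpace ℝ F] (Y : Fac G μ)
    [IsProbabilityMeasure μ] {f : Ω → F} (hf : Integrable f μ) :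
    ∫ x, ∫ y, f y ∂(Y.κ x) ∂μ = ∫ x, f x ∂μ := by
  have h1 : (Y.κ ∘ₖ Kernel.const Unit μ) () = μ := by
    rw [Kernel.comp_apply, Kernel.const_apply]
    exact Eapi_bind Y
  have h2 := Kernel.integral_comp (κ := Kernel.const Unit μ) (η := Y.κ) (a := ()) (f := f)
    (by rw [h1]; exact hf)
  rw [h1] at h2
  rw [h2]
  simp

theorem Fac.integral_E (Y : Fac G μ) [IsProbabilityMeasure μ] {φ : Ω → ℂ} (hφ : BM φ) :
    ∫ x, Y.E φ x ∂μ = ∫ x, φ x ∂μ :=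
  Eapi_integral Y (hφ.integrable μ)

/-- testing against a `Y.m`-measurable function -/
theorem Fac.integral_mul_E (Y : Fac G μ) [IsProbabilityMeasure μ] {φ ψ : Ω → ℂ} (hφ : BM φ)
    (hb : BddC ψ) (hψ : Measurable[Y.m] ψ) :
    ∫ x, φ x * ψ x ∂μ = ∫ x, Y.E φ x * ψ x ∂μ := by
  have hψ' : BM ψ := ⟨hψ.mono Y.le le_rfl, hb⟩
  have h1 := Y.integral_E (hψ'.mul hφ)
  have h2 : ∫ x, φ x * ψ x ∂μ = ∫ x, ψ x * φ x ∂μ := by simp_rw [mul_comm]
  rw [h2, ← h1]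
  refine integral_congr_ae ?_
  filter_upwards [Y.E_mul hφ hb hψ] with x hx
  rw [hx, mul_comm]

theorem Fac.E_adj (Y : Fac G μ) [IsProbabilityMeasure μ] {φ ψ : Ω → ℂ} (hφ : BM φ)
    (hψ : BM ψ) : ∫ x, φ x * Y.E ψ x ∂μ = ∫ x, Y.E φ x * Y.E ψ x ∂μ :=
  Y.integral_mul_E hφ (Y.E_BM hψ).2 (Y.E_measurable hψ)

theorem Fac.E_congr (Y : Fac G μ) [IsProbabilityMeasure μ] {φ ψ : Ω → ℂ} (hφ : BM φ)
    (hψ : BM ψ) (h : ∀ᵐ x ∂μ, φ x = ψ x) : ∀ᵐ x ∂μ, Y.E φ x = Y.E ψ x := by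
  have hN : MeasurableSet {x | φ x ≠ ψ x} := (measurableSet_eq_fun hφ.1 hψ.1).compl
  have h1 : ∫⁻ x, Y.κ x {x | φ x ≠ ψ x} ∂μ = 0 := by
    have h2 := Y.cond Set.univ {x | φ x ≠ ψ x} MeasurableSet.univ hN
    rw [Measure.restrict_univ, Set.univ_inter] at h2
    rw [h2]
    exact h
  rw [lintegral_eq_zero_iff (Y.κ.measurable_coe hN)] at h1
  filter_upwards [h1] with x hx
  exact integral_congr_ae hx

theorem Fac.E_sq_le (Y : Fac G μ) {φ : Ω → ℂ} (hφ : BM φ) (x : Ω) :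
    ‖Y.E φ x‖ ^ 2 ≤ ∫ y, ‖φ y‖ ^ 2 ∂(Y.κ x) := by
  refine le_trans ?_ (hφ.sq_integral_norm_le (Y.κ x))
  exact pow_le_pow_left₀ (norm_nonneg _) (norm_integral_le_integral_norm _) 2

theorem Fac.h_nonneg (Y : Fac G μ) (φ : Ω → ℂ) : 0 ≤ Y.h φ :=
  integral_nonneg fun _ => sq_nonneg _

theorem Fac.h_le (Y : Fac G μ) [IsProbabilityMeasure μ] {φ : Ω → ℂ} (hφ : BM φ) :
    Y.h φ ≤ ∫ x, ‖φ x‖ ^ 2 ∂μ := by
  rw [← Eapi_integral Y (hφ.normSq.integrable μ)]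
  have hb : BMR (fun x => ∫ y, ‖φ y‖ ^ 2 ∂(Y.κ x)) := by
    obtain ⟨C, hC⟩ := hφ.normSq.2
    refine ⟨?_, C, fun x => ?_⟩
    · exact (hφ.normSq.1.stronglyMeasurable.integral_kernel (κ := Y.κ)).measurable
    · have h1 := norm_integral_le_of_norm_le_const (μ := Y.κ x) (f := fun y => ‖φ y‖ ^ 2)
        (C := C) (Filter.Eventually.of_forall hC)
      simpa using h1
  exact integral_mono ((Y.E_BM hφ).normSq.integrable μ) (hb.integrable μ)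
    (fun x => Y.E_sq_le hφ x)

theorem Fac.tower (Y V : Fac G μ) [IsProbabilityMeasure μ] (hle : Y.m ≤ V.m) {φ : Ω → ℂ}
    (hφ : BM φ) : ∀ᵐ x ∂μ, Y.E (V.E φ) x = Y.E φ x := by
  have hV := V.E_BM hφ
  have h1 : BM (Y.E (V.E φ)) := Y.E_BM hV
  have h2 : BM (Y.E φ) := Y.E_BM hφ
  have hDm : Measurable[Y.m] (fun x => Y.E (V.E φ) x - Y.E φ x) :=
    (Y.E_measurable hV).sub (Y.E_measurable hφ)
  have hD : BM (fun x => Y.E (V.E φ) x - Y.E φ x) := h1.sub h2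
  have hcm : Measurable[Y.m] (fun x => conj (Y.E (V.E φ) x - Y.E φ x)) :=
    Complex.continuous_conj.measurable.comp hDm
  have hc : BM (fun x => conj (Y.E (V.E φ) x - Y.E φ x)) := hD.conj
  have h3 := Y.integral_mul_E hV hc.2 hcm
  have h4 := V.integral_mul_E hφ hc.2 (hcm.mono hle le_rfl)
  have h5 := Y.integral_mul_E hφ hc.2 hcm
  have h6 : ∫ x, (Y.E (V.E φ) x - Y.E φ x) * conj (Y.E (V.E φ) x - Y.E φ x) ∂μ = 0 := by
    have h7 : ∀ x, (Y.E (V.E φ) x - Y.E φ x) * conj (Y.E (V.E φ) x - Y.E φ x) =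
        Y.E (V.E φ) x * conj (Y.E (V.E φ) x - Y.E φ x) -
          Y.E φ x * conj (Y.E (V.E φ) x - Y.E φ x) := fun x => sub_mul _ _ _
    simp_rw [h7]
    rw [integral_sub ((h1.mul hc).integrable μ) ((h2.mul hc).integrable μ), ← h3, ← h5, h4,
      sub_self]
  have h8 : ∫ x, ‖Y.E (V.E φ) x - Y.E φ x‖ ^ 2 ∂μ = 0 := by
    have h9 : ∀ x, (Y.E (V.E φ) x - Y.E φ x) * conj (Y.E (V.E φ) x - Y.E φ x) =
        ((‖Y.E (V.E φ) x - Y.E φ x‖ ^ 2 : ℝ) : ℂ) := by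
      intro x
      rw [Complex.mul_conj, Complex.normSq_eq_norm_sq]
    simp_rw [h9] at h6
    have h10 : ∫ x, ((‖Y.E (V.E φ) x - Y.E φ x‖ ^ 2 : ℝ) : ℂ) ∂μ =
        ((∫ x, ‖Y.E (V.E φ) x - Y.E φ x‖ ^ 2 ∂μ : ℝ) : ℂ) := integral_ofReal
    rw [h10] at h6
    exact_mod_cast h6
  rw [integral_eq_zero_iff_of_nonneg (fun x => sq_nonneg _) (hD.normSq.integrable μ)] at h8
  filter_upwards [h8] with x hx
  have h10 : ‖Y.E (V.E φ) x - Y.E φ x‖ = 0 := by simpa using hx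
  exact sub_eq_zero.1 (norm_eq_zero.1 h10)

theorem Fac.h_mono (Y V : Fac G μ) [IsProbabilityMeasure μ] (hle : Y.m ≤ V.m) {φ : Ω → ℂ}
    (hφ : BM φ) : Y.h φ ≤ V.h φ := by
  refine le_trans (le_of_eq ?_) (Y.h_le (V.E_BM hφ))
  refine integral_congr_ae ?_
  filter_upwards [Y.tower V hle hφ] with x hx
  rw [hx]

end Dadc30
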