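import Pool.Agent.Lib.MP_dadc30_co.Defs

/-!
# MP_dadc30_co, module Folner: weighted Følner sequences and invariant means exist for
countable abelian groups.

`exists_folner`: enumerate `G = {a 0, a 1, ...}`; `c n` = law of `∑ i < n, k i • a i` where
`k : Fin n → Fin ((n+1)^2)` is uniform (push forward of the uniform weights along
`k ↦ ∑ k i • a i`; `Finsupp.mapDomain` or an explicit finite sum of `Finsupp.single`).
For `v = a i`, `i < n`, the change of variables `k i ↦ k i + 1` shows
`|avg (φ (· + v)) - avg φ| ≤ 2/(n+1)^2`; for `n ≤ i` use the trivial bound 2.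
`exists_mean`: `M f = lim` of `avg (c n) f` along a non-principal ultrafilter on ℕ
(`Filter.hyperfilter ℕ`; for bounded `f` the sequence stays in a compact interval), applied to
`Additive G`.
-/

open MeasureTheory ProbabilityTheory Filter Topology
open scoped ENNReal ComplexConjugate

namespace Dadc30

/-! ### linearity of `avg` -/

theorem folner_avg_eq {G : Type} (c : G →₀ ℝ) (φ : G → ℝ) :
    avg c φ = Finsupp.linearCombination ℝ φ c := by
  unfold avg
  rw [Finsupp.linearCombination_apply]
  rfl

/-- one step of the construction: average over the translates by `k • a`, `k < N` -/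
noncomputable def folner_step {G : Type} [AddCommGroup G] (N : ℕ) (a : G) (c : G →₀ ℝ) :
    G →₀ ℝ :=
  ∑ k ∈ Finset.range N, (1 / (N : ℝ)) • c.mapDomain (fun x => x + k • a)

theorem folner_avg_step {G : Type} [AddCommGroup G] (N : ℕ) (a : G) (c : G →₀ ℝ) (φ : G → ℝ) :
    avg (folner_step N a c) φ
      = ∑ k ∈ Finset.range N, (1 / (N : ℝ)) * avg c (fun x => φ (x + k • a)) := by
  rw [folner_avg_eq, folner_step, map_sum]
  apply Finset.sum_congr rfl
  intro k _
  rw [map_smul, Finsupp.linearCombination_mapDomain, folner_avg_eq, smul_eq_mul]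
  rfl

/-- the weights after `i` steps -/
noncomputable def folner_c {G : Type} [AddCommGroup G] (N : ℕ) (a : ℕ → G) : ℕ → (G →₀ ℝ)
  | 0 => Finsupp.single 0 1
  | i + 1 => folner_step N (a i) (folner_c N a i)

theorem folner_c_nonneg {G : Type} [AddCommGroup G] (N : ℕ) (a : ℕ → G) (i : ℕ) (g : G) :
    0 ≤ folner_c N a i g := by
  induction i generalizing g with
  | zero =>
    show 0 ≤ (Finsupp.single (0 : G) (1 : ℝ)) g
    classical
    rw [Finsupp.single_apply]
    split_ifs <;> norm_num
  | succ i ih =>
    show 0 ≤ folner_step N (a i) (folner_c N a i) g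
    rw [folner_step, Finsupp.finsetSum_apply]
    apply Finset.sum_nonneg
    intro k _
    rw [Finsupp.smul_apply, smul_eq_mul]
    apply mul_nonneg (by positivity)
    have h1 : Function.Injective (fun x : G => x + k • a i) := fun x y hxy => by
      simpa using hxy
    have h2 : g = (fun x : G => x + k • a i) (g - k • a i) := by simp
    rw [h2, Finsupp.mapDomain_apply h1]
    exact ih _

theorem folner_c_one {G : Type} [AddCommGroup G] (N : ℕ) (hN : 0 < N) (a : ℕ → G) (i : ℕ) :
    avg (folner_c N a i) (fun _ => 1) = 1 := by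
  induction i with
  | zero =>
    show avg (Finsupp.single (0 : G) (1 : ℝ)) (fun _ => 1) = 1
    unfold avg
    rw [Finsupp.sum_single_index (by simp)]
    norm_num
  | succ i ih =>
    show avg (folner_step N (a i) (folner_c N a i)) (fun _ => 1) = 1
    rw [folner_avg_step]
    have h1 : ∀ k ∈ Finset.range N, (1 / (N : ℝ)) * avg (folner_c N a i) (fun _ => 1)
        = 1 / (N : ℝ) := fun k _ => by rw [ih, mul_one]
    rw [Finset.sum_congr rfl h1, Finset.sum_const, Finset.card_range, nsmul_eq_mul]
    have h2 : (N : ℝ) ≠ 0 := by positivity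
    field_simp

theorem folner_one {G : Type} (c : G →₀ ℝ) : avg c (fun _ => 1) = c.sum fun _ r => r := by
  unfold avg
  simp

theorem folner_abs_avg_le {G : Type} (c : G →₀ ℝ) (h0 : ∀ g, 0 ≤ c g)
    (h1 : (c.sum fun _ r => r) = 1) {φ : G → ℝ} {C : ℝ} (h : ∀ g, |φ g| ≤ C) : |avg c φ| ≤ C := by
  unfold avg Finsupp.sum
  calc |∑ g ∈ c.support, c g * φ g| ≤ ∑ g ∈ c.support, |c g * φ g| :=
        Finset.abs_sum_le_sum_abs _ _
    _ ≤ ∑ g ∈ c.support, c g * C := by
        apply Finset.sum_le_sum
        intro g _
        rw [abs_mul, abs_of_nonneg (h0 g)]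
        exact mul_le_mul_of_nonneg_left (h g) (h0 g)
    _ = (∑ g ∈ c.support, c g) * C := by rw [Finset.sum_mul]
    _ = C := by
        have h2 : ∑ g ∈ c.support, c g = 1 := h1
        rw [h2, one_mul]

theorem folner_c_inv {G : Type} [AddCommGroup G] (N : ℕ) (hN : 0 < N) (a : ℕ → G) (i : ℕ) :
    ∀ j < i, ∀ φ : G → ℝ, (∀ g, |φ g| ≤ 1) →
      |avg (folner_c N a i) (fun g => φ (g + a j)) - avg (folner_c N a i) φ| ≤ 2 / N := by
  induction i with
  | zero => intro j hj; omega
  | succ i ih =>
    intro j hj φ hφ
    have hN' : (0 : ℝ) < N := by exact_mod_cast hN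
    show |avg (folner_step N (a i) (folner_c N a i)) (fun g => φ (g + a j))
      - avg (folner_step N (a i) (folner_c N a i)) φ| ≤ 2 / N
    rw [folner_avg_step, folner_avg_step]
    rcases Nat.lt_or_ge j i with hji | hji
    · rw [← Finset.sum_sub_distrib]
      calc |∑ k ∈ Finset.range N, ((1 / (N : ℝ)) * avg (folner_c N a i)
              (fun x => φ (x + k • a i + a j))
            - (1 / (N : ℝ)) * avg (folner_c N a i) (fun x => φ (x + k • a i)))|
          ≤ ∑ k ∈ Finset.range N, |(1 / (N : ℝ)) * avg (folner_c N a i)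
              (fun x => φ (x + k • a i + a j))
            - (1 / (N : ℝ)) * avg (folner_c N a i) (fun x => φ (x + k • a i))| :=
            Finset.abs_sum_le_sum_abs _ _
        _ ≤ ∑ k ∈ Finset.range N, (1 / (N : ℝ)) * (2 / N) := by
            apply Finset.sum_le_sum
            intro k _
            rw [← mul_sub, abs_mul, abs_of_nonneg (by positivity : (0 : ℝ) ≤ 1 / (N : ℝ))]
            apply mul_le_mul_of_nonneg_left _ (by positivity)
            have h1 := ih j hji (fun x => φ (x + k • a i)) (fun g => hφ _)
            have h2 : (fun x => φ (x + k • a i + a j)) = (fun g => φ (g + a j + k • a i)) := by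
              funext x
              congr 1
              abel
            rw [h2]
            exact h1
        _ = 2 / N := by
            rw [Finset.sum_const, Finset.card_range, nsmul_eq_mul]
            field_simp
    · have hji' : j = i := by omega
      subst hji'
      have h1 : ∑ k ∈ Finset.range N, (1 / (N : ℝ)) * avg (folner_c N a j)
            (fun x => φ (x + k • a j + a j))
          - ∑ k ∈ Finset.range N, (1 / (N : ℝ)) * avg (folner_c N a j) (fun x => φ (x + k • a j))
          = (1 / (N : ℝ)) * avg (folner_c N a j) (fun x => φ (x + N • a j))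
            - (1 / (N : ℝ)) * avg (folner_c N a j) (fun x => φ (x + 0 • a j)) := by
        rw [← Finset.sum_sub_distrib]
        rw [← Finset.sum_range_sub (fun k => (1 / (N : ℝ)) * avg (folner_c N a j)
          (fun x => φ (x + k • a j))) N]
        apply Finset.sum_congr rfl
        intro k _
        congr 2
        congr 1
        funext x
        congr 1
        rw [succ_nsmul]
        abel
      have h2 := folner_abs_avg_le (folner_c N a j) (folner_c_nonneg N a j)
        ((folner_one _).symm.trans (folner_c_one N hN a j))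
        (φ := fun x => φ (x + N • a j)) (C := 1) (fun g => hφ _)
      have h3 := folner_abs_avg_le (folner_c N a j) (folner_c_nonneg N a j)
        ((folner_one _).symm.trans (folner_c_one N hN a j))
        (φ := fun x => φ (x + 0 • a j)) (C := 1) (fun g => hφ _)
      rw [h1, ← mul_sub, abs_mul, abs_of_nonneg (by positivity : (0 : ℝ) ≤ 1 / (N : ℝ))]
      have h4 : |avg (folner_c N a j) (fun x => φ (x + N • a j))
          - avg (folner_c N a j) (fun x => φ (x + 0 • a j))| ≤ 2 := by
        rw [abs_le] at h2 h3 ⊢
        constructor <;> linarith [h2.1, h2.2, h3.1, h3.2]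
      calc (1 / (N : ℝ)) * |avg (folner_c N a j) (fun x => φ (x + N • a j))
          - avg (folner_c N a j) (fun x => φ (x + 0 • a j))| ≤ (1 / (N : ℝ)) * 2 :=
            mul_le_mul_of_nonneg_left h4 (by positivity)
        _ = 2 / N := by ring

theorem exists_folner (G : Type) [AddCommGroup G] [Countable G] : Nonempty (FolnerSeq G) := by
  classical
  obtain ⟨a, ha⟩ := exists_surjective_nat G
  refine ⟨{ c := fun n => folner_c (n + 1) a n
            nonneg := fun n g => folner_c_nonneg (n + 1) a n g
            one := fun n => (folner_one _).symm.trans (folner_c_one (n + 1) n.succ_pos a n)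
            e := fun n v => if ∃ i < n, a i = v then 2 / ((n + 1 : ℕ) : ℝ) else 2
            e_tendsto := ?_
            inv := ?_ }⟩
  · intro v
    obtain ⟨i, hi⟩ := ha v
    have h1 : Tendsto (fun n : ℕ => (2 : ℝ) / ((n + 1 : ℕ) : ℝ)) atTop (𝓝 0) := by
      have h2 : Tendsto (fun n : ℕ => (2 : ℝ) / (n : ℝ)) atTop (𝓝 0) :=
        tendsto_const_div_atTop_nhds_zero_nat 2
      exact h2.comp (tendsto_add_atTop_nat 1)
    apply h1.congr'
    filter_upwards [eventually_gt_atTop i] with n hn
    rw [if_pos ⟨i, hn, hi⟩]
  · intro n v φ hφ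
    split_ifs with hv
    · obtain ⟨i, hi, rfl⟩ := hv
      exact folner_c_inv (n + 1) n.succ_pos a n i hi φ hφ
    · have h2 := folner_abs_avg_le (folner_c (n + 1) a n) (folner_c_nonneg (n + 1) a n)
        ((folner_one _).symm.trans (folner_c_one (n + 1) n.succ_pos a n))
        (φ := fun x => φ (x + v)) (C := 1) (fun g => hφ _)
      have h3 := folner_abs_avg_le (folner_c (n + 1) a n) (folner_c_nonneg (n + 1) a n)
        ((folner_one _).symm.trans (folner_c_one (n + 1) n.succ_pos a n))
        (φ := φ) (C := 1) (fun g => hφ _)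
      rw [abs_le] at h2 h3 ⊢
      constructor <;> linarith [h2.1, h2.2, h3.1, h3.2]

/-- basic bound: averages of functions bounded by `C` are bounded by `C` -/
theorem FolnerSeq.abs_avg_le {G : Type} [AddCommGroup G] (F : FolnerSeq G) (n : ℕ)
    {φ : G → ℝ} {C : ℝ} (h : ∀ g, |φ g| ≤ C) : |avg (F.c n) φ| ≤ C :=
  folner_abs_avg_le (F.c n) (F.nonneg n) (F.one n) h

theorem folner_avgC_re {G : Type} (c : G →₀ ℝ) (φ : G → ℂ) :
    (avgC c φ).re = avg c (fun g => (φ g).re) := by
  unfold avgC avg Finsupp.sum
  rw [Complex.re_sum]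
  apply Finset.sum_congr rfl
  intro g _
  simp

theorem folner_avgC_im {G : Type} (c : G →₀ ℝ) (φ : G → ℂ) :
    (avgC c φ).im = avg c (fun g => (φ g).im) := by
  unfold avgC avg Finsupp.sum
  rw [Complex.im_sum]
  apply Finset.sum_congr rfl
  intro g _
  simp

/-- complex version of approximate invariance -/
theorem FolnerSeq.invC {G : Type} [AddCommGroup G] (F : FolnerSeq G) (n : ℕ) (v : G)
    (φ : G → ℂ) (h : ∀ g, ‖φ g‖ ≤ 1) :
    ‖avgC (F.c n) (fun g => φ (g + v)) - avgC (F.c n) φ‖ ≤ 2 * F.e n v := by
  have h1 := F.inv n v (fun g => (φ g).re) (fun g => (Complex.abs_re_le_norm _).trans (h g))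
  have h2 := F.inv n v (fun g => (φ g).im) (fun g => (Complex.abs_im_le_norm _).trans (h g))
  have h3 := Complex.norm_le_abs_re_add_abs_im
    (avgC (F.c n) (fun g => φ (g + v)) - avgC (F.c n) φ)
  rw [Complex.sub_re, Complex.sub_im, folner_avgC_re, folner_avgC_re, folner_avgC_im,
    folner_avgC_im] at h3
  linarith

end Dadc30
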