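import Pool.Agent.Lib.MP_dadc30_co.Folner

open MeasureTheory ProbabilityTheory Filter Topology
open scoped ENNReal ComplexConjugate

namespace Dadc30

section folnerMean

variable {G : Type} [CommGroup G] (F : FolnerSeq (Additive G))

/-- the sequence of averages -/
private noncomputable def folnerMeanA (f : G → ℝ) (n : ℕ) : ℝ :=
  avg (F.c n) (fun g => f (Additive.toMul g))

/-- the limit of the averages along an ultrafilter -/
private noncomputable def folnerMeanM (f : G → ℝ) : ℝ :=
  limUnder ((Filter.hyperfilter ℕ : Ultrafilter ℕ) : Filter ℕ) (folnerMeanA F f)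

private theorem folnerMean_tendsto {f : G → ℝ} (hf : Bdd f) :
    Tendsto (folnerMeanA F f) ((Filter.hyperfilter ℕ : Ultrafilter ℕ) : Filter ℕ)
      (𝓝 (folnerMeanM F f)) := by
  obtain ⟨C, hC⟩ := hf
  have h1 : ∀ n, folnerMeanA F f n ∈ Set.Icc (-C) C := by
    intro n
    exact abs_le.mp (F.abs_avg_le n (fun g => hC (Additive.toMul g)))
  have h2 : ∃ x ∈ Set.Icc (-C) C,
      ((Filter.hyperfilter ℕ : Ultrafilter ℕ).map (folnerMeanA F f) : Filter ℝ) ≤ 𝓝 x := by
    apply isCompact_Icc.ultrafilter_le_nhds
    rw [Filter.le_principal_iff]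
    exact Filter.mem_map.2 (Filter.univ_mem' h1)
  obtain ⟨x, -, hx⟩ := h2
  exact tendsto_nhds_limUnder ⟨x, hx⟩

private theorem folnerMean_add {f g : G → ℝ} (n : ℕ) :
    folnerMeanA F (fun u => f u + g u) n = folnerMeanA F f n + folnerMeanA F g n := by
  unfold folnerMeanA avg
  rw [← Finsupp.sum_add]
  apply Finsupp.sum_congr
  intro x _
  ring

private theorem folnerMean_smul {f : G → ℝ} (c : ℝ) (n : ℕ) :
    folnerMeanA F (fun u => c * f u) n = c * folnerMeanA F f n := by
  unfold folnerMeanA avg
  rw [Finsupp.mul_sum]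
  apply Finsupp.sum_congr
  intro x _
  ring

private theorem folnerMean_mono {f g : G → ℝ} (h : ∀ u, f u ≤ g u) (n : ℕ) :
    folnerMeanA F f n ≤ folnerMeanA F g n := by
  unfold folnerMeanA avg
  apply Finset.sum_le_sum
  intro x _
  exact mul_le_mul_of_nonneg_left (h _) (F.nonneg n x)

end folnerMean

/-- `M f = lim` of `avg (c n) f` along a non-principal ultrafilter on ℕ (`Filter.hyperfilter ℕ`;
for bounded `f` the sequence stays in a compact interval), for a Følner sequence of
`Additive G`. -/
theorem exists_mean (G : Type) [CommGroup G] [Countable G] : Nonempty (InvMean G) := by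
  have : Countable (Additive G) := inferInstanceAs (Countable G)
  obtain ⟨F⟩ := exists_folner (Additive G)
  have hadd : ∀ f g : G → ℝ, Bdd f → Bdd g → Bdd (fun u => f u + g u) := by
    rintro f g ⟨C, hC⟩ ⟨D, hD⟩
    exact ⟨C + D, fun u => (abs_add_le _ _).trans (add_le_add (hC u) (hD u))⟩
  refine ⟨⟨folnerMeanM F, ?_, ?_, ?_, ?_, ?_⟩⟩
  · intro f g hf hg
    have h1 := (folnerMean_tendsto F hf).add (folnerMean_tendsto F hg)
    have h2 := folnerMean_tendsto F (hadd f g hf hg)
    refine tendsto_nhds_unique h2 ?_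
    refine h1.congr (fun n => ?_)
    exact (folnerMean_add F n).symm
  · intro c f hf
    have h1 := (folnerMean_tendsto F hf).const_mul c
    have h2 : Bdd (fun u => c * f u) := by
      obtain ⟨C, hC⟩ := hf
      refine ⟨|c| * C, fun u => ?_⟩
      rw [abs_mul]
      exact mul_le_mul_of_nonneg_left (hC u) (abs_nonneg c)
    refine tendsto_nhds_unique (folnerMean_tendsto F h2) ?_
    refine h1.congr (fun n => ?_)
    exact (folnerMean_smul F c n).symm
  · intro f g hf hg h
    exact le_of_tendsto_of_tendsto' (folnerMean_tendsto F hf) (folnerMean_tendsto F hg)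
      (fun n => folnerMean_mono F h n)
  · have h1 : Bdd (fun _ : G => (1 : ℝ)) := ⟨1, fun _ => by simp⟩
    refine tendsto_nhds_unique (folnerMean_tendsto F h1) ?_
    refine tendsto_const_nhds.congr (fun n => ?_)
    have h2 := F.one n
    refine h2.symm.trans ?_
    unfold folnerMeanA avg
    apply Finsupp.sum_congr
    intro x _
    ring
  · intro w f hf
    have h1 := folnerMean_tendsto F hf
    have h2 : Bdd (fun u => f (w * u)) := by
      obtain ⟨C, hC⟩ := hf
      exact ⟨C, fun u => hC _⟩
    have h3 := folnerMean_tendsto F h2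
    obtain ⟨C, hC⟩ := hf
    -- scale to a function bounded by one
    have hD : (0 : ℝ) < |C| + 1 := by positivity
    have h4 : ∀ n, |folnerMeanA F (fun u => f (w * u)) n - folnerMeanA F f n|
        ≤ (|C| + 1) * F.e n (Additive.ofMul w) := by
      intro n
      have h5 := F.inv n (Additive.ofMul w)
        (fun g => (|C| + 1)⁻¹ * f (Additive.toMul g)) (by
          intro g
          rw [abs_mul, abs_of_pos (inv_pos.2 hD), inv_mul_le_iff₀ hD, mul_one]
          have := hC (Additive.toMul g)
          have := le_abs_self C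
          linarith)
      have h6 : avg (F.c n) (fun g => (|C| + 1)⁻¹ *
          f (Additive.toMul (g + Additive.ofMul w)))
          = (|C| + 1)⁻¹ * folnerMeanA F (fun u => f (w * u)) n := by
        have h7 := folnerMean_smul F (f := fun u => f (w * u)) (|C| + 1)⁻¹ n
        rw [← h7]
        unfold folnerMeanA
        congr 1
        funext g
        rw [toMul_add, toMul_ofMul, mul_comm (Additive.toMul g) w]
      have h8 : avg (F.c n) (fun g => (|C| + 1)⁻¹ * f (Additive.toMul g))
          = (|C| + 1)⁻¹ * folnerMeanA F f n := folnerMean_smul F (f := f) (|C| + 1)⁻¹ n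
      rw [h6, h8, ← mul_sub, abs_mul, abs_of_pos (inv_pos.2 hD), inv_mul_le_iff₀ hD] at h5
      exact h5
    have h5 : Tendsto (fun n => (|C| + 1) * F.e n (Additive.ofMul w))
        ((Filter.hyperfilter ℕ : Ultrafilter ℕ) : Filter ℕ) (𝓝 0) := by
      have h6 := (F.e_tendsto (Additive.ofMul w)).const_mul (|C| + 1)
      rw [mul_zero] at h6
      refine h6.mono_left ?_
      rw [← Nat.cofinite_eq_atTop]
      exact Filter.hyperfilter_le_cofinite
    have h6 : Tendsto (fun n => folnerMeanA F (fun u => f (w * u)) n - folnerMeanA F f n)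
        ((Filter.hyperfilter ℕ : Ultrafilter ℕ) : Filter ℕ) (𝓝 0) :=
      squeeze_zero_norm h4 h5
    have h7 := h6.add h1
    rw [zero_add] at h7
    refine tendsto_nhds_unique h3 ?_
    refine h7.congr (fun n => ?_)
    ring

end Dadc30
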