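import Pool.Agent.Lib.MP_dadc30_co.Defs

/-!
# MP_dadc30_co, module Mean: elementary API of invariant means.
All proofs are elementary (linearity, monotonicity, Cauchy-Schwarz by the discriminant).
-/

open MeasureTheory ProbabilityTheory Filter Topology
open scoped ENNReal ComplexConjugate

namespace Dadc30

variable {G : Type} [CommGroup G]

theorem Bdd.const {ι : Type*} (c : ℝ) : Bdd (fun _ : ι => c) := ⟨|c|, fun _ => le_rfl⟩
theorem Bdd.add {ι : Type*} {f g : ι → ℝ} (hf : Bdd f) (hg : Bdd g) :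
    Bdd (fun i => f i + g i) := by
  obtain ⟨C, hC⟩ := hf
  obtain ⟨D, hD⟩ := hg
  exact ⟨C + D, fun i => (abs_add_le _ _).trans (add_le_add (hC i) (hD i))⟩
theorem Bdd.sub {ι : Type*} {f g : ι → ℝ} (hf : Bdd f) (hg : Bdd g) :
    Bdd (fun i => f i - g i) := by
  obtain ⟨C, hC⟩ := hf
  obtain ⟨D, hD⟩ := hg
  exact ⟨C + D, fun i => (abs_sub _ _).trans (add_le_add (hC i) (hD i))⟩
theorem Bdd.mul {ι : Type*} {f g : ι → ℝ} (hf : Bdd f) (hg : Bdd g) :
    Bdd (fun i => f i * g i) := by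
  obtain ⟨C, hC⟩ := hf
  obtain ⟨D, hD⟩ := hg
  refine ⟨C * D, fun i => ?_⟩
  rw [abs_mul]
  exact mul_le_mul (hC i) (hD i) (abs_nonneg _) ((abs_nonneg _).trans (hC i))
theorem Bdd.abs {ι : Type*} {f : ι → ℝ} (hf : Bdd f) : Bdd (fun i => |f i|) := by
  obtain ⟨C, hC⟩ := hf
  refine ⟨C, fun i => ?_⟩
  rw [abs_abs]
  exact hC i
theorem Bdd.pow {ι : Type*} {f : ι → ℝ} (hf : Bdd f) (n : ℕ) : Bdd (fun i => f i ^ n) := by
  obtain ⟨C, hC⟩ := hf
  refine ⟨C ^ n, fun i => ?_⟩
  rw [abs_pow]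
  exact pow_le_pow_left₀ (abs_nonneg _) (hC i) n
theorem Bdd.comp {ι κ : Type*} {f : ι → ℝ} (hf : Bdd f) (σ : κ → ι) :
    Bdd (fun i => f (σ i)) := by
  obtain ⟨C, hC⟩ := hf
  exact ⟨C, fun i => hC (σ i)⟩
theorem Bdd.sum {ι κ : Type*} (s : Finset κ) {f : κ → ι → ℝ} (hf : ∀ k ∈ s, Bdd (f k)) :
    Bdd (fun i => ∑ k ∈ s, f k i) := by
  classical
  induction s using Finset.induction_on with
  | empty =>
    simp only [Finset.sum_empty]
    exact Bdd.const 0
  | insert a s ha ih =>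
    simp only [Finset.sum_insert ha]
    exact (hf a (Finset.mem_insert_self a s)).add
      (ih fun k hk => hf k (Finset.mem_insert_of_mem hk))
theorem BddC.norm {ι : Type*} {f : ι → ℂ} (hf : BddC f) : Bdd (fun i => ‖f i‖) := by
  obtain ⟨C, hC⟩ := hf
  refine ⟨C, fun i => ?_⟩
  rw [abs_of_nonneg (norm_nonneg _)]
  exact hC i
theorem BddC.re {ι : Type*} {f : ι → ℂ} (hf : BddC f) : Bdd (fun i => (f i).re) := by
  obtain ⟨C, hC⟩ := hf
  exact ⟨C, fun i => (Complex.abs_re_le_norm _).trans (hC i)⟩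
theorem BddC.im {ι : Type*} {f : ι → ℂ} (hf : BddC f) : Bdd (fun i => (f i).im) := by
  obtain ⟨C, hC⟩ := hf
  exact ⟨C, fun i => (Complex.abs_im_le_norm _).trans (hC i)⟩

theorem InvMean.m_const (M : InvMean G) (c : ℝ) : M.m (fun _ => c) = c := by
  have h := M.smul' c (fun _ => 1) (Bdd.const 1)
  have h1 : (fun _ : G => c * (1 : ℝ)) = fun _ => c := by
    funext u
    rw [mul_one]
  rw [M.one', h1, mul_one] at h
  exact h

theorem InvMean.m_nonneg (M : InvMean G) {f : G → ℝ} (hf : Bdd f) (h : ∀ u, 0 ≤ f u) :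
    0 ≤ M.m f := by
  rw [← M.m_const 0]
  exact M.mono' _ _ (Bdd.const 0) hf h

theorem InvMean.m_sub (M : InvMean G) {f g : G → ℝ} (hf : Bdd f) (hg : Bdd g) :
    M.m (fun u => f u - g u) = M.m f - M.m g := by
  have h1 : Bdd (fun u => (-1 : ℝ) * g u) := (Bdd.const (-1)).mul hg
  have h2 := M.add' f (fun u => (-1 : ℝ) * g u) hf h1
  rw [M.smul' (-1) g hg] at h2
  have h3 : (fun u => f u - g u) = fun u => f u + (-1 : ℝ) * g u := by
    funext u
    ring
  rw [h3, h2]
  ring

theorem InvMean.m_neg (M : InvMean G) {f : G → ℝ} (hf : Bdd f) :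
    M.m (fun u => - f u) = - M.m f := by
  have h2 := M.smul' (-1) f hf
  have h3 : (fun u => - f u) = fun u => (-1 : ℝ) * f u := by
    funext u
    ring
  rw [h3, h2]
  ring

theorem InvMean.m_sum (M : InvMean G) {ι : Type*} (s : Finset ι) (f : ι → G → ℝ)
    (hf : ∀ i ∈ s, Bdd (f i)) :
    M.m (fun u => ∑ i ∈ s, f i u) = ∑ i ∈ s, M.m (f i) := by
  classical
  induction s using Finset.induction_on with
  | empty =>
    simp only [Finset.sum_empty]
    exact M.m_const 0
  | insert a s ha ih =>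
    have h1 := hf a (Finset.mem_insert_self a s)
    have h2 : ∀ k ∈ s, Bdd (f k) := fun k hk => hf k (Finset.mem_insert_of_mem hk)
    simp only [Finset.sum_insert ha]
    rw [M.add' (f a) (fun u => ∑ i ∈ s, f i u) h1 (Bdd.sum s h2), ih h2]

theorem InvMean.m_le_of_le (M : InvMean G) {f : G → ℝ} {C : ℝ} (hf : Bdd f)
    (h : ∀ u, f u ≤ C) : M.m f ≤ C := by
  rw [← M.m_const C]
  exact M.mono' _ _ hf (Bdd.const C) h

theorem InvMean.le_m_of_le (M : InvMean G) {f : G → ℝ} {C : ℝ} (hf : Bdd f)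
    (h : ∀ u, C ≤ f u) : C ≤ M.m f := by
  rw [← M.m_const C]
  exact M.mono' _ _ (Bdd.const C) hf h

theorem InvMean.abs_m_le (M : InvMean G) {f : G → ℝ} {C : ℝ} (h : ∀ u, |f u| ≤ C) :
    |M.m f| ≤ C := by
  have hf : Bdd f := ⟨C, h⟩
  rw [abs_le]
  exact ⟨M.le_m_of_le hf fun u => (abs_le.1 (h u)).1, M.m_le_of_le hf fun u => (abs_le.1 (h u)).2⟩

theorem InvMean.abs_m_le_m_abs (M : InvMean G) {f : G → ℝ} (hf : Bdd f) :
    |M.m f| ≤ M.m (fun u => |f u|) := by
  rw [abs_le]
  constructor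
  · have h1 := M.mono' (fun u => - f u) (fun u => |f u|)
      (by
        obtain ⟨C, hC⟩ := hf
        refine ⟨C, fun u => ?_⟩
        have := hC u
        rwa [← abs_neg] at this)
      hf.abs (fun u => neg_le_abs _)
    rw [M.m_neg hf] at h1
    linarith
  · exact M.mono' f (fun u => |f u|) hf hf.abs (fun u => le_abs_self _)

/-- Cauchy-Schwarz for the mean -/
theorem InvMean.m_mul_sq_le (M : InvMean G) {f g : G → ℝ} (hf : Bdd f) (hg : Bdd g) :
    (M.m fun u => f u * g u) ^ 2 ≤ (M.m fun u => f u ^ 2) * (M.m fun u => g u ^ 2) := by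
  have hff : Bdd (fun u => f u ^ 2) := hf.pow 2
  have hgg : Bdd (fun u => g u ^ 2) := hg.pow 2
  have hfg : Bdd (fun u => f u * g u) := hf.mul hg
  have key : ∀ t : ℝ, 0 ≤ (M.m fun u => g u ^ 2) * (t * t) +
      (-2 * M.m fun u => f u * g u) * t + M.m fun u => f u ^ 2 := by
    intro t
    have h1 : 0 ≤ M.m (fun u => (f u - t * g u) ^ 2) :=
      M.m_nonneg ((hf.sub ((Bdd.const t).mul hg)).pow 2) fun u => sq_nonneg _
    have h2 : (fun u => (f u - t * g u) ^ 2) =
        fun u => (f u ^ 2 + (-2 * t) * (f u * g u)) + (t * t) * (g u ^ 2) := by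
      funext u
      ring
    have h3 : Bdd (fun u => (-2 * t) * (f u * g u)) := (Bdd.const (-2 * t)).mul hfg
    have h4 : Bdd (fun u => (t * t) * (g u ^ 2)) := (Bdd.const (t * t)).mul hgg
    have h5 : Bdd (fun u => f u ^ 2 + (-2 * t) * (f u * g u)) := hff.add h3
    rw [h2, M.add' _ _ h5 h4, M.add' _ _ hff h3, M.smul' _ _ hfg, M.smul' _ _ hgg] at h1
    linarith
  have h := discrim_le_zero key
  unfold discrim at h
  nlinarith

theorem InvMean.m_sq_le (M : InvMean G) {f : G → ℝ} (hf : Bdd f) :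
    (M.m f) ^ 2 ≤ M.m (fun u => f u ^ 2) := by
  have h := M.m_mul_sq_le hf (Bdd.const 1)
  simp only [mul_one, one_pow] at h
  rwa [M.one', mul_one] at h

/-- if `f ≥ 0` is bounded and `M f² = 0` then `M f = 0` -/
theorem InvMean.m_eq_zero_of_sq (M : InvMean G) {f : G → ℝ} (hf : Bdd f)
    (h : M.m (fun u => f u ^ 2) = 0) : M.m f = 0 := by
  have h1 := M.m_sq_le hf
  rw [h] at h1
  exact pow_eq_zero_iff two_ne_zero |>.1 (le_antisymm h1 (sq_nonneg _))

open Classical in
/-- point mass -/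
private noncomputable def meanPt (a : G) : G → ℝ := fun u => if u = a then 1 else 0

private theorem meanPt_bdd (a : G) : Bdd (meanPt a) := by
  refine ⟨1, fun u => ?_⟩
  unfold meanPt
  split_ifs <;> simp

private theorem meanPt_eq (M : InvMean G) (a b : G) : M.m (meanPt a) = M.m (meanPt b) := by
  rw [← M.inv' (a * b⁻¹) (meanPt a) (meanPt_bdd a)]
  congr 1
  funext u
  unfold meanPt
  have h : a * b⁻¹ * u = a ↔ u = b := by
    constructor
    · intro h
      have h1 : b⁻¹ * u = 1 := by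
        have h2 : a * (b⁻¹ * u) = a * 1 := by rw [← mul_assoc, h, mul_one]
        exact mul_left_cancel h2
      rw [← one_mul u, ← mul_inv_cancel b, mul_assoc, h1, mul_one]
    · rintro rfl
      rw [mul_assoc, inv_mul_cancel, mul_one]
  by_cases h1 : u = b
  · rw [if_pos (h.2 h1), if_pos h1]
  · rw [if_neg (fun h2 => h1 (h.1 h2)), if_neg h1]

private theorem meanPt_sum [DecidableEq G] (s : Finset G) (u : G) :
    ∑ b ∈ s, meanPt b u = if u ∈ s then 1 else 0 := by
  unfold meanPt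
  by_cases hu : u ∈ s
  · rw [if_pos hu, Finset.sum_eq_single u]
    · rw [if_pos rfl]
    · intro b _ hb
      rw [if_neg (Ne.symm hb)]
    · intro h
      exact absurd hu h
  · rw [if_neg hu]
    refine Finset.sum_eq_zero fun b hb => ?_
    rw [if_neg]
    rintro rfl
    exact hu hb

private theorem meanPt_zero [Infinite G] (M : InvMean G) (a : G) : M.m (meanPt a) = 0 := by
  classical
  have h0 : 0 ≤ M.m (meanPt a) := M.m_nonneg (meanPt_bdd a) fun u => by
    unfold meanPt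
    split_ifs
    · exact zero_le_one
    · exact le_rfl
  by_contra hne
  have hpos : 0 < M.m (meanPt a) := lt_of_le_of_ne h0 (Ne.symm hne)
  obtain ⟨N, hN⟩ := exists_nat_gt (1 / M.m (meanPt a))
  rw [div_lt_iff₀ hpos] at hN
  obtain ⟨s, hs⟩ := Infinite.exists_subset_card_eq G N
  have h1 := M.m_sum s (fun b => meanPt b) (fun b _ => meanPt_bdd b)
  have h2 : ∑ b ∈ s, M.m (meanPt b) = N * M.m (meanPt a) := by
    rw [Finset.sum_congr rfl fun b _ => meanPt_eq M b a, Finset.sum_const, hs, nsmul_eq_mul]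
  have h3 : M.m (fun u => ∑ b ∈ s, meanPt b u) ≤ 1 := by
    refine M.m_le_of_le (Bdd.sum s fun b _ => meanPt_bdd b) fun u => ?_
    rw [meanPt_sum]
    split_ifs
    · exact le_rfl
    · exact zero_le_one
  rw [h1, h2] at h3
  linarith

/-- a positive mean is positive somewhere outside a given finite set -/
theorem InvMean.exists_pos [Infinite G] (M : InvMean G) {f : G → ℝ} (hf : Bdd f)
    (h : 0 < M.m f) (s : Finset G) : ∃ u, u ∉ s ∧ 0 < f u := by
  classical
  by_contra hcon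
  push Not at hcon
  obtain ⟨C, hC⟩ := hf
  have hbd : Bdd (fun u => C * ∑ b ∈ s, meanPt b u) :=
    (Bdd.const C).mul (Bdd.sum s fun b _ => meanPt_bdd b)
  have h1 : M.m f ≤ M.m (fun u => C * ∑ b ∈ s, meanPt b u) := by
    refine M.mono' _ _ ⟨C, hC⟩ hbd fun u => ?_
    rw [meanPt_sum]
    by_cases hu : u ∈ s
    · rw [if_pos hu, mul_one]
      exact (le_abs_self _).trans (hC u)
    · rw [if_neg hu, mul_zero]
      exact hcon u hu
  rw [M.smul' C _ (Bdd.sum s fun b _ => meanPt_bdd b),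
    M.m_sum s (fun b => meanPt b) (fun b _ => meanPt_bdd b),
    Finset.sum_eq_zero fun b _ => meanPt_zero M b, mul_zero] at h1
  linarith

/-- squeezing -/
theorem InvMean.m_eq_zero_of_le (M : InvMean G) {f g : G → ℝ} (hf : Bdd f) (hg : Bdd g)
    (h0 : ∀ u, 0 ≤ f u) (hfg : ∀ u, f u ≤ g u) (h : M.m g = 0) : M.m f = 0 := by
  refine le_antisymm ?_ (M.m_nonneg hf h0)
  rw [← h]
  exact M.mono' f g hf hg hfg

/-- pull back along a surjective endomorphism -/
noncomputable def InvMean.pull (M : InvMean G) (σ : G →* G) (hσ : Function.Surjective σ) :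
    InvMean G where
  m := fun f => M.m fun u => f (σ u)
  add' := fun f g hf hg => M.add' _ _ (hf.comp σ) (hg.comp σ)
  smul' := fun c f hf => M.smul' c _ (hf.comp σ)
  mono' := fun f g hf hg h => M.mono' _ _ (hf.comp σ) (hg.comp σ) fun u => h (σ u)
  one' := M.one'
  inv' := fun w f hf => by
    obtain ⟨v, rfl⟩ := hσ w
    rw [← M.inv' v (fun u => f (σ u)) (hf.comp σ)]
    congr 1
    funext u
    rw [map_mul]

theorem InvMean.pull_m (M : InvMean G) (σ : G →* G) (hσ : Function.Surjective σ) (f : G → ℝ) :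
    (M.pull σ hσ).m f = M.m fun u => f (σ u) := rfl

/-- `u ↦ u²` as an endomorphism -/
def sqHom (G : Type) [CommGroup G] : G →* G where
  toFun := fun u => u * u
  map_one' := by simp
  map_mul' := fun a b => mul_mul_mul_comm a b a b

/-- `u ↦ u⁻¹` as an endomorphism -/
def invHom (G : Type) [CommGroup G] : G →* G where
  toFun := fun u => u⁻¹
  map_one' := by simp
  map_mul' := fun a b => mul_inv a b

theorem sqHom_surj (h : Divis G) : Function.Surjective (sqHom G) := by
  intro g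
  obtain ⟨a, ha⟩ := h 2 two_pos g
  refine ⟨a, ?_⟩
  show a * a = g
  rw [← ha, sq]

theorem invHom_surj : Function.Surjective (invHom G) := fun g => ⟨g⁻¹, inv_inv g⟩

end Dadc30
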