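import Pool.Agent.Lib.MP_dadc30_co.MET
import Pool.Agent.Lib.MP_dadc30_co.Folner
import Pool.Agent.Lib.MP_dadc30_co.FolnerMean
import Pool.Agent.Lib.MP_dadc30_co.Mean
import Pool.Agent.Lib.MP_dadc30_co.BMapi

/-!
# MP_dadc30_co, module L2Avg: norm approximation of the invariant part by finite averages.

Let `B'` be from `met_exists` (`C` a bound for `B`).  Set `φ = B - B'` (so `M_u ∫ ψ(u•x) φ = 0`
for all bounded `ψ` and all means).  Claim: for every `ε` there are finitely supported weights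
`c ≥ 0`, `∑ c = 1`, with `∫ |∑ c_g φ(g•x)|² < ε`.  Proof: let `d` be the infimum of these integrals
and suppose `d > 0`.  Choose `c` with the value `v < 2 d`, `ψ = ∑ c_g φ(g•x)`.  For every `u` the
function `(ψ + ψ(u•x)) / 2` is again such an average, so
`d ≤ v / 2 + (1/2) ∫ ψ(x) ψ(u•x)`.  Taking the mean over `u` gives `d ≤ v / 2`, a contradiction. -/

open MeasureTheory ProbabilityTheory Filter Topology
open scoped ENNReal ComplexConjugate

namespace Dadc30

variable {G : Type} [CommGroup G] {Ω : Type} [MeasurableSpace Ω] [MulAction G Ω]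

theorem L2Avg_int_smul {μ : Measure Ω} (hμ : PMP G μ) {f : Ω → ℝ} (hf : Measurable f) (u : G) :
    ∫ x, f (u • x) ∂μ = ∫ x, f x ∂μ := by
  have h := integral_map (μ := μ) (φ := fun x : Ω => u • x) (hμ u).measurable.aemeasurable
    (f := f) hf.aestronglyMeasurable
  rw [(hμ u).map_eq] at h
  exact h.symm

theorem L2Avg_integrable {μ : Measure Ω} [IsProbabilityMeasure μ] {f : Ω → ℝ} (hf : BMR f) :
    Integrable f μ := by
  obtain ⟨h1, C, h2⟩ := hf
  exact Integrable.of_bound h1.aestronglyMeasurable C (Eventually.of_forall h2)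

theorem L2Avg_smul {μ : Measure Ω} (hμ : PMP G μ) {f : Ω → ℝ} (hf : BMR f) (u : G) :
    BMR (fun x => f (u • x)) :=
  ⟨hf.1.comp (hμ u).measurable, hf.2.comp _⟩

theorem L2Avg_mul {f g : Ω → ℝ} (hf : BMR f) (hg : BMR g) : BMR (fun x => f x * g x) :=
  ⟨hf.1.mul hg.1, hf.2.mul hg.2⟩

theorem L2Avg_sub {f g : Ω → ℝ} (hf : BMR f) (hg : BMR g) : BMR (fun x => f x - g x) :=
  ⟨hf.1.sub hg.1, hf.2.sub hg.2⟩

theorem L2Avg_add {f g : Ω → ℝ} (hf : BMR f) (hg : BMR g) : BMR (fun x => f x + g x) :=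
  ⟨hf.1.add hg.1, hf.2.add hg.2⟩

theorem L2Avg_const (a : ℝ) : BMR (fun _ : Ω => a) := ⟨measurable_const, Bdd.const a⟩

/-- the integrals of a family of bounded functions of the form `A (u • x) * D x` are bounded -/
theorem L2Avg_bdd {μ : Measure Ω} [IsProbabilityMeasure μ] {A D : Ω → ℝ} (hA : Bdd A)
    (hD : Bdd D) : Bdd (fun u : G => ∫ x, A (u • x) * D x ∂μ) := by
  obtain ⟨a, ha⟩ := hA
  obtain ⟨d, hd⟩ := hD
  refine ⟨a * d, fun u => ?_⟩
  have h1 : ‖∫ x, A (u • x) * D x ∂μ‖ ≤ (a * d) * μ.real Set.univ := by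
    apply norm_integral_le_of_norm_le_const
    refine Eventually.of_forall fun x => ?_
    rw [Real.norm_eq_abs, abs_mul]
    exact mul_le_mul (ha _) (hd x) (abs_nonneg _) ((abs_nonneg _).trans (ha x))
  rw [probReal_univ, mul_one] at h1
  exact h1

/-- real form of the mean ergodic theorem -/
theorem L2Avg_real [Countable G] {μ : Measure Ω} [IsProbabilityMeasure μ] (hμ : PMP G μ)
    {B : Ω → ℝ} (hB : Measurable B) {C : ℝ} (hC : ∀ x, |B x| ≤ C) :
    ∃ B' : Ω → ℝ, Measurable B' ∧ (∀ x, |B' x| ≤ C) ∧ (∀ (g : G) x, B' (g • x) = B' x) ∧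
      ∀ (M : InvMean G) (A : Ω → ℝ), BMR A →
        M.m (fun u => ∫ x, A (u • x) * B x ∂μ) = ∫ x, A x * B' x ∂μ := by
  obtain ⟨B', h1, h2, h3, h4⟩ := met_exists (G := G) hμ (B := fun x => (B x : ℂ))
    (Complex.measurable_ofReal.comp hB) (C := C) (fun x => by
      rw [Complex.norm_real, Real.norm_eq_abs]; exact hC x)
  refine ⟨fun x => (B' x).re, Complex.measurable_re.comp h1,
    fun x => (Complex.abs_re_le_norm _).trans (h2 x), fun g x => congrArg Complex.re (h3 g x),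
    fun M A hA => ?_⟩
  have hAc : BM (fun x => (A x : ℂ)) := by
    obtain ⟨ha, a, ha'⟩ := hA
    exact ⟨Complex.measurable_ofReal.comp ha, a, fun x => by
      rw [Complex.norm_real, Real.norm_eq_abs]; exact ha' x⟩
  have h5 := congrArg Complex.re (h4 M _ hAc)
  have h6 : (M.c (fun u => ∫ x, ((A (u • x) : ℝ) : ℂ) * (B x : ℂ) ∂μ)).re =
      M.m (fun u => ∫ x, A (u • x) * B x ∂μ) := by
    change M.m (fun u => (∫ x, ((A (u • x) : ℝ) : ℂ) * (B x : ℂ) ∂μ).re) = _
    congr 1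
    funext u
    have h7 : ∫ x, ((A (u • x) : ℝ) : ℂ) * (B x : ℂ) ∂μ =
        ((∫ x, A (u • x) * B x ∂μ : ℝ) : ℂ) := by
      rw [← integral_complex_ofReal]
      apply integral_congr_ae
      refine Eventually.of_forall fun x => ?_
      change ((A (u • x) : ℝ) : ℂ) * (B x : ℂ) = ((A (u • x) * B x : ℝ) : ℂ)
      push_cast
      rfl
    rw [h7, Complex.ofReal_re]
  have h8 : (∫ x, ((A x : ℝ) : ℂ) * B' x ∂μ).re = ∫ x, A x * (B' x).re ∂μ := by
    have h9 : Integrable (fun x => ((A x : ℝ) : ℂ) * B' x) μ :=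
      MET_integrable (MET_BM_mul hAc ⟨h1, C, h2⟩)
    have h10 := integral_re h9
    change ∫ x, (((A x : ℝ) : ℂ) * B' x).re ∂μ = (∫ x, ((A x : ℝ) : ℂ) * B' x ∂μ).re at h10
    rw [← h10]
    apply integral_congr_ae
    refine Eventually.of_forall fun x => ?_
    change (((A x : ℝ) : ℂ) * B' x).re = A x * (B' x).re
    rw [Complex.re_ofReal_mul]
  rw [h6, h8] at h5
  exact h5

/-- the mean of the correlations with the part without invariant component vanishes -/
theorem L2Avg_zero {μ : Measure Ω} [IsProbabilityMeasure μ] (hμ : PMP G μ)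
    {B B' : Ω → ℝ} (hB : BMR B) (hB' : BMR B') (hinv : ∀ (g : G) x, B' (g • x) = B' x)
    (M : InvMean G) (hM : ∀ A : Ω → ℝ, BMR A →
      M.m (fun u => ∫ x, A (u • x) * B x ∂μ) = ∫ x, A x * B' x ∂μ)
    {A : Ω → ℝ} (hA : BMR A) (g : G) :
    M.m (fun u => ∫ x, A (u • x) * (B (g • x) - B' (g • x)) ∂μ) = 0 := by
  have h1 : M.m (fun u => ∫ x, A (u • x) * (B x - B' x) ∂μ) = 0 := by
    have h2 : (fun u : G => ∫ x, A (u • x) * (B x - B' x) ∂μ) = fun u =>
        (∫ x, A (u • x) * B x ∂μ) - ∫ x, A (u • x) * B' x ∂μ := by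
      funext u
      rw [← integral_sub (L2Avg_integrable (L2Avg_mul (L2Avg_smul hμ hA u) hB))
        (L2Avg_integrable (L2Avg_mul (L2Avg_smul hμ hA u) hB'))]
      congr 1
      funext x
      ring
    have h3 : (fun u : G => ∫ x, A (u • x) * B' x ∂μ) = fun _ => ∫ x, A x * B' x ∂μ := by
      funext u
      have h4 := L2Avg_int_smul hμ (f := fun x => A x * B' x) (hA.1.mul hB'.1) u
      simp only [hinv] at h4
      exact h4
    rw [h2, M.m_sub (L2Avg_bdd hA.2 hB.2) (L2Avg_bdd hA.2 hB'.2), hM A hA, h3, M.m_const, sub_self]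
  have h5 := M.inv' g⁻¹ (fun u => ∫ x, A (u • x) * (B x - B' x) ∂μ)
    (L2Avg_bdd hA.2 (hB.2.sub hB'.2))
  rw [h1] at h5
  rw [← h5]
  congr 1
  funext u
  have h6 := L2Avg_int_smul hμ (f := fun x => A ((g⁻¹ * u) • x) * (B x - B' x))
    ((hA.1.comp (hμ _).measurable).mul (hB.1.sub hB'.1)) g
  rw [← h6]
  congr 1
  funext x
  rw [smul_smul, mul_comm g⁻¹ u, mul_assoc, inv_mul_cancel, mul_one]

/-- the averages -/
noncomputable def L2Avg_psi (φ : Ω → ℝ) (c : G →₀ ℝ) (x : Ω) : ℝ := avg c (fun g => φ (g • x))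

omit [MeasurableSpace Ω] in
theorem L2Avg_psi_eq (φ : Ω → ℝ) (c : G →₀ ℝ) (x : Ω) :
    L2Avg_psi φ c x = ∑ g ∈ c.support, c g * φ (g • x) := rfl

theorem L2Avg_psi_BMR {μ : Measure Ω} (hμ : PMP G μ) {φ : Ω → ℝ} (hφ : BMR φ) (c : G →₀ ℝ) :
    BMR (L2Avg_psi φ c) := by
  have h : L2Avg_psi φ c = fun x => ∑ g ∈ c.support, c g * φ (g • x) := by
    funext x
    exact L2Avg_psi_eq φ c x
  rw [h]
  exact ⟨Finset.measurable_fun_sum _ fun g _ => (L2Avg_smul hμ hφ g).1.const_mul _,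
    Bdd.sum _ fun g _ => (Bdd.const (c g)).mul (hφ.2.comp _)⟩

/-- the weights are averaged with their translates -/
noncomputable def L2Avg_half (c : G →₀ ℝ) (u : G) : G →₀ ℝ :=
  (1 / 2 : ℝ) • c + (1 / 2 : ℝ) • c.mapDomain (Equiv.mulRight u)

theorem L2Avg_avg_half (c : G →₀ ℝ) (u : G) (φ : G → ℝ) :
    avg (L2Avg_half c u) φ = (1 / 2) * avg c φ + (1 / 2) * avg c (fun g => φ (g * u)) := by
  rw [folner_avg_eq, L2Avg_half, map_add, map_smul, map_smul, Finsupp.linearCombination_mapDomain,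
    folner_avg_eq, folner_avg_eq, smul_eq_mul, smul_eq_mul]
  rfl

theorem L2Avg_half_nonneg {c : G →₀ ℝ} (hc : ∀ g, 0 ≤ c g) (u g : G) : 0 ≤ L2Avg_half c u g := by
  rw [L2Avg_half, Finsupp.add_apply, Finsupp.smul_apply, Finsupp.smul_apply,
    Finsupp.mapDomain_equiv_apply, smul_eq_mul, smul_eq_mul]
  have h1 := hc g
  have h2 := hc ((Equiv.mulRight u).symm g)
  linarith

theorem L2Avg_half_one {c : G →₀ ℝ} (hc : (c.sum fun _ r => r) = 1) (u : G) :
    ((L2Avg_half c u).sum fun _ r => r) = 1 := by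
  rw [← folner_one, L2Avg_avg_half, folner_one, hc]
  norm_num

omit [MeasurableSpace Ω] in
theorem L2Avg_psi_half (φ : Ω → ℝ) (c : G →₀ ℝ) (u : G) (x : Ω) :
    L2Avg_psi φ (L2Avg_half c u) x =
      (1 / 2) * L2Avg_psi φ c x + (1 / 2) * L2Avg_psi φ c (u • x) := by
  unfold L2Avg_psi
  rw [L2Avg_avg_half]
  simp only [mul_smul]

theorem l2_avg [Countable G] {μ : Measure Ω} [IsProbabilityMeasure μ] (hμ : PMP G μ)
    {B : Ω → ℝ} (hB : Measurable B) {C : ℝ} (hC : ∀ x, |B x| ≤ C) :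
    ∃ B' : Ω → ℝ, Measurable B' ∧ (∀ x, |B' x| ≤ C) ∧ (∀ (g : G) x, B' (g • x) = B' x) ∧
      (∀ A : Set Ω, InvSet G A → ∫ x in A, B' x ∂μ = ∫ x in A, B x ∂μ) ∧
      ∀ ε > (0 : ℝ), ∃ c : G →₀ ℝ, (∀ g, 0 ≤ c g) ∧ (c.sum fun _ r => r) = 1 ∧
        ∫ x, (avg c (fun g => B (g • x)) - B' x) ^ 2 ∂μ < ε := by
  classical
  obtain ⟨M⟩ := exists_mean G
  obtain ⟨B', h1, h2, h3, h4⟩ := L2Avg_real (G := G) hμ hB hC
  have hBB : BMR B := ⟨hB, C, hC⟩
  have hBB' : BMR B' := ⟨h1, C, h2⟩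
  refine ⟨B', h1, h2, h3, ?_, ?_⟩
  · intro A hA
    have hI : BMR (A.indicator (fun _ => (1 : ℝ))) := by
      refine ⟨measurable_const.indicator hA.1, 1, fun x => ?_⟩
      by_cases hx : x ∈ A
      · rw [Set.indicator_of_mem hx, abs_one]
      · rw [Set.indicator_of_notMem hx, abs_zero]
        exact zero_le_one
    have h5 := h4 M _ hI
    have h6 : ∀ (u : G) (x : Ω), A.indicator (fun _ => (1 : ℝ)) (u • x) =
        A.indicator (fun _ => (1 : ℝ)) x := by
      intro u x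
      have h7 : (u • x ∈ A) = (x ∈ A) := by
        have h8 := hA.2 u
        exact propext (Set.ext_iff.1 h8 x)
      simp only [Set.indicator_apply, h7]
    simp only [h6] at h5
    rw [M.m_const] at h5
    have h9 : ∀ D : Ω → ℝ, ∫ x, A.indicator (fun _ => (1 : ℝ)) x * D x ∂μ = ∫ x in A, D x ∂μ := by
      intro D
      rw [← integral_indicator hA.1]
      congr 1
      funext x
      by_cases hx : x ∈ A
      · rw [Set.indicator_of_mem hx, Set.indicator_of_mem hx, one_mul]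
      · rw [Set.indicator_of_notMem hx, Set.indicator_of_notMem hx, zero_mul]
    rw [h9, h9] at h5
    exact h5.symm
  · set φ : Ω → ℝ := fun x => B x - B' x with hφ
    have hφB : BMR φ := L2Avg_sub hBB hBB'
    have hpsi : ∀ c : G →₀ ℝ, (c.sum fun _ r => r) = 1 → ∀ x,
        avg c (fun g => B (g • x)) - B' x = L2Avg_psi φ c x := by
      intro c hc x
      have h5 : avg c (fun g => B (g • x)) = ∑ g ∈ c.support, c g * B (g • x) := rfl
      have h6 : ∑ g ∈ c.support, c g = 1 := hc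
      have h7 : B' x = ∑ g ∈ c.support, c g * B' x := by
        rw [← Finset.sum_mul, h6, one_mul]
      rw [L2Avg_psi_eq, h5]
      nth_rewrite 1 [h7]
      rw [← Finset.sum_sub_distrib]
      refine Finset.sum_congr rfl fun g _ => ?_
      simp only [hφ, h3]
      ring
    set S : Set ℝ := {v | ∃ c : G →₀ ℝ, (∀ g, 0 ≤ c g) ∧ (c.sum fun _ r => r) = 1 ∧
      v = ∫ x, (L2Avg_psi φ c x) ^ 2 ∂μ} with hS
    have hne : S.Nonempty := by
      refine ⟨_, Finsupp.single 1 1, fun g => ?_, ?_, rfl⟩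
      · rw [Finsupp.single_apply]
        split_ifs
        · exact zero_le_one
        · exact le_rfl
      · rw [Finsupp.sum_single_index rfl]
    have hbd : BddBelow S := by
      refine ⟨0, ?_⟩
      rintro v ⟨c, _, _, rfl⟩
      exact integral_nonneg fun x => sq_nonneg _
    have hd : sInf S ≤ 0 := by
      by_contra hd
      push Not at hd
      obtain ⟨v, ⟨c, hc0, hc1, hv⟩, hv2⟩ := exists_lt_of_csInf_lt hne
        (show sInf S < 2 * sInf S by linarith)
      have hψ : BMR (L2Avg_psi φ c) := L2Avg_psi_BMR hμ hφB c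
      have hI : ∀ u : G, 2 * sInf S - v ≤
          ∫ x, L2Avg_psi φ c (u • x) * L2Avg_psi φ c x ∂μ := by
        intro u
        have h5 : sInf S ≤ ∫ x, (L2Avg_psi φ (L2Avg_half c u) x) ^ 2 ∂μ :=
          csInf_le hbd ⟨_, L2Avg_half_nonneg hc0 u, L2Avg_half_one hc1 u, rfl⟩
        have hψu := L2Avg_smul hμ hψ u
        have h6 : ∫ x, (L2Avg_psi φ (L2Avg_half c u) x) ^ 2 ∂μ =
            (1 / 4) * (∫ x, (L2Avg_psi φ c x) ^ 2 ∂μ) +
            ((1 / 4) * (∫ x, (L2Avg_psi φ c (u • x)) ^ 2 ∂μ) +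
            (1 / 2) * ∫ x, L2Avg_psi φ c (u • x) * L2Avg_psi φ c x ∂μ) := by
          have i1 : Integrable (fun x => (1 / 4) * (L2Avg_psi φ c x) ^ 2) μ := by
            have := L2Avg_integrable (μ := μ) (L2Avg_mul hψ hψ)
            simpa only [pow_two] using this.const_mul (1 / 4)
          have i2 : Integrable (fun x => (1 / 4) * (L2Avg_psi φ c (u • x)) ^ 2) μ := by
            have := L2Avg_integrable (μ := μ) (L2Avg_mul hψu hψu)
            simpa only [pow_two] using this.const_mul (1 / 4)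
          have i3 : Integrable (fun x => (1 / 2) *
              (L2Avg_psi φ c (u • x) * L2Avg_psi φ c x)) μ :=
            (L2Avg_integrable (μ := μ) (L2Avg_mul hψu hψ)).const_mul (1 / 2)
          have i4 : Integrable (fun x => (1 / 4) * (L2Avg_psi φ c (u • x)) ^ 2 + (1 / 2) *
              (L2Avg_psi φ c (u • x) * L2Avg_psi φ c x)) μ := i2.add i3
          rw [← integral_const_mul, ← integral_const_mul, ← integral_const_mul,
            ← integral_add i2 i3, ← integral_add i1 i4]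
          congr 1
          funext x
          rw [L2Avg_psi_half]
          ring
        have h7 : ∫ x, (L2Avg_psi φ c (u • x)) ^ 2 ∂μ = ∫ x, (L2Avg_psi φ c x) ^ 2 ∂μ :=
          L2Avg_int_smul hμ (f := fun x => (L2Avg_psi φ c x) ^ 2) (hψ.1.pow_const 2) u
        rw [h6, h7, ← hv] at h5
        linarith
      have hB0 : Bdd (fun u : G => ∫ x, L2Avg_psi φ c (u • x) * L2Avg_psi φ c x ∂μ) :=
        L2Avg_bdd hψ.2 hψ.2
      have h8 := M.le_m_of_le hB0 hI
      have h9 : M.m (fun u : G => ∫ x, L2Avg_psi φ c (u • x) * L2Avg_psi φ c x ∂μ) = 0 := by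
        have h10 : (fun u : G => ∫ x, L2Avg_psi φ c (u • x) * L2Avg_psi φ c x ∂μ) = fun u =>
            ∑ g ∈ c.support, c g * ∫ x, L2Avg_psi φ c (u • x) * (B (g • x) - B' (g • x)) ∂μ := by
          funext u
          have h11 : (fun x => L2Avg_psi φ c (u • x) * L2Avg_psi φ c x) = fun x =>
              ∑ g ∈ c.support, c g * (L2Avg_psi φ c (u • x) * (B (g • x) - B' (g • x))) := by
            funext x
            rw [L2Avg_psi_eq φ c x, Finset.mul_sum]
            refine Finset.sum_congr rfl fun g _ => ?_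
            simp only [hφ]
            ring
          rw [h11, integral_finsetSum]
          · refine Finset.sum_congr rfl fun g _ => ?_
            rw [integral_const_mul]
          · intro g _
            exact (L2Avg_integrable (L2Avg_mul (L2Avg_smul hμ hψ u)
              (L2Avg_smul hμ hφB g))).const_mul _
        rw [h10, M.m_sum]
        · refine Finset.sum_eq_zero fun g _ => ?_
          rw [M.smul' _ _ (L2Avg_bdd hψ.2 (hφB.2.comp _)),
            L2Avg_zero hμ hBB hBB' h3 M (h4 M) hψ g, mul_zero]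
        · intro g _
          exact (Bdd.const _).mul (L2Avg_bdd hψ.2 (hφB.2.comp _))
      rw [h9] at h8
      linarith
    intro ε hε
    obtain ⟨v, ⟨c, hc0, hc1, hv⟩, hv2⟩ := exists_lt_of_csInf_lt hne (lt_of_le_of_lt hd hε)
    refine ⟨c, hc0, hc1, ?_⟩
    simp only [hpsi c hc1]
    rw [← hv]
    exact hv2

end Dadc30
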