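import Pool.Agent.Lib.MP_dadc30_co.ErgDecA
import Pool.Agent.Lib.MP_dadc30_co.L2Avg

/-!
# MP_dadc30_co, module ErgDec: the ergodic decomposition.

Take `κ` from `erg_dec_ker`.  Let `𝔄` be a countable algebra of measurable sets generating the
σ-algebra (`MeasurableSpace.countablyGenerated`; `generateSetAlgebra`-like).  For `B ∈ 𝔄` and
`n : ℕ` let `c_{B,n}` be weights from `l2_avg` (for `1_B`) with
`∫ |avg c_{B,n} 1_B - B'|² dμ < 1/(n+1)`.  Disintegrate: for a.e. `x` the infimum over `n` of
`∫ |avg c_{B,n} 1_B - B'|² dκ_x` is `0`, and `B'(y) = B'(x)` for κ_x-a.e. `y`.  Fix such an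
`x` with `PMP G (κ x)`, for all `B ∈ 𝔄`.  If `A` is an invariant set and `η > 0` choose `B ∈ 𝔄`
with `κ_x(A Δ B) < η`; then `∫ (1_A - B'(x))² dκ_x ≤ 4 η`, and the left side is at least
`κ_x(A)(1-κ_x(A))`. -/

open MeasureTheory ProbabilityTheory Filter Topology
open scoped ENNReal ComplexConjugate

set_option linter.unusedSectionVars false

namespace Dadc30

variable {G : Type} [CommGroup G] {Ω : Type} [MeasurableSpace Ω] [MulAction G Ω]

/-- the indicator function, real valued -/
noncomputable def ergDec_one (A : Set Ω) : Ω → ℝ := A.indicator fun _ => 1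

theorem ergDec_one_meas {A : Set Ω} (hA : MeasurableSet A) : Measurable (ergDec_one A) :=
  measurable_const.indicator hA

theorem ergDec_one_nonneg (A : Set Ω) (x : Ω) : 0 ≤ ergDec_one A x :=
  Set.indicator_nonneg (fun _ _ => zero_le_one) x

theorem ergDec_one_le (A : Set Ω) (x : Ω) : ergDec_one A x ≤ 1 :=
  Set.indicator_le_self' (fun _ _ => zero_le_one) x

theorem ergDec_one_abs (A : Set Ω) (x : Ω) : |ergDec_one A x| ≤ 1 := by
  rw [abs_of_nonneg (ergDec_one_nonneg A x)]; exact ergDec_one_le A x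

theorem ergDec_int_one (ν : Measure Ω) {A : Set Ω} (hA : MeasurableSet A) :
    ∫ x, ergDec_one A x ∂ν = ν.real A := integral_indicator_one hA

theorem ergDec_avg_meas {B : Ω → ℝ} (hG : ∀ g : G, Measurable fun x : Ω => g • x)
    (hB : Measurable B) (c : G →₀ ℝ) : Measurable fun y : Ω => avg c (fun g => B (g • y)) := by
  unfold avg Finsupp.sum
  exact Finset.measurable_fun_sum _ fun g _ => (hB.comp (hG g)).const_mul _

theorem ergDec_abs_avg (c : G →₀ ℝ) (h0 : ∀ g, 0 ≤ c g) (φ : G → ℝ) :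
    |avg c φ| ≤ avg c fun g => |φ g| := by
  unfold avg Finsupp.sum
  refine (Finset.abs_sum_le_sum_abs _ _).trans (le_of_eq ?_)
  exact Finset.sum_congr rfl fun g _ => by rw [abs_mul, abs_of_nonneg (h0 g)]

theorem ergDec_avg_sub (c : G →₀ ℝ) (φ ψ : G → ℝ) :
    avg c (fun g => φ g - ψ g) = avg c φ - avg c ψ := by
  unfold avg Finsupp.sum
  rw [← Finset.sum_sub_distrib]
  exact Finset.sum_congr rfl fun g _ => mul_sub _ _ _

theorem ergDec_avg_const (c : G →₀ ℝ) (h1 : (c.sum fun _ r => r) = 1) (a : ℝ) :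
    avg c (fun _ => a) = a := by
  unfold avg
  rw [Finsupp.sum, ← Finset.sum_mul]
  have : ∑ g ∈ c.support, c g = 1 := h1
  rw [this, one_mul]

/-- the key estimate on one component -/
theorem ergDec_core {ν : Measure Ω} [IsProbabilityMeasure ν] (hP : PMP G ν) {A B : Set Ω}
    (hA : InvSet G A) (hB : MeasurableSet B) {η : ℝ} (hη : 0 < η)
    (hAB : ν (symmDiff A B) < ENNReal.ofReal η) {B' : Ω → ℝ} (hB'm : Measurable B')
    (hB'1 : ∀ x, |B' x| ≤ 1) {β : ℝ} (hβ : ∀ᵐ y ∂ν, B' y = β) (c : G →₀ ℝ)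
    (hc0 : ∀ g, 0 ≤ c g) (hc1 : (c.sum fun _ r => r) = 1)
    (hF : ∫⁻ y, ENNReal.ofReal ((avg c (fun g => ergDec_one B (g • y)) - B' y) ^ 2) ∂ν <
      ENNReal.ofReal η) :
    ν.real A * (1 - ν.real A) ≤ 4 * η := by
  have hG : ∀ g : G, Measurable fun x : Ω => g • x := fun g => (hP g).measurable
  set D : Set Ω := symmDiff A B with hD
  have hDm : MeasurableSet D := hA.1.symmDiff hB
  -- the function `F`
  set F : Ω → ℝ := fun y => (avg c (fun g => ergDec_one B (g • y)) - B' y) ^ 2 with hFdef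
  have hFm : Measurable F := ((ergDec_avg_meas hG (ergDec_one_meas hB) c).sub hB'm).pow_const 2
  have havg1 : ∀ φ : G → ℝ, (∀ g, |φ g| ≤ 1) → |avg c φ| ≤ 1 := fun φ h => by
    refine (ergDec_abs_avg c hc0 φ).trans ?_
    rw [← ergDec_avg_const c hc1 1]
    unfold avg Finsupp.sum
    exact Finset.sum_le_sum fun g _ => mul_le_mul_of_nonneg_left (h g) (hc0 g)
  have hFb : ∀ y, |F y| ≤ 4 := by
    intro y
    have h1 := havg1 (fun g => ergDec_one B (g • y)) (fun g => ergDec_one_abs B _)
    have h2 := hB'1 y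
    rw [hFdef, abs_of_nonneg (sq_nonneg _)]
    have h3 : |avg c (fun g => ergDec_one B (g • y)) - B' y| ≤ 2 :=
      (abs_sub _ _).trans (by linarith)
    calc (avg c (fun g => ergDec_one B (g • y)) - B' y) ^ 2
        = |avg c (fun g => ergDec_one B (g • y)) - B' y| ^ 2 := (sq_abs _).symm
      _ ≤ 2 ^ 2 := pow_le_pow_left₀ (abs_nonneg _) h3 2
      _ = 4 := by norm_num
  have hFi : Integrable F ν := Integrable.of_bound hFm.aestronglyMeasurable 4
    (Eventually.of_forall fun y => by rw [Real.norm_eq_abs]; exact hFb y)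
  have hFη : ∫ y, F y ∂ν ≤ η := by
    rw [integral_eq_lintegral_of_nonneg_ae (Eventually.of_forall fun y => sq_nonneg _)
      hFm.aestronglyMeasurable]
    refine ENNReal.toReal_le_of_le_ofReal hη.le hF.le
  -- the average of the indicator function of `D`
  set E : Ω → ℝ := fun y => avg c (fun g => ergDec_one D (g • y)) with hEdef
  have hEm : Measurable E := ergDec_avg_meas hG (ergDec_one_meas hDm) c
  have hEb : ∀ y, |E y| ≤ 1 := fun y => havg1 _ fun g => ergDec_one_abs D _
  have hEi : Integrable E ν := Integrable.of_bound hEm.aestronglyMeasurable 1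
    (Eventually.of_forall fun y => by rw [Real.norm_eq_abs]; exact hEb y)
  have hEη : ∫ y, E y ∂ν ≤ η := by
    have h1 : ∫ y, E y ∂ν = ν.real D := by
      have h2 : ∀ g : G, ∫ y, ergDec_one D (g • y) ∂ν = ν.real D := by
        intro g
        have e : (fun y : Ω => ergDec_one D (g • y)) =
            ergDec_one ((fun x : Ω => g • x) ⁻¹' D) := rfl
        rw [e, ergDec_int_one ν (hG g hDm)]
        unfold Measure.real
        rw [(hP g).measure_preimage hDm.nullMeasurableSet]
      rw [hEdef]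
      unfold avg Finsupp.sum
      rw [integral_finsetSum]
      · simp only [integral_const_mul, h2]
        rw [← Finset.sum_mul]
        have : ∑ g ∈ c.support, c g = 1 := hc1
        rw [this, one_mul]
      · intro g _
        refine (Integrable.of_bound ((ergDec_one_meas hDm).comp (hG g)).aestronglyMeasurable 1
          (Eventually.of_forall fun y => ?_)).const_mul _
        rw [Real.norm_eq_abs]
        exact ergDec_one_abs D _
    rw [h1]
    exact ENNReal.toReal_le_of_le_ofReal hη.le hAB.le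
  -- pointwise estimate
  have hpt : ∀ᵐ y ∂ν, (ergDec_one A y - β) ^ 2 ≤ 2 * E y + 2 * F y := by
    filter_upwards [hβ] with y hy
    have hAinv : ∀ g : G, ergDec_one A (g • y) = ergDec_one A y := by
      intro g
      have h1 : g • y ∈ A ↔ y ∈ A := by
        have h2 : y ∈ (fun x : Ω => g • x) ⁻¹' A ↔ y ∈ A := by rw [hA.2 g]
        exact h2
      unfold ergDec_one
      by_cases hyA : y ∈ A
      · rw [Set.indicator_of_mem hyA, Set.indicator_of_mem (h1.2 hyA)]
      · rw [Set.indicator_of_notMem hyA, Set.indicator_of_notMem fun h => hyA (h1.1 h)]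
    set a : ℝ := avg c (fun g => ergDec_one A (g • y) - ergDec_one B (g • y)) with ha
    set b : ℝ := avg c (fun g => ergDec_one B (g • y)) - B' y with hb
    have e1 : ergDec_one A y - β = a + b := by
      rw [ha, hb, ergDec_avg_sub, ← hy]
      simp only [hAinv]
      rw [ergDec_avg_const c hc1]
      ring
    have hDabs : ∀ z, |ergDec_one A z - ergDec_one B z| = ergDec_one D z := by
      intro z
      unfold ergDec_one
      by_cases h1 : z ∈ A <;> by_cases h2 : z ∈ B
      · have h3 : z ∉ D := by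
          rw [hD, Set.mem_symmDiff]; tauto
        simp [h1, h2, h3]
      · have h3 : z ∈ D := by
          rw [hD, Set.mem_symmDiff]; tauto
        simp [h1, h2, h3]
      · have h3 : z ∈ D := by
          rw [hD, Set.mem_symmDiff]; tauto
        simp [h1, h2, h3]
      · have h3 : z ∉ D := by
          rw [hD, Set.mem_symmDiff]; tauto
        simp [h1, h2, h3]
    have ha1 : |a| ≤ E y := by
      refine (ergDec_abs_avg c hc0 _).trans (le_of_eq ?_)
      simp only [hDabs]
      rfl
    have ha2 : |a| ≤ 1 := ha1.trans ((le_abs_self _).trans (hEb y))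
    have ha3 : a ^ 2 ≤ E y := by
      calc a ^ 2 = |a| * |a| := by rw [← sq_abs, sq]
        _ ≤ 1 * |a| := mul_le_mul_of_nonneg_right ha2 (abs_nonneg _)
        _ ≤ E y := by rw [one_mul]; exact ha1
    have hb2 : b ^ 2 = F y := rfl
    rw [e1]
    nlinarith [sq_nonneg (a - b)]
  -- integrate
  set p : ℝ := ν.real A with hp
  have hLi : ∫ y, (ergDec_one A y - β) ^ 2 ∂ν = β ^ 2 + p * (1 - 2 * β) := by
    have e : ∀ y, (ergDec_one A y - β) ^ 2 = β ^ 2 + ergDec_one A y * (1 - 2 * β) := by
      intro y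
      unfold ergDec_one
      by_cases h : y ∈ A
      · rw [Set.indicator_of_mem h]; ring
      · rw [Set.indicator_of_notMem h]; ring
    simp only [e]
    have hi : Integrable (fun y => ergDec_one A y) ν :=
      Integrable.of_bound (ergDec_one_meas hA.1).aestronglyMeasurable 1
        (Eventually.of_forall fun y => by rw [Real.norm_eq_abs]; exact ergDec_one_abs A _)
    rw [integral_add (integrable_const _) (hi.mul_const _), integral_mul_const,
      ergDec_int_one ν hA.1]
    simp [hp]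
  have hLint : Integrable (fun y => (ergDec_one A y - β) ^ 2) ν := by
    refine Integrable.of_bound (((ergDec_one_meas hA.1).sub measurable_const).pow_const
      2).aestronglyMeasurable ((1 + |β|) ^ 2) (Eventually.of_forall fun y => ?_)
    rw [Real.norm_eq_abs, abs_of_nonneg (sq_nonneg _), ← sq_abs]
    refine pow_le_pow_left₀ (abs_nonneg _) ((abs_sub _ _).trans ?_) 2
    exact add_le_add (ergDec_one_abs A y) le_rfl
  have hfin : ∫ y, (ergDec_one A y - β) ^ 2 ∂ν ≤ ∫ y, (2 * E y + 2 * F y) ∂ν :=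
    integral_mono_ae hLint ((hEi.const_mul 2).add (hFi.const_mul 2)) hpt
  rw [hLi, integral_add (hEi.const_mul 2) (hFi.const_mul 2), integral_const_mul,
    integral_const_mul] at hfin
  nlinarith [sq_nonneg (β - p)]

theorem erg_dec [Countable G] [StandardBorelSpace Ω] {μ : Measure Ω}
    [IsProbabilityMeasure μ] (hμ : PMP G μ) :
    ∃ κ : Kernel Ω Ω, IsMarkovKernel κ ∧
      (∀ B, MeasurableSet B → Measurable[invSA G Ω] (fun x => κ x B)) ∧
      (∀ A B, InvSet G A → MeasurableSet B → ∫⁻ x in A, κ x B ∂μ = μ (A ∩ B)) ∧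
      (∀ᵐ x ∂μ, PMP G (κ x) ∧ Erg G (κ x)) := by
  obtain ⟨κ, hM, hmeas, hcond, hPMP, hself⟩ := erg_dec_ker hμ
  refine ⟨κ, hM, hmeas, hcond, ?_⟩
  have hG : ∀ g : G, Measurable fun x : Ω => g • x := fun g => (hμ g).measurable
  -- disintegration
  have hbind : μ.bind κ = μ := by
    ext B hB
    rw [Measure.bind_apply hB κ.measurable.aemeasurable]
    have h := hcond Set.univ B ⟨MeasurableSet.univ, fun g => rfl⟩ hB
    simpa using h
  have hdis : ∀ F : Ω → ℝ≥0∞, Measurable F → ∫⁻ x, ∫⁻ y, F y ∂(κ x) ∂μ = ∫⁻ y, F y ∂μ := by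
    intro F hF
    conv_rhs => rw [← hbind]
    rw [Measure.lintegral_bind κ.measurable.aemeasurable hF.aemeasurable]
  -- the countable algebra
  set 𝒜 : Set (Set Ω) := generateSetAlgebra (MeasurableSpace.countableGeneratingSet Ω) with h𝒜
  have h𝒜c : 𝒜.Countable := countable_generateSetAlgebra
    (MeasurableSpace.countable_countableGeneratingSet (α := Ω))
  have h𝒜gen : ‹MeasurableSpace Ω› = MeasurableSpace.generateFrom 𝒜 := by
    rw [h𝒜, generateFrom_generateSetAlgebra_eq,
      MeasurableSpace.generateFrom_countableGeneratingSet]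
  have h𝒜m : ∀ B ∈ 𝒜, MeasurableSet B := fun B hB =>
    h𝒜gen ▸ MeasurableSpace.measurableSet_generateFrom hB
  -- the approximation
  have key : ∀ B ∈ 𝒜, ∀ᵐ x ∂μ, ∃ (B' : Ω → ℝ) (β : ℝ), Measurable B' ∧ (∀ y, |B' y| ≤ 1) ∧
      (∀ᵐ y ∂(κ x), B' y = β) ∧ ∀ η > (0 : ℝ), ∃ c : G →₀ ℝ, (∀ g, 0 ≤ c g) ∧
        (c.sum fun _ r => r) = 1 ∧
        ∫⁻ y, ENNReal.ofReal ((avg c (fun g => ergDec_one B (g • y)) - B' y) ^ 2) ∂(κ x) <
          ENNReal.ofReal η := by
    intro B hB
    obtain ⟨B', hB'm, hB'1, hB'inv, -, happ⟩ := l2_avg hμ (ergDec_one_meas (h𝒜m B hB))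
      (C := 1) (ergDec_one_abs B)
    choose c hc0 hc1 hc using fun n : ℕ => happ (1 / ((n : ℝ) + 1)) (by positivity)
    let F : ℕ → Ω → ℝ≥0∞ := fun n y =>
      ENNReal.ofReal ((avg (c n) (fun g => ergDec_one B (g • y)) - B' y) ^ 2)
    have hFm : ∀ n, Measurable (F n) := fun n =>
      (((ergDec_avg_meas hG (ergDec_one_meas (h𝒜m B hB)) (c n)).sub hB'm).pow_const 2).ennreal_ofReal
    have hFi : ∀ n, ∫⁻ y, F n y ∂μ ≤ ENNReal.ofReal (1 / ((n : ℝ) + 1)) := by
      intro n
      have hm := (((ergDec_avg_meas hG (ergDec_one_meas (h𝒜m B hB)) (c n)).sub hB'm).pow_const 2)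
      have hi : Integrable (fun y => (avg (c n) (fun g => ergDec_one B (g • y)) - B' y) ^ 2) μ := by
        refine Integrable.of_bound hm.aestronglyMeasurable 4 (Eventually.of_forall fun y => ?_)
        rw [Real.norm_eq_abs, abs_of_nonneg (sq_nonneg _)]
        have h1 : |avg (c n) (fun g => ergDec_one B (g • y))| ≤ 1 := by
          refine (ergDec_abs_avg (c n) (hc0 n) _).trans ?_
          rw [← ergDec_avg_const (c n) (hc1 n) 1]
          unfold avg Finsupp.sum
          exact Finset.sum_le_sum fun g _ =>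
            mul_le_mul_of_nonneg_left (ergDec_one_abs B _) (hc0 n g)
        have h3 : |avg (c n) (fun g => ergDec_one B (g • y)) - B' y| ≤ 2 :=
          (abs_sub _ _).trans (by linarith [hB'1 y])
        calc (avg (c n) (fun g => ergDec_one B (g • y)) - B' y) ^ 2
            = |avg (c n) (fun g => ergDec_one B (g • y)) - B' y| ^ 2 := (sq_abs _).symm
          _ ≤ 2 ^ 2 := pow_le_pow_left₀ (abs_nonneg _) h3 2
          _ = 4 := by norm_num
      rw [← ofReal_integral_eq_lintegral_ofReal hi (Eventually.of_forall fun y => sq_nonneg _)]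
      exact ENNReal.ofReal_le_ofReal (hc n).le
    have hinf : ∫⁻ x, ⨅ n, ∫⁻ y, F n y ∂(κ x) ∂μ = 0 := by
      refine le_antisymm ?_ bot_le
      have h1 : Tendsto (fun n : ℕ => ENNReal.ofReal (1 / ((n : ℝ) + 1))) atTop (𝓝 0) := by
        rw [← ENNReal.ofReal_zero]
        exact (ENNReal.continuous_ofReal.tendsto 0).comp tendsto_one_div_add_atTop_nhds_zero_nat
      refine ge_of_tendsto' h1 fun n => ?_
      refine (lintegral_mono fun x => iInf_le _ n).trans ?_
      rw [hdis _ (hFm n)]
      exact hFi n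
    have hinfm : Measurable fun x => ⨅ n, ∫⁻ y, F n y ∂(κ x) :=
      Measurable.iInf fun n => (hFm n).lintegral_kernel
    rw [lintegral_eq_zero_iff hinfm] at hinf
    filter_upwards [hinf, hself B' hB'm hB'inv] with x hx hx'
    refine ⟨B', B' x, hB'm, hB'1, hx', fun η hη => ?_⟩
    have h2 : ⨅ n, ∫⁻ y, F n y ∂(κ x) < ENNReal.ofReal η := by
      rw [show (⨅ n, ∫⁻ y, F n y ∂(κ x)) = 0 from hx]
      exact ENNReal.ofReal_pos.2 hη
    obtain ⟨n, hn⟩ := iInf_lt_iff.1 h2
    exact ⟨c n, hc0 n, hc1 n, hn⟩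
  have key' := (ae_ball_iff h𝒜c).2 key
  filter_upwards [key', hPMP] with x hx hPx
  refine ⟨hPx, fun A hA => ?_⟩
  have hdense : (κ x).MeasureDense 𝒜 := Measure.MeasureDense.of_generateFrom_isSetAlgebra_finite
    (κ x) isSetAlgebra_generateSetAlgebra h𝒜gen
  have hle : (κ x).real A * (1 - (κ x).real A) ≤ 0 := by
    refine le_of_forall_pos_le_add fun ε hε => ?_
    rw [zero_add]
    obtain ⟨B, hB, hAB⟩ := hdense.approx A hA.1 (measure_ne_top _ _) (ε / 4) (by positivity)
    obtain ⟨B', β, hB'm, hB'1, hβ, happ⟩ := hx B hB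
    obtain ⟨c, hc0, hc1, hc⟩ := happ (ε / 4) (by positivity)
    have h := ergDec_core hPx hA (h𝒜m B hB) (by positivity) hAB hB'm hB'1 hβ c hc0 hc1 hc
    linarith
  have h0 : 0 ≤ (κ x).real A := measureReal_nonneg
  have h1 : (κ x).real A ≤ 1 := measureReal_le_one
  rcases eq_or_lt_of_le h0 with h2 | h2
  · left
    have := (measureReal_eq_zero_iff (measure_ne_top _ _)).1 h2.symm
    exact this
  · right
    have h3 : (κ x).real A = 1 := by nlinarith
    rw [prob_compl_eq_zero_iff hA.1]
    have h4 : (κ x A).toReal = 1 := h3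
    rwa [ENNReal.toReal_eq_one_iff] at h4

end Dadc30
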