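import Pool.Agent.Lib.MP_dadc30_co.BMapi

/-!
# MP_dadc30_co, module ErgDecA: the kernel of the ergodic decomposition, invariance.

`κ = condExpKernel μ (invSA G Ω)`.  For `g : G` and `B` in a countable generating π-system,
`κ x (g⁻¹ B) = κ x B` for a.e. `x` since `∫_A 1_{g⁻¹B} = ∫_A 1_B` for invariant `A`.
The last clause (points of the same component): for `f` strictly invariant and bounded
measurable, a.e. `x`, κ_x-a.e. `y`: `f y = f x` (as in `Fac.self`: for `A ∈ invSA`,
`κ x A = 1_A(x)` a.e.; then rational level sets). -/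

open MeasureTheory ProbabilityTheory Filter Topology
open scoped ENNReal ComplexConjugate

namespace Dadc30

variable {G : Type} [CommGroup G] {Ω : Type} [MeasurableSpace Ω] [MulAction G Ω]

theorem ErgDecA_invSA_le : invSA G Ω ≤ (inferInstance : MeasurableSpace Ω) := fun _ hA => hA.1

/-- two functions measurable for `invSA` with the same integrals on invariant sets agree a.e. -/
theorem ErgDecA_ae_eq {μ : Measure Ω} [IsProbabilityMeasure μ] {f h : Ω → ℝ≥0∞}
    (hf : Measurable[invSA G Ω] f) (hh : Measurable[invSA G Ω] h)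
    (hfh : ∀ A, InvSet G A → ∫⁻ x in A, f x ∂μ = ∫⁻ x in A, h x ∂μ) : f =ᵐ[μ] h := by
  have hm : invSA G Ω ≤ (inferInstance : MeasurableSpace Ω) := ErgDecA_invSA_le
  have key : f =ᵐ[μ.trim hm] h := by
    refine @ae_eq_of_forall_setLIntegral_eq_of_sigmaFinite Ω (invSA G Ω) (μ.trim hm) _ f h
      hf hh ?_
    intro s hs _
    rw [restrict_trim hm μ hs, lintegral_trim hm hf, lintegral_trim hm hh]
    exact hfh s hs
  exact ae_eq_of_ae_eq_trim key

theorem erg_dec_ker [Countable G] [StandardBorelSpace Ω] {μ : Measure Ω}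
    [IsProbabilityMeasure μ] (hμ : PMP G μ) :
    ∃ κ : Kernel Ω Ω, IsMarkovKernel κ ∧
      (∀ B, MeasurableSet B → Measurable[invSA G Ω] (fun x => κ x B)) ∧
      (∀ A B, InvSet G A → MeasurableSet B → ∫⁻ x in A, κ x B ∂μ = μ (A ∩ B)) ∧
      (∀ᵐ x ∂μ, PMP G (κ x)) ∧
      (∀ f : Ω → ℝ, Measurable f → (∀ (g : G) x, f (g • x) = f x) →
        ∀ᵐ x ∂μ, ∀ᵐ y ∂(κ x), f y = f x) := by
  have hm : invSA G Ω ≤ (inferInstance : MeasurableSpace Ω) := ErgDecA_invSA_le
  obtain ⟨κ₀, hκ₀⟩ : ∃ κ₀ : @Kernel Ω Ω (invSA G Ω) inferInstance,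
      κ₀ = condExpKernel μ (invSA G Ω) := ⟨_, rfl⟩
  have hmk : @IsMarkovKernel Ω Ω (invSA G Ω) inferInstance κ₀ := by
    rw [hκ₀]; infer_instance
  have hmeas : ∀ B, MeasurableSet B → Measurable[invSA G Ω] (fun x => κ₀ x B) := by
    intro B hB
    rw [hκ₀]
    exact measurable_condExpKernel hB
  have hint : ∀ A B, InvSet G A → MeasurableSet B → ∫⁻ x in A, κ₀ x B ∂μ = μ (A ∩ B) := by
    intro A B hA hB
    have h1 := compProd_trim_condExpKernel (μ := μ) hm
    have h2 : ((μ.trim hm) ⊗ₘ condExpKernel μ (invSA G Ω)) (A ×ˢ B) = μ (A ∩ B) := by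
      rw [h1]
      have hdiag : @Measurable Ω (Ω × Ω) inferInstance ((invSA G Ω).prod inferInstance)
          (Function.diag : Ω → Ω × Ω) :=
        Measurable.prodMk (measurable_id'' hm) measurable_id
      have hAB : @MeasurableSet (Ω × Ω) ((invSA G Ω).prod inferInstance) (A ×ˢ B) :=
        @MeasurableSet.prod Ω Ω (invSA G Ω) inferInstance A B hA hB
      rw [Measure.map_apply hdiag hAB]
      congr 1
    rw [@Measure.compProd_apply_prod Ω Ω (invSA G Ω) inferInstance (μ.trim hm)
      (condExpKernel μ (invSA G Ω)) _ _ A B hA hB, restrict_trim hm μ hA,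
      lintegral_trim hm (measurable_condExpKernel hB)] at h2
    rw [hκ₀]
    exact h2
  clear hκ₀
  refine ⟨κ₀.comap id (measurable_id'' hm), inferInstance, ?_, ?_, ?_, ?_⟩
  · intro B hB
    exact hmeas B hB
  · intro A B hA hB
    exact hint A B hA hB
  · -- invariance
    have hgen : (inferInstance : MeasurableSpace Ω) = MeasurableSpace.generateFrom
        (generateSetAlgebra (MeasurableSpace.countableGeneratingSet Ω)) := by
      rw [generateFrom_generateSetAlgebra_eq,
        MeasurableSpace.generateFrom_countableGeneratingSet]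
    have hpi : IsPiSystem (generateSetAlgebra (MeasurableSpace.countableGeneratingSet Ω)) :=
      fun s hs t ht _ => isSetAlgebra_generateSetAlgebra.inter_mem hs ht
    have hcount : (generateSetAlgebra (MeasurableSpace.countableGeneratingSet Ω)).Countable :=
      countable_generateSetAlgebra MeasurableSpace.countable_countableGeneratingSet
    have hms : ∀ s ∈ generateSetAlgebra (MeasurableSpace.countableGeneratingSet Ω),
        MeasurableSet s := by
      intro s hs
      have h7 := MeasurableSpace.measurableSet_generateFrom hs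
      rw [← hgen] at h7
      exact h7
    have hall : ∀ᵐ x ∂μ, ∀ g : G, ∀ s ∈ generateSetAlgebra
        (MeasurableSpace.countableGeneratingSet Ω),
        κ₀ x ((fun y : Ω => g • y) ⁻¹' s) = κ₀ x s := by
      rw [ae_all_iff]
      intro g
      rw [ae_ball_iff hcount]
      intro s hs
      have hgs : MeasurableSet ((fun y : Ω => g • y) ⁻¹' s) := (hμ g).measurable (hms s hs)
      refine ErgDecA_ae_eq (hmeas _ hgs) (hmeas _ (hms s hs)) ?_
      intro A hA
      rw [hint A _ hA hgs, hint A s hA (hms s hs)]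
      have h3 : A ∩ (fun y : Ω => g • y) ⁻¹' s = (fun y : Ω => g • y) ⁻¹' (A ∩ s) := by
        rw [Set.preimage_inter, hA.2 g]
      rw [h3]
      exact (hμ g).measure_preimage (hA.1.inter (hms s hs)).nullMeasurableSet
    filter_upwards [hall] with x hx g
    refine ⟨(hμ g).measurable, ?_⟩
    have hp : IsProbabilityMeasure (κ₀ x) := @IsMarkovKernel.isProbabilityMeasure _ _ (invSA G Ω)
      inferInstance κ₀ hmk x
    refine ext_of_generate_finite _ hgen hpi ?_ ?_
    · intro s hs
      show Measure.map (fun y : Ω => g • y) (κ₀ x) s = κ₀ x s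
      rw [Measure.map_apply (hμ g).measurable (hms s hs)]
      exact hx g s hs
    · show Measure.map (fun y : Ω => g • y) (κ₀ x) Set.univ = κ₀ x Set.univ
      rw [Measure.map_apply (hμ g).measurable MeasurableSet.univ, Set.preimage_univ]
  · intro f hf hfg
    -- level sets
    have hset : ∀ q : ℚ, InvSet G {x | f x < q} := by
      intro q
      refine ⟨measurableSet_lt hf measurable_const, fun g => ?_⟩
      ext x
      simp only [Set.mem_preimage, Set.mem_ofPred_eq, hfg g x]
    have h01 : ∀ᵐ x ∂μ, ∀ q : ℚ, κ₀ x {y | f y < q} = Set.indicator {y | f y < q} 1 x := by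
      rw [ae_all_iff]
      intro q
      have hq := hset q
      have hmi : Measurable[invSA G Ω] (Set.indicator {y : Ω | f y < q} (1 : Ω → ℝ≥0∞)) :=
        Measurable.indicator (@measurable_const _ _ _ (invSA G Ω) _) hq
      refine ErgDecA_ae_eq (hmeas _ hq.1) hmi ?_
      intro A hA
      rw [hint A _ hA hq.1, lintegral_indicator_one hq.1, Measure.restrict_apply hq.1,
        Set.inter_comm]
    filter_upwards [h01] with x hx
    have hp : IsProbabilityMeasure (κ₀ x) := @IsMarkovKernel.isProbabilityMeasure _ _ (invSA G Ω)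
      inferInstance κ₀ hmk x
    have hxy : ∀ q : ℚ, ∀ᵐ y ∂(κ₀ x), (f y < q ↔ f x < q) := by
      intro q
      have hq := hx q
      by_cases hfx : f x < q
      · rw [Set.indicator_of_mem (show x ∈ {y | f y < q} from hfx)] at hq
        have h5 : κ₀ x {y | f y < q}ᶜ = 0 := (prob_compl_eq_zero_iff (hset q).1).mpr hq
        have h6 : ∀ᵐ y ∂(κ₀ x), y ∈ {y | f y < q} := h5
        filter_upwards [h6] with y hy
        exact ⟨fun _ => hfx, fun _ => hy⟩
      · rw [Set.indicator_of_notMem (show x ∉ {y | f y < q} from hfx)] at hq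
        have h6 : ∀ᵐ y ∂(κ₀ x), y ∉ {y | f y < q} := measure_eq_zero_iff_ae_notMem.mp hq
        filter_upwards [h6] with y hy
        exact ⟨fun h => absurd h hy, fun h => absurd h hfx⟩
    have hxy' := ae_all_iff.mpr hxy
    show ∀ᵐ y ∂(κ₀ x), f y = f x
    filter_upwards [hxy'] with y hy
    rcases lt_trichotomy (f y) (f x) with h | h | h
    · obtain ⟨q, hq1, hq2⟩ := exists_rat_btwn h
      exact absurd ((hy q).mp hq1) (not_lt.mpr hq2.le)
    · exact h
    · obtain ⟨q, hq1, hq2⟩ := exists_rat_btwn h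
      exact absurd ((hy q).mpr hq1) (not_lt.mpr hq2.le)

end Dadc30
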