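import Pool.Agent.Lib.MP_dadc30_co.Defs

/-!
# MP_dadc30_co, module Geo: the field `K` of algebraic numbers and the group `Γ₀`.
-/

open MeasureTheory ProbabilityTheory Filter Topology
open scoped ENNReal ComplexConjugate

namespace Dadc30

/-! ### auxiliary lemmas -/

theorem Geo_mem {z : ℂ} : z ∈ Falg ↔ IsAlgebraic ℚ z := mem_algebraicClosure_iff

theorem Geo_pow {z : ℂ} {n : ℕ} (hn : 0 < n) (h : z ^ n ∈ Falg) : z ∈ Falg :=
  Geo_mem.2 ((Geo_mem.1 h).of_pow hn)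

theorem Geo_conj {z : ℂ} (h : z ∈ Falg) : conj z ∈ Falg := by
  have h1 := (Geo_mem.1 h).algHom ((Complex.conjAe.toAlgHom).restrictScalars ℚ)
  exact Geo_mem.2 h1

theorem Geo_I : Complex.I ∈ Falg := by
  apply Geo_pow (n := 2) (by norm_num)
  rw [Complex.I_sq]
  exact Falg.neg_mem Falg.one_mem

theorem Geo_two : (2 : ℂ) ∈ Falg := by
  have := Falg.add_mem Falg.one_mem Falg.one_mem
  rwa [one_add_one_eq_two] at this

theorem Geo_rat (q : ℚ) : ((q : ℝ) : ℂ) ∈ Falg := by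
  have h : ((q : ℚ) : ℂ) ∈ Falg := SubfieldClass.ratCast_mem Falg q
  rwa [Complex.ofReal_ratCast]

/-- the point of `Γ₀` given by an algebraic number of modulus one -/
theorem Geo_mk {z : ℂ} (hz : z ∈ Falg) (h1 : ‖z‖ = 1) : ∃ w : Γ₀, ((toK w : K) : ℂ) = z := by
  have h2 : z ∈ Submonoid.unitSphere ℂ := mem_sphere_zero_iff_norm.2 h1
  exact ⟨⟨⟨z, h2⟩, hz⟩, rfl⟩

theorem K_conj (z : K) : conj (z : ℂ) ∈ Falg := Geo_conj z.2

/-- `n`-th roots -/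
theorem K_root (n : ℕ) (hn : 0 < n) (z : K) : ∃ y : K, y ^ n = z := by
  obtain ⟨y, hy⟩ := IsAlgClosed.exists_pow_nat_eq (z : ℂ) hn
  exact ⟨⟨y, Geo_pow hn (by rw [hy]; exact z.2)⟩, Subtype.ext hy⟩

theorem K_re (z : K) : ((z : ℂ).re : ℝ) ∈ AR := by
  change (((z : ℂ).re : ℝ) : ℂ) ∈ Falg
  rw [Complex.re_eq_add_conj]
  exact Falg.div_mem (Falg.add_mem z.2 (K_conj z)) Geo_two

theorem K_im (z : K) : ((z : ℂ).im : ℝ) ∈ AR := by
  change (((z : ℂ).im : ℝ) : ℂ) ∈ Falg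
  rw [Complex.im_eq_sub_conj]
  exact Falg.div_mem (Falg.sub_mem z.2 (K_conj z)) (Falg.mul_mem Geo_two Geo_I)

/-- roots of unity -/
instance : Infinite Γ₀ := by
  have h : ∀ n : ℕ, ∃ w : Γ₀, ((toK w : K) : ℂ) =
      Complex.exp (2 * Real.pi * Complex.I / ((n + 1 : ℕ) : ℂ)) := by
    intro n
    have hp := Complex.isPrimitiveRoot_exp (n + 1) (Nat.succ_ne_zero n)
    apply Geo_mk
    · apply Geo_pow (n := n + 1) (Nat.succ_pos n)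
      rw [hp.pow_eq_one]
      exact Falg.one_mem
    · exact Complex.norm_eq_one_of_pow_eq_one hp.pow_eq_one (Nat.succ_ne_zero n)
  choose f hf using h
  apply Infinite.of_injective f
  intro n m hnm
  have h1 := Complex.isPrimitiveRoot_exp (n + 1) (Nat.succ_ne_zero n)
  have h2 := Complex.isPrimitiveRoot_exp (m + 1) (Nat.succ_ne_zero m)
  rw [← hf, hnm, hf] at h1
  have := h1.unique h2
  omega

theorem toK_norm (w : Γ₀) : ‖((toK w : K) : ℂ)‖ = 1 := Circle.norm_coe _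

theorem toK_mul (w v : Γ₀) : toK (w * v) = toK w * toK v := by
  apply Subtype.ext; simp [toK]

theorem toK_injective : Function.Injective toK := by
  intro w v h
  have h1 : ((w : Circle) : ℂ) = ((v : Circle) : ℂ) := congrArg (fun z : K => (z : ℂ)) h
  exact Subtype.ext (Circle.ext h1)

theorem Geo_toK_pow (w : Γ₀) (n : ℕ) : toK (w ^ n) = toK w ^ n := by
  apply Subtype.ext; simp [toK]

theorem divis_Γ : Divis Γ₀ := by
  intro n hn g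
  obtain ⟨y, hy⟩ := K_root n hn (toK g)
  have h1 : ‖(y : ℂ)‖ = 1 := by
    have h2 : (y : ℂ) ^ n = ((toK g : K) : ℂ) := by rw [← hy]; simp
    have h3 : ‖(y : ℂ)‖ ^ n = 1 := by rw [← norm_pow, h2, toK_norm]
    exact (pow_eq_one_iff_of_nonneg (norm_nonneg _) hn.ne').1 h3
  obtain ⟨w, hw⟩ := Geo_mk y.2 h1
  refine ⟨w, toK_injective ?_⟩
  rw [Geo_toK_pow, ← hy]
  congr 1
  exact Subtype.ext hw

theorem toK_inv (w : Γ₀) : ((toK w⁻¹ : K) : ℂ) = conj ((toK w : K) : ℂ) :=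
  Circle.coe_inv_eq_conj _

/-- `-1 ∈ Γ` -/
theorem exists_negOne : ∃ w : Γ₀, toK w = -1 := by
  obtain ⟨w, hw⟩ := Geo_mk (z := -1) (Falg.neg_mem Falg.one_mem) (by simp)
  exact ⟨w, Subtype.ext (by rw [hw]; simp)⟩

theorem exists_rot {z z' : K} (hz : z ≠ 0) (h : ‖(z : ℂ)‖ = ‖(z' : ℂ)‖) :
    ∃ w : Γ₀, z' = toK w * z := by
  have hz' : (z : ℂ) ≠ 0 := fun h' => hz (Subtype.ext h')
  obtain ⟨w, hw⟩ := Geo_mk (z := (z' : ℂ) / z) (Falg.div_mem z'.2 z.2) (by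
    rw [norm_div, ← h, div_self]
    exact norm_ne_zero_iff.2 hz')
  refine ⟨w, Subtype.ext ?_⟩
  change (z' : ℂ) = ((toK w : K) : ℂ) * z
  rw [hw, div_mul_cancel₀ _ hz']

theorem exists_A_norm (z : K) : ∃ t : A₀, (t : ℝ) = ‖(z : ℂ)‖ := by
  have h : ((‖(z : ℂ)‖ : ℝ) : ℂ) ∈ Falg := by
    apply Geo_pow (n := 2) (by norm_num)
    have h1 : ((‖(z : ℂ)‖ : ℝ) : ℂ) ^ 2 = (z : ℂ) * conj (z : ℂ) := by
      rw [Complex.mul_conj, Complex.normSq_eq_norm_sq]; push_cast; rfl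
    rw [h1]
    exact Falg.mul_mem z.2 (K_conj z)
  exact ⟨⟨‖(z : ℂ)‖, h⟩, rfl⟩

theorem A_norm (t : A₀) : ‖((A₀.toK t : K) : ℂ)‖ = |(t : ℝ)| := by
  change ‖((t : ℝ) : ℂ)‖ = |(t : ℝ)|
  rw [Complex.norm_real, Real.norm_eq_abs]

theorem exists_sqrt (t : A₀) (ht : 0 ≤ (t : ℝ)) : ∃ s : A₀, 0 ≤ (s : ℝ) ∧ s * s = t := by
  have h : ((Real.sqrt (t : ℝ) : ℝ) : ℂ) ∈ Falg := by
    apply Geo_pow (n := 2) (by norm_num)
    have h1 : ((Real.sqrt (t : ℝ) : ℝ) : ℂ) ^ 2 = ((t : ℝ) : ℂ) := by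
      rw [← Complex.ofReal_pow, Real.sq_sqrt ht]
    rw [h1]
    exact t.2
  refine ⟨⟨Real.sqrt (t : ℝ), h⟩, Real.sqrt_nonneg _, Subtype.ext ?_⟩
  exact Real.mul_self_sqrt ht

theorem toK_add (s t : A₀) : A₀.toK (s + t) = A₀.toK s + A₀.toK t := by
  apply Subtype.ext
  change (((s : ℝ) + (t : ℝ) : ℝ) : ℂ) = ((s : ℝ) : ℂ) + ((t : ℝ) : ℂ)
  push_cast; rfl

theorem A_toK_mul (s t : A₀) : A₀.toK (s * t) = A₀.toK s * A₀.toK t := by
  apply Subtype.ext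
  change (((s : ℝ) * (t : ℝ) : ℝ) : ℂ) = ((s : ℝ) : ℂ) * ((t : ℝ) : ℂ)
  push_cast; rfl

theorem A_toK_sub (s t : A₀) : A₀.toK (s - t) = A₀.toK s - A₀.toK t := by
  apply Subtype.ext
  change (((s : ℝ) - (t : ℝ) : ℝ) : ℂ) = ((s : ℝ) : ℂ) - ((t : ℝ) : ℂ)
  push_cast; rfl

theorem dense_A (x ε : ℝ) (hε : 0 < ε) : ∃ t : A₀, |(t : ℝ) - x| < ε := by
  obtain ⟨q, h1, h2⟩ := exists_rat_btwn (show x < x + ε by linarith)
  refine ⟨⟨(q : ℝ), Geo_rat q⟩, ?_⟩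
  change |(q : ℝ) - x| < ε
  rw [abs_of_pos (by linarith)]
  linarith

theorem dense_K (x : ℂ) (ε : ℝ) (hε : 0 < ε) : ∃ z : K, ‖(z : ℂ) - x‖ < ε := by
  obtain ⟨s, hs⟩ := dense_A x.re (ε / 2) (by linarith)
  obtain ⟨t, ht⟩ := dense_A x.im (ε / 2) (by linarith)
  have hm : ((s : ℝ) : ℂ) + ((t : ℝ) : ℂ) * Complex.I ∈ Falg :=
    Falg.add_mem s.2 (Falg.mul_mem t.2 Geo_I)
  refine ⟨⟨_, hm⟩, ?_⟩
  change ‖((s : ℝ) : ℂ) + ((t : ℝ) : ℂ) * Complex.I - x‖ < ε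
  have h1 := Complex.norm_le_abs_re_add_abs_im (((s : ℝ) : ℂ) + ((t : ℝ) : ℂ) * Complex.I - x)
  have h2 : (((s : ℝ) : ℂ) + ((t : ℝ) : ℂ) * Complex.I - x).re = (s : ℝ) - x.re := by simp
  have h3 : (((s : ℝ) : ℂ) + ((t : ℝ) : ℂ) * Complex.I - x).im = (t : ℝ) - x.im := by simp
  rw [h2, h3] at h1
  linarith

theorem dense_Γ (x : ℂ) (hx : ‖x‖ = 1) (ε : ℝ) (hε : 0 < ε) :
    ∃ w : Γ₀, ‖((toK w : K) : ℂ) - x‖ < ε := by
  obtain ⟨z, hz⟩ := dense_K x (min (ε / 2) (1 / 2)) (lt_min (by linarith) (by norm_num))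
  have hz1 : ‖(z : ℂ) - x‖ < ε / 2 := lt_of_lt_of_le hz (min_le_left _ _)
  have hz2 : ‖(z : ℂ) - x‖ < 1 / 2 := lt_of_lt_of_le hz (min_le_right _ _)
  have h1 : |‖(z : ℂ)‖ - 1| ≤ ‖(z : ℂ) - x‖ := by
    rw [← hx]; exact abs_norm_sub_norm_le _ _
  have h2 : 0 < ‖(z : ℂ)‖ := by
    have := (abs_le.1 h1).1
    linarith
  obtain ⟨t, ht⟩ := exists_A_norm z
  have hne : ((t : ℝ) : ℂ) ≠ 0 := by
    rw [ht]; exact_mod_cast h2.ne'
  obtain ⟨w, hw⟩ := Geo_mk (z := (z : ℂ) / ((t : ℝ) : ℂ)) (Falg.div_mem z.2 t.2) (by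
    rw [norm_div, Complex.norm_real, ht, norm_norm, div_self h2.ne'])
  refine ⟨w, ?_⟩
  rw [hw]
  have h3 : (z : ℂ) / ((t : ℝ) : ℂ) - x = (z : ℂ) / ((t : ℝ) : ℂ) * (1 - ((t : ℝ) : ℂ)) +
      ((z : ℂ) - x) := by
    field_simp
    ring
  have h4 : ‖(z : ℂ) / ((t : ℝ) : ℂ) * (1 - ((t : ℝ) : ℂ))‖ = |‖(z : ℂ)‖ - 1| := by
    rw [norm_mul, norm_div, Complex.norm_real, ht, norm_norm, div_self h2.ne', one_mul,
      ← Complex.ofReal_one, ← Complex.ofReal_sub, Complex.norm_real, Real.norm_eq_abs,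
      abs_sub_comm]
  rw [h3]
  calc _ ≤ ‖(z : ℂ) / ((t : ℝ) : ℂ) * (1 - ((t : ℝ) : ℂ))‖ + ‖(z : ℂ) - x‖ := norm_add_le _ _
    _ < ε := by rw [h4]; linarith

/-- two vectors of length `s` with sum `r ∈ [0, 2s]`: `r/2 ± i √(s² - r²/4)` -/
theorem exists_two (r s : A₀) (hr : 0 ≤ (r : ℝ)) (hs : (r : ℝ) ≤ 2 * s) :
    ∃ z z' : K, ‖(z : ℂ)‖ = s ∧ ‖(z' : ℂ)‖ = s ∧ z + z' = A₀.toK r := by
  have hs0 : 0 ≤ (s : ℝ) := by linarith
  obtain ⟨t, _, ht⟩ := exists_sqrt (s * s - r * r / 4) (by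
    change 0 ≤ (s : ℝ) * s - r * r / 4
    nlinarith)
  have ht' : (t : ℝ) * t = (s : ℝ) * s - r * r / 4 := by
    have := congrArg (fun u : A₀ => (u : ℝ)) ht
    exact this
  have hr2 : (((r : ℝ) / 2 : ℝ) : ℂ) ∈ Falg := by
    rw [Complex.ofReal_div]
    exact Falg.div_mem r.2 (by exact_mod_cast Geo_two)
  have hm : (((r : ℝ) / 2 : ℝ) : ℂ) + ((t : ℝ) : ℂ) * Complex.I ∈ Falg :=
    Falg.add_mem hr2 (Falg.mul_mem t.2 Geo_I)
  have hm' : (((r : ℝ) / 2 : ℝ) : ℂ) - ((t : ℝ) : ℂ) * Complex.I ∈ Falg :=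
    Falg.sub_mem hr2 (Falg.mul_mem t.2 Geo_I)
  have key : ∀ z : ℂ, z.re = (r : ℝ) / 2 → z.im ^ 2 = (t : ℝ) ^ 2 → ‖z‖ = s := by
    intro z h1 h2
    have h3 : ‖z‖ ^ 2 = (s : ℝ) ^ 2 := by
      rw [Complex.sq_norm, Complex.normSq_apply, h1]
      nlinarith
    exact (pow_left_inj₀ (norm_nonneg _) hs0 (by norm_num)).1 h3
  refine ⟨⟨_, hm⟩, ⟨_, hm'⟩, ?_, ?_, Subtype.ext ?_⟩
  · apply key <;> simp
  · apply key <;> simp
  · change (((r : ℝ) / 2 : ℝ) : ℂ) + ((t : ℝ) : ℂ) * Complex.I +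
      ((((r : ℝ) / 2 : ℝ) : ℂ) - ((t : ℝ) : ℂ) * Complex.I) = ((r : ℝ) : ℂ)
    push_cast
    ring

/-- `|a u - b ū| = |c u - c ū + d|` for real `a b c d`, `c² = ab`, `d = a - b`, `|u| = 1`
(both squares equal `(a-b)² + 4ab (Im u)²`) -/
theorem e4 (a b c d : A₀) (hc : c * c = a * b) (hd : d = a - b) (u : Γ₀) :
    ‖((A₀.toK a * toK u - A₀.toK b * toK u⁻¹ : K) : ℂ)‖ =
      ‖((A₀.toK c * toK u - A₀.toK c * toK u⁻¹ + A₀.toK d : K) : ℂ)‖ := by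
  have hc' : (c : ℝ) * c = a * b := congrArg (fun v : A₀ => (v : ℝ)) hc
  have hd' : (d : ℝ) = a - b := congrArg (fun v : A₀ => (v : ℝ)) hd
  have hu : ‖((toK u : K) : ℂ)‖ = 1 := toK_norm u
  set z : ℂ := ((toK u : K) : ℂ) with hz
  have hn : z.re * z.re + z.im * z.im = 1 := by
    have := Complex.sq_norm z
    rw [hu, Complex.normSq_apply] at this
    linarith
  have h1 : ((A₀.toK a * toK u - A₀.toK b * toK u⁻¹ : K) : ℂ) =
      ((a : ℝ) : ℂ) * z - ((b : ℝ) : ℂ) * conj z := by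
    rw [hz, ← toK_inv]; rfl
  have h2 : ((A₀.toK c * toK u - A₀.toK c * toK u⁻¹ + A₀.toK d : K) : ℂ) =
      ((c : ℝ) : ℂ) * z - ((c : ℝ) : ℂ) * conj z + ((d : ℝ) : ℂ) := by
    rw [hz, ← toK_inv]; rfl
  rw [h1, h2]
  have h3 : ‖((a : ℝ) : ℂ) * z - ((b : ℝ) : ℂ) * conj z‖ ^ 2 =
      ‖((c : ℝ) : ℂ) * z - ((c : ℝ) : ℂ) * conj z + ((d : ℝ) : ℂ)‖ ^ 2 := by
    rw [Complex.sq_norm, Complex.sq_norm, Complex.normSq_apply, Complex.normSq_apply]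
    simp only [Complex.sub_re, Complex.sub_im, Complex.add_re, Complex.add_im, Complex.mul_re,
      Complex.mul_im, Complex.ofReal_re, Complex.ofReal_im, Complex.conj_re, Complex.conj_im]
    rw [hd']
    have hx : z.re * z.re = 1 - z.im * z.im := by linarith
    have e1 : ((a : ℝ) * z.re - 0 * z.im - ((b : ℝ) * z.re - 0 * -z.im)) *
        ((a : ℝ) * z.re - 0 * z.im - ((b : ℝ) * z.re - 0 * -z.im)) +
        ((a : ℝ) * z.im + 0 * z.re - ((b : ℝ) * -z.im + 0 * z.re)) *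
        ((a : ℝ) * z.im + 0 * z.re - ((b : ℝ) * -z.im + 0 * z.re)) =
        ((a : ℝ) - b) ^ 2 * (z.re * z.re) + ((a : ℝ) + b) ^ 2 * (z.im * z.im) := by ring
    have e2 : ((c : ℝ) * z.re - 0 * z.im - ((c : ℝ) * z.re - 0 * -z.im) + ((a : ℝ) - b)) *
        ((c : ℝ) * z.re - 0 * z.im - ((c : ℝ) * z.re - 0 * -z.im) + ((a : ℝ) - b)) +
        ((c : ℝ) * z.im + 0 * z.re - ((c : ℝ) * -z.im + 0 * z.re) + 0) *
        ((c : ℝ) * z.im + 0 * z.re - ((c : ℝ) * -z.im + 0 * z.re) + 0) =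
        ((a : ℝ) - b) ^ 2 + 4 * ((c : ℝ) * c) * (z.im * z.im) := by ring
    rw [e1, e2, hx, hc']
    ring
  exact (pow_left_inj₀ (norm_nonneg _) (norm_nonneg _) (by norm_num)).1 h3

/-- the set of `w` with `|w+1| ∈ {0,1}` is finite -/
theorem finite_bad : {w : Γ₀ | ‖((toK w + 1 : K) : ℂ)‖ = 0 ∨ ‖((toK w + 1 : K) : ℂ)‖ = 1}.Finite := by
  have hfin : {z : ℂ | z ^ 6 = 1}.Finite := by
    apply Set.Finite.subset (Polynomial.nthRootsFinset 6 (1 : ℂ)).finite_toSet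
    intro z hz
    rw [Finset.mem_coe, Polynomial.mem_nthRootsFinset (by norm_num)]
    exact hz
  have hinj : Function.Injective (fun w : Γ₀ => ((toK w : K) : ℂ)) := fun w v h =>
    toK_injective (Subtype.ext h)
  apply (hfin.preimage (hinj.injOn)).subset
  intro w hw
  change ((toK w : K) : ℂ) ^ 6 = 1
  have hn := toK_norm w
  have hw' : ‖((toK w : K) : ℂ) + 1‖ = 0 ∨ ‖((toK w : K) : ℂ) + 1‖ = 1 := hw
  set z : ℂ := ((toK w : K) : ℂ) with hz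
  rcases hw' with h | h
  · have h1 : z = -1 := eq_neg_of_add_eq_zero_left (norm_eq_zero.1 h)
    rw [h1]; norm_num
  · have h1 : z * conj z = 1 := by
      rw [Complex.mul_conj, Complex.normSq_eq_norm_sq, hn]; norm_num
    have h2 : (z + 1) * conj (z + 1) = 1 := by
      rw [Complex.mul_conj, Complex.normSq_eq_norm_sq, h]; norm_num
    rw [map_add, map_one] at h2
    have h3 : z ^ 2 + z + 1 = 0 := by
      have h4 : z + conj z + 1 = 0 := by linear_combination h2 - h1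
      linear_combination z * h4 - h1
    have h5 : z ^ 6 - 1 = (z ^ 2 + z + 1) * (z - 1) * (z ^ 3 + 1) := by ring
    rw [h3] at h5
    linear_combination h5

end Dadc30
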