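import Pool.Agent.Lib.MP_dadc30_co.LawDefs
import Pool.Agent.Lib.MP_dadc30_co.Chars
import Pool.Agent.Lib.MP_dadc30_co.Geo

/-!
# MP_dadc30_co, module Field1: discretized random fields and their second moments.

For `n ≥ 1`: `grid n x = (⌊n Re x⌋ + i ⌊n Im x⌋)/n ∈ K`; `D n : Finset K`, `n` elements of norm
`≤ 1/n` (e.g. `k/n²`, `k < n`); `Hn n (ω, x) = (1/n) ∑_{t ∈ D n} 1[ω (grid n x + t)]`.
`second_moment`: `∫ Hn n (ω,x) Hn m (ω,y) dP = (1/(nm)) ∑_{t,t'} pp P (grid n x + t) (grid m y + t')`;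
all terms with different points equal `g(grid n x - grid m y + t - t')`, at most `min(n,m)` of the
`nm` pairs have equal points (error ≤ |p - g 0|... each bounded by a constant `C`); uniform
continuity of `g`.  Here for `v ∈ K`, `x, y : ℂ` with `x - y` close to `v`. -/

open MeasureTheory ProbabilityTheory Filter Topology
open scoped ENNReal ComplexConjugate

namespace Dadc30

/-- grid point -/
noncomputable def gridC (n : ℕ) (x : ℂ) : ℂ :=
  ((⌊(n : ℝ) * x.re⌋ : ℤ) / (n : ℂ)) + ((⌊(n : ℝ) * x.im⌋ : ℤ) / (n : ℂ)) * Complex.I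

theorem gridC_mem (n : ℕ) (x : ℂ) : gridC n x ∈ Falg := by
  unfold gridC
  refine Falg.add_mem (Falg.div_mem (intCast_mem _ _) (natCast_mem _ _))
    (Falg.mul_mem (Falg.div_mem (intCast_mem _ _) (natCast_mem _ _)) Geo_I)

/-- grid point in `K` -/
noncomputable def grid (n : ℕ) (x : ℂ) : K := ⟨gridC n x, gridC_mem n x⟩

theorem Field1_floor (n : ℕ) (hn : 0 < n) (a : ℝ) : |(⌊(n : ℝ) * a⌋ : ℝ) / n - a| ≤ 1 / n := by
  have hn' : (0 : ℝ) < n := by exact_mod_cast hn
  have h1 := Int.floor_le ((n : ℝ) * a)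
  have h2 := Int.lt_floor_add_one ((n : ℝ) * a)
  rw [abs_le]
  constructor
  · rw [neg_le_sub_iff_le_add, ← add_div, le_div_iff₀ hn']
    linarith
  · rw [sub_le_iff_le_add, div_le_iff₀ hn', add_mul, one_div_mul_cancel hn'.ne']
    linarith

theorem gridC_re (n : ℕ) (x : ℂ) : (gridC n x).re = (⌊(n : ℝ) * x.re⌋ : ℝ) / n := by
  have h : gridC n x = (((⌊(n : ℝ) * x.re⌋ : ℝ) / n : ℝ) : ℂ) +
      (((⌊(n : ℝ) * x.im⌋ : ℝ) / n : ℝ) : ℂ) * Complex.I := by
    unfold gridC
    push_cast
    rfl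
  rw [h]
  simp

theorem gridC_im (n : ℕ) (x : ℂ) : (gridC n x).im = (⌊(n : ℝ) * x.im⌋ : ℝ) / n := by
  have h : gridC n x = (((⌊(n : ℝ) * x.re⌋ : ℝ) / n : ℝ) : ℂ) +
      (((⌊(n : ℝ) * x.im⌋ : ℝ) / n : ℝ) : ℂ) * Complex.I := by
    unfold gridC
    push_cast
    rfl
  rw [h]
  simp

theorem grid_close (n : ℕ) (hn : 0 < n) (x : ℂ) : ‖((grid n x : K) : ℂ) - x‖ ≤ 2 / n := by
  show ‖gridC n x - x‖ ≤ 2 / n
  refine (Complex.norm_le_abs_re_add_abs_im _).trans ?_
  rw [Complex.sub_re, Complex.sub_im, gridC_re, gridC_im]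
  have h1 := Field1_floor n hn x.re
  have h2 := Field1_floor n hn x.im
  have h3 : (2 : ℝ) / n = 1 / n + 1 / n := by ring
  rw [h3]
  exact add_le_add h1 h2

/-- the discretized field -/
noncomputable def Hn (n : ℕ) (q : (K → Bool) × ℂ) : ℝ :=
  (n : ℝ)⁻¹ * ∑ k ∈ Finset.range n,
    (if q.1 (grid n q.2 + (k : K) / ((n : K) ^ 2)) = true then 1 else 0)

theorem Field1_measurable_floor (n : ℕ) {f : ℂ → ℝ} (hf : Measurable f) :
    Measurable fun x : ℂ => ((⌊(n : ℝ) * f x⌋ : ℤ) : ℂ) :=
  (measurable_from_top (f := fun k : ℤ => (k : ℂ))).comp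
    (Int.measurable_floor.comp (hf.const_mul (n : ℝ)))

theorem Field1_measurable_gridC (n : ℕ) : Measurable (gridC n) :=
  ((Field1_measurable_floor n Complex.measurable_re).div_const _).add
    (((Field1_measurable_floor n Complex.measurable_im).div_const _).mul_const _)

theorem Hn_measurable (n : ℕ) : Measurable (Hn n) := by
  unfold Hn
  refine Measurable.const_mul (Finset.measurable_sum _ fun k _ => ?_) _
  refine Measurable.ite ?_ measurable_const measurable_const
  have h : {q : (K → Bool) × ℂ | q.1 (grid n q.2 + (k : K) / ((n : K) ^ 2)) = true} =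
      ⋃ a : K, ({q : (K → Bool) × ℂ | gridC n q.2 = ((a - (k : K) / ((n : K) ^ 2) : K) : ℂ)} ∩
        {q | q.1 a = true}) := by
    ext q
    simp only [Set.mem_iUnion, Set.mem_inter_iff, Set.mem_ofPred_eq]
    constructor
    · intro hq
      refine ⟨grid n q.2 + (k : K) / ((n : K) ^ 2), ?_, hq⟩
      rw [add_sub_cancel_right]
      rfl
    · rintro ⟨a, h1, h2⟩
      have h3 : grid n q.2 = a - (k : K) / ((n : K) ^ 2) := Subtype.ext h1
      rw [h3, sub_add_cancel]
      exact h2
  rw [h]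
  refine MeasurableSet.iUnion fun a => ?_
  refine MeasurableSet.inter ?_ ?_
  · exact ((Field1_measurable_gridC n).comp measurable_snd) (measurableSet_singleton _)
  · exact measurableSet_eq_fun ((measurable_pi_apply (X := fun _ : K => Bool) a).comp
      measurable_fst) measurable_const

theorem Hn_bounds (n : ℕ) (q : (K → Bool) × ℂ) : 0 ≤ Hn n q ∧ Hn n q ≤ 1 := by
  unfold Hn
  constructor
  · refine mul_nonneg (by positivity) (Finset.sum_nonneg fun k _ => ?_)
    split_ifs <;> norm_num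
  · have h1 : (∑ k ∈ Finset.range n,
        (if q.1 (grid n q.2 + (k : K) / ((n : K) ^ 2)) = true then (1 : ℝ) else 0)) ≤ n := by
      calc _ ≤ ∑ _k ∈ Finset.range n, (1 : ℝ) := Finset.sum_le_sum fun k _ => by
            split_ifs <;> norm_num
        _ = n := by simp
    rcases Nat.eq_zero_or_pos n with hn | hn
    · subst hn
      simp
    · have hn' : (0 : ℝ) < n := by exact_mod_cast hn
      calc _ ≤ (n : ℝ)⁻¹ * n := mul_le_mul_of_nonneg_left h1 (by positivity)
        _ = 1 := inv_mul_cancel₀ hn'.ne'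

theorem Field1_meas_eval (a : K) : MeasurableSet {ω : K → Bool | ω a = true} :=
  measurableSet_eq_fun (measurable_pi_apply (X := fun _ : K => Bool) a) measurable_const

theorem Field1_int_mul (P : Measure (K → Bool)) [IsProbabilityMeasure P] (a b : K) :
    ∫ ω : K → Bool, (if ω a = true then (1 : ℝ) else 0) * (if ω b = true then (1 : ℝ) else 0) ∂P =
      pp P a b := by
  have h : (fun ω : K → Bool => (if ω a = true then (1 : ℝ) else 0) *
      (if ω b = true then (1 : ℝ) else 0)) =
      ({ω : K → Bool | ω a = true ∧ ω b = true}).indicator (fun _ => (1 : ℝ)) := by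
    funext ω
    by_cases h1 : ω a = true <;> by_cases h2 : ω b = true <;>
      simp [Set.indicator, h1, h2]
  rw [h, integral_indicator_const]
  · simp [pp, Measure.real]
  · exact (Field1_meas_eval a).inter (Field1_meas_eval b)

theorem Field1_integrable (P : Measure (K → Bool)) [IsProbabilityMeasure P] (a : K) :
    Integrable (fun ω : K → Bool => (if ω a = true then (1 : ℝ) else 0)) P := by
  refine Integrable.of_bound (C := 1) ?_ (Eventually.of_forall fun ω => ?_)
  · exact (Measurable.ite (Field1_meas_eval a) measurable_const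
      measurable_const).aestronglyMeasurable
  · split_ifs <;> norm_num

theorem Field1_integrable2 (P : Measure (K → Bool)) [IsProbabilityMeasure P] (a b : K) :
    Integrable (fun ω : K → Bool => (if ω a = true then (1 : ℝ) else 0) *
      (if ω b = true then (1 : ℝ) else 0)) P := by
  refine Integrable.of_bound (C := 1) ?_ (Eventually.of_forall fun ω => ?_)
  · exact ((Measurable.ite (Field1_meas_eval a) measurable_const measurable_const).mul
      (Measurable.ite (Field1_meas_eval b) measurable_const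
        measurable_const)).aestronglyMeasurable
  · split_ifs <;> norm_num

theorem Field1_int_one (P : Measure (K → Bool)) [IsProbabilityMeasure P] (a : K) :
    ∫ ω : K → Bool, (if ω a = true then (1 : ℝ) else 0) ∂P = pp P a a := by
  rw [← Field1_int_mul P a a]
  congr 1
  funext ω
  split_ifs <;> norm_num

theorem Hn_mean (P : Measure (K → Bool)) [IsProbabilityMeasure P] {p : ℝ}
    (hp : ∀ a, pp P a a = p) (n : ℕ) (hn : 0 < n) (x : ℂ) : ∫ ω, Hn n (ω, x) ∂P = p := by
  unfold Hn
  simp only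
  rw [integral_const_mul, integral_finsetSum]
  · simp only [Field1_int_one, hp]
    rw [Finset.sum_const, Finset.card_range, nsmul_eq_mul, ← mul_assoc,
      inv_mul_cancel₀ (by exact_mod_cast hn.ne'), one_mul]
  · intro k _
    exact Field1_integrable P _

theorem Field1_pp_bound (P : Measure (K → Bool)) [IsProbabilityMeasure P] (a b : K) :
    0 ≤ pp P a b ∧ pp P a b ≤ 1 := by
  unfold pp
  refine ⟨ENNReal.toReal_nonneg, ?_⟩
  have h := prob_le_one (μ := P) (s := {ω | ω a = true ∧ ω b = true})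
  exact ENNReal.toReal_le_of_le_ofReal zero_le_one (by simpa using h)

/-- the second moment as a double sum -/
theorem Field1_moment (P : Measure (K → Bool)) [IsProbabilityMeasure P] (n m : ℕ) (x y : ℂ) :
    ∫ ω, Hn n (ω, x) * Hn m (ω, y) ∂P = (n : ℝ)⁻¹ * (m : ℝ)⁻¹ *
      ∑ k ∈ Finset.range n, ∑ l ∈ Finset.range m,
        pp P (grid n x + (k : K) / ((n : K) ^ 2)) (grid m y + (l : K) / ((m : K) ^ 2)) := by
  have h : ∀ ω : K → Bool, Hn n (ω, x) * Hn m (ω, y) = (n : ℝ)⁻¹ * (m : ℝ)⁻¹ *
      ∑ k ∈ Finset.range n, ∑ l ∈ Finset.range m,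
        (if ω (grid n x + (k : K) / ((n : K) ^ 2)) = true then (1 : ℝ) else 0) *
        (if ω (grid m y + (l : K) / ((m : K) ^ 2)) = true then (1 : ℝ) else 0) := by
    intro ω
    unfold Hn
    rw [← Finset.sum_mul_sum]
    ring
  simp only [h]
  rw [integral_const_mul, integral_finsetSum]
  · congr 1
    refine Finset.sum_congr rfl fun k _ => ?_
    rw [integral_finsetSum]
    · refine Finset.sum_congr rfl fun l _ => ?_
      exact Field1_int_mul P _ _
    · intro l _
      exact Field1_integrable2 P _ _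
  · intro k _
    exact integrable_finsetSum _ fun l _ => Field1_integrable2 P _ _

/-- the shifts `k / n²` have norm at most `1/n` -/
theorem Field1_shift (n k : ℕ) (hk : k < n) : ‖(((k : K) / ((n : K) ^ 2) : K) : ℂ)‖ ≤ 1 / n := by
  have hn : (0 : ℝ) < n := by
    have : 0 < n := by omega
    exact_mod_cast this
  have h1 : (((k : K) / ((n : K) ^ 2) : K) : ℂ) = (k : ℂ) / (n : ℂ) ^ 2 := by
    push_cast
    rfl
  rw [h1, norm_div, norm_pow, Complex.norm_natCast, Complex.norm_natCast, div_le_div_iff₀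
    (by positivity) hn]
  have h2 : (k : ℝ) ≤ n := by exact_mod_cast hk.le
  nlinarith

theorem Field1_inj (m : ℕ) (hm : 0 < m) (c : K) {l l' : ℕ}
    (h : c + (l : K) / ((m : K) ^ 2) = c + (l' : K) / ((m : K) ^ 2)) : l = l' := by
  have h1 : (l : K) / ((m : K) ^ 2) = (l' : K) / ((m : K) ^ 2) := add_left_cancel h
  have hm' : ((m : K) ^ 2) ≠ 0 := pow_ne_zero _ (by exact_mod_cast hm.ne')
  have h2 : (l : K) = (l' : K) := by
    rwa [div_left_inj' hm'] at h1
  exact_mod_cast h2

/-- second moments converge: for every `v : K` and `ε > 0` there are `N` and `δ > 0` with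
`|∫ Hn n (ω,x) Hn m (ω,y) dP - g v| < ε` for all `n, m ≥ N` and all `x, y : ℂ` with
`|x - y - v| < δ`. -/
theorem second_moment (P : Measure (K → Bool)) [IsProbabilityMeasure P] {p : ℝ}
    (hp : ∀ a, pp P a a = p) (g : K → ℝ) (hg : ∀ a b : K, a ≠ b → pp P a b = g (a - b))
    (hgc : ∀ ε > (0 : ℝ), ∃ δ > (0 : ℝ), ∀ z z' : K, ‖((z - z' : K) : ℂ)‖ < δ → |g z - g z'| < ε)
    (v : K) (ε : ℝ) (hε : 0 < ε) :
    ∃ (N : ℕ) (δ : ℝ), 0 < δ ∧ ∀ n m, N ≤ n → N ≤ m → ∀ x y : ℂ, ‖x - y - (v : ℂ)‖ < δ →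
      |(∫ ω, Hn n (ω, x) * Hn m (ω, y) ∂P) - g v| < ε := by
  obtain ⟨η, hη, hgη⟩ := hgc (ε / 2) (by positivity)
  set C : ℝ := 1 + |g v| with hC
  have hC0 : 0 < C := by
    have := abs_nonneg (g v)
    linarith
  obtain ⟨N1, hN1⟩ := exists_nat_gt (12 / η)
  obtain ⟨N2, hN2⟩ := exists_nat_gt (2 * C / ε)
  refine ⟨N1 + N2 + 1, η / 2, by positivity, ?_⟩
  intro n m hn hm x y hxy
  have hn1 : 0 < n := by omega
  have hm1 : 0 < m := by omega
  have hn' : (0 : ℝ) < n := by exact_mod_cast hn1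
  have hm' : (0 : ℝ) < m := by exact_mod_cast hm1
  have hnN : (N1 : ℝ) ≤ n := by exact_mod_cast (by omega : N1 ≤ n)
  have hmN : (N1 : ℝ) ≤ m := by exact_mod_cast (by omega : N1 ≤ m)
  have hmN2 : (N2 : ℝ) ≤ m := by exact_mod_cast (by omega : N2 ≤ m)
  have h3n : 3 / (n : ℝ) < η / 4 := by
    rw [div_lt_iff₀ hn']
    have : 12 / η < n := hN1.trans_le hnN
    rw [div_lt_iff₀ hη] at this
    linarith
  have h3m : 3 / (m : ℝ) < η / 4 := by
    rw [div_lt_iff₀ hm']
    have : 12 / η < m := hN1.trans_le hmN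
    rw [div_lt_iff₀ hη] at this
    linarith
  have hCm : C / m < ε / 2 := by
    rw [div_lt_iff₀ hm']
    have : 2 * C / ε < m := hN2.trans_le hmN2
    rw [div_lt_iff₀ hε] at this
    linarith
  -- the points
  set a : ℕ → K := fun k => grid n x + (k : K) / ((n : K) ^ 2) with ha
  set b : ℕ → K := fun l => grid m y + (l : K) / ((m : K) ^ 2) with hb
  -- one term
  have hterm : ∀ k < n, ∀ l < m, |pp P (a k) (b l) - g v| ≤
      ε / 2 + C * (if b l = a k then 1 else 0) := by
    intro k hk l hl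
    by_cases hab : b l = a k
    · rw [if_pos hab]
      have h1 := Field1_pp_bound P (a k) (b l)
      have h2 : |pp P (a k) (b l) - g v| ≤ |pp P (a k) (b l)| + |g v| := abs_sub _ _
      rw [abs_of_nonneg h1.1] at h2
      linarith
    · rw [if_neg hab, mul_zero, add_zero, hg _ _ (fun h => hab h.symm)]
      refine (hgη _ _ ?_).le
      have e1 : ((a k - b l - v : K) : ℂ) = (((grid n x : K) : ℂ) - x) -
          (((grid m y : K) : ℂ) - y) + (x - y - v) + (((k : K) / ((n : K) ^ 2) : K) : ℂ) -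
          (((l : K) / ((m : K) ^ 2) : K) : ℂ) := by
        simp only [ha, hb]
        push_cast
        ring
      rw [e1]
      have f1 := grid_close n hn1 x
      have f2 := grid_close m hm1 y
      have f3 := Field1_shift n k hk
      have f4 := Field1_shift m l hl
      have g1 := norm_sub_le ((((grid n x : K) : ℂ) - x) -
          (((grid m y : K) : ℂ) - y) + (x - y - v) + (((k : K) / ((n : K) ^ 2) : K) : ℂ))
          (((l : K) / ((m : K) ^ 2) : K) : ℂ)
      have g2 := norm_add_le ((((grid n x : K) : ℂ) - x) -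
          (((grid m y : K) : ℂ) - y) + (x - y - v)) (((k : K) / ((n : K) ^ 2) : K) : ℂ)
      have g3 := norm_add_le ((((grid n x : K) : ℂ) - x) -
          (((grid m y : K) : ℂ) - y)) (x - y - v)
      have g4 := norm_sub_le (((grid n x : K) : ℂ) - x) (((grid m y : K) : ℂ) - y)
      have s1 : (3 : ℝ) / n = 2 / n + 1 / n := by ring
      have s2 : (3 : ℝ) / m = 2 / m + 1 / m := by ring
      linarith
  -- inner sums
  have hinner : ∀ k < n, ∑ l ∈ Finset.range m, |pp P (a k) (b l) - g v| ≤ m * (ε / 2) + C := by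
    intro k hk
    calc ∑ l ∈ Finset.range m, |pp P (a k) (b l) - g v|
        ≤ ∑ l ∈ Finset.range m, (ε / 2 + C * (if b l = a k then 1 else 0)) :=
          Finset.sum_le_sum fun l hl => hterm k hk l (Finset.mem_range.1 hl)
      _ = m * (ε / 2) + C * ∑ l ∈ Finset.range m, (if b l = a k then (1 : ℝ) else 0) := by
          rw [Finset.sum_add_distrib, ← Finset.mul_sum, Finset.sum_const, Finset.card_range,
            nsmul_eq_mul]
      _ ≤ m * (ε / 2) + C * 1 := by
          have hcard : ((Finset.range m).filter (fun l => b l = a k)).card ≤ 1 := by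
            rw [Finset.card_le_one]
            intro l hl l' hl'
            rw [Finset.mem_filter] at hl hl'
            exact Field1_inj m hm1 (grid m y) (hl.2.trans hl'.2.symm)
          have hsum : ∑ l ∈ Finset.range m, (if b l = a k then (1 : ℝ) else 0) ≤ 1 := by
            rw [Finset.sum_ite, Finset.sum_const_zero, add_zero, Finset.sum_const, nsmul_eq_mul,
              mul_one]
            exact_mod_cast hcard
          have := mul_le_mul_of_nonneg_left hsum hC0.le
          linarith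
      _ = m * (ε / 2) + C := by ring
  rw [Field1_moment]
  have hgv : g v = (n : ℝ)⁻¹ * (m : ℝ)⁻¹ * ∑ _k ∈ Finset.range n, ∑ _l ∈ Finset.range m, g v := by
    rw [Finset.sum_const, Finset.sum_const, Finset.card_range, Finset.card_range, nsmul_eq_mul,
      nsmul_eq_mul]
    field_simp
  have hdiff : (n : ℝ)⁻¹ * (m : ℝ)⁻¹ * ∑ k ∈ Finset.range n, ∑ l ∈ Finset.range m,
      pp P (a k) (b l) - g v = (n : ℝ)⁻¹ * (m : ℝ)⁻¹ * ∑ k ∈ Finset.range n,
        ∑ l ∈ Finset.range m, (pp P (a k) (b l) - g v) := by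
    conv_lhs => rw [hgv]
    rw [← mul_sub, ← Finset.sum_sub_distrib]
    congr 1
    refine Finset.sum_congr rfl fun k _ => ?_
    rw [← Finset.sum_sub_distrib]
  rw [hdiff, abs_mul, abs_of_nonneg (by positivity : (0 : ℝ) ≤ (n : ℝ)⁻¹ * (m : ℝ)⁻¹)]
  have hbound : |∑ k ∈ Finset.range n, ∑ l ∈ Finset.range m, (pp P (a k) (b l) - g v)| ≤
      n * (m * (ε / 2) + C) := by
    calc |∑ k ∈ Finset.range n, ∑ l ∈ Finset.range m, (pp P (a k) (b l) - g v)|
        ≤ ∑ k ∈ Finset.range n, |∑ l ∈ Finset.range m, (pp P (a k) (b l) - g v)| :=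
          Finset.abs_sum_le_sum_abs _ _
      _ ≤ ∑ k ∈ Finset.range n, ∑ l ∈ Finset.range m, |pp P (a k) (b l) - g v| :=
          Finset.sum_le_sum fun k _ => Finset.abs_sum_le_sum_abs _ _
      _ ≤ ∑ _k ∈ Finset.range n, (m * (ε / 2) + C) :=
          Finset.sum_le_sum fun k hk => hinner k (Finset.mem_range.1 hk)
      _ = n * (m * (ε / 2) + C) := by
          rw [Finset.sum_const, Finset.card_range, nsmul_eq_mul]
  calc (n : ℝ)⁻¹ * (m : ℝ)⁻¹ * |∑ k ∈ Finset.range n, ∑ l ∈ Finset.range m,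
        (pp P (a k) (b l) - g v)|
      ≤ (n : ℝ)⁻¹ * (m : ℝ)⁻¹ * (n * (m * (ε / 2) + C)) :=
        mul_le_mul_of_nonneg_left hbound (by positivity)
    _ = ε / 2 + C / m := by field_simp
    _ < ε := by linarith

end Dadc30
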