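import Pool.Agent.Lib.MP_dadc30_co.Defs

/-!
# MP_dadc30_co, module Tile: periodic extension.

`A' = ⋃_{(m,n) ∈ ℤ²} (A + (2R+2)(m + n i))`: different cells are at distance `≥ 2`, so `A'`
avoids distance 1.  `sqBox R'` contains at least `(⌊R'/(R+1)⌋ - 1)²`-many full cells (any crude
count of the right order), so `upDens A' ≥ |A|/(2R+2)²` (it is a limit).  `upDens ≤ 1` for every
set, so the supremum `m1C` is over a bounded set. -/

open MeasureTheory ProbabilityTheory Filter Topology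
open scoped ENNReal ComplexConjugate

namespace Dadc30

theorem tile_sqBox_eq (R : ℝ) : sqBox R =
    Complex.measurableEquivRealProd ⁻¹' (Set.Icc (-R) R ×ˢ Set.Icc (-R) R) := by
  ext z
  simp only [sqBox, Set.mem_ofPred_eq, Set.mem_preimage, Set.mem_prod, Set.mem_Icc,
    Complex.measurableEquivRealProd_apply, abs_le]

theorem volume_sqBox (R : ℝ) (hR : 0 ≤ R) : volume (sqBox R) = ENNReal.ofReal ((2 * R) ^ 2) := by
  rw [tile_sqBox_eq, Complex.volume_preserving_equiv_real_prod.measure_preimage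
    (measurableSet_Icc.prod measurableSet_Icc).nullMeasurableSet, Measure.volume_eq_prod,
    Measure.prod_prod, Real.volume_Icc, ← ENNReal.ofReal_mul (by linarith)]
  congr 1
  ring

theorem measurableSet_sqBox (R : ℝ) : MeasurableSet (sqBox R) := by
  rw [tile_sqBox_eq]
  exact Complex.measurableEquivRealProd.measurable (measurableSet_Icc.prod measurableSet_Icc)

theorem tile_vol_le (A : Set ℂ) (R : ℝ) (hR : 0 ≤ R) :
    (volume (A ∩ sqBox R)).toReal ≤ (2 * R) ^ 2 := by
  have h1 : volume (A ∩ sqBox R) ≤ ENNReal.ofReal ((2 * R) ^ 2) := by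
    rw [← volume_sqBox R hR]
    exact measure_mono Set.inter_subset_right
  exact ENNReal.toReal_le_of_le_ofReal (by positivity) h1

theorem tile_ratio_nonneg (A : Set ℂ) (R : ℝ) :
    0 ≤ (volume (A ∩ sqBox R)).toReal / (2 * R) ^ 2 :=
  div_nonneg ENNReal.toReal_nonneg (by positivity)

theorem tile_ratio_le (A : Set ℂ) :
    ∀ᶠ R : ℝ in atTop, (volume (A ∩ sqBox R)).toReal / (2 * R) ^ 2 ≤ 1 := by
  filter_upwards [eventually_gt_atTop 0] with R hR
  rw [div_le_one (by positivity)]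
  exact tile_vol_le A R hR.le

theorem tile_bdd (A : Set ℂ) : IsBoundedUnder (· ≤ ·) atTop
    (fun R : ℝ => (volume (A ∩ sqBox R)).toReal / (2 * R) ^ 2) :=
  ⟨1, by simpa using tile_ratio_le A⟩

theorem upDens_nonneg (A : Set ℂ) : 0 ≤ upDens A := by
  unfold upDens
  exact le_limsup_of_frequently_le
    (Frequently.of_forall fun R => tile_ratio_nonneg A R) (tile_bdd A)

theorem upDens_le_one (A : Set ℂ) : upDens A ≤ 1 := by
  unfold upDens
  refine limsup_le_of_le ?_ (tile_ratio_le A)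
  exact IsBoundedUnder.isCoboundedUnder_le
    (isBoundedUnder_of ⟨0, fun R => tile_ratio_nonneg A R⟩)

theorem upDens_le_m1C {A : Set ℂ} (hA : MeasurableSet A) (h : Avoids A) : upDens A ≤ m1C := by
  unfold m1C
  refine le_csSup ⟨1, ?_⟩ ⟨A, hA, h, rfl⟩
  rintro d ⟨B, _, _, rfl⟩
  exact upDens_le_one B

theorem m1C_nonneg : 0 ≤ m1C :=
  (upDens_nonneg ∅).trans (upDens_le_m1C MeasurableSet.empty fun x hx => absurd hx (by simp))

/-- the cell of `A` with the index `p` -/
def tileCell (L : ℝ) (A : Set ℂ) (p : ℤ × ℤ) : Set ℂ :=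
  (fun z : ℂ => z + -(⟨L * p.1, L * p.2⟩ : ℂ)) ⁻¹' A

theorem tileCell_meas (L : ℝ) {A : Set ℂ} (hA : MeasurableSet A) (p : ℤ × ℤ) :
    MeasurableSet (tileCell L A p) :=
  (measurable_add_const _) hA

theorem tileCell_vol (L : ℝ) (A : Set ℂ) (p : ℤ × ℤ) : volume (tileCell L A p) = volume A :=
  measure_preimage_add_right volume _ A

theorem tileCell_coord {R : ℝ} {A : Set ℂ} (hAR : A ⊆ sqBox R) {p : ℤ × ℤ} {z : ℂ}
    {L : ℝ} (hz : z ∈ tileCell L A p) : |z.re - L * p.1| ≤ R ∧ |z.im - L * p.2| ≤ R := by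
  have h := hAR hz
  simpa [sqBox, sub_eq_add_neg] using h

theorem tileCell_far {R : ℝ} {A : Set ℂ} (hAR : A ⊆ sqBox R) {p q : ℤ × ℤ} (hpq : p ≠ q)
    {z w : ℂ} (hR : 0 < R) (hz : z ∈ tileCell (2 * R + 2) A p)
    (hw : w ∈ tileCell (2 * R + 2) A q) : 2 ≤ dist z w := by
  have hz' := tileCell_coord hAR hz
  have hw' := tileCell_coord hAR hw
  have key : ∀ (a b : ℤ) (s t : ℝ), a ≠ b → |s - (2 * R + 2) * a| ≤ R →
      |t - (2 * R + 2) * b| ≤ R → 2 ≤ |s - t| := by
    intro a b s t hab h1 h2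
    have h3 : (1 : ℝ) ≤ |(a : ℝ) - b| := by
      have : (1 : ℤ) ≤ |a - b| := Int.one_le_abs (sub_ne_zero.mpr hab)
      exact_mod_cast this
    have h4 : (2 * R + 2) * |(a : ℝ) - b| = |(2 * R + 2) * a - (2 * R + 2) * b| := by
      rw [← mul_sub, abs_mul, abs_of_pos (by linarith : (0 : ℝ) < 2 * R + 2)]
    have h5 : |(2 * R + 2) * (a : ℝ) - (2 * R + 2) * b| ≤
        |s - (2 * R + 2) * a| + |s - t| + |t - (2 * R + 2) * b| := by
      have : (2 * R + 2) * (a : ℝ) - (2 * R + 2) * b =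
        -(s - (2 * R + 2) * a) + (s - t) + (t - (2 * R + 2) * b) := by ring
      rw [this]
      refine (abs_add_le _ _).trans (add_le_add ((abs_add_le _ _).trans ?_) le_rfl)
      rw [abs_neg]
    nlinarith
  rw [Complex.dist_eq]
  by_cases h1 : p.1 = q.1
  · have h2 : p.2 ≠ q.2 := fun h2 => hpq (Prod.ext h1 h2)
    exact (key _ _ _ _ h2 hz'.2 hw'.2).trans (by simpa using Complex.abs_im_le_norm (z - w))
  · exact (key _ _ _ _ h1 hz'.1 hw'.1).trans (by simpa using Complex.abs_re_le_norm (z - w))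

theorem tile_count {R : ℝ} (hR : 0 < R) {A : Set ℂ} (hA : MeasurableSet A) (hAR : A ⊆ sqBox R)
    (k : ℕ) {R' : ℝ} (hk : (2 * R + 2) * k + R ≤ R') :
    (2 * (k : ℝ) + 1) ^ 2 * (volume A).toReal ≤
      (volume ((⋃ p : ℤ × ℤ, tileCell (2 * R + 2) A p) ∩ sqBox R')).toReal := by
  classical
  let T : Finset (ℤ × ℤ) := Finset.Icc (-(k : ℤ)) k ×ˢ Finset.Icc (-(k : ℤ)) k
  have hT : T.card = (2 * k + 1) ^ 2 := by
    rw [Finset.card_product, Int.card_Icc, sq]
    congr 1 <;> omega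
  have hsub : (⋃ p ∈ T, tileCell (2 * R + 2) A p) ⊆
      (⋃ p : ℤ × ℤ, tileCell (2 * R + 2) A p) ∩ sqBox R' := by
    intro z hz
    simp only [Set.mem_iUnion] at hz
    obtain ⟨p, hp, hz⟩ := hz
    refine ⟨Set.mem_iUnion.mpr ⟨p, hz⟩, ?_⟩
    have hc := tileCell_coord hAR hz
    rw [Finset.mem_product, Finset.mem_Icc, Finset.mem_Icc] at hp
    have key : ∀ (s : ℝ) (a : ℤ), |s - (2 * R + 2) * a| ≤ R → -(k : ℤ) ≤ a → a ≤ k →
        |s| ≤ R' := by
      intro s a h1 h2 h3
      have h4 : |(a : ℝ)| ≤ k := by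
        rw [abs_le]
        constructor
        · exact_mod_cast h2
        · exact_mod_cast h3
      have h5 : |s| ≤ |s - (2 * R + 2) * a| + |(2 * R + 2) * (a : ℝ)| := by
        have : s = (s - (2 * R + 2) * a) + (2 * R + 2) * a := by ring
        calc |s| = |(s - (2 * R + 2) * a) + (2 * R + 2) * a| := by rw [← this]
          _ ≤ _ := abs_add_le _ _
      rw [abs_mul, abs_of_pos (by linarith : (0 : ℝ) < 2 * R + 2)] at h5
      have h6 : (2 * R + 2) * |(a : ℝ)| ≤ (2 * R + 2) * k :=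
        mul_le_mul_of_nonneg_left h4 (by linarith)
      linarith
    exact ⟨key _ _ hc.1 hp.1.1 hp.1.2, key _ _ hc.2 hp.2.1 hp.2.2⟩
  have hvol : volume (⋃ p ∈ T, tileCell (2 * R + 2) A p) = ((2 * k + 1) ^ 2 : ℕ) * volume A := by
    rw [measure_biUnion_finset ?_ fun p _ => tileCell_meas _ hA p]
    · simp only [tileCell_vol, Finset.sum_const, hT, nsmul_eq_mul]
    · intro p _ q _ hpq
      rw [Function.onFun, Set.disjoint_left]
      intro z hz hz'
      have := tileCell_far hAR hpq hR hz hz'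
      rw [dist_self] at this
      linarith
  have hfin : volume ((⋃ p : ℤ × ℤ, tileCell (2 * R + 2) A p) ∩ sqBox R') ≠ ⊤ := by
    have hR' : 0 ≤ R' := by
      have : (0 : ℝ) ≤ (2 * R + 2) * k := by positivity
      linarith
    refine ne_top_of_le_ne_top ?_ (measure_mono Set.inter_subset_right)
    rw [volume_sqBox R' hR']
    exact ENNReal.ofReal_ne_top
  have hle := ENNReal.toReal_mono hfin (measure_mono hsub)
  rw [hvol, ENNReal.toReal_mul, ENNReal.toReal_natCast] at hle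
  push_cast at hle
  exact hle

theorem tile (R : ℝ) (hR : 0 < R) (A : Set ℂ) (hA : MeasurableSet A) (hAR : A ⊆ sqBox R)
    (h : Avoids A) : (volume A).toReal / (2 * R + 2) ^ 2 ≤ m1C := by
  set A' : Set ℂ := ⋃ p : ℤ × ℤ, tileCell (2 * R + 2) A p with hA'
  have hmeas : MeasurableSet A' := MeasurableSet.iUnion fun p => tileCell_meas _ hA p
  have havoid : Avoids A' := by
    intro x hx y hy hxy
    obtain ⟨p, hp⟩ := Set.mem_iUnion.mp hx
    obtain ⟨q, hq⟩ := Set.mem_iUnion.mp hy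
    by_cases hpq : p = q
    · subst hpq
      refine h _ hp _ hq ?_
      rw [dist_add_right]
      exact hxy
    · have := tileCell_far hAR hpq hR hp hq
      linarith
  refine le_trans ?_ (upDens_le_m1C hmeas havoid)
  -- the lower bound for the density
  set L : ℝ := 2 * R + 2 with hL
  have hLpos : 0 < L := by linarith
  set a : ℝ := (volume A).toReal with ha
  have ha0 : 0 ≤ a := ENNReal.toReal_nonneg
  have hlow : (fun R' : ℝ => (2 * ((R' - R) / L) - 1) ^ 2 * a / (2 * R') ^ 2) ≤ᶠ[atTop]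
      fun R' : ℝ => (volume (A' ∩ sqBox R')).toReal / (2 * R') ^ 2 := by
    filter_upwards [eventually_ge_atTop (R + L), eventually_gt_atTop 0] with R' h1 h2
    refine div_le_div_of_nonneg_right ?_ (by positivity)
    set k : ℕ := ⌊(R' - R) / L⌋₊ with hk
    have hq : 1 ≤ (R' - R) / L := by rw [le_div_iff₀ hLpos]; linarith
    have hk1 : (k : ℝ) ≤ (R' - R) / L := Nat.floor_le (by linarith)
    have hk2 : (R' - R) / L < k + 1 := Nat.lt_floor_add_one _
    have hk3 : L * k + R ≤ R' := by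
      have : L * k ≤ L * ((R' - R) / L) := mul_le_mul_of_nonneg_left hk1 hLpos.le
      rw [mul_div_cancel₀ _ hLpos.ne'] at this
      linarith
    have hcount := tile_count hR hA hAR k (R' := R') hk3
    refine le_trans ?_ hcount
    refine mul_le_mul_of_nonneg_right ?_ ha0
    exact pow_le_pow_left₀ (by linarith) (by linarith) 2
  have hlim : Tendsto (fun R' : ℝ => (2 * ((R' - R) / L) - 1) ^ 2 * a / (2 * R') ^ 2) atTop
      (𝓝 (a / L ^ 2)) := by
    have h1 : Tendsto (fun R' : ℝ => (1 / L - (R / L + 1 / 2) * R'⁻¹) ^ 2 * a) atTop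
        (𝓝 ((1 / L - (R / L + 1 / 2) * 0) ^ 2 * a)) :=
      ((tendsto_const_nhds.sub (tendsto_inv_atTop_zero.const_mul _)).pow 2).mul_const a
    have h2 : (1 / L - (R / L + 1 / 2) * 0) ^ 2 * a = a / L ^ 2 := by
      field_simp
      ring
    rw [h2] at h1
    refine h1.congr' ?_
    filter_upwards [eventually_gt_atTop 0] with R' hR'
    field_simp
    ring
  rw [← hlim.limsup_eq]
  unfold upDens
  exact limsup_le_limsup hlow hlim.isCoboundedUnder_le (tile_bdd A')

end Dadc30
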