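import Pool.Agent.Lib.MP_dadc30_co.Field1
import Pool.Agent.Lib.MP_dadc30_co.Tile

/-!
# MP_dadc30_co, module Field2: the limit field.

On the finite measure space `(K → Bool) × sqBox R` with `P ⊗ volume`, the functions `Hn n` are
Cauchy in `L¹`: all three second moments at `x = y` (`v = 0`)
tend to `g 0` uniformly in `x` (`second_moment`).  Let `H` be the limit, clipped to `[0,1]` and
measurable, and take a subsequence which converges almost everywhere.
`∫∫ H = lim ∫∫ Hn n = p (2R)²` (`Hn_mean`).  For `u : K`, `‖u‖ = 1`, `g u = 0`, let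
`E_u = {x ∈ sqBox R | x + u ∈ sqBox R}`: `∫_{E_u} ∫ H(ω,x) H(ω,x+u) = lim` of the same with `Hn n`
(dominated convergence), which is zero by
`second_moment` with `v = -u`.  Fubini. -/

open MeasureTheory ProbabilityTheory Filter Topology
open scoped ENNReal ComplexConjugate

namespace Dadc30

/-! ### a sequence which is Cauchy in mean -/

theorem Field2_limit {α : Type*} [MeasurableSpace α] (μ : Measure α) [IsFiniteMeasure μ]
    (f : ℕ → α → ℝ) (hf : ∀ n, Measurable (f n)) (hb : ∀ n q, 0 ≤ f n q ∧ f n q ≤ 1)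
    (hC : ∀ ε > (0 : ℝ), ∃ N : ℕ, ∀ n m, N ≤ n → N ≤ m → ∫ q, |f n q - f m q| ∂μ < ε) :
    ∃ (F : α → ℝ) (ns : ℕ → ℕ), Measurable F ∧ (∀ q, 0 ≤ F q ∧ F q ≤ 1) ∧ StrictMono ns ∧
      ∀ᵐ q ∂μ, Tendsto (fun i => f (ns i) q) atTop (𝓝 (F q)) := by
  have hint : ∀ n, Integrable (f n) μ := fun n =>
    Integrable.of_bound (hf n).aestronglyMeasurable 1 (Eventually.of_forall fun q => by
      rw [Real.norm_eq_abs, abs_of_nonneg (hb n q).1]; exact (hb n q).2)
  have hmem : ∀ n, MemLp (f n) 1 μ := fun n => memLp_one_iff_integrable.2 (hint n)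
  have : Fact ((1 : ℝ≥0∞) ≤ 1) := ⟨le_refl _⟩
  have hCS : CauchySeq (fun n => (hmem n).toLp (f n)) := by
    rw [Metric.cauchySeq_iff]
    intro ε hε
    obtain ⟨N, hN⟩ := hC ε hε
    refine ⟨N, fun n hn m hm => ?_⟩
    have h1 : edist ((hmem n).toLp (f n)) ((hmem m).toLp (f m)) =
        ENNReal.ofReal (∫ q, |f n q - f m q| ∂μ) := by
      rw [Lp.edist_toLp_toLp, eLpNorm_one_eq_lintegral_enorm,
        ← ofReal_integral_norm_eq_lintegral_enorm ((hint n).sub (hint m))]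
      rfl
    rw [edist_dist] at h1
    have h2 := hN n m hn hm
    rw [← ENNReal.ofReal_lt_ofReal_iff hε, h1]
    exact (ENNReal.ofReal_lt_ofReal_iff hε).2 h2
  obtain ⟨F, hF⟩ := cauchySeq_tendsto_of_complete hCS
  have hM := tendstoInMeasure_of_tendsto_Lp hF
  obtain ⟨ns, hns, hae⟩ := hM.exists_seq_tendsto_ae
  have hFm : Measurable (F : α → ℝ) := (Lp.stronglyMeasurable F).measurable
  refine ⟨fun q => max 0 (min 1 (F q)), ns, ?_, ?_, hns, ?_⟩
  · exact measurable_const.max (measurable_const.min hFm)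
  · intro q
    exact ⟨le_max_left _ _, max_le zero_le_one (min_le_left _ _)⟩
  · have hall : ∀ᵐ q ∂μ, ∀ n, ((hmem n).toLp (f n) : α → ℝ) q = f n q :=
      ae_all_iff.2 fun n => (hmem n).coeFn_toLp
    filter_upwards [hae, hall] with q h1 h2
    have h3 : Tendsto (fun i => f (ns i) q) atTop (𝓝 ((F : α → ℝ) q)) := by
      refine h1.congr fun i => ?_
      exact h2 (ns i)
    have h4 : 0 ≤ (F : α → ℝ) q := ge_of_tendsto' h3 fun i => (hb (ns i) q).1
    have h5 : (F : α → ℝ) q ≤ 1 := le_of_tendsto' h3 fun i => (hb (ns i) q).2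
    rw [min_eq_right h5, max_eq_right h4]
    exact h3

/-! ### the discretized fields are Cauchy in mean -/

theorem Field2_amgm {ε t : ℝ} (hε : 0 < ε) : |t| ≤ ε / 2 + (2 * ε)⁻¹ * t ^ 2 := by
  have h1 : 0 ≤ (|t| - ε) ^ 2 := sq_nonneg _
  have h2 : |t| ^ 2 = t ^ 2 := sq_abs t
  have h3 : (2 * ε)⁻¹ * t ^ 2 = t ^ 2 / (2 * ε) := by
    rw [div_eq_inv_mul]
  rw [h3, ← sub_le_iff_le_add', le_div_iff₀ (by positivity)]
  nlinarith

theorem Field2_mean_sq {Ω : Type*} [MeasurableSpace Ω] (P : Measure Ω) [IsProbabilityMeasure P]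
    (A B : Ω → ℝ) (hA : Measurable A) (hB : Measurable B) (hA1 : ∀ ω, 0 ≤ A ω ∧ A ω ≤ 1)
    (hB1 : ∀ ω, 0 ≤ B ω ∧ B ω ≤ 1) (c ε : ℝ) (hε : 0 < ε)
    (h1 : |(∫ ω, A ω * A ω ∂P) - c| < ε ^ 2 / 4) (h2 : |(∫ ω, A ω * B ω ∂P) - c| < ε ^ 2 / 4)
    (h3 : |(∫ ω, B ω * B ω ∂P) - c| < ε ^ 2 / 4) : ∫ ω, |A ω - B ω| ∂P ≤ ε := by
  have hbd : ∀ (U V : Ω → ℝ), Measurable U → Measurable V → (∀ ω, 0 ≤ U ω ∧ U ω ≤ 1) →
      (∀ ω, 0 ≤ V ω ∧ V ω ≤ 1) → Integrable (fun ω => U ω * V ω) P := by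
    intro U V hU hV hU1 hV1
    refine Integrable.of_bound (hU.mul hV).aestronglyMeasurable 1 (Eventually.of_forall ?_)
    intro ω
    rw [Real.norm_eq_abs, abs_of_nonneg (mul_nonneg (hU1 ω).1 (hV1 ω).1)]
    exact mul_le_one₀ (hU1 ω).2 (hV1 ω).1 (hV1 ω).2
  have iAA := hbd A A hA hA hA1 hA1
  have iAB := hbd A B hA hB hA1 hB1
  have iBB := hbd B B hB hB hB1 hB1
  have hsq : ∫ ω, (A ω - B ω) ^ 2 ∂P =
      (∫ ω, A ω * A ω ∂P) - 2 * (∫ ω, A ω * B ω ∂P) + ∫ ω, B ω * B ω ∂P := by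
    have e1 : (fun ω => (A ω - B ω) ^ 2) = fun ω => A ω * A ω - 2 * (A ω * B ω) + B ω * B ω := by
      funext ω; ring
    have i1 : Integrable (fun ω => A ω * A ω - 2 * (A ω * B ω)) P := iAA.sub (iAB.const_mul 2)
    rw [e1, integral_add i1 iBB, integral_sub iAA (iAB.const_mul 2), integral_const_mul]
  have isq : Integrable (fun ω => (A ω - B ω) ^ 2) P := by
    have e1 : (fun ω => (A ω - B ω) ^ 2) = fun ω => A ω * A ω - 2 * (A ω * B ω) + B ω * B ω := by
      funext ω; ring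
    rw [e1]
    exact (iAA.sub (iAB.const_mul 2)).add iBB
  have hle : ∫ ω, |A ω - B ω| ∂P ≤ ∫ ω, (ε / 2 + (2 * ε)⁻¹ * (A ω - B ω) ^ 2) ∂P := by
    refine integral_mono_of_nonneg (Eventually.of_forall fun ω => abs_nonneg _) ?_
      (Eventually.of_forall fun ω => Field2_amgm hε)
    exact (integrable_const _).add (isq.const_mul _)
  have hrhs : ∫ ω, (ε / 2 + (2 * ε)⁻¹ * (A ω - B ω) ^ 2) ∂P =
      ε / 2 + (2 * ε)⁻¹ * ∫ ω, (A ω - B ω) ^ 2 ∂P := by
    rw [integral_add (integrable_const _) (isq.const_mul _), integral_const, integral_const_mul]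
    simp
  rw [hrhs, hsq] at hle
  obtain ⟨a1, a2⟩ := abs_lt.1 h1
  obtain ⟨b1, b2⟩ := abs_lt.1 h2
  obtain ⟨c1, c2⟩ := abs_lt.1 h3
  have hq : (∫ ω, A ω * A ω ∂P) - 2 * (∫ ω, A ω * B ω ∂P) + (∫ ω, B ω * B ω ∂P) ≤ ε ^ 2 := by
    linarith
  have hq2 : (2 * ε)⁻¹ * ((∫ ω, A ω * A ω ∂P) - 2 * (∫ ω, A ω * B ω ∂P) + (∫ ω, B ω * B ω ∂P)) ≤
      (2 * ε)⁻¹ * ε ^ 2 := mul_le_mul_of_nonneg_left hq (by positivity)
  have hq3 : (2 * ε)⁻¹ * ε ^ 2 = ε / 2 := by
    field_simp
  linarith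

theorem Field2_slice (n : ℕ) (x : ℂ) : Measurable fun ω : K → Bool => Hn n (ω, x) :=
  (Hn_measurable n).comp measurable_prodMk_right

theorem Field2_cauchy (P : Measure (K → Bool)) [IsProbabilityMeasure P] {p : ℝ}
    (hp : ∀ a, pp P a a = p) (g : K → ℝ) (hg : ∀ a b : K, a ≠ b → pp P a b = g (a - b))
    (hgc : ∀ ε > (0 : ℝ), ∃ δ > (0 : ℝ), ∀ z z' : K, ‖((z - z' : K) : ℂ)‖ < δ → |g z - g z'| < ε)
    (ε : ℝ) (hε : 0 < ε) :
    ∃ N : ℕ, ∀ n m, N ≤ n → N ≤ m → ∀ x : ℂ, ∫ ω, |Hn n (ω, x) - Hn m (ω, x)| ∂P ≤ ε := by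
  obtain ⟨N, δ, hδ, h⟩ := second_moment P hp g hg hgc 0 (ε ^ 2 / 4) (by positivity)
  refine ⟨N, fun n m hn hm x => ?_⟩
  have hx : ‖x - x - ((0 : K) : ℂ)‖ < δ := by
    have : x - x - ((0 : K) : ℂ) = 0 := by simp
    rw [this, norm_zero]
    exact hδ
  exact Field2_mean_sq P (fun ω => Hn n (ω, x)) (fun ω => Hn m (ω, x)) (Field2_slice n x)
    (Field2_slice m x) (fun ω => Hn_bounds n _) (fun ω => Hn_bounds m _) (g 0) ε hε
    (h n n hn hn x x hx) (h n m hn hm x x hx) (h m m hm hm x x hx)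

theorem Field2_double (P : Measure (K → Bool)) [IsProbabilityMeasure P] {p : ℝ}
    (hp : ∀ a, pp P a a = p) (g : K → ℝ) (hg : ∀ a b : K, a ≠ b → pp P a b = g (a - b))
    (hgc : ∀ ε > (0 : ℝ), ∃ δ > (0 : ℝ), ∀ z z' : K, ‖((z - z' : K) : ℂ)‖ < δ → |g z - g z'| < ε)
    (Λ : Measure ℂ) [IsFiniteMeasure Λ] (ε : ℝ) (hε : 0 < ε) :
    ∃ N : ℕ, ∀ n m, N ≤ n → N ≤ m → ∫ q, |Hn n q - Hn m q| ∂(P.prod Λ) < ε := by
  obtain ⟨N, h⟩ := Field2_cauchy P hp g hg hgc (ε / (Λ.real Set.univ + 1)) (by positivity)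
  refine ⟨N, fun n m hn hm => ?_⟩
  have hint : Integrable (fun q => |Hn n q - Hn m q|) (P.prod Λ) := by
    refine Integrable.of_bound ((Hn_measurable n).sub (Hn_measurable m)).abs.aestronglyMeasurable 1
      (Eventually.of_forall fun q => ?_)
    rw [Real.norm_eq_abs, abs_abs, abs_le]
    have h1 := Hn_bounds n q
    have h2 := Hn_bounds m q
    constructor <;> linarith
  rw [integral_prod_symm _ hint]
  have hle : ∫ x, (∫ ω, |Hn n (ω, x) - Hn m (ω, x)| ∂P) ∂Λ ≤
      ∫ _x, ε / (Λ.real Set.univ + 1) ∂Λ := by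
    refine integral_mono_of_nonneg ?_ (integrable_const _) (Eventually.of_forall fun x => h n m hn hm x)
    exact Eventually.of_forall fun x => integral_nonneg fun ω => abs_nonneg _
  refine lt_of_le_of_lt hle ?_
  rw [integral_const, smul_eq_mul, ← mul_div_assoc, div_lt_iff₀ (by positivity)]
  have h0 : 0 ≤ Λ.real Set.univ := measureReal_nonneg
  nlinarith

/-! ### the field -/

theorem exists_field (P : Measure (K → Bool)) [IsProbabilityMeasure P] {p : ℝ}
    (hp : ∀ a, pp P a a = p) (g : K → ℝ) (hg : ∀ a b : K, a ≠ b → pp P a b = g (a - b))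
    (hgc : ∀ ε > (0 : ℝ), ∃ δ > (0 : ℝ), ∀ z z' : K, ‖((z - z' : K) : ℂ)‖ < δ → |g z - g z'| < ε)
    (hg1 : ∀ u : K, ‖(u : ℂ)‖ = 1 → g u = 0) (R : ℝ) (hR : 0 < R) :
    ∃ H : (K → Bool) × ℂ → ℝ, Measurable H ∧ (∀ q, 0 ≤ H q ∧ H q ≤ 1) ∧
      (∫ ω, (∫ x in sqBox R, H (ω, x) ∂volume) ∂P = p * (2 * R) ^ 2) ∧
      ∀ u : K, ‖(u : ℂ)‖ = 1 → ∀ᵐ ω ∂P,
        volume {x | x ∈ sqBox R ∧ x + u ∈ sqBox R ∧ 0 < H (ω, x) ∧ 0 < H (ω, x + u)} = 0 := by
  have hS : MeasurableSet (sqBox R) := measurableSet_sqBox R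
  have hV : volume (sqBox R) = ENNReal.ofReal ((2 * R) ^ 2) := volume_sqBox R hR.le
  have hfin : IsFiniteMeasure ((volume : Measure ℂ).restrict (sqBox R)) :=
    ⟨by rw [Measure.restrict_apply_univ, hV]; exact ENNReal.ofReal_lt_top⟩
  obtain ⟨H, ns, hH, hH1, hns, hae⟩ := Field2_limit (P.prod (volume.restrict (sqBox R))) Hn
    Hn_measurable Hn_bounds (fun ε hε => Field2_double P hp g hg hgc _ ε hε)
  refine ⟨H, hH, hH1, ?_, ?_⟩
  · have hint : Integrable H (P.prod (volume.restrict (sqBox R))) :=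
      Integrable.of_bound hH.aestronglyMeasurable 1 (Eventually.of_forall fun q => by
        rw [Real.norm_eq_abs, abs_of_nonneg (hH1 q).1]; exact (hH1 q).2)
    have hintn : ∀ n, Integrable (Hn n) (P.prod (volume.restrict (sqBox R))) := fun n =>
      Integrable.of_bound (Hn_measurable n).aestronglyMeasurable 1 (Eventually.of_forall fun q => by
        rw [Real.norm_eq_abs, abs_of_nonneg (Hn_bounds n q).1]; exact (Hn_bounds n q).2)
    rw [← integral_prod H hint]
    have h1 : Tendsto (fun i => ∫ q, Hn (ns i) q ∂(P.prod (volume.restrict (sqBox R)))) atTop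
        (𝓝 (∫ q, H q ∂(P.prod (volume.restrict (sqBox R))))) := by
      refine tendsto_integral_of_dominated_convergence (fun _ => (1 : ℝ))
        (fun i => (Hn_measurable (ns i)).aestronglyMeasurable) (integrable_const _) (fun i => ?_) hae
      refine Eventually.of_forall fun q => ?_
      rw [Real.norm_eq_abs, abs_of_nonneg (Hn_bounds _ q).1]; exact (Hn_bounds _ q).2
    have h2 : ∀ i, 1 ≤ i →
        ∫ q, Hn (ns i) q ∂(P.prod (volume.restrict (sqBox R))) = p * (2 * R) ^ 2 := by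
      intro i hi
      rw [integral_prod_symm _ (hintn (ns i))]
      have h3 : ∀ x, ∫ ω, Hn (ns i) (ω, x) ∂P = p := fun x =>
        Hn_mean P hp (ns i) (lt_of_lt_of_le hi (hns.id_le i)) x
      simp only [h3]
      rw [integral_const, smul_eq_mul, measureReal_restrict_apply_univ, measureReal_def, hV,
        ENNReal.toReal_ofReal (by positivity), mul_comm]
    refine tendsto_nhds_unique h1 (tendsto_const_nhds.congr' ?_)
    filter_upwards [eventually_ge_atTop 1] with i hi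
    exact (h2 i hi).symm
  · intro u hu1
    -- the set `E_u`
    have hadd : Measurable fun x : ℂ => x + (u : ℂ) := measurable_id.add_const _
    set Eu : Set ℂ := {x | x ∈ sqBox R ∧ x + (u : ℂ) ∈ sqBox R} with hEu
    have hEum : MeasurableSet Eu := hS.inter (hadd hS)
    have hEuS : Eu ⊆ sqBox R := fun x hx => hx.1
    have hfin2 : IsFiniteMeasure ((volume : Measure ℂ).restrict Eu) :=
      ⟨by
        rw [Measure.restrict_apply_univ]
        exact lt_of_le_of_lt (measure_mono hEuS) (by rw [hV]; exact ENNReal.ofReal_lt_top)⟩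
    -- convergence almost everywhere at `x` and at `x + u`
    have hac1 : ∀ᵐ q ∂(P.prod (volume.restrict Eu)),
        Tendsto (fun i => Hn (ns i) q) atTop (𝓝 (H q)) := by
      have habs : (P.prod (volume.restrict Eu)) ≪ (P.prod (volume.restrict (sqBox R))) :=
        (Measure.AbsolutelyContinuous.refl P).prod
          (Measure.absolutelyContinuous_of_le (Measure.restrict_mono hEuS le_rfl))
      exact habs.ae_le hae
    have hac2 : ∀ᵐ q ∂(P.prod (volume.restrict Eu)),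
        Tendsto (fun i => Hn (ns i) (q.1, q.2 + (u : ℂ))) atTop (𝓝 (H (q.1, q.2 + (u : ℂ)))) := by
      have hq0 : Measure.QuasiMeasurePreserving (fun x : ℂ => x + (u : ℂ))
          (volume.restrict ((fun x : ℂ => x + (u : ℂ)) ⁻¹' (sqBox R)))
          (volume.restrict (sqBox R)) :=
        ((measurePreserving_add_right volume (u : ℂ)).restrict_preimage hS).quasiMeasurePreserving
      have hq1 : Measure.QuasiMeasurePreserving (fun x : ℂ => x + (u : ℂ))
          (volume.restrict Eu) (volume.restrict (sqBox R)) :=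
        hq0.mono_left (Measure.absolutelyContinuous_of_le
          (Measure.restrict_mono (fun x hx => hx.2) le_rfl))
      have hq2 : Measure.QuasiMeasurePreserving (Prod.map id (fun x : ℂ => x + (u : ℂ)))
          (P.prod (volume.restrict Eu)) (P.prod (volume.restrict (sqBox R))) :=
        MeasureTheory.QuasiMeasurePreserving.prodMap (Measure.QuasiMeasurePreserving.id P) hq1
      exact hq2.ae hae
    -- the integral of the product
    have hHs : Measurable fun q : (K → Bool) × ℂ => H q * H (q.1, q.2 + (u : ℂ)) :=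
      hH.mul (hH.comp (measurable_fst.prodMk (hadd.comp measurable_snd)))
    have hHns : ∀ n, Measurable fun q : (K → Bool) × ℂ => Hn n q * Hn n (q.1, q.2 + (u : ℂ)) :=
      fun n => (Hn_measurable n).mul
        ((Hn_measurable n).comp (measurable_fst.prodMk (hadd.comp measurable_snd)))
    have hbn : ∀ n (q : (K → Bool) × ℂ), ‖Hn n q * Hn n (q.1, q.2 + (u : ℂ))‖ ≤ 1 := by
      intro n q
      rw [Real.norm_eq_abs, abs_of_nonneg (mul_nonneg (Hn_bounds n _).1 (Hn_bounds n _).1)]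
      exact mul_le_one₀ (Hn_bounds n _).2 (Hn_bounds n _).1 (Hn_bounds n _).2
    have h1 : Tendsto (fun i => ∫ q, Hn (ns i) q * Hn (ns i) (q.1, q.2 + (u : ℂ))
        ∂(P.prod (volume.restrict Eu))) atTop
        (𝓝 (∫ q, H q * H (q.1, q.2 + (u : ℂ)) ∂(P.prod (volume.restrict Eu)))) := by
      refine tendsto_integral_of_dominated_convergence (fun _ => (1 : ℝ))
        (fun i => (hHns (ns i)).aestronglyMeasurable) (integrable_const _)
        (fun i => Eventually.of_forall fun q => hbn (ns i) q) ?_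
      filter_upwards [hac1, hac2] with q hq1 hq2
      exact hq1.mul hq2
    have h2 : Tendsto (fun i => ∫ q, Hn (ns i) q * Hn (ns i) (q.1, q.2 + (u : ℂ))
        ∂(P.prod (volume.restrict Eu))) atTop (𝓝 0) := by
      rw [Metric.tendsto_atTop]
      intro ε hε
      have hgu : g (-u) = 0 := hg1 (-u) (by
        have : ((-u : K) : ℂ) = -(u : ℂ) := rfl
        rw [this, norm_neg, hu1])
      set M : ℝ := ((volume : Measure ℂ).restrict Eu).real Set.univ with hM
      have hM0 : 0 ≤ M := measureReal_nonneg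
      obtain ⟨N, δ, hδ, h⟩ := second_moment P hp g hg hgc (-u) (ε / (M + 1)) (by positivity)
      refine ⟨N, fun i hi => ?_⟩
      have hNi : N ≤ ns i := hi.trans (hns.id_le i)
      have hint : Integrable (fun q : (K → Bool) × ℂ => Hn (ns i) q *
          Hn (ns i) (q.1, q.2 + (u : ℂ))) (P.prod (volume.restrict Eu)) :=
        Integrable.of_bound (hHns (ns i)).aestronglyMeasurable 1
          (Eventually.of_forall fun q => hbn (ns i) q)
      rw [Real.dist_eq, sub_zero, integral_prod_symm _ hint]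
      have hb : ∀ x : ℂ, |∫ ω, Hn (ns i) (ω, x) * Hn (ns i) (ω, x + (u : ℂ)) ∂P| ≤ ε / (M + 1) := by
        intro x
        have h3 := h (ns i) (ns i) hNi hNi x (x + (u : ℂ)) (by
          have : x - (x + (u : ℂ)) - ((-u : K) : ℂ) = 0 := by
            have h4 : ((-u : K) : ℂ) = -(u : ℂ) := rfl
            rw [h4]; ring
          rw [this, norm_zero]
          exact hδ)
        rw [hgu, sub_zero] at h3
        exact h3.le
      have h5 : |∫ x in Eu, (∫ ω, Hn (ns i) (ω, x) * Hn (ns i) (ω, x + (u : ℂ)) ∂P)| ≤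
          ∫ x in Eu, ε / (M + 1) := by
        rw [← Real.norm_eq_abs]
        refine norm_integral_le_of_norm_le (integrable_const _) ?_
        exact Eventually.of_forall fun x => hb x
      refine lt_of_le_of_lt h5 ?_
      rw [integral_const, smul_eq_mul, ← hM, ← mul_div_assoc, div_lt_iff₀ (by positivity)]
      nlinarith
    have h0 : ∫ q, H q * H (q.1, q.2 + (u : ℂ)) ∂(P.prod (volume.restrict Eu)) = 0 :=
      tendsto_nhds_unique h1 h2
    have hnn : 0 ≤ fun q : (K → Bool) × ℂ => H q * H (q.1, q.2 + (u : ℂ)) :=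
      fun q => mul_nonneg (hH1 _).1 (hH1 _).1
    have hintH : Integrable (fun q : (K → Bool) × ℂ => H q * H (q.1, q.2 + (u : ℂ)))
        (P.prod (volume.restrict Eu)) := by
      refine Integrable.of_bound hHs.aestronglyMeasurable 1 (Eventually.of_forall fun q => ?_)
      rw [Real.norm_eq_abs, abs_of_nonneg (mul_nonneg (hH1 _).1 (hH1 _).1)]
      exact mul_le_one₀ (hH1 _).2 (hH1 _).1 (hH1 _).2
    have hz := (integral_eq_zero_iff_of_nonneg hnn hintH).1 h0
    have hz2 := Measure.ae_ae_of_ae_prod hz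
    filter_upwards [hz2] with ω hω
    have h6 : ((volume : Measure ℂ).restrict Eu) {x | ¬ (H (ω, x) * H (ω, x + (u : ℂ)) = 0)} = 0 :=
      ae_iff.1 hω
    have hslice : MeasurableSet {x | ¬ (H (ω, x) * H (ω, x + (u : ℂ)) = 0)} := by
      have hm : Measurable fun x : ℂ => H (ω, x) * H (ω, x + (u : ℂ)) :=
        hHs.comp measurable_prodMk_left
      exact (hm (measurableSet_singleton 0)).compl
    rw [Measure.restrict_apply hslice] at h6
    refine measure_mono_null ?_ h6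
    rintro x ⟨hx1, hx2, hx3, hx4⟩
    exact ⟨(mul_pos hx3 hx4).ne', hx1, hx2⟩

end Dadc30
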