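import Pool.Agent.Lib.MP_dadc30_co.Field2
import Pool.Agent.Lib.MP_dadc30_co.Geo
import Pool.Agent.Lib.MP_dadc30_co.Chars

/-!
# MP_dadc30_co, module Field3: choose a sample; density points.

`exists_sample`: `A_ω = {x ∈ sqBox R | 0 < H(ω,x)}`; `vol A_ω ≥ ∫ H(ω,·)`, whose mean is
`p (2R)²`, so the set of `ω` with `vol A_ω ≥ p (2R)²` has positive measure; intersect with the
countably many full measure sets (`u : K`, `‖u‖ = 1`).
`density_avoid`: `A` = points of `A₀` at which `A₀` has Lebesgue density 1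
(`Besicovitch.ae_tendsto_measure_inter_div_of_measurableSet` or
`IsUnifLocDoublingMeasure.ae_tendsto_measure_inter_div`; take a measurable subset of full
measure, e.g. defined by closed balls of radius `1/n`).  If `x, y ∈ A`, `|x - y| = 1`, choose `r`
small with `|A₀ ∩ B(x,r)|, |A₀ ∩ B(y,r)| > (3/4)|B(r)|` and `u ∈ K`, `|u| = 1`,
`|u - (y-x)|` so small (`dense_Γ`) that `|A₀ ∩ B(x+u,r)| > (5/8)|B(r)|` (compare with
`B(y, r - |u-(y-x)|)`); then `{z | z ∈ A₀ ∧ z + u ∈ A₀}` meets `B(x,r)` in positive measure. -/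

open MeasureTheory ProbabilityTheory Filter Topology
open scoped ENNReal ComplexConjugate

namespace Dadc30

theorem Field3_meas (R : ℝ) : MeasurableSet (sqBox R) := by
  apply IsClosed.measurableSet
  have h1 : IsClosed {z : ℂ | |z.re| ≤ R} :=
    isClosed_le (Complex.continuous_re.abs) continuous_const
  have h2 : IsClosed {z : ℂ | |z.im| ≤ R} :=
    isClosed_le (Complex.continuous_im.abs) continuous_const
  exact h1.inter h2

theorem Field3_fin (R : ℝ) : volume (sqBox R) ≠ ⊤ := by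
  have h : sqBox R ⊆ Metric.closedBall 0 (R + R) := by
    intro z hz
    rw [mem_closedBall_zero_iff]
    exact (Complex.norm_le_abs_re_add_abs_im z).trans (add_le_add hz.1 hz.2)
  exact ne_top_of_le_ne_top (measure_closedBall_lt_top).ne (measure_mono h)

theorem exists_sample (P : Measure (K → Bool)) [IsProbabilityMeasure P] {p : ℝ}
    (R : ℝ) (hR : 0 < R) (H : (K → Bool) × ℂ → ℝ) (hH : Measurable H)
    (hH1 : ∀ q, 0 ≤ H q ∧ H q ≤ 1)
    (hm : ∫ ω, (∫ x in sqBox R, H (ω, x) ∂volume) ∂P = p * (2 * R) ^ 2)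
    (hu : ∀ u : K, ‖(u : ℂ)‖ = 1 → ∀ᵐ ω ∂P,
        volume {x | x ∈ sqBox R ∧ x + u ∈ sqBox R ∧ 0 < H (ω, x) ∧ 0 < H (ω, x + u)} = 0) :
    ∃ A₀ ⊆ sqBox R, MeasurableSet A₀ ∧ p * (2 * R) ^ 2 ≤ (volume A₀).toReal ∧
      ∀ u : K, ‖(u : ℂ)‖ = 1 → volume {x | x ∈ A₀ ∧ x + u ∈ A₀} = 0 := by
  have hsf : volume (sqBox R) ≠ ⊤ := Field3_fin R
  have hsm : MeasurableSet (sqBox R) := Field3_meas R
  have : IsFiniteMeasure (volume.restrict (sqBox R)) :=
    ⟨by rw [Measure.restrict_apply_univ]; exact lt_of_le_of_ne le_top hsf⟩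
  have hbd : ∀ ω, ∀ (s : Set ℂ), volume s ≠ ⊤ → IntegrableOn (fun x => H (ω, x)) s volume := by
    intro ω s hs
    have : IsFiniteMeasure (volume.restrict s) :=
      ⟨by rw [Measure.restrict_apply_univ]; exact lt_of_le_of_ne le_top hs⟩
    refine Integrable.of_bound (C := 1) ?_ ?_
    · exact (hH.comp (measurable_const.prodMk measurable_id)).aestronglyMeasurable
    · refine Eventually.of_forall (fun x => ?_)
      rw [Real.norm_eq_abs, abs_of_nonneg (hH1 _).1]
      exact (hH1 _).2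
  have hFi : Integrable (fun ω => ∫ x in sqBox R, H (ω, x) ∂volume) P := by
    refine Integrable.of_bound (C := (volume (sqBox R)).toReal) ?_ ?_
    · exact (hH.stronglyMeasurable.integral_prod_right').aestronglyMeasurable
    · refine Eventually.of_forall (fun ω => ?_)
      have h1 := norm_setIntegral_le_of_norm_le_const (μ := (volume : Measure ℂ))
        (s := sqBox R) (f := fun x => H (ω, x)) (C := 1) (lt_of_le_of_ne le_top hsf)
        (fun x _ => by
          rw [Real.norm_eq_abs, abs_of_nonneg (hH1 _).1]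
          exact (hH1 _).2)
      rw [one_mul] at h1
      exact h1
  have hall : ∀ᵐ ω ∂P, ∀ u : K, ‖(u : ℂ)‖ = 1 →
      volume {x | x ∈ sqBox R ∧ x + u ∈ sqBox R ∧ 0 < H (ω, x) ∧ 0 < H (ω, x + u)} = 0 := by
    refine ae_all_iff.2 (fun u => ?_)
    by_cases h : ‖(u : ℂ)‖ = 1
    · filter_upwards [hu u h] with ω hω _ using hω
    · exact Eventually.of_forall (fun ω h' => absurd h' h)
  obtain ⟨ω, hω, hω2⟩ := exists_notMem_null_integral_le hFi (ae_iff.1 hall)
  have hω' : ∀ u : K, ‖(u : ℂ)‖ = 1 →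
      volume {x | x ∈ sqBox R ∧ x + u ∈ sqBox R ∧ 0 < H (ω, x) ∧ 0 < H (ω, x + u)} = 0 := by
    by_contra hcon
    exact hω hcon
  have hpos : MeasurableSet {x : ℂ | 0 < H (ω, x)} :=
    measurableSet_lt measurable_const (hH.comp (measurable_const.prodMk measurable_id))
  have hAm : MeasurableSet (sqBox R ∩ {x : ℂ | 0 < H (ω, x)}) := hsm.inter hpos
  refine ⟨sqBox R ∩ {x | 0 < H (ω, x)}, Set.inter_subset_left, hAm, ?_, ?_⟩
  · rw [← hm]
    refine hω2.trans ?_
    have hAf : volume (sqBox R ∩ {x : ℂ | 0 < H (ω, x)}) ≠ ⊤ :=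
      ne_top_of_le_ne_top hsf (measure_mono Set.inter_subset_left)
    have h1 : ∫ x in sqBox R, H (ω, x) ∂volume =
        ∫ x in sqBox R ∩ {x : ℂ | 0 < H (ω, x)}, H (ω, x) ∂volume := by
      refine setIntegral_eq_of_subset_of_forall_sdiff_eq_zero hsm Set.inter_subset_left ?_
      intro x hx
      have h2 : ¬ (0 < H (ω, x)) := fun h => hx.2 ⟨hx.1, h⟩
      exact le_antisymm (not_lt.1 h2) (hH1 _).1
    have h3 : ∫ x in sqBox R ∩ {x : ℂ | 0 < H (ω, x)}, H (ω, x) ∂volume ≤
        ∫ x in sqBox R ∩ {x : ℂ | 0 < H (ω, x)}, (1 : ℝ) ∂volume := by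
      have : IsFiniteMeasure (volume.restrict (sqBox R ∩ {x : ℂ | 0 < H (ω, x)})) :=
        ⟨by rw [Measure.restrict_apply_univ]; exact lt_of_le_of_ne le_top hAf⟩
      exact integral_mono (hbd ω _ hAf) (integrable_const _) (fun x => (hH1 _).2)
    have h4 : ∫ x in sqBox R ∩ {x : ℂ | 0 < H (ω, x)}, (1 : ℝ) ∂volume =
        (volume (sqBox R ∩ {x : ℂ | 0 < H (ω, x)})).toReal := by
      rw [setIntegral_const, smul_eq_mul, mul_one]
      rfl
    rw [h1]
    exact h3.trans h4.le
  · intro u hu1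
    refine measure_mono_null ?_ (hω' u hu1)
    rintro x ⟨⟨h1, h2⟩, h3, h4⟩
    exact ⟨h1, h3, h2, h4⟩

theorem Field3_ball (x : ℂ) (r : ℝ) (hr : 0 ≤ r) :
    volume.real (Metric.closedBall x r) = r ^ 2 * Real.pi := by
  rw [Measure.real, Complex.volume_closedBall, ENNReal.toReal_mul, ENNReal.toReal_pow,
    ENNReal.toReal_ofReal hr]
  rfl

theorem density_avoid (A₀' : Set ℂ) (hA : MeasurableSet A₀')
    (hu : ∀ u : K, ‖(u : ℂ)‖ = 1 → volume {x | x ∈ A₀' ∧ x + u ∈ A₀'} = 0) :
    ∃ A ⊆ A₀', MeasurableSet A ∧ volume A = volume A₀' ∧ Avoids A := by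
  have hae := Besicovitch.ae_tendsto_measure_inter_div_of_measurableSet
    (volume : Measure ℂ) hA
  set D : Set ℂ := {x | Tendsto (fun r => volume (A₀' ∩ Metric.closedBall x r) /
    volume (Metric.closedBall x r)) (𝓝[>] 0) (𝓝 (A₀'.indicator 1 x))} with hD
  have hnull : volume Dᶜ = 0 := hae
  set N := toMeasurable volume Dᶜ with hN
  have hNm : MeasurableSet N := measurableSet_toMeasurable _ _
  have hN0 : volume N = 0 := by rw [hN, measure_toMeasurable, hnull]
  -- density at points of `A`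
  have key : ∀ x ∈ A₀' \ N, ∀ᶠ r in 𝓝[>] (0 : ℝ),
      (3 / 4 : ℝ) * (r ^ 2 * Real.pi) < volume.real (A₀' ∩ Metric.closedBall x r) := by
    intro x hx
    have hxD : x ∈ D := by
      by_contra h
      exact hx.2 (subset_toMeasurable _ _ h)
    have h1 : Tendsto (fun r => volume (A₀' ∩ Metric.closedBall x r) /
        volume (Metric.closedBall x r)) (𝓝[>] 0) (𝓝 1) := by
      have h2 : A₀'.indicator (1 : ℂ → ℝ≥0∞) x = 1 := by
        rw [Set.indicator_of_mem hx.1]; rfl
      have h3 : Tendsto (fun r => volume (A₀' ∩ Metric.closedBall x r) /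
        volume (Metric.closedBall x r)) (𝓝[>] 0) (𝓝 (A₀'.indicator 1 x)) := hxD
      rwa [h2] at h3
    have h34 : ENNReal.ofReal (3 / 4) < 1 := by
      rw [ENNReal.ofReal_lt_one]; norm_num
    have h4 := (tendsto_order.1 h1).1 _ h34
    filter_upwards [h4, self_mem_nhdsWithin] with r hr hr0
    have hr0' : (0 : ℝ) < r := hr0
    have hb0 : volume (Metric.closedBall x r) ≠ 0 :=
      (Metric.measure_closedBall_pos volume x hr0').ne'
    have hbt : volume (Metric.closedBall x r) ≠ ⊤ := measure_closedBall_lt_top.ne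
    rw [ENNReal.lt_div_iff_mul_lt (Or.inl hb0) (Or.inl hbt)] at hr
    have h5 : volume (A₀' ∩ Metric.closedBall x r) ≠ ⊤ :=
      ne_top_of_le_ne_top hbt (measure_mono Set.inter_subset_right)
    have h6 := (ENNReal.toReal_lt_toReal (ENNReal.mul_ne_top ENNReal.ofReal_ne_top hbt) h5).2 hr
    rw [ENNReal.toReal_mul, ENNReal.toReal_ofReal (by norm_num)] at h6
    have h7 := Field3_ball x r hr0'.le
    rw [Measure.real] at h7
    rw [h7] at h6
    exact h6
  refine ⟨A₀' \ N, Set.sdiff_subset, hA.diff hNm, measure_sdiff_null hN0, ?_⟩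
  intro x hx y hy hxy
  have hv : ‖y - x‖ = 1 := by
    rw [← dist_eq_norm, dist_comm]; exact hxy
  -- choose the radius
  obtain ⟨ρ, hρ, hρ1⟩ : ∃ ρ > (0 : ℝ), ∀ r, 0 < r → r < ρ →
      (3 / 4 : ℝ) * (r ^ 2 * Real.pi) < volume.real (A₀' ∩ Metric.closedBall x r) ∧
      (3 / 4 : ℝ) * (r ^ 2 * Real.pi) < volume.real (A₀' ∩ Metric.closedBall y r) := by
    have h := (key x hx).and (key y hy)
    rw [eventually_nhdsWithin_iff, Metric.eventually_nhds_iff] at h
    obtain ⟨ρ, hρ, h⟩ := h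
    refine ⟨ρ, hρ, fun r hr hrρ => h ?_ hr⟩
    rw [dist_zero_right, Real.norm_eq_abs, abs_of_pos hr]
    exact hrρ
  set r : ℝ := ρ / 2 with hr
  have hr0 : 0 < r := by positivity
  have hrρ : r < ρ := by rw [hr]; linarith
  obtain ⟨w, hw⟩ := dense_Γ (y - x) hv (r / 10) (by positivity)
  set u : K := (toK w : K) with hudef
  have hu1 : ‖(u : ℂ)‖ = 1 := by
    exact toK_norm w
  have h0 := hu u hu1
  have hx1 := (hρ1 r hr0 hrρ).1
  have hy1 := (hρ1 (r * (9 / 10)) (by positivity) (by linarith)).2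
  -- the two sets
  set E₁ : Set ℂ := A₀' ∩ Metric.closedBall x r with hE₁
  set E₂ : Set ℂ := {z | z + u ∈ A₀'} ∩ Metric.closedBall x r with hE₂
  have hbt : volume (Metric.closedBall x r) ≠ ⊤ := measure_closedBall_lt_top.ne
  have hE₂m : MeasurableSet E₂ := by
    refine MeasurableSet.inter ?_ Metric.isClosed_closedBall.measurableSet
    exact measurable_add_const (u : ℂ) hA
  have hE₁f : volume E₁ ≠ ⊤ := ne_top_of_le_ne_top hbt (measure_mono Set.inter_subset_right)
  have hE₂f : volume E₂ ≠ ⊤ := ne_top_of_le_ne_top hbt (measure_mono Set.inter_subset_right)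
  have h2 : volume (A₀' ∩ Metric.closedBall y (r * (9 / 10))) ≤ volume E₂ := by
    have h3 : volume E₂ = volume ((fun z => z + (u : ℂ)) ⁻¹'
        (A₀' ∩ Metric.closedBall (x + u) r)) := by
      congr 1
      ext z
      simp only [hE₂, Set.mem_inter_iff, Set.mem_preimage, Metric.mem_closedBall,
        dist_add_right]
      rfl
    rw [h3, measure_preimage_add_right]
    refine measure_mono (Set.inter_subset_inter_right _ ?_)
    refine Metric.closedBall_subset_closedBall' ?_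
    have h4 : dist y (x + u) = ‖(u : ℂ) - (y - x)‖ := by
      rw [dist_comm, dist_eq_norm]; congr 1; ring
    rw [h4]
    linarith
  have h5 : volume (E₁ ∩ E₂) = 0 := by
    refine measure_mono_null ?_ h0
    rintro z ⟨⟨h6, _⟩, h7, _⟩
    exact ⟨h6, h7⟩
  have h8 : volume (E₁ ∪ E₂) = volume E₁ + volume E₂ := by
    have := measure_union_add_inter (μ := (volume : Measure ℂ)) E₁ hE₂m
    rw [h5, add_zero] at this
    exact this
  have h9 : volume (E₁ ∪ E₂) ≤ volume (Metric.closedBall x r) :=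
    measure_mono (Set.union_subset Set.inter_subset_right Set.inter_subset_right)
  rw [h8] at h9
  have h10 := ENNReal.toReal_mono hbt h9
  rw [ENNReal.toReal_add hE₁f hE₂f] at h10
  have h11 := ENNReal.toReal_mono hE₂f h2
  have h12 := Field3_ball x r hr0.le
  rw [Measure.real] at h12 hx1 hy1
  rw [h12] at h10
  have hpi := Real.pi_pos
  nlinarith [mul_pos (pow_pos hr0 2) hpi]

end Dadc30
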