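import Pool.Agent.Lib.MP_dadc30_co.Defs

/-!
# MP_dadc30_co, module Fin: the final statement, with the quantities of the problem.
Everything in `EuclideanSpace ℝ (Fin 2)`.
-/

open MeasureTheory ProbabilityTheory Filter Topology
open scoped ENNReal ComplexConjugate

namespace Dadc30

/-- the plane -/
abbrev Plane : Type := EuclideanSpace ℝ (Fin 2)

/-- the independence number of the unit-distance graph on the finite set `P` -/
noncomputable def alphaU (P : Finset Plane) : ℕ :=
  sSup {k | ∃ S ⊆ P, (∀ x ∈ S, ∀ y ∈ S, dist x y ≠ 1) ∧ S.card = k}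

/-- `f(n)` = minimum of `α(U_P)` over all `n`-point sets `P` -/
noncomputable def fE (n : ℕ) : ℕ := sInf {k | ∃ P : Finset Plane, P.card = n ∧ alphaU P = k}

/-- `m_1(ℝ²)`: supremum of the upper densities (along the squares `[-R,R]²`) of the Lebesgue
measurable sets without two points at distance one. -/
noncomputable def m1 : ℝ :=
  sSup {d | ∃ A : Set Plane, MeasurableSet A ∧ (∀ x ∈ A, ∀ y ∈ A, dist x y ≠ 1) ∧
    d = limsup (fun R : ℝ =>
      (volume (A ∩ {x | ∀ i, |x i| ≤ R})).toReal / (2 * R) ^ 2) atTop}

end Dadc30
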