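import Pool.Agent.Lib.MP_dadc30_co.Fin

/-!
# MP_dadc30_co, module FinTransfer: transfer between `ℂ` and `EuclideanSpace ℝ (Fin 2)`
through the isometry `Complex.orthonormalBasisOneI.repr` (measure preserving:
`LinearIsometryEquiv.measurePreserving`), and Fekete's lemma.

`f_tendsto`: `f(a+b) ≤ f(a)+f(b)` (translate one optimal configuration far away), so `f(n)/n`
converges to `L = inf_{n≥1} f(n)/n` (`Subadditive.tendsto_lim`), `HasRatio L`, and every `c` with
`HasRatio c` satisfies `c ≤ f(n)/n` for `n ≥ 1`. -/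

open MeasureTheory ProbabilityTheory Filter Topology
open scoped ENNReal ComplexConjugate

namespace Dadc30

/-- the isometry between the two models of the plane -/
noncomputable def FinTransfer_e : ℂ ≃ₗᵢ[ℝ] Plane := Complex.orthonormalBasisOneI.repr

theorem FinTransfer_e0 (z : ℂ) : FinTransfer_e z 0 = z.re := by
  unfold FinTransfer_e
  simp [Complex.orthonormalBasisOneI_repr_apply]

theorem FinTransfer_e1 (z : ℂ) : FinTransfer_e z 1 = z.im := by
  unfold FinTransfer_e
  simp [Complex.orthonormalBasisOneI_repr_apply]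

theorem FinTransfer_mp : MeasurePreserving FinTransfer_e volume volume :=
  LinearIsometryEquiv.measurePreserving FinTransfer_e

theorem FinTransfer_box (R : ℝ) :
    FinTransfer_e ⁻¹' {x : Plane | ∀ i, |x i| ≤ R} = sqBox R := by
  ext z
  simp only [Set.mem_preimage, Set.mem_ofPred_eq, sqBox, Fin.forall_fin_two, FinTransfer_e0,
    FinTransfer_e1]

theorem FinTransfer_boxm (R : ℝ) : MeasurableSet {x : Plane | ∀ i, |x i| ≤ R} := by
  have h1 : {x : Plane | ∀ i, |x i| ≤ R} = ⋂ i, {x : Plane | |x i| ≤ R} := by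
    ext x; simp
  rw [h1]
  refine MeasurableSet.iInter fun i => ?_
  refine measurableSet_le ?_ measurable_const
  have h2 : Continuous (fun x : Plane => |x i|) := by fun_prop
  exact h2.measurable

theorem FinTransfer_vol {A : Set Plane} (hA : MeasurableSet A) (R : ℝ) :
    volume (FinTransfer_e ⁻¹' A ∩ sqBox R) = volume (A ∩ {x : Plane | ∀ i, |x i| ≤ R}) := by
  rw [← FinTransfer_box, ← Set.preimage_inter]
  exact FinTransfer_mp.measure_preimage (hA.inter (FinTransfer_boxm R)).nullMeasurableSet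

theorem FinTransfer_dens {A : Set Plane} (hA : MeasurableSet A) :
    upDens (FinTransfer_e ⁻¹' A) = limsup (fun R : ℝ =>
      (volume (A ∩ {x | ∀ i, |x i| ≤ R})).toReal / (2 * R) ^ 2) atTop := by
  unfold upDens
  congr 1
  funext R
  rw [FinTransfer_vol hA]

theorem m1_eq_m1C : m1 = m1C := by
  unfold m1 m1C
  congr 1
  ext d
  constructor
  · rintro ⟨A, hA, hA1, hd⟩
    refine ⟨FinTransfer_e ⁻¹' A, FinTransfer_mp.measurable hA, ?_, ?_⟩
    · intro x hx y hy
      have h1 := hA1 (FinTransfer_e x) hx (FinTransfer_e y) hy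
      rwa [FinTransfer_e.dist_map] at h1
    · rw [FinTransfer_dens hA]; exact hd
  · rintro ⟨A, hA, hA1, hd⟩
    have h0 : FinTransfer_e ⁻¹' (FinTransfer_e.symm ⁻¹' A) = A := by
      ext z
      simp
    have hm : MeasurableSet (FinTransfer_e.symm ⁻¹' A) :=
      FinTransfer_e.symm.continuous.measurable hA
    refine ⟨FinTransfer_e.symm ⁻¹' A, hm, ?_, ?_⟩
    · intro x hx y hy
      have h1 := hA1 (FinTransfer_e.symm x) hx (FinTransfer_e.symm y) hy
      rwa [FinTransfer_e.symm.dist_map] at h1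
    · rw [← FinTransfer_dens hm, h0]; exact hd

/-! ### the independence number -/

theorem FinTransfer_bdd (P : Finset Plane) :
    BddAbove {k | ∃ S ⊆ P, (∀ x ∈ S, ∀ y ∈ S, dist x y ≠ 1) ∧ S.card = k} := by
  refine ⟨P.card, ?_⟩
  rintro k ⟨S, hS, _, rfl⟩
  exact Finset.card_le_card hS

theorem FinTransfer_ne (P : Finset Plane) :
    {k | ∃ S ⊆ P, (∀ x ∈ S, ∀ y ∈ S, dist x y ≠ 1) ∧ S.card = k}.Nonempty :=
  ⟨0, ∅, by simp, by simp, by simp⟩

theorem FinTransfer_alpha (P : Finset Plane) :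
    ∃ S ⊆ P, (∀ x ∈ S, ∀ y ∈ S, dist x y ≠ 1) ∧ S.card = alphaU P :=
  Nat.sSup_mem (FinTransfer_ne P) (FinTransfer_bdd P)

theorem FinTransfer_le_alpha {P S : Finset Plane} (h : S ⊆ P)
    (h1 : ∀ x ∈ S, ∀ y ∈ S, dist x y ≠ 1) : S.card ≤ alphaU P :=
  le_csSup (FinTransfer_bdd P) ⟨S, h, h1, rfl⟩

theorem FinTransfer_fne (n : ℕ) : {k | ∃ P : Finset Plane, P.card = n ∧ alphaU P = k}.Nonempty := by
  obtain ⟨P, hP⟩ := Infinite.exists_subset_card_eq Plane n
  exact ⟨alphaU P, P, hP, rfl⟩

theorem FinTransfer_f (n : ℕ) : ∃ P : Finset Plane, P.card = n ∧ alphaU P = fE n :=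
  Nat.sInf_mem (FinTransfer_fne n)

theorem FinTransfer_f_le (P : Finset Plane) : fE P.card ≤ alphaU P :=
  Nat.sInf_le ⟨P, rfl, rfl⟩

theorem FinTransfer_sub (a b : ℕ) : fE (a + b) ≤ fE a + fE b := by
  classical
  obtain ⟨P, hP, hPa⟩ := FinTransfer_f a
  obtain ⟨Q, hQ, hQa⟩ := FinTransfer_f b
  -- a translation vector
  obtain ⟨t, ht⟩ := Infinite.exists_notMem_finset ((P ×ˢ Q).image fun z => z.1 - z.2)
  let τ : Plane ↪ Plane := ⟨fun x => x + t, add_left_injective t⟩
  have hdisj : Disjoint P (Q.map τ) := by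
    rw [Finset.disjoint_left]
    intro x hx hx'
    rw [Finset.mem_map] at hx'
    obtain ⟨y, hy, hyx⟩ := hx'
    apply ht
    rw [Finset.mem_image]
    refine ⟨(x, y), Finset.mem_product.mpr ⟨hx, hy⟩, ?_⟩
    have h1 : y + t = x := hyx
    show x - y = t
    rw [← h1]
    abel
  have hcard : (P ∪ Q.map τ).card = a + b := by
    rw [Finset.card_union_of_disjoint hdisj, Finset.card_map, hP, hQ]
  have h1 := FinTransfer_f_le (P ∪ Q.map τ)
  rw [hcard] at h1
  refine h1.trans ?_
  obtain ⟨S, hS, hS1, hS2⟩ := FinTransfer_alpha (P ∪ Q.map τ)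
  rw [← hS2, ← hPa, ← hQa]
  have h2 : (S ∩ P).card ≤ alphaU P :=
    FinTransfer_le_alpha Finset.inter_subset_right fun x hx y hy =>
      hS1 x (Finset.mem_inter.mp hx).1 y (Finset.mem_inter.mp hy).1
  have h3 : (Q.filter fun y => τ y ∈ S).card ≤ alphaU Q := by
    refine FinTransfer_le_alpha (Finset.filter_subset _ _) fun x hx y hy => ?_
    have h4 := hS1 _ (Finset.mem_filter.mp hx).2 _ (Finset.mem_filter.mp hy).2
    have h5 : dist (τ x) (τ y) = dist x y := dist_add_right x y t
    rwa [h5] at h4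
  have h4 : S ⊆ (S ∩ P) ∪ (Q.filter fun y => τ y ∈ S).map τ := by
    intro x hx
    rcases Finset.mem_union.mp (hS hx) with h5 | h5
    · exact Finset.mem_union_left _ (Finset.mem_inter.mpr ⟨hx, h5⟩)
    · apply Finset.mem_union_right
      obtain ⟨y, hy, hyx⟩ := Finset.mem_map.mp h5
      exact Finset.mem_map.mpr ⟨y, Finset.mem_filter.mpr ⟨hy, by rw [hyx]; exact hx⟩, hyx⟩
  calc S.card ≤ ((S ∩ P) ∪ (Q.filter fun y => τ y ∈ S).map τ).card := Finset.card_le_card h4
    _ ≤ (S ∩ P).card + ((Q.filter fun y => τ y ∈ S).map τ).card := Finset.card_union_le _ _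
    _ ≤ alphaU P + alphaU Q := by
        rw [Finset.card_map]; exact add_le_add h2 h3

/-- Fekete: the limit exists and is the largest ratio -/
theorem f_tendsto : ∃ L : ℝ, Tendsto (fun n : ℕ => (fE n : ℝ) / n) atTop (𝓝 L) ∧ HasRatio L ∧
    ∀ c, HasRatio c → c ≤ L := by
  classical
  have hsub : Subadditive (fun n : ℕ => (fE n : ℝ)) := by
    intro a b
    show ((fE (a + b) : ℕ) : ℝ) ≤ (fE a : ℝ) + (fE b : ℝ)
    exact_mod_cast FinTransfer_sub a b
  have hbdd : BddBelow (Set.range fun n : ℕ => (fE n : ℝ) / n) := by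
    refine ⟨0, ?_⟩
    rintro _ ⟨n, rfl⟩
    positivity
  refine ⟨hsub.lim, hsub.tendsto_lim hbdd, ?_, ?_⟩
  · intro P
    obtain ⟨S, hS, hS1, hS2⟩ := FinTransfer_alpha (P.map FinTransfer_e.toEquiv.toEmbedding)
    refine ⟨P.filter fun z => FinTransfer_e z ∈ S, Finset.filter_subset _ _, ?_, ?_⟩
    · intro x hx y hy
      rw [Finset.mem_coe, Finset.mem_filter] at hx hy
      have h1 := hS1 _ hx.2 _ hy.2
      rwa [FinTransfer_e.dist_map] at h1
    · have h2 : (P.filter fun z => FinTransfer_e z ∈ S).card = S.card := by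
        rw [← Finset.card_map FinTransfer_e.toEquiv.toEmbedding]
        congr 1
        ext x
        rw [Finset.mem_map]
        constructor
        · rintro ⟨y, hy, rfl⟩
          exact (Finset.mem_filter.mp hy).2
        · intro hx
          obtain ⟨y, hy, hyx⟩ := Finset.mem_map.mp (hS hx)
          refine ⟨y, Finset.mem_filter.mpr ⟨hy, ?_⟩, hyx⟩
          have h3 : FinTransfer_e y = x := hyx
          rw [h3]; exact hx
      rw [h2, hS2]
      have h3 := FinTransfer_f_le (P.map FinTransfer_e.toEquiv.toEmbedding)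
      rw [Finset.card_map] at h3
      rcases Nat.eq_zero_or_pos P.card with h0 | h0
      · rw [h0, Nat.cast_zero, mul_zero]
        positivity
      · have h4 := hsub.lim_le_div hbdd h0.ne'
        have h5 : (0 : ℝ) < P.card := by exact_mod_cast h0
        rw [le_div_iff₀ h5] at h4
        refine h4.trans ?_
        exact_mod_cast h3
  · intro c hc
    refine ge_of_tendsto (hsub.tendsto_lim hbdd) ?_
    filter_upwards [eventually_ge_atTop 1] with n hn
    obtain ⟨P, hP, hPa⟩ := FinTransfer_f n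
    obtain ⟨S, hS, hS1, hS2⟩ := hc (P.map FinTransfer_e.symm.toEquiv.toEmbedding)
    rw [Finset.card_map, hP] at hS2
    have h5 : (0 : ℝ) < n := by exact_mod_cast hn
    rw [le_div_iff₀ h5]
    refine hS2.trans ?_
    have h6 : (S.map FinTransfer_e.toEquiv.toEmbedding).card ≤ alphaU P := by
      refine FinTransfer_le_alpha ?_ ?_
      · intro x hx
        obtain ⟨y, hy, rfl⟩ := Finset.mem_map.mp hx
        obtain ⟨w, hw, hwy⟩ := Finset.mem_map.mp (hS hy)
        have h7 : FinTransfer_e.symm w = y := hwy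
        have h8 : FinTransfer_e y = w := by rw [← h7]; simp
        show FinTransfer_e y ∈ P
        rw [h8]; exact hw
      · intro x hx y hy
        obtain ⟨x', hx', rfl⟩ := Finset.mem_map.mp hx
        obtain ⟨y', hy', rfl⟩ := Finset.mem_map.mp hy
        have h7 : dist (FinTransfer_e x') (FinTransfer_e y') = dist x' y' :=
          FinTransfer_e.dist_map x' y'
        show dist (FinTransfer_e x') (FinTransfer_e y') ≠ 1
        rw [h7]
        exact hS1 x' (Finset.mem_coe.mpr hx') y' (Finset.mem_coe.mpr hy')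
    rw [Finset.card_map, hPa] at h6
    exact_mod_cast h6

end Dadc30
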