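import Pool.Agent.Lib.MP_dadc30_co.HaarX

/-!
# MP_dadc30_co, module FtUnique: a finite measure on `X` is determined by its transform.
The characters span a star-subalgebra of `C(X, ℂ)` separating points
(`MeasureTheory.ext_of_forall_mem_subalgebra_integral_eq_of_polish` or
`..._of_pseudoEMetric_complete_countable`, or Stone-Weierstrass). -/

open MeasureTheory ProbabilityTheory Filter Topology
open scoped ENNReal ComplexConjugate

namespace Dadc30

/-- a character as a bounded continuous function -/
noncomputable def FtUnique_e (z : K) : BoundedContinuousFunction X ℂ :=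
  BoundedContinuousFunction.mkOfCompact ⟨chi z, continuous_chi z⟩

theorem FtUnique_e_apply (z : K) (x : X) : FtUnique_e z x = chi z x := rfl

theorem FtUnique_e_mul (z w : K) : FtUnique_e z * FtUnique_e w = FtUnique_e (z + w) := by
  ext x
  rw [BoundedContinuousFunction.mul_apply, FtUnique_e_apply, FtUnique_e_apply, FtUnique_e_apply,
    chi_add]

theorem FtUnique_e_zero : (1 : BoundedContinuousFunction X ℂ) = FtUnique_e 0 := by
  ext x
  rw [FtUnique_e_apply, chi_zero]
  rfl

theorem FtUnique_e_star (z : K) : star (FtUnique_e z) = FtUnique_e (-z) := by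
  ext x
  rw [BoundedContinuousFunction.star_apply, FtUnique_e_apply, FtUnique_e_apply, chi_neg]
  rfl

/-- the span of the characters -/
noncomputable def FtUnique_P : Submodule ℂ (BoundedContinuousFunction X ℂ) :=
  Submodule.span ℂ (Set.range FtUnique_e)

theorem FtUnique_mul_mem {f g : BoundedContinuousFunction X ℂ} (hf : f ∈ FtUnique_P)
    (hg : g ∈ FtUnique_P) : f * g ∈ FtUnique_P := by
  unfold FtUnique_P at *
  induction hf using Submodule.span_induction with
  | mem f hf =>
    obtain ⟨z, rfl⟩ := hf
    induction hg using Submodule.span_induction with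
    | mem g hg =>
      obtain ⟨w, rfl⟩ := hg
      rw [FtUnique_e_mul]
      exact Submodule.subset_span ⟨_, rfl⟩
    | zero => rw [mul_zero]; exact Submodule.zero_mem _
    | add x y _ _ hx hy => rw [mul_add]; exact Submodule.add_mem _ hx hy
    | smul a x _ hx => rw [mul_smul_comm]; exact Submodule.smul_mem _ a hx
  | zero => rw [zero_mul]; exact Submodule.zero_mem _
  | add x y _ _ hx hy => rw [add_mul]; exact Submodule.add_mem _ hx hy
  | smul a x _ hx => rw [smul_mul_assoc]; exact Submodule.smul_mem _ a hx

theorem FtUnique_star_mem {f : BoundedContinuousFunction X ℂ} (hf : f ∈ FtUnique_P) :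
    star f ∈ FtUnique_P := by
  unfold FtUnique_P at *
  induction hf using Submodule.span_induction with
  | mem f hf =>
    obtain ⟨z, rfl⟩ := hf
    rw [FtUnique_e_star]
    exact Submodule.subset_span ⟨_, rfl⟩
  | zero => rw [star_zero]; exact Submodule.zero_mem _
  | add x y _ _ hx hy => rw [star_add]; exact Submodule.add_mem _ hx hy
  | smul a x _ hx => rw [star_smul]; exact Submodule.smul_mem _ _ hx

theorem FtUnique_one_mem : (1 : BoundedContinuousFunction X ℂ) ∈ FtUnique_P := by
  rw [FtUnique_e_zero]
  exact Submodule.subset_span ⟨_, rfl⟩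

/-- the star algebra of trigonometric polynomials -/
noncomputable def FtUnique_A : StarSubalgebra ℂ (BoundedContinuousFunction X ℂ) where
  carrier := FtUnique_P
  mul_mem' := fun hf hg => FtUnique_mul_mem hf hg
  one_mem' := FtUnique_one_mem
  add_mem' := fun hf hg => FtUnique_P.add_mem hf hg
  zero_mem' := FtUnique_P.zero_mem
  algebraMap_mem' := fun a => by
    have h := FtUnique_P.smul_mem a FtUnique_one_mem
    rwa [← Algebra.algebraMap_eq_smul_one] at h
  star_mem' := fun hf => FtUnique_star_mem hf

theorem ft_unique (σ τ : Measure X) [IsFiniteMeasure σ] [IsFiniteMeasure τ]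
    (h : ∀ z, ft σ z = ft τ z) : σ = τ := by
  have hcirc : PolishSpace Circle := by
    have hemb : Topology.IsEmbedding (fun z : Circle => (z : ℂ)) := Topology.IsEmbedding.subtypeVal
    exact (Topology.IsClosedEmbedding.mk hemb
      (isCompact_range hemb.continuous).isClosed).polishSpace
  have hcl : IsClosed (Set.range (Subtype.val : X → (K → Circle))) :=
    (isCompact_range continuous_subtype_val).isClosed
  have hpol : PolishSpace X :=
    (Topology.IsClosedEmbedding.mk Topology.IsEmbedding.subtypeVal hcl).polishSpace
  refine ext_of_forall_mem_subalgebra_integral_eq_of_polish (𝕜 := ℂ) (A := FtUnique_A) ?_ ?_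
  · intro x y hxy
    have h1 : ∃ z, chi z x ≠ chi z y := by
      by_contra hcon
      push Not at hcon
      exact hxy (X_ext hcon)
    obtain ⟨z, hz⟩ := h1
    have hmem : FtUnique_e z ∈ FtUnique_A := Submodule.subset_span ⟨z, rfl⟩
    exact ⟨chi z, ⟨BoundedContinuousFunction.toContinuousMapStarₐ ℂ (FtUnique_e z),
      ⟨FtUnique_e z, hmem, rfl⟩, rfl⟩, hz⟩
  · intro g hg
    have hg' : g ∈ Submodule.span ℂ (Set.range FtUnique_e) := hg
    induction hg' using Submodule.span_induction with
    | mem f hf =>
      obtain ⟨z, rfl⟩ := hf
      exact h z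
    | zero => simp
    | add f g hf hg' ihf ihg =>
      have e1 := ihf hf
      have e2 := ihg hg'
      have i1 : Integrable (fun x => f x) σ := f.integrable σ
      have i2 : Integrable (fun x => g x) σ := g.integrable σ
      have i3 : Integrable (fun x => f x) τ := f.integrable τ
      have i4 : Integrable (fun x => g x) τ := g.integrable τ
      simp only [BoundedContinuousFunction.add_apply]
      rw [integral_add i1 i2, integral_add i3 i4, e1, e2]
    | smul a f hf ihf =>
      have e1 := ihf hf
      simp only [BoundedContinuousFunction.smul_apply]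
      rw [integral_smul, integral_smul, e1]

theorem pmp_of_ft (σ : Measure X) [IsFiniteMeasure σ]
    (h : ∀ (w : Γ₀) z, ft σ (toK w * z) = ft σ z) : PMP Γ₀ σ := by
  intro w
  have hm : Measurable (fun x : X => w • x) := measurable_smul_X w
  refine ⟨hm, ?_⟩
  refine ft_unique _ _ fun z => ?_
  rw [← h w z]
  unfold ft
  rw [integral_map hm.aemeasurable (measurable_chi z).aestronglyMeasurable]
  simp_rw [chi_smul]

end Dadc30
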