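import Pool.Agent.Lib.MP_dadc30_co.NearDiagA

/-!
# MP_dadc30_co, module Good: every set of the next factor is good.

`A` is good if for every `ε` there are finitely many invariant sets `Φ` and `δ > 0` such that for
every invariant `D' ⊆ nbhd Φ δ` the mismatch set `{z | z.1 ∈ A xor z.2 ∈ A}` has
`Y.sq`-measure at most `ε Y.sq D'` inside `D'`.
* complement: same mismatch set;
* countable unions: finite unions by intersecting neighbourhoods (`nbhd_mono`; ε/n each), and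
  `A = ⋃ A_n`: mismatch(A) ⊆ mismatch(A_0 ∪ … ∪ A_N) ∪ {z.1 ∈ A \ A_{≤N}} ∪ {z.2 ∈ A \ A_{≤N}}; the
  last two have measure `μ(A \ A_{≤N}) Y.sq D'` each inside `D'` by `sq_const`, `sq_const_snd`;
* `A ∈ Y.m`: the mismatch set is null (`Fac.self`);
* `A = {q_{D,B} < s}`: take `Φ = {D}`: a.e. on `nbhd {D} δ` (where `κ_{z.1} = κ_{z.2}`)
  `|q(z.1) - q(z.2)| ≤ rho D z < δ`, so a mismatch forces one of `q(z.1), q(z.2)` into
  `(s-δ, s)`: measure inside `D'` at most `2 μ{x | s - δ < q x < s} Y.sq D'` and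
  `μ{s-δ < q < s} → 0` as `δ → 0`.  (`s = ∞` or `s > 1`: the set is everything since `q ≤ 1`.)
-/

open MeasureTheory ProbabilityTheory Filter Topology
open scoped ENNReal ComplexConjugate

namespace Dadc30

variable {G : Type} [CommGroup G] {Ω : Type} [MeasurableSpace Ω] [MulAction G Ω]
  {μ : Measure Ω} [IsProbabilityMeasure μ]

/-- good sets -/
def Fac.Good (Y : Fac G μ) (A : Set Ω) : Prop :=
  MeasurableSet A ∧ ∀ ε : ℝ≥0∞, 0 < ε → ∃ Φ : Finset (Set (Ω × Ω)), (∀ D ∈ Φ, InvSet G D) ∧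
    ∃ δ : ℝ≥0∞, 0 < δ ∧ ∀ D', InvSet G D' → D' ⊆ Y.nbhd Φ δ →
      Y.sq (D' ∩ {z | ¬ (z.1 ∈ A ↔ z.2 ∈ A)}) ≤ ε * Y.sq D'

theorem good_compl (Y : Fac G μ) {A : Set Ω} (h : Y.Good A) : Y.Good Aᶜ := by
  refine ⟨h.1.compl, fun ε hε => ?_⟩
  obtain ⟨Φ, hΦ, δ, hδ, h2⟩ := h.2 ε hε
  refine ⟨Φ, hΦ, δ, hδ, fun D' hD' hsub => ?_⟩
  have h3 : {z : Ω × Ω | ¬ (z.1 ∈ Aᶜ ↔ z.2 ∈ Aᶜ)} = {z | ¬ (z.1 ∈ A ↔ z.2 ∈ A)} := by
    ext z
    simp only [Set.mem_ofPred_eq, Set.mem_compl_iff]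
    tauto
  rw [h3]
  exact h2 D' hD' hsub

theorem good_eps_aux {a b : ℝ≥0∞} (h : ∀ ε : ℝ≥0∞, 0 < ε → ε ≤ 1 → a ≤ ε * b) (ε : ℝ≥0∞)
    (hε : 0 < ε) : a ≤ ε * b := by
  rcases le_total ε 1 with h1 | h1
  · exact h ε hε h1
  · exact (h 1 one_pos le_rfl).trans (mul_le_mul_left h1 b)

theorem good_iUnion (hμ : PMP G μ) (hE : Erg G μ) (Y : Fac G μ) {A : ℕ → Set Ω}
    (h : ∀ n, Y.Good (A n)) : Y.Good (⋃ n, A n) := by
  classical
  have hm : MeasurableSet (⋃ n, A n) := MeasurableSet.iUnion fun n => (h n).1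
  refine ⟨hm, fun ε hε => ?_⟩
  have hε4 : 0 < ε / 4 := ENNReal.div_pos hε.ne' (by norm_num)
  -- finite stage
  have hB : ∃ N : ℕ, μ ((⋃ n, A n) \ ⋃ n ∈ Finset.range N, A n) ≤ ε / 4 := by
    have ht : Tendsto (fun N : ℕ => μ ((⋃ n, A n) \ ⋃ n ∈ Finset.range N, A n)) atTop (𝓝 0) := by
      have h1 : (⋂ N : ℕ, (⋃ n, A n) \ ⋃ n ∈ Finset.range N, A n) = ∅ := by
        ext x
        simp only [Set.mem_iInter, Set.mem_diff, Set.mem_iUnion, Finset.mem_range,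
          Set.mem_empty_iff_false, iff_false, not_forall]
        by_cases hx : ∃ n, x ∈ A n
        · obtain ⟨n, hn⟩ := hx
          refine ⟨n + 1, fun hc => hc.2 ⟨n, Nat.lt_succ_self n, hn⟩⟩
        · exact ⟨0, fun hc => hx hc.1⟩
      have h2 : Antitone (fun N : ℕ => (⋃ n, A n) \ ⋃ n ∈ Finset.range N, A n) := by
        intro N M hNM x hx
        simp only [Set.mem_diff, Set.mem_iUnion, Finset.mem_range] at hx ⊢
        exact ⟨hx.1, fun ⟨n, hn, hxn⟩ => hx.2 ⟨n, lt_of_lt_of_le hn hNM, hxn⟩⟩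
      have h3 := tendsto_measure_iInter_atTop (μ := μ)
        (s := fun N : ℕ => (⋃ n, A n) \ ⋃ n ∈ Finset.range N, A n)
        (fun N => (hm.diff (MeasurableSet.biUnion (Finset.countable_toSet _)
          (fun n _ => (h n).1))).nullMeasurableSet) h2 ⟨0, measure_ne_top _ _⟩
      rw [h1, measure_empty] at h3
      exact h3
    obtain ⟨N, hN⟩ := ((tendsto_order.1 ht).2 _ hε4).exists
    exact ⟨N, hN.le⟩
  obtain ⟨N, hN⟩ := hB
  set C : Set Ω := (⋃ n, A n) \ ⋃ n ∈ Finset.range N, A n with hC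
  have hCm : MeasurableSet C := hm.diff (MeasurableSet.biUnion (Finset.countable_toSet _)
          (fun n _ => (h n).1))
  have hη : 0 < ε / (2 * (N + 1)) := by
    refine ENNReal.div_pos hε.ne' ?_
    exact ENNReal.mul_ne_top (by norm_num) (by
      exact_mod_cast ENNReal.natCast_ne_top (N + 1))
  choose Φ hΦ δ hδ hΦδ using fun n => (h n).2 (ε / (2 * (N + 1))) hη
  refine ⟨(Finset.range N).biUnion Φ, ?_, (Finset.range N).inf δ, ?_, ?_⟩
  · intro D hD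
    obtain ⟨n, -, hn⟩ := Finset.mem_biUnion.1 hD
    exact hΦ n D hn
  · rw [Finset.lt_inf_iff (by simp)]
    exact fun n _ => hδ n
  · intro D' hD' hsub
    have h1 : D' ∩ {z : Ω × Ω | ¬ (z.1 ∈ (⋃ n, A n) ↔ z.2 ∈ (⋃ n, A n))} ⊆
        (⋃ n ∈ Finset.range N, D' ∩ {z | ¬ (z.1 ∈ A n ↔ z.2 ∈ A n)}) ∪
          ((D' ∩ {z | z.1 ∈ C}) ∪ (D' ∩ {z | z.2 ∈ C})) := by
      rintro z ⟨hz, hz2⟩
      have key : ∀ x y : Ω, x ∈ (⋃ n, A n) → y ∉ (⋃ n, A n) → x ∈ C ∨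
          ∃ n ∈ Finset.range N, x ∈ A n ∧ y ∉ A n := by
        intro x y hx hy
        by_cases hxC : x ∈ C
        · exact Or.inl hxC
        · right
          have h3 : x ∈ ⋃ n ∈ Finset.range N, A n := by
            by_contra h4
            exact hxC ⟨hx, h4⟩
          simp only [Set.mem_iUnion] at h3
          obtain ⟨n, hn, hxn⟩ := h3
          exact ⟨n, hn, hxn, fun hyn => hy (Set.mem_iUnion.2 ⟨n, hyn⟩)⟩
      by_cases hz1 : z.1 ∈ (⋃ n, A n)
      · have hz3 : z.2 ∉ (⋃ n, A n) := fun hc => hz2 ⟨fun _ => hc, fun _ => hz1⟩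
        rcases key z.1 z.2 hz1 hz3 with h4 | ⟨n, hn, h4, h5⟩
        · exact Or.inr (Or.inl ⟨hz, h4⟩)
        · left
          simp only [Set.mem_iUnion]
          exact ⟨n, hn, hz, fun hc => h5 (hc.1 h4)⟩
      · have hz3 : z.2 ∈ (⋃ n, A n) := by
          by_contra hc
          exact hz2 ⟨fun h6 => absurd h6 hz1, fun h6 => absurd h6 hc⟩
        rcases key z.2 z.1 hz3 hz1 with h4 | ⟨n, hn, h4, h5⟩
        · exact Or.inr (Or.inr ⟨hz, h4⟩)
        · left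
          simp only [Set.mem_iUnion]
          exact ⟨n, hn, hz, fun hc => h5 (hc.2 h4)⟩
    have h2 : ∀ n ∈ Finset.range N, Y.sq (D' ∩ {z | ¬ (z.1 ∈ A n ↔ z.2 ∈ A n)}) ≤
        ε / (2 * (N + 1)) * Y.sq D' := by
      intro n hn
      refine hΦδ n D' hD' (hsub.trans (nbhd_mono Y ?_ ?_))
      · exact Finset.subset_biUnion_of_mem Φ hn
      · exact Finset.inf_le hn
    have h3 : Y.sq (⋃ n ∈ Finset.range N, D' ∩ {z | ¬ (z.1 ∈ A n ↔ z.2 ∈ A n)}) ≤
        ε / 2 * Y.sq D' := by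
      refine (measure_biUnion_finset_le _ _).trans ?_
      refine (Finset.sum_le_sum h2).trans ?_
      rw [Finset.sum_const, Finset.card_range, nsmul_eq_mul, ← mul_assoc]
      refine mul_le_mul_left ?_ _
      have hne : ((N : ℝ≥0∞) + 1) ≠ 0 := by positivity
      have hnt : ((N : ℝ≥0∞) + 1) ≠ ⊤ := by exact_mod_cast ENNReal.natCast_ne_top (N + 1)
      calc (N : ℝ≥0∞) * (ε / (2 * (N + 1))) ≤ ((N : ℝ≥0∞) + 1) * (ε / (2 * (N + 1))) :=
            mul_le_mul_left le_self_add _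
        _ = ε / 2 := by
            rw [ENNReal.div_eq_inv_mul, ENNReal.mul_inv (by norm_num) (by norm_num),
              ENNReal.div_eq_inv_mul]
            rw [show ((N : ℝ≥0∞) + 1) * ((2 : ℝ≥0∞)⁻¹ * ((N : ℝ≥0∞) + 1)⁻¹ * ε) =
              (((N : ℝ≥0∞) + 1) * ((N : ℝ≥0∞) + 1)⁻¹) * ((2 : ℝ≥0∞)⁻¹ * ε) by ring]
            rw [ENNReal.mul_inv_cancel hne hnt, one_mul]
    have h4 : Y.sq (D' ∩ {z | z.1 ∈ C}) ≤ ε / 4 * Y.sq D' := by
      rw [sq_const hμ hE Y hD' hCm, mul_comm]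
      exact mul_le_mul_left hN _
    have h5 : Y.sq (D' ∩ {z | z.2 ∈ C}) ≤ ε / 4 * Y.sq D' := by
      rw [sq_const_snd hμ hE Y hD' hCm, mul_comm]
      exact mul_le_mul_left hN _
    refine (measure_mono h1).trans ?_
    refine (measure_union_le _ _).trans ?_
    refine (add_le_add h3 ((measure_union_le _ _).trans (add_le_add h4 h5))).trans ?_
    rw [← add_mul, ← add_mul]
    refine mul_le_mul_left (le_of_eq ?_) _
    have e0 : ε / 4 = ε / 2 / 2 := by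
      rw [div_eq_mul_inv, div_eq_mul_inv, div_eq_mul_inv, mul_assoc,
        ← ENNReal.mul_inv (Or.inl two_ne_zero) (Or.inl ENNReal.ofNat_ne_top)]
      norm_num
    have e1 : ε / 4 + ε / 4 = ε / 2 := by
      rw [e0, ENNReal.add_halves]
    rw [e1, ENNReal.add_halves]

theorem good_self [StandardBorelSpace Ω] (Y : Fac G μ) {A : Set Ω} (h : MeasurableSet[Y.m] A) :
    Y.Good A := by
  have hA : MeasurableSet A := Y.le A h
  refine ⟨hA, fun ε hε => ⟨∅, by simp, 1, one_pos, fun D' hD' _ => ?_⟩⟩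
  have hms : MeasurableSet {z : Ω × Ω | ¬ (z.1 ∈ A ↔ z.2 ∈ A)} := by
    have h1 : MeasurableSet {z : Ω × Ω | z.1 ∈ A} := measurable_fst hA
    have h2 : MeasurableSet {z : Ω × Ω | z.2 ∈ A} := measurable_snd hA
    exact (MeasurableSet.iff h1 h2).compl
  have h0 : Y.sq {z : Ω × Ω | ¬ (z.1 ∈ A ↔ z.2 ∈ A)} = 0 := by
    rw [Fac.sq_apply Y hms, lintegral_eq_zero_iff']
    · filter_upwards [Y.self A h] with x hx
      have h3 : Y.κ x {y | ¬ (y ∈ A ↔ x ∈ A)} = 0 := ae_iff.1 hx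
      show Y.κ x {y | (x, y) ∈ {z : Ω × Ω | ¬ (z.1 ∈ A ↔ z.2 ∈ A)}} = 0
      rw [← h3]
      congr 1
      ext y
      simp only [Set.mem_ofPred_eq]
      tauto
    · exact (Kernel.measurable_kernel_prodMk_left hms).aemeasurable
  calc Y.sq (D' ∩ {z | ¬ (z.1 ∈ A ↔ z.2 ∈ A)}) ≤ Y.sq {z | ¬ (z.1 ∈ A ↔ z.2 ∈ A)} :=
        measure_mono Set.inter_subset_right
    _ = 0 := h0
    _ ≤ _ := zero_le

theorem good_q [StandardBorelSpace Ω] (hμ : PMP G μ) (hE : Erg G μ) (Y : Fac G μ)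
    {D : Set (Ω × Ω)} (hD : InvSet G D) {B : Set Ω} (hB : MeasurableSet B) (s : ℝ≥0∞) :
    Y.Good {x | Y.q D B x < s} := by
  classical
  have hq : Measurable (Y.q D B) := q_measurable Y hD.1 hB
  have hA : MeasurableSet {x | Y.q D B x < s} := measurableSet_lt hq measurable_const
  refine ⟨hA, fun ε hε => ?_⟩
  have hε2 : 0 < ε / 2 := ENNReal.div_pos hε.ne' (by norm_num)
  have hq1 : ∀ x, Y.q D B x ≤ 1 := fun x => prob_le_one
  -- the critical strip
  have hstrip : ∃ n : ℕ, μ {x | Y.q D B x < s ∧ s < Y.q D B x + ((n : ℝ≥0∞) + 1)⁻¹} ≤ ε / 2 := by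
    have hmeas : ∀ n : ℕ, MeasurableSet {x | Y.q D B x < s ∧ s < Y.q D B x + ((n : ℝ≥0∞) + 1)⁻¹} :=
      fun n => (measurableSet_lt hq measurable_const).inter
        (measurableSet_lt measurable_const (hq.add_const _))
    have h2 : Antitone (fun n : ℕ => {x | Y.q D B x < s ∧ s < Y.q D B x + ((n : ℝ≥0∞) + 1)⁻¹}) := by
      intro n m hnm x hx
      refine ⟨hx.1, lt_of_lt_of_le hx.2 ?_⟩
      gcongr
    have h1 : (⋂ n : ℕ, {x | Y.q D B x < s ∧ s < Y.q D B x + ((n : ℝ≥0∞) + 1)⁻¹}) = ∅ := by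
      ext x
      simp only [Set.mem_iInter, Set.mem_ofPred_eq, Set.mem_empty_iff_false, iff_false, not_forall]
      by_contra hc
      push Not at hc
      have hx0 := (hc 0).1
      have hpos : s - Y.q D B x ≠ 0 := (tsub_pos_of_lt hx0).ne'
      obtain ⟨n, hn⟩ := ENNReal.exists_inv_nat_lt hpos
      have h3 := (hc n).2
      have h4 : Y.q D B x + ((n : ℝ≥0∞) + 1)⁻¹ ≤ s := by
        have h5 : ((n : ℝ≥0∞) + 1)⁻¹ ≤ s - Y.q D B x := by
          refine le_trans ?_ hn.le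
          exact ENNReal.inv_le_inv.2 le_self_add
        calc Y.q D B x + ((n : ℝ≥0∞) + 1)⁻¹ ≤ Y.q D B x + (s - Y.q D B x) := by gcongr
          _ = s := add_tsub_cancel_of_le hx0.le
      exact absurd h3 (not_lt.2 h4)
    have h3 := tendsto_measure_iInter_atTop (μ := μ)
        (s := fun n : ℕ => {x | Y.q D B x < s ∧ s < Y.q D B x + ((n : ℝ≥0∞) + 1)⁻¹})
        (fun n => (hmeas n).nullMeasurableSet) h2 ⟨0, measure_ne_top _ _⟩
    rw [h1, measure_empty] at h3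
    obtain ⟨n, hn⟩ := ((tendsto_order.1 h3).2 _ hε2).exists
    exact ⟨n, hn.le⟩
  obtain ⟨n, hn⟩ := hstrip
  set S : Set Ω := {x | Y.q D B x < s ∧ s < Y.q D B x + ((n : ℝ≥0∞) + 1)⁻¹} with hS
  have hSm : MeasurableSet S := (measurableSet_lt hq measurable_const).inter
        (measurableSet_lt measurable_const (hq.add_const _))
  refine ⟨{D}, ?_, ((n : ℝ≥0∞) + 1)⁻¹, ?_, ?_⟩
  · intro D₁ hD₁
    rw [Finset.mem_singleton] at hD₁
    rw [hD₁]
    exact hD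
  · exact ENNReal.inv_pos.2 (by exact_mod_cast ENNReal.natCast_ne_top (n + 1))
  · intro D' hD' hsub
    have h1 : ∀ᵐ z ∂Y.sq, z ∈ D' ∩ {z : Ω × Ω | ¬ (z.1 ∈ {x | Y.q D B x < s} ↔
        z.2 ∈ {x | Y.q D B x < s})} → z ∈ (D' ∩ {z | z.1 ∈ S}) ∪ (D' ∩ {z | z.2 ∈ S}) := by
      filter_upwards [Fac.sq_ae_ker Y] with z hz
      rintro ⟨hzD, hz2⟩
      have hrho : Y.rho D z < ((n : ℝ≥0∞) + 1)⁻¹ := hsub hzD D (Finset.mem_singleton_self D)
      have k1 : Y.q D B z.1 ≤ Y.q D B z.2 + Y.rho D z := by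
        unfold Fac.q Fac.rho
        rw [← hz]
        refine le_trans (measure_mono ?_) (measure_union_le _ _)
        intro y hy
        by_cases hy2 : (z.2, y) ∈ D
        · exact Or.inl ⟨hy.1, hy2⟩
        · exact Or.inr fun hc => hy2 (hc.1 hy.2)
      have k2 : Y.q D B z.2 ≤ Y.q D B z.1 + Y.rho D z := by
        unfold Fac.q Fac.rho
        rw [← hz]
        refine le_trans (measure_mono ?_) (measure_union_le _ _)
        intro y hy
        by_cases hy2 : (z.1, y) ∈ D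
        · exact Or.inl ⟨hy.1, hy2⟩
        · exact Or.inr fun hc => hy2 (hc.2 hy.2)
      have hfin : ∀ x, Y.q D B x ≠ ⊤ := fun x => (lt_of_le_of_lt (hq1 x) ENNReal.one_lt_top).ne
      simp only [Set.mem_ofPred_eq] at hz2
      by_cases h3 : Y.q D B z.1 < s
      · have h4 : ¬ Y.q D B z.2 < s := fun hc => hz2 ⟨fun _ => hc, fun _ => h3⟩
        left
        refine ⟨hzD, h3, ?_⟩
        calc s ≤ Y.q D B z.2 := not_lt.1 h4
          _ ≤ Y.q D B z.1 + Y.rho D z := k2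
          _ < _ := ENNReal.add_lt_add_left (hfin _) hrho
      · have h4 : Y.q D B z.2 < s := by
          by_contra hc
          exact hz2 ⟨fun h6 => absurd h6 h3, fun h6 => absurd h6 hc⟩
        right
        refine ⟨hzD, h4, ?_⟩
        calc s ≤ Y.q D B z.1 := not_lt.1 h3
          _ ≤ Y.q D B z.2 + Y.rho D z := k1
          _ < _ := ENNReal.add_lt_add_left (hfin _) hrho
    refine (measure_mono_ae h1).trans ?_
    refine (measure_union_le _ _).trans ?_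
    have h4 : Y.sq (D' ∩ {z | z.1 ∈ S}) ≤ ε / 2 * Y.sq D' := by
      rw [sq_const hμ hE Y hD' hSm, mul_comm]
      exact mul_le_mul_left hn _
    have h5 : Y.sq (D' ∩ {z | z.2 ∈ S}) ≤ ε / 2 * Y.sq D' := by
      rw [sq_const_snd hμ hE Y hD' hSm, mul_comm]
      exact mul_le_mul_left hn _
    refine (add_le_add h4 h5).trans ?_
    rw [← add_mul, ENNReal.add_halves]

end Dadc30
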