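import Pool.Agent.Lib.MP_dadc30_co.NearDiagA

open MeasureTheory ProbabilityTheory Filter Topology
open scoped ENNReal ComplexConjugate

namespace Dadc30

variable {G : Type} [CommGroup G] {Ω : Type} [MeasurableSpace Ω] [MulAction G Ω]
  {μ : Measure Ω} [IsProbabilityMeasure μ]

/-- `D` can be approximated by finite unions of rectangles. -/
def NearDiagPos_P (m : Measure (Ω × Ω)) (D : Set (Ω × Ω)) : Prop :=
  ∀ η : ℝ≥0∞, 0 < η → ∃ (n : ℕ) (i : Ω → Fin n) (B : Fin n → Set Ω), Measurable i ∧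
    (∀ k, MeasurableSet (B k)) ∧ m {z | ¬ (z ∈ D ↔ z.2 ∈ B (i z.1))} < η

theorem NearDiagPos_union {m : Measure (Ω × Ω)} {D D' : Set (Ω × Ω)} (h : NearDiagPos_P m D)
    (h' : NearDiagPos_P m D') : NearDiagPos_P m (D ∪ D') := by
  intro η hη
  have hη2 : 0 < η / 2 := ENNReal.div_pos hη.ne' (by norm_num)
  obtain ⟨n, i, B, hi, hB, he⟩ := h (η / 2) hη2
  obtain ⟨n', i', B', hi', hB', he'⟩ := h' (η / 2) hη2
  refine ⟨n * n', fun x => finProdFinEquiv (i x, i' x),
    fun k => B (finProdFinEquiv.symm k).1 ∪ B' (finProdFinEquiv.symm k).2,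
    (measurable_of_countable _).comp (hi.prodMk hi'), fun k => (hB _).union (hB' _), ?_⟩
  calc m {z | ¬ (z ∈ D ∪ D' ↔ z.2 ∈ B (finProdFinEquiv.symm (finProdFinEquiv (i z.1, i' z.1))).1 ∪
        B' (finProdFinEquiv.symm (finProdFinEquiv (i z.1, i' z.1))).2)}
      ≤ m ({z | ¬ (z ∈ D ↔ z.2 ∈ B (i z.1))} ∪ {z | ¬ (z ∈ D' ↔ z.2 ∈ B' (i' z.1))}) := by
        apply measure_mono
        intro z hz
        simp only [Equiv.symm_apply_apply, Set.mem_ofPred_eq, Set.mem_union] at hz ⊢
        tauto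
    _ ≤ m {z | ¬ (z ∈ D ↔ z.2 ∈ B (i z.1))} + m {z | ¬ (z ∈ D' ↔ z.2 ∈ B' (i' z.1))} :=
        measure_union_le _ _
    _ < η / 2 + η / 2 := ENNReal.add_lt_add he he'
    _ = η := ENNReal.add_halves η

theorem NearDiagPos_all (m : Measure (Ω × Ω)) [IsFiniteMeasure m] {D : Set (Ω × Ω)}
    (hD : MeasurableSet D) : NearDiagPos_P m D := by
  refine MeasurableSpace.induction_on_inter (C := fun D _ => NearDiagPos_P m D)
    generateFrom_prod.symm isPiSystem_prod ?_ ?_ ?_ ?_ D hD
  · intro η hη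
    refine ⟨1, fun _ => 0, fun _ => ∅, measurable_const, fun _ => MeasurableSet.empty, ?_⟩
    simpa using hη
  · rintro _ ⟨s, hs, t, ht, rfl⟩ η hη
    classical
    refine ⟨2, fun x => if x ∈ s then 1 else 0, fun k => if k = 1 then t else ∅,
      Measurable.ite hs measurable_const measurable_const, ?_, ?_⟩
    · intro k
      by_cases hk : k = 1
      · simpa [hk] using ht
      · simp [hk]
    · have : {z : Ω × Ω | ¬ (z ∈ s ×ˢ t ↔
          z.2 ∈ (if (if z.1 ∈ s then (1 : Fin 2) else 0) = 1 then t else ∅))} = ∅ := by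
        ext z
        by_cases hz : z.1 ∈ s <;> simp [hz]
      rw [this]
      simpa using hη
  · intro t ht h η hη
    obtain ⟨n, i, B, hi, hB, he⟩ := h η hη
    refine ⟨n, i, fun k => (B k)ᶜ, hi, fun k => (hB k).compl, ?_⟩
    convert he using 3
    ext z
    simp only [Set.mem_ofPred_eq, Set.mem_compl_iff]
    tauto
  · intro f hd hf h η hη
    have hη2 : 0 < η / 2 := ENNReal.div_pos hη.ne' (by norm_num)
    have hfin : ∀ N : ℕ, NearDiagPos_P m (⋃ j ∈ Finset.range N, f j) := by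
      intro N
      induction N with
      | zero =>
        intro ε hε
        refine ⟨1, fun _ => 0, fun _ => ∅, measurable_const, fun _ => MeasurableSet.empty, ?_⟩
        simpa using hε
      | succ N ih =>
        rw [Finset.range_add_one, Finset.set_biUnion_insert]
        exact NearDiagPos_union (h N) ih
    have htend : Tendsto (fun N => m ((⋃ j, f j) \ ⋃ j ∈ Finset.range N, f j)) atTop (𝓝 0) := by
      have h1 : (⋂ N, ((⋃ j, f j) \ ⋃ j ∈ Finset.range N, f j)) = ∅ := by
        ext z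
        simp only [Set.mem_iInter, Set.mem_sdiff, Set.mem_iUnion, Finset.mem_range,
          Set.mem_empty_iff_false, iff_false, not_forall]
        by_cases hz : ∃ j, z ∈ f j
        · obtain ⟨j, hj⟩ := hz
          exact ⟨j + 1, fun hh => hh.2 ⟨j, Nat.lt_succ_self j, hj⟩⟩
        · exact ⟨0, fun hh => hz hh.1⟩
      have h2 := tendsto_measure_iInter_atTop (μ := m)
        (s := fun N => (⋃ j, f j) \ ⋃ j ∈ Finset.range N, f j) ?_ ?_ ?_
      · rw [h1, measure_empty] at h2
        exact h2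
      · intro N
        apply MeasurableSet.nullMeasurableSet
        exact (MeasurableSet.iUnion hf).diff
          (Finset.measurableSet_biUnion _ (fun j _ => hf j))
      · intro N N' hN
        apply Set.sdiff_subset_sdiff_right
        exact Set.biUnion_subset_biUnion_left (by
          intro j hj
          simp only [Finset.coe_range, Set.mem_Iio] at hj ⊢
          exact lt_of_lt_of_le hj hN)
      · exact ⟨0, measure_ne_top _ _⟩
    obtain ⟨N, hN⟩ := ((tendsto_order.1 htend).2 _ hη2).exists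
    obtain ⟨n, i, B, hi, hB, he⟩ := hfin N (η / 2) hη2
    refine ⟨n, i, B, hi, hB, ?_⟩
    calc m {z | ¬ (z ∈ ⋃ j, f j ↔ z.2 ∈ B (i z.1))}
        ≤ m (((⋃ j, f j) \ ⋃ j ∈ Finset.range N, f j) ∪
            {z | ¬ (z ∈ ⋃ j ∈ Finset.range N, f j ↔ z.2 ∈ B (i z.1))}) := by
          apply measure_mono
          intro z hz
          have hsub : z ∈ ⋃ j ∈ Finset.range N, f j → z ∈ ⋃ j, f j := by
            intro hh
            simp only [Set.mem_iUnion] at hh ⊢
            obtain ⟨j, -, hj⟩ := hh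
            exact ⟨j, hj⟩
          simp only [Set.mem_ofPred_eq, Set.mem_union, Set.mem_sdiff] at hz ⊢
          tauto
      _ ≤ _ := measure_union_le _ _
      _ < η / 2 + η / 2 := ENNReal.add_lt_add hN he
      _ = η := ENNReal.add_halves η

/-- Approximation of measurable sets in a product by finite unions of rectangles over a common
finite partition, for a finite measure. (Monotone class / π-λ induction: the family of sets that
can be approximated contains rectangles and is closed under complements and countable unions;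
partition form: index by `Fin n`.) -/
theorem exists_rect_approx (m : Measure (Ω × Ω)) [IsFiniteMeasure m]
    (Φ : Finset (Set (Ω × Ω))) (hΦ : ∀ D ∈ Φ, MeasurableSet D) (η : ℝ≥0∞) (hη : 0 < η) :
    ∃ (n : ℕ) (i : Ω → Fin n) (B : Set (Ω × Ω) → Fin n → Set Ω), Measurable i ∧
      (∀ D ∈ Φ, ∀ k, MeasurableSet (B D k)) ∧
      ∀ D ∈ Φ, m {z | ¬ (z ∈ D ↔ z.2 ∈ B D (i z.1))} < η := by
  classical
  induction Φ using Finset.induction_on with
  | empty => exact ⟨1, fun _ => 0, fun _ _ => ∅, measurable_const, by simp, by simp⟩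
  | insert D Φ hDΦ ih =>
    obtain ⟨n, i, B, hi, hB, he⟩ := ih (fun D' hD' => hΦ D' (Finset.mem_insert_of_mem hD'))
    obtain ⟨n', i', B', hi', hB', he'⟩ :=
      NearDiagPos_all m (hΦ D (Finset.mem_insert_self D Φ)) η hη
    refine ⟨n * n', fun x => finProdFinEquiv (i x, i' x),
      fun D' k => if D' = D then B' (finProdFinEquiv.symm k).2
        else B D' (finProdFinEquiv.symm k).1,
      (measurable_of_countable _).comp (hi.prodMk hi'), ?_, ?_⟩
    · intro D' hD' k
      by_cases hc : D' = D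
      · simpa only [hc, if_true] using hB' _
      · simp only [hc, if_false]
        exact hB D' (Finset.mem_of_mem_insert_of_ne hD' hc) _
    · intro D' hD'
      by_cases hc : D' = D
      · subst hc
        simpa only [if_true, Equiv.symm_apply_apply] using he'
      · simp only [hc, if_false, Equiv.symm_apply_apply]
        exact he D' (Finset.mem_of_mem_insert_of_ne hD' hc)

/-- a set of positive measure has a square of positive measure -/
theorem NearDiagPos_sq_pos (Y : Fac G μ) {S : Set Ω} (hS : MeasurableSet S) (hpos : 0 < μ S) :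
    0 < Y.sq (S ×ˢ S) := by
  have hk : Measurable (fun x => Y.κ x S) := (Y.meas S hS).mono Y.le le_rfl
  set A0 : Set Ω := {x | Y.κ x S = 0} with hA0
  have hA0m : MeasurableSet[Y.m] A0 := (Y.meas S hS) (measurableSet_singleton 0)
  have h0 : μ (A0 ∩ S) = 0 := by
    rw [← Y.cond A0 S hA0m hS]
    rw [setLIntegral_eq_zero_iff (Y.le _ hA0m) hk]
    exact Filter.Eventually.of_forall fun x hx => hx
  have h1 : Y.sq (S ×ˢ S) = ∫⁻ x in S, Y.κ x S ∂μ := by
    rw [Y.sq_apply (hS.prod hS), ← lintegral_indicator hS]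
    apply lintegral_congr
    intro x
    by_cases hx : x ∈ S
    · simp [hx]
    · simp [hx]
  rw [h1, setLIntegral_pos_iff hk]
  have h2 : S \ A0 ⊆ Function.support (fun x => Y.κ x S) ∩ S := by
    intro x hx
    exact ⟨fun h => hx.2 h, hx.1⟩
  refine lt_of_lt_of_le ?_ (measure_mono h2)
  have h3 : μ S ≤ μ (A0 ∩ S) + μ (S \ A0) := by
    calc μ S ≤ μ ((A0 ∩ S) ∪ (S \ A0)) := by
          apply measure_mono
          intro x hx
          by_cases h : x ∈ A0
          · exact Or.inl ⟨h, hx⟩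
          · exact Or.inr ⟨hx, h⟩
      _ ≤ _ := measure_union_le _ _
  rw [h0, zero_add] at h3
  exact lt_of_lt_of_le hpos h3

/-- near-diagonal sets have positive measure (proof in the docstring of `NearDiagA.lean`) -/
theorem nbhd_pos [StandardBorelSpace Ω] (Y : Fac G μ) {Φ : Finset (Set (Ω × Ω))}
    (hΦ : ∀ D ∈ Φ, MeasurableSet D) {δ : ℝ≥0∞} (hδ : 0 < δ) : 0 < Y.sq (Y.nbhd Φ δ) := by
  classical
  -- reduction to a finite `δ`
  wlog hfin : δ ≠ ∞ generalizing δ
  · have h1 := this (δ := 1) one_pos ENNReal.one_ne_top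
    refine lt_of_lt_of_le h1 (measure_mono (nbhd_mono Y subset_rfl ?_))
    rw [not_not.1 hfin]
    exact le_top
  have hδ2 : 0 < δ / 2 := ENNReal.div_pos hδ.ne' (by norm_num)
  have hδ2' : δ / 2 ≠ ∞ := ENNReal.div_ne_top hfin (by norm_num)
  set c : ℝ≥0∞ := ((Φ.card + 1 : ℕ) : ℝ≥0∞) with hc
  have hc0 : c ≠ 0 := by simp [hc]
  have hct : c ≠ ∞ := ENNReal.natCast_ne_top _
  have hη : 0 < δ / 2 / c := ENNReal.div_pos hδ2.ne' hct
  obtain ⟨n, i, B, hi, hB, he⟩ := exists_rect_approx Y.sq Φ hΦ (δ / 2 / c) hη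
  set T : Set (Ω × Ω) → Set (Ω × Ω) := fun D => {z | ¬ (z ∈ D ↔ z.2 ∈ B D (i z.1))} with hT
  have hTm : ∀ D ∈ Φ, MeasurableSet (T D) := by
    intro D hD
    have hR : MeasurableSet {z : Ω × Ω | z.2 ∈ B D (i z.1)} := by
      have : {z : Ω × Ω | z.2 ∈ B D (i z.1)} =
          ⋃ k : Fin n, ((fun z : Ω × Ω => i z.1) ⁻¹' {k}) ∩ (Prod.snd ⁻¹' (B D k)) := by
        ext z
        simp
      rw [this]
      apply MeasurableSet.iUnion
      intro k
      exact ((hi.comp measurable_fst) (measurableSet_singleton k)).inter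
        (measurable_snd (hB D hD k))
    have : T D = (D ∩ {z : Ω × Ω | z.2 ∈ B D (i z.1)}ᶜ) ∪
        (Dᶜ ∩ {z : Ω × Ω | z.2 ∈ B D (i z.1)}) := by
      ext z
      simp only [hT, Set.mem_ofPred_eq, Set.mem_union, Set.mem_inter_iff, Set.mem_compl_iff]
      tauto
    rw [this]
    exact ((hΦ D hD).inter hR.compl).union ((hΦ D hD).compl.inter hR)
  set e : Set (Ω × Ω) → Ω → ℝ≥0∞ := fun D x => Y.κ x (Prod.mk x ⁻¹' (T D)) with hedef
  have hem : ∀ D ∈ Φ, Measurable (e D) := fun D hD =>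
    Kernel.measurable_kernel_prodMk_left (hTm D hD)
  have hint : ∀ D ∈ Φ, ∫⁻ x, e D x ∂μ < δ / 2 / c := by
    intro D hD
    have := he D hD
    rw [Y.sq_apply (hTm D hD)] at this
    exact this
  set Gd : Set Ω := {x | ∀ D ∈ Φ, e D x < δ / 2} with hGd
  have hGdm : MeasurableSet Gd := by
    have : Gd = ⋂ D ∈ Φ, {x | e D x < δ / 2} := by
      ext x
      simp [hGd]
    rw [this]
    exact Finset.measurableSet_biInter _ fun D hD => measurableSet_lt (hem D hD) measurable_const
  have hGdc : μ Gdᶜ < 1 := by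
    have h1 : Gdᶜ ⊆ ⋃ D ∈ Φ, {x | δ / 2 ≤ e D x} := by
      intro x hx
      simp only [hGd, Set.mem_compl_iff, Set.mem_ofPred_eq, not_forall, not_lt] at hx
      obtain ⟨D, hD, h⟩ := hx
      simp only [Set.mem_iUnion]
      exact ⟨D, hD, h⟩
    calc μ Gdᶜ ≤ μ (⋃ D ∈ Φ, {x | δ / 2 ≤ e D x}) := measure_mono h1
      _ ≤ ∑ D ∈ Φ, μ {x | δ / 2 ≤ e D x} := measure_biUnion_finset_le _ _
      _ ≤ ∑ D ∈ Φ, c⁻¹ := by
          apply Finset.sum_le_sum
          intro D hD
          have h2 := mul_meas_ge_le_lintegral (μ := μ) (hem D hD) (δ / 2)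
          have h3 : (δ / 2) * μ {x | δ / 2 ≤ e D x} ≤ (δ / 2) * c⁻¹ :=
            h2.trans ((hint D hD).le.trans (by rw [div_eq_mul_inv (δ / 2) c]))
          exact (ENNReal.mul_le_mul_iff_right hδ2.ne' hδ2').1 h3
      _ = Φ.card * c⁻¹ := by rw [Finset.sum_const, nsmul_eq_mul]
      _ < c * c⁻¹ := by
          apply (ENNReal.mul_lt_mul_iff_left (ENNReal.inv_ne_zero.2 hct)
            (ENNReal.inv_ne_top.2 hc0)).2
          rw [hc]
          exact_mod_cast Nat.lt_succ_self _
      _ = 1 := ENNReal.mul_inv_cancel hc0 hct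
  have hGdpos : 0 < μ Gd := by
    rcases eq_or_ne (μ Gd) 0 with h | h
    · exfalso
      have h1 : μ Gdᶜ = 1 := by
        rw [prob_compl_eq_one_iff hGdm]
        exact h
      rw [h1] at hGdc
      exact lt_irrefl _ hGdc
    · exact pos_iff_ne_zero.2 h
  obtain ⟨k, hk⟩ : ∃ k : Fin n, 0 < μ (Gd ∩ i ⁻¹' {k}) := by
    by_contra hno
    push Not at hno
    have h1 : μ Gd ≤ ∑ k : Fin n, μ (Gd ∩ i ⁻¹' {k}) := by
      calc μ Gd ≤ μ (⋃ k : Fin n, Gd ∩ i ⁻¹' {k}) := by
            apply measure_mono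
            intro x hx
            simp only [Set.mem_iUnion]
            exact ⟨i x, hx, rfl⟩
        _ ≤ _ := measure_iUnion_fintype_le μ _
    have h2 : ∑ k : Fin n, μ (Gd ∩ i ⁻¹' {k}) = 0 :=
      Finset.sum_eq_zero fun k _ => nonpos_iff_eq_zero.1 (hno k)
    rw [h2] at h1
    exact absurd hGdpos (not_lt.2 h1)
  set S : Set Ω := Gd ∩ i ⁻¹' {k} with hS
  have hSm : MeasurableSet S := hGdm.inter (hi (measurableSet_singleton k))
  have hpos := NearDiagPos_sq_pos Y hSm hk
  refine lt_of_lt_of_le hpos ?_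
  apply measure_mono_ae
  filter_upwards [Y.sq_ae_ker] with z hz hzS D hD
  have hz1 : z.1 ∈ S := hzS.1
  have hz2 : z.2 ∈ S := hzS.2
  have hi12 : i z.1 = i z.2 := by
    have a : i z.1 = k := hz1.2
    have b : i z.2 = k := hz2.2
    rw [a, b]
  calc Y.rho D z = Y.κ z.1 {y | ¬ ((z.1, y) ∈ D ↔ (z.2, y) ∈ D)} := rfl
    _ ≤ Y.κ z.1 ((Prod.mk z.1 ⁻¹' (T D)) ∪ (Prod.mk z.2 ⁻¹' (T D))) := by
        apply measure_mono
        intro y hy
        simp only [hT, Set.mem_ofPred_eq, Set.mem_union, Set.mem_preimage, hi12] at hy ⊢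
        tauto
    _ ≤ Y.κ z.1 (Prod.mk z.1 ⁻¹' (T D)) + Y.κ z.1 (Prod.mk z.2 ⁻¹' (T D)) :=
        measure_union_le _ _
    _ = e D z.1 + e D z.2 := by
        simp only [hedef]
        rw [← hz]
    _ < δ / 2 + δ / 2 := ENNReal.add_lt_add (hz1.1 D hD) (hz2.1 D hD)
    _ = δ := ENNReal.add_halves δ

end Dadc30
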