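import Pool.Agent.Lib.MP_dadc30_co.Next

/-!
# MP_dadc30_co, module V2: invariant functions on the relative square see only `E[φ|I(Y)]`.

`Φ(x) = ∫ ψ(y) B'(x,y) κ(x,dy)` is `V.m`-measurable: true for `ψ = 1_B`, `B' = 1_D` with
`D` invariant (`q_measurable_next`), hence for simple functions, and in general by bounded
pointwise approximation of `ψ` (measurable for `mΩ`) and of `B'` (measurable for
`invSA G (Ω × Ω)`) by simple functions and dominated convergence for each `x`.  Then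
`∫ φ(z.1)ψ(z.2)B'(z) = ∫ φ Φ dμ = ∫ V.E φ · Φ dμ` (`Fac.integral_mul_E`).
The second version follows from `Fac.sq_swap`.
-/

open MeasureTheory ProbabilityTheory Filter Topology
open scoped ENNReal ComplexConjugate

namespace Dadc30

variable {G : Type} [CommGroup G] {Ω : Type} [MeasurableSpace Ω] [MulAction G Ω]
  {μ : Measure Ω} [IsProbabilityMeasure μ]

/-- induction for bounded measurable functions -/
theorem v2_induction {α : Type} (m : MeasurableSpace α) (P : (α → ℂ) → Prop)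
    (hind : ∀ (c : ℂ) (A : Set α), MeasurableSet[m] A → P (A.indicator (fun _ => c)))
    (hadd : ∀ f g : α → ℂ, P f → P g → P (fun x => f x + g x))
    (hlim : ∀ (F : ℕ → α → ℂ) (f : α → ℂ) (C : ℝ), (∀ n, P (F n)) → (∀ n x, ‖F n x‖ ≤ C) →
      (∀ x, Tendsto (fun n => F n x) atTop (𝓝 (f x))) → P f)
    (f : α → ℂ) (hf : Measurable[m] f) (hb : BddC f) : P f := by
  obtain ⟨C, hC⟩ := hb
  have hs : StronglyMeasurable[m] f := hf.stronglyMeasurable
  have hsimple : ∀ g : SimpleFunc α ℂ, P g := by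
    classical
    intro g
    induction g using SimpleFunc.induction with
    | const c hs =>
      rename_i A
      have h1 := hind c A hs
      have h2 : (⇑(SimpleFunc.piecewise A hs (SimpleFunc.const _ c) (SimpleFunc.const _ 0)) : α → ℂ)
          = A.indicator (fun _ => c) := by
        rw [SimpleFunc.coe_piecewise, SimpleFunc.coe_const, SimpleFunc.coe_const]
        exact Set.piecewise_eq_indicator
      rw [h2]
      exact h1
    | add _ h1 h2 =>
      exact hadd _ _ h1 h2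
  refine hlim (fun n => hs.approxBounded (max C 0) n) f (max C 0) (fun n => hsimple _) ?_ ?_
  · intro n x
    exact hs.norm_approxBounded_le (le_max_right _ _) n x
  · intro x
    exact hs.tendsto_approxBounded_of_norm_le ((hC x).trans (le_max_left _ _))

theorem v2_lim {α : Type} (m : MeasurableSpace α) {F : ℕ → α → ℂ} {f : α → ℂ}
    (hF : ∀ n, Measurable[m] (F n)) (h : ∀ x, Tendsto (fun n => F n x) atTop (𝓝 (f x))) :
    Measurable[m] f :=
  measurable_of_tendsto_metrizable hF (tendsto_pi_nhds.2 h)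

theorem v2_add {α : Type} (m : MeasurableSpace α) {f g : α → ℂ}
    (hf : Measurable[m] f) (hg : Measurable[m] g) : Measurable[m] (fun x => f x + g x) :=
  hf.add hg

theorem v2_mul_const {α : Type} (m : MeasurableSpace α) {f : α → ℂ}
    (hf : Measurable[m] f) (c : ℂ) : Measurable[m] (fun x => f x * c) :=
  hf.mul_const c

theorem v2_toReal {α : Type} (m : MeasurableSpace α) {f : α → ℝ≥0∞}
    (hf : Measurable[m] f) : Measurable[m] (fun x => ((f x).toReal : ℂ)) :=
  Complex.measurable_ofReal.comp hf.ennreal_toReal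

theorem v2_bound_lim {α : Type} {F : ℕ → α → ℂ} {f : α → ℂ} {C : ℝ}
    (hF : ∀ n x, ‖F n x‖ ≤ C) (h : ∀ x, Tendsto (fun n => F n x) atTop (𝓝 (f x))) (x : α) :
    ‖f x‖ ≤ C :=
  le_of_tendsto (h x).norm (Eventually.of_forall fun n => hF n x)

theorem v2_BM_ind {α : Type} [MeasurableSpace α] (c : ℂ) (A : Set α) (hA : MeasurableSet A) :
    BM (A.indicator (fun _ => c)) :=
  ⟨measurable_const.indicator hA, ⟨‖c‖, fun x => norm_indicator_le_norm_self (fun _ => c) x⟩⟩

/-- limits of the integrals over the kernel -/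
theorem v2_lim_integral (κ : Kernel Ω Ω) [IsMarkovKernel κ]
    {F : ℕ → Ω → Ω → ℂ} {f : Ω → Ω → ℂ} {C : ℝ}
    (hm : ∀ n x, Measurable (F n x)) (hC : ∀ n x y, ‖F n x y‖ ≤ C) (m : MeasurableSpace Ω)
    (hF : ∀ n, Measurable[m] (fun x => ∫ y, F n x y ∂(κ x)))
    (h : ∀ x y, Tendsto (fun n => F n x y) atTop (𝓝 (f x y))) :
    Measurable[m] (fun x => ∫ y, f x y ∂(κ x)) := by
  refine v2_lim m hF fun x => ?_
  refine tendsto_integral_of_dominated_convergence (fun _ => C) (fun n => ?_)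
    (integrable_const C) (fun n => Eventually.of_forall fun y => hC n x y)
    (Eventually.of_forall fun y => h x y)
  exact (hm n x).aestronglyMeasurable

theorem v2_measA {Y V : Fac G μ} (h : IsNext Y V) {ψ : Ω → ℂ} (hψ : BM ψ) {D : Set (Ω × Ω)}
    (hD : InvSet G D) :
    Measurable[V.m] (fun x => ∫ y, ψ y * D.indicator (fun _ => (1 : ℂ)) (x, y) ∂(Y.κ x)) := by
  have hDx : ∀ x : Ω, MeasurableSet {y | (x, y) ∈ D} := fun x => measurable_prodMk_left hD.1
  have hDm : ∀ x : Ω, Measurable (fun y => D.indicator (fun _ => (1 : ℂ)) (x, y)) := fun x =>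
    (measurable_const.indicator hD.1).comp measurable_prodMk_left
  have hD1 : ∀ z : Ω × Ω, ‖D.indicator (fun _ => (1 : ℂ)) z‖ ≤ 1 := fun z =>
    (norm_indicator_le_norm_self (fun _ => (1 : ℂ)) z).trans (by simp)
  refine (v2_induction _ (fun ψ => BM ψ ∧ Measurable[V.m]
    (fun x => ∫ y, ψ y * D.indicator (fun _ => (1 : ℂ)) (x, y) ∂(Y.κ x))) ?_ ?_ ?_ ψ hψ.1 hψ.2).2
  · intro c A hA
    refine ⟨v2_BM_ind c A hA, ?_⟩
    have h1 : (fun x => ∫ y, A.indicator (fun _ => c) y *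
        D.indicator (fun _ => (1 : ℂ)) (x, y) ∂(Y.κ x)) = fun x => ((Y.q D A x).toReal : ℂ) * c := by
      funext x
      have hS : MeasurableSet {y | y ∈ A ∧ (x, y) ∈ D} := hA.inter (hDx x)
      have h2 : ∀ y, A.indicator (fun _ => c) y * D.indicator (fun _ => (1 : ℂ)) (x, y)
          = ({y | y ∈ A ∧ (x, y) ∈ D}).indicator (fun _ => c) y := by
        intro y
        by_cases hyA : y ∈ A
        · by_cases hyD : (x, y) ∈ D
          · rw [Set.indicator_of_mem hyA, Set.indicator_of_mem hyD,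
              Set.indicator_of_mem (show y ∈ {y | y ∈ A ∧ (x, y) ∈ D} from ⟨hyA, hyD⟩), mul_one]
          · rw [Set.indicator_of_notMem hyD, mul_zero,
              Set.indicator_of_notMem (fun hy : y ∈ {y | y ∈ A ∧ (x, y) ∈ D} => hyD hy.2)]
        · rw [Set.indicator_of_notMem hyA, zero_mul,
            Set.indicator_of_notMem (fun hy : y ∈ {y | y ∈ A ∧ (x, y) ∈ D} => hyA hy.1)]
      simp only [h2]
      rw [integral_indicator_const c hS]
      show ((Y.κ x {y | y ∈ A ∧ (x, y) ∈ D}).toReal : ℝ) • c = _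
      rw [Complex.real_smul]
      rfl
    rw [h1]
    exact v2_mul_const _ (v2_toReal _ (q_measurable_next h hD hA)) c
  · intro f g hf hg
    refine ⟨hf.1.add hg.1, ?_⟩
    have h1 : (fun x => ∫ y, (f y + g y) * D.indicator (fun _ => (1 : ℂ)) (x, y) ∂(Y.κ x))
        = fun x => (∫ y, f y * D.indicator (fun _ => (1 : ℂ)) (x, y) ∂(Y.κ x))
          + ∫ y, g y * D.indicator (fun _ => (1 : ℂ)) (x, y) ∂(Y.κ x) := by
      funext x
      have hx : BM (fun y => D.indicator (fun _ => (1 : ℂ)) (x, y)) :=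
        ⟨hDm x, ⟨1, fun y => hD1 _⟩⟩
      rw [← integral_add ((hf.1.mul hx).integrable _) ((hg.1.mul hx).integrable _)]
      congr 1
      funext y
      ring
    rw [h1]
    exact v2_add _ hf.2 hg.2
  · intro F f C hF hC hlim
    refine ⟨⟨v2_lim _ (fun n => (hF n).1.1) hlim, ⟨C, v2_bound_lim hC hlim⟩⟩, ?_⟩
    refine v2_lim_integral Y.κ
      (F := fun n x y => F n y * D.indicator (fun _ => (1 : ℂ)) (x, y)) (C := C) ?_ ?_ V.m
      (fun n => (hF n).2) ?_
    · intro n x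
      exact (hF n).1.1.mul (hDm x)
    · intro n x y
      rw [norm_mul]
      calc ‖F n y‖ * ‖D.indicator (fun _ => (1 : ℂ)) (x, y)‖ ≤ ‖F n y‖ * 1 :=
            mul_le_mul_of_nonneg_left (hD1 _) (norm_nonneg _)
        _ ≤ C := by rw [mul_one]; exact hC n y
    · intro x y
      exact (hlim y).mul_const _

theorem v2_meas (hμ : PMP G μ) {Y V : Fac G μ} (h : IsNext Y V) {ψ : Ω → ℂ} (hψ : BM ψ)
    {B' : Ω × Ω → ℂ} (hB : BM B') (hinv : ∀ (g : G) z, B' (g • z) = B' z) :
    Measurable[V.m] (fun x => ∫ y, ψ y * B' (x, y) ∂(Y.κ x)) := by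
  have hG : ∀ g : G, Measurable (fun z : Ω × Ω => g • z) := fun g =>
    (((hμ g).measurable.comp measurable_fst).prodMk ((hμ g).measurable.comp measurable_snd))
  have hBi : Measurable[invSA G (Ω × Ω)] B' := measurable_invSA hG hB.1 hinv
  obtain ⟨M, hM⟩ := hψ.2
  refine (v2_induction (invSA G (Ω × Ω)) (fun B' => BM B' ∧ Measurable[V.m]
    (fun x => ∫ y, ψ y * B' (x, y) ∂(Y.κ x))) ?_ ?_ ?_ B' hBi hB.2).2
  · intro c A hA
    have hA' : InvSet G A := hA
    refine ⟨v2_BM_ind c A hA'.1, ?_⟩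
    have h1 : (fun x => ∫ y, ψ y * A.indicator (fun _ => c) (x, y) ∂(Y.κ x))
        = fun x => (∫ y, ψ y * A.indicator (fun _ => (1 : ℂ)) (x, y) ∂(Y.κ x)) * c := by
      funext x
      rw [← integral_mul_const]
      congr 1
      funext y
      by_cases hy : (x, y) ∈ A
      · rw [Set.indicator_of_mem hy, Set.indicator_of_mem hy, mul_one]
      · rw [Set.indicator_of_notMem hy, Set.indicator_of_notMem hy, mul_zero, zero_mul]
    rw [h1]
    exact v2_mul_const _ (v2_measA h hψ hA') c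
  · intro f g hf hg
    refine ⟨hf.1.add hg.1, ?_⟩
    have h1 : (fun x => ∫ y, ψ y * (f (x, y) + g (x, y)) ∂(Y.κ x))
        = fun x => (∫ y, ψ y * f (x, y) ∂(Y.κ x)) + ∫ y, ψ y * g (x, y) ∂(Y.κ x) := by
      funext x
      rw [← integral_add ((hψ.mul (hf.1.comp measurable_prodMk_left)).integrable _)
        ((hψ.mul (hg.1.comp measurable_prodMk_left)).integrable _)]
      congr 1
      funext y
      ring
    rw [h1]
    exact v2_add _ hf.2 hg.2
  · intro F f C hF hC hlim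
    refine ⟨⟨v2_lim _ (fun n => (hF n).1.1) hlim, ⟨C, v2_bound_lim hC hlim⟩⟩, ?_⟩
    refine v2_lim_integral Y.κ (F := fun n x y => ψ y * F n (x, y)) (C := M * C) ?_ ?_ V.m
      (fun n => (hF n).2) ?_
    · intro n x
      exact hψ.1.mul ((hF n).1.1.comp measurable_prodMk_left)
    · intro n x y
      rw [norm_mul]
      exact mul_le_mul (hM y) (hC n _) (norm_nonneg _) ((norm_nonneg _).trans (hM y))
    · intro x y
      exact (hlim _).const_mul _

theorem v2 (hμ : PMP G μ) {Y V : Fac G μ} (h : IsNext Y V) {φ ψ : Ω → ℂ} (hφ : BM φ)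
    (hψ : BM ψ) {B' : Ω × Ω → ℂ} (hB : BM B') (hinv : ∀ (g : G) z, B' (g • z) = B' z) :
    ∫ z, φ z.1 * ψ z.2 * B' z ∂Y.sq = ∫ z, V.E φ z.1 * ψ z.2 * B' z ∂Y.sq := by
  have hBM : ∀ φ' : Ω → ℂ, BM φ' → BM (fun z : Ω × Ω => φ' z.1 * ψ z.2 * B' z) := fun φ' hφ' =>
    ((hφ'.comp measurable_fst).mul (hψ.comp measurable_snd)).mul hB
  have hint : ∀ φ' : Ω → ℂ, BM φ' → ∫ z, φ' z.1 * ψ z.2 * B' z ∂Y.sq
      = ∫ x, φ' x * ∫ y, ψ y * B' (x, y) ∂(Y.κ x) ∂μ := by
    intro φ' hφ'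
    rw [Y.sq_integral (hBM φ' hφ')]
    congr 1
    funext x
    rw [← integral_const_mul]
    congr 1
    funext y
    ring
  rw [hint φ hφ, hint (V.E φ) (V.E_BM hφ)]
  obtain ⟨M, hM⟩ := hψ.2
  obtain ⟨C, hC⟩ := hB.2
  refine V.integral_mul_E hφ ⟨M * C, fun x => ?_⟩ (v2_meas hμ h hψ hB hinv)
  have h1 : ∀ y, ‖ψ y * B' (x, y)‖ ≤ M * C := fun y => by
    rw [norm_mul]
    exact mul_le_mul (hM y) (hC _) (norm_nonneg _) ((norm_nonneg _).trans (hM y))
  have h2 := norm_integral_le_of_norm_le_const (μ := Y.κ x) (Eventually.of_forall h1)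
  simpa using h2

theorem v2_snd (hμ : PMP G μ) {Y V : Fac G μ} (h : IsNext Y V) {φ ψ : Ω → ℂ} (hφ : BM φ)
    (hψ : BM ψ) {B' : Ω × Ω → ℂ} (hB : BM B') (hinv : ∀ (g : G) z, B' (g • z) = B' z) :
    ∫ z, φ z.1 * ψ z.2 * B' z ∂Y.sq = ∫ z, φ z.1 * V.E ψ z.2 * B' z ∂Y.sq := by
  have hswap : ∀ ψ' : Ω → ℂ, BM ψ' → ∫ z, φ z.1 * ψ' z.2 * B' z ∂Y.sq
      = ∫ z, ψ' z.1 * φ z.2 * B' z.swap ∂Y.sq := by
    intro ψ' hψ'
    have hm : Measurable (fun z : Ω × Ω => φ z.1 * ψ' z.2 * B' z) :=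
      (((hφ.comp measurable_fst).mul (hψ'.comp measurable_snd)).mul hB).1
    calc ∫ z, φ z.1 * ψ' z.2 * B' z ∂Y.sq
        = ∫ z, φ z.1 * ψ' z.2 * B' z ∂(Y.sq.map Prod.swap) := by rw [Y.sq_swap]
      _ = ∫ z, φ z.swap.1 * ψ' z.swap.2 * B' z.swap ∂Y.sq :=
          integral_map measurable_swap.aemeasurable hm.aestronglyMeasurable
      _ = ∫ z, ψ' z.1 * φ z.2 * B' z.swap ∂Y.sq := by
          congr 1
          funext z
          rw [Prod.fst_swap, Prod.snd_swap]
          ring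
  rw [hswap ψ hψ, hswap (V.E ψ) (V.E_BM hψ)]
  exact v2 hμ h hψ hφ (hB.comp measurable_swap) (fun g z => hinv g z.swap)

end Dadc30
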