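import Pool.Agent.Lib.MP_dadc30_co.Good
import Pool.Agent.Lib.MP_dadc30_co.NearDiagPos
import Pool.Agent.Lib.MP_dadc30_co.V2

/-!
# MP_dadc30_co, module GoodNext: near-diagonal sets for the next factor.

`good_next`: `MeasurableSpace.generateFrom_induction` with the four closure lemmas of `Good.lean`.
`near_g`: approximate each `g i` uniformly within `ε/4` by a simple function on `V.m`-sets
(finitely many values, each level set good), intersect the finitely many neighbourhoods, take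
`D = nbhd Φ δ` (invariant by `nbhd_inv`, positive measure by `nbhd_pos`).
`near_diag`: with `g_i = V.E (φ i)` (after `v2`, `v2_snd` with `B' = 1_D`):
`∫_D φ_i(z.1) conj φ_i(z.2) = ∫_D g_i(z.1) conj g_i(z.2)` and
`∫_D |g_i(z.1)|² = Y.sq D · V.h (φ i)` (`sq_const_integral`), difference
`≤ ∫_D |g_i(z.1) - g_i(z.2)| ≤ ε Y.sq D`.
`diag_upper`: `Re (a conj b) ≤ (|a|²+|b|²)/2`.
-/

open MeasureTheory ProbabilityTheory Filter Topology
open scoped ENNReal ComplexConjugate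

namespace Dadc30

variable {G : Type} [CommGroup G] {Ω : Type} [MeasurableSpace Ω] [MulAction G Ω]
  {μ : Measure Ω} [IsProbabilityMeasure μ]

theorem good_next [StandardBorelSpace Ω] (hμ : PMP G μ) (hE : Erg G μ) {Y V : Fac G μ}
    (h : IsNext Y V) {A : Set Ω} (hA : MeasurableSet[V.m] A) : Y.Good A := by
  have h1 : V.m = Y.nextM := h
  rw [h1] at hA
  refine MeasurableSpace.generateFrom_induction _ (fun s _ => Y.Good s) ?_ ?_ ?_ ?_ A hA
  · rintro t (ht | ⟨D, B, s, hD, hB, rfl⟩) _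
    · exact good_self Y ht
    · exact good_q hμ hE Y hD hB s
  · exact good_self Y (@MeasurableSet.empty _ Y.m)
  · intro t _ ht
    exact good_compl Y ht
  · intro t _ ht
    exact good_iUnion hμ hE Y ht

/-- finitely many good sets at the same time -/
theorem goodNext_finset (Y : Fac G μ) (𝒜 : Finset (Set Ω)) (h : ∀ A ∈ 𝒜, Y.Good A) (ε : ℝ≥0∞)
    (hε : 0 < ε) : ∃ Φ : Finset (Set (Ω × Ω)), (∀ D ∈ Φ, InvSet G D) ∧
    ∃ δ : ℝ≥0∞, 0 < δ ∧ ∀ D', InvSet G D' → D' ⊆ Y.nbhd Φ δ → ∀ A ∈ 𝒜,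
      Y.sq (D' ∩ {z | ¬ (z.1 ∈ A ↔ z.2 ∈ A)}) ≤ ε * Y.sq D' := by
  classical
  induction 𝒜 using Finset.induction_on with
  | empty => exact ⟨∅, by simp, 1, one_pos, by simp⟩
  | insert A 𝒜 hA ih =>
    obtain ⟨Φ, hΦ, δ, hδ, h1⟩ := ih (fun B hB => h B (Finset.mem_insert_of_mem hB))
    obtain ⟨Φ', hΦ', δ', hδ', h2⟩ := (h A (Finset.mem_insert_self _ _)).2 ε hε
    refine ⟨Φ ∪ Φ', ?_, min δ δ', lt_min hδ hδ', ?_⟩
    · intro D hD
      rcases Finset.mem_union.1 hD with hD | hD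
      · exact hΦ D hD
      · exact hΦ' D hD
    · intro D' hD' hsub B hB
      rcases Finset.mem_insert.1 hB with rfl | hB
      · exact h2 D' hD' (hsub.trans (nbhd_mono Y Finset.subset_union_right (min_le_right _ _)))
      · exact h1 D' hD' (hsub.trans (nbhd_mono Y Finset.subset_union_left (min_le_left _ _))) B hB

/-- the integral over a set with small mismatches -/
theorem goodNext_integral (ν : Measure (Ω × Ω)) [IsProbabilityMeasure ν] (g : Ω → ℂ)
    (hg : Measurable g) (hb : ∀ x, ‖g x‖ ≤ 1) (ε : ℝ) (t : Finset ℂ)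
    (hcov : ∀ x, ∃ c ∈ t, g x ∈ Metric.ball c (ε / 4)) (η : ℝ)
    (hη : 0 ≤ η) (hη2 : (t.card : ℝ) * (2 * η) ≤ ε / 2) (D : Set (Ω × Ω))
    (hmis : ∀ c ∈ t, ν (D ∩ {z | ¬ (z.1 ∈ g ⁻¹' Metric.ball c (ε / 4) ↔
      z.2 ∈ g ⁻¹' Metric.ball c (ε / 4))}) ≤ ENNReal.ofReal η * ν D) :
    ∫ z in D, ‖g z.1 - g z.2‖ ∂ν ≤ ε * (ν D).toReal := by
  obtain ⟨mis, hmisdef⟩ : ∃ mis : ℂ → Set (Ω × Ω), mis = fun c =>
    {z | ¬ (z.1 ∈ g ⁻¹' Metric.ball c (ε / 4) ↔ z.2 ∈ g ⁻¹' Metric.ball c (ε / 4))} := ⟨_, rfl⟩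
  have hmm : ∀ c, MeasurableSet (mis c) := by
    intro c
    rw [hmisdef]
    have h1 : MeasurableSet {z : Ω × Ω | z.1 ∈ g ⁻¹' Metric.ball c (ε / 4)} :=
      measurable_fst (hg measurableSet_ball)
    have h2 : MeasurableSet {z : Ω × Ω | z.2 ∈ g ⁻¹' Metric.ball c (ε / 4)} :=
      measurable_snd (hg measurableSet_ball)
    exact (h1.iff h2).compl
  have hgm : Measurable fun z : Ω × Ω => g z.1 - g z.2 :=
    (hg.comp measurable_fst).sub (hg.comp measurable_snd)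
  have hpt : ∀ z : Ω × Ω, ‖g z.1 - g z.2‖ ≤ ε / 2 + ∑ c ∈ t, (mis c).indicator (fun _ => (2 : ℝ)) z := by
    intro z
    by_cases hz : ∃ c ∈ t, z ∈ mis c
    · obtain ⟨c, hc, hzc⟩ := hz
      have h1 : ‖g z.1 - g z.2‖ ≤ 2 := by
        have := norm_sub_le (g z.1) (g z.2)
        have h2 := hb z.1
        have h3 := hb z.2
        linarith
      have h2 : (2 : ℝ) ≤ ∑ c ∈ t, (mis c).indicator (fun _ => (2 : ℝ)) z := by
        have h3 : (mis c).indicator (fun _ => (2 : ℝ)) z = 2 := Set.indicator_of_mem hzc _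
        calc (2 : ℝ) = (mis c).indicator (fun _ => (2 : ℝ)) z := h3.symm
          _ ≤ _ := Finset.single_le_sum (f := fun c => (mis c).indicator (fun _ => (2 : ℝ)) z)
            (fun i _ => Set.indicator_nonneg (fun _ _ => by norm_num) _) hc
      obtain ⟨c', hc', hz'⟩ := hcov z.1
      have h4 : 0 < ε / 4 := (dist_nonneg).trans_lt hz'
      linarith
    · push Not at hz
      obtain ⟨c, hc, hz1⟩ := hcov z.1
      have h2 : z ∉ mis c := hz c hc
      rw [hmisdef] at h2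
      have h3 : z.1 ∈ g ⁻¹' Metric.ball c (ε / 4) ↔ z.2 ∈ g ⁻¹' Metric.ball c (ε / 4) := by
        by_contra h4
        exact h2 h4
      have h4 : g z.2 ∈ Metric.ball c (ε / 4) := h3.1 hz1
      have h5 : ‖g z.1 - g z.2‖ ≤ ε / 2 := by
        rw [← dist_eq_norm]
        have h6 := dist_triangle_right (g z.1) (g z.2) c
        have h7 : dist (g z.1) c < ε / 4 := hz1
        have h8 : dist (g z.2) c < ε / 4 := h4
        linarith
      have h6 : 0 ≤ ∑ c ∈ t, (mis c).indicator (fun _ => (2 : ℝ)) z :=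
        Finset.sum_nonneg fun i _ => Set.indicator_nonneg (fun _ _ => by norm_num) _
      linarith
  have hint1 : Integrable (fun z : Ω × Ω => ‖g z.1 - g z.2‖) (ν.restrict D) := by
    refine Integrable.of_bound hgm.norm.aestronglyMeasurable 2 (ae_of_all _ fun z => ?_)
    rw [norm_norm]
    have := norm_sub_le (g z.1) (g z.2)
    have h2 := hb z.1
    have h3 := hb z.2
    linarith
  have hint2 : ∀ c ∈ t, Integrable ((mis c).indicator (fun _ => (2 : ℝ))) (ν.restrict D) :=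
    fun c _ => (integrable_const 2).indicator (hmm c)
  have hint3 : Integrable (fun z => ∑ c ∈ t, (mis c).indicator (fun _ => (2 : ℝ)) z)
      (ν.restrict D) := integrable_finsetSum t hint2
  calc ∫ z in D, ‖g z.1 - g z.2‖ ∂ν
      ≤ ∫ z in D, (ε / 2 + ∑ c ∈ t, (mis c).indicator (fun _ => (2 : ℝ)) z) ∂ν :=
        integral_mono hint1 ((integrable_const _).add hint3) hpt
    _ = ε / 2 * (ν D).toReal + ∑ c ∈ t, 2 * (ν (D ∩ mis c)).toReal := by
        rw [integral_add (integrable_const _) hint3, integral_finsetSum t hint2]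
        congr 1
        · rw [integral_const, smul_eq_mul, mul_comm, measureReal_restrict_apply_univ]
          rfl
        · refine Finset.sum_congr rfl fun c _ => ?_
          rw [integral_indicator_const _ (hmm c), smul_eq_mul, mul_comm,
            measureReal_restrict_apply (hmm c), Set.inter_comm]
          rfl
    _ ≤ ε / 2 * (ν D).toReal + ∑ _c ∈ t, 2 * (η * (ν D).toReal) := by
        have hle : ∀ c ∈ t, 2 * (ν (D ∩ mis c)).toReal ≤ 2 * (η * (ν D).toReal) := by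
          intro c hc
          have h1 := hmis c hc
          have h2 : (ν (D ∩ mis c)).toReal ≤ (ENNReal.ofReal η * ν D).toReal := by
            apply ENNReal.toReal_mono (ENNReal.mul_ne_top ENNReal.ofReal_ne_top (measure_ne_top _ _))
            rw [hmisdef]
            exact h1
          rw [ENNReal.toReal_mul, ENNReal.toReal_ofReal hη] at h2
          linarith
        have := Finset.sum_le_sum hle
        linarith
    _ ≤ ε * (ν D).toReal := by
        rw [Finset.sum_const, nsmul_eq_mul]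
        have h0 : 0 ≤ (ν D).toReal := ENNReal.toReal_nonneg
        have := mul_le_mul_of_nonneg_right hη2 h0
        nlinarith

theorem near_g [StandardBorelSpace Ω] (hμ : PMP G μ) (hE : Erg G μ) {Y V : Fac G μ}
    (h : IsNext Y V) {ι : Type} (s : Finset ι) (g : ι → Ω → ℂ)
    (hg : ∀ i ∈ s, Measurable[V.m] (g i)) (hb : ∀ i ∈ s, ∀ x, ‖g i x‖ ≤ 1)
    (ε : ℝ) (hε : 0 < ε) :
    ∃ D : Set (Ω × Ω), InvSet G D ∧ 0 < Y.sq D ∧
      ∀ i ∈ s, ∫ z in D, ‖g i z.1 - g i z.2‖ ∂Y.sq ≤ ε * (Y.sq D).toReal := by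
  classical
  obtain ⟨t0, -, ht0, hcov0⟩ := (isCompact_closedBall (0 : ℂ) 1).finite_cover_balls
    (show 0 < ε / 4 by positivity)
  obtain ⟨t, ht⟩ : ∃ t : Finset ℂ, t = ht0.toFinset := ⟨_, rfl⟩
  have hcov : ∀ i ∈ s, ∀ x, ∃ c ∈ t, g i x ∈ Metric.ball c (ε / 4) := by
    intro i hi x
    have h1 : g i x ∈ Metric.closedBall (0 : ℂ) 1 := by
      rw [mem_closedBall_zero_iff]
      exact hb i hi x
    have h2 := hcov0 h1
    simp only [Set.mem_iUnion] at h2
    obtain ⟨c, hc, h3⟩ := h2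
    exact ⟨c, by rw [ht]; exact ht0.mem_toFinset.2 hc, h3⟩
  obtain ⟨η, hηd⟩ : ∃ η : ℝ, η = ε / (4 * (t.card + 1)) := ⟨_, rfl⟩
  have hη : 0 < η := by rw [hηd]; positivity
  have hη2 : (t.card : ℝ) * (2 * η) ≤ ε / 2 := by
    have h1 : (4 * ((t.card : ℝ) + 1)) * η = ε := by
      rw [hηd]; field_simp
    nlinarith
  obtain ⟨Φ, hΦ, δ, hδ, h1⟩ := goodNext_finset Y
    (s.biUnion fun i => t.image fun c => g i ⁻¹' Metric.ball c (ε / 4)) (by
      intro A hA
      obtain ⟨i, hi, hA⟩ := Finset.mem_biUnion.1 hA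
      obtain ⟨c, hc, rfl⟩ := Finset.mem_image.1 hA
      exact good_next hμ hE h (hg i hi measurableSet_ball))
    (ENNReal.ofReal η) (ENNReal.ofReal_pos.2 hη)
  refine ⟨Y.nbhd Φ δ, nbhd_inv hμ Y hΦ δ, nbhd_pos Y (fun D hD => (hΦ D hD).1) hδ, ?_⟩
  intro i hi
  refine goodNext_integral Y.sq (g i) ((hg i hi).mono V.le le_rfl) (hb i hi) ε t (hcov i hi) η
    hη.le hη2 _ ?_
  intro c hc
  exact h1 _ (nbhd_inv hμ Y hΦ δ) subset_rfl _
    (Finset.mem_biUnion.2 ⟨i, hi, Finset.mem_image.2 ⟨c, hc, rfl⟩⟩)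

/-- the correlation on an invariant set only sees the next factor -/
theorem goodNext_key (hμ : PMP G μ) {Y V : Fac G μ} (h : IsNext Y V) {φ : Ω → ℂ} (hφ : BM φ)
    {D : Set (Ω × Ω)} (hD : InvSet G D) :
    ∫ z in D, φ z.1 * conj (φ z.2) ∂Y.sq = ∫ z in D, V.E φ z.1 * conj (V.E φ z.2) ∂Y.sq := by
  have hB : BM (D.indicator (fun _ => (1 : ℂ))) := BM.of_indicator hD.1
  have hinv : ∀ (g : G) z, D.indicator (fun _ => (1 : ℂ)) (g • z) =
      D.indicator (fun _ => (1 : ℂ)) z := by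
    intro g z
    have h1 : g • z ∈ D ↔ z ∈ D := by
      have h2 := hD.2 g
      constructor
      · intro h3
        rw [← h2]; exact h3
      · intro h3
        rw [← h2] at h3; exact h3
    by_cases hz : z ∈ D
    · rw [Set.indicator_of_mem hz, Set.indicator_of_mem (h1.2 hz)]
    · rw [Set.indicator_of_notMem hz, Set.indicator_of_notMem (fun h3 => hz (h1.1 h3))]
  have hset : ∀ f : Ω × Ω → ℂ, ∫ z in D, f z ∂Y.sq =
      ∫ z, f z * D.indicator (fun _ => (1 : ℂ)) z ∂Y.sq := by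
    intro f
    rw [← integral_indicator hD.1]
    refine integral_congr_ae (ae_of_all _ fun z => ?_)
    by_cases hz : z ∈ D
    · simp only [Set.indicator_of_mem hz, mul_one]
    · simp only [Set.indicator_of_notMem hz, mul_zero]
  rw [hset, hset, v2 hμ h hφ hφ.conj hB hinv, v2_snd hμ h (V.E_BM hφ) hφ.conj hB hinv]
  simp only [V.E_conj]

theorem near_diag [StandardBorelSpace Ω] (hμ : PMP G μ) (hE : Erg G μ) {Y V : Fac G μ}
    (h : IsNext Y V) {ι : Type} (s : Finset ι) (φ : ι → Ω → ℂ)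
    (hφ : ∀ i ∈ s, Measurable (φ i)) (hb : ∀ i ∈ s, ∀ x, ‖φ i x‖ ≤ 1)
    (ε : ℝ) (hε : 0 < ε) :
    ∃ D : Set (Ω × Ω), InvSet G D ∧ 0 < Y.sq D ∧
      ∀ i ∈ s, |(∫ z in D, φ i z.1 * conj (φ i z.2) ∂Y.sq).re - (Y.sq D).toReal * V.h (φ i)|
        ≤ ε * (Y.sq D).toReal := by
  have hBM : ∀ i ∈ s, BM (φ i) := fun i hi => ⟨hφ i hi, 1, hb i hi⟩
  obtain ⟨D, hD, hpos, hD2⟩ := near_g hμ hE h s (fun i => V.E (φ i))
    (fun i hi => V.E_measurable (hBM i hi)) (fun i hi x => V.E_bound (hb i hi) x) ε hε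
  refine ⟨D, hD, hpos, ?_⟩
  intro i hi
  refine le_trans ?_ (hD2 i hi)
  have hg : BM (V.E (φ i)) := V.E_BM (hBM i hi)
  have hg1 : BM (fun z : Ω × Ω => V.E (φ i) z.1) := hg.comp measurable_fst
  have hg2 : BM (fun z : Ω × Ω => V.E (φ i) z.2) := hg.comp measurable_snd
  rw [goodNext_key hμ h (hBM i hi) hD]
  have h1 : (Y.sq D).toReal * V.h (φ i) = ∫ z in D, ‖V.E (φ i) z.1‖ ^ 2 ∂Y.sq := by
    rw [sq_const_integral hμ hE Y hD hg.normSq]
    rfl
  have h2 : ((∫ z in D, ‖V.E (φ i) z.1‖ ^ 2 ∂Y.sq : ℝ) : ℂ) =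
      ∫ z in D, V.E (φ i) z.1 * conj (V.E (φ i) z.1) ∂Y.sq := by
    rw [← integral_complex_ofReal]
    refine integral_congr_ae (ae_of_all _ fun z => ?_)
    simp only [Complex.mul_conj, Complex.normSq_eq_norm_sq]
  rw [h1]
  have h3 : (∫ z in D, V.E (φ i) z.1 * conj (V.E (φ i) z.2) ∂Y.sq).re -
      ∫ z in D, ‖V.E (φ i) z.1‖ ^ 2 ∂Y.sq =
      (∫ z in D, V.E (φ i) z.1 * conj (V.E (φ i) z.2 - V.E (φ i) z.1) ∂Y.sq).re := by
    have h4 : ∫ z in D, V.E (φ i) z.1 * conj (V.E (φ i) z.2 - V.E (φ i) z.1) ∂Y.sq =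
        ∫ z in D, V.E (φ i) z.1 * conj (V.E (φ i) z.2) ∂Y.sq -
          ((∫ z in D, ‖V.E (φ i) z.1‖ ^ 2 ∂Y.sq : ℝ) : ℂ) := by
      rw [h2, ← integral_sub ((hg1.mul hg2.conj).integrable _) ((hg1.mul hg1.conj).integrable _)]
      refine integral_congr_ae (ae_of_all _ fun z => ?_)
      simp only [map_sub, mul_sub]
    rw [h4, Complex.sub_re, Complex.ofReal_re]
  rw [h3]
  refine (Complex.abs_re_le_norm _).trans ((norm_integral_le_integral_norm _).trans ?_)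
  refine integral_mono ((hg1.mul (hg2.sub hg1).conj).norm.integrable _)
    ((hg1.sub hg2).norm.integrable _) fun z => ?_
  change ‖V.E (φ i) z.1 * conj (V.E (φ i) z.2 - V.E (φ i) z.1)‖ ≤ ‖V.E (φ i) z.1 - V.E (φ i) z.2‖
  rw [norm_mul, RCLike.norm_conj, norm_sub_rev]
  exact mul_le_of_le_one_left (norm_nonneg _) (V.E_bound (hb i hi) _)

theorem diag_upper (hμ : PMP G μ) (hE : Erg G μ) {Y V : Fac G μ}
    (h : IsNext Y V) {φ : Ω → ℂ} (hφ : BM φ) {D : Set (Ω × Ω)} (hD : InvSet G D) :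
    (∫ z in D, φ z.1 * conj (φ z.2) ∂Y.sq).re ≤ (Y.sq D).toReal * V.h φ := by
  have hg : BM (V.E φ) := V.E_BM hφ
  have hg1 : BM (fun z : Ω × Ω => V.E φ z.1) := hg.comp measurable_fst
  have hg2 : BM (fun z : Ω × Ω => V.E φ z.2) := hg.comp measurable_snd
  rw [goodNext_key hμ h hφ hD]
  have h1 : ∫ z in D, ‖V.E φ z.1‖ ^ 2 ∂Y.sq = (Y.sq D).toReal * V.h φ :=
    sq_const_integral hμ hE Y hD hg.normSq
  have h2 : ∫ z in D, ‖V.E φ z.2‖ ^ 2 ∂Y.sq = (Y.sq D).toReal * V.h φ :=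
    sq_const_integral_snd hμ hE Y hD hg.normSq
  have h3 : (∫ z in D, V.E φ z.1 * conj (V.E φ z.2) ∂Y.sq).re =
      ∫ z in D, (V.E φ z.1 * conj (V.E φ z.2)).re ∂Y.sq :=
    (integral_re (𝕜 := ℂ) ((hg1.mul hg2.conj).integrable (Y.sq.restrict D))).symm
  have h4 : ∫ z in D, (V.E φ z.1 * conj (V.E φ z.2)).re ∂Y.sq ≤
      ∫ z in D, ((1 / 2) * ‖V.E φ z.1‖ ^ 2 + (1 / 2) * ‖V.E φ z.2‖ ^ 2) ∂Y.sq := by
    refine integral_mono ((hg1.mul hg2.conj).re.integrable _)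
      (((hg1.normSq.integrable _).const_mul _).add ((hg2.normSq.integrable _).const_mul _))
      fun z => ?_
    change (V.E φ z.1 * conj (V.E φ z.2)).re ≤
      (1 / 2) * ‖V.E φ z.1‖ ^ 2 + (1 / 2) * ‖V.E φ z.2‖ ^ 2
    have h5 := Complex.re_le_norm (V.E φ z.1 * conj (V.E φ z.2))
    rw [norm_mul, RCLike.norm_conj] at h5
    nlinarith [sq_nonneg (‖V.E φ z.1‖ - ‖V.E φ z.2‖)]
  have h5 : ∫ z in D, ((1 / 2) * ‖V.E φ z.1‖ ^ 2 + (1 / 2) * ‖V.E φ z.2‖ ^ 2) ∂Y.sq =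
      (Y.sq D).toReal * V.h φ := by
    rw [integral_add ((hg1.normSq.integrable _).const_mul _) ((hg2.normSq.integrable _).const_mul _),
      integral_const_mul, integral_const_mul, h1, h2]
    ring
  rw [h3]
  linarith

end Dadc30
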