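import Pool.Agent.Lib.MP_dadc30_co.Chars

/-!
# MP_dadc30_co, module HaarX: Haar probability measure on `X` and orthogonality.

`X` is a closed subgroup of the compact group `K → Circle` (countable product, second countable),
so it is a compact topological group with `BorelSpace` (subtype of `Pi.borelSpace`); take the Haar
measure normalized to mass 1.  For `z ≠ 0` there is `x₀ : X` with `chi z x₀ ≠ 1`: `K` is a
`ℚ`-vector space, choose a `ℚ`-linear `L : K → ℚ` (or ℝ) with `L z = 1` and
`x₀ y = Circle.exp (L y)`; translation by `x₀` gives `∫ χ_z = χ_z(x₀) ∫ χ_z`. -/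

open MeasureTheory ProbabilityTheory Filter Topology
open scoped ENNReal ComplexConjugate

namespace Dadc30

theorem exists_chi_ne {z : K} (hz : z ≠ 0) : ∃ x : X, chi z x ≠ 1 := by
  have h1 : ∃ φ : Module.Dual ℚ K, φ z ≠ 0 := by
    by_contra hcon
    push Not at hcon
    exact hz ((Module.forall_dual_apply_eq_zero_iff ℚ z).1 hcon)
  obtain ⟨φ, hφ⟩ := h1
  have hφ' : ((φ z : ℚ) : ℝ) ≠ 0 := by exact_mod_cast hφ
  refine ⟨⟨fun y => Circle.exp (Real.pi * ((φ y : ℚ) : ℝ) / ((φ z : ℚ) : ℝ)), fun a b => ?_⟩, ?_⟩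
  · show Circle.exp (Real.pi * ((φ (a + b) : ℚ) : ℝ) / ((φ z : ℚ) : ℝ)) = _ * _
    rw [← Circle.exp_add]
    congr 1
    rw [map_add]
    push_cast
    ring
  · show ((Circle.exp (Real.pi * ((φ z : ℚ) : ℝ) / ((φ z : ℚ) : ℝ)) : Circle) : ℂ) ≠ 1
    rw [mul_div_assoc, div_self hφ', mul_one, Circle.coe_exp, Complex.exp_pi_mul_I]
    norm_num

theorem HaarX_isClosed : IsClosed ((XX : Subgroup (K → Circle)) : Set (K → Circle)) := by
  have h1 : ((XX : Subgroup (K → Circle)) : Set (K → Circle)) =
      ⋂ a : K, ⋂ b : K, {x | x (a + b) = x a * x b} := by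
    ext x
    simp only [Set.mem_iInter]
    rfl
  rw [h1]
  refine isClosed_iInter fun a => isClosed_iInter fun b => ?_
  exact isClosed_eq (continuous_apply _) ((continuous_apply a).mul (continuous_apply b))

instance : CompactSpace X := isCompact_iff_compactSpace.1 HaarX_isClosed.isCompact

instance : BorelSpace X := Subtype.borelSpace _

theorem exists_haar : ∃ m : Measure X, IsProbabilityMeasure m ∧ ∀ z : K, z ≠ 0 →
    ∫ x, chi z x ∂m = 0 := by
  refine ⟨Measure.haarMeasure ⊤, ⟨?_⟩, fun z hz => ?_⟩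
  · have h := Measure.haarMeasure_self (K₀ := (⊤ : TopologicalSpace.PositiveCompacts X))
    rwa [TopologicalSpace.PositiveCompacts.coe_top] at h
  · obtain ⟨x0, hx0⟩ := exists_chi_ne hz
    have h1 := integral_mul_left_eq_self (μ := Measure.haarMeasure
      (⊤ : TopologicalSpace.PositiveCompacts X)) (chi z) x0
    simp only [chi_mul] at h1
    rw [integral_const_mul] at h1
    have h2 : (chi z x0 - 1) * ∫ x, chi z x ∂(Measure.haarMeasure
      (⊤ : TopologicalSpace.PositiveCompacts X)) = 0 := by
      rw [sub_mul, h1, one_mul, sub_self]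
    rcases mul_eq_zero.1 h2 with h3 | h3
    · exact absurd (sub_eq_zero.1 h3) hx0
    · exact h3

theorem continuous_chi (z : K) : Continuous (chi z) := by
  unfold chi
  exact continuous_subtype_val.comp ((continuous_apply z).comp continuous_subtype_val)

end Dadc30
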