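import Pool.Agent.Lib.MP_dadc30_co.MeanC

/-!
# MP_dadc30_co, module Inv: the σ-algebra of strictly invariant sets.
-/

open MeasureTheory ProbabilityTheory Filter Topology
open scoped ENNReal ComplexConjugate

namespace Dadc30

variable {G : Type} [CommGroup G] {Ω : Type} [MeasurableSpace Ω] [MulAction G Ω]

/-- a measurable function which is strictly invariant is measurable for `invSA` -/
theorem measurable_invSA {f : Ω → ℂ} (hG : ∀ g : G, Measurable (fun x : Ω => g • x))
    (hf : Measurable f) (h : ∀ (g : G) x, f (g • x) = f x) : Measurable[invSA G Ω] f := by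
  intro t ht
  refine ⟨hf ht, fun g => ?_⟩
  ext x
  simp only [Set.mem_preimage, h g x]

/-- conversely -/
theorem invariant_of_measurable_invSA {f : Ω → ℂ} (hf : Measurable[invSA G Ω] f) (g : G) (x : Ω) :
    f (g • x) = f x := by
  have h1 : InvSet G (f ⁻¹' {f x}) := hf (measurableSet_singleton (f x))
  have h2 : x ∈ (fun y : Ω => g • y) ⁻¹' (f ⁻¹' {f x}) := by
    rw [h1.2 g]
    rfl
  exact h2

/-- invariant bounded functions are a.e. constant in the ergodic case -/
theorem erg_const [Countable G] {μ : Measure Ω} [IsProbabilityMeasure μ] (hE : Erg G μ)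
    {B : Ω → ℂ} (hB : BM B) (h : ∀ (g : G) x, B (g • x) = B x) :
    ∀ᵐ x ∂μ, B x = ∫ y, B y ∂μ := by
  obtain ⟨a, ha⟩ : ∃ a : ℂ, B =ᵐ[μ] Function.const Ω a := by
    refine Filter.exists_eventuallyEq_const_of_forall_separating MeasurableSet fun U hU => ?_
    have hI : InvSet G (B ⁻¹' U) := by
      refine ⟨hB.1 hU, fun g => ?_⟩
      ext x
      simp only [Set.mem_preimage, h g x]
    rcases hE _ hI with h0 | h0
    · right
      rw [ae_iff]
      have h2 : {x | ¬ B x ∉ U} = B ⁻¹' U := by
        ext x
        simp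
      rw [h2]
      exact h0
    · left
      rw [ae_iff]
      exact h0
  have h1 : ∫ y, B y ∂μ = a := by
    rw [integral_congr_ae ha]
    simp
  rw [h1]
  exact ha

end Dadc30
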