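import Pool.Agent.Lib.MP_dadc30_co.BMapi

/-!
# MP_dadc30_co, module Ker: existence of strictly equivariant regular conditional probabilities.

`exists_fac`: let `κ₀ = condExpKernel μ m`.  Fix a countable π-system `𝔅` generating the
σ-algebra of the standard Borel space `Ω` (the set algebra generated by a countable generating
family).  For `g : G`, `B ∈ 𝔅`: `κ₀ (g•x) B = κ₀ x (g⁻¹ B)` for μ-a.e. `x` (both are versions of
`E[1_B∘g | m]` because `m` and `μ` are invariant).
`Ω₀ = {x | ∀ g, ∀ B ∈ 𝔅, κ₀ (g•x) B = κ₀ x (g⁻¹' B)}` is measurable, has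
full measure and is `G`-invariant (on it `κ₀ (g•x) = (κ₀ x).map g` by the π-λ theorem).  Put
`κ = κ₀` on `Ω₀` and `κ x = dirac x` off `Ω₀`.  `meas`: off `Ω₀` the
function is the indicator of a null set, which belongs to `m`.  `self`: `κ x A = 1_A(x)` a.e. for
`A ∈ m`.  `idem`: for `B ∈ 𝔅` the function `y ↦ κ y B` is `m`-measurable, so by `self` applied to
the sets `{y | κ y B < q}`, `q` rational, a.e. `x` satisfies `κ y B = κ x B` for κ_x-a.e. `y`;
then π-λ again.
-/

open MeasureTheory ProbabilityTheory Filter Topology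
open scoped ENNReal ComplexConjugate

namespace Dadc30

/-- a countable π-system generating the σ-algebra of a countably generated space -/
theorem Ker_pi (Ω : Type) [mΩ : MeasurableSpace Ω] [MeasurableSpace.CountablyGenerated Ω] :
    ∃ C : Set (Set Ω), C.Countable ∧ mΩ = MeasurableSpace.generateFrom C ∧ IsPiSystem C ∧
      ∀ B ∈ C, MeasurableSet B := by
  set C : Set (Set Ω) := generateSetAlgebra (MeasurableSpace.countableGeneratingSet Ω) with hC
  have hgen : mΩ = MeasurableSpace.generateFrom C := by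
    rw [hC, generateFrom_generateSetAlgebra_eq, MeasurableSpace.generateFrom_countableGeneratingSet]
  refine ⟨C, countable_generateSetAlgebra MeasurableSpace.countable_countableGeneratingSet, hgen,
    fun s hs t ht _ => isSetAlgebra_generateSetAlgebra.inter_mem hs ht, fun B hB => ?_⟩
  rw [hgen]
  exact MeasurableSpace.measurableSet_generateFrom hB

theorem Ker_eqset {Ω : Type} {m : MeasurableSpace Ω} {f h : Ω → ℝ≥0∞} (hf : Measurable f)
    (hh : Measurable h) : MeasurableSet {x | f x = h x} := measurableSet_eq_fun hf hh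

theorem Ker_ltset {Ω : Type} {m : MeasurableSpace Ω} {f : Ω → ℝ≥0∞} (hf : Measurable f)
    (c : ℝ≥0∞) : MeasurableSet {x | f x < c} := measurableSet_lt hf measurable_const

section

variable {Ω : Type} {m : MeasurableSpace Ω} [mΩ : MeasurableSpace Ω]

/-- uniqueness of densities for a sub-σ-algebra -/
theorem Ker_unique {μ : Measure Ω} [IsFiniteMeasure μ] (hle : m ≤ mΩ) {f h : Ω → ℝ≥0∞}
    (hf : Measurable[m] f) (hh : Measurable[m] h)
    (H : ∀ A, MeasurableSet[m] A → ∫⁻ x in A, f x ∂μ = ∫⁻ x in A, h x ∂μ) : f =ᵐ[μ] h := by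
  apply ae_eq_of_ae_eq_trim (hm := hle)
  refine @ae_eq_of_forall_setLIntegral_eq_of_sigmaFinite Ω m (μ.trim hle) _ f h hf hh
    (fun s hs _ => ?_)
  rw [restrict_trim hle μ hs, lintegral_trim hle hf, lintegral_trim hle hh]
  exact H s hs

variable [StandardBorelSpace Ω]

/-- the defining property of the conditional kernel -/
theorem Ker_cond {μ : Measure Ω} [IsProbabilityMeasure μ] (hle : m ≤ mΩ) {A B : Set Ω}
    (hA : MeasurableSet[m] A) (hB : MeasurableSet B) :
    ∫⁻ x in A, condExpKernel μ m x B ∂μ = μ (A ∩ B) := by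
  have h := compProd_trim_condExpKernel (μ := μ) hle
  have hd : @Measurable Ω (Ω × Ω) mΩ (m.prod mΩ) Function.diag :=
    (measurable_id'' hle).prodMk measurable_id
  have h1 : ((μ.trim hle) ⊗ₘ condExpKernel μ m) (A ×ˢ B) = μ (A ∩ B) := by
    rw [h, Measure.map_apply hd (hA.prod hB)]
    rfl
  rw [Measure.compProd_apply_prod hA hB, restrict_trim hle μ hA,
    lintegral_trim hle (measurable_condExpKernel hB)] at h1
  exact h1

/-- almost everywhere equivariance of the conditional kernel -/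
theorem Ker_equiv {G : Type} [CommGroup G] [MulAction G Ω] {μ : Measure Ω}
    [IsProbabilityMeasure μ] (hμ : PMP G μ) (hle : m ≤ mΩ)
    (hinv : ∀ (g : G) (A : Set Ω), MeasurableSet[m] A →
      MeasurableSet[m] ((fun x : Ω => g • x) ⁻¹' A)) (g : G) {B : Set Ω} (hB : MeasurableSet B) :
    ∀ᵐ x ∂μ, condExpKernel μ m (g • x) B = condExpKernel μ m x ((fun x : Ω => g • x) ⁻¹' B) := by
  have hgB : MeasurableSet ((fun x : Ω => g • x) ⁻¹' B) := (hμ g).measurable hB
  have hgm : @Measurable Ω Ω m m (fun x : Ω => g • x) := fun A hA => hinv g A hA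
  have hf : Measurable[m] (fun x => condExpKernel μ m (g • x) B) :=
    (measurable_condExpKernel hB).comp hgm
  refine Ker_unique hle hf (measurable_condExpKernel hgB) (fun A hA => ?_)
  have hA' : MeasurableSet[m] ((fun x : Ω => g⁻¹ • x) ⁻¹' A) := hinv g⁻¹ A hA
  have hAA : (fun x : Ω => g • x) ⁻¹' ((fun x : Ω => g⁻¹ • x) ⁻¹' A) = A := by
    ext x
    simp only [Set.mem_preimage, inv_smul_smul]
  have h1 : ∫⁻ x in A, condExpKernel μ m (g • x) B ∂μ =
      ∫⁻ y in (fun x : Ω => g⁻¹ • x) ⁻¹' A, condExpKernel μ m y B ∂μ := by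
    have h2 := (hμ g).setLIntegral_comp_preimage (hle _ hA')
      (((measurable_condExpKernel (μ := μ) (m := m) hB).mono hle le_rfl))
    rw [hAA] at h2
    exact h2
  rw [h1, Ker_cond hle hA' hB, Ker_cond hle hA hgB]
  have h3 := (hμ g).measure_preimage ((hle _ hA').inter hB).nullMeasurableSet
  rw [← h3, Set.preimage_inter, hAA]

end

theorem exists_fac {G : Type} [CommGroup G] [Countable G] {Ω : Type} (m : MeasurableSpace Ω)
    [mΩ : MeasurableSpace Ω]
    [StandardBorelSpace Ω] [MulAction G Ω] {μ : Measure Ω} [IsProbabilityMeasure μ]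
    (hμ : PMP G μ) (hle : m ≤ mΩ)
    (hnull : ∀ N : Set Ω, MeasurableSet[mΩ] N → μ N = 0 → MeasurableSet[m] N)
    (hinv : ∀ (g : G) (A : Set Ω), MeasurableSet[m] A →
      MeasurableSet[m] ((fun x : Ω => g • x) ⁻¹' A)) :
    ∃ Y : Fac G μ, Y.m = m := by
  classical
  obtain ⟨C, hCc, hCgen, hCpi, hCm⟩ := Ker_pi Ω
  have hgmeas : ∀ g : G, Measurable (fun x : Ω => g • x) := fun g => (hμ g).measurable
  set Ω₀ : Set Ω := {x | ∀ g : G, ∀ B ∈ C, condExpKernel μ m (g • x) B =
    condExpKernel μ m x ((fun x : Ω => g • x) ⁻¹' B)} with hΩ₀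
  have hΩ₀m : MeasurableSet[m] Ω₀ := by
    have h1 : Ω₀ = ⋂ g : G, ⋂ B ∈ C, {x | condExpKernel μ m (g • x) B =
        condExpKernel μ m x ((fun x : Ω => g • x) ⁻¹' B)} := by
      ext x
      simp only [hΩ₀, Set.mem_ofPred_eq, Set.mem_iInter]
    rw [h1]
    refine MeasurableSet.iInter fun g => MeasurableSet.biInter hCc fun B hB => ?_
    have hgm : @Measurable Ω Ω m m (fun x : Ω => g • x) := fun A hA => hinv g A hA
    exact @Ker_eqset Ω m _ _ ((measurable_condExpKernel (hCm B hB)).comp hgm)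
      (measurable_condExpKernel (hgmeas g (hCm B hB)))
  have hΩ₀ae : ∀ᵐ x ∂μ, x ∈ Ω₀ := by
    have h1 : ∀ᵐ x ∂μ, ∀ g : G, ∀ B ∈ C, condExpKernel μ m (g • x) B =
        condExpKernel μ m x ((fun x : Ω => g • x) ⁻¹' B) :=
      ae_all_iff.2 fun g => (ae_ball_iff hCc).2 fun B hB =>
        Ker_equiv hμ hle hinv g (hCm B hB)
    exact h1
  have hκ₀ : ∀ x ∈ Ω₀, ∀ g : G, condExpKernel μ m (g • x) =
      Measure.map (fun y : Ω => g • y) (condExpKernel μ m x) := by
    intro x hx g
    have : IsProbabilityMeasure (Measure.map (fun y : Ω => g • y) (condExpKernel μ m x)) :=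
      Measure.isProbabilityMeasure_map (hgmeas g).aemeasurable
    refine ext_of_generate_finite C hCgen hCpi (fun B hB => ?_) (by rw [measure_univ, measure_univ])
    rw [Measure.map_apply (hgmeas g) (hCm B hB)]
    exact hx g B hB
  have hΩ₀inv : ∀ x ∈ Ω₀, ∀ g : G, g • x ∈ Ω₀ := by
    intro x hx g g' B hB
    rw [hκ₀ x hx g, smul_smul, hκ₀ x hx (g' * g),
      Measure.map_apply (hgmeas _) (hCm B hB),
      Measure.map_apply (hgmeas _) ((hgmeas _) (hCm B hB)), ← Set.preimage_comp]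
    congr 1
    ext y
    simp only [Set.mem_preimage, Function.comp_apply, smul_smul]
  have hΩ₀iff : ∀ (x : Ω) (g : G), g • x ∈ Ω₀ ↔ x ∈ Ω₀ := by
    intro x g
    refine ⟨fun h => ?_, fun h => hΩ₀inv x h g⟩
    have h1 := hΩ₀inv _ h g⁻¹
    rwa [inv_smul_smul] at h1
  -- the kernel
  let κ : Kernel Ω Ω := ⟨fun x => if x ∈ Ω₀ then condExpKernel μ m x else Measure.dirac x,
    Measurable.ite (hle _ hΩ₀m) ((condExpKernel μ m).measurable.mono hle le_rfl)
      Measure.measurable_dirac⟩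
  have hκ1 : ∀ x ∈ Ω₀, κ x = condExpKernel μ m x := fun x hx => if_pos hx
  have hκ2 : ∀ x, x ∉ Ω₀ → κ x = Measure.dirac x := fun x hx => if_neg hx
  have hmk : IsMarkovKernel κ := by
    refine ⟨fun x => ?_⟩
    by_cases hx : x ∈ Ω₀
    · rw [hκ1 x hx]; infer_instance
    · rw [hκ2 x hx]; infer_instance
  have hΩ₀c : μ Ω₀ᶜ = 0 := hΩ₀ae
  have hmeas : ∀ B : Set Ω, MeasurableSet[mΩ] B → Measurable[m] (fun x => κ x B) := by
    intro B hB T hT
    have h1 : (fun x => κ x B) ⁻¹' T = (Ω₀ ∩ (fun x => condExpKernel μ m x B) ⁻¹' T) ∪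
        (Ω₀ᶜ ∩ (fun x => κ x B) ⁻¹' T) := by
      ext x
      by_cases hx : x ∈ Ω₀
      · simp only [Set.mem_preimage, Set.mem_union, Set.mem_inter_iff, Set.mem_compl_iff, hx,
          true_and, not_true_eq_false, false_and, or_false, hκ1 x hx]
      · simp only [Set.mem_preimage, Set.mem_union, Set.mem_inter_iff, Set.mem_compl_iff, hx,
          not_false_eq_true, true_and, false_and, false_or]
    rw [h1]
    refine MeasurableSet.union (hΩ₀m.inter (measurable_condExpKernel hB hT)) ?_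
    refine hnull _ ?_ (measure_mono_null Set.inter_subset_left hΩ₀c)
    exact (hle _ hΩ₀m).compl.inter (κ.measurable_coe hB hT)
  have hcond : ∀ A B : Set Ω, MeasurableSet[m] A → MeasurableSet[mΩ] B →
      ∫⁻ x in A, κ x B ∂μ = μ (A ∩ B) := by
    intro A B hA hB
    rw [← Ker_cond hle hA hB]
    apply lintegral_congr_ae
    filter_upwards [ae_restrict_of_ae hΩ₀ae] with x hx
    rw [hκ1 x hx]
  have hself : ∀ A : Set Ω, MeasurableSet[m] A → ∀ᵐ x ∂μ, ∀ᵐ y ∂(κ x), (y ∈ A ↔ x ∈ A) := by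
    intro A hA
    have hA' : MeasurableSet A := hle _ hA
    have h1 : (fun x => κ x A) =ᵐ[μ] A.indicator (fun _ => (1 : ℝ≥0∞)) := by
      refine Ker_unique hle (hmeas A hA') (measurable_const.indicator hA) (fun A' hA'' => ?_)
      rw [hcond A' A hA'' hA', lintegral_indicator hA', Measure.restrict_restrict hA',
        setLIntegral_const, one_mul, Set.inter_comm]
    filter_upwards [h1] with x hx
    by_cases hxA : x ∈ A
    · rw [Set.indicator_of_mem hxA] at hx
      have h2 : κ x Aᶜ = 0 := (prob_compl_eq_zero_iff hA').2 hx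
      have h3 : ∀ᵐ y ∂(κ x), y ∈ A := h2
      filter_upwards [h3] with y hy
      exact ⟨fun _ => hxA, fun _ => hy⟩
    · rw [Set.indicator_of_notMem hxA] at hx
      have h3 : ∀ᵐ y ∂(κ x), y ∉ A := measure_eq_zero_iff_ae_notMem.1 hx
      filter_upwards [h3] with y hy
      exact ⟨fun h => absurd h hy, fun h => absurd h hxA⟩
  have hidem : ∀ᵐ x ∂μ, ∀ᵐ y ∂(κ x), κ y = κ x := by
    have h1 : ∀ᵐ x ∂μ, ∀ B ∈ C, ∀ q : ℚ, ∀ᵐ y ∂(κ x),
        (κ y B < (Real.toNNReal q : ℝ≥0∞) ↔ κ x B < (Real.toNNReal q : ℝ≥0∞)) := by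
      refine (ae_ball_iff hCc).2 fun B hB => ae_all_iff.2 fun q => ?_
      exact hself {y | κ y B < (Real.toNNReal q : ℝ≥0∞)}
        (@Ker_ltset Ω m _ (hmeas B (hCm B hB)) _)
    filter_upwards [h1] with x hx
    have h2 : ∀ᵐ y ∂(κ x), ∀ B ∈ C, ∀ q : ℚ,
        (κ y B < (Real.toNNReal q : ℝ≥0∞) ↔ κ x B < (Real.toNNReal q : ℝ≥0∞)) :=
      (ae_ball_iff hCc).2 fun B hB => ae_all_iff.2 fun q => hx B hB q
    filter_upwards [h2] with y hy
    refine ext_of_generate_finite C hCgen hCpi (fun B hB => ?_) (by rw [measure_univ, measure_univ])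
    apply le_antisymm
    · by_contra hlt
      obtain ⟨q, _, hq1, hq2⟩ := ENNReal.lt_iff_exists_rat_btwn.1 (not_le.1 hlt)
      exact absurd ((hy B hB q).2 hq1) (not_lt.2 hq2.le)
    · by_contra hlt
      obtain ⟨q, _, hq1, hq2⟩ := ENNReal.lt_iff_exists_rat_btwn.1 (not_le.1 hlt)
      exact absurd ((hy B hB q).1 hq1) (not_lt.2 hq2.le)
  have hequiv : ∀ (g : G) (x : Ω), κ (g • x) = Measure.map (fun y : Ω => g • y) (κ x) := by
    intro g x
    by_cases hx : x ∈ Ω₀
    · rw [hκ1 _ ((hΩ₀iff x g).2 hx), hκ1 x hx, hκ₀ x hx g]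
    · rw [hκ2 _ (fun h => hx ((hΩ₀iff x g).1 h)), hκ2 x hx, Measure.map_dirac' (hgmeas g)]
  exact ⟨{ m := m, le := hle, null := hnull, inv := hinv, κ := κ, markov := hmk, meas := hmeas,
           equiv := hequiv, cond := hcond, self := hself, idem := hidem }, rfl⟩

end Dadc30
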