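import Pool.Agent.Lib.MP_dadc30_co.Ker

open MeasureTheory ProbabilityTheory Filter Topology
open scoped ENNReal ComplexConjugate

namespace Dadc30

/-- the σ-algebra of the measurable sets of measure zero or full measure -/
@[reducible] def KerBot_m {Ω : Type} [mΩ : MeasurableSpace Ω] (μ : Measure Ω) :
    MeasurableSpace Ω where
  MeasurableSet' A := MeasurableSet[mΩ] A ∧ (μ A = 0 ∨ μ Aᶜ = 0)
  measurableSet_empty := ⟨MeasurableSet.empty, Or.inl measure_empty⟩
  measurableSet_compl := fun A hA => ⟨hA.1.compl, by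
    rw [compl_compl]; exact hA.2.symm⟩
  measurableSet_iUnion := fun A hA => ⟨MeasurableSet.iUnion fun i => (hA i).1, by
    by_cases h : ∀ i, μ (A i) = 0
    · exact Or.inl (measure_iUnion_null h)
    · right
      push Not at h
      obtain ⟨i, hi⟩ := h
      refine measure_mono_null ?_ ((hA i).2.resolve_left hi)
      exact Set.compl_subset_compl.mpr (Set.subset_iUnion A i)⟩

/-- the trivial factor: `m` = measurable sets of measure 0 or 1.  Then `κ x = μ` for a.e. `x`
(`κ x B` is `m`-measurable, hence a.e. constant, for `B` in a countable π-system). -/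
theorem exists_bot {G : Type} [CommGroup G] [Countable G] {Ω : Type} [MeasurableSpace Ω]
    [StandardBorelSpace Ω] [MulAction G Ω] {μ : Measure Ω} [IsProbabilityMeasure μ]
    (hμ : PMP G μ) : ∃ Y : Fac G μ, ∀ᵐ x ∂μ, Y.κ x = μ := by
  obtain ⟨Y, hY⟩ := exists_fac (KerBot_m μ) hμ (fun A hA => hA.1)
    (fun N hN h0 => ⟨hN, Or.inl h0⟩)
    (fun g A hA => ⟨(hμ g).measurable hA.1, by
      rcases hA.2 with h | h
      · left; rw [(hμ g).measure_preimage hA.1.nullMeasurableSet, h]
      · right
        rw [← Set.preimage_compl, (hμ g).measure_preimage hA.1.compl.nullMeasurableSet, h]⟩)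
  refine ⟨Y, ?_⟩
  have hconst : ∀ B : Set Ω, MeasurableSet B → ∀ᵐ x ∂μ, Y.κ x B = μ B := by
    intro B hB
    have hm := Y.meas B hB
    rw [hY] at hm
    obtain ⟨c, hc⟩ := exists_eventuallyEq_const_of_forall_separating (l := ae μ)
      (f := fun x => Y.κ x B) MeasurableSet (fun U hU => by
        have h1 : MeasurableSet[KerBot_m μ] ((fun x => Y.κ x B) ⁻¹' U) := hm hU
        rcases h1.2 with h | h
        · right
          exact measure_eq_zero_iff_ae_notMem.mp h
        · left
          exact h)
    have h2 := Y.cond Set.univ B (by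
      rw [hY]; exact @MeasurableSet.univ _ (KerBot_m μ)) hB
    rw [Measure.restrict_univ, Set.univ_inter] at h2
    have h3 : ∫⁻ x, Y.κ x B ∂μ = ∫⁻ _x, c ∂μ := lintegral_congr_ae hc
    rw [h3, lintegral_const, measure_univ, mul_one] at h2
    filter_upwards [hc] with x hx
    rw [hx, ← h2, Function.const_apply]
  have hprod : μ ⊗ₘ Y.κ = μ ⊗ₘ (Kernel.const Ω μ) := by
    rw [Measure.compProd_const]
    symm
    apply Measure.prod_eq
    intro s t hs ht
    rw [Measure.compProd_apply_prod hs ht]
    have h4 : ∫⁻ a in s, Y.κ a t ∂μ = ∫⁻ _a in s, μ t ∂μ :=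
      lintegral_congr_ae (ae_restrict_of_ae (hconst t ht))
    rw [h4, setLIntegral_const, mul_comm]
  filter_upwards [Kernel.ae_eq_of_compProd_eq hprod] with x hx
  rw [hx, Kernel.const_apply]

end Dadc30
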