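import Pool.Agent.Lib.MP_dadc30_co.KeyErg2
import Pool.Agent.Lib.MP_dadc30_co.ErgDec
import Pool.Agent.Lib.MP_dadc30_co.Chars

/-!
# MP_dadc30_co, module Key: the key theorem.

Normalize `σ`; `erg_dec` gives `κ` with `κ x` invariant and ergodic a.e.; `∫ κ x Xc dσ = σ Xc = 0`
so `κ x Xc = 0` a.e.; `ft σ z = ∫ ft (κ x) z dσ(x) = 0` by `key_erg`.
-/

open MeasureTheory ProbabilityTheory Filter Topology
open scoped ENNReal ComplexConjugate

namespace Dadc30

theorem key_prob (μ : Measure X) [IsProbabilityMeasure μ] (hμ : PMP Γ₀ μ) (h : μ Xc = 0)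
    (z : K) (hz : z ≠ 0) : ft μ z = 0 := by
  obtain ⟨κ, hM, hmeas, hcond, hPE⟩ := erg_dec hμ
  have h1 : ∫⁻ x, κ x Xc ∂μ = 0 := by
    have h2 := hcond Set.univ Xc ⟨MeasurableSet.univ, fun g => rfl⟩ measurableSet_Xc
    rw [Measure.restrict_univ, Set.univ_inter, h] at h2
    exact h2
  have h3 : ∀ᵐ x ∂μ, κ x Xc = 0 :=
    (lintegral_eq_zero_iff (Kernel.measurable_coe κ measurableSet_Xc)).1 h1
  have h4 : ∀ᵐ x ∂μ, ft (κ x) z = 0 := by
    filter_upwards [h3, hPE] with x hx hx2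
    exact key_erg (κ x) hx2.1 hx2.2 hx z hz
  have hbind : μ.bind κ = μ := by
    ext B hB
    rw [Measure.bind_apply hB κ.measurable.aemeasurable]
    have h := hcond Set.univ B ⟨MeasurableSet.univ, fun g => rfl⟩ hB
    simpa using h
  have hsnd : (μ ⊗ₘ κ).map Prod.snd = μ := by
    ext B hB
    rw [Measure.map_apply measurable_snd hB, Measure.compProd_apply (measurable_snd hB)]
    conv_rhs => rw [← hbind]
    rw [Measure.bind_apply hB κ.measurable.aemeasurable]
    rfl
  have hint : Integrable (fun w : X × X => chi z w.2) (μ ⊗ₘ κ) :=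
    Integrable.of_bound ((measurable_chi z).comp measurable_snd).aestronglyMeasurable 1
      (Eventually.of_forall fun w => (chi_norm z w.2).le)
  have h5 : ft μ z = ∫ x, ft (κ x) z ∂μ := by
    unfold ft
    conv_lhs => rw [← hsnd]
    rw [integral_map measurable_snd.aemeasurable (measurable_chi z).aestronglyMeasurable]
    exact Measure.integral_compProd hint
  rw [h5, integral_congr_ae h4]
  simp

theorem key (σ : Measure X) [IsFiniteMeasure σ] (hσ : PMP Γ₀ σ) (h : σ Xc = 0)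
    (z : K) (hz : z ≠ 0) : ft σ z = 0 := by
  by_cases h0 : σ = 0
  · rw [h0]
    simp [ft]
  have hu : σ Set.univ ≠ 0 := fun hc => h0 (Measure.measure_univ_eq_zero.1 hc)
  have hu' : σ Set.univ ≠ ⊤ := measure_ne_top _ _
  have hp : IsProbabilityMeasure ((σ Set.univ)⁻¹ • σ) := by
    refine ⟨?_⟩
    rw [Measure.smul_apply, smul_eq_mul, ENNReal.inv_mul_cancel hu hu']
  have hP : PMP Γ₀ ((σ Set.univ)⁻¹ • σ) := fun g => (hσ g).smul_measure _
  have hX : ((σ Set.univ)⁻¹ • σ) Xc = 0 := by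
    rw [Measure.smul_apply, h, smul_zero]
  have h1 := key_prob ((σ Set.univ)⁻¹ • σ) hP hX z hz
  unfold ft at h1 ⊢
  rw [integral_smul_measure] at h1
  rcases smul_eq_zero.1 h1 with h2 | h2
  · exfalso
    rw [ENNReal.toReal_eq_zero_iff] at h2
    rcases h2 with h2 | h2
    · exact hu' (ENNReal.inv_eq_zero.1 h2)
    · exact hu (ENNReal.inv_eq_top.1 h2)
  · exact h2

end Dadc30
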