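import Pool.Agent.Lib.MP_dadc30_co.Rad

/-!
# MP_dadc30_co, module Line: two zero-one type lemmas for invariant measures on `X`.

`line`: for `w : Γ₀` let `L_w = {x | t ↦ x(t w) continuous at 0 on A₀}`, `= {x | w•x ∈ L_1}`, so
`ν L_w = ν L_1`.  If `w' ≠ ± w` then `L_w ∩ L_{w'} ⊆ Xc`: every `z ∈ K` is `s w + s' w'` with
`s, s' ∈ A₀` (Cramer; `K_re`, `K_im`), `|s|, |s'| ≤ C |z|`, and `x(z) = x(sw) x(s'w')`.  So
infinitely many `L_w` (one for each line) are pairwise a.e. disjoint with the same measure, in a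
finite measure: `ν L_1 = 0`.
`coset`: `C_w = {x | x / (w • x0) ∈ Xc}`: `ν C_w = ν C_1` (invariance and `Xc_smul`).  If
`x0 ∈ Xc` then `C_1 = Xc`.  Otherwise for `w ≠ w'` the sets are disjoint: a common point gives
`(w•x0)/(w'•x0) = scale (toK w - toK w') x0 ∈ Xc`, so `x0 ∈ Xc` by `Xc_scale`.
-/

open MeasureTheory ProbabilityTheory Filter Topology
open scoped ENNReal ComplexConjugate

namespace Dadc30

/-- the set of the points continuous on the real line -/
private def LineL : Set X :=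
  {x | ∀ ε > (0 : ℝ), ∃ δ > (0 : ℝ), ∀ t : A₀, |(t : ℝ)| < δ → ‖chi (A₀.toK t) x - 1‖ < ε}

private theorem Line_meas : MeasurableSet LineL := by
  have h : LineL = ⋂ n : ℕ, ⋃ m : ℕ, ⋂ t : A₀, {x : X | |(t : ℝ)| < 1 / ((m : ℝ) + 1) →
      ‖chi (A₀.toK t) x - 1‖ < 1 / ((n : ℝ) + 1)} := by
    ext x
    rw [Set.mem_iInter]
    constructor
    · intro hx n
      rw [Set.mem_iUnion]
      obtain ⟨δ, hδ, h⟩ := hx (1 / ((n : ℝ) + 1)) Nat.one_div_pos_of_nat
      obtain ⟨m, hm⟩ := exists_nat_one_div_lt hδ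
      refine ⟨m, Set.mem_iInter.mpr fun t ht => h t (lt_trans ht hm)⟩
    · intro hx ε hε
      obtain ⟨n, hn⟩ := exists_nat_one_div_lt hε
      obtain ⟨m, hm⟩ := Set.mem_iUnion.mp (hx n)
      refine ⟨1 / ((m : ℝ) + 1), Nat.one_div_pos_of_nat, fun t ht => ?_⟩
      exact lt_trans (Set.mem_iInter.mp hm t ht) hn
  rw [h]
  refine MeasurableSet.iInter fun n => MeasurableSet.iUnion fun m => MeasurableSet.iInter fun t => ?_
  by_cases ht : |(t : ℝ)| < 1 / ((m : ℝ) + 1)
  · have : {x : X | |(t : ℝ)| < 1 / ((m : ℝ) + 1) →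
        ‖chi (A₀.toK t) x - 1‖ < 1 / ((n : ℝ) + 1)} =
        {x : X | ‖chi (A₀.toK t) x - 1‖ < 1 / ((n : ℝ) + 1)} := by
      ext x
      exact ⟨fun h => h ht, fun h _ => h⟩
    rw [this]
    exact measurableSet_lt (((measurable_chi _).sub measurable_const).norm) measurable_const
  · have : {x : X | |(t : ℝ)| < 1 / ((m : ℝ) + 1) →
        ‖chi (A₀.toK t) x - 1‖ < 1 / ((n : ℝ) + 1)} = Set.univ := by
      ext x
      exact ⟨fun _ => trivial, fun _ h => absurd h ht⟩
    rw [this]
    exact MeasurableSet.univ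

/-- infinitely many almost disjoint sets of the same measure are null -/
private theorem Line_null {ι : Type*} [Infinite ι] {Ω : Type} [MeasurableSpace Ω] (ν : Measure Ω)
    [IsFiniteMeasure ν] (S : ι → Set Ω) (hS : ∀ i, MeasurableSet (S i)) (c : ℝ≥0∞)
    (hc : ∀ i, ν (S i) = c) (hd : ∀ i j, i ≠ j → ν (S i ∩ S j) = 0) : c = 0 := by
  by_contra h0
  have h1 := Measure.finite_const_le_meas_of_disjoint_iUnion₀ ν (pos_iff_ne_zero.mpr h0)
    (As := S) (fun i => (hS i).nullMeasurableSet) (fun i j hij => hd i j hij)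
    (measure_ne_top ν _)
  have h2 : {i | c ≤ ν (S i)} = Set.univ := by
    ext i
    exact ⟨fun _ => trivial, fun _ => (hc i).ge⟩
  rw [h2] at h1
  exact Set.infinite_univ h1

/-- two lines generate `K` -/
private theorem Line_two (x : X) (w w' : Γ₀)
    (hd : ((toK w : K) : ℂ).re * ((toK w' : K) : ℂ).im -
      ((toK w : K) : ℂ).im * ((toK w' : K) : ℂ).re ≠ 0)
    (h : w • x ∈ LineL) (h' : w' • x ∈ LineL) : x ∈ Xc := by
  set a : ℝ := ((toK w : K) : ℂ).re with ha
  set b : ℝ := ((toK w : K) : ℂ).im with hb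
  set a' : ℝ := ((toK w' : K) : ℂ).re with ha'
  set b' : ℝ := ((toK w' : K) : ℂ).im with hb'
  set d : ℝ := a * b' - b * a' with hdd
  intro ε hε
  obtain ⟨δ, hδ, h1⟩ := h (ε / 2) (half_pos hε)
  obtain ⟨δ', hδ', h1'⟩ := h' (ε / 2) (half_pos hε)
  have hdpos : 0 < |d| := abs_pos.mpr hd
  have hbound : ∀ w : Γ₀, |((toK w : K) : ℂ).re| ≤ 1 ∧ |((toK w : K) : ℂ).im| ≤ 1 := by
    intro w
    rw [← toK_norm w]
    exact ⟨Complex.abs_re_le_norm _, Complex.abs_im_le_norm _⟩
  refine ⟨min δ δ' * |d| / 2, by positivity, fun z hz => ?_⟩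
  have hre := Complex.abs_re_le_norm (z : ℂ)
  have him := Complex.abs_im_le_norm (z : ℂ)
  set r : ℝ := ((z : K) : ℂ).re with hr
  set i : ℝ := ((z : K) : ℂ).im with hi
  have mA : a ∈ AR := K_re _
  have mB : b ∈ AR := K_im _
  have mA' : a' ∈ AR := K_re _
  have mB' : b' ∈ AR := K_im _
  have mR : r ∈ AR := K_re _
  have mI : i ∈ AR := K_im _
  have mD : d ∈ AR := AR.sub_mem (AR.mul_mem mA mB') (AR.mul_mem mB mA')
  let s : A₀ := ⟨(r * b' - i * a') / d, AR.div_mem (AR.sub_mem (AR.mul_mem mR mB')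
    (AR.mul_mem mI mA')) mD⟩
  let s' : A₀ := ⟨(a * i - b * r) / d, AR.div_mem (AR.sub_mem (AR.mul_mem mA mI)
    (AR.mul_mem mB mR)) mD⟩
  have est : ∀ (p q u v : ℝ), |p| ≤ ‖(z : ℂ)‖ → |q| ≤ ‖(z : ℂ)‖ → |u| ≤ 1 → |v| ≤ 1 →
      ∀ δ₁, min δ δ' ≤ δ₁ → |(p * u - q * v) / d| < δ₁ := by
    intro p q u v hp hq hu hv δ₁ hδ₁
    rw [abs_div, div_lt_iff₀ hdpos]
    have e1 : |p * u - q * v| ≤ |p * u| + |q * v| := abs_sub _ _
    rw [abs_mul, abs_mul] at e1
    have e2 : |p| * |u| ≤ ‖(z : ℂ)‖ := by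
      calc |p| * |u| ≤ ‖(z : ℂ)‖ * 1 := mul_le_mul hp hu (abs_nonneg _) (norm_nonneg _)
        _ = _ := mul_one _
    have e3 : |q| * |v| ≤ ‖(z : ℂ)‖ := by
      calc |q| * |v| ≤ ‖(z : ℂ)‖ * 1 := mul_le_mul hq hv (abs_nonneg _) (norm_nonneg _)
        _ = _ := mul_one _
    have e4 : min δ δ' * |d| ≤ δ₁ * |d| := mul_le_mul_of_nonneg_right hδ₁ hdpos.le
    linarith
  have hs : |(s : ℝ)| < δ := est r i b' a' hre him (hbound w').2 (hbound w').1 δ (min_le_left _ _)
  have hs' : |(s' : ℝ)| < δ' := by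
    have := est i r a b him hre (hbound w).1 (hbound w).2 δ' (min_le_right _ _)
    have e : ((s' : A₀) : ℝ) = (i * a - r * b) / d := by
      show (a * i - b * r) / d = _
      ring
    rw [e]
    exact this
  have hz' : z = toK w * A₀.toK s + toK w' * A₀.toK s' := by
    apply Subtype.ext
    show (z : ℂ) = ((toK w : K) : ℂ) * ((((r * b' - i * a') / d : ℝ)) : ℂ) +
      ((toK w' : K) : ℂ) * (((a * i - b * r) / d : ℝ) : ℂ)
    apply Complex.ext
    · rw [Complex.add_re, Complex.re_mul_ofReal, Complex.re_mul_ofReal, ← ha, ← ha', ← hr]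
      field_simp
      rw [hdd]
      ring
    · rw [Complex.add_im, Complex.im_mul_ofReal, Complex.im_mul_ofReal, ← hb, ← hb', ← hi]
      field_simp
      rw [hdd]
      ring
  have e1 := h1 s hs
  have e2 := h1' s' hs'
  rw [chi_smul] at e1 e2
  rw [hz', chi_add]
  set u := chi (toK w * A₀.toK s) x with hu
  set v := chi (toK w' * A₀.toK s') x with hv
  have hv1 : ‖v‖ = 1 := chi_norm _ _
  calc ‖u * v - 1‖ = ‖(u - 1) * v + (v - 1)‖ := by congr 1; ring
    _ ≤ ‖(u - 1) * v‖ + ‖v - 1‖ := norm_add_le _ _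
    _ = ‖u - 1‖ + ‖v - 1‖ := by rw [norm_mul, hv1, mul_one]
    _ < ε := by linarith

theorem line (ν : Measure X) [IsFiniteMeasure ν] (hν : PMP Γ₀ ν) (h : ν Xc = 0) :
    ∀ᵐ x ∂ν, DiscA (fun t => x.1 (A₀.toK t)) := by
  have key : ν LineL = 0 := by
    obtain ⟨n, hn⟩ := exists_negOne
    let W : Set Γ₀ := {w | 0 ≤ ((toK w : K) : ℂ).im ∧ w ≠ n}
    have hinf : W.Infinite := by
      intro hfin
      have hcover : (Set.univ : Set Γ₀) ⊆ (W ∪ {n}) ∪ (fun w => n * w) ⁻¹' (W ∪ {n}) := by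
        intro w _
        by_cases hw : 0 ≤ ((toK w : K) : ℂ).im
        · left
          by_cases hwn : w = n
          · exact Or.inr hwn
          · exact Or.inl ⟨hw, hwn⟩
        · right
          by_cases hwn : n * w = n
          · exact Or.inr hwn
          · refine Or.inl ⟨?_, hwn⟩
            rw [toK_mul, hn, neg_one_mul]
            push Not at hw
            show 0 ≤ (-((toK w : K) : ℂ)).im
            rw [Complex.neg_im]
            linarith
      have hf2 : (W ∪ {n}).Finite := hfin.union (Set.finite_singleton n)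
      have hf3 : ((fun w => n * w) ⁻¹' (W ∪ {n})).Finite :=
        hf2.preimage (mul_right_injective n).injOn
      exact Set.infinite_univ ((hf2.union hf3).subset hcover)
    have : Infinite W := hinf.to_subtype
    refine Line_null ν (fun w : W => (fun x : X => w.1 • x) ⁻¹' LineL)
      (fun w => (hν w.1).measurable Line_meas) (ν LineL)
      (fun w => (hν w.1).measure_preimage Line_meas.nullMeasurableSet) ?_
    rintro ⟨w, hw, hwn⟩ ⟨w', hw', hwn'⟩ hne
    refine measure_mono_null ?_ h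
    rintro x ⟨hx, hx'⟩
    refine Line_two x w w' ?_ hx hx'
    intro hd
    have hne' : w ≠ w' := fun e => hne (by subst e; rfl)
    apply hne'
    apply toK_injective
    have n1 : ((toK w : K) : ℂ).re ^ 2 + ((toK w : K) : ℂ).im ^ 2 = 1 := by
      have := toK_norm w
      have h2 := Complex.sq_norm ((toK w : K) : ℂ)
      rw [this, Complex.normSq_apply] at h2
      nlinarith
    have n2 : ((toK w' : K) : ℂ).re ^ 2 + ((toK w' : K) : ℂ).im ^ 2 = 1 := by
      have := toK_norm w'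
      have h2 := Complex.sq_norm ((toK w' : K) : ℂ)
      rw [this, Complex.normSq_apply] at h2
      nlinarith
    have m1 : ¬ (((toK w : K) : ℂ).re = -1 ∧ ((toK w : K) : ℂ).im = 0) := by
      rintro ⟨e1, e2⟩
      apply hwn
      apply toK_injective
      rw [hn]
      apply Subtype.ext
      apply Complex.ext
      · rw [e1]; show (-1 : ℝ) = (-(1 : ℂ)).re; simp
      · rw [e2]; show (0 : ℝ) = (-(1 : ℂ)).im; simp
    have m2 : ¬ (((toK w' : K) : ℂ).re = -1 ∧ ((toK w' : K) : ℂ).im = 0) := by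
      rintro ⟨e1, e2⟩
      apply hwn'
      apply toK_injective
      rw [hn]
      apply Subtype.ext
      apply Complex.ext
      · rw [e1]; show (-1 : ℝ) = (-(1 : ℂ)).re; simp
      · rw [e2]; show (0 : ℝ) = (-(1 : ℂ)).im; simp
    have hw0 : 0 ≤ ((toK w : K) : ℂ).im := hw
    have hw0' : 0 ≤ ((toK w' : K) : ℂ).im := hw'
    suffices h5 : ((toK w : K) : ℂ).re = ((toK w' : K) : ℂ).re ∧
        ((toK w : K) : ℂ).im = ((toK w' : K) : ℂ).im by
      apply Subtype.ext
      exact Complex.ext h5.1 h5.2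
    clear hx hx' hne hne' hn hinf
    generalize ((toK w : K) : ℂ).re = a at *
    generalize ((toK w : K) : ℂ).im = b at *
    generalize ((toK w' : K) : ℂ).re = a' at *
    generalize ((toK w' : K) : ℂ).im = b' at *
    have hdot : (a * a' + b * b') ^ 2 = 1 := by
      have : (a * a' + b * b') ^ 2 = (a ^ 2 + b ^ 2) * (a' ^ 2 + b' ^ 2) -
        (a * b' - b * a') ^ 2 := by ring
      rw [this, n1, n2, hd]
      norm_num
    have hdot' : a * a' + b * b' = 1 ∨ a * a' + b * b' = -1 := by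
      have h0 : (a * a' + b * b' - 1) * (a * a' + b * b' + 1) = 0 := by
        have : (a * a' + b * b' - 1) * (a * a' + b * b' + 1) = (a * a' + b * b') ^ 2 - 1 := by ring
        rw [this, hdot, sub_self]
      rcases mul_eq_zero.mp h0 with h1 | h1
      · left; linarith
      · right; linarith
    rcases hdot' with h6 | h6
    · have h7 : (a - a') ^ 2 + (b - b') ^ 2 = 0 := by nlinarith
      have h8 : (a - a') ^ 2 = 0 := by nlinarith [sq_nonneg (a - a'), sq_nonneg (b - b')]
      have h9 : (b - b') ^ 2 = 0 := by nlinarith [sq_nonneg (a - a'), sq_nonneg (b - b')]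
      exact ⟨by have := pow_eq_zero_iff (two_ne_zero) |>.mp h8; linarith,
        by have := pow_eq_zero_iff (two_ne_zero) |>.mp h9; linarith⟩
    · exfalso
      have h7 : (a + a') ^ 2 + (b + b') ^ 2 = 0 := by nlinarith
      have h8 : (a + a') ^ 2 = 0 := by nlinarith [sq_nonneg (a + a'), sq_nonneg (b + b')]
      have h9 : (b + b') ^ 2 = 0 := by nlinarith [sq_nonneg (a + a'), sq_nonneg (b + b')]
      have h10 := pow_eq_zero_iff (two_ne_zero) |>.mp h8
      have h11 := pow_eq_zero_iff (two_ne_zero) |>.mp h9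
      have hb0 : b = 0 := by linarith
      have hb0' : b' = 0 := by linarith
      subst hb0 hb0'
      have h12 : (a - 1) * (a + 1) = 0 := by nlinarith
      rcases mul_eq_zero.mp h12 with h13 | h13
      · exact m2 ⟨by linarith, rfl⟩
      · exact m1 ⟨by linarith, rfl⟩
  rw [ae_iff]
  refine measure_mono_null ?_ key
  intro x hx
  have hx' : ¬ DiscA (fun t => x.1 (A₀.toK t)) := hx
  unfold DiscA at hx'
  rw [not_not] at hx'
  exact hx'

theorem coset (ν : Measure X) [IsFiniteMeasure ν] (hν : PMP Γ₀ ν) (h : ν Xc = 0) (x0 : X) :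
    ν {x | x / x0 ∈ Xc} = 0 := by
  have hm : ∀ y : X, MeasurableSet {x : X | x / y ∈ Xc} := by
    intro y
    have : Measurable (fun x : X => x / y) :=
      measurable_div_X.comp (measurable_id.prodMk measurable_const)
    exact this measurableSet_Xc
  by_cases h0 : x0 ∈ Xc
  · refine measure_mono_null ?_ h
    intro x hx
    have hx' : x / x0 ∈ Xc := hx
    have : x = (x / x0) * x0 := by rw [div_mul_cancel]
    rw [this]
    exact Xc_mul hx' h0
  refine Line_null ν (fun w : Γ₀ => {x : X | x / (w • x0) ∈ Xc}) (fun w => hm _) _ ?_ ?_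
  · intro w
    have e : {x : X | x / (w • x0) ∈ Xc} = (fun x : X => w⁻¹ • x) ⁻¹' {x | x / x0 ∈ Xc} := by
      ext x
      show x / (w • x0) ∈ Xc ↔ (w⁻¹ • x) / x0 ∈ Xc
      have : (w⁻¹ • x) / x0 = w⁻¹ • (x / (w • x0)) := by
        rw [smul_div_X, inv_smul_smul]
      rw [this, Xc_smul]
    rw [e]
    exact (hν w⁻¹).measure_preimage (hm x0).nullMeasurableSet
  · intro w w' hne
    have : {x : X | x / (w • x0) ∈ Xc} ∩ {x : X | x / (w' • x0) ∈ Xc} = ∅ := by
      rw [Set.eq_empty_iff_forall_notMem]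
      rintro x ⟨hx, hx'⟩
      apply h0
      have h1 : x / (w • x0) ∈ Xc := hx
      have h2 : x / (w' • x0) ∈ Xc := hx'
      have h3 : (x / (w' • x0)) / (x / (w • x0)) ∈ Xc := Xc_div h2 h1
      have h4 : (x / (w' • x0)) / (x / (w • x0)) = scale (toK w - toK w') x0 := by
        rw [div_div_div_cancel_left]
        apply X_ext
        intro z
        rw [chi_div, chi_smul, chi_smul, chi_scale, sub_mul, chi_sub]
      rw [h4] at h3
      refine (Xc_scale ?_ x0).mp h3
      intro h5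
      exact hne (toK_injective (sub_eq_zero.mp h5))
    rw [this, measure_empty]

/-- Fubini: the difference of two independent points is singular -/
theorem diffLaw_prod_Xc (ν : Measure X) [IsFiniteMeasure ν] (hν : PMP Γ₀ ν) (h : ν Xc = 0) :
    diffLaw (ν.prod ν) Xc = 0 := by
  rw [diffLaw_Xc]
  have hmeas : MeasurableSet {z : X × X | z.1 / z.2 ∈ Xc} := measurable_div_X measurableSet_Xc
  rw [Measure.measure_prod_null hmeas]
  refine Eventually.of_forall fun x => ?_
  show ν (Prod.mk x ⁻¹' {z : X × X | z.1 / z.2 ∈ Xc}) = 0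
  refine measure_mono_null ?_ (coset ν hν h x)
  intro y hy
  have hy' : x / y ∈ Xc := hy
  have := Xc_inv hy'
  rw [inv_div] at this
  exact this

end Dadc30
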