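import Pool.Agent.Lib.MP_dadc30_co.Loc1
import Pool.Agent.Lib.MP_dadc30_co.Line

/-!
# MP_dadc30_co, module Loc: applications of Loc1 to invariant singular measures.

`loc`: `loc1` with `ξ x t = x(t r)`, `= (scale r x)(t)`; `ν.map (scale r)` is invariant and
singular, so `line` gives discontinuity a.e.
`e1`: suppose `Re ft ν z > 3/4`; by radiality `z = s > 0` real, `f(s) = 1 - η`, `η < 1/4`.  For
`z₁, z₂` of norm `s`: `1 - f(z₁+z₂) = ½ E|1-χ_{z₁+z₂}|² ≤ 2(1-f z₁) + 2(1 - f z₂) = 4η`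
(`E|1-χ_z|² = 2(1 - f z)`), so `f(r) ≥ 1 - 4η > 0` for all `r ∈ A₀ ∩ [0,2s]` (`exists_two`);
this contradicts `loc` with `r = 1`, `ε = s`: the averages of `f(tmod s t) ≥ 1-4η` tend to 0.
`tj`: apply `loc` to `m = diffLaw (ν.prod ν)` (after normalizing `ν`; if `ν = 0` take any `t`)
whose transform is `‖ft ν z‖²/…`, singular by `diffLaw_prod_Xc`: for `ε₁ ∈ A₀`, `0 < ε₁ ≤ ε`,
`∑_{z∈W} avg_n ‖ft ν (tmod ε₁ t · z)‖² → 0`; so some `t' = tmod ε₁ t ∈ [0, ε₁)` in the support has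
`∑_{z∈W} ‖ft ν (t' z)‖² < min(ε, ν(X))²/2`, in particular `t' ≠ 0` (if `W` is nonempty and
`ν ≠ 0`).
-/

open MeasureTheory ProbabilityTheory Filter Topology
open scoped ENNReal ComplexConjugate

namespace Dadc30

/-- averages of functions bounded below -/
theorem loc_avg_ge {G : Type} [AddCommGroup G] (F : FolnerSeq G) (n : ℕ) {φ : G → ℝ} {C : ℝ}
    (h : ∀ g, C ≤ φ g) : C ≤ avg (F.c n) φ := by
  have h1 : ((F.c n).sum fun _ r => r) = 1 := F.one n
  unfold Finsupp.sum at h1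
  unfold avg Finsupp.sum
  calc C = ∑ g ∈ (F.c n).support, (F.c n) g * C := by rw [← Finset.sum_mul, h1, one_mul]
    _ ≤ ∑ g ∈ (F.c n).support, (F.c n) g * φ g :=
        Finset.sum_le_sum fun g _ => mul_le_mul_of_nonneg_left (h g) (F.nonneg n g)

theorem loc_avg_sum {G κ : Type} (c : G →₀ ℝ) (s : Finset κ) (φ : κ → G → ℝ) :
    avg c (fun g => ∑ k ∈ s, φ k g) = ∑ k ∈ s, avg c (φ k) := by
  unfold avg Finsupp.sum
  rw [Finset.sum_comm]
  exact Finset.sum_congr rfl fun g _ => Finset.mul_sum _ _ _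

theorem loc_tmod_nonneg (ε t : A₀) (hε : 0 < (ε : ℝ)) : 0 ≤ ((tmod ε t : A₀) : ℝ) := by
  unfold tmod
  push_cast
  rw [zsmul_eq_mul]
  have h := Int.floor_le ((t : ℝ) / (ε : ℝ))
  rw [le_div_iff₀ hε] at h
  linarith

theorem loc_tmod_lt (ε t : A₀) (hε : 0 < (ε : ℝ)) : ((tmod ε t : A₀) : ℝ) < ε := by
  unfold tmod
  push_cast
  rw [zsmul_eq_mul]
  have h := Int.lt_floor_add_one ((t : ℝ) / (ε : ℝ))
  rw [div_lt_iff₀ hε] at h
  linarith

theorem loc (F : FolnerSeq A₀) (ν : Measure X) [IsProbabilityMeasure ν] (hν : PMP Γ₀ ν)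
    (h : ν Xc = 0) (r : K) (hr : r ≠ 0) (ε : A₀) (hε : 0 < (ε : ℝ)) :
    Tendsto (fun n => avg (F.c n) (fun t => (ft ν (A₀.toK (tmod ε t) * r)).re))
      atTop (𝓝 0) := by
  have : IsProbabilityMeasure (ν.map (scale r)) :=
    Measure.isProbabilityMeasure_map (measurable_scale r).aemeasurable
  have h1 : (ν.map (scale r)) Xc = 0 := by rw [Xc_map_scale ν hr, h]
  have h2 := line (ν.map (scale r)) (pmp_map_scale hν r) h1
  have h3 := loc1 F (ν.map (scale r)) (fun x t => x.1 (A₀.toK t))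
    (fun t => (measurable_pi_apply _).comp measurable_subtype_coe)
    (fun s a b => by
      show s.1 (A₀.toK (a + b)) = s.1 (A₀.toK a) * s.1 (A₀.toK b)
      rw [toK_add]
      exact s.2 _ _) h2 ε hε
  have h4 : Tendsto (fun n => (avgC (F.c n) (fun t => ∫ s,
      ((s.1 (A₀.toK (tmod ε t)) : Circle) : ℂ) ∂(ν.map (scale r)))).re) atTop (𝓝 0) := by
    have := (Complex.continuous_re.tendsto 0).comp h3
    rw [Complex.zero_re] at this
    exact this
  refine h4.congr fun n => ?_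
  rw [folner_avgC_re]
  congr 1
  funext t
  have h5 : (∫ s, ((s.1 (A₀.toK (tmod ε t)) : Circle) : ℂ) ∂(ν.map (scale r))) =
      ft (ν.map (scale r)) (A₀.toK (tmod ε t)) := rfl
  rw [h5, ft_map_scale, mul_comm]

theorem loc_pt {a b : ℂ} (ha : ‖a‖ = 1) (hb : ‖b‖ = 1) :
    1 - (a * b).re ≤ 2 * (1 - a.re) + 2 * (1 - b.re) := by
  have h1 : a.re ^ 2 + a.im ^ 2 = 1 := by
    have := Complex.sq_norm a
    rw [ha, Complex.normSq_apply] at this
    linarith
  have h2 : b.re ^ 2 + b.im ^ 2 = 1 := by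
    have := Complex.sq_norm b
    rw [hb, Complex.normSq_apply] at this
    linarith
  rw [Complex.mul_re]
  have key : (1 - 2 * a.re + (a.re * b.re - a.im * b.im)) ^ 2 +
      (-2 * a.im + (a.re * b.im + a.im * b.re)) ^ 2 =
      6 - 4 * a.re + 2 * (a.re * b.re - a.im * b.im) - 4 * b.re := by
    linear_combination (4 - 4 * b.re + (b.re ^ 2 + b.im ^ 2)) * h1 + h2
  have k1 := sq_nonneg (1 - 2 * a.re + (a.re * b.re - a.im * b.im))
  have k2 := sq_nonneg (-2 * a.im + (a.re * b.im + a.im * b.re))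
  linarith

theorem loc_ft_re (ν : Measure X) [IsFiniteMeasure ν] (z : K) :
    (ft ν z).re = ∫ x, (chi z x).re ∂ν := by
  unfold ft
  exact (Complex.reCLM.integral_comp_comm ((BM_chi z).integrable ν)).symm

theorem loc_sum (ν : Measure X) [IsProbabilityMeasure ν] (z z' : K) :
    1 - (ft ν (z + z')).re ≤ 2 * (1 - (ft ν z).re) + 2 * (1 - (ft ν z').re) := by
  have i1 : ∀ y : K, Integrable (fun x => (chi y x).re) ν := fun y =>
    ((BM_chi y).re).integrable ν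
  have h1 : ∀ y : K, 1 - (ft ν y).re = ∫ x, (1 - (chi y x).re) ∂ν := by
    intro y
    rw [integral_sub (integrable_const _) (i1 y), loc_ft_re]
    simp
  rw [h1, h1, h1, ← integral_const_mul, ← integral_const_mul, ← integral_add]
  · refine integral_mono ((integrable_const _).sub (i1 _)) ?_ ?_
    · exact (((integrable_const _).sub (i1 _)).const_mul _).add
        (((integrable_const _).sub (i1 _)).const_mul _)
    · intro x
      show 1 - (chi (z + z') x).re ≤ 2 * (1 - (chi z x).re) + 2 * (1 - (chi z' x).re)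
      rw [chi_add]
      exact loc_pt (chi_norm _ _) (chi_norm _ _)
  · exact ((integrable_const _).sub (i1 _)).const_mul _
  · exact ((integrable_const _).sub (i1 _)).const_mul _

theorem e1 (ν : Measure X) [IsProbabilityMeasure ν] (hν : PMP Γ₀ ν) (h : ν Xc = 0)
    (z : K) (hz : z ≠ 0) : (ft ν z).re ≤ 3 / 4 := by
  by_contra hcon
  push Not at hcon
  obtain ⟨s, hs⟩ := exists_A_norm z
  have hs0 : 0 < (s : ℝ) := by
    rw [hs, norm_pos_iff]
    intro h0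
    exact hz (Subtype.ext h0)
  obtain ⟨F⟩ := exists_folner A₀
  have h1 := loc F ν hν h 1 one_ne_zero s hs0
  have h2 : ∀ n, 1 - 4 * (1 - (ft ν z).re) ≤
      avg (F.c n) (fun t => (ft ν (A₀.toK (tmod s t) * 1)).re) := by
    intro n
    refine loc_avg_ge F n fun t => ?_
    have ha := loc_tmod_nonneg s t hs0
    have hb := loc_tmod_lt s t hs0
    obtain ⟨z1, z2, hz1, hz2, h12⟩ := exists_two (tmod s t) s ha (by linarith)
    rw [mul_one, ← h12]
    have e1 : ft ν z1 = ft ν z := ft_radial hν (by rw [hz1, hs])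
    have e2 : ft ν z2 = ft ν z := ft_radial hν (by rw [hz2, hs])
    have := loc_sum ν z1 z2
    rw [e1, e2] at this
    linarith
  have h3 := ge_of_tendsto h1 (Eventually.of_forall h2)
  linarith

theorem loc_exists_A (ε : ℝ) (hε : 0 < ε) : ∃ t : A₀, 0 < (t : ℝ) ∧ (t : ℝ) < ε := by
  obtain ⟨t, ht⟩ := dense_A (ε / 2) (ε / 2) (by linarith)
  rw [abs_lt] at ht
  exact ⟨t, by linarith, by linarith⟩

theorem loc_tj1 (ν : Measure X) [IsProbabilityMeasure ν] (hν : PMP Γ₀ ν) (h : ν Xc = 0)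
    (W : Finset K) (hW : ∀ z ∈ W, z ≠ 0) (ε δ : ℝ) (hε : 0 < ε) (hδ : 0 < δ) :
    ∃ t : A₀, 0 < (t : ℝ) ∧ (t : ℝ) < ε ∧ ∀ z ∈ W, ‖ft ν (A₀.toK t * z)‖ < δ := by
  obtain ⟨e, he0, he1⟩ := loc_exists_A ε hε
  rcases W.eq_empty_or_nonempty with hWe | ⟨w, hw⟩
  · subst hWe
    exact ⟨e, he0, he1, fun z hz => absurd hz (Finset.notMem_empty z)⟩
  obtain ⟨F⟩ := exists_folner A₀
  have : IsProbabilityMeasure (diffLaw (ν.prod ν)) := diffLaw_prob _
  have h0 : diffLaw (ν.prod ν) Xc = 0 := diffLaw_prod_Xc ν hν h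
  have hm : PMP Γ₀ (diffLaw (ν.prod ν)) := diffLaw_pmp (pmp_prod hν)
  have h1 : ∀ z ∈ W, Tendsto (fun n => avg (F.c n)
      (fun t => ‖ft ν (A₀.toK (tmod e t) * z)‖ ^ 2)) atTop (𝓝 0) := by
    intro z hz
    refine (loc F (diffLaw (ν.prod ν)) hm h0 z (hW z hz) e he0).congr fun n => ?_
    congr 1
    funext t
    rw [ft_diffLaw_prod, Complex.ofReal_re]
  have h2 : Tendsto (fun n => avg (F.c n)
      (fun t => ∑ z ∈ W, ‖ft ν (A₀.toK (tmod e t) * z)‖ ^ 2)) atTop (𝓝 0) := by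
    have := tendsto_finsetSum W h1
    rw [Finset.sum_const_zero] at this
    refine this.congr fun n => ?_
    rw [loc_avg_sum]
  have hd0 : 0 < min δ 1 ^ 2 := by positivity
  obtain ⟨n, hn⟩ := ((tendsto_order.1 h2).2 _ hd0).exists
  have h3 : ∃ t : A₀, ∑ z ∈ W, ‖ft ν (A₀.toK (tmod e t) * z)‖ ^ 2 < min δ 1 ^ 2 := by
    by_contra hcon
    push Not at hcon
    exact absurd (loc_avg_ge F n hcon) (not_le.2 hn)
  obtain ⟨t, ht⟩ := h3
  have h4 : ∀ z ∈ W, ‖ft ν (A₀.toK (tmod e t) * z)‖ < min δ 1 := by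
    intro z hz
    have h5 : ‖ft ν (A₀.toK (tmod e t) * z)‖ ^ 2 ≤
        ∑ z ∈ W, ‖ft ν (A₀.toK (tmod e t) * z)‖ ^ 2 :=
      Finset.single_le_sum (f := fun z => ‖ft ν (A₀.toK (tmod e t) * z)‖ ^ 2)
        (fun _ _ => by positivity) hz
    exact lt_of_pow_lt_pow_left₀ 2 (by positivity) (h5.trans_lt ht)
  refine ⟨tmod e t, ?_, (loc_tmod_lt e t he0).trans he1, fun z hz =>
    (h4 z hz).trans_le (min_le_left _ _)⟩
  refine lt_of_le_of_ne (loc_tmod_nonneg e t he0) fun h6 => ?_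
  have h7 : tmod e t = 0 := Subtype.ext h6.symm
  have h8 := h4 w hw
  have h9 : A₀.toK (0 : A₀) = 0 := Subtype.ext (by simp [A₀.toK])
  rw [h7, h9, zero_mul, ft_zero] at h8
  simp at h8

theorem tj (ν : Measure X) [IsFiniteMeasure ν] (hν : PMP Γ₀ ν) (h : ν Xc = 0)
    (W : Finset K) (hW : ∀ z ∈ W, z ≠ 0) (ε : ℝ) (hε : 0 < ε) :
    ∃ t : A₀, 0 < (t : ℝ) ∧ (t : ℝ) < ε ∧ ∀ z ∈ W, ‖ft ν (A₀.toK t * z)‖ < ε := by
  by_cases h0 : ν = 0
  · obtain ⟨e, he0, he1⟩ := loc_exists_A ε hε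
    refine ⟨e, he0, he1, fun z _ => ?_⟩
    rw [h0]
    simpa [ft] using hε
  have hM : ν Set.univ ≠ 0 := by
    rwa [Ne, Measure.measure_univ_eq_zero]
  have hMt : ν Set.univ ≠ ⊤ := measure_ne_top _ _
  have hMr : 0 < (ν Set.univ).toReal := ENNReal.toReal_pos hM hMt
  have : IsProbabilityMeasure ((ν Set.univ)⁻¹ • ν) := ⟨by
    rw [Measure.smul_apply, smul_eq_mul, ENNReal.inv_mul_cancel hM hMt]⟩
  have hν' : PMP Γ₀ ((ν Set.univ)⁻¹ • ν) := fun g => (hν g).smul_measure _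
  have h' : ((ν Set.univ)⁻¹ • ν) Xc = 0 := by
    rw [Measure.smul_apply, h, smul_zero]
  obtain ⟨t, ht0, ht1, ht2⟩ := loc_tj1 ((ν Set.univ)⁻¹ • ν) hν' h' W hW ε
    (ε / (ν Set.univ).toReal) hε (by positivity)
  refine ⟨t, ht0, ht1, fun z hz => ?_⟩
  have h3 := ht2 z hz
  unfold ft at h3 ⊢
  rw [integral_smul_measure, norm_smul, ENNReal.toReal_inv, norm_inv, Real.norm_eq_abs,
    abs_of_pos hMr, lt_div_iff₀ hMr] at h3
  rw [show (ν Set.univ).toReal⁻¹ * ‖∫ x, chi (A₀.toK t * z) x ∂ν‖ * (ν Set.univ).toReal =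
    ‖∫ x, chi (A₀.toK t * z) x ∂ν‖ by field_simp] at h3
  exact h3

end Dadc30
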