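import Pool.Agent.Lib.MP_dadc30_co.QLa

/-!
# MP_dadc30_co, module QLc: lower bound.

If `u•x ∈ BZ Z N'` and `u⁻¹•x ∈ BZ (Z/4) N'` then by `ql_close`
`|χ_z((u - ū/4)·x) - 1| ≤ 6/N' ≤ η` for `z ∈ Z`, i.e. `scale (u - ū/4) x ∈ near Z η`.
`|u - ū/4| = |vv u|` (`e4` with `a = 1, b = 1/4, c = 1/2, d = 3/4`), both non-zero, so
`vv u = toK w * (u - ū/4)` for some `w : Γ₀` (`exists_rot`) and by invariance
`ν {scale (vv u) x ∈ near} = ν {scale (u - ū/4) x ∈ near}`.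
`ν{u•x ∈ B₁, u⁻¹•x ∈ B₂} = ν{(u*u)•x ∈ B₁, x ∈ B₂}` has mean `ν(B₁)ν(B₂)` (`met_erg_real` for
`M.pull sqHom`).
-/

open MeasureTheory ProbabilityTheory Filter Topology
open scoped ENNReal ComplexConjugate

namespace Dadc30

/-- `u - ū/4` -/
private noncomputable def QLc_t (u : Γ₀) : K := toK u - (1 / 4) * toK u⁻¹

private lemma QLc_close {Z : Finset K} {η : ℝ} {N' : ℕ} (hN' : 6 ≤ η * N')
    {u : Γ₀} {x : X} (h1 : u • x ∈ BZ Z N')
    (h2 : u⁻¹ • x ∈ BZ (Z.image fun z => (1 / 4) * z) N') :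
    scale (QLc_t u) x ∈ near Z η := by
  have hN0 : 0 < N' := by
    rcases Nat.eq_zero_or_pos N' with h | h
    · rw [h] at hN'
      norm_num at hN'
    · exact h
  have hNr : (0 : ℝ) < N' := by exact_mod_cast hN0
  have e1 := ql_close Z N' hN0 h1
  have e2 := ql_close _ N' hN0 h2
  have h6 : 3 / (N' : ℝ) + 3 / (N' : ℝ) ≤ η := by
    rw [← add_div, div_le_iff₀ hNr]
    linarith
  intro z hz
  have f1 := e1 z hz
  have f2 := e2 ((1 / 4) * z) (Finset.mem_image_of_mem _ hz)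
  rw [chi_smul] at f1 f2
  rw [chi_scale]
  have h7 : QLc_t u * z = toK u * z - toK u⁻¹ * ((1 / 4) * z) := by
    unfold QLc_t
    ring
  rw [h7, chi_sub]
  set a := chi (toK u * z) x with ha
  set b := chi (toK u⁻¹ * ((1 / 4) * z)) x with hb
  have hb1 : ‖conj b‖ = 1 := by rw [RCLike.norm_conj, hb, chi_norm]
  have hb2 : ‖conj b - 1‖ = ‖b - 1‖ := by
    rw [← RCLike.norm_conj (b - 1), map_sub, map_one]
  calc ‖a * conj b - 1‖ = ‖(a - 1) * conj b + (conj b - 1)‖ := by congr 1; ring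
    _ ≤ ‖(a - 1) * conj b‖ + ‖conj b - 1‖ := norm_add_le _ _
    _ = ‖a - 1‖ + ‖b - 1‖ := by rw [norm_mul, hb1, mul_one, hb2]
    _ ≤ 3 / (N' : ℝ) + 3 / (N' : ℝ) := add_le_add f1 f2
    _ ≤ η := h6

private lemma QLc_norm (u : Γ₀) : ‖((QLc_t u : K) : ℂ)‖ = ‖((vv u : K) : ℂ)‖ := by
  have a2 : ((2 : A₀) : ℝ) = 2 := map_ofNat AR.subtype 2
  have a3 : ((3 : A₀) : ℝ) = 3 := map_ofNat AR.subtype 3
  have a4 : ((4 : A₀) : ℝ) = 4 := map_ofNat AR.subtype 4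
  have k2 : ((2 : K) : ℂ) = 2 := map_ofNat Falg.subtype 2
  have k3 : ((3 : K) : ℂ) = 3 := map_ofNat Falg.subtype 3
  have k4 : ((4 : K) : ℂ) = 4 := map_ofNat Falg.subtype 4
  have h1 : A₀.toK (1 : A₀) = 1 := by
    apply Subtype.ext
    simp [A₀.toK]
  have h4 : A₀.toK (1 / 4 : A₀) = 1 / 4 := by
    apply Subtype.ext
    simp [A₀.toK, a4, k4]
  have h2 : A₀.toK (1 / 2 : A₀) = 1 / 2 := by
    apply Subtype.ext
    simp [A₀.toK, a2, k2]
  have h3 : A₀.toK (3 / 4 : A₀) = 3 / 4 := by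
    apply Subtype.ext
    simp [A₀.toK, a3, a4, k3, k4]
  have h := e4 1 (1 / 4) (1 / 2) (3 / 4) (by norm_num) (by norm_num) u
  rw [h1, h2, h3, h4] at h
  rw [one_mul] at h
  exact h

private lemma QLc_ne (u : Γ₀) : QLc_t u ≠ 0 := by
  intro h
  have h1 : toK u = (1 / 4) * toK u⁻¹ := sub_eq_zero.1 h
  have h2 : ‖((toK u : K) : ℂ)‖ = ‖(((1 / 4) * toK u⁻¹ : K) : ℂ)‖ := by rw [← h1]
  rw [toK_norm] at h2
  have h3 : (((1 / 4) * toK u⁻¹ : K) : ℂ) = (1 / 4) * ((toK u⁻¹ : K) : ℂ) := by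
    push_cast
    rfl
  rw [h3, norm_mul, toK_norm] at h2
  norm_num at h2

private lemma QLc_inv {ν : Measure X} (hν : PMP Γ₀ ν) (Z : Finset K) (η : ℝ) (u : Γ₀) :
    ν {x | scale (vv u) x ∈ near Z η} = ν {x | scale (QLc_t u) x ∈ near Z η} := by
  obtain ⟨w, hw⟩ := exists_rot (QLc_ne u) (QLc_norm u)
  have h1 : {x | scale (vv u) x ∈ near Z η} =
      (fun x : X => w • x) ⁻¹' {x | scale (QLc_t u) x ∈ near Z η} := by
    ext x
    show scale (vv u) x ∈ near Z η ↔ scale (QLc_t u) (w • x) ∈ near Z η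
    rw [hw, smul_eq_scale, scale_scale]
  rw [h1]
  exact (hν w).measure_preimage
    ((measurable_scale (QLc_t u)) (measurableSet_near Z η)).nullMeasurableSet

theorem ql_lower (Z : Finset K) (η : ℝ) (hη : 0 < η) (N' : ℕ) (hN' : 6 ≤ η * N')
    (ν : Measure X) [IsProbabilityMeasure ν] (hν : PMP Γ₀ ν) (hE : Erg Γ₀ ν)
    (M : InvMean Γ₀) :
    (ν (BZ Z N')).toReal * (ν (BZ (Z.image fun z => (1 / 4) * z) N')).toReal ≤
      M.m (fun u => (ν {x | scale (vv u) x ∈ near Z η}).toReal) := by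
  set B₁ : Set X := BZ Z N' with hB₁
  set B₂ : Set X := BZ (Z.image fun z => (1 / 4) * z) N' with hB₂
  have m1 : MeasurableSet B₁ := measurableSet_BZ _ _
  have m2 : MeasurableSet B₂ := measurableSet_BZ _ _
  have hbm : ∀ B : Set X, MeasurableSet B → BMR (B.indicator (fun _ => (1 : ℝ))) := by
    intro B hB
    refine ⟨measurable_const.indicator hB, 1, fun x => ?_⟩
    by_cases hx : x ∈ B
    · rw [Set.indicator_of_mem hx]; simp
    · rw [Set.indicator_of_notMem hx]; simp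
  have h1 := met_erg_real hν hE (M.pull (sqHom Γ₀) (sqHom_surj divis_Γ)) (hbm B₁ m1) (hbm B₂ m2)
  rw [InvMean.pull_m] at h1
  have hint : ∀ B : Set X, MeasurableSet B →
      ∫ x, B.indicator (fun _ => (1 : ℝ)) x ∂ν = (ν B).toReal := by
    intro B hB
    rw [integral_indicator hB]
    simp [Measure.real]
  rw [hint B₁ m1, hint B₂ m2] at h1
  rw [← h1]
  have hfun : ∀ u : Γ₀, ∫ x, B₁.indicator (fun _ => (1 : ℝ)) (sqHom Γ₀ u • x) *
      B₂.indicator (fun _ => (1 : ℝ)) x ∂ν = (ν {x | u • x ∈ B₁ ∧ u⁻¹ • x ∈ B₂}).toReal := by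
    intro u
    have hm : MeasurableSet {x : X | sqHom Γ₀ u • x ∈ B₁ ∧ x ∈ B₂} :=
      ((measurable_smul_X (sqHom Γ₀ u)) m1).inter m2
    have e1 : ∀ x : X, B₁.indicator (fun _ => (1 : ℝ)) (sqHom Γ₀ u • x) *
        B₂.indicator (fun _ => (1 : ℝ)) x =
        Set.indicator {x : X | sqHom Γ₀ u • x ∈ B₁ ∧ x ∈ B₂} (fun _ => (1 : ℝ)) x := by
      intro x
      by_cases h1 : sqHom Γ₀ u • x ∈ B₁
      · by_cases h2 : x ∈ B₂
        · rw [Set.indicator_of_mem h1, Set.indicator_of_mem h2, Set.indicator_of_mem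
            (show x ∈ {x : X | sqHom Γ₀ u • x ∈ B₁ ∧ x ∈ B₂} from ⟨h1, h2⟩), mul_one]
        · rw [Set.indicator_of_notMem h2, Set.indicator_of_notMem
            (show x ∉ {x : X | sqHom Γ₀ u • x ∈ B₁ ∧ x ∈ B₂} from fun h => h2 h.2), mul_zero]
      · rw [Set.indicator_of_notMem h1, Set.indicator_of_notMem
            (show x ∉ {x : X | sqHom Γ₀ u • x ∈ B₁ ∧ x ∈ B₂} from fun h => h1 h.1), zero_mul]
    rw [integral_congr_ae (Filter.Eventually.of_forall e1), hint _ hm]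
    congr 1
    rw [← (hν u⁻¹).measure_preimage hm.nullMeasurableSet]
    congr 1
    ext x
    show (sqHom Γ₀ u • u⁻¹ • x ∈ B₁ ∧ u⁻¹ • x ∈ B₂) ↔ (u • x ∈ B₁ ∧ u⁻¹ • x ∈ B₂)
    have : sqHom Γ₀ u • u⁻¹ • x = u • x := by
      rw [smul_smul]
      congr 1
      show u * u * u⁻¹ = u
      group
    rw [this]
  simp only [hfun]
  refine M.mono' _ _ ?_ ?_ ?_
  · refine ⟨1, fun u => ?_⟩
    rw [abs_of_nonneg ENNReal.toReal_nonneg]
    exact ENNReal.toReal_le_of_le_ofReal zero_le_one (by simpa using prob_le_one)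
  · refine ⟨1, fun u => ?_⟩
    rw [abs_of_nonneg ENNReal.toReal_nonneg]
    exact ENNReal.toReal_le_of_le_ofReal zero_le_one (by simpa using prob_le_one)
  · intro u
    rw [QLc_inv hν]
    refine ENNReal.toReal_mono (measure_ne_top _ _) (measure_mono fun x hx => ?_)
    exact QLc_close hN' hx.1 hx.2

end Dadc30
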