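import Pool.Agent.Lib.MP_dadc30_co.QLb
import Pool.Agent.Lib.MP_dadc30_co.QLc
import Pool.Agent.Lib.MP_dadc30_co.FolnerMean

/-!
# MP_dadc30_co, module QL: quantization lemma.

Suppose `0 < Φ < 1` (`0 ≤ Φ ≤ 1` follows from `ql_meas`: `-20/N ≤ Φ ≤ 1`).
`p₀ = min(Φ, 1-Φ)/2`, `ε` from `mid Γ₀ divis_Γ p₀`.  Choose `N` with `20/N ≤ min(p₀, ε/100)`,
`N0` with `2/N0 ≤ ε/10`, `(Z, η)` from `ql_count N N0`, `N'` with `6 ≤ η N'` and
`20/N' ≤ ε/100`, and a mean `M` (`exists_mean`).  For large `j` (`ql_meas` for `{1}, N`; `Z, N'`;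
`Z/4, N'`), with `ν = ν j`, `P = Q = 1_{BZ {1} N}`:
`(Φ - 20/N')² ≤ M_u ν{scale (vv u) x ∈ near Z η} ≤ M_u ν{u•x, u⁻¹•x, x ∈ BZ} + ε/10
 = ν(BZ)² - M_u ∫ P(ux)P(u⁻¹x)(1-P(x)) + ε/10 ≤ (Φ+20/N)² - ε + ε/10`: contradiction.
-/

open MeasureTheory ProbabilityTheory Filter Topology
open scoped ENNReal ComplexConjugate

namespace Dadc30

theorem ql_bmr_smul {P : X → ℝ} (hPm : Measurable P) (u : Γ₀) :
    Measurable (fun x : X => P (u • x)) := hPm.comp (measurable_smul_X u)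

/-- the mean of `∫ P(ux) P(u⁻¹x)` -/
theorem ql_mean_sq (ν : Measure X) [IsProbabilityMeasure ν] (hν : PMP Γ₀ ν) (hE : Erg Γ₀ ν)
    (M : InvMean Γ₀) {P : X → ℝ} (hPm : Measurable P) (hP : ∀ x, 0 ≤ P x ∧ P x ≤ 1) :
    M.m (fun u => ∫ x, P (u • x) * P (u⁻¹ • x) ∂ν) = (∫ x, P x ∂ν) * ∫ x, P x ∂ν := by
  have hBMR : BMR P := ⟨hPm, 1, fun x => by rw [abs_of_nonneg (hP x).1]; exact (hP x).2⟩
  rw [← met_erg_real hν hE (M.pull (sqHom Γ₀) (sqHom_surj divis_Γ)) hBMR hBMR, M.pull_m]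
  congr 1
  funext u
  have hF : Measurable (fun x : X => P (u • x) * P (u⁻¹ • x)) :=
    (ql_bmr_smul hPm u).mul (ql_bmr_smul hPm u⁻¹)
  have h1 : ∫ x, P (u • x) * P (u⁻¹ • x) ∂ν =
      ∫ x, P (u • x) * P (u⁻¹ • x) ∂(ν.map (fun x : X => u • x)) := by
    rw [(hν u).map_eq]
  rw [h1, integral_map (measurable_smul_X u).aemeasurable hF.aestronglyMeasurable]
  refine integral_congr_ae (Filter.Eventually.of_forall fun x => ?_)
  show P (u • u • x) * P (u⁻¹ • u • x) = P ((u * u) • x) * P x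
  rw [mul_smul, inv_smul_smul]

theorem ql_core (ν : Measure X) [IsProbabilityMeasure ν] (hν : PMP Γ₀ ν) (hE : Erg Γ₀ ν)
    (M : InvMean Γ₀) (B : Set X) (hB : MeasurableSet B) (ε : ℝ)
    (hε : ε < M.m (fun u => ∫ x, B.indicator 1 (u • x) * B.indicator 1 (u⁻¹ • x) *
      (1 - B.indicator 1 x) ∂ν)) :
    M.m (fun u => (ν {x | u • x ∈ B ∧ u⁻¹ • x ∈ B ∧ x ∈ B}).toReal) ≤
      (ν B).toReal * (ν B).toReal - ε := by
  classical
  set P : X → ℝ := B.indicator 1 with hPdef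
  have hPm : Measurable P := measurable_one.indicator hB
  have hP : ∀ x, 0 ≤ P x ∧ P x ≤ 1 := by
    intro x
    by_cases hx : x ∈ B
    · simp [hPdef, hx]
    · simp [hPdef, hx]
  have hint : ∫ x, P x ∂ν = (ν B).toReal := by
    rw [hPdef, integral_indicator_one hB]
    rfl
  have hsq := ql_mean_sq ν hν hE M hPm hP
  rw [hint] at hsq
  have hF : ∀ u : Γ₀, Measurable (fun x : X => P (u • x) * P (u⁻¹ • x)) := fun u =>
    (ql_bmr_smul hPm u).mul (ql_bmr_smul hPm u⁻¹)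
  have hF01 : ∀ (u : Γ₀) (x : X), 0 ≤ P (u • x) * P (u⁻¹ • x) ∧
      P (u • x) * P (u⁻¹ • x) ≤ 1 := fun u x =>
    ⟨mul_nonneg (hP _).1 (hP _).1, mul_le_one₀ (hP _).2 (hP _).1 (hP _).2⟩
  have hbd : ∀ F : X → ℝ, Measurable F → (∀ x, 0 ≤ F x ∧ F x ≤ 1) →
      Integrable F ν ∧ |∫ x, F x ∂ν| ≤ 1 := by
    intro F hFm hF1
    have hi : Integrable F ν := by
      refine Integrable.of_bound hFm.aestronglyMeasurable 1
        (Filter.Eventually.of_forall fun x => ?_)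
      rw [Real.norm_eq_abs, abs_of_nonneg (hF1 x).1]
      exact (hF1 x).2
    refine ⟨hi, ?_⟩
    rw [abs_of_nonneg (integral_nonneg fun x => (hF1 x).1)]
    calc ∫ x, F x ∂ν ≤ ∫ _, (1 : ℝ) ∂ν := integral_mono hi (integrable_const 1) fun x => (hF1 x).2
      _ = 1 := by simp
  have hG01 : ∀ (u : Γ₀) (x : X), 0 ≤ P (u • x) * P (u⁻¹ • x) * (1 - P x) ∧
      P (u • x) * P (u⁻¹ • x) * (1 - P x) ≤ 1 := fun u x =>
    ⟨mul_nonneg (hF01 u x).1 (by linarith [(hP x).2]),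
      mul_le_one₀ (hF01 u x).2 (by linarith [(hP x).2]) (by linarith [(hP x).1])⟩
  have hGm : ∀ u : Γ₀, Measurable (fun x : X => P (u • x) * P (u⁻¹ • x) * (1 - P x)) := fun u =>
    (hF u).mul (measurable_const.sub hPm)
  have h1 : ∀ u : Γ₀, (ν {x | u • x ∈ B ∧ u⁻¹ • x ∈ B ∧ x ∈ B}).toReal =
      (∫ x, P (u • x) * P (u⁻¹ • x) ∂ν) - ∫ x, P (u • x) * P (u⁻¹ • x) * (1 - P x) ∂ν := by
    intro u
    have hS : MeasurableSet {x : X | u • x ∈ B ∧ u⁻¹ • x ∈ B ∧ x ∈ B} :=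
      ((measurable_smul_X u) hB).inter (((measurable_smul_X u⁻¹) hB).inter hB)
    rw [← integral_sub (hbd _ (hF u) (hF01 u)).1 (hbd _ (hGm u) (hG01 u)).1]
    have h2 : (ν {x | u • x ∈ B ∧ u⁻¹ • x ∈ B ∧ x ∈ B}).toReal =
        ∫ x, {x | u • x ∈ B ∧ u⁻¹ • x ∈ B ∧ x ∈ B}.indicator (1 : X → ℝ) x ∂ν := by
      rw [integral_indicator_one hS]
      rfl
    rw [h2]
    refine integral_congr_ae (Filter.Eventually.of_forall fun x => ?_)
    show {x | u • x ∈ B ∧ u⁻¹ • x ∈ B ∧ x ∈ B}.indicator (1 : X → ℝ) x =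
      P (u • x) * P (u⁻¹ • x) - P (u • x) * P (u⁻¹ • x) * (1 - P x)
    simp only [hPdef, Set.indicator_apply, Set.mem_ofPred_eq, Pi.one_apply]
    by_cases ha : u • x ∈ B <;> by_cases hb : u⁻¹ • x ∈ B <;> by_cases hc : x ∈ B <;>
      simp [ha, hb, hc]
  have h3 : M.m (fun u => (ν {x | u • x ∈ B ∧ u⁻¹ • x ∈ B ∧ x ∈ B}).toReal) =
      M.m (fun u => (∫ x, P (u • x) * P (u⁻¹ • x) ∂ν)) -
        M.m (fun u => ∫ x, P (u • x) * P (u⁻¹ • x) * (1 - P x) ∂ν) := by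
    rw [← M.m_sub ⟨1, fun u => (hbd _ (hF u) (hF01 u)).2⟩
      ⟨1, fun u => (hbd _ (hGm u) (hG01 u)).2⟩]
    congr 1
    funext u
    exact h1 u
  rw [h3, hsq]
  linarith

theorem ql (ν : ℕ → Measure X) (hp : ∀ j, IsProbabilityMeasure (ν j))
    (hν : ∀ j, PMP Γ₀ (ν j)) (hE : ∀ j, Erg Γ₀ (ν j)) (Φ : ℝ)
    (h : ∀ z : K, z ≠ 0 → Tendsto (fun j => (ft (ν j) z).re) atTop (𝓝 Φ)) :
    Φ = 0 ∨ Φ = 1 := by
  classical
  have hone : ∀ z ∈ ({1} : Finset K), z ≠ 0 := by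
    intro z hz
    rw [Finset.mem_singleton] at hz
    rw [hz]
    exact one_ne_zero
  have h01 : ∀ (j : ℕ) (A : Set X), 0 ≤ ((ν j) A).toReal ∧ ((ν j) A).toReal ≤ 1 := by
    intro j A
    have := hp j
    refine ⟨ENNReal.toReal_nonneg, ?_⟩
    have h1 : (ν j) A ≤ 1 := prob_le_one
    exact ENNReal.toReal_le_of_le_ofReal zero_le_one (by rwa [ENNReal.ofReal_one])
  -- `20 / N` is small for some `N`
  have hsmall : ∀ δ : ℝ, 0 < δ → ∃ N : ℕ, 0 < N ∧ (20 : ℝ) / N ≤ δ := by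
    intro δ hδ
    obtain ⟨N, hN⟩ := exists_nat_gt (20 / δ)
    have hN0 : (0 : ℝ) < N := lt_trans (by positivity) hN
    refine ⟨N, by exact_mod_cast hN0, ?_⟩
    rw [div_le_iff₀ hN0]
    rw [div_lt_iff₀ hδ] at hN
    linarith [mul_comm δ (N : ℝ)]
  have hΦ01 : 0 ≤ Φ ∧ Φ ≤ 1 := by
    constructor
    · by_contra hneg
      push Not at hneg
      obtain ⟨N, hN, hN2⟩ := hsmall (-Φ / 2) (by linarith)
      obtain ⟨j, hj⟩ := (ql_meas ν hp hν Φ h {1} (Finset.singleton_nonempty _) hone N hN).exists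
      have h2 := (h01 j (BZ {1} N)).1
      have h3 := (abs_le.mp hj).2
      linarith
    · by_contra hneg
      push Not at hneg
      obtain ⟨N, hN, hN2⟩ := hsmall ((Φ - 1) / 2) (by linarith)
      obtain ⟨j, hj⟩ := (ql_meas ν hp hν Φ h {1} (Finset.singleton_nonempty _) hone N hN).exists
      have h2 := (h01 j (BZ {1} N)).2
      have h3 := (abs_le.mp hj).1
      linarith
  by_contra hcon
  push Not at hcon
  have hΦ0 : 0 < Φ := lt_of_le_of_ne hΦ01.1 (Ne.symm hcon.1)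
  have hΦ1 : Φ < 1 := lt_of_le_of_ne hΦ01.2 hcon.2
  obtain ⟨p₀, hp₀, hp₀1, hp₀2⟩ : ∃ p₀ : ℝ, 0 < p₀ ∧ 2 * p₀ ≤ Φ ∧ 2 * p₀ ≤ 1 - Φ := by
    refine ⟨min Φ (1 - Φ) / 2, ?_, ?_, ?_⟩
    · have : 0 < min Φ (1 - Φ) := lt_min hΦ0 (by linarith)
      linarith
    · linarith [min_le_left Φ (1 - Φ)]
    · linarith [min_le_right Φ (1 - Φ)]
  obtain ⟨ε, hε, hmid⟩ := mid Γ₀ divis_Γ p₀ hp₀
  obtain ⟨N, hN, hNs⟩ := hsmall (min p₀ (ε / 100)) (lt_min hp₀ (by linarith))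
  obtain ⟨N0, hN0, hN0s⟩ := hsmall ε hε
  have hN0r : (0 : ℝ) < N0 := by exact_mod_cast hN0
  have hN0' : (2 : ℝ) / N0 ≤ ε / 10 := by
    have h1 : (20 : ℝ) / N0 = 10 * (2 / N0) := by ring
    rw [h1] at hN0s
    linarith
  obtain ⟨Z, η, hZ, hZ0, hη, hcount⟩ := ql_count N hN N0 hN0
  obtain ⟨N', hN', hN's⟩ := hsmall (min η (ε / 100)) (lt_min hη (by linarith))
  have hN'r : (0 : ℝ) < N' := by exact_mod_cast hN'
  have hN'η : 6 ≤ η * N' := by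
    have h1 := hN's.trans (min_le_left _ _)
    rw [div_le_iff₀ hN'r] at h1
    linarith
  have hN'ε : (20 : ℝ) / N' ≤ ε / 100 := hN's.trans (min_le_right _ _)
  have hNε : (20 : ℝ) / N ≤ ε / 100 := hNs.trans (min_le_right _ _)
  have hNp : (20 : ℝ) / N ≤ p₀ := hNs.trans (min_le_left _ _)
  obtain ⟨M⟩ := exists_mean Γ₀
  have hZ4 : ∀ z ∈ Z.image (fun z => (1 / 4 : K) * z), z ≠ 0 := by
    intro z hz
    rw [Finset.mem_image] at hz
    obtain ⟨w, hw, rfl⟩ := hz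
    refine mul_ne_zero ?_ (hZ0 w hw)
    norm_num
  have e1 := ql_meas ν hp hν Φ h {1} (Finset.singleton_nonempty _) hone N hN
  have e2 := ql_meas ν hp hν Φ h Z hZ hZ0 N' hN'
  have e3 := ql_meas ν hp hν Φ h (Z.image (fun z => (1 / 4 : K) * z)) (hZ.image _) hZ4 N' hN'
  obtain ⟨j, ⟨h1, h2⟩, h3⟩ := ((e1.and e2).and e3).exists
  have hpj := hp j
  have hmeasB : MeasurableSet (BZ {1} N) := measurableSet_BZ {1} N
  have hint : ∫ x, (BZ {1} N).indicator (1 : X → ℝ) x ∂(ν j) = ((ν j) (BZ {1} N)).toReal := by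
    rw [integral_indicator_one hmeasB]
    rfl
  have hP01 : ∀ x, 0 ≤ (BZ {1} N).indicator (1 : X → ℝ) x ∧
      (BZ {1} N).indicator (1 : X → ℝ) x ≤ 1 := by
    intro x
    by_cases hx : x ∈ BZ {1} N
    · simp [hx]
    · simp [hx]
  have hPm : Measurable ((BZ {1} N).indicator (1 : X → ℝ)) := measurable_one.indicator hmeasB
  have a1 := abs_le.mp h1
  have a2 := abs_le.mp h2
  have a3 := abs_le.mp h3
  have hm := hmid X (ν j) (hν j) (hE j) M _ _ hPm hPm hP01 hP01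
    (by rw [hint]; linarith) (by rw [hint]; linarith) (by linarith)
  have hc := ql_core (ν j) (hν j) (hE j) M (BZ {1} N) hmeasB ε hm
  have hd := hcount (ν j) (hν j) M
  have he := ql_lower Z η hη N' hN'η (ν j) (hν j) (hE j) M
  set a := ((ν j) (BZ Z N')).toReal with ha
  set b := ((ν j) (BZ (Z.image fun z => (1 / 4) * z) N')).toReal with hb
  set p := ((ν j) (BZ {1} N)).toReal with hpp
  have ha01 : 0 ≤ a ∧ a ≤ 1 := h01 j _
  have hp01 : 0 ≤ p ∧ p ≤ 1 := h01 j _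
  have b1 : -(ε / 100) ≤ b - Φ := by linarith [a3.1]
  have b2 : -(ε / 100) ≤ a - Φ := by linarith [a2.1]
  have b3 : p - Φ ≤ ε / 100 := by linarith [a1.2]
  have c1 : a * b - Φ * Φ ≥ -(2 * (ε / 100)) := by
    have d1 : a * b - Φ * Φ = a * (b - Φ) + Φ * (a - Φ) := by ring
    have d2 : a * (b - Φ) ≥ -(ε / 100) := by
      nlinarith [ha01.1, ha01.2]
    have d3 : Φ * (a - Φ) ≥ -(ε / 100) := by
      nlinarith [hΦ01.1, hΦ01.2]
    linarith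
  have c2 : p * p - Φ * Φ ≤ 2 * (ε / 100) := by
    have d1 : p * p - Φ * Φ = (p + Φ) * (p - Φ) := by ring
    rw [d1]
    nlinarith [hp01.1, hp01.2, hΦ01.1, hΦ01.2]
  linarith

end Dadc30
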