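import Pool.Agent.Lib.MP_dadc30_co.PropV
import Pool.Agent.Lib.MP_dadc30_co.Loc
import Pool.Agent.Lib.MP_dadc30_co.QL

/-!
# MP_dadc30_co, module Step1: if `Y` is singular then so is the next factor.

Let `m = diffLaw V.sq` (invariant probability measure, `ft m r = V.h (chi r)`),
`m_on = m.restrict Xc`, `m_off = m.restrict Xcᶜ` (both invariant by `Xc_smul`), `p = m(Xc)`.
Suppose `p > 0`.  `ft m_on r → p` as `|r| → 0` (dominated convergence; sequences).
Enumerate `K \ {0}` as `r_0, r_1, …`; for `j : ℕ` choose by `tj` (for `m_off`) `t_j ∈ A₀`,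
`0 < t_j < δ_j`, with `|ft m_off (t_j r_i)| < 1/(j+1)` for `i ≤ j`, where `δ_j ≤ 1/(j+1)` is so
small that `|ft m_on (t r_i) - p| < 1/(j+1)` for `i ≤ j`, `0 < t < δ_j`.  By `propV` with
`R = {t_j r_i | i ≤ j}` and `ε = 1/(j+1)` there is `m_j` ergodic, and
`ν_j = m_j.map (scale t_j)` is ergodic and invariant with `Re ft ν_j r_i → p` for every `i`.
`ql`: `p = 1`.  So `m_off = 0`, `V.h (chi r) = ft m_on r → 1` as `r → 0`: choose `r ≠ 0` with
`V.h (chi r) > 7/8` and apply `propV` with `R = {r}`, `ε = 1/16`: an ergodic singular measure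
with `Re ft > 3/4`, contradicting `e1`.
-/

open MeasureTheory ProbabilityTheory Filter Topology
open scoped ENNReal ComplexConjugate

namespace Dadc30

theorem step1_split (m : Measure X) [IsFiniteMeasure m] (z : K) :
    ft m z = ft (m.restrict Xc) z + ft (m.restrict Xcᶜ) z := by
  unfold ft
  exact (integral_add_compl measurableSet_Xc ((BM_chi z).integrable m)).symm

theorem step1_lim (m : Measure X) [IsFiniteMeasure m] (ε : ℝ) (hε : 0 < ε) :
    ∃ δ : ℝ, 0 < δ ∧ ∀ z : K, ‖(z : ℂ)‖ < δ →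
      ‖ft (m.restrict Xc) z - ((m Xc).toReal : ℂ)‖ < ε := by
  have h1 : Tendsto (fun z : K => ∫ x, chi z x ∂(m.restrict Xc))
      (comap (fun z : K => ‖(z : ℂ)‖) (𝓝 0)) (𝓝 (∫ _x, (1 : ℂ) ∂(m.restrict Xc))) := by
    refine tendsto_integral_filter_of_dominated_convergence (fun _ => (1 : ℝ)) ?_ ?_
      (integrable_const _) ?_
    · exact Eventually.of_forall fun z => (measurable_chi z).aestronglyMeasurable
    · exact Eventually.of_forall fun z => ae_of_all _ fun x => (chi_norm z x).le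
    · refine (ae_restrict_mem measurableSet_Xc).mono fun x hx => ?_
      rw [Metric.tendsto_nhds]
      intro η hη
      obtain ⟨δ, hδ, h2⟩ := hx η hη
      refine mem_comap.2 ⟨Metric.ball 0 δ, Metric.ball_mem_nhds _ hδ, ?_⟩
      intro z hz
      have h3 : ‖(z : ℂ)‖ < δ := by
        have h4 : ‖(z : ℂ)‖ ∈ Metric.ball (0 : ℝ) δ := hz
        rwa [mem_ball_zero_iff, norm_norm] at h4
      change dist (chi z x) 1 < η
      rw [dist_eq_norm]
      exact h2 z h3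
  have h2 : ∫ _x, (1 : ℂ) ∂(m.restrict Xc) = ((m Xc).toReal : ℂ) := by
    rw [integral_const, measureReal_restrict_apply_univ, Complex.real_smul, mul_one]
    rfl
  rw [h2, Metric.tendsto_nhds] at h1
  obtain ⟨t, ht, h3⟩ := mem_comap.1 (h1 ε hε)
  obtain ⟨δ, hδ, h4⟩ := Metric.mem_nhds_iff.1 ht
  refine ⟨δ, hδ, fun z hz => ?_⟩
  have h5 : ‖(z : ℂ)‖ ∈ t := h4 (by rwa [mem_ball_zero_iff, norm_norm])
  have h6 : z ∈ {z : K | dist (∫ x, chi z x ∂(m.restrict Xc)) ((m Xc).toReal : ℂ) < ε} := h3 h5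
  have h7 : dist (∫ x, chi z x ∂(m.restrict Xc)) ((m Xc).toReal : ℂ) < ε := h6
  rwa [dist_eq_norm] at h7

theorem step1_pmp {m : Measure X} (hm : PMP Γ₀ m) : PMP Γ₀ (m.restrict Xcᶜ) := by
  intro g
  have h1 := (hm g).restrict_preimage measurableSet_Xc.compl
  have h2 : (fun x : X => g • x) ⁻¹' Xcᶜ = Xcᶜ := by
    ext x
    simp only [Set.mem_preimage, Set.mem_compl_iff, Xc_smul]
  rwa [h2] at h1

theorem step1_exists_small (δ : ℝ) (hδ : 0 < δ) : ∃ z : K, z ≠ 0 ∧ ‖(z : ℂ)‖ < δ := by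
  obtain ⟨t, ht⟩ := dense_A (δ / 2) (δ / 4) (by positivity)
  rw [abs_lt] at ht
  refine ⟨A₀.toK t, ?_, ?_⟩
  · intro h
    have h1 := A_norm t
    rw [h] at h1
    have h2 : |(t : ℝ)| = 0 := by
      rw [← h1]; simp
    rw [abs_eq_zero] at h2
    linarith
  · rw [A_norm, abs_of_pos (by linarith)]
    linarith

/-- the scaled measures -/
theorem step1_seq {ν : Measure X} [IsProbabilityMeasure ν] (hν : PMP Γ₀ ν) (hE : Erg Γ₀ ν)
    {Y V : Fac Γ₀ ν} (h : IsNext Y V) (hs : Y.sing) (W : Finset K) (hW : ∀ z ∈ W, z ≠ 0)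
    (ε : ℝ) (hε : 0 < ε) :
    ∃ μ : Measure X, IsProbabilityMeasure μ ∧ PMP Γ₀ μ ∧ Erg Γ₀ μ ∧
      ∀ z ∈ W, |(ft μ z).re - (diffLaw V.sq Xc).toReal| ≤ 3 * ε := by
  classical
  have hm1 : IsProbabilityMeasure (diffLaw V.sq) := diffLaw_prob _
  have hm2 : PMP Γ₀ (diffLaw V.sq) := diffLaw_pmp (V.sq_pmp hν)
  obtain ⟨δ, hδ, h1⟩ := step1_lim (diffLaw V.sq) ε hε
  obtain ⟨B, hB, hB2⟩ : ∃ B : ℝ, 0 < B ∧ ∀ z ∈ W, ‖(z : ℂ)‖ ≤ B := by
    refine ⟨1 + ∑ z ∈ W, ‖(z : ℂ)‖, ?_, fun z hz => ?_⟩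
    · have : 0 ≤ ∑ z ∈ W, ‖(z : ℂ)‖ := Finset.sum_nonneg fun _ _ => norm_nonneg _
      linarith
    · have := Finset.single_le_sum (f := fun z : K => ‖(z : ℂ)‖) (fun _ _ => norm_nonneg _) hz
      linarith
  obtain ⟨t, ht0, ht1, ht2⟩ := tj ((diffLaw V.sq).restrict Xcᶜ) (step1_pmp hm2)
    (by rw [Measure.restrict_apply measurableSet_Xc]; simp) W hW (min ε (δ / B))
    (lt_min hε (by positivity))
  have ht3 : (t : ℝ) < δ / B := ht1.trans_le (min_le_right _ _)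
  have ht4 : (t : ℝ) * B < δ := by rwa [lt_div_iff₀ hB] at ht3
  obtain ⟨m, hp, hP, hEm, _, hR⟩ := propV hν hE h hs (W.image fun z => A₀.toK t * z) ε hε
  refine ⟨m.map (scale (A₀.toK t)),
    Measure.isProbabilityMeasure_map (measurable_scale _).aemeasurable, pmp_map_scale hP _,
    erg_map_scale hEm _, fun z hz => ?_⟩
  rw [ft_map_scale]
  have h2 := hR _ (Finset.mem_image_of_mem _ hz)
  have h3 : V.h (chi (A₀.toK t * z)) = (ft (diffLaw V.sq) (A₀.toK t * z)).re := by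
    rw [ft_diffLaw_sq, Complex.ofReal_re]
  have h4 : ‖((A₀.toK t * z : K) : ℂ)‖ < δ := by
    have h5 : ((A₀.toK t * z : K) : ℂ) = ((A₀.toK t : K) : ℂ) * (z : ℂ) := rfl
    rw [h5, norm_mul, A_norm, abs_of_pos ht0]
    exact (mul_le_mul_of_nonneg_left (hB2 z hz) ht0.le).trans_lt ht4
  have h5 := h1 _ h4
  have h6 := (ht2 z hz).trans_le (min_le_left _ _)
  have h7 : |(ft (diffLaw V.sq) (A₀.toK t * z)).re - (diffLaw V.sq Xc).toReal| ≤ 2 * ε := by
    rw [step1_split]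
    have h8 := Complex.abs_re_le_norm (ft ((diffLaw V.sq).restrict Xc) (A₀.toK t * z) -
      ((diffLaw V.sq Xc).toReal : ℂ))
    have h9 := Complex.abs_re_le_norm (ft ((diffLaw V.sq).restrict Xcᶜ) (A₀.toK t * z))
    rw [Complex.sub_re, Complex.ofReal_re] at h8
    rw [Complex.add_re]
    have h10 := abs_add_le ((ft ((diffLaw V.sq).restrict Xc) (A₀.toK t * z)).re -
      (diffLaw V.sq Xc).toReal) ((ft ((diffLaw V.sq).restrict Xcᶜ) (A₀.toK t * z)).re)
    have h11 : (ft ((diffLaw V.sq).restrict Xc) (A₀.toK t * z)).re +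
        (ft ((diffLaw V.sq).restrict Xcᶜ) (A₀.toK t * z)).re - (diffLaw V.sq Xc).toReal =
        (ft ((diffLaw V.sq).restrict Xc) (A₀.toK t * z)).re -
      (diffLaw V.sq Xc).toReal + (ft ((diffLaw V.sq).restrict Xcᶜ) (A₀.toK t * z)).re := by ring
    rw [h11]
    linarith
  rw [h3] at h2
  have h8 := abs_sub_le (ft m (A₀.toK t * z)).re (ft (diffLaw V.sq) (A₀.toK t * z)).re
    (diffLaw V.sq Xc).toReal
  linarith

theorem step1 {ν : Measure X} [IsProbabilityMeasure ν] (hν : PMP Γ₀ ν) (hE : Erg Γ₀ ν)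
    {Y V : Fac Γ₀ ν} (h : IsNext Y V) (hs : Y.sing) : V.sing := by
  classical
  have hm1 : IsProbabilityMeasure (diffLaw V.sq) := diffLaw_prob _
  have hm2 : PMP Γ₀ (diffLaw V.sq) := diffLaw_pmp (V.sq_pmp hν)
  unfold Fac.sing
  rw [← diffLaw_Xc]
  by_contra hne
  have hp0 : (diffLaw V.sq Xc).toReal ≠ 0 :=
    ENNReal.toReal_ne_zero.2 ⟨hne, measure_ne_top _ _⟩
  -- the sequence
  obtain ⟨f, hf⟩ : ∃ f : ℕ → K, Function.Surjective f := exists_surjective_nat K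
  have hseq : ∀ j : ℕ, ∃ μ : Measure X, IsProbabilityMeasure μ ∧ PMP Γ₀ μ ∧ Erg Γ₀ μ ∧
      ∀ z ∈ ((Finset.range (j + 1)).image f).filter (fun z => z ≠ 0),
        |(ft μ z).re - (diffLaw V.sq Xc).toReal| ≤ 3 * (1 / ((j : ℝ) + 1)) := fun j =>
    step1_seq hν hE h hs _ (fun z hz => (Finset.mem_filter.1 hz).2) _ (by positivity)
  choose μ hμ1 hμ2 hμ3 hμ4 using hseq
  have hp1 : (diffLaw V.sq Xc).toReal = 1 := by
    rcases ql μ hμ1 hμ2 hμ3 (diffLaw V.sq Xc).toReal (by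
      intro z hz
      obtain ⟨i, hi⟩ := hf z
      have hlim : Tendsto (fun j : ℕ => 3 * (1 / ((j : ℝ) + 1))) atTop (𝓝 0) := by
        have := (tendsto_one_div_add_atTop_nhds_zero_nat (𝕜 := ℝ)).const_mul 3
        rwa [mul_zero] at this
      rw [tendsto_iff_dist_tendsto_zero]
      refine squeeze_zero' (Eventually.of_forall fun _ => dist_nonneg) ?_ hlim
      filter_upwards [eventually_ge_atTop i] with j hj
      rw [Real.dist_eq]
      refine hμ4 j z ?_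
      rw [Finset.mem_filter]
      exact ⟨Finset.mem_image.2 ⟨i, Finset.mem_range.2 (by omega), hi⟩, hz⟩) with h1 | h1
    · exact absurd h1 hp0
    · exact h1
  have hoff : diffLaw V.sq Xcᶜ = 0 := by
    rw [prob_compl_eq_zero_iff measurableSet_Xc]
    have h1 := ENNReal.ofReal_toReal (measure_ne_top (diffLaw V.sq) Xc)
    rw [hp1, ENNReal.ofReal_one] at h1
    exact h1.symm
  obtain ⟨δ, hδ, h1⟩ := step1_lim (diffLaw V.sq) (1 / 8) (by norm_num)
  obtain ⟨z, hz, hzδ⟩ := step1_exists_small δ hδ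
  obtain ⟨m, hp, hP, hEm, hXc, hR⟩ := propV hν hE h hs {z} (1 / 16) (by norm_num)
  have h2 := hR z (Finset.mem_singleton_self z)
  have h3 : V.h (chi z) = (ft (diffLaw V.sq) z).re := by
    rw [ft_diffLaw_sq, Complex.ofReal_re]
  have h4 : (diffLaw V.sq).restrict Xcᶜ = 0 := Measure.restrict_eq_zero.2 hoff
  have h5 : ft (diffLaw V.sq) z = ft ((diffLaw V.sq).restrict Xc) z := by
    rw [step1_split, h4]
    unfold ft
    rw [integral_zero_measure, add_zero]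
  have h6 := h1 z hzδ
  have h7 := Complex.abs_re_le_norm (ft ((diffLaw V.sq).restrict Xc) z -
      ((diffLaw V.sq Xc).toReal : ℂ))
  rw [Complex.sub_re, Complex.ofReal_re, ← h5, ← h3, hp1] at h7
  rw [hp1, ← h5] at h6
  have h8 := e1 m hP hXc z hz
  rw [abs_le] at h2 h7
  have h9 : ‖ft (diffLaw V.sq) z - ((1 : ℝ) : ℂ)‖ < 1 / 8 := h6
  linarith [h2.1, h7.1]

end Dadc30
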