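import Pool.Agent.Lib.MP_dadc30_co.MainIneq
import Pool.Agent.Lib.MP_dadc30_co.Step1
import Pool.Agent.Lib.MP_dadc30_co.KerBot

/-!
# MP_dadc30_co, module KeyErg: an ergodic singular measure has transform 0 off the origin.

Tower: `Y 0` from `exists_bot`, `Y (n+1)` from `exists_next`.  `(Y 0).sq = ν.prod ν` (kernel a.e.
`= ν`), so `(Y 0).sing` by `diffLaw_prod_Xc`, `diffLaw_Xc`; `(Y n).sing` for all `n` by `step1`.
`h n z := (Y n).h (chi z)` is increasing in `n` (`next_le`, `Fac.h_mono`), radial, and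
`h n z ≤ 3/4` for `z ≠ 0` (`e1` for `diffLaw (Y n).sq`).  `H z = sup_n h n z`,
`Hs = sup_{z≠0} H z ≤ 3/4`; `h 0 z = |ft ν z|²`.  Suppose `ft ν z₀ ≠ 0`, then `Hs > 0`.
`ε` from `mid` for `p₀ = min (Hs/4) (1/4)`, `η = min (ε/10) (Hs/20)`.
(1) `a ∈ A₀`, `a > 0`, `H a > Hs - η`.
(2) `b ∈ A₀`, `b > 0`, `b ≠ a`, `H b > 0`: `near_pos` at a level `n` with `h n a > 0` and
    `InvMean.exists_pos` outside the finite set `finite_bad`; `b = |w a + a|`.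
(3) for `c = √(ab)`: `H(a) H(b) ≤ H(c)²`, from `main_ineq` at level `n`, dropping the factor
    `‖W.E χ_d‖² ≤ 1` and `M_u ∫ P(ux)P(u⁻¹x) = (∫P)² = h (n+2) c ^2` (`met_erg_real`).
(4) `b_0 = b`, `b_{k+1} = √(a b_k)` (`exists_sqrt`): `b_k > 0`, `b_k ≠ a`, and
    `H(b_{k+1}) ≥ √((Hs-η) H(b_k))` so `H(b_k) ≥ Hs - 2η` for large `k`.
(5) for this `k` take `n` with `h n a ≥ Hs - 2η`, `h n b_k ≥ Hs - 3η`, `c = √(a b_k)`,
    `d = a - b_k ≠ 0`, `P = ‖(Y (n+2)).E χ_c‖²`, `Q = ‖(Y (n+2)).E χ_d‖²`: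
    `(Hs-3η)² ≤ M_u∫P(ux)P(u⁻¹x)Q(x) ≤ (∫P)²`, `∫P, ∫Q ≤ Hs`; `mid` gives
    `ε < (∫P)² - M_u∫P(ux)P(u⁻¹x)Q ≤ Hs² - (Hs-3η)² ≤ 6η`: contradiction.
-/

open MeasureTheory ProbabilityTheory Filter Topology
open scoped ENNReal ComplexConjugate

namespace Dadc30

theorem KeyErg_sq_bot {ν : Measure X} [IsProbabilityMeasure ν] (Y : Fac Γ₀ ν)
    (h : ∀ᵐ x ∂ν, Y.κ x = ν) : Y.sq = ν.prod ν := by
  unfold Fac.sq
  have h1 : ν ⊗ₘ Y.κ = ν ⊗ₘ (Kernel.const X ν) := by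
    refine Measure.compProd_congr ?_
    filter_upwards [h] with x hx
    rw [hx, Kernel.const_apply]
  rw [h1, Measure.compProd_const]

/-- the tower of factors -/
theorem exists_tower {ν : Measure X} [IsProbabilityMeasure ν] (hν : PMP Γ₀ ν)
    (hE : Erg Γ₀ ν) (h : ν Xc = 0) :
    ∃ Y : ℕ → Fac Γ₀ ν, (∀ n, IsNext (Y n) (Y (n + 1))) ∧ (∀ n, (Y n).sing) ∧
      (∀ z, (Y 0).h (chi z) = ‖ft ν z‖ ^ 2) ∧ (∀ n z, z ≠ 0 → (Y n).h (chi z) ≤ 3 / 4) ∧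
      (∀ n z, (Y n).h (chi z) ≤ (Y (n + 1)).h (chi z)) := by
  obtain ⟨Y0, hY0⟩ := exists_bot (G := Γ₀) hν
  choose nx hnx using fun Y : Fac Γ₀ ν => exists_next hν Y
  have hsq := KeyErg_sq_bot Y0 hY0
  set Y : ℕ → Fac Γ₀ ν := fun n => Nat.rec Y0 (fun _ V => nx V) n with hYdef
  have hY : ∀ n, IsNext (Y n) (Y (n + 1)) := fun n => hnx (Y n)
  have hs0 : (Y 0).sing := by
    show Y0.sq {z : X × X | z.1 / z.2 ∈ Xc} = 0
    rw [hsq, ← diffLaw_Xc]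
    exact diffLaw_prod_Xc ν hν h
  have hs : ∀ n, (Y n).sing := by
    intro n
    induction n with
    | zero => exact hs0
    | succ n ih => exact step1 hν hE (hY n) ih
  refine ⟨Y, hY, hs, ?_, ?_, ?_⟩
  · intro z
    have h1 := ft_diffLaw_sq Y0 z
    rw [hsq, ft_diffLaw_prod] at h1
    exact (Complex.ofReal_injective h1).symm
  · intro n z hz
    have hp : IsProbabilityMeasure (diffLaw (Y n).sq) := diffLaw_prob _
    have h1 := e1 (diffLaw (Y n).sq) (diffLaw_pmp ((Y n).sq_pmp hν))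
      (by rw [diffLaw_Xc]; exact hs n) z hz
    rw [ft_diffLaw_sq, Complex.ofReal_re] at h1
    exact h1
  · intro n z
    exact (Y n).h_mono (Y (n + 1)) (next_le (hY n)) (BM_chi z)

end Dadc30
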