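import Pool.Agent.Lib.MP_dadc30_co.KeyErg

/-!
# MP_dadc30_co, module KeyErg2 (proof in the docstring of `KeyErg.lean`).
-/

open MeasureTheory ProbabilityTheory Filter Topology
open scoped ENNReal ComplexConjugate

namespace Dadc30

/-- the real recursion of step 4 -/
theorem KeyErg2_rec {s : ℕ → ℝ} {t η : ℝ} (hη : 0 < η) (ht : η < t) (h0 : 0 < s 0)
    (h1 : ∀ k, s k ≤ 1) (hs : ∀ k, 0 ≤ s k) (h1t : t ≤ 1)
    (hrec : ∀ k, t * s k ≤ s (k + 1) ^ 2) : ∃ k, t - η ≤ s k := by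
  by_contra hcon
  push Not at hcon
  have hpos : ∀ k, 0 < s k := by
    intro k
    induction k with
    | zero => exact h0
    | succ k ih =>
      have h2 := hrec k
      have h3 : 0 < t * s k := mul_pos (hη.trans ht) ih
      rcases (hs (k + 1)).lt_or_eq with h4 | h4
      · exact h4
      · exfalso
        rw [← h4] at h2
        nlinarith
  have hstep : ∀ k, t / (t - η) * s k ≤ s (k + 1) := by
    intro k
    rw [div_mul_eq_mul_div, div_le_iff₀ (by linarith)]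
    nlinarith [hrec k, hcon (k + 1), hpos (k + 1)]
  have hρ : 1 < t / (t - η) := by
    rw [lt_div_iff₀ (by linarith)]; linarith
  have hpow : ∀ k, (t / (t - η)) ^ k * s 0 ≤ s k := by
    intro k
    induction k with
    | zero => simp
    | succ k ih =>
      calc (t / (t - η)) ^ (k + 1) * s 0
          = t / (t - η) * ((t / (t - η)) ^ k * s 0) := by ring
        _ ≤ t / (t - η) * s k := mul_le_mul_of_nonneg_left ih (by linarith)
        _ ≤ s (k + 1) := hstep k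
  obtain ⟨k, hk⟩ := pow_unbounded_of_one_lt (1 / s 0) hρ
  have h5 := hpow k
  have h6 : 1 < (t / (t - η)) ^ k * s 0 := by
    rwa [div_lt_iff₀ h0] at hk
  linarith [h1 k]

/-- change of variables -/
theorem KeyErg2_smul {ν : Measure X} (hν : PMP Γ₀ ν) (g : Γ₀) {F : X → ℝ} (hF : Measurable F) :
    ∫ x, F (g • x) ∂ν = ∫ x, F x ∂ν := by
  have h := integral_map (μ := ν) (φ := fun x : X => g • x) (f := F)
    (hν g).measurable.aemeasurable (by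
      exact hF.aestronglyMeasurable)
  rw [(hν g).map_eq] at h
  exact h.symm

/-- `M_u ∫ P(ux) P(u⁻¹x) = (∫ P)²` -/
theorem KeyErg2_sq {ν : Measure X} [IsProbabilityMeasure ν] (hν : PMP Γ₀ ν) (hE : Erg Γ₀ ν)
    (M : InvMean Γ₀) {P : X → ℝ} (hP : BMR P) :
    M.m (fun u => ∫ x, P (u • x) * P (u⁻¹ • x) ∂ν) = (∫ x, P x ∂ν) ^ 2 := by
  have h1 := met_erg_real hν hE (M.pull (sqHom Γ₀) (sqHom_surj divis_Γ)) hP hP
  rw [InvMean.pull_m] at h1
  rw [sq, ← h1]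
  congr 1
  funext u
  have hm : Measurable (fun x => P (u • x) * P (u⁻¹ • x)) :=
    (hP.1.comp (hν u).measurable).mul (hP.1.comp (hν u⁻¹).measurable)
  rw [← KeyErg2_smul hν u hm]
  congr 1
  funext x
  show P (u • u • x) * P (u⁻¹ • u • x) = P ((u * u) • x) * P x
  rw [smul_smul, inv_smul_smul]

/-- the functions `‖E χ‖²` take values in `[0,1]` -/
theorem KeyErg2_unit {ν : Measure X} (W : Fac Γ₀ ν) (z : K) (x : X) :
    0 ≤ ‖W.E (chi z) x‖ ^ 2 ∧ ‖W.E (chi z) x‖ ^ 2 ≤ 1 := by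
  refine ⟨sq_nonneg _, ?_⟩
  have h1 := W.E_bound (φ := chi z) (C := 1) (fun y => (chi_norm z y).le) x
  nlinarith [norm_nonneg (W.E (chi z) x)]

theorem KeyErg2_BMR {ν : Measure X} (W : Fac Γ₀ ν) (z : K) :
    BMR (fun x => ‖W.E (chi z) x‖ ^ 2) := (W.E_BM (BM_chi z)).normSq

theorem KeyErg2_le_one {ν : Measure X} [IsProbabilityMeasure ν] (W : Fac Γ₀ ν) (z : K) :
    W.h (chi z) ≤ 1 := by
  have h1 := W.h_le (BM_chi z)
  have h2 : ∫ x, ‖chi z x‖ ^ 2 ∂ν = 1 := by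
    simp [chi_norm]
  rw [h2] at h1
  exact h1

/-- step 3 -/
theorem KeyErg2_step3 {ν : Measure X} [IsProbabilityMeasure ν] (hν : PMP Γ₀ ν) (hE : Erg Γ₀ ν)
    {Y V W : Fac Γ₀ ν} (h1 : IsNext Y V) (h2 : IsNext V W) (M : InvMean Γ₀)
    (a b c : A₀) (ha : 0 < (a : ℝ)) (hb : 0 < (b : ℝ)) (hc : c * c = a * b) :
    Y.h (chi (A₀.toK a)) * Y.h (chi (A₀.toK b)) ≤ W.h (chi (A₀.toK c)) ^ 2 := by
  refine (main_ineq hν hE h1 h2 M a b c (a - b) ha hb hc rfl).trans ?_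
  have hP := KeyErg2_BMR W (A₀.toK c)
  have hPu := KeyErg2_unit W (A₀.toK c)
  have hQ := KeyErg2_BMR W (A₀.toK (a - b))
  have hQu := KeyErg2_unit W (A₀.toK (a - b))
  have h3 := KeyErg2_sq hν hE M hP
  have h4 : (∫ x, ‖W.E (chi (A₀.toK c)) x‖ ^ 2 ∂ν) = W.h (chi (A₀.toK c)) := rfl
  rw [h4] at h3
  rw [← h3]
  have hPu2 : ∀ (u : Γ₀), BMR (fun x => ‖W.E (chi (A₀.toK c)) (u • x)‖ ^ 2) :=
    fun u => hP.comp (hν u).measurable
  refine M.mono' _ _ ?_ ?_ ?_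
  · refine BMR.bdd_integral (C := 1) (fun u x => ?_) ν
    have e1 := hPu (u • x)
    have e2 := hPu (u⁻¹ • x)
    have e3 := hQu x
    rw [abs_of_nonneg (mul_nonneg (mul_nonneg e1.1 e2.1) e3.1)]
    calc _ ≤ (1 : ℝ) * 1 * 1 := mul_le_mul (mul_le_mul e1.2 e2.2 e2.1 zero_le_one) e3.2 e3.1
            (by norm_num)
      _ = 1 := by norm_num
  · refine BMR.bdd_integral (C := 1) (fun u x => ?_) ν
    have e1 := hPu (u • x)
    have e2 := hPu (u⁻¹ • x)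
    rw [abs_of_nonneg (mul_nonneg e1.1 e2.1)]
    calc _ ≤ (1 : ℝ) * 1 := mul_le_mul e1.2 e2.2 e2.1 zero_le_one
      _ = 1 := by norm_num
  · intro u
    refine integral_mono ?_ ?_ ?_
    · exact (((hPu2 u).mul (hPu2 u⁻¹)).mul hQ).integrable ν
    · exact ((hPu2 u).mul (hPu2 u⁻¹)).integrable ν
    · intro x
      have e1 := hPu (u • x)
      have e2 := hPu (u⁻¹ • x)
      have e3 := hQu x
      exact mul_le_of_le_one_right (mul_nonneg e1.1 e2.1) e3.2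

/-- step 5, the identity for the mean -/
theorem KeyErg2_step5 {ν : Measure X} [IsProbabilityMeasure ν] (hν : PMP Γ₀ ν) (hE : Erg Γ₀ ν)
    (M : InvMean Γ₀) {P Q : X → ℝ} (hP : BMR P) (hQ : BMR Q)
    (hPu : ∀ x, 0 ≤ P x ∧ P x ≤ 1) (hQu : ∀ x, 0 ≤ Q x ∧ Q x ≤ 1) :
    M.m (fun u => ∫ x, P (u • x) * P (u⁻¹ • x) * (1 - Q x) ∂ν) =
      (∫ x, P x ∂ν) ^ 2 - M.m (fun u => ∫ x, P (u • x) * P (u⁻¹ • x) * Q x ∂ν) := by
  have hPu2 : ∀ (u : Γ₀), BMR (fun x => P (u • x)) := fun u => hP.comp (hν u).measurable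
  rw [← KeyErg2_sq hν hE M hP, ← M.m_sub]
  · congr 1
    funext u
    rw [← integral_sub (((hPu2 u).mul (hPu2 u⁻¹)).integrable ν)
      ((((hPu2 u).mul (hPu2 u⁻¹)).mul hQ).integrable ν)]
    congr 1
    funext x
    ring
  · refine BMR.bdd_integral (C := 1) (fun u x => ?_) ν
    have e1 := hPu (u • x)
    have e2 := hPu (u⁻¹ • x)
    rw [abs_of_nonneg (mul_nonneg e1.1 e2.1)]
    calc _ ≤ (1 : ℝ) * 1 := mul_le_mul e1.2 e2.2 e2.1 zero_le_one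
      _ = 1 := by norm_num
  · refine BMR.bdd_integral (C := 1) (fun u x => ?_) ν
    have e1 := hPu (u • x)
    have e2 := hPu (u⁻¹ • x)
    have e3 := hQu x
    rw [abs_of_nonneg (mul_nonneg (mul_nonneg e1.1 e2.1) e3.1)]
    calc _ ≤ (1 : ℝ) * 1 * 1 := mul_le_mul (mul_le_mul e1.2 e2.2 e2.1 zero_le_one) e3.2 e3.1
            (by norm_num)
      _ = 1 := by norm_num

/-- positive real algebraic square roots -/
theorem KeyErg2_sqrt (t : A₀) (ht : 0 < (t : ℝ)) : ∃ s : A₀, 0 < (s : ℝ) ∧ s * s = t := by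
  obtain ⟨s, hs, hst⟩ := exists_sqrt t ht.le
  refine ⟨s, lt_of_le_of_ne hs fun h0 => ?_, hst⟩
  have h1 : ((s * s : A₀) : ℝ) = (t : ℝ) := by rw [hst]
  have h2 : ((s * s : A₀) : ℝ) = (s : ℝ) * (s : ℝ) := rfl
  rw [h2, ← h0, mul_zero] at h1
  linarith

theorem KeyErg2_toK_ne {t : A₀} (ht : (t : ℝ) ≠ 0) : A₀.toK t ≠ 0 := by
  intro h0
  have h1 := A_norm t
  rw [h0] at h1
  have h2 : ‖(((0 : K)) : ℂ)‖ = 0 := by simp
  rw [h2] at h1
  exact ht (abs_eq_zero.mp h1.symm)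

theorem key_erg (ν : Measure X) [IsProbabilityMeasure ν] (hν : PMP Γ₀ ν)
    (hE : Erg Γ₀ ν) (h : ν Xc = 0) (z : K) (hz : z ≠ 0) : ft ν z = 0 := by
  by_contra hft
  obtain ⟨Y, hnext, _, hY0, hY34, hmono1⟩ := exists_tower hν hE h
  obtain ⟨M⟩ := exists_mean Γ₀
  have hmono : ∀ n m z, n ≤ m → (Y n).h (chi z) ≤ (Y m).h (chi z) := by
    intro n m z hnm
    induction m, hnm using Nat.le_induction with
    | base => exact le_rfl
    | succ m _ ih => exact ih.trans (hmono1 m z)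
  -- the supremum
  let T : Set ℝ := {r | ∃ n z, z ≠ 0 ∧ r = (Y n).h (chi z)}
  have hTbdd : BddAbove T := ⟨3 / 4, by
    rintro r ⟨n, z, hz, rfl⟩
    exact hY34 n z hz⟩
  have hTne : T.Nonempty := ⟨_, 0, z, hz, rfl⟩
  obtain ⟨Hs, hHs⟩ : ∃ Hs, Hs = sSup T := ⟨_, rfl⟩
  have hle : ∀ n z, z ≠ 0 → (Y n).h (chi z) ≤ Hs := by
    intro n z hz
    rw [hHs]
    exact le_csSup hTbdd ⟨n, z, hz, rfl⟩
  have hHs34 : Hs ≤ 3 / 4 := by
    rw [hHs]
    refine csSup_le hTne ?_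
    rintro r ⟨n, z, hz, rfl⟩
    exact hY34 n z hz
  have hHs0 : 0 < Hs := by
    refine lt_of_lt_of_le ?_ (hle 0 z hz)
    rw [hY0]
    have := norm_pos_iff.mpr hft
    positivity
  -- the constants
  obtain ⟨p₀, hp₀⟩ : ∃ p₀ : ℝ, p₀ = min (Hs / 4) (1 / 4) := ⟨_, rfl⟩
  have hp₀pos : 0 < p₀ := by rw [hp₀]; exact lt_min (by linarith) (by norm_num)
  have hp₀1 : p₀ ≤ Hs / 4 := by rw [hp₀]; exact min_le_left _ _
  have hp₀2 : p₀ ≤ 1 / 4 := by rw [hp₀]; exact min_le_right _ _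
  obtain ⟨ε, hε, hmid⟩ := mid Γ₀ divis_Γ p₀ hp₀pos
  obtain ⟨η, hη⟩ : ∃ η : ℝ, η = min (ε / 10) (Hs / 20) := ⟨_, rfl⟩
  have hηpos : 0 < η := by rw [hη]; exact lt_min (by linarith) (by linarith)
  have hη1 : η ≤ ε / 10 := by rw [hη]; exact min_le_left _ _
  have hη2 : η ≤ Hs / 20 := by rw [hη]; exact min_le_right _ _
  -- (1)
  obtain ⟨n₀, a, ha, hna⟩ : ∃ (n₀ : ℕ) (a : A₀), 0 < (a : ℝ) ∧
      Hs - η < (Y n₀).h (chi (A₀.toK a)) := by
    obtain ⟨r, ⟨n, z', hz', rfl⟩, hr⟩ := exists_lt_of_lt_csSup hTne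
      (show Hs - η < sSup T by rw [← hHs]; linarith)
    obtain ⟨a, ha⟩ := exists_A_norm z'
    have hapos : 0 < (a : ℝ) := by
      rw [ha]
      have : (z' : ℂ) ≠ 0 := fun h0 => hz' (Subtype.ext h0)
      exact norm_pos_iff.mpr this
    refine ⟨n, a, hapos, ?_⟩
    rw [← h_radial hν (Y n) (z := z')]
    · exact hr
    · rw [A_norm, abs_of_pos hapos, ha]
  have haK : A₀.toK a ≠ 0 := KeyErg2_toK_ne ha.ne'
  have hna' : ∀ n, n₀ ≤ n → Hs - η < (Y n).h (chi (A₀.toK a)) := fun n hn =>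
    hna.trans_le (hmono n₀ n _ hn)
  -- (2)
  obtain ⟨b, hb, hba, hnb⟩ : ∃ b : A₀, 0 < (b : ℝ) ∧ b ≠ a ∧
      0 < (Y n₀).h (chi (A₀.toK b)) := by
    have h1 := near_pos hν hE (Y n₀) M (A₀.toK a)
    have h2 : 0 < M.m (fun w => (Y n₀).h (chi (toK w * A₀.toK a + A₀.toK a))) := by
      refine lt_of_lt_of_le ?_ h1
      have : 0 < (Y n₀).h (chi (A₀.toK a)) := by linarith
      positivity
    have hbd : Bdd (fun w : Γ₀ => (Y n₀).h (chi (toK w * A₀.toK a + A₀.toK a))) :=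
      ⟨1, fun w => by
        rw [abs_of_nonneg ((Y n₀).h_nonneg _)]
        exact KeyErg2_le_one _ _⟩
    obtain ⟨w, hw, hwpos⟩ := M.exists_pos hbd h2 finite_bad.toFinset
    rw [Set.Finite.mem_toFinset, Set.mem_ofPred_eq, not_or] at hw
    obtain ⟨hw0, hw1⟩ := hw
    have hfac : ‖((toK w * A₀.toK a + A₀.toK a : K) : ℂ)‖ =
        ‖((toK w + 1 : K) : ℂ)‖ * (a : ℝ) := by
      have e1 : toK w * A₀.toK a + A₀.toK a = (toK w + 1) * A₀.toK a := by ring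
      have e2 : (((toK w + 1) * A₀.toK a : K) : ℂ) =
          ((toK w + 1 : K) : ℂ) * ((A₀.toK a : K) : ℂ) := rfl
      rw [e1, e2, norm_mul, A_norm, abs_of_pos ha]
    obtain ⟨b, hb⟩ := exists_A_norm (toK w * A₀.toK a + A₀.toK a)
    rw [hfac] at hb
    have hbpos : 0 < (b : ℝ) := by
      rw [hb]
      exact mul_pos (lt_of_le_of_ne (norm_nonneg _) (Ne.symm hw0)) ha
    refine ⟨b, hbpos, fun hba => hw1 ?_, ?_⟩
    · rw [hba] at hb
      have : ‖((toK w + 1 : K) : ℂ)‖ * (a : ℝ) = 1 * a := by rw [one_mul]; exact hb.symm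
      exact mul_right_cancel₀ ha.ne' this
    · rw [← h_radial hν (Y n₀) (z := toK w * A₀.toK a + A₀.toK a)]
      · exact hwpos
      · rw [hfac, A_norm, abs_of_pos hbpos, hb]
  -- (4) the sequence
  have hsq : ∀ t : {t : A₀ // 0 < (t : ℝ)}, ∃ s : {t : A₀ // 0 < (t : ℝ)},
      s.1 * s.1 = a * t.1 := by
    intro t
    obtain ⟨s, hs, hst⟩ := KeyErg2_sqrt (a * t.1) (mul_pos ha t.2)
    exact ⟨⟨s, hs⟩, hst⟩
  choose F hF using hsq
  let B : ℕ → {t : A₀ // 0 < (t : ℝ)} := fun k => F^[k] ⟨b, hb⟩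
  have hB0 : B 0 = ⟨b, hb⟩ := rfl
  have hBs : ∀ k, B (k + 1) = F (B k) := fun k => Function.iterate_succ_apply' F k _
  have hBne : ∀ k, (B k).1 ≠ a := by
    intro k
    induction k with
    | zero => exact hba
    | succ k ih =>
      intro h1
      have h2 := hF (B k)
      rw [← hBs, h1] at h2
      apply ih
      have ha0 : a ≠ 0 := fun h0 => ha.ne' (by rw [h0]; rfl)
      exact (mul_left_cancel₀ ha0 h2).symm
  have hrec : ∀ k, (Hs - η) * (Y (n₀ + 2 * k)).h (chi (A₀.toK (B k).1)) ≤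
      (Y (n₀ + 2 * (k + 1))).h (chi (A₀.toK (B (k + 1)).1)) ^ 2 := by
    intro k
    have h1 := KeyErg2_step3 hν hE (hnext (n₀ + 2 * k)) (hnext (n₀ + 2 * k + 1)) M a (B k).1
      (B (k + 1)).1 ha (B k).2 (by rw [hBs]; exact hF (B k))
    have h2 : n₀ + 2 * (k + 1) = n₀ + 2 * k + 1 + 1 := by ring
    rw [h2]
    refine le_trans ?_ h1
    exact mul_le_mul_of_nonneg_right (hna' _ (Nat.le_add_right _ _)).le
      ((Y _).h_nonneg _)
  obtain ⟨k, hk⟩ := KeyErg2_rec (s := fun k => (Y (n₀ + 2 * k)).h (chi (A₀.toK (B k).1)))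
    (t := Hs - η) (η := η) hηpos (by linarith) (by
      show 0 < (Y (n₀ + 2 * 0)).h (chi (A₀.toK (B 0).1))
      rw [hB0]; exact hnb)
    (fun k => KeyErg2_le_one _ _) (fun k => (Y _).h_nonneg _) (by linarith) hrec
  -- (5)
  have hk' : Hs - η - η ≤ (Y (n₀ + 2 * k)).h (chi (A₀.toK (B k).1)) := hk
  obtain ⟨n, hn⟩ : ∃ n, n = n₀ + 2 * k := ⟨_, rfl⟩
  rw [← hn] at hk'
  obtain ⟨b', hb'⟩ : ∃ b', b' = (B k).1 := ⟨_, rfl⟩
  have hb'pos : 0 < (b' : ℝ) := by rw [hb']; exact (B k).2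
  have hb'ne : b' ≠ a := by rw [hb']; exact hBne k
  rw [← hb'] at hk'
  have hna2 := hna' n (by omega)
  obtain ⟨c, hc, hcc⟩ := KeyErg2_sqrt (a * b') (mul_pos ha hb'pos)
  obtain ⟨W, hW⟩ : ∃ W, W = Y (n + 1 + 1) := ⟨_, rfl⟩
  have hmain := main_ineq hν hE (hnext n) (hnext (n + 1)) M a b' c (a - b') ha hb'pos hcc rfl
  rw [← hW] at hmain
  have hstep := KeyErg2_step3 hν hE (hnext n) (hnext (n + 1)) M a b' c ha hb'pos hcc
  rw [← hW] at hstep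
  have hWc : W.h (chi (A₀.toK c)) ≤ Hs := by
    rw [hW]; exact hle _ _ (KeyErg2_toK_ne hc.ne')
  have hdne : ((a - b' : A₀) : ℝ) ≠ 0 := by
    intro h0
    apply hb'ne
    have h1 : ((a - b' : A₀) : ℝ) = (a : ℝ) - (b' : ℝ) := rfl
    rw [h1] at h0
    apply Subtype.ext
    linarith
  have hWd : W.h (chi (A₀.toK (a - b'))) ≤ Hs := by
    rw [hW]; exact hle _ _ (KeyErg2_toK_ne hdne)
  have hWc34 : W.h (chi (A₀.toK c)) ≤ 3 / 4 := hWc.trans hHs34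
  have hWc0 : 0 ≤ W.h (chi (A₀.toK c)) := W.h_nonneg _
  have hprod : (Hs - η) * (Hs - 2 * η) ≤
      (Y n).h (chi (A₀.toK a)) * (Y n).h (chi (A₀.toK b')) :=
    mul_le_mul hna2.le (by linarith) (by linarith) ((Y n).h_nonneg _)
  have hWcl : Hs - 2 * η ≤ W.h (chi (A₀.toK c)) := by
    by_contra hlt
    push Not at hlt
    have h1 : W.h (chi (A₀.toK c)) ^ 2 < (Hs - 2 * η) ^ 2 :=
      pow_lt_pow_left₀ hlt hWc0 two_ne_zero
    nlinarith
  have hfin := hmid X ν hν hE M (fun x => ‖W.E (chi (A₀.toK c)) x‖ ^ 2)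
    (fun x => ‖W.E (chi (A₀.toK (a - b'))) x‖ ^ 2) (KeyErg2_BMR W _).1 (KeyErg2_BMR W _).1
    (KeyErg2_unit W _) (KeyErg2_unit W _)
    (show p₀ ≤ W.h (chi (A₀.toK c)) by linarith)
    (show W.h (chi (A₀.toK c)) ≤ 1 - p₀ by linarith)
    (show W.h (chi (A₀.toK (a - b'))) ≤ W.h (chi (A₀.toK c)) + ε by linarith)
  rw [KeyErg2_step5 hν hE M (KeyErg2_BMR W _) (KeyErg2_BMR W _) (KeyErg2_unit W _)
    (KeyErg2_unit W _)] at hfin
  have h4 : (∫ x, ‖W.E (chi (A₀.toK c)) x‖ ^ 2 ∂ν) = W.h (chi (A₀.toK c)) := rfl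
  rw [h4] at hfin
  have h5 : W.h (chi (A₀.toK c)) ^ 2 ≤ Hs ^ 2 := pow_le_pow_left₀ hWc0 hWc 2
  have h6 : ε < Hs ^ 2 - (Hs - η) * (Hs - 2 * η) := by
    have := hprod.trans hmain
    linarith
  nlinarith

end Dadc30
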