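import Pool.Agent.Lib.MP_dadc30_co.LawDefs
import Pool.Agent.Lib.MP_dadc30_co.Chars

/-!
# MP_dadc30_co, module Law1: ultralimits of laws on `K → Bool`.

`K → Bool` is compact metrizable (countable product), so `ProbabilityMeasure (K → Bool)` is
compact (`MeasureTheory.Measure.Prokhorov`: instance `CompactSpace (ProbabilityMeasure E)`).
Take the limit along `hyperfilter ℕ`; the set `{ω | ω a ∧ ω b}` is clopen, so its measure
converges (integrate the continuous indicator function, or the portmanteau theorem for sets with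
null frontier). -/

open MeasureTheory ProbabilityTheory Filter Topology
open scoped ENNReal ComplexConjugate

namespace Dadc30

theorem Law1_clopen (a b : K) : IsClopen {ω : K → Bool | ω a = true ∧ ω b = true} := by
  have h1 : ∀ a : K, IsClopen {ω : K → Bool | ω a = true} := fun a =>
    (isClopen_discrete {true}).preimage (continuous_apply a)
  exact (h1 a).inter (h1 b)

theorem exists_ultralimit (μ : ℕ → Measure (K → Bool)) (h : ∀ n, IsProbabilityMeasure (μ n)) :
    ∃ P : Measure (K → Bool), IsProbabilityMeasure P ∧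
      ∀ a b : K, Tendsto (fun n => pp (μ n) a b) (hyperfilter ℕ : Filter ℕ) (𝓝 (pp P a b)) := by
  let ν : ℕ → ProbabilityMeasure (K → Bool) := fun n => ⟨μ n, h n⟩
  obtain ⟨P, -, hP⟩ := isCompact_univ.ultrafilter_le_nhds ((hyperfilter ℕ).map ν) (by simp)
  have hlim : Tendsto ν (hyperfilter ℕ : Filter ℕ) (𝓝 P) := hP
  refine ⟨P, inferInstance, fun a b => ?_⟩
  have h1 := ProbabilityMeasure.tendsto_measure_of_isClopen_of_tendsto hlim (Law1_clopen a b)
  exact (NNReal.tendsto_coe.mpr h1)

/-- every finitely supported law has a finite average form: for weights `c ≥ 0`, `∑ c = 1` and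
maps `T g : (K → Bool) → (K → Bool)`-images of a law `P`, the mixture `∑ c_g (T g)_* P`. -/
theorem exists_mixture {G : Type} (c : G →₀ ℝ) (hc : ∀ g, 0 ≤ c g)
    (h1 : (c.sum fun _ r => r) = 1) (Q : G → Measure (K → Bool))
    (hQ : ∀ g, IsProbabilityMeasure (Q g)) :
    ∃ P : Measure (K → Bool), IsProbabilityMeasure P ∧
      ∀ a b, pp P a b = avg c (fun g => pp (Q g) a b) := by
  refine ⟨∑ g ∈ c.support, ENNReal.ofReal (c g) • Q g, ⟨?_⟩, fun a b => ?_⟩
  · rw [Measure.finsetSum_apply]
    simp only [Measure.smul_apply, measure_univ, smul_eq_mul, mul_one]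
    rw [← ENNReal.ofReal_sum_of_nonneg (fun g _ => hc g)]
    have : ∑ g ∈ c.support, c g = 1 := h1
    rw [this, ENNReal.ofReal_one]
  · unfold pp avg
    rw [Measure.finsetSum_apply]
    simp only [Measure.smul_apply, smul_eq_mul]
    rw [ENNReal.toReal_sum (fun g _ => ENNReal.mul_ne_top ENNReal.ofReal_ne_top
      (measure_ne_top _ _))]
    simp only [ENNReal.toReal_mul]
    refine Finset.sum_congr rfl fun g _ => ?_
    rw [ENNReal.toReal_ofReal (hc g)]

end Dadc30
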