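import Pool.Agent.Lib.MP_dadc30_co.Defs

/-!
# MP_dadc30_co, module RatioW: the weighted form of the independence ratio.

Boxes: `B N = {∑_{x ∈ P} n_x x : n_x ∈ ℤ, |n_x| ≤ N}` (finite subset of `ℂ`, `|B N| ≤ (2N+1)^{|P|}`,
`B N - P ⊆ B (N+1)`).  Let `μ* = max {w(S) : S ⊆ P, Avoids S}` (finite maximum, `S = ∅` allowed).
Take `T ⊆ B N` with `Avoids T`, `c |B N| ≤ |T|`.  For `g ∈ ℂ` the set
`S_g = {x ∈ P : g + x ∈ T}` avoids distance 1, so `w(S_g) ≤ μ*`, and `S_g = ∅` unless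
`g ∈ B (N+1)`.  Hence `c w(P) |B N| ≤ w(P)|T| = ∑_g w(S_g) ≤ μ* |B (N+1)|`.  Since `|B N|` grows
polynomially, for every `ε > 0` there is `N` with `|B (N+1)| ≤ (1+ε)|B N|`
(otherwise `|B N| ≥ (1+ε)^N`).  So `c w(P) ≤ (1+ε) μ*` for every `ε`.
-/

open MeasureTheory ProbabilityTheory Filter Topology
open scoped ENNReal ComplexConjugate

namespace Dadc30

/-- the boxes -/
noncomputable def RatioW_B (P : Finset ℂ) (N : ℕ) : Finset ℂ :=
  (Fintype.piFinset fun _ : P => Finset.Icc (-(N : ℤ)) N).image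
    fun n : P → ℤ => ∑ x : P, (n x : ℂ) * (x : ℂ)

theorem RatioW_mem_B {P : Finset ℂ} {N : ℕ} {z : ℂ} :
    z ∈ RatioW_B P N ↔ ∃ n : P → ℤ, (∀ x, -(N : ℤ) ≤ n x ∧ n x ≤ N) ∧
      ∑ x : P, (n x : ℂ) * (x : ℂ) = z := by
  unfold RatioW_B
  simp only [Finset.mem_image, Fintype.mem_piFinset, Finset.mem_Icc]

theorem RatioW_card_le (P : Finset ℂ) (N : ℕ) :
    (RatioW_B P N).card ≤ (2 * N + 1) ^ P.card := by
  unfold RatioW_B
  refine Finset.card_image_le.trans ?_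
  rw [Fintype.card_piFinset]
  simp only [Int.card_Icc, Finset.prod_const, Finset.card_univ, Fintype.card_coe]
  refine le_of_eq ?_
  congr 1
  omega

theorem RatioW_card_pos (P : Finset ℂ) (N : ℕ) : 0 < (RatioW_B P N).card := by
  rw [Finset.card_pos]
  exact ⟨_, RatioW_mem_B.mpr ⟨fun _ => 0, fun x => by constructor <;> simp, rfl⟩⟩

theorem RatioW_sub_mem {P : Finset ℂ} {N : ℕ} {z x : ℂ} (hz : z ∈ RatioW_B P N) (hx : x ∈ P) :
    z - x ∈ RatioW_B P (N + 1) := by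
  classical
  rw [RatioW_mem_B] at hz ⊢
  obtain ⟨n, hn, rfl⟩ := hz
  refine ⟨fun y => n y - if y = ⟨x, hx⟩ then 1 else 0, fun y => ?_, ?_⟩
  · have := hn y
    push_cast
    split_ifs <;> constructor <;> omega
  · have h1 : ∀ y : P, (((n y - if y = ⟨x, hx⟩ then 1 else 0 : ℤ) : ℂ)) * (y : ℂ) =
        (n y : ℂ) * (y : ℂ) - if y = ⟨x, hx⟩ then (y : ℂ) else 0 := by
      intro y
      split_ifs with h
      · push_cast; ring
      · push_cast; ring
    simp_rw [h1]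
    rw [Finset.sum_sub_distrib, Finset.sum_ite_eq' Finset.univ]
    simp

/-- polynomial growth -/
theorem RatioW_growth (P : Finset ℂ) {ε : ℝ} (hε : 0 < ε) :
    ∃ N : ℕ, ((RatioW_B P (N + 1)).card : ℝ) ≤ (1 + ε) * (RatioW_B P N).card := by
  by_contra hcon
  push Not at hcon
  have h1 : ∀ N : ℕ, (1 + ε) ^ N ≤ ((RatioW_B P N).card : ℝ) := by
    intro N
    induction N with
    | zero =>
      rw [pow_zero]
      exact_mod_cast RatioW_card_pos P 0
    | succ N ih =>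
      rw [pow_succ']
      exact (mul_le_mul_of_nonneg_left ih (by linarith)).trans (hcon N).le
  have h2 := tendsto_pow_const_div_const_pow_of_one_lt P.card (r := 1 + ε) (by linarith)
  have h3 : (0 : ℝ) < (1 / 3) ^ P.card := by positivity
  obtain ⟨N, hN1, hN2⟩ := ((h2.eventually_lt_const h3).and (eventually_ge_atTop 1)).exists
  have h4 : (0 : ℝ) < (1 + ε) ^ N := by positivity
  rw [div_lt_iff₀ h4] at hN1
  have h5 : ((RatioW_B P N).card : ℝ) ≤ (2 * (N : ℝ) + 1) ^ P.card := by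
    exact_mod_cast RatioW_card_le P N
  have h6 : (2 * (N : ℝ) + 1) ^ P.card ≤ (3 * (N : ℝ)) ^ P.card := by
    have : (1 : ℝ) ≤ N := by exact_mod_cast hN2
    exact pow_le_pow_left₀ (by positivity) (by linarith) _
  have h7 : (1 + ε) ^ N ≤ (3 * (N : ℝ)) ^ P.card := (h1 N).trans (h5.trans h6)
  have h8 : (1 / 3 : ℝ) ^ P.card * (1 + ε) ^ N ≤ (N : ℝ) ^ P.card := by
    calc (1 / 3 : ℝ) ^ P.card * (1 + ε) ^ N ≤ (1 / 3 : ℝ) ^ P.card * (3 * (N : ℝ)) ^ P.card :=
          mul_le_mul_of_nonneg_left h7 h3.le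
      _ = (N : ℝ) ^ P.card := by
          rw [← mul_pow]
          congr 1
          ring
  linarith

theorem RatioW_count (P T : Finset ℂ) (N : ℕ) (hT : T ⊆ RatioW_B P N) (w : ℂ → ℝ) :
    ∑ g ∈ RatioW_B P (N + 1), ∑ x ∈ P.filter (fun x => g + x ∈ T), w x =
      T.card * ∑ x ∈ P, w x := by
  simp_rw [Finset.sum_filter]
  rw [Finset.sum_comm, Finset.mul_sum]
  refine Finset.sum_congr rfl fun x hx => ?_
  rw [← Finset.sum_filter, Finset.sum_const, nsmul_eq_mul]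
  congr 2
  refine Finset.card_nbij' (fun g => g + x) (fun t => t - x) ?_ ?_ ?_ ?_
  · intro g hg
    exact (Finset.mem_filter.mp hg).2
  · intro t ht
    refine Finset.mem_coe.mpr (Finset.mem_filter.mpr ⟨RatioW_sub_mem (hT ht) hx, ?_⟩)
    rw [sub_add_cancel]
    exact ht
  · intro g _
    exact add_sub_cancel_right g x
  · intro t _
    exact sub_add_cancel t x

theorem ratio_weighted {c : ℝ} (hc : 0 ≤ c) (h : HasRatio c) (P : Finset ℂ) (w : ℂ → ℝ)
    (hw : ∀ z, 0 ≤ w z) :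
    ∃ S ⊆ P, Avoids (S : Set ℂ) ∧ c * ∑ z ∈ P, w z ≤ ∑ z ∈ S, w z := by
  classical
  -- the maximum
  have hne : (Finset.filter (fun S : Finset ℂ => Avoids (S : Set ℂ)) P.powerset).Nonempty := by
    refine ⟨∅, Finset.mem_filter.mpr ⟨Finset.empty_mem_powerset P, ?_⟩⟩
    intro x hx
    exact absurd hx (by simp)
  obtain ⟨S, hS, hmax⟩ := Finset.exists_max_image _ (fun S => ∑ z ∈ S, w z) hne
  rw [Finset.mem_filter, Finset.mem_powerset] at hS
  refine ⟨S, hS.1, hS.2, ?_⟩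
  have hμ0 : 0 ≤ ∑ z ∈ S, w z := Finset.sum_nonneg fun z _ => hw z
  have hP0 : 0 ≤ ∑ z ∈ P, w z := Finset.sum_nonneg fun z _ => hw z
  have key : ∀ ε : ℝ, 0 < ε → c * ∑ z ∈ P, w z ≤ (1 + ε) * ∑ z ∈ S, w z := by
    intro ε hε
    obtain ⟨N, hN⟩ := RatioW_growth P hε
    obtain ⟨T, hT, hTa, hTc⟩ := h (RatioW_B P N)
    have h1 := RatioW_count P T N hT w
    have h2 : ∑ g ∈ RatioW_B P (N + 1), ∑ x ∈ P.filter (fun x => g + x ∈ T), w x ≤
        (RatioW_B P (N + 1)).card * ∑ z ∈ S, w z := by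
      have h3 : ∀ g ∈ RatioW_B P (N + 1), ∑ x ∈ P.filter (fun x => g + x ∈ T), w x ≤
          ∑ z ∈ S, w z := by
        intro g _
        refine hmax _ (Finset.mem_filter.mpr
          ⟨Finset.mem_powerset.mpr (Finset.filter_subset _ _), ?_⟩)
        intro x hx y hy
        have hx' := (Finset.mem_filter.mp (Finset.mem_coe.mp hx)).2
        have hy' := (Finset.mem_filter.mp (Finset.mem_coe.mp hy)).2
        have h4 := hTa (g + x) hx' (g + y) hy'
        rwa [dist_add_left] at h4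
      refine (Finset.sum_le_sum h3).trans (le_of_eq ?_)
      rw [Finset.sum_const, nsmul_eq_mul]
    rw [h1] at h2
    have hpos : (0 : ℝ) < (RatioW_B P N).card := by exact_mod_cast RatioW_card_pos P N
    have h5 : c * (RatioW_B P N).card * ∑ z ∈ P, w z ≤
        (1 + ε) * (RatioW_B P N).card * ∑ z ∈ S, w z :=
      (mul_le_mul_of_nonneg_right hTc hP0).trans
        (h2.trans (mul_le_mul_of_nonneg_right hN hμ0))
    have h6 : (RatioW_B P N).card * (c * ∑ z ∈ P, w z) ≤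
        (RatioW_B P N).card * ((1 + ε) * ∑ z ∈ S, w z) := by linarith
    exact le_of_mul_le_mul_left h6 hpos
  by_contra hcon
  push Not at hcon
  have h7 : 0 < c * ∑ z ∈ P, w z - ∑ z ∈ S, w z := by linarith
  have h8 := key ((c * ∑ z ∈ P, w z - ∑ z ∈ S, w z) / (2 * (∑ z ∈ S, w z + 1))) (by positivity)
  have h9 : (c * ∑ z ∈ P, w z - ∑ z ∈ S, w z) / (2 * (∑ z ∈ S, w z + 1)) * ∑ z ∈ S, w z ≤
      (c * ∑ z ∈ P, w z - ∑ z ∈ S, w z) / 2 := by
    rw [div_mul_eq_mul_div, div_le_div_iff₀ (by positivity) (by norm_num)]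
    nlinarith
  linarith

end Dadc30
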