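import Pool.Agent.Lib.MP_dadc30_co.Law1
import Pool.Agent.Lib.MP_dadc30_co.RatioW
import Pool.Agent.Lib.MP_dadc30_co.Folner

/-!
# MP_dadc30_co, module Law2: a `K`-stationary random set avoiding distance one of density ≥ c.

`F : FolnerSeq K`.  For each `n`, `ratio_weighted` for the image in `ℂ` of the support of
`F.c n` with weights `F.c n` gives `S_n ⊆ supp`, `Avoids`, `∑_{v ∈ S_n} c n v ≥ c`.  Let
`μ_n = ∑_v c n v · δ(z ↦ decide (z + v ∈ S_n))` (`exists_mixture`), so
`pp μ_n a b = avg (c n) (v ↦ 1[a+v ∈ S_n ∧ b+v ∈ S_n])`; take `exists_ultralimit`. -/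

open MeasureTheory ProbabilityTheory Filter Topology
open scoped ENNReal ComplexConjugate

namespace Dadc30

open scoped Classical in
theorem Law2_pp_dirac (ω : K → Bool) (a b : K) :
    pp (Measure.dirac ω) a b = if ω a = true ∧ ω b = true then 1 else 0 := by
  have hm : MeasurableSet {ω : K → Bool | ω a = true ∧ ω b = true} := by
    have h1 : ∀ c : K, MeasurableSet {ω : K → Bool | ω c = true} := fun c =>
      measurableSet_eq_fun (measurable_pi_apply c) measurable_const
    exact (h1 a).inter (h1 b)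
  unfold pp
  rw [Measure.dirac_apply' _ hm]
  by_cases h : ω a = true ∧ ω b = true
  · rw [if_pos h, Set.indicator_of_mem (show ω ∈ {ω : K → Bool | ω a = true ∧ ω b = true} from h)]
    simp
  · rw [if_neg h, Set.indicator_of_notMem
      (show ω ∉ {ω : K → Bool | ω a = true ∧ ω b = true} from h)]
    simp

open scoped Classical in
/-- one step: a law attached to a finite weighted set -/
theorem Law2_step {c : ℝ} (hc : 0 ≤ c) (h : HasRatio c) (w : K →₀ ℝ) (hw : ∀ g, 0 ≤ w g)
    (h1 : (w.sum fun _ r => r) = 1) :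
    ∃ (S : Finset ℂ) (μ : Measure (K → Bool)), IsProbabilityMeasure μ ∧ Avoids (S : Set ℂ) ∧
      (∀ a b : K, pp μ a b = avg w (fun v : K =>
        if ((a + v : K) : ℂ) ∈ S ∧ ((b + v : K) : ℂ) ∈ S then 1 else 0)) ∧ c ≤ pp μ 0 0 := by
  obtain ⟨W, hW⟩ : ∃ W : ℂ → ℝ, ∀ v : K, W (v : ℂ) = w v ∧ ∀ z, 0 ≤ W z := by
    refine ⟨fun z => if hz : z ∈ Falg then w ⟨z, hz⟩ else 0, fun v => ⟨?_, fun z => ?_⟩⟩
    · beta_reduce
      rw [dif_pos v.2]
    · dsimp only
      split_ifs with hz
      · exact hw _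
      · exact le_rfl
  obtain ⟨P, hP⟩ : ∃ P : Finset ℂ, P = w.support.image (fun v : K => (v : ℂ)) := ⟨_, rfl⟩
  obtain ⟨S, hSP, hS, hle⟩ := ratio_weighted hc h P W (hW 0).2
  obtain ⟨μ, hμ, hpp⟩ := exists_mixture w hw h1
    (fun v => Measure.dirac (fun z : K => decide (((z + v : K) : ℂ) ∈ S))) (fun v => inferInstance)
  have hinj : ∀ x ∈ w.support, ∀ y ∈ w.support, ((x : K) : ℂ) = (y : ℂ) → x = y :=
    fun x _ y _ hxy => Subtype.ext hxy
  have hform : ∀ a b : K, pp μ a b = avg w (fun v : K =>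
        if ((a + v : K) : ℂ) ∈ S ∧ ((b + v : K) : ℂ) ∈ S then 1 else 0) := by
    intro a b
    rw [hpp a b]
    congr 1
    funext v
    rw [Law2_pp_dirac]
    simp only [decide_eq_true_eq]
  refine ⟨S, μ, hμ, hS, hform, ?_⟩
  rw [hform 0 0]
  have e1 : ∑ z ∈ P, W z = 1 := by
    rw [hP, Finset.sum_image hinj, ← h1]
    exact Finset.sum_congr rfl fun v _ => (hW v).1
  have e2 : ∑ z ∈ S, W z = ∑ z ∈ P, if z ∈ S then W z else 0 := by
    rw [← Finset.sum_filter]
    refine Finset.sum_congr ?_ fun _ _ => rfl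
    ext z
    rw [Finset.mem_filter]
    exact ⟨fun hz => ⟨hSP hz, hz⟩, fun hz => hz.2⟩
  rw [e1, mul_one] at hle
  refine hle.trans (le_of_eq ?_)
  rw [e2, hP, Finset.sum_image hinj]
  unfold avg Finsupp.sum
  refine Finset.sum_congr rfl fun v _ => ?_
  rw [(hW v).1]
  simp only [zero_add, and_self]
  split_ifs <;> simp

theorem exists_stat_law {c : ℝ} (hc : 0 ≤ c) (h : HasRatio c) :
    ∃ P : Measure (K → Bool), IsProbabilityMeasure P ∧
      (∀ a b z : K, pp P (a + z) (b + z) = pp P a b) ∧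
      (∀ a b : K, ‖((a - b : K) : ℂ)‖ = 1 → pp P a b = 0) ∧ c ≤ pp P 0 0 := by
  classical
  obtain ⟨F⟩ := exists_folner K
  choose S μ hμ hS hform hdens using fun n => Law2_step hc h (F.c n) (F.nonneg n) (F.one n)
  obtain ⟨P, hP, hlim⟩ := exists_ultralimit μ hμ
  refine ⟨P, hP, ?_, ?_, ?_⟩
  · intro a b z
    have h1 : Tendsto (fun n => pp (μ n) (a + z) (b + z) - pp (μ n) a b)
        (hyperfilter ℕ : Filter ℕ) (𝓝 (pp P (a + z) (b + z) - pp P a b)) :=
      (hlim _ _).sub (hlim _ _)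
    have h2 : Tendsto (fun n => pp (μ n) (a + z) (b + z) - pp (μ n) a b)
        (hyperfilter ℕ : Filter ℕ) (𝓝 0) := by
      refine squeeze_zero_norm (fun n => ?_) ((F.e_tendsto z).mono_left Nat.hyperfilter_le_atTop)
      rw [Real.norm_eq_abs, hform, hform]
      have h3 := F.inv n z (fun v : K =>
        if ((a + v : K) : ℂ) ∈ S n ∧ ((b + v : K) : ℂ) ∈ S n then 1 else 0) (fun g => by
          split_ifs <;> simp)
      have h4 : (fun v : K => if ((a + z + v : K) : ℂ) ∈ S n ∧ ((b + z + v : K) : ℂ) ∈ S n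
          then (1 : ℝ) else 0) = fun g : K => if ((a + (g + z) : K) : ℂ) ∈ S n ∧
            ((b + (g + z) : K) : ℂ) ∈ S n then 1 else 0 := by
        funext v
        rw [add_assoc a z v, add_assoc b z v, add_comm z v]
      rw [h4]
      exact h3
    have h5 := tendsto_nhds_unique h1 h2
    linarith
  · intro a b hab
    have h1 : ∀ n, pp (μ n) a b = 0 := by
      intro n
      rw [hform]
      unfold avg Finsupp.sum
      refine Finset.sum_eq_zero fun v _ => ?_
      beta_reduce
      rw [if_neg, mul_zero]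
      rintro ⟨ha, hb⟩
      refine hS n _ ha _ hb ?_
      rw [Complex.dist_eq, ← hab]
      congr 1
      push_cast
      ring
    exact tendsto_nhds_unique (hlim a b) (by simp only [h1]; exact tendsto_const_nhds)
  · exact ge_of_tendsto (hlim 0 0) (Eventually.of_forall hdens)

end Dadc30
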