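import Pool.Agent.Lib.MP_dadc30_co.Law2

/-!
# MP_dadc30_co, module Law3: average over the rotations `Γ₀`.

Let `P` be from `exists_stat_law` and `F : FolnerSeq (Additive Γ₀)`.  For `w : Γ₀` the law
`P_w = P.map (ω ↦ (z ↦ ω (w z)))` has `pp P_w a b = pp P (w a) (w b)` and all the properties of `P`.
Mixtures with weights `F.c n` (`exists_mixture`), then `exists_ultralimit`; invariance under
`Γ₀` from `F.inv`. -/

open MeasureTheory ProbabilityTheory Filter Topology
open scoped ENNReal ComplexConjugate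

namespace Dadc30

theorem Law3_measurableSet_one (a : K) : MeasurableSet {ω : K → Bool | ω a = true} := by
  have h1 : Measurable (fun ω : K → Bool => ω a) := measurable_pi_apply a
  exact h1 (MeasurableSet.singleton true)

theorem Law3_measurableSet (a b : K) :
    MeasurableSet {ω : K → Bool | ω a = true ∧ ω b = true} :=
  (Law3_measurableSet_one a).inter (Law3_measurableSet_one b)

/-- rotation of the configuration -/
noncomputable def Law3_rot (w : Γ₀) (ω : K → Bool) : K → Bool := fun z => ω (toK w * z)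

theorem Law3_rot_measurable (w : Γ₀) : Measurable (Law3_rot w) :=
  measurable_pi_lambda _ fun z => measurable_pi_apply (toK w * z)

theorem Law3_pp_map (P : Measure (K → Bool)) (w : Γ₀) (a b : K) :
    pp (P.map (Law3_rot w)) a b = pp P (toK w * a) (toK w * b) := by
  unfold pp
  rw [Measure.map_apply (Law3_rot_measurable w) (Law3_measurableSet a b)]
  rfl

theorem Law3_toK_mul (v w : Γ₀) : toK (v * w) = toK v * toK w := by
  apply Subtype.ext
  simp [toK]

theorem Law3_norm_toK (w : Γ₀) : ‖((toK w : K) : ℂ)‖ = 1 := Circle.norm_coe _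

theorem Law3_pp_nonneg (P : Measure (K → Bool)) (a b : K) : 0 ≤ pp P a b := ENNReal.toReal_nonneg

theorem Law3_pp_abs_le (P : Measure (K → Bool)) [IsProbabilityMeasure P] (a b : K) :
    |pp P a b| ≤ 1 := by
  rw [abs_of_nonneg (Law3_pp_nonneg P a b)]
  exact measureReal_le_one

theorem Law3_avg_congr {G : Type} (c : G →₀ ℝ) {φ ψ : G → ℝ} (h : ∀ g, φ g = ψ g) :
    avg c φ = avg c ψ := by
  have : φ = ψ := funext h
  rw [this]

theorem Law3_avg_const {G : Type} (c : G →₀ ℝ) (h : (c.sum fun _ r => r) = 1) (x : ℝ) :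
    avg c (fun _ => x) = x := by
  unfold avg
  unfold Finsupp.sum at h ⊢
  rw [← Finset.sum_mul, h, one_mul]

theorem exists_law {c : ℝ} (hc : 0 ≤ c) (h : HasRatio c) :
    ∃ P : Measure (K → Bool), IsProbabilityMeasure P ∧
      (∀ a b z : K, pp P (a + z) (b + z) = pp P a b) ∧
      (∀ (w : Γ₀) (a b : K), pp P (toK w * a) (toK w * b) = pp P a b) ∧
      (∀ a b : K, ‖((a - b : K) : ℂ)‖ = 1 → pp P a b = 0) ∧ c ≤ pp P 0 0 := by
  obtain ⟨P, hP, hst, hun, hcP⟩ := exists_stat_law hc h
  have hcount : Countable (Additive Γ₀) := inferInstanceAs (Countable Γ₀)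
  obtain ⟨F⟩ := exists_folner (Additive Γ₀)
  have hmix : ∀ n, ∃ Q : Measure (K → Bool), IsProbabilityMeasure Q ∧
      ∀ a b, pp Q a b = avg (F.c n) (fun g => pp P (toK g.toMul * a) (toK g.toMul * b)) := by
    intro n
    obtain ⟨Q, hQ1, hQ2⟩ := exists_mixture (F.c n) (F.nonneg n) (F.one n)
      (fun g => P.map (Law3_rot g.toMul))
      (fun g => Measure.isProbabilityMeasure_map (Law3_rot_measurable g.toMul).aemeasurable)
    refine ⟨Q, hQ1, fun a b => ?_⟩
    rw [hQ2]
    exact Law3_avg_congr _ fun g => Law3_pp_map P g.toMul a b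
  choose Q hQ1 hQ2 using hmix
  obtain ⟨R, hR1, hR2⟩ := exists_ultralimit Q hQ1
  refine ⟨R, hR1, ?_, ?_, ?_, ?_⟩
  · intro a b z
    refine tendsto_nhds_unique (hR2 (a + z) (b + z)) ((hR2 a b).congr fun n => ?_)
    rw [hQ2, hQ2]
    refine Law3_avg_congr _ fun g => ?_
    rw [mul_add, mul_add, hst]
  · intro w a b
    have h1 : Tendsto (fun n => |pp (Q n) (toK w * a) (toK w * b) - pp (Q n) a b|)
        (hyperfilter ℕ : Filter ℕ) (𝓝 |pp R (toK w * a) (toK w * b) - pp R a b|) :=
      ((hR2 (toK w * a) (toK w * b)).sub (hR2 a b)).abs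
    have h2 : Tendsto (fun n => F.e n (Additive.ofMul w)) (hyperfilter ℕ : Filter ℕ) (𝓝 0) :=
      (F.e_tendsto (Additive.ofMul w)).mono_left Nat.hyperfilter_le_atTop
    have h3 : ∀ n, |pp (Q n) (toK w * a) (toK w * b) - pp (Q n) a b|
        ≤ F.e n (Additive.ofMul w) := by
      intro n
      have h4 := F.inv n (Additive.ofMul w)
        (fun g => pp P (toK g.toMul * a) (toK g.toMul * b)) (fun g => Law3_pp_abs_le P _ _)
      rw [hQ2, hQ2]
      refine le_trans (le_of_eq ?_) h4
      congr 2
      refine Law3_avg_congr _ fun g => ?_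
      have h5 : toK (g + Additive.ofMul w).toMul = toK g.toMul * toK w :=
        Law3_toK_mul g.toMul w
      rw [h5, mul_assoc, mul_assoc]
    have h6 : |pp R (toK w * a) (toK w * b) - pp R a b| ≤ 0 :=
      le_of_tendsto_of_tendsto h1 h2 (Eventually.of_forall h3)
    have h7 := abs_nonpos_iff.1 h6
    linarith
  · intro a b hab
    refine tendsto_nhds_unique (hR2 a b) ((tendsto_const_nhds (x := (0 : ℝ))).congr fun n => ?_)
    rw [hQ2]
    have h1 : ∀ g : Additive Γ₀, pp P (toK g.toMul * a) (toK g.toMul * b) = 0 := by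
      intro g
      apply hun
      rw [← mul_sub]
      have h2 : ((toK g.toMul * (a - b) : K) : ℂ) = ((toK g.toMul : K) : ℂ) * ((a - b : K) : ℂ) :=
        rfl
      rw [h2, norm_mul, Law3_norm_toK, hab, one_mul]
    rw [Law3_avg_congr (F.c n) h1, Law3_avg_const _ (F.one n)]
  · refine ge_of_tendsto (hR2 0 0) (Eventually.of_forall fun n => ?_)
    rw [hQ2]
    have h1 : ∀ g : Additive Γ₀, pp P (toK g.toMul * 0) (toK g.toMul * 0) = pp P 0 0 := by
      intro g
      rw [mul_zero]
    rw [Law3_avg_congr (F.c n) h1, Law3_avg_const _ (F.one n)]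
    exact hcP

/-- the two-point function is positive definite:
`∑ a_x conj a_y P(x,y ∈ S) = E |∑ a_x 1[x ∈ S]|²` -/
theorem pp_posDef (P : Measure (K → Bool)) [IsProbabilityMeasure P]
    (hst : ∀ a b z : K, pp P (a + z) (b + z) = pp P a b) (s : Finset K) (a : K → ℂ) :
    0 ≤ (∑ x ∈ s, ∑ y ∈ s, a x * conj (a y) * ((pp P (x - y) 0 : ℝ) : ℂ)).re := by
  have h1 : ∀ x y : K, pp P (x - y) 0 = pp P x y := by
    intro x y
    have h := hst (x - y) 0 y
    rw [sub_add_cancel, zero_add] at h
    exact h.symm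
  obtain ⟨u, hu⟩ : ∃ u : K → (K → Bool) → ℝ, u = fun x ω => if ω x = true then 1 else 0 :=
    ⟨_, rfl⟩
  have h2 : ∀ x y : K, pp P x y = ∫ ω, u x ω * u y ω ∂P := by
    intro x y
    have h3 : (fun ω => u x ω * u y ω)
        = {ω : K → Bool | ω x = true ∧ ω y = true}.indicator (fun _ => (1 : ℝ)) := by
      funext ω
      rw [hu]
      by_cases hx : ω x = true
      · by_cases hy : ω y = true
        · simp [hx, hy]
        · simp [hx, hy]
      · simp [hx]
    rw [h3, integral_indicator (Law3_measurableSet x y), setIntegral_const]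
    simp [pp, Measure.real]
  have hint : ∀ x y : K, Integrable (fun ω => u x ω * u y ω) P := by
    intro x y
    have hm : ∀ x : K, Measurable (u x) := by
      intro x
      rw [hu]
      exact Measurable.ite (Law3_measurableSet_one x) measurable_const measurable_const
    have hb : ∀ x ω, |u x ω| ≤ 1 := by
      intro x ω
      rw [hu]
      show |(if ω x = true then (1 : ℝ) else 0)| ≤ 1
      split_ifs
      · simp
      · simp
    refine Integrable.of_bound ((hm x).mul (hm y)).aestronglyMeasurable 1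
      (Eventually.of_forall fun ω => ?_)
    rw [Real.norm_eq_abs, abs_mul]
    have h3 := hb x ω
    have h4 := hb y ω
    have h5 := abs_nonneg (u y ω)
    nlinarith
  have h3 : (∑ x ∈ s, ∑ y ∈ s, a x * conj (a y) * ((pp P (x - y) 0 : ℝ) : ℂ)).re
      = ∫ ω, ‖∑ x ∈ s, a x * (u x ω : ℂ)‖ ^ 2 ∂P := by
    rw [Complex.re_sum]
    have h4 : ∀ ω, ‖∑ x ∈ s, a x * (u x ω : ℂ)‖ ^ 2
        = ∑ x ∈ s, ∑ y ∈ s, (a x * conj (a y)).re * (u x ω * u y ω) := by
      intro ω
      have h5 : (‖∑ x ∈ s, a x * (u x ω : ℂ)‖ : ℂ) ^ 2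
          = ∑ x ∈ s, ∑ y ∈ s, (a x * conj (a y)) * ((u x ω * u y ω : ℝ) : ℂ) := by
        rw [← Complex.mul_conj', map_sum, Finset.sum_mul_sum]
        refine Finset.sum_congr rfl fun x _ => Finset.sum_congr rfl fun y _ => ?_
        rw [map_mul, Complex.conj_ofReal, Complex.ofReal_mul]
        ring
      have h6 := congrArg Complex.re h5
      rw [Complex.re_sum] at h6
      have h7 : ((‖∑ x ∈ s, a x * (u x ω : ℂ)‖ : ℂ) ^ 2).re
          = ‖∑ x ∈ s, a x * (u x ω : ℂ)‖ ^ 2 := by
        rw [← Complex.ofReal_pow, Complex.ofReal_re]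
      rw [h7] at h6
      rw [h6]
      refine Finset.sum_congr rfl fun x _ => ?_
      rw [Complex.re_sum]
      refine Finset.sum_congr rfl fun y _ => ?_
      rw [Complex.re_mul_ofReal]
    rw [integral_congr_ae (Eventually.of_forall h4), integral_finsetSum]
    · refine Finset.sum_congr rfl fun x _ => ?_
      rw [Complex.re_sum, integral_finsetSum]
      · refine Finset.sum_congr rfl fun y _ => ?_
        rw [Complex.re_mul_ofReal, h1, h2, integral_const_mul]
      · intro y _
        exact (hint x y).const_mul _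
    · intro x _
      refine integrable_finsetSum _ fun y _ => ?_
      exact (hint x y).const_mul _
  rw [h3]
  exact integral_nonneg fun ω => by positivity

end Dadc30
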