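import Pool.Agent.Lib.MP_dadc30_co.Defs

/-!
# MP_dadc30_co, module LawDefs: two-point function of a random subset of `K`.
-/

open MeasureTheory ProbabilityTheory Filter Topology
open scoped ENNReal ComplexConjugate

namespace Dadc30

/-- `P(a ∈ S and b ∈ S)` for a random subset `S` of `K` (coded by `K → Bool`) -/
noncomputable def pp (P : Measure (K → Bool)) (a b : K) : ℝ :=
  (P {ω | ω a = true ∧ ω b = true}).toReal

end Dadc30
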