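import Pool.Agent.Lib.MP_dadc30_co.V2
import Pool.Agent.Lib.MP_dadc30_co.METerg

/-!
# MP_dadc30_co, module LemC: the two bounds used in Lemma C.

`lemC_bound`: by `met_exists` on `(Ω × Ω, Y.sq)` the left side is
`|∫ α(z.1)β(z.2)B'(z)|` with `B'` invariant, `|B'| ≤ 1`, and by `v2` this is
`|∫ V.E α(z.1) β(z.2) B'(z)| ≤ ∫ |V.E α(z.1)| ∂Y.sq = ∫ |V.E α| ∂μ` (`Fac.sq_fst`).
`lemC_rel`: `M_w ∫ |V.E(φ(w·) conj φ)|² = M_w ∫ φ(w z.1) conj φ(w z.2) · [conj φ(z.1) φ(z.2)] ∂V.sq`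
(`Fac.h_eq`) `= ∫ φ(z.1) conj φ(z.2) B'(z) ∂V.sq` (`met_exists`)
`= ∫ W.E φ(z.1) conj φ(z.2) B'(z) = 0` (`v2` for `IsNext V W`); then Cauchy-Schwarz
(`BM.sq_integral_norm_le`, `InvMean.m_eq_zero_of_sq`).
-/

open MeasureTheory ProbabilityTheory Filter Topology
open scoped ENNReal ComplexConjugate

namespace Dadc30

variable {G : Type} [CommGroup G] {Ω : Type} [MeasurableSpace Ω] [MulAction G Ω]
  {μ : Measure Ω} [IsProbabilityMeasure μ]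

theorem LemC_int_fst (Y : Fac G μ) {f : Ω → ℝ} (hf : Measurable f) :
    ∫ z, f z.1 ∂Y.sq = ∫ x, f x ∂μ := by
  have h := integral_map (μ := Y.sq) (φ := (Prod.fst : Ω × Ω → Ω)) measurable_fst.aemeasurable
    (f := f) hf.aestronglyMeasurable
  rw [Y.sq_fst] at h
  exact h.symm

theorem LemC_int_snd (Y : Fac G μ) {f : Ω → ℝ} (hf : Measurable f) :
    ∫ z, f z.2 ∂Y.sq = ∫ x, f x ∂μ := by
  have h := integral_map (μ := Y.sq) (φ := (Prod.snd : Ω × Ω → Ω)) measurable_snd.aemeasurable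
    (f := f) hf.aestronglyMeasurable
  rw [Y.sq_snd] at h
  exact h.symm

theorem lemC_bound [Countable G] (hμ : PMP G μ) {Y V : Fac G μ} (h : IsNext Y V)
    {α β : Ω → ℂ} (hα : BM α) (hβ : Measurable β) (hβ1 : ∀ x, ‖β x‖ ≤ 1)
    {B : Ω × Ω → ℂ} (hB : Measurable B) (hB1 : ∀ z, ‖B z‖ ≤ 1) (M : InvMean G) :
    ‖M.c (fun u => ∫ z, α (u • z.1) * β (u • z.2) * B z ∂Y.sq)‖ ≤ ∫ x, ‖V.E α x‖ ∂μ := by
  obtain ⟨B', hB'm, hB'1, hB'i, hB'⟩ := met_exists (Y.sq_pmp hμ) hB hB1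
  have hβB : BM β := ⟨hβ, 1, hβ1⟩
  have hA : BM (fun z : Ω × Ω => α z.1 * β z.2) :=
    (hα.comp measurable_fst).mul (hβB.comp measurable_snd)
  have h1 := hB' M _ hA
  have h2 : (fun u : G => ∫ z, α (u • z.1) * β (u • z.2) * B z ∂Y.sq) =
      fun u : G => ∫ z, (fun z : Ω × Ω => α z.1 * β z.2) (u • z) * B z ∂Y.sq := rfl
  rw [h2, h1]
  have h3 := v2 hμ h hα hβB (B' := B') ⟨hB'm, 1, hB'1⟩ hB'i
  have h4 : ∫ z, (fun z : Ω × Ω => α z.1 * β z.2) z * B' z ∂Y.sq =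
      ∫ z, α z.1 * β z.2 * B' z ∂Y.sq := rfl
  rw [h4, h3, ← LemC_int_fst Y (f := fun x => ‖V.E α x‖) (V.E_BM hα).norm.1]
  refine (norm_integral_le_integral_norm _).trans ?_
  have hE : BM (fun z : Ω × Ω => V.E α z.1) := (V.E_BM hα).comp measurable_fst
  have hI : BM (fun z : Ω × Ω => V.E α z.1 * β z.2 * B' z) :=
    (hE.mul (hβB.comp measurable_snd)).mul ⟨hB'm, 1, hB'1⟩
  refine integral_mono (hI.norm.integrable _) (hE.norm.integrable _) fun z => ?_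
  show ‖V.E α z.1 * β z.2 * B' z‖ ≤ ‖V.E α z.1‖
  rw [norm_mul, norm_mul, mul_assoc]
  have h5 : ‖β z.2‖ * ‖B' z‖ ≤ 1 := mul_le_one₀ (hβ1 _) (norm_nonneg _) (hB'1 _)
  exact mul_le_of_le_one_right (norm_nonneg _) h5

theorem lemC_bound_snd [Countable G] (hμ : PMP G μ) {Y V : Fac G μ} (h : IsNext Y V)
    {α β : Ω → ℂ} (hα : BM α) (hβ : Measurable β) (hβ1 : ∀ x, ‖β x‖ ≤ 1)
    {B : Ω × Ω → ℂ} (hB : Measurable B) (hB1 : ∀ z, ‖B z‖ ≤ 1) (M : InvMean G) :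
    ‖M.c (fun u => ∫ z, β (u • z.1) * α (u • z.2) * B z ∂Y.sq)‖ ≤ ∫ x, ‖V.E α x‖ ∂μ := by
  obtain ⟨B', hB'm, hB'1, hB'i, hB'⟩ := met_exists (Y.sq_pmp hμ) hB hB1
  have hβB : BM β := ⟨hβ, 1, hβ1⟩
  have hA : BM (fun z : Ω × Ω => β z.1 * α z.2) :=
    (hβB.comp measurable_fst).mul (hα.comp measurable_snd)
  have h1 := hB' M _ hA
  have h2 : (fun u : G => ∫ z, β (u • z.1) * α (u • z.2) * B z ∂Y.sq) =
      fun u : G => ∫ z, (fun z : Ω × Ω => β z.1 * α z.2) (u • z) * B z ∂Y.sq := rfl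
  rw [h2, h1]
  have h3 := v2_snd hμ h hβB hα (B' := B') ⟨hB'm, 1, hB'1⟩ hB'i
  have h4 : ∫ z, (fun z : Ω × Ω => β z.1 * α z.2) z * B' z ∂Y.sq =
      ∫ z, β z.1 * α z.2 * B' z ∂Y.sq := rfl
  rw [h4, h3, ← LemC_int_snd Y (f := fun x => ‖V.E α x‖) (V.E_BM hα).norm.1]
  refine (norm_integral_le_integral_norm _).trans ?_
  have hE : BM (fun z : Ω × Ω => V.E α z.2) := (V.E_BM hα).comp measurable_snd
  have hI : BM (fun z : Ω × Ω => β z.1 * V.E α z.2 * B' z) :=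
    ((hβB.comp measurable_fst).mul hE).mul ⟨hB'm, 1, hB'1⟩
  refine integral_mono (hI.norm.integrable _) (hE.norm.integrable _) fun z => ?_
  show ‖β z.1 * V.E α z.2 * B' z‖ ≤ ‖V.E α z.2‖
  rw [norm_mul, norm_mul, mul_comm ‖β z.1‖, mul_assoc]
  have h5 : ‖β z.1‖ * ‖B' z‖ ≤ 1 := mul_le_one₀ (hβ1 _) (norm_nonneg _) (hB'1 _)
  exact mul_le_of_le_one_right (norm_nonneg _) h5

theorem lemC_rel [Countable G] (hμ : PMP G μ) {V W : Fac G μ} (h : IsNext V W)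
    {φ : Ω → ℂ} (hφ : BM φ) (h0 : ∀ᵐ x ∂μ, W.E φ x = 0) (M : InvMean G) :
    M.m (fun w => ∫ x, ‖V.E (fun y => φ (w • y) * conj (φ y)) x‖ ∂μ) = 0 := by
  have hψ : ∀ w : G, BM (fun y => φ (w • y) * conj (φ y)) := fun w =>
    (hφ.comp (hμ w).measurable).mul hφ.conj
  have hB : BM (fun z : Ω × Ω => conj (φ z.1) * φ z.2) :=
    (hφ.comp measurable_fst).conj.mul (hφ.comp measurable_snd)
  obtain ⟨C, hC⟩ := hB.2
  obtain ⟨B', hB'm, hB'C, hB'i, hB'⟩ := met_exists (V.sq_pmp hμ) hB.1 hC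
  have hA : BM (fun z : Ω × Ω => φ z.1 * conj (φ z.2)) :=
    (hφ.comp measurable_fst).mul (hφ.comp measurable_snd).conj
  have h1 := hB' M _ hA
  -- the mean of `h`
  have h2 : ∀ w : G, ((V.h (fun y => φ (w • y) * conj (φ y)) : ℝ) : ℂ) =
      ∫ z, (fun z : Ω × Ω => φ z.1 * conj (φ z.2)) (w • z) * (conj (φ z.1) * φ z.2) ∂V.sq := by
    intro w
    rw [V.h_eq (hψ w)]
    refine integral_congr_ae (Eventually.of_forall fun z => ?_)
    show φ (w • z.1) * conj (φ z.1) * conj (φ (w • z.2) * conj (φ z.2)) =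
      φ (w • z.1) * conj (φ (w • z.2)) * (conj (φ z.1) * φ z.2)
    rw [map_mul, Complex.conj_conj]
    ring
  have h3 : ∫ z, (fun z : Ω × Ω => φ z.1 * conj (φ z.2)) z * B' z ∂V.sq = 0 := by
    have h4 := v2 hμ h hφ hφ.conj (B' := B') ⟨hB'm, C, hB'C⟩ hB'i
    have h5 : ∫ z, (fun z : Ω × Ω => φ z.1 * conj (φ z.2)) z * B' z ∂V.sq =
        ∫ z, φ z.1 * conj (φ z.2) * B' z ∂V.sq := rfl
    rw [h5, h4]
    refine integral_eq_zero_of_ae ?_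
    have h6 : ∀ᵐ z ∂V.sq, W.E φ z.1 = 0 := by
      have h7 : ∀ᵐ x ∂(V.sq.map Prod.fst), W.E φ x = 0 := by
        rw [V.sq_fst]
        exact h0
      exact ae_of_ae_map measurable_fst.aemeasurable h7
    filter_upwards [h6] with z hz
    show W.E φ z.1 * conj (φ z.2) * B' z = 0
    rw [hz, zero_mul, zero_mul]
  obtain ⟨D, hD⟩ := hφ.2
  have hD0 : ∀ x : Ω, 0 ≤ D := fun x => (norm_nonneg _).trans (hD x)
  have hψD : ∀ (w : G) (y : Ω), ‖φ (w • y) * conj (φ y)‖ ≤ D * D := by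
    intro w y
    rw [norm_mul, RCLike.norm_conj]
    exact mul_le_mul (hD _) (hD _) (norm_nonneg _) (hD0 y)
  have hED : ∀ (w : G) (x : Ω), ‖V.E (fun y => φ (w • y) * conj (φ y)) x‖ ≤ D * D :=
    fun w x => V.E_bound (hψD w) x
  have hbd1 : Bdd (fun w : G => ∫ x, ‖V.E (fun y => φ (w • y) * conj (φ y)) x‖ ∂μ) :=
    BMR.bdd_integral (C := D * D) (fun w x => by
      rw [abs_of_nonneg (norm_nonneg _)]
      exact hED w x) μ
  have hbd2 : Bdd (fun w : G => V.h (fun y => φ (w • y) * conj (φ y))) :=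
    BMR.bdd_integral (C := (D * D) ^ 2) (fun w x => by
      rw [abs_of_nonneg (sq_nonneg _)]
      exact pow_le_pow_left₀ (norm_nonneg _) (hED w x) 2) μ
  have h8 : M.m (fun w => V.h (fun y => φ (w • y) * conj (φ y))) = 0 := by
    have h9 := M.c_ofReal hbd2
    simp only [h2] at h9
    rw [h1, h3] at h9
    exact_mod_cast h9.symm
  refine M.m_eq_zero_of_sq hbd1 ?_
  refine M.m_eq_zero_of_le (hbd1.pow 2) hbd2 (fun w => sq_nonneg _) (fun w => ?_) h8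
  exact BM.sq_integral_norm_le (V.E_BM (hψ w)) μ

end Dadc30
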