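import Pool.Agent.Lib.MP_dadc30_co.VdC

open MeasureTheory ProbabilityTheory Filter Topology
open scoped ENNReal ComplexConjugate

namespace Dadc30

variable {G : Type} [CommGroup G]

/-- translation by a group element does not change integrals -/
theorem tri_integral_smul {Y : Type} [MeasurableSpace Y] [MulAction G Y]
    (m : Measure Y) (hm : PMP G m) (g : G) (f : Y → ℂ) :
    ∫ y, f (g • y) ∂m = ∫ y, f y ∂m := by
  have he : MeasurableEmbedding (fun y : Y => g • y) :=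
    (MeasurableEquiv.mk (MulAction.toPerm g) (hm g).measurable (hm g⁻¹).measurable).measurableEmbedding
  exact (hm g).integral_comp he f

theorem tri_meas_smul {Y : Type} [MeasurableSpace Y] [MulAction G Y]
    {m : Measure Y} (hm : PMP G m) {Ψ : Y → ℂ} (hΨ : Measurable Ψ) (g : G) :
    Measurable fun y : Y => Ψ (g • y) :=
  hΨ.comp (hm g).measurable

theorem tri_bound {Y : Type} [MeasurableSpace Y] {m : Measure Y} [IsProbabilityMeasure m]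
    {f : Y → ℂ} {C : ℝ} (h : ∀ y, ‖f y‖ ≤ C) : ‖∫ y, f y ∂m‖ ≤ C := by
  have h1 := norm_integral_le_of_norm_le_const (μ := m) (Filter.Eventually.of_forall h)
  simpa using h1

/-- a positive bound of a bounded function -/
theorem tri_exists_bound {Y : Type} {f : Y → ℂ} (hf : BddC f) :
    ∃ C : ℝ, 0 < C ∧ ∀ y, ‖f y‖ ≤ C := by
  obtain ⟨C, hC⟩ := hf
  exact ⟨|C| + 1, by positivity, fun y => (hC y).trans ((le_abs_self C).trans (by linarith))⟩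

/-- the bound of the correlations with an arbitrary bounded function -/
theorem tri_core {Y : Type} [MeasurableSpace Y] [MulAction G Y]
    (m : Measure Y) [IsProbabilityMeasure m] {Ψ : Y → ℂ}
    (hΨ : BM Ψ) (δ : G → ℝ)
    (hδ : ∀ (w : G) (M' : InvMean G) (B : Y → ℂ), Measurable B → (∀ y, ‖B y‖ ≤ 1) →
      ‖M'.c (fun u => ∫ y, Ψ (w • u • y) * conj (Ψ (u • y)) * B y ∂m)‖ ≤ δ w)
    (w : G) (M' : InvMean G) (B : Y → ℂ) (hB : Measurable B) (K : ℝ) (hK : 0 < K)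
    (hBK : ∀ y, ‖B y‖ ≤ K) :
    ‖M'.c (fun u => ∫ y, Ψ (w • u • y) * conj (Ψ (u • y)) * B y ∂m)‖ ≤ K * δ w := by
  have hKc : (K : ℂ) ≠ 0 := by exact_mod_cast hK.ne'
  have h1 := hδ w M' (fun y => (K : ℂ)⁻¹ * B y) (hB.const_mul _) (fun y => by
    rw [norm_mul, norm_inv, Complex.norm_real, Real.norm_eq_abs, abs_of_pos hK,
      inv_mul_le_iff₀ hK, mul_one]
    exact hBK y)
  have e : (fun u : G => ∫ y, Ψ (w • u • y) * conj (Ψ (u • y)) * B y ∂m) =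
      fun u : G => (K : ℂ) * ∫ y, Ψ (w • u • y) * conj (Ψ (u • y)) * ((K : ℂ)⁻¹ * B y) ∂m := by
    funext u
    rw [← integral_const_mul]
    congr 1
    funext y
    field_simp
  obtain ⟨CΨ, hCΨ0, hCΨ⟩ := tri_exists_bound hΨ.2
  have hbdd : BddC fun u : G =>
      ∫ y, Ψ (w • u • y) * conj (Ψ (u • y)) * ((K : ℂ)⁻¹ * B y) ∂m := by
    refine ⟨CΨ * CΨ * (K⁻¹ * K), fun u => tri_bound fun y => ?_⟩
    rw [norm_mul, norm_mul, norm_mul, norm_inv, Complex.norm_real, Real.norm_eq_abs,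
      abs_of_pos hK, RCLike.norm_conj]
    gcongr
    · exact hCΨ _
    · exact hCΨ _
    · exact hBK y
  rw [e, M'.c_smul _ hbdd, norm_mul, Complex.norm_real, Real.norm_eq_abs, abs_of_pos hK]
  exact mul_le_mul_of_nonneg_left h1 hK.le

/-- Trilinear vanishing, distinguished function in first position.
`x_u(y) = Ψ(u•y) Φ(u⁻¹•y)`;
`γ(w) = M_u ∫ Ψ(wu y) conj Ψ(u y) Φ(w⁻¹u⁻¹ y) conj Φ(u⁻¹ y)
      = M_u ∫ Ψ(w u² y) conj Ψ(u² y) [Φ(w⁻¹ y) conj Φ(y)]` (substitute `y ↦ u y`), and this is the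
mean `M.pull sqHom` of the expression in `hδ`. -/
theorem tri_first (hG : Divis G) (M : InvMean G) {Y : Type} [MeasurableSpace Y] [MulAction G Y]
    (m : Measure Y) [IsProbabilityMeasure m] (hm : PMP G m) {Ψ Φ Θ : Y → ℂ}
    (hΨ : BM Ψ) (hΦ : BM Φ) (hΘ : BM Θ) (δ : G → ℝ) (hδb : Bdd δ)
    (hδ0 : ∀ M' : InvMean G, M'.m δ = 0)
    (hδ : ∀ (w : G) (M' : InvMean G) (B : Y → ℂ), Measurable B → (∀ y, ‖B y‖ ≤ 1) →
      ‖M'.c (fun u => ∫ y, Ψ (w • u • y) * conj (Ψ (u • y)) * B y ∂m)‖ ≤ δ w) :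
    M.c (fun u => ∫ y, Ψ (u • y) * Φ (u⁻¹ • y) * Θ y ∂m) = 0 := by
  obtain ⟨CΨ, hCΨ0, hCΨ⟩ := tri_exists_bound hΨ.2
  obtain ⟨CΦ, hCΦ0, hCΦ⟩ := tri_exists_bound hΦ.2
  have hK : 0 < CΦ * CΦ := by positivity
  refine vdc M m (fun u y => Ψ (u • y) * Φ (u⁻¹ • y))
    (fun u => (tri_meas_smul hm hΨ.1 u).mul (tri_meas_smul hm hΦ.1 u⁻¹)) (CΨ * CΦ)
    (fun u y => by
      rw [norm_mul]
      exact mul_le_mul (hCΨ _) (hCΦ _) (norm_nonneg _) hCΨ0.le) ?_ hΘ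
  have key : ∀ w : G, ‖M.c (fun u => ∫ y, (Ψ ((w * u) • y) * Φ ((w * u)⁻¹ • y)) *
      conj (Ψ (u • y) * Φ (u⁻¹ • y)) ∂m)‖ ≤ CΦ * CΦ * δ w := by
    intro w
    have h1 := tri_core m hΨ δ hδ w (M.pull (sqHom G) (sqHom_surj hG))
      (fun y => Φ (w⁻¹ • y) * conj (Φ y))
      ((tri_meas_smul hm hΦ.1 w⁻¹).mul (Complex.continuous_conj.measurable.comp hΦ.1))
      (CΦ * CΦ) hK (fun y => by
        rw [norm_mul, RCLike.norm_conj]
        exact mul_le_mul (hCΦ _) (hCΦ _) (norm_nonneg _) hCΦ0.le)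
    rw [InvMean.pull_c] at h1
    refine le_of_eq_of_le ?_ h1
    congr 2
    funext u
    rw [← tri_integral_smul m hm u]
    congr 1
    funext y
    have e1 : (w * u) • u • y = w • (sqHom G u) • y := by
      rw [smul_smul, smul_smul]
      congr 1
      show w * u * u = w * (u * u)
      rw [mul_assoc]
    have e2 : (w * u)⁻¹ • u • y = w⁻¹ • y := by
      rw [smul_smul]
      congr 1
      rw [mul_inv, inv_mul_cancel_right]
    have e3 : u • u • y = (sqHom G u) • y := by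
      rw [smul_smul]; rfl
    have e4 : u⁻¹ • u • y = y := inv_smul_smul u y
    rw [e1, e2, e3, e4, map_mul]
    ring
  have hb : Bdd fun w : G => ‖M.c (fun u => ∫ y, (Ψ ((w * u) • y) * Φ ((w * u)⁻¹ • y)) *
      conj (Ψ (u • y) * Φ (u⁻¹ • y)) ∂m)‖ := by
    obtain ⟨D, hD⟩ := hδb
    refine ⟨CΦ * CΦ * D, fun w => ?_⟩
    rw [abs_of_nonneg (norm_nonneg _)]
    exact (key w).trans (mul_le_mul_of_nonneg_left ((le_abs_self _).trans (hD w)) hK.le)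
  refine M.m_eq_zero_of_le (g := fun w => CΦ * CΦ * δ w) hb ((Bdd.const _).mul hδb)
    (fun w => norm_nonneg _) key ?_
  rw [M.smul' _ _ hδb, hδ0 M, mul_zero]

/-- Trilinear vanishing, distinguished function in third position.  Substitute `y ↦ u⁻¹ y`:
`M_u ∫ Φ(u y)Θ(u⁻¹ y)Ψ(y) = M_u ∫ Φ(y) Θ(u⁻² y) Ψ(u⁻¹ y)`, apply `vdc` with
`x_u = Θ(u⁻² y)Ψ(u⁻¹ y)`; `γ(w) = M_u ∫ Θ(w⁻²u⁻²y) conj Θ(u⁻²y) Ψ(w⁻¹u⁻¹y) conj Ψ(u⁻¹y)
= M_u ∫ [Θ(w⁻²y) conj Θ(y)] Ψ(w⁻¹ u y) conj Ψ(u y)` (substitute `y ↦ u² y`). -/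
theorem tri_third (hG : Divis G) (M : InvMean G) {Y : Type} [MeasurableSpace Y] [MulAction G Y]
    (m : Measure Y) [IsProbabilityMeasure m] (hm : PMP G m) {Ψ Φ Θ : Y → ℂ}
    (hΨ : BM Ψ) (hΦ : BM Φ) (hΘ : BM Θ) (δ : G → ℝ) (hδb : Bdd δ)
    (hδ0 : ∀ M' : InvMean G, M'.m δ = 0)
    (hδ : ∀ (w : G) (M' : InvMean G) (B : Y → ℂ), Measurable B → (∀ y, ‖B y‖ ≤ 1) →
      ‖M'.c (fun u => ∫ y, Ψ (w • u • y) * conj (Ψ (u • y)) * B y ∂m)‖ ≤ δ w) :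
    M.c (fun u => ∫ y, Φ (u • y) * Θ (u⁻¹ • y) * Ψ y ∂m) = 0 := by
  obtain ⟨CΨ, hCΨ0, hCΨ⟩ := tri_exists_bound hΨ.2
  obtain ⟨CΘ, hCΘ0, hCΘ⟩ := tri_exists_bound hΘ.2
  have hK : 0 < CΘ * CΘ := by positivity
  have e0 : (fun u : G => ∫ y, Φ (u • y) * Θ (u⁻¹ • y) * Ψ y ∂m) =
      fun u : G => ∫ y, (Θ ((u * u)⁻¹ • y) * Ψ (u⁻¹ • y)) * Φ y ∂m := by
    funext u
    rw [← tri_integral_smul m hm u⁻¹]
    congr 1
    funext y
    have e1 : u • u⁻¹ • y = y := smul_inv_smul u y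
    have e2 : u⁻¹ • u⁻¹ • y = (u * u)⁻¹ • y := by rw [smul_smul, mul_inv]
    rw [e1, e2]
    ring
  rw [e0]
  refine vdc M m (fun u y => Θ ((u * u)⁻¹ • y) * Ψ (u⁻¹ • y))
    (fun u => (tri_meas_smul hm hΘ.1 _).mul (tri_meas_smul hm hΨ.1 u⁻¹)) (CΘ * CΨ)
    (fun u y => by
      rw [norm_mul]
      exact mul_le_mul (hCΘ _) (hCΨ _) (norm_nonneg _) hCΘ0.le) ?_ hΦ
  have key : ∀ w : G, ‖M.c (fun u => ∫ y, (Θ (((w * u) * (w * u))⁻¹ • y) * Ψ ((w * u)⁻¹ • y)) *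
      conj (Θ ((u * u)⁻¹ • y) * Ψ (u⁻¹ • y)) ∂m)‖ ≤ CΘ * CΘ * δ w⁻¹ := by
    intro w
    have h1 := tri_core m hΨ δ hδ w⁻¹ M
      (fun y => Θ ((w * w)⁻¹ • y) * conj (Θ y))
      ((tri_meas_smul hm hΘ.1 _).mul (Complex.continuous_conj.measurable.comp hΘ.1))
      (CΘ * CΘ) hK (fun y => by
        rw [norm_mul, RCLike.norm_conj]
        exact mul_le_mul (hCΘ _) (hCΘ _) (norm_nonneg _) hCΘ0.le)
    refine le_of_eq_of_le ?_ h1
    congr 2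
    funext u
    rw [← tri_integral_smul m hm (u * u)]
    congr 1
    funext y
    have e1 : ((w * u) * (w * u))⁻¹ • (u * u) • y = (w * w)⁻¹ • y := by
      rw [smul_smul]
      congr 1
      rw [mul_mul_mul_comm, mul_inv, inv_mul_cancel_right]
    have e2 : (w * u)⁻¹ • (u * u) • y = w⁻¹ • u • y := by
      rw [smul_smul, smul_smul]
      congr 1
      rw [mul_inv, mul_assoc, inv_mul_cancel_left]
    have e3 : (u * u)⁻¹ • (u * u) • y = y := inv_smul_smul _ y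
    have e4 : u⁻¹ • (u * u) • y = u • y := by
      rw [smul_smul, inv_mul_cancel_left]
    rw [e1, e2, e3, e4, map_mul]
    ring
  have hδi : Bdd fun w : G => δ w⁻¹ := hδb.comp fun w => w⁻¹
  have hb : Bdd fun w : G => ‖M.c (fun u => ∫ y,
      (Θ (((w * u) * (w * u))⁻¹ • y) * Ψ ((w * u)⁻¹ • y)) *
      conj (Θ ((u * u)⁻¹ • y) * Ψ (u⁻¹ • y)) ∂m)‖ := by
    obtain ⟨D, hD⟩ := hδi
    refine ⟨CΘ * CΘ * D, fun w => ?_⟩
    rw [abs_of_nonneg (norm_nonneg _)]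
    exact (key w).trans (mul_le_mul_of_nonneg_left ((le_abs_self _).trans (hD w)) hK.le)
  refine M.m_eq_zero_of_le (g := fun w => CΘ * CΘ * δ w⁻¹) hb ((Bdd.const _).mul hδi)
    (fun w => norm_nonneg _) key ?_
  have h0 := hδ0 (M.pull (invHom G) invHom_surj)
  rw [InvMean.pull_m] at h0
  rw [M.smul' _ _ hδi]
  have : M.m (fun w : G => δ w⁻¹) = 0 := h0
  rw [this, mul_zero]

end Dadc30
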