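import Pool.Agent.Lib.MP_dadc30_co.LemC
import Pool.Agent.Lib.MP_dadc30_co.Tri

/-!
# MP_dadc30_co, module LemC2: Lemma C (the next-next factor controls the trilinear averages).

`tri6_zero_i`: apply `tri_first` (first function; second function: replace the mean by
`M.pull invHom` and swap) or `tri_third` to the system `(Ω × Ω, Y.sq)` with
`Ψ = φ_i ⊗ ψ_i`, `δ w = C ∫ |V.E(φ_i(w·) conj φ_i)| dμ` where `C` bounds `|ψ_i|²`; hypothesis
`hδ` is `lemC_bound` with `α = φ_i(w·) conj φ_i`, `β = ψ_i(w·) conj ψ_i / C`, and `hδ0` is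
`lemC_rel`.  The `ψ_i` versions use `lemC_bound_snd`.
`tri6_replace`: telescoping, since `W.E (φ - W.E φ) = 0` a.e. (`Fac.E_self`).
`lemC_fin`: `Y.h θ_u = tri6` with `ψ_i = conj φ_i` (`Fac.h_eq`); after replacement it is
`Y.h θ'_u ≤ ∫ |θ'_u|²` (`Fac.h_le`).
-/

open MeasureTheory ProbabilityTheory Filter Topology
open scoped ENNReal ComplexConjugate

namespace Dadc30

variable {G : Type} [CommGroup G] {Ω : Type} [MeasurableSpace Ω] [MulAction G Ω]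
  {μ : Measure Ω} [IsProbabilityMeasure μ]

/-- six-fold correlation on the relative square -/
noncomputable def tri6 (Y : Fac G μ) (φ ψ : Fin 3 → Ω → ℂ) (u : G) : ℂ :=
  ∫ z, (φ 0 (u • z.1) * ψ 0 (u • z.2)) * (φ 1 (u⁻¹ • z.1) * ψ 1 (u⁻¹ • z.2)) *
    (φ 2 z.1 * ψ 2 z.2) ∂Y.sq

/-- the bound `δ` for a function `φ ⊗ ψ` on the relative square -/
theorem LemC2_delta [Countable G] (hμ : PMP G μ) {Y V W : Fac G μ}
    (h1 : IsNext Y V) (h2 : IsNext V W) {φ ψ : Ω → ℂ} (hφ : BM φ) (hψ : BM ψ)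
    (h0 : ∀ᵐ x ∂μ, W.E φ x = 0) :
    ∃ δ : G → ℝ, Bdd δ ∧ (∀ M' : InvMean G, M'.m δ = 0) ∧
      (∀ (w : G) (M' : InvMean G) (B : Ω × Ω → ℂ), Measurable B → (∀ z, ‖B z‖ ≤ 1) →
        ‖M'.c (fun u => ∫ z, (φ (w • u • z.1) * ψ (w • u • z.2)) *
          conj (φ (u • z.1) * ψ (u • z.2)) * B z ∂Y.sq)‖ ≤ δ w) ∧
      (∀ (w : G) (M' : InvMean G) (B : Ω × Ω → ℂ), Measurable B → (∀ z, ‖B z‖ ≤ 1) →
        ‖M'.c (fun u => ∫ z, (ψ (w • u • z.1) * φ (w • u • z.2)) *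
          conj (ψ (u • z.1) * φ (u • z.2)) * B z ∂Y.sq)‖ ≤ δ w) := by
  obtain ⟨D, hD0, hD⟩ := tri_exists_bound hψ.2
  obtain ⟨A, hA0, hA⟩ := tri_exists_bound hφ.2
  have hK : 0 < D * D := by positivity
  have hKc : ((D * D : ℝ) : ℂ) ≠ 0 := by exact_mod_cast hK.ne'
  have hα : ∀ w : G, BM fun y : Ω => φ (w • y) * conj (φ y) := fun w =>
    (hφ.comp (hμ w).measurable).mul hφ.conj
  have hδb : Bdd fun w : G => ∫ x, ‖V.E (fun y => φ (w • y) * conj (φ y)) x‖ ∂μ := by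
    refine BMR.bdd_integral (C := A * A) (fun w x => ?_) μ
    rw [abs_of_nonneg (norm_nonneg _)]
    refine V.E_bound (fun y => ?_) x
    rw [norm_mul, RCLike.norm_conj]
    exact mul_le_mul (hA _) (hA _) (norm_nonneg _) hA0.le
  have hβ : ∀ w : G, BM fun y : Ω => ((D * D : ℝ) : ℂ)⁻¹ * (ψ (w • y) * conj (ψ y)) := fun w =>
    (BM.const _).mul ((hψ.comp (hμ w).measurable).mul hψ.conj)
  have hβ1 : ∀ (w : G) (y : Ω), ‖((D * D : ℝ) : ℂ)⁻¹ * (ψ (w • y) * conj (ψ y))‖ ≤ 1 := by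
    intro w y
    rw [norm_mul, norm_inv, Complex.norm_real, Real.norm_eq_abs, abs_of_pos hK,
      inv_mul_le_iff₀ hK, mul_one, norm_mul, RCLike.norm_conj]
    exact mul_le_mul (hD _) (hD _) (norm_nonneg _) hD0.le
  refine ⟨fun w => D * D * ∫ x, ‖V.E (fun y => φ (w • y) * conj (φ y)) x‖ ∂μ,
    (Bdd.const _).mul hδb, ?_, ?_, ?_⟩
  · intro M'
    rw [M'.smul' _ _ hδb, lemC_rel hμ h2 hφ h0 M', mul_zero]
  · intro w M' B hB hB1
    have hb := lemC_bound hμ h1 (hα w) (hβ w).1 (hβ1 w) hB hB1 M'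
    have e : (fun u : G => ∫ z, (φ (w • u • z.1) * ψ (w • u • z.2)) *
          conj (φ (u • z.1) * ψ (u • z.2)) * B z ∂Y.sq) =
        fun u : G => ((D * D : ℝ) : ℂ) * ∫ z, (φ (w • u • z.1) * conj (φ (u • z.1))) *
          (((D * D : ℝ) : ℂ)⁻¹ * (ψ (w • u • z.2) * conj (ψ (u • z.2)))) * B z ∂Y.sq := by
      funext u
      rw [← integral_const_mul]
      congr 1
      funext z
      rw [map_mul]
      generalize ((D * D : ℝ) : ℂ) = k at hKc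
      field_simp
    have hbdd : BddC fun u : G => ∫ z, (φ (w • u • z.1) * conj (φ (u • z.1))) *
          (((D * D : ℝ) : ℂ)⁻¹ * (ψ (w • u • z.2) * conj (ψ (u • z.2)))) * B z ∂Y.sq := by
      refine ⟨A * A * 1 * 1, fun u => tri_bound fun z => ?_⟩
      rw [norm_mul, norm_mul]
      refine mul_le_mul (mul_le_mul ?_ (hβ1 w (u • z.2)) (norm_nonneg _) (by positivity))
        (hB1 z) (norm_nonneg _) (by positivity)
      rw [norm_mul, RCLike.norm_conj]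
      exact mul_le_mul (hA _) (hA _) (norm_nonneg _) hA0.le
    rw [e, M'.c_smul _ hbdd, norm_mul, Complex.norm_real, Real.norm_eq_abs, abs_of_pos hK]
    exact mul_le_mul_of_nonneg_left hb hK.le
  · intro w M' B hB hB1
    have hb := lemC_bound_snd hμ h1 (hα w) (hβ w).1 (hβ1 w) hB hB1 M'
    have e : (fun u : G => ∫ z, (ψ (w • u • z.1) * φ (w • u • z.2)) *
          conj (ψ (u • z.1) * φ (u • z.2)) * B z ∂Y.sq) =
        fun u : G => ((D * D : ℝ) : ℂ) * ∫ z,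
          (((D * D : ℝ) : ℂ)⁻¹ * (ψ (w • u • z.1) * conj (ψ (u • z.1)))) *
          (φ (w • u • z.2) * conj (φ (u • z.2))) * B z ∂Y.sq := by
      funext u
      rw [← integral_const_mul]
      congr 1
      funext z
      rw [map_mul]
      generalize ((D * D : ℝ) : ℂ) = k at hKc
      field_simp
    have hbdd : BddC fun u : G => ∫ z,
          (((D * D : ℝ) : ℂ)⁻¹ * (ψ (w • u • z.1) * conj (ψ (u • z.1)))) *
          (φ (w • u • z.2) * conj (φ (u • z.2))) * B z ∂Y.sq := by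
      refine ⟨1 * (A * A) * 1, fun u => tri_bound fun z => ?_⟩
      rw [norm_mul, norm_mul]
      refine mul_le_mul (mul_le_mul (hβ1 w (u • z.1)) ?_ (norm_nonneg _) (by positivity))
        (hB1 z) (norm_nonneg _) (by positivity)
      rw [norm_mul, RCLike.norm_conj]
      exact mul_le_mul (hA _) (hA _) (norm_nonneg _) hA0.le
    rw [e, M'.c_smul _ hbdd, norm_mul, Complex.norm_real, Real.norm_eq_abs, abs_of_pos hK]
    exact mul_le_mul_of_nonneg_left hb hK.le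

/-- the three positions -/
theorem LemC2_all (hG : Divis G) (M : InvMean G) {Z : Type} [MeasurableSpace Z] [MulAction G Z]
    (m : Measure Z) [IsProbabilityMeasure m] (hm : PMP G m) {Ψ : Fin 3 → Z → ℂ}
    (hΨ : ∀ i, BM (Ψ i)) (i : Fin 3) (δ : G → ℝ) (hδb : Bdd δ)
    (hδ0 : ∀ M' : InvMean G, M'.m δ = 0)
    (hδ : ∀ (w : G) (M' : InvMean G) (B : Z → ℂ), Measurable B → (∀ y, ‖B y‖ ≤ 1) →
      ‖M'.c (fun u => ∫ y, Ψ i (w • u • y) * conj (Ψ i (u • y)) * B y ∂m)‖ ≤ δ w) :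
    M.c (fun u => ∫ y, Ψ 0 (u • y) * Ψ 1 (u⁻¹ • y) * Ψ 2 y ∂m) = 0 := by
  fin_cases i
  · exact tri_first hG M m hm (hΨ 0) (hΨ 1) (hΨ 2) δ hδb hδ0 hδ
  · have h := tri_first hG (M.pull (invHom G) invHom_surj) m hm (hΨ 1) (hΨ 0) (hΨ 2) δ hδb hδ0 hδ
    rw [InvMean.pull_c] at h
    rw [← h]
    congr 1
    funext u
    congr 1
    funext y
    have e1 : (invHom G u) = u⁻¹ := rfl
    rw [e1, inv_inv]
    ring
  · exact tri_third hG M m hm (hΨ 2) (hΨ 0) (hΨ 1) δ hδb hδ0 hδ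

theorem LemC2_BM {φ ψ : Ω → ℂ} (hφ : BM φ) (hψ : BM ψ) :
    BM fun z : Ω × Ω => φ z.1 * ψ z.2 :=
  (hφ.comp measurable_fst).mul (hψ.comp measurable_snd)

theorem tri6_zero [Countable G] (hG : Divis G) (hμ : PMP G μ) {Y V W : Fac G μ}
    (h1 : IsNext Y V) (h2 : IsNext V W) {φ ψ : Fin 3 → Ω → ℂ} (hφ : ∀ i, BM (φ i))
    (hψ : ∀ i, BM (ψ i)) (i : Fin 3) (h0 : ∀ᵐ x ∂μ, W.E (φ i) x = 0) (M : InvMean G) :
    M.c (tri6 Y φ ψ) = 0 := by
  obtain ⟨δ, hδb, hδ0, hδ, -⟩ := LemC2_delta hμ h1 h2 (hφ i) (hψ i) h0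
  exact LemC2_all hG M Y.sq (Y.sq_pmp hμ) (Ψ := fun i z => φ i z.1 * ψ i z.2)
    (fun i => LemC2_BM (hφ i) (hψ i)) i δ hδb hδ0 hδ

theorem tri6_zero_snd [Countable G] (hG : Divis G) (hμ : PMP G μ) {Y V W : Fac G μ}
    (h1 : IsNext Y V) (h2 : IsNext V W) {φ ψ : Fin 3 → Ω → ℂ} (hφ : ∀ i, BM (φ i))
    (hψ : ∀ i, BM (ψ i)) (i : Fin 3) (h0 : ∀ᵐ x ∂μ, W.E (ψ i) x = 0) (M : InvMean G) :
    M.c (tri6 Y φ ψ) = 0 := by
  obtain ⟨δ, hδb, hδ0, -, hδ⟩ := LemC2_delta hμ h1 h2 (hψ i) (hφ i) h0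
  exact LemC2_all hG M Y.sq (Y.sq_pmp hμ) (Ψ := fun i z => φ i z.1 * ψ i z.2)
    (fun i => LemC2_BM (hφ i) (hψ i)) i δ hδb hδ0 hδ

end Dadc30
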