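import Pool.Agent.Lib.MP_dadc30_co.LemC2

/-!
# MP_dadc30_co, module LemC3: replacement and the final bound of Lemma C
(proof in the docstring of `LemC2.lean`).
-/

open MeasureTheory ProbabilityTheory Filter Topology
open scoped ENNReal ComplexConjugate

namespace Dadc30

variable {G : Type} [CommGroup G] {Ω : Type} [MeasurableSpace Ω] [MulAction G Ω]
  {μ : Measure Ω} [IsProbabilityMeasure μ]

omit [IsProbabilityMeasure μ] in
/-- the integrand of `tri6` is bounded measurable -/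
theorem LemC3_int_BM (hμ : PMP G μ) {φ ψ : Fin 3 → Ω → ℂ} (hφ : ∀ i, BM (φ i))
    (hψ : ∀ i, BM (ψ i)) (u : G) :
    BM (fun z : Ω × Ω => (φ 0 (u • z.1) * ψ 0 (u • z.2)) *
      (φ 1 (u⁻¹ • z.1) * ψ 1 (u⁻¹ • z.2)) * (φ 2 z.1 * ψ 2 z.2)) := by
  have m1 : ∀ v : G, Measurable fun z : Ω × Ω => v • z.1 :=
    fun v => (hμ v).measurable.comp measurable_fst
  have m2 : ∀ v : G, Measurable fun z : Ω × Ω => v • z.2 :=
    fun v => (hμ v).measurable.comp measurable_snd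
  exact ((((hφ 0).comp (m1 u)).mul ((hψ 0).comp (m2 u))).mul
    (((hφ 1).comp (m1 u⁻¹)).mul ((hψ 1).comp (m2 u⁻¹)))).mul
    (((hφ 2).comp measurable_fst).mul ((hψ 2).comp measurable_snd))

/-- a common bound -/
theorem LemC3_unif {φ : Fin 3 → Ω → ℂ} (hφ : ∀ i, BM (φ i)) :
    ∃ C : ℝ, 0 ≤ C ∧ ∀ i x, ‖φ i x‖ ≤ C := by
  have h : ∀ i, ∃ C : ℝ, 0 < C ∧ ∀ x, ‖φ i x‖ ≤ C := fun i => tri_exists_bound (hφ i).2
  choose C hC0 hC using h
  refine ⟨∑ i, C i, Finset.sum_nonneg fun i _ => (hC0 i).le, fun i x => ?_⟩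
  exact (hC i x).trans (Finset.single_le_sum (f := C) (fun j _ => (hC0 j).le) (Finset.mem_univ i))

theorem LemC3_bdd (Y : Fac G μ) {φ ψ : Fin 3 → Ω → ℂ} (hφ : ∀ i, BM (φ i))
    (hψ : ∀ i, BM (ψ i)) : BddC (tri6 Y φ ψ) := by
  obtain ⟨C, hC0, hC⟩ := LemC3_unif hφ
  obtain ⟨D, hD0, hD⟩ := LemC3_unif hψ
  refine ⟨(C * D) * (C * D) * (C * D), fun u => ?_⟩
  unfold tri6
  refine tri_bound fun z => ?_
  rw [norm_mul, norm_mul, norm_mul, norm_mul, norm_mul]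
  gcongr
  · exact hC _ _
  · exact hD _ _
  · exact hC _ _
  · exact hD _ _
  · exact hC _ _
  · exact hD _ _

theorem LemC3_E_zero (W : Fac G μ) {φ : Ω → ℂ} (hφ : BM φ) :
    ∀ᵐ x ∂μ, W.E (fun y => φ y - W.E φ y) x = 0 := by
  filter_upwards [W.E_self (W.E_BM hφ).2 (W.E_measurable hφ)] with x hx
  rw [W.E_sub hφ (W.E_BM hφ), hx, sub_self]

theorem LemC3_update {φ : Fin 3 → Ω → ℂ} (hφ : ∀ i, BM (φ i)) (i : Fin 3) {f : Ω → ℂ}
    (hf : BM f) : ∀ j, BM (Function.update φ i f j) := by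
  intro j
  by_cases hj : j = i
  · subst hj
    rw [Function.update_self]
    exact hf
  · rw [Function.update_of_ne hj]
    exact hφ j

theorem LemC3_step_fst [Countable G] (hG : Divis G) (hμ : PMP G μ) {Y V W : Fac G μ}
    (h1 : IsNext Y V) (h2 : IsNext V W) {φ ψ : Fin 3 → Ω → ℂ} (hφ : ∀ i, BM (φ i))
    (hψ : ∀ i, BM (ψ i)) (M : InvMean G) (i : Fin 3) :
    M.c (tri6 Y φ ψ) = M.c (tri6 Y (Function.update φ i (W.E (φ i))) ψ) := by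
  have hb1 := LemC3_update hφ i (W.E_BM (hφ i))
  have hb2 := LemC3_update hφ i ((hφ i).sub (W.E_BM (hφ i)))
  have h0 := tri6_zero hG hμ h1 h2 hb2 hψ i (by
    rw [Function.update_self]
    exact LemC3_E_zero W (hφ i)) M
  have e : tri6 Y (Function.update φ i fun x => φ i x - W.E (φ i) x) ψ =
      fun u => tri6 Y φ ψ u - tri6 Y (Function.update φ i (W.E (φ i))) ψ u := by
    funext u
    unfold tri6
    rw [← integral_sub ((LemC3_int_BM hμ hφ hψ u).integrable Y.sq)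
      ((LemC3_int_BM hμ hb1 hψ u).integrable Y.sq)]
    congr 1
    funext z
    fin_cases i <;> simp [Function.update] <;> ring
  rw [e, M.c_sub (LemC3_bdd Y hφ hψ) (LemC3_bdd Y hb1 hψ)] at h0
  exact sub_eq_zero.mp h0

theorem LemC3_step_snd [Countable G] (hG : Divis G) (hμ : PMP G μ) {Y V W : Fac G μ}
    (h1 : IsNext Y V) (h2 : IsNext V W) {φ ψ : Fin 3 → Ω → ℂ} (hφ : ∀ i, BM (φ i))
    (hψ : ∀ i, BM (ψ i)) (M : InvMean G) (i : Fin 3) :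
    M.c (tri6 Y φ ψ) = M.c (tri6 Y φ (Function.update ψ i (W.E (ψ i)))) := by
  have hb1 := LemC3_update hψ i (W.E_BM (hψ i))
  have hb2 := LemC3_update hψ i ((hψ i).sub (W.E_BM (hψ i)))
  have h0 := tri6_zero_snd hG hμ h1 h2 hφ hb2 i (by
    rw [Function.update_self]
    exact LemC3_E_zero W (hψ i)) M
  have e : tri6 Y φ (Function.update ψ i fun x => ψ i x - W.E (ψ i) x) =
      fun u => tri6 Y φ ψ u - tri6 Y φ (Function.update ψ i (W.E (ψ i))) u := by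
    funext u
    unfold tri6
    rw [← integral_sub ((LemC3_int_BM hμ hφ hψ u).integrable Y.sq)
      ((LemC3_int_BM hμ hφ hb1 u).integrable Y.sq)]
    congr 1
    funext z
    fin_cases i <;> simp [Function.update] <;> ring
  rw [e, M.c_sub (LemC3_bdd Y hφ hψ) (LemC3_bdd Y hφ hb1)] at h0
  exact sub_eq_zero.mp h0

theorem LemC3_update_all (W : Fac G μ) (φ : Fin 3 → Ω → ℂ) :
    Function.update (Function.update (Function.update φ 0 (W.E (φ 0))) 1 (W.E (φ 1))) 2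
      (W.E (φ 2)) = fun i => W.E (φ i) := by
  funext i
  fin_cases i <;> simp [Function.update]

theorem LemC3_all_fst [Countable G] (hG : Divis G) (hμ : PMP G μ) {Y V W : Fac G μ}
    (h1 : IsNext Y V) (h2 : IsNext V W) {φ ψ : Fin 3 → Ω → ℂ} (hφ : ∀ i, BM (φ i))
    (hψ : ∀ i, BM (ψ i)) (M : InvMean G) :
    M.c (tri6 Y φ ψ) = M.c (tri6 Y (fun i => W.E (φ i)) ψ) := by
  have b0 := LemC3_update hφ 0 (W.E_BM (hφ 0))
  have s0 := LemC3_step_fst hG hμ h1 h2 hφ hψ M 0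
  have s1 := LemC3_step_fst hG hμ h1 h2 b0 hψ M 1
  have e1 : Function.update φ 0 (W.E (φ 0)) 1 = φ 1 := by simp [Function.update]
  rw [e1] at s1
  have b1 := LemC3_update b0 1 (W.E_BM (hφ 1))
  have s2 := LemC3_step_fst hG hμ h1 h2 b1 hψ M 2
  have e2 : Function.update (Function.update φ 0 (W.E (φ 0))) 1 (W.E (φ 1)) 2 = φ 2 := by
    simp [Function.update]
  rw [e2, LemC3_update_all] at s2
  rw [s0, s1, s2]

theorem LemC3_all_snd [Countable G] (hG : Divis G) (hμ : PMP G μ) {Y V W : Fac G μ}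
    (h1 : IsNext Y V) (h2 : IsNext V W) {φ ψ : Fin 3 → Ω → ℂ} (hφ : ∀ i, BM (φ i))
    (hψ : ∀ i, BM (ψ i)) (M : InvMean G) :
    M.c (tri6 Y φ ψ) = M.c (tri6 Y φ (fun i => W.E (ψ i))) := by
  have b0 := LemC3_update hψ 0 (W.E_BM (hψ 0))
  have s0 := LemC3_step_snd hG hμ h1 h2 hφ hψ M 0
  have s1 := LemC3_step_snd hG hμ h1 h2 hφ b0 M 1
  have e1 : Function.update ψ 0 (W.E (ψ 0)) 1 = ψ 1 := by simp [Function.update]
  rw [e1] at s1
  have b1 := LemC3_update b0 1 (W.E_BM (hψ 1))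
  have s2 := LemC3_step_snd hG hμ h1 h2 hφ b1 M 2
  have e2 : Function.update (Function.update ψ 0 (W.E (ψ 0))) 1 (W.E (ψ 1)) 2 = ψ 2 := by
    simp [Function.update]
  rw [e2, LemC3_update_all] at s2
  rw [s0, s1, s2]

theorem tri6_replace [Countable G] (hG : Divis G) (hμ : PMP G μ) {Y V W : Fac G μ}
    (h1 : IsNext Y V) (h2 : IsNext V W) {φ ψ : Fin 3 → Ω → ℂ} (hφ : ∀ i, BM (φ i))
    (hψ : ∀ i, BM (ψ i)) (M : InvMean G) :
    M.c (tri6 Y φ ψ) = M.c (tri6 Y (fun i => W.E (φ i)) (fun i => W.E (ψ i))) := by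
  rw [LemC3_all_fst hG hμ h1 h2 hφ hψ M,
    LemC3_all_snd hG hμ h1 h2 (fun i => W.E_BM (hφ i)) hψ M]

/-- the product function -/
theorem LemC3_h_eq (hμ : PMP G μ) (Y : Fac G μ) {φ : Fin 3 → Ω → ℂ} (hφ : ∀ i, BM (φ i)) (u : G) :
    ((Y.h (fun x => φ 0 (u • x) * φ 1 (u⁻¹ • x) * φ 2 x) : ℝ) : ℂ) =
      tri6 Y φ (fun i x => conj (φ i x)) u := by
  have hb : BM (fun x => φ 0 (u • x) * φ 1 (u⁻¹ • x) * φ 2 x) :=
    (((hφ 0).comp (hμ u).measurable).mul ((hφ 1).comp (hμ u⁻¹).measurable)).mul (hφ 2)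
  rw [Y.h_eq hb]
  unfold tri6
  congr 1
  funext z
  simp only [map_mul]
  ring

theorem LemC3_h_bdd (hμ : PMP G μ) (Y : Fac G μ) {φ : Fin 3 → Ω → ℂ} (hφ : ∀ i, BM (φ i)) :
    Bdd (fun u : G => Y.h (fun x => φ 0 (u • x) * φ 1 (u⁻¹ • x) * φ 2 x)) := by
  obtain ⟨C, hC⟩ := LemC3_bdd Y hφ (fun i => (hφ i).conj)
  refine ⟨C, fun u => ?_⟩
  have h1 := hC u
  rw [← LemC3_h_eq hμ Y hφ u, Complex.norm_real, Real.norm_eq_abs] at h1
  exact h1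

theorem LemC3_fin_aux [Countable G] (hG : Divis G) (hμ : PMP G μ) {Y V W : Fac G μ}
    (h1 : IsNext Y V) (h2 : IsNext V W) {φ : Fin 3 → Ω → ℂ} (hφ : ∀ i, BM (φ i))
    (M : InvMean G) :
    M.m (fun u => Y.h (fun x => φ 0 (u • x) * φ 1 (u⁻¹ • x) * φ 2 x)) ≤
      M.m (fun u => ∫ x, ‖W.E (φ 0) (u • x)‖ ^ 2 * ‖W.E (φ 1) (u⁻¹ • x)‖ ^ 2 *
        ‖W.E (φ 2) x‖ ^ 2 ∂μ) := by
  have hE : ∀ i, BM (W.E (φ i)) := fun i => W.E_BM (hφ i)
  have hc := tri6_replace hG hμ h1 h2 hφ (fun i => (hφ i).conj) M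
  have e1 : tri6 Y φ (fun i x => conj (φ i x)) =
      fun u => ((Y.h (fun x => φ 0 (u • x) * φ 1 (u⁻¹ • x) * φ 2 x) : ℝ) : ℂ) := by
    funext u
    exact (LemC3_h_eq hμ Y hφ u).symm
  have e2 : (fun i => W.E (fun x => conj (φ i x))) = fun i x => conj (W.E (φ i) x) := by
    funext i x
    exact W.E_conj _ x
  have e3 : tri6 Y (fun i => W.E (φ i)) (fun i x => conj (W.E (φ i) x)) =
      fun u => ((Y.h (fun x => W.E (φ 0) (u • x) * W.E (φ 1) (u⁻¹ • x) * W.E (φ 2) x) : ℝ) : ℂ) := by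
    funext u
    exact (LemC3_h_eq hμ Y hE u).symm
  have hd1 := LemC3_h_bdd hμ Y hφ
  have hd2 := LemC3_h_bdd hμ Y hE
  rw [e2, e1, e3, M.c_ofReal hd1, M.c_ofReal hd2] at hc
  rw [Complex.ofReal_injective hc]
  obtain ⟨C, hC0, hC⟩ := LemC3_unif hE
  refine M.mono' _ _ hd2 ?_ ?_
  · refine ⟨C ^ 2 * C ^ 2 * C ^ 2, fun u => ?_⟩
    have h3 : ∀ x, ‖(‖W.E (φ 0) (u • x)‖ ^ 2 * ‖W.E (φ 1) (u⁻¹ • x)‖ ^ 2 *
        ‖W.E (φ 2) x‖ ^ 2 : ℝ)‖ ≤ C ^ 2 * C ^ 2 * C ^ 2 := by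
      intro x
      rw [Real.norm_eq_abs, abs_of_nonneg (by positivity)]
      gcongr
      · exact hC 0 _
      · exact hC 1 _
      · exact hC 2 _
    have h4 := norm_integral_le_of_norm_le_const (μ := μ) (Filter.Eventually.of_forall h3)
    simpa using h4
  · intro u
    have hb : BM (fun x => W.E (φ 0) (u • x) * W.E (φ 1) (u⁻¹ • x) * W.E (φ 2) x) :=
      (((hE 0).comp (hμ u).measurable).mul ((hE 1).comp (hμ u⁻¹).measurable)).mul (hE 2)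
    refine (Y.h_le hb).trans (le_of_eq ?_)
    congr 1
    funext x
    rw [norm_mul, norm_mul, mul_pow, mul_pow]

theorem lemC_fin [Countable G] (hG : Divis G) (hμ : PMP G μ) {Y V W : Fac G μ}
    (h1 : IsNext Y V) (h2 : IsNext V W) {φ₁ φ₂ φ₃ : Ω → ℂ} (hφ₁ : BM φ₁) (hφ₂ : BM φ₂)
    (hφ₃ : BM φ₃) (M : InvMean G) :
    M.m (fun u => Y.h (fun x => φ₁ (u • x) * φ₂ (u⁻¹ • x) * φ₃ x)) ≤
      M.m (fun u => ∫ x, ‖W.E φ₁ (u • x)‖ ^ 2 * ‖W.E φ₂ (u⁻¹ • x)‖ ^ 2 * ‖W.E φ₃ x‖ ^ 2 ∂μ) := by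
  have hφ : ∀ i, BM ((![φ₁, φ₂, φ₃] : Fin 3 → Ω → ℂ) i) := by
    intro i
    fin_cases i
    · exact hφ₁
    · exact hφ₂
    · exact hφ₃
  exact LemC3_fin_aux hG hμ h1 h2 hφ M

end Dadc30
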