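import Pool.Agent.Lib.MP_dadc30_co.Folner
import Pool.Agent.Lib.MP_dadc30_co.Chars

/-!
# MP_dadc30_co, module Loc1: Følner averages of discontinuous characters modulo `ε` tend to 0.

(a) If `ξ : A₀ → Circle` is additive and discontinuous then for every `δ > 0` there is
`v ∈ A₀`, `0 < v < δ`, `|ξ v - 1| ≥ 1` (if `|ξ v - 1| < 1` for all `|v| < δ` then halving the
argument: `|ξ(v/2^k) - 1|` is small, `ξ(v/2)² = ξ(v)` with both within distance 1 of 1, so
`|ξ(v/2) - 1| ≤ |ξ(v) - 1|/√2`-like; hence `ξ` is continuous at 0).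
(b) Let `φ t = ξ(tmod ε t)`.  For `0 < v < ε`: `φ(t+v) = φ(t) ξ(v)` unless
`tmod ε t ≥ ε - v`, so `|φ(t+v) - φ(t)ξ(v)| ≤ 2·1[tmod ε t ∈ [ε-v, ε)]`.  The averages of the
indicator of `{tmod ε t ∈ [ε-v,ε)}` have limsup `≤ 1/⌊ε/v⌋` (its translates by `0, v, 2v, …` are
disjoint).  Therefore `|ξ v - 1| |avg φ| ≤ 2 e n v + 2 avg(1[…])`, so `limsup |avg φ| ≤ 2/⌊ε/v⌋`
for all the `v` of (a): `avg φ → 0`.
(c) dominated convergence.
-/

open MeasureTheory ProbabilityTheory Filter Topology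
open scoped ENNReal ComplexConjugate

namespace Dadc30

/-- doubling on the circle -/
theorem loc1_double {z : ℂ} (hz : ‖z‖ = 1) (h : ‖z - 1‖ ≤ 1) :
    ‖z - 1‖ ≤ (2 / 3) * ‖z * z - 1‖ := by
  have h1 := parallelogram_law_with_norm ℝ z (1 : ℂ)
  rw [hz, norm_one] at h1
  have h2 : (3 / 2 : ℝ) ≤ ‖z + 1‖ := by
    by_contra hcon
    push Not at hcon
    nlinarith [norm_nonneg (z + 1), norm_nonneg (z - 1)]
  have h3 : z * z - 1 = (z - 1) * (z + 1) := by ring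
  rw [h3, norm_mul]
  nlinarith [norm_nonneg (z - 1)]

theorem disc_small {ξ : A₀ → Circle} (hadd : ∀ a b, ξ (a + b) = ξ a * ξ b) (hd : DiscA ξ)
    (δ : ℝ) (hδ : 0 < δ) :
    ∃ v : A₀, 0 < (v : ℝ) ∧ (v : ℝ) < δ ∧ 1 ≤ ‖((ξ v : Circle) : ℂ) - 1‖ := by
  by_contra hcon
  push Not at hcon
  have h0 : ξ 0 = 1 := by
    have h := hadd 0 0
    rw [add_zero] at h
    exact left_eq_mul.1 h
  have hneg : ∀ t : A₀, ‖((ξ (-t) : Circle) : ℂ) - 1‖ = ‖((ξ t : Circle) : ℂ) - 1‖ := by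
    intro t
    have h := hadd t (-t)
    rw [add_neg_cancel, h0] at h
    have h1 : ((ξ t : Circle) : ℂ) * ((ξ (-t) : Circle) : ℂ) = 1 := by
      rw [← Circle.coe_mul, ← h, Circle.coe_one]
    have h2 : ((ξ t : Circle) : ℂ) * (((ξ (-t) : Circle) : ℂ) - 1) =
        - (((ξ t : Circle) : ℂ) - 1) := by
      rw [mul_sub, h1]; ring
    have h3 := congrArg norm h2
    rw [norm_mul, Circle.norm_coe, one_mul, norm_neg] at h3
    exact h3
  have h1 : ∀ t : A₀, |(t : ℝ)| < δ → ‖((ξ t : Circle) : ℂ) - 1‖ ≤ 1 := by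
    intro t ht
    rcases lt_trichotomy (t : ℝ) 0 with h | h | h
    · rw [← hneg]
      refine (hcon (-t) ?_ ?_).le
      · push_cast; linarith
      · push_cast; rw [abs_of_neg h] at ht; exact ht
    · have : t = 0 := by exact_mod_cast h
      rw [this, h0]
      simp
    · rw [abs_of_pos h] at ht
      exact (hcon t h ht).le
  have h2 : ∀ k : ℕ, ∀ t : A₀, |(t : ℝ)| < δ / 2 ^ k →
      ‖((ξ t : Circle) : ℂ) - 1‖ ≤ (2 / 3) ^ k := by
    intro k
    induction k with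
    | zero =>
      intro t ht
      rw [pow_zero, div_one] at ht
      rw [pow_zero]
      exact h1 t ht
    | succ k ih =>
      intro t ht
      have ht1 : |(t : ℝ)| < δ := by
        refine ht.trans_le (div_le_self hδ.le ?_)
        exact one_le_pow₀ (by norm_num)
      have ht2 : |((t + t : A₀) : ℝ)| < δ / 2 ^ k := by
        push_cast
        rw [← two_mul, abs_mul, abs_two]
        have : δ / 2 ^ (k + 1) = δ / 2 ^ k / 2 := by rw [pow_succ, div_div]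
        rw [this] at ht
        linarith
      have h3 := ih (t + t) ht2
      rw [hadd, Circle.coe_mul] at h3
      have h4 := loc1_double (Circle.norm_coe (ξ t)) (h1 t ht1)
      rw [pow_succ]
      linarith
  apply hd
  intro ε hε
  obtain ⟨k, hk⟩ := exists_pow_lt_of_lt_one hε (show (2 / 3 : ℝ) < 1 by norm_num)
  exact ⟨δ / 2 ^ k, by positivity, fun t ht => (h2 k t ht).trans_lt hk⟩

theorem loc1_avg_sub (c : A₀ →₀ ℝ) (φ ψ : A₀ → ℝ) :
    avg c (fun t => φ t - ψ t) = avg c φ - avg c ψ := by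
  unfold avg Finsupp.sum
  rw [← Finset.sum_sub_distrib]
  exact Finset.sum_congr rfl fun g _ => mul_sub _ _ _

theorem loc1_avgC_sub (c : A₀ →₀ ℝ) (φ ψ : A₀ → ℂ) :
    avgC c (fun t => φ t - ψ t) = avgC c φ - avgC c ψ := by
  unfold avgC Finsupp.sum
  rw [← Finset.sum_sub_distrib]
  exact Finset.sum_congr rfl fun g _ => mul_sub _ _ _

theorem loc1_avg_const (c : A₀ →₀ ℝ) (h1 : (c.sum fun _ r => r) = 1) (a : ℝ) :
    avg c (fun _ => a) = a := by
  unfold avg Finsupp.sum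
  rw [← Finset.sum_mul]
  have : ∑ g ∈ c.support, c g = 1 := h1
  rw [this, one_mul]

theorem loc1_norm_avgC (c : A₀ →₀ ℝ) (h0 : ∀ g, 0 ≤ c g) {φ : A₀ → ℂ} {ψ : A₀ → ℝ}
    (h : ∀ t, ‖φ t‖ ≤ ψ t) : ‖avgC c φ‖ ≤ avg c ψ := by
  unfold avgC avg Finsupp.sum
  refine (norm_sum_le _ _).trans (Finset.sum_le_sum fun g _ => ?_)
  rw [norm_mul, Complex.norm_real, Real.norm_eq_abs, abs_of_nonneg (h0 g)]
  exact mul_le_mul_of_nonneg_left (h g) (h0 g)

/-- the carry of the addition of `v` modulo `ε` -/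
noncomputable def loc1_carry (ε v t : A₀) : ℤ :=
  ⌊((t + v : A₀) : ℝ) / (ε : ℝ)⌋ - ⌊(t : ℝ) / (ε : ℝ)⌋

theorem loc1_carry_cases {ε v : A₀} (hε : 0 < (ε : ℝ)) (hv : 0 < (v : ℝ))
    (hvε : (v : ℝ) < (ε : ℝ)) (t : A₀) : loc1_carry ε v t = 0 ∨ loc1_carry ε v t = 1 := by
  unfold loc1_carry
  have h1 : ((t + v : A₀) : ℝ) / (ε : ℝ) = (t : ℝ) / (ε : ℝ) + (v : ℝ) / (ε : ℝ) := by
    push_cast
    rw [add_div]
  have h2 : 0 ≤ (v : ℝ) / (ε : ℝ) := by positivity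
  have h3 : (v : ℝ) / (ε : ℝ) < 1 := (div_lt_one hε).2 hvε
  rw [h1]
  have h4 : ⌊(t : ℝ) / (ε : ℝ)⌋ ≤ ⌊(t : ℝ) / (ε : ℝ) + (v : ℝ) / (ε : ℝ)⌋ :=
    Int.floor_mono (by linarith)
  have h5 : ⌊(t : ℝ) / (ε : ℝ) + (v : ℝ) / (ε : ℝ)⌋ ≤ ⌊(t : ℝ) / (ε : ℝ)⌋ + 1 := by
    have h6 : ⌊(t : ℝ) / (ε : ℝ) + (v : ℝ) / (ε : ℝ)⌋ ≤ ⌊(t : ℝ) / (ε : ℝ) + 1⌋ :=
      Int.floor_mono (by linarith)
    rwa [Int.floor_add_one] at h6
  omega

theorem loc1_fract {ε v : A₀} (t : A₀) :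
    Int.fract (((t + v : A₀) : ℝ) / (ε : ℝ)) - Int.fract ((t : ℝ) / (ε : ℝ)) =
      (v : ℝ) / (ε : ℝ) - (loc1_carry ε v t : ℝ) := by
  unfold loc1_carry Int.fract
  push_cast
  rw [add_div]
  ring

theorem loc1_phi {ξ : A₀ → Circle} (hadd : ∀ a b, ξ (a + b) = ξ a * ξ b) {ε v : A₀}
    (hε : 0 < (ε : ℝ)) (hv : 0 < (v : ℝ)) (hvε : (v : ℝ) < (ε : ℝ)) (t : A₀) :
    ‖((ξ (tmod ε t) : Circle) : ℂ) * ((ξ v : Circle) : ℂ) -
      ((ξ (tmod ε (t + v)) : Circle) : ℂ)‖ ≤ 2 * (loc1_carry ε v t : ℝ) := by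
  rcases loc1_carry_cases hε hv hvε t with h | h
  · have h1 : tmod ε (t + v) = tmod ε t + v := by
      unfold tmod
      have h2 : ⌊((t + v : A₀) : ℝ) / (ε : ℝ)⌋ = ⌊(t : ℝ) / (ε : ℝ)⌋ := by
        unfold loc1_carry at h
        omega
      rw [h2]
      abel
    rw [h1, hadd, Circle.coe_mul, sub_self, h]
    simp
  · rw [h]
    refine (norm_sub_le _ _).trans ?_
    rw [norm_mul, Circle.norm_coe, Circle.norm_coe, Circle.norm_coe]
    norm_num

/-- the basic estimate -/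
theorem loc1_est (F : FolnerSeq A₀) {ξ : A₀ → Circle} (hadd : ∀ a b, ξ (a + b) = ξ a * ξ b)
    {ε v : A₀} (hε : 0 < (ε : ℝ)) (hv : 0 < (v : ℝ)) (hvε : (v : ℝ) < (ε : ℝ))
    (h1 : 1 ≤ ‖((ξ v : Circle) : ℂ) - 1‖) (n : ℕ) :
    ‖avgC (F.c n) (fun t => ((ξ (tmod ε t) : Circle) : ℂ))‖ ≤
      2 * ((v : ℝ) / (ε : ℝ)) + 4 * F.e n v := by
  set φ : A₀ → ℂ := fun t => ((ξ (tmod ε t) : Circle) : ℂ) with hφ
  -- the average of the carry
  have hc : avg (F.c n) (fun t => (loc1_carry ε v t : ℝ)) ≤ (v : ℝ) / (ε : ℝ) + F.e n v := by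
    have h2 := F.inv n v (fun t => Int.fract ((t : ℝ) / (ε : ℝ))) (fun t => by
      rw [abs_of_nonneg (Int.fract_nonneg _)]
      exact (Int.fract_lt_one _).le)
    rw [← loc1_avg_sub] at h2
    have h3 : (fun t : A₀ => Int.fract (((t + v : A₀) : ℝ) / (ε : ℝ)) -
        Int.fract ((t : ℝ) / (ε : ℝ))) = fun t => (v : ℝ) / (ε : ℝ) - (loc1_carry ε v t : ℝ) :=
      funext fun t => loc1_fract t
    rw [h3, loc1_avg_sub, loc1_avg_const _ (F.one n)] at h2
    have := (abs_le.1 h2).1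
    linarith
  -- the two differences
  have hA : ‖avgC (F.c n) (fun t => φ t * ((ξ v : Circle) : ℂ) - φ (t + v))‖ ≤
      2 * avg (F.c n) (fun t => (loc1_carry ε v t : ℝ)) := by
    have h2 := loc1_norm_avgC (F.c n) (F.nonneg n)
      (φ := fun t => φ t * ((ξ v : Circle) : ℂ) - φ (t + v))
      (ψ := fun t => 2 * (loc1_carry ε v t : ℝ)) (fun t => loc1_phi hadd hε hv hvε t)
    refine h2.trans (le_of_eq ?_)
    unfold avg Finsupp.sum
    rw [Finset.mul_sum]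
    exact Finset.sum_congr rfl fun g _ => by ring
  have hB := F.invC n v φ (fun t => (Circle.norm_coe _).le)
  have hC : avgC (F.c n) (fun t => φ t * ((ξ v : Circle) : ℂ)) =
      avgC (F.c n) φ * ((ξ v : Circle) : ℂ) := by
    unfold avgC Finsupp.sum
    rw [Finset.sum_mul]
    exact Finset.sum_congr rfl fun g _ => by ring
  rw [loc1_avgC_sub, hC] at hA
  have hD : ‖avgC (F.c n) φ * (((ξ v : Circle) : ℂ) - 1)‖ ≤
      2 * avg (F.c n) (fun t => (loc1_carry ε v t : ℝ)) + 2 * F.e n v := by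
    have e : avgC (F.c n) φ * (((ξ v : Circle) : ℂ) - 1) =
        (avgC (F.c n) φ * ((ξ v : Circle) : ℂ) - avgC (F.c n) (fun t => φ (t + v))) +
          (avgC (F.c n) (fun t => φ (t + v)) - avgC (F.c n) φ) := by ring
    rw [e]
    exact (norm_add_le _ _).trans (add_le_add hA hB)
  rw [norm_mul] at hD
  have hE : ‖avgC (F.c n) φ‖ ≤ ‖avgC (F.c n) φ‖ * ‖((ξ v : Circle) : ℂ) - 1‖ :=
    le_mul_of_one_le_right (norm_nonneg _) h1
  linarith

theorem avg_disc (F : FolnerSeq A₀) {ξ : A₀ → Circle} (hadd : ∀ a b, ξ (a + b) = ξ a * ξ b)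
    (hd : DiscA ξ) (ε : A₀) (hε : 0 < (ε : ℝ)) :
    Tendsto (fun n => avgC (F.c n) (fun t => ((ξ (tmod ε t) : Circle) : ℂ))) atTop (𝓝 0) := by
  rw [Metric.tendsto_nhds]
  intro η hη
  obtain ⟨v, hv, hvδ, h1⟩ := disc_small hadd hd (min (ε : ℝ) (η * ε / 4))
    (lt_min hε (by positivity))
  have hvε : (v : ℝ) < (ε : ℝ) := hvδ.trans_le (min_le_left _ _)
  have hvη : (v : ℝ) < η * ε / 4 := hvδ.trans_le (min_le_right _ _)
  have h2 : 2 * ((v : ℝ) / (ε : ℝ)) < η / 2 := by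
    have h3 : (v : ℝ) / (ε : ℝ) < η / 4 := by
      rw [div_lt_iff₀ hε]
      linarith
    linarith
  have h4 : ∀ᶠ n in atTop, F.e n v < η / 8 :=
    (F.e_tendsto v).eventually_lt_const (by positivity)
  filter_upwards [h4] with n hn
  rw [dist_zero_right]
  have h5 := loc1_est F hadd hε hv hvε h1 n
  linarith

theorem loc1 (F : FolnerSeq A₀) {S : Type} [MeasurableSpace S] (P : Measure S)
    [IsProbabilityMeasure P] (ξ : S → A₀ → Circle) (hm : ∀ t, Measurable fun s => ξ s t)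
    (hadd : ∀ s a b, ξ s (a + b) = ξ s a * ξ s b) (hd : ∀ᵐ s ∂P, DiscA (ξ s)) (ε : A₀)
    (hε : 0 < (ε : ℝ)) :
    Tendsto (fun n => avgC (F.c n) (fun t => ∫ s, ((ξ s (tmod ε t) : Circle) : ℂ) ∂P))
      atTop (𝓝 0) := by
  have hcc : Continuous (fun z : Circle => (z : ℂ)) := continuous_subtype_val
  have hcm : Measurable (fun z : Circle => (z : ℂ)) := hcc.measurable
  have hm' : ∀ t, Measurable fun s => ((ξ s t : Circle) : ℂ) := fun t => hcm.comp (hm t)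
  have e : ∀ n, avgC (F.c n) (fun t => ∫ s, ((ξ s (tmod ε t) : Circle) : ℂ) ∂P) =
      ∫ s, avgC (F.c n) (fun t => ((ξ s (tmod ε t) : Circle) : ℂ)) ∂P := by
    intro n
    unfold avgC Finsupp.sum
    rw [integral_finsetSum]
    · exact Finset.sum_congr rfl fun g _ => (integral_const_mul _ _).symm
    · intro g _
      refine (Integrable.of_bound (hm' _).aestronglyMeasurable 1
        (Eventually.of_forall fun s => ?_)).const_mul _
      rw [Circle.norm_coe]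
  simp only [e]
  have h0 : (0 : ℂ) = ∫ _ : S, (0 : ℂ) ∂P := by simp
  rw [h0]
  refine tendsto_integral_of_dominated_convergence (fun _ => 1) (fun n => ?_)
    (integrable_const _) (fun n => Eventually.of_forall fun s => ?_) ?_
  · refine Measurable.aestronglyMeasurable ?_
    unfold avgC Finsupp.sum
    exact Finset.measurable_fun_sum _ fun g _ => (hm' _).const_mul _
  · have h1 := loc1_norm_avgC (F.c n) (F.nonneg n)
      (φ := fun t => ((ξ s (tmod ε t) : Circle) : ℂ)) (ψ := fun _ => 1)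
      (fun t => by rw [Circle.norm_coe])
    rwa [loc1_avg_const _ (F.one n)] at h1
  · filter_upwards [hd] with s hs
    exact avg_disc F (hadd s) hs ε hε

end Dadc30
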