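import Pool.Agent.Lib.MP_dadc30_co.Bochner
import Pool.Agent.Lib.MP_dadc30_co.FtUnique
import Pool.Agent.Lib.MP_dadc30_co.Key

/-!
# MP_dadc30_co, module Split: radial positive definite functions on `K` are continuous off 0.

`σ` from `bochner`, invariant by `pmp_of_ft`; `σ_s = σ.restrict Xcᶜ` is invariant
(`Xc_smul`) and `σ_s Xc = 0`, so `ft σ_s z = 0` for `z ≠ 0` (`key`).  `g z = Re ft (σ.restrict Xc) z`.
Uniform continuity: `|g z - g z'| ≤ ∫_{Xc} |χ_{z-z'}(x) - 1| dσ → 0` as `|z - z'| → 0`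
(dominated convergence along sequences). -/

open MeasureTheory ProbabilityTheory Filter Topology
open scoped ENNReal ComplexConjugate

namespace Dadc30

theorem Split_integrable (τ : Measure X) [IsFiniteMeasure τ] (z : K) : Integrable (chi z) τ :=
  Integrable.of_bound (measurable_chi z).aestronglyMeasurable 1
    (Eventually.of_forall fun x => (chi_norm z x).le)

/-- the modulus of continuity of the transform of a measure carried by the continuous characters -/
theorem Split_small (τ : Measure X) [IsFiniteMeasure τ] (hτ : ∀ᵐ x ∂τ, x ∈ Xc) (ε : ℝ)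
    (hε : 0 < ε) : ∃ δ > (0 : ℝ), ∀ w : K, ‖(w : ℂ)‖ < δ → ∫ x, ‖chi w x - 1‖ ∂τ < ε := by
  by_contra hcon
  push Not at hcon
  have h1 : ∀ n : ℕ, ∃ w : K, ‖(w : ℂ)‖ < 1 / ((n : ℝ) + 1) ∧ ε ≤ ∫ x, ‖chi w x - 1‖ ∂τ :=
    fun n => hcon (1 / ((n : ℝ) + 1)) (by positivity)
  choose w hw1 hw2 using h1
  have h2 : Tendsto (fun n => ∫ x, ‖chi (w n) x - 1‖ ∂τ) atTop (𝓝 (∫ _x : X, (0 : ℝ) ∂τ)) := by
    refine tendsto_integral_of_dominated_convergence (fun _ => (2 : ℝ)) ?_ ?_ ?_ ?_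
    · intro n
      exact ((measurable_chi (w n)).sub_const 1).norm.aestronglyMeasurable
    · exact integrable_const 2
    · intro n
      refine Eventually.of_forall fun x => ?_
      rw [norm_norm]
      calc ‖chi (w n) x - 1‖ ≤ ‖chi (w n) x‖ + ‖(1 : ℂ)‖ := norm_sub_le _ _
        _ = 2 := by rw [chi_norm, norm_one]; norm_num
    · filter_upwards [hτ] with x hx
      rw [Metric.tendsto_atTop]
      intro η hη
      obtain ⟨δ, hδ, h⟩ := hx η hη
      obtain ⟨N, hN⟩ := exists_nat_one_div_lt hδ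
      refine ⟨N, fun n hn => ?_⟩
      have h3 : ‖(w n : ℂ)‖ < δ := by
        refine (hw1 n).trans_le (le_trans ?_ hN.le)
        have : (N : ℝ) ≤ n := by exact_mod_cast hn
        exact one_div_le_one_div_of_le (by positivity) (by linarith)
      rw [Real.dist_eq, sub_zero, abs_of_nonneg (norm_nonneg _)]
      exact h (w n) h3
  rw [integral_zero] at h2
  obtain ⟨n, hn⟩ := (h2.eventually (gt_mem_nhds hε)).exists
  exact absurd (hw2 n) (not_le.2 hn)

theorem split (f : K → ℝ) (hsym : ∀ z, f (-z) = f z)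
    (hpos : ∀ (s : Finset K) (a : K → ℂ),
      0 ≤ (∑ x ∈ s, ∑ y ∈ s, a x * conj (a y) * ((f (x - y) : ℝ) : ℂ)).re)
    (hrad : ∀ (w : Γ₀) z, f (toK w * z) = f z) :
    ∃ g : K → ℝ, (∀ z, z ≠ 0 → f z = g z) ∧
      ∀ ε > (0 : ℝ), ∃ δ > (0 : ℝ), ∀ z z' : K, ‖((z - z' : K) : ℂ)‖ < δ → |g z - g z'| < ε := by
  obtain ⟨σ, hfin, hσ⟩ := bochner f hsym hpos
  have hP : PMP Γ₀ σ := pmp_of_ft σ (fun w z => by rw [hσ, hσ, hrad])
  have hPs : PMP Γ₀ (σ.restrict Xcᶜ) := by
    intro w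
    have h1 := (hP w).restrict_preimage (measurableSet_Xc.compl)
    have h2 : (fun x : X => w • x) ⁻¹' Xcᶜ = Xcᶜ := by
      ext x
      simp only [Set.mem_preimage, Set.mem_compl_iff, Xc_smul]
    rwa [h2] at h1
  have h0 : (σ.restrict Xcᶜ) Xc = 0 := by
    rw [Measure.restrict_apply measurableSet_Xc, Set.inter_compl_self, measure_empty]
  have hc : ∀ᵐ x ∂(σ.restrict Xc), x ∈ Xc := ae_restrict_mem measurableSet_Xc
  refine ⟨fun z => (ft (σ.restrict Xc) z).re, ?_, ?_⟩
  · intro z hz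
    have h1 : ft σ z = ft (σ.restrict Xc) z + ft (σ.restrict Xcᶜ) z :=
      (integral_add_compl measurableSet_Xc (Split_integrable σ z)).symm
    rw [key (σ.restrict Xcᶜ) hPs h0 z hz, add_zero, hσ] at h1
    show f z = (ft (σ.restrict Xc) z).re
    rw [← h1, Complex.ofReal_re]
  · intro ε hε
    obtain ⟨δ, hδ, h⟩ := Split_small (σ.restrict Xc) hc ε hε
    refine ⟨δ, hδ, fun z z' hz => ?_⟩
    have h1 : ft (σ.restrict Xc) z - ft (σ.restrict Xc) z' =
        ∫ x, (chi z x - chi z' x) ∂(σ.restrict Xc) :=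
      (integral_sub (Split_integrable _ z) (Split_integrable _ z')).symm
    have h2 : ∀ x : X, ‖chi z x - chi z' x‖ = ‖chi (z - z') x - 1‖ := by
      intro x
      have h3 : chi z x - chi z' x = (chi (z - z') x - 1) * chi z' x := by
        have h4 : chi z x = chi (z - z') x * chi z' x := by
          rw [← chi_add, sub_add_cancel]
        rw [h4]; ring
      rw [h3, norm_mul, chi_norm, mul_one]
    calc |(ft (σ.restrict Xc) z).re - (ft (σ.restrict Xc) z').re|
        = |(ft (σ.restrict Xc) z - ft (σ.restrict Xc) z').re| := by rw [Complex.sub_re]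
      _ ≤ ‖ft (σ.restrict Xc) z - ft (σ.restrict Xc) z'‖ := Complex.abs_re_le_norm _
      _ = ‖∫ x, (chi z x - chi z' x) ∂(σ.restrict Xc)‖ := by rw [h1]
      _ ≤ ∫ x, ‖chi z x - chi z' x‖ ∂(σ.restrict Xc) := norm_integral_le_integral_norm _
      _ = ∫ x, ‖chi (z - z') x - 1‖ ∂(σ.restrict Xc) := by simp only [h2]
      _ < ε := h _ hz

end Dadc30
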