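import Pool.Agent.Lib.MP_dadc30_co.Law3
import Pool.Agent.Lib.MP_dadc30_co.Split
import Pool.Agent.Lib.MP_dadc30_co.Field3
import Pool.Agent.Lib.MP_dadc30_co.Tile

/-!
# MP_dadc30_co, module Lower: the hard inequality `c ≤ m_1`.

If `c ≤ 0` use `m1C_nonneg`.  Otherwise `P` from `exists_law`, `f z = pp P z 0`
(even by stationarity and symmetry, radial, positive definite by `pp_posDef`), `p = f 0 ≥ c`;
`g` from `split`; `pp P a b = f (a - b) = g (a - b)` for `a ≠ b`, `g u = 0` for `|u| = 1`.  For every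
`R > 0`: `exists_field`, `exists_sample`, `density_avoid`, `tile`:
`p (2R)²/(2R+2)² ≤ m1C`; let `R → ∞`. -/

open MeasureTheory ProbabilityTheory Filter Topology
open scoped ENNReal ComplexConjugate

namespace Dadc30

theorem ratio_le_m1C {c : ℝ} (h : HasRatio c) : c ≤ m1C := by
  rcases le_or_gt c 0 with hc | hc
  · exact hc.trans m1C_nonneg
  obtain ⟨P, hP, hst, hrot, h1, hcp⟩ := exists_law hc.le h
  have hsymP : ∀ a b, pp P a b = pp P b a := by
    intro a b
    unfold pp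
    congr 2
    ext ω
    exact and_comm
  have hfab : ∀ a b, pp P a b = pp P (a - b) 0 := by
    intro a b
    have h2 := hst (a - b) 0 b
    rwa [sub_add_cancel, zero_add] at h2
  have hfsym : ∀ z : K, pp P (-z) 0 = pp P z 0 := by
    intro z
    rw [hsymP (-z) 0, hfab 0 (-z), zero_sub, neg_neg]
  have hrad : ∀ (w : Γ₀) (z : K), pp P (toK w * z) 0 = pp P z 0 := by
    intro w z
    have h2 := hrot w z 0
    rwa [mul_zero] at h2
  obtain ⟨g, hg, hgc⟩ := split (fun z => pp P z 0) hfsym (pp_posDef P hst) hrad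
  have hp : ∀ a, pp P a a = pp P 0 0 := by
    intro a
    have h2 := hst 0 0 a
    rwa [zero_add] at h2
  have hg' : ∀ a b : K, a ≠ b → pp P a b = g (a - b) := by
    intro a b hab
    rw [hfab a b]
    exact hg _ (sub_ne_zero.2 hab)
  have hg1 : ∀ u : K, ‖(u : ℂ)‖ = 1 → g u = 0 := by
    intro u hu
    have hu0 : u ≠ 0 := by
      rintro rfl
      simp at hu
    rw [← hg u hu0]
    have h2 := h1 u 0
    rw [sub_zero] at h2
    exact h2 hu
  have key : ∀ R : ℝ, 0 < R → pp P 0 0 * (2 * R) ^ 2 / (2 * R + 2) ^ 2 ≤ m1C := by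
    intro R hR
    obtain ⟨H, hH, hH1, hH2, hH3⟩ := exists_field P hp g hg' hgc hg1 R hR
    obtain ⟨A₀, hA0, hA0m, hvol, hA0u⟩ := exists_sample P R hR H hH hH1 hH2 hH3
    obtain ⟨A, hA, hAm, hAv, hAa⟩ := density_avoid A₀ hA0m hA0u
    refine le_trans ?_ (tile R hR A hAm (hA.trans hA0) hAa)
    rw [hAv]
    exact div_le_div_of_nonneg_right hvol (by positivity)
  have key2 : ∀ R : ℝ, 0 < R → pp P 0 0 ≤ m1C * (1 + R⁻¹) ^ 2 := by
    intro R hR
    have h2 := key R hR
    rw [div_le_iff₀ (by positivity)] at h2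
    have h3 : (2 * R + 2) ^ 2 = (2 * R) ^ 2 * (1 + R⁻¹) ^ 2 := by
      field_simp
    rw [h3] at h2
    have h4 : 0 < (2 * R) ^ 2 := by positivity
    nlinarith
  have hlim : Tendsto (fun R : ℝ => m1C * (1 + R⁻¹) ^ 2) atTop (𝓝 (m1C * (1 + 0) ^ 2)) :=
    ((tendsto_const_nhds.add tendsto_inv_atTop_zero).pow 2).const_mul _
  have hfin : pp P 0 0 ≤ m1C * (1 + 0) ^ 2 :=
    ge_of_tendsto hlim ((eventually_gt_atTop 0).mono key2)
  rw [add_zero, one_pow, mul_one] at hfin
  exact hcp.trans hfin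

end Dadc30
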