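import Pool.Agent.Lib.MP_dadc30_co.Inv

/-!
# MP_dadc30_co, module MET: the mean ergodic theorem for an arbitrary invariant mean.

Proof of `met_exists`.  For a mean `M` the vectors `φ u = conj (B(u⁻¹ • ·))` of `L²` have a weak
mean `b ∈ L²`, `⟨b, a⟩ = M_u ⟨φ u, a⟩` (Riesz representation, `MET_weak`).  It is invariant under all
Koopman operators, so (`G` is countable) it has a strictly invariant version, and `‖b‖ ≤ C` almost
everywhere (test with `1_{‖b‖ > C} b/‖b‖`); this gives `B'` for the given mean (`MET_one`).  Two such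
functions for two means agree almost everywhere: their difference `D` is invariant and bounded and
`∫ ψ D = ∫ ψ B - ∫ ψ B = 0` for every invariant bounded `ψ`, take `ψ = conj D` (`MET_unique`).
-/

open MeasureTheory ProbabilityTheory Filter Topology
open scoped ENNReal ComplexConjugate

namespace Dadc30

variable {G : Type} [CommGroup G] {Ω : Type} [MeasurableSpace Ω] [MulAction G Ω]

/-- change of variables -/
theorem MET_int_smul {μ : Measure Ω} (hμ : PMP G μ) {f : Ω → ℂ} (hf : Measurable f) (u : G) :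
    ∫ x, f (u • x) ∂μ = ∫ x, f x ∂μ := by
  have h := integral_map (μ := μ) (φ := fun x : Ω => u • x) (hμ u).measurable.aemeasurable
    (f := f) hf.aestronglyMeasurable
  rw [(hμ u).map_eq] at h
  exact h.symm

/-- weak mean of a bounded family of vectors of a Hilbert space -/
theorem MET_weak (M : InvMean G) {H : Type*} [NormedAddCommGroup H] [InnerProductSpace ℂ H]
    [CompleteSpace H] (φ : G → H) {C : ℝ} (hφ : ∀ u, ‖φ u‖ ≤ C) :
    ∃ b : H, ∀ a : H, inner ℂ b a = M.c (fun u => inner ℂ (φ u) a) := by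
  have hbd : ∀ (a : H) (u : G), ‖(inner ℂ (φ u) a : ℂ)‖ ≤ C * ‖a‖ := fun a u =>
    (norm_inner_le_norm _ _).trans (mul_le_mul_of_nonneg_right (hφ u) (norm_nonneg _))
  have hB : ∀ a : H, BddC (fun u => (inner ℂ (φ u) a : ℂ)) := fun a => ⟨C * ‖a‖, hbd a⟩
  let Λ : H →ₗ[ℂ] ℂ :=
    { toFun := fun a => M.c (fun u => inner ℂ (φ u) a)
      map_add' := fun a a' => by
        rw [← M.c_add (hB a) (hB a')]
        simp only [inner_add_right]
      map_smul' := fun c a => by
        simp only [inner_smul_right, RingHom.id_apply, smul_eq_mul]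
        rw [M.c_smul c (hB a)] }
  refine ⟨(InnerProductSpace.toDual ℂ H).symm (Λ.mkContinuous C (fun a => ?_)), fun a => ?_⟩
  · exact M.norm_c_le_of_le (hbd a)
  · rw [InnerProductSpace.toDual_symm_apply]
    rfl

/-- strictly invariant version of an invariant function -/
theorem MET_strict [Countable G] {μ : Measure Ω} (hμ : PMP G μ) {b : Ω → ℂ} (hb : Measurable b)
    (h : ∀ g : G, ∀ᵐ x ∂μ, b (g • x) = b x) :
    ∃ b' : Ω → ℂ, Measurable b' ∧ (∀ (g : G) x, b' (g • x) = b' x) ∧ ∀ᵐ x ∂μ, b' x = b x := by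
  classical
  set S : Set Ω := {x | ∀ g : G, b (g • x) = b x} with hS
  have hSm : MeasurableSet S := by
    have : S = ⋂ g : G, {x | b (g • x) = b x} := by
      ext x; simp [hS]
    rw [this]
    exact MeasurableSet.iInter fun g =>
      measurableSet_eq_fun (hb.comp (hμ g).measurable) hb
  have hSinv : ∀ (g : G) x, x ∈ S → g • x ∈ S := by
    intro g x hx g'
    rw [smul_smul, hx (g' * g), hx g]
  have hSiff : ∀ (g : G) x, g • x ∈ S ↔ x ∈ S := by
    intro g x
    constructor
    · intro hx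
      have := hSinv g⁻¹ _ hx
      rwa [inv_smul_smul] at this
    · exact hSinv g x
  refine ⟨S.indicator b, hb.indicator hSm, fun g x => ?_, ?_⟩
  · by_cases hx : x ∈ S
    · rw [Set.indicator_of_mem ((hSiff g x).2 hx), Set.indicator_of_mem hx]
      exact hx g
    · rw [Set.indicator_of_notMem (fun h' => hx ((hSiff g x).1 h')), Set.indicator_of_notMem hx]
  · filter_upwards [ae_all_iff.2 h] with x hx
    exact Set.indicator_of_mem (show x ∈ S from hx) b

/-- the Koopman operator -/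
noncomputable def METT {μ : Measure Ω} (hμ : PMP G μ) (w : G) :
    Lp ℂ 2 μ →ₗᵢ[ℂ] Lp ℂ 2 μ :=
  Lp.compMeasurePreservingₗᵢ ℂ (fun x : Ω => w • x) (hμ w)

theorem METT_coe {μ : Measure Ω} (hμ : PMP G μ) (w : G) (f : Lp ℂ 2 μ) :
    ∀ᵐ x ∂μ, METT hμ w f x = f (w • x) :=
  Lp.coeFn_compMeasurePreserving f (hμ w)

theorem METT_inv {μ : Measure Ω} (hμ : PMP G μ) (w : G) (f : Lp ℂ 2 μ) :
    METT hμ w (METT hμ w⁻¹ f) = f := by
  apply Lp.ext
  filter_upwards [METT_coe hμ w (METT hμ w⁻¹ f),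
    (hμ w).quasiMeasurePreserving.ae (METT_coe hμ w⁻¹ f)] with x h1 h2
  rw [h1, h2, inv_smul_smul]

theorem MET_memLp {μ : Measure Ω} [IsProbabilityMeasure μ] {f : Ω → ℂ} (hf : BM f) :
    MemLp f 2 μ := by
  obtain ⟨h1, C, h2⟩ := hf
  exact MemLp.of_bound h1.aestronglyMeasurable C (Eventually.of_forall h2)

theorem MET_integrable {μ : Measure Ω} [IsProbabilityMeasure μ] {f : Ω → ℂ} (hf : BM f) :
    Integrable f μ := by
  obtain ⟨h1, C, h2⟩ := hf
  exact Integrable.of_bound h1.aestronglyMeasurable C (Eventually.of_forall h2)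

theorem MET_BM_smul {μ : Measure Ω} (hμ : PMP G μ) {f : Ω → ℂ} (hf : BM f) (u : G) :
    BM (fun x => f (u • x)) :=
  ⟨hf.1.comp (hμ u).measurable, hf.2.imp fun _ h x => h _⟩

theorem MET_BM_conj {f : Ω → ℂ} (hf : BM f) : BM (fun x => conj (f x)) :=
  ⟨Complex.continuous_conj.measurable.comp hf.1, hf.2.imp fun _ h x => by
    rw [RCLike.norm_conj]; exact h x⟩

theorem MET_BM_mul {f g : Ω → ℂ} (hf : BM f) (hg : BM g) : BM (fun x => f x * g x) := by
  obtain ⟨h1, C, h2⟩ := hf
  obtain ⟨h3, D, h4⟩ := hg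
  refine ⟨h1.mul h3, C * D, fun x => ?_⟩
  rw [norm_mul]
  exact mul_le_mul (h2 x) (h4 x) (norm_nonneg _) ((norm_nonneg _).trans (h2 x))

/-- inner product of classes of bounded functions -/
theorem MET_inner {μ : Measure Ω} [IsProbabilityMeasure μ] (b : Lp ℂ 2 μ) {A : Ω → ℂ}
    (hA : BM A) :
    inner ℂ b ((MET_memLp (μ := μ) hA).toLp A) = ∫ x, A x * conj (b x) ∂μ := by
  rw [L2.inner_def]
  apply integral_congr_ae
  filter_upwards [(MET_memLp (μ := μ) hA).coeFn_toLp] with x hx
  rw [hx]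
  simp [mul_comm]

/-- the bound for the averages -/
theorem MET_bound {μ : Measure Ω} [IsProbabilityMeasure μ] (hμ : PMP G μ) {A B : Ω → ℂ}
    (hA : BM A) (hB : Measurable B) {C : ℝ} (hC : ∀ x, ‖B x‖ ≤ C) (u : G) :
    ‖∫ x, A (u • x) * B x ∂μ‖ ≤ C * ∫ x, ‖A x‖ ∂μ := by
  have h1 : ∫ x, ‖A (u • x)‖ ∂μ = ∫ x, ‖A x‖ ∂μ := by
    have h := integral_map (μ := μ) (φ := fun x : Ω => u • x) (hμ u).measurable.aemeasurable
      (f := fun x => ‖A x‖) hA.1.norm.aestronglyMeasurable
    rw [(hμ u).map_eq] at h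
    exact h.symm
  calc ‖∫ x, A (u • x) * B x ∂μ‖ ≤ ∫ x, ‖A (u • x)‖ * C ∂μ := by
        refine norm_integral_le_of_norm_le ?_ (Eventually.of_forall fun x => ?_)
        · exact ((MET_integrable (MET_BM_smul hμ hA u)).norm).mul_const C
        · rw [norm_mul]
          exact mul_le_mul_of_nonneg_left (hC x) (norm_nonneg _)
    _ = C * ∫ x, ‖A x‖ ∂μ := by
        rw [integral_mul_const, h1, mul_comm]

/-- the mean ergodic theorem for one mean -/
theorem MET_one [Countable G] {μ : Measure Ω} [IsProbabilityMeasure μ] (hμ : PMP G μ)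
    {B : Ω → ℂ} (hB : Measurable B) {C : ℝ} (hC : ∀ x, ‖B x‖ ≤ C) (M : InvMean G) :
    ∃ B' : Ω → ℂ, Measurable B' ∧ (∀ x, ‖B' x‖ ≤ C) ∧ (∀ (g : G) x, B' (g • x) = B' x) ∧
      ∀ (A : Ω → ℂ), BM A →
        M.c (fun u => ∫ x, A (u • x) * B x ∂μ) = ∫ x, A x * B' x ∂μ := by
  have hBM : BM B := ⟨hB, C, hC⟩
  have hφBM : ∀ u : G, BM (fun x => conj (B (u⁻¹ • x))) := fun u =>
    MET_BM_conj (MET_BM_smul hμ hBM u⁻¹)
  obtain ⟨x₀⟩ : Nonempty Ω := nonempty_of_isProbabilityMeasure μ
  have hC0 : 0 ≤ C := (norm_nonneg _).trans (hC x₀)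
  let φ : G → Lp ℂ 2 μ := fun u => (MET_memLp (hφBM u)).toLp _
  have hφn : ∀ u, ‖φ u‖ ≤ C := by
    intro u
    have h := Lp.norm_le_of_ae_bound (f := φ u) hC0 (by
      filter_upwards [(MET_memLp (μ := μ) (hφBM u)).coeFn_toLp] with x hx
      change ‖((MET_memLp (μ := μ) (hφBM u)).toLp _ : Ω → ℂ) x‖ ≤ C
      rw [hx, RCLike.norm_conj]
      exact hC _)
    have h1 : measureUnivNNReal μ = 1 := by
      rw [measureUnivNNReal, measure_univ]
      rfl
    rw [h1] at h
    simpa using h
  obtain ⟨b, hb⟩ := MET_weak M φ hφn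
  -- the value on test functions
  have htest : ∀ A : Ω → ℂ, BM A →
      M.c (fun u => ∫ x, A (u • x) * B x ∂μ) = ∫ x, A x * conj (b x) ∂μ := by
    intro A hA
    rw [← MET_inner b hA, hb]
    congr 1
    funext u
    rw [MET_inner _ hA]
    have h1 : ∫ x, A x * conj ((φ u) x) ∂μ = ∫ x, A x * B (u⁻¹ • x) ∂μ := by
      apply integral_congr_ae
      filter_upwards [(MET_memLp (μ := μ) (hφBM u)).coeFn_toLp] with x hx
      change A x * conj (((MET_memLp (μ := μ) (hφBM u)).toLp _ : Ω → ℂ) x) = _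
      rw [hx, Complex.conj_conj]
    have h2 := MET_int_smul hμ (f := fun x => A x * B (u⁻¹ • x))
      (hA.1.mul (hB.comp (hμ u⁻¹).measurable)) u
    rw [h1, ← h2]
    simp only [inv_smul_smul]
  -- invariance
  have hφT : ∀ w u : G, METT hμ w (φ u) = φ (w⁻¹ * u) := by
    intro w u
    apply Lp.ext
    filter_upwards [METT_coe hμ w (φ u),
      (hμ w).quasiMeasurePreserving.ae ((MET_memLp (μ := μ) (hφBM u)).coeFn_toLp),
      (MET_memLp (μ := μ) (hφBM (w⁻¹ * u))).coeFn_toLp] with x h1 h2 h3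
    rw [h1]
    change ((MET_memLp (μ := μ) (hφBM u)).toLp _ : Ω → ℂ) (w • x) =
      ((MET_memLp (μ := μ) (hφBM (w⁻¹ * u))).toLp _ : Ω → ℂ) x
    rw [h2, h3, smul_smul]
    have : u⁻¹ * w = (w⁻¹ * u)⁻¹ := by rw [mul_inv_rev, inv_inv]
    rw [this]
  have hTb : ∀ w : G, METT hμ w b = b := by
    intro w
    refine ext_inner_right ℂ fun A => ?_
    have h1 : A = METT hμ w (METT hμ w⁻¹ A) := (METT_inv hμ w A).symm
    calc inner ℂ (METT hμ w b) A = inner ℂ (METT hμ w b) (METT hμ w (METT hμ w⁻¹ A)) := by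
          rw [← h1]
      _ = inner ℂ b (METT hμ w⁻¹ A) := (METT hμ w).inner_map_map _ _
      _ = M.c (fun u => inner ℂ (φ u) (METT hμ w⁻¹ A)) := hb _
      _ = M.c (fun u => inner ℂ (φ (w⁻¹ * u)) A) := by
          congr 1
          funext u
          rw [← (METT hμ w).inner_map_map, METT_inv, hφT]
      _ = M.c (fun u => inner ℂ (φ u) A) := by
          refine M.c_inv w⁻¹ (f := fun u => inner ℂ (φ u) A) ⟨C * ‖A‖, fun u => ?_⟩
          exact (norm_inner_le_norm _ _).trans
            (mul_le_mul_of_nonneg_right (hφn u) (norm_nonneg _))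
      _ = inner ℂ b A := (hb A).symm
  have hbm : Measurable (b : Ω → ℂ) := (Lp.stronglyMeasurable b).measurable
  obtain ⟨b', hb'm, hb'inv, hb'ae⟩ := MET_strict hμ hbm (fun g => by
    filter_upwards [METT_coe hμ g b] with x hx
    rw [← hx, hTb g])
  have hb'int : Integrable b' μ := by
    have h1 : Integrable (b : Ω → ℂ) μ := (Lp.memLp b).integrable (by norm_num)
    exact h1.congr (hb'ae.mono fun x hx => hx.symm)
  have htest' : ∀ A : Ω → ℂ, BM A →
      M.c (fun u => ∫ x, A (u • x) * B x ∂μ) = ∫ x, A x * conj (b' x) ∂μ := by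
    intro A hA
    rw [htest A hA]
    apply integral_congr_ae
    filter_upwards [hb'ae] with x hx
    rw [hx]
  -- the bound
  have hbd : ∀ᵐ x ∂μ, ‖b' x‖ ≤ C := by
    set S : Set Ω := {x | C < ‖b' x‖} with hS
    have hSm : MeasurableSet S := measurableSet_lt measurable_const hb'm.norm
    set A : Ω → ℂ := S.indicator (fun x => b' x / (‖b' x‖ : ℂ)) with hA
    have hAn : ∀ x, ‖A x‖ = S.indicator (fun _ => (1 : ℝ)) x := by
      intro x
      by_cases hx : x ∈ S
      · rw [hA, Set.indicator_of_mem hx, Set.indicator_of_mem hx, norm_div, Complex.norm_real,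
          norm_norm]
        exact div_self (lt_of_le_of_lt hC0 hx).ne'
      · rw [hA, Set.indicator_of_notMem hx, Set.indicator_of_notMem hx, norm_zero]
    have hABM : BM A := by
      refine ⟨(hb'm.div (Complex.measurable_ofReal.comp hb'm.norm)).indicator hSm, 1,
        fun x => ?_⟩
      rw [hAn x]
      by_cases hx : x ∈ S
      · rw [Set.indicator_of_mem hx]
      · rw [Set.indicator_of_notMem hx]; exact zero_le_one
    have hval : ∫ x, A x * conj (b' x) ∂μ = ((∫ x, S.indicator (fun x => ‖b' x‖) x ∂μ : ℝ) : ℂ) := by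
      rw [← integral_complex_ofReal]
      apply integral_congr_ae
      refine Eventually.of_forall fun x => ?_
      by_cases hx : x ∈ S
      · have hne : (‖b' x‖ : ℂ) ≠ 0 := by
          exact_mod_cast (lt_of_le_of_lt hC0 hx).ne'
        simp only [hA]
        rw [Set.indicator_of_mem hx, Set.indicator_of_mem hx, div_mul_eq_mul_div,
          Complex.mul_conj, Complex.normSq_eq_norm_sq]
        rw [div_eq_iff hne]
        push_cast
        ring
      · simp only [hA]
        rw [Set.indicator_of_notMem hx, Set.indicator_of_notMem hx]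
        simp
    have h1 : ‖∫ x, A x * conj (b' x) ∂μ‖ ≤ C * ∫ x, ‖A x‖ ∂μ := by
      rw [← htest' A hABM]
      exact M.norm_c_le_of_le (fun u => MET_bound hμ hABM hB hC u)
    have h2 : 0 ≤ ∫ x, S.indicator (fun x => ‖b' x‖) x ∂μ :=
      integral_nonneg fun x => Set.indicator_nonneg (fun _ _ => norm_nonneg _) x
    rw [hval, Complex.norm_real, Real.norm_of_nonneg h2] at h1
    simp only [hAn] at h1
    rw [← integral_const_mul] at h1
    have hi1 : Integrable (S.indicator (fun x => ‖b' x‖)) μ := hb'int.norm.indicator hSm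
    have hi2 : Integrable (fun x => C * S.indicator (fun _ => (1 : ℝ)) x) μ :=
      ((integrable_const (1 : ℝ)).indicator hSm).const_mul C
    have h3 : ∫ x, (S.indicator (fun x => ‖b' x‖) x - C * S.indicator (fun _ => (1 : ℝ)) x) ∂μ
        ≤ 0 := by
      rw [integral_sub hi1 hi2]
      linarith
    have h4 : ∀ x, 0 ≤ S.indicator (fun x => ‖b' x‖) x - C * S.indicator (fun _ => (1 : ℝ)) x := by
      intro x
      by_cases hx : x ∈ S
      · rw [Set.indicator_of_mem hx, Set.indicator_of_mem hx, mul_one]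
        exact sub_nonneg.2 (le_of_lt hx)
      · rw [Set.indicator_of_notMem hx, Set.indicator_of_notMem hx, mul_zero, sub_zero]
    have h5 : ∫ x, (S.indicator (fun x => ‖b' x‖) x - C * S.indicator (fun _ => (1 : ℝ)) x) ∂μ
        = 0 := le_antisymm h3 (integral_nonneg h4)
    rw [integral_eq_zero_iff_of_nonneg h4 (hi1.sub hi2)] at h5
    filter_upwards [h5] with x hx
    by_contra hcon
    have hxS : x ∈ S := not_le.1 hcon
    have hx' : S.indicator (fun x => ‖b' x‖) x - C * S.indicator (fun _ => (1 : ℝ)) x = 0 := hx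
    rw [Set.indicator_of_mem hxS, Set.indicator_of_mem hxS, mul_one] at hx'
    have : C < ‖b' x‖ := hxS
    linarith
  -- the function
  classical
  refine ⟨fun x => if ‖b' x‖ ≤ C then conj (b' x) else 0, ?_, fun x => ?_, fun g x => ?_,
    fun A hA => ?_⟩
  · exact Measurable.ite (measurableSet_le hb'm.norm measurable_const)
      (Complex.continuous_conj.measurable.comp hb'm) measurable_const
  · by_cases h : ‖b' x‖ ≤ C
    · simp only [if_pos h]
      rw [RCLike.norm_conj]; exact h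
    · simp only [if_neg h]
      rw [norm_zero]; exact hC0
  · simp only [hb'inv g x]
  · rw [htest' A hA]
    apply integral_congr_ae
    filter_upwards [hbd] with x hx
    rw [if_pos hx]

/-- for invariant test functions the average is constant -/
theorem MET_inv_test {μ : Measure Ω} (B ψ : Ω → ℂ) (hψ : ∀ (g : G) x, ψ (g • x) = ψ x)
    (M : InvMean G) :
    M.c (fun u => ∫ x, ψ (u • x) * B x ∂μ) = ∫ x, ψ x * B x ∂μ := by
  simp only [hψ]
  exact M.c_const _

/-- Mean ergodic theorem.  `B'` does not depend on the mean. -/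
theorem met_exists [Countable G] {μ : Measure Ω} [IsProbabilityMeasure μ] (hμ : PMP G μ)
    {B : Ω → ℂ} (hB : Measurable B) {C : ℝ} (hC : ∀ x, ‖B x‖ ≤ C) :
    ∃ B' : Ω → ℂ, Measurable B' ∧ (∀ x, ‖B' x‖ ≤ C) ∧ (∀ (g : G) x, B' (g • x) = B' x) ∧
      ∀ (M : InvMean G) (A : Ω → ℂ), BM A →
        M.c (fun u => ∫ x, A (u • x) * B x ∂μ) = ∫ x, A x * B' x ∂μ := by
  obtain ⟨x₀⟩ : Nonempty Ω := nonempty_of_isProbabilityMeasure μ
  have hC0 : 0 ≤ C := (norm_nonneg _).trans (hC x₀)
  by_cases hM : Nonempty (InvMean G)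
  · obtain ⟨M₀⟩ := hM
    obtain ⟨B', h1, h2, h3, h4⟩ := MET_one hμ hB hC M₀
    refine ⟨B', h1, h2, h3, fun M A hA => ?_⟩
    obtain ⟨B'', k1, k2, k3, k4⟩ := MET_one hμ hB hC M
    rw [k4 A hA]
    -- `B' = B''` almost everywhere
    set D : Ω → ℂ := fun x => B' x - B'' x with hD
    have hB'BM : BM B' := ⟨h1, C, h2⟩
    have hB''BM : BM B'' := ⟨k1, C, k2⟩
    have hDBM : BM D := ⟨h1.sub k1, C + C, fun x => (norm_sub_le _ _).trans
      (add_le_add (h2 x) (k2 x))⟩
    have hcD : BM (fun x => conj (D x)) := MET_BM_conj hDBM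
    have hinv : ∀ (g : G) x, (fun x => conj (D x)) (g • x) = (fun x => conj (D x)) x := by
      intro g x
      simp only [hD, h3 g x, k3 g x]
    have e1 : ∫ x, conj (D x) * B' x ∂μ = ∫ x, conj (D x) * B x ∂μ := by
      rw [← h4 _ hcD]
      exact MET_inv_test B (fun x => conj (D x)) hinv M₀
    have e2 : ∫ x, conj (D x) * B'' x ∂μ = ∫ x, conj (D x) * B x ∂μ := by
      rw [← k4 _ hcD]
      exact MET_inv_test B (fun x => conj (D x)) hinv M
    have e3 : ∫ x, conj (D x) * D x ∂μ = 0 := by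
      have : ∀ x, conj (D x) * D x = conj (D x) * B' x - conj (D x) * B'' x := by
        intro x
        rw [← mul_sub]
      simp only [this]
      rw [integral_sub (MET_integrable (MET_BM_mul hcD hB'BM))
        (MET_integrable (MET_BM_mul hcD hB''BM)), e1, e2, sub_self]
    have e4 : ∫ x, ‖D x‖ ^ 2 ∂μ = 0 := by
      have h5 : ∀ x, conj (D x) * D x = ((‖D x‖ ^ 2 : ℝ) : ℂ) := by
        intro x
        rw [mul_comm, Complex.mul_conj, Complex.normSq_eq_norm_sq]
      simp only [h5] at e3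
      rw [integral_complex_ofReal] at e3
      exact_mod_cast e3
    have e5 : ∀ᵐ x ∂μ, D x = 0 := by
      have hi : Integrable (fun x => ‖D x‖ ^ 2) μ := by
        refine Integrable.of_bound (hDBM.1.norm.pow_const 2).aestronglyMeasurable ((C + C) ^ 2)
          (Eventually.of_forall fun x => ?_)
        rw [Real.norm_of_nonneg (sq_nonneg _)]
        exact pow_le_pow_left₀ (norm_nonneg _) ((norm_sub_le _ _).trans
          (add_le_add (h2 x) (k2 x))) 2
      rw [integral_eq_zero_iff_of_nonneg (fun x => sq_nonneg _) hi] at e4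
      filter_upwards [e4] with x hx
      have hx' : ‖D x‖ ^ 2 = 0 := hx
      exact norm_eq_zero.1 (pow_eq_zero_iff (two_ne_zero)|>.1 hx')
    apply integral_congr_ae
    filter_upwards [e5] with x hx
    have : B' x = B'' x := sub_eq_zero.1 hx
    rw [this]
  · exact ⟨fun _ => 0, measurable_const, fun _ => by rw [norm_zero]; exact hC0,
      fun _ _ => rfl, fun M => absurd ⟨M⟩ hM⟩

end Dadc30
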