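import Pool.Agent.Lib.MP_dadc30_co.Tile

/-!
# MP_dadc30_co, module Upper: the easy inequality `m_1 ≤ c`.

Let `A` be measurable avoiding distance 1, `P` finite non-empty, `r = max |p|`, `α` the largest
size of a subset of `P` avoiding distance 1.  For every `x`: `#{p ∈ P | x + p ∈ A} ≤ α`; integrate
over `x ∈ sqBox R`: `α (2R)² ≥ ∑_p vol(A ∩ (sqBox R + p)) ≥ |P| vol(A ∩ sqBox (R - r))`.  Divide and
take the limsup: `|P| upDens A ≤ α`; take the supremum over `A`. -/

open MeasureTheory ProbabilityTheory Filter Topology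
open scoped ENNReal ComplexConjugate

namespace Dadc30

theorem upper_key (P : Finset ℂ) (α : ℕ) (hα : ∀ S ⊆ P, Avoids (S : Set ℂ) → S.card ≤ α)
    (A : Set ℂ) (hA : MeasurableSet A) (h : Avoids A) (r : ℝ) (hr : ∀ p ∈ P, ‖p‖ ≤ r) (R : ℝ)
    (hR : 0 ≤ R + r) :
    (P.card : ℝ) * (volume (A ∩ sqBox R)).toReal ≤ α * (2 * (R + r)) ^ 2 := by
  classical
  have h1 : ∀ x : ℂ, ∑ p ∈ P, (if x + p ∈ A then (1 : ℝ≥0∞) else 0) ≤ α := by
    intro x
    rw [Finset.sum_boole]
    have h2 := hα (P.filter fun p => x + p ∈ A) (Finset.filter_subset _ _) (by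
      intro p hp q hq
      rw [Finset.mem_coe, Finset.mem_filter] at hp hq
      have := h _ hp.2 _ hq.2
      rwa [dist_add_left] at this)
    exact_mod_cast h2
  have hm : ∀ p : ℂ, MeasurableSet {x : ℂ | x + p ∈ A} := fun p => (measurable_add_const p) hA
  have h2 : ∀ p ∈ P, volume (A ∩ sqBox R) ≤
      ∫⁻ x in sqBox (R + r), (if x + p ∈ A then (1 : ℝ≥0∞) else 0) := by
    intro p hp
    have h3 : ∫⁻ x in sqBox (R + r), (if x + p ∈ A then (1 : ℝ≥0∞) else 0) =
        volume ({x : ℂ | x + p ∈ A} ∩ sqBox (R + r)) := by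
      rw [← Measure.restrict_apply (hm p), ← lintegral_indicator_one (hm p)]
      rfl
    rw [h3, ← measure_preimage_add_right volume p (A ∩ sqBox R)]
    refine measure_mono ?_
    intro x hx
    obtain ⟨hx1, hx2, hx3⟩ := hx
    have hx2' : |(x + p).re| ≤ R := hx2
    have hx3' : |(x + p).im| ≤ R := hx3
    refine ⟨hx1, ?_, ?_⟩
    · have h4 := (Complex.abs_re_le_norm p).trans (hr p hp)
      have h5 := abs_sub ((x + p).re) (p.re)
      have h6 : (x + p).re - p.re = x.re := by rw [Complex.add_re]; ring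
      rw [h6] at h5
      linarith
    · have h4 := (Complex.abs_im_le_norm p).trans (hr p hp)
      have h5 := abs_sub ((x + p).im) (p.im)
      have h6 : (x + p).im - p.im = x.im := by rw [Complex.add_im]; ring
      rw [h6] at h5
      linarith
  have h3 : (P.card : ℝ≥0∞) * volume (A ∩ sqBox R) ≤
      α * ENNReal.ofReal ((2 * (R + r)) ^ 2) := by
    calc (P.card : ℝ≥0∞) * volume (A ∩ sqBox R) = ∑ _p ∈ P, volume (A ∩ sqBox R) := by
          rw [Finset.sum_const, nsmul_eq_mul]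
      _ ≤ ∑ p ∈ P, ∫⁻ x in sqBox (R + r), (if x + p ∈ A then (1 : ℝ≥0∞) else 0) :=
          Finset.sum_le_sum h2
      _ = ∫⁻ x in sqBox (R + r), ∑ p ∈ P, (if x + p ∈ A then (1 : ℝ≥0∞) else 0) := by
          rw [lintegral_finsetSum]
          intro p _
          exact Measurable.ite (hm p) measurable_const measurable_const
      _ ≤ ∫⁻ _x in sqBox (R + r), (α : ℝ≥0∞) := lintegral_mono h1
      _ = α * ENNReal.ofReal ((2 * (R + r)) ^ 2) := by
          rw [lintegral_const, Measure.restrict_apply_univ, volume_sqBox _ hR]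
  have h4 := ENNReal.toReal_mono (ENNReal.mul_ne_top (ENNReal.natCast_ne_top α)
    ENNReal.ofReal_ne_top) h3
  rw [ENNReal.toReal_mul, ENNReal.toReal_mul, ENNReal.toReal_natCast, ENNReal.toReal_natCast,
    ENNReal.toReal_ofReal (by positivity)] at h4
  exact h4

theorem upper_dens (P : Finset ℂ) (hP : P.Nonempty) (α : ℕ)
    (hα : ∀ S ⊆ P, Avoids (S : Set ℂ) → S.card ≤ α)
    (A : Set ℂ) (hA : MeasurableSet A) (h : Avoids A) : upDens A ≤ α / P.card := by
  have hc : (0 : ℝ) < P.card := by exact_mod_cast hP.card_pos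
  obtain ⟨r, hr0, hr⟩ : ∃ r : ℝ, 0 ≤ r ∧ ∀ p ∈ P, ‖p‖ ≤ r :=
    ⟨∑ p ∈ P, ‖p‖, Finset.sum_nonneg fun _ _ => norm_nonneg _, fun p hp =>
      Finset.single_le_sum (f := fun p : ℂ => ‖p‖) (fun _ _ => norm_nonneg _) hp⟩
  have hlim : Tendsto (fun R : ℝ => ((α : ℝ) / P.card) * (1 + r * R⁻¹) ^ 2) atTop
      (𝓝 ((α : ℝ) / P.card)) := by
    have h1 : Tendsto (fun R : ℝ => ((α : ℝ) / P.card) * (1 + r * R⁻¹) ^ 2) atTop
        (𝓝 (((α : ℝ) / P.card) * (1 + r * 0) ^ 2)) :=
      (((tendsto_inv_atTop_zero.const_mul r).const_add 1).pow 2).const_mul _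
    simpa using h1
  have hle : (fun R : ℝ => (volume (A ∩ sqBox R)).toReal / (2 * R) ^ 2) ≤ᶠ[atTop]
      fun R : ℝ => ((α : ℝ) / P.card) * (1 + r * R⁻¹) ^ 2 := by
    filter_upwards [eventually_gt_atTop 0] with R hR
    have h1 := upper_key P α hα A hA h r hr R (by positivity)
    rw [div_le_iff₀ (by positivity)]
    have h2 : ((α : ℝ) / P.card) * (1 + r * R⁻¹) ^ 2 * (2 * R) ^ 2 =
        (α * (2 * (R + r)) ^ 2) / P.card := by
      field_simp
    rw [h2, le_div_iff₀ hc]
    linarith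
  unfold upDens
  rw [← hlim.limsup_eq]
  refine limsup_le_limsup hle ?_ hlim.isBoundedUnder_le
  refine isCoboundedUnder_le_of_le (x := 0) _ fun R => ?_
  positivity

theorem hasRatio_m1C : HasRatio m1C := by
  classical
  intro P
  rcases P.eq_empty_or_nonempty with rfl | hP
  · exact ⟨∅, subset_rfl, by intro x hx; simp at hx, by simp⟩
  obtain ⟨S, hS, hmax⟩ := Finset.exists_max_image
    (P.powerset.filter fun S : Finset ℂ => Avoids (S : Set ℂ)) Finset.card
    ⟨∅, by
      rw [Finset.mem_filter]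
      exact ⟨Finset.mem_powerset.2 (Finset.empty_subset _), by intro x hx; simp at hx⟩⟩
  rw [Finset.mem_filter, Finset.mem_powerset] at hS
  refine ⟨S, hS.1, hS.2, ?_⟩
  have hc : (0 : ℝ) < P.card := by exact_mod_cast hP.card_pos
  have h1 : m1C ≤ S.card / P.card := by
    unfold m1C
    refine csSup_le ⟨upDens ∅, ∅, MeasurableSet.empty, by intro x hx; exact hx.elim, rfl⟩ ?_
    rintro d ⟨A, hA, hAv, rfl⟩
    refine upper_dens P hP S.card ?_ A hA hAv
    intro S' hS' hav
    exact hmax S' (Finset.mem_filter.2 ⟨Finset.mem_powerset.2 hS', hav⟩)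
  rwa [le_div_iff₀ hc] at h1

end Dadc30
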