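import Pool.Agent.Lib.MP_dadc30_co.Lower
import Pool.Agent.Lib.MP_dadc30_co.Upper
import Pool.Agent.Lib.MP_dadc30_co.FinTransfer

open MeasureTheory ProbabilityTheory Filter Topology

namespace Dadc30

theorem main : Tendsto (fun n : ℕ => (fE n : ℝ) / n) atTop (𝓝 m1) := by
  obtain ⟨L, h1, h2, h3⟩ := f_tendsto
  have : L = m1 := by
    rw [m1_eq_m1C]
    exact le_antisymm (ratio_le_m1C h2) (h3 _ hasRatio_m1C)
  rw [← this]; exact h1

end Dadc30
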