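import Pool.Agent.Lib.MP_dadc30_co.Eapi

/-!
# MP_dadc30_co, module Sq: the relative square `Y.sq = μ ⊗ₘ Y.κ`.

* `sq_pmp`: use `Fac.equiv` and invariance of `μ` (check on measurable rectangles or directly
  with `lintegral`).
* `sq_ae_ker`: `Fac.idem` through `Measure.ae_compProd_iff` (the set `{z | κ z.1 = κ z.2}` is
  measurable by a countable π-system), or `Measure.ae_compProd_of_ae_ae`-like lemma.
* `sq_swap`: on rectangles: `∫ 1_A κ(·,B) = ∫ 1_B κ(·,A)` by `E_adj`.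
-/

open MeasureTheory ProbabilityTheory Filter Topology
open scoped ENNReal ComplexConjugate

namespace Dadc30

variable {G : Type} [CommGroup G] {Ω : Type} [MeasurableSpace Ω] [MulAction G Ω]
  {μ : Measure Ω} [IsProbabilityMeasure μ]

instance (Y : Fac G μ) : IsProbabilityMeasure Y.sq := by
  unfold Fac.sq; infer_instance

theorem Fac.sq_integral (Y : Fac G μ) {f : Ω × Ω → ℂ} (hf : BM f) :
    ∫ z, f z ∂Y.sq = ∫ x, ∫ y, f (x, y) ∂(Y.κ x) ∂μ := by
  have h1 : Integrable f (μ ⊗ₘ Y.κ) := hf.integrable Y.sq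
  exact Measure.integral_compProd h1

theorem Fac.sq_apply (Y : Fac G μ) {D : Set (Ω × Ω)} (hD : MeasurableSet D) :
    Y.sq D = ∫⁻ x, Y.κ x {y | (x, y) ∈ D} ∂μ := by
  unfold Fac.sq
  rw [Measure.compProd_apply hD]
  rfl

theorem Fac.sq_pmp (Y : Fac G μ) (hμ : PMP G μ) : PMP G Y.sq := by
  intro g
  have hg : Measurable (fun x : Ω => g • x) := (hμ g).measurable
  have hgg : Measurable (fun z : Ω × Ω => g • z) :=
    (hg.comp measurable_fst).prodMk (hg.comp measurable_snd)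
  refine ⟨hgg, ?_⟩
  ext D hD
  rw [Measure.map_apply hgg hD, Y.sq_apply (hgg hD), Y.sq_apply hD]
  have h1 : ∀ x, Y.κ x {y | (x, y) ∈ (fun z : Ω × Ω => g • z) ⁻¹' D} =
      Y.κ (g • x) {y | (g • x, y) ∈ D} := by
    intro x
    have hm : MeasurableSet {y | (g • x, y) ∈ D} := measurable_prodMk_left hD
    rw [Y.equiv g x, Measure.map_apply hg hm]
    rfl
  simp_rw [h1]
  have h2 : Measurable fun x => Y.κ x {y | (x, y) ∈ D} :=
    Kernel.measurable_kernel_prodMk_left hD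
  have h3 := (hμ g).lintegral_comp h2
  exact h3

/-- the sets `e⁻¹(-∞, q)` form a countable π-system which determines finite measures -/
theorem Sq_ext_aux [StandardBorelSpace Ω] (ν ν' : Measure Ω) [IsProbabilityMeasure ν]
    [IsProbabilityMeasure ν']
    (h : ∀ q : ℚ, ν (embeddingReal Ω ⁻¹' Set.Iio (q : ℝ)) =
      ν' (embeddingReal Ω ⁻¹' Set.Iio (q : ℝ))) : ν = ν' := by
  have he := measurableEmbedding_embeddingReal Ω
  have h1 : ν.map (embeddingReal Ω) = ν'.map (embeddingReal Ω) := by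
    have hp1 : IsProbabilityMeasure (ν.map (embeddingReal Ω)) :=
      Measure.isProbabilityMeasure_map he.measurable.aemeasurable
    have hp2 : IsProbabilityMeasure (ν'.map (embeddingReal Ω)) :=
      Measure.isProbabilityMeasure_map he.measurable.aemeasurable
    refine ext_of_generate_finite _
      ((BorelSpace.measurable_eq (α := ℝ)).trans Real.borel_eq_generateFrom_Iio_rat)
      Real.isPiSystem_Iio_rat ?_ ?_
    · intro s hs
      rw [Set.mem_iUnion] at hs
      obtain ⟨q, hq⟩ := hs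
      rw [Set.mem_singleton_iff] at hq
      rw [hq, Measure.map_apply he.measurable measurableSet_Iio,
        Measure.map_apply he.measurable measurableSet_Iio]
      exact h q
    · rw [measure_univ, measure_univ]
  ext A hA
  have h2 : ν.map (embeddingReal Ω) (embeddingReal Ω '' A) =
      ν'.map (embeddingReal Ω) (embeddingReal Ω '' A) := by rw [h1]
  rw [he.map_apply, he.map_apply, Set.preimage_image_eq _ he.injective] at h2
  exact h2

theorem Fac.sq_ae_ker [StandardBorelSpace Ω] (Y : Fac G μ) :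
    ∀ᵐ z ∂Y.sq, Y.κ z.1 = Y.κ z.2 := by
  have he := measurableEmbedding_embeddingReal Ω
  have h1 : ∀ q : ℚ, ∀ᵐ z ∂Y.sq, Y.κ z.1 (embeddingReal Ω ⁻¹' Set.Iio (q : ℝ)) =
      Y.κ z.2 (embeddingReal Ω ⁻¹' Set.Iio (q : ℝ)) := by
    intro q
    have hm : MeasurableSet (embeddingReal Ω ⁻¹' Set.Iio (q : ℝ)) :=
      he.measurable measurableSet_Iio
    have hk : Measurable fun x => Y.κ x (embeddingReal Ω ⁻¹' Set.Iio (q : ℝ)) :=
      Kernel.measurable_coe Y.κ hm
    refine Measure.ae_compProd_of_ae_ae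
      (measurableSet_eq_fun (hk.comp measurable_fst) (hk.comp measurable_snd)) ?_
    filter_upwards [Y.idem] with x hx
    filter_upwards [hx] with y hy
    rw [hy]
  rw [← ae_all_iff] at h1
  filter_upwards [h1] with z hz
  exact Sq_ext_aux _ _ hz

theorem Sq_E_indicator (Y : Fac G μ) {B : Set Ω} (hB : MeasurableSet B) (x : Ω) :
    Y.E (B.indicator fun _ => (1 : ℂ)) x = (((Y.κ x) B).toReal : ℂ) := by
  unfold Fac.E
  rw [integral_indicator hB]
  simp [Measure.real]

theorem Sq_rect (Y : Fac G μ) {A B : Set Ω} (hA : MeasurableSet A) (hB : MeasurableSet B) :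
    (((Y.sq (A ×ˢ B)).toReal : ℝ) : ℂ) = ∫ x, A.indicator (fun _ => (1 : ℂ)) x *
      Y.E (B.indicator fun _ => (1 : ℂ)) x ∂μ := by
  have hAB : MeasurableSet (A ×ˢ B) := hA.prod hB
  have h1 : ∫ z, (A ×ˢ B).indicator (fun _ => (1 : ℂ)) z ∂Y.sq =
      (((Y.sq (A ×ˢ B)).toReal : ℝ) : ℂ) := by
    rw [integral_indicator hAB]
    simp [Measure.real]
  rw [← h1, Y.sq_integral (BM.of_indicator hAB)]
  refine integral_congr_ae (Filter.Eventually.of_forall fun x => ?_)
  change ∫ y, (A ×ˢ B).indicator (fun _ => (1 : ℂ)) (x, y) ∂(Y.κ x) = _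
  have h2 : ∀ y, (A ×ˢ B).indicator (fun _ => (1 : ℂ)) (x, y) =
      A.indicator (fun _ => (1 : ℂ)) x * B.indicator (fun _ => (1 : ℂ)) y := by
    intro y
    by_cases hx : x ∈ A
    · by_cases hy : y ∈ B
      · simp [hx, hy]
      · simp [hx, hy]
    · simp [hx]
  simp_rw [h2]
  rw [integral_const_mul]
  rfl

theorem Fac.sq_swap (Y : Fac G μ) : Y.sq.map Prod.swap = Y.sq := by
  have hp : IsProbabilityMeasure (Y.sq.map Prod.swap) :=
    Measure.isProbabilityMeasure_map measurable_swap.aemeasurable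
  refine Measure.ext_prod ?_
  intro A B hA hB
  rw [Measure.map_apply measurable_swap (hA.prod hB), Set.preimage_swap_prod]
  have h1 := Sq_rect Y hA hB
  have h2 := Sq_rect Y hB hA
  rw [Y.E_adj (BM.of_indicator hA) (BM.of_indicator hB)] at h1
  rw [Y.E_adj (BM.of_indicator hB) (BM.of_indicator hA)] at h2
  have h3 : ((Y.sq (B ×ˢ A)).toReal : ℂ) = ((Y.sq (A ×ˢ B)).toReal : ℂ) := by
    rw [h1, h2]
    refine integral_congr_ae (Filter.Eventually.of_forall fun x => ?_)
    exact mul_comm _ _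
  have h4 : (Y.sq (B ×ˢ A)).toReal = (Y.sq (A ×ˢ B)).toReal := by exact_mod_cast h3
  exact (ENNReal.toReal_eq_toReal_iff' (measure_ne_top _ _) (measure_ne_top _ _)).mp h4

theorem Fac.sq_fst (Y : Fac G μ) : Y.sq.map Prod.fst = μ :=
  Measure.fst_compProd μ Y.κ

theorem Fac.sq_snd (Y : Fac G μ) : Y.sq.map Prod.snd = μ := by
  have h1 : Y.sq.map Prod.snd = (Y.sq.map Prod.swap).map Prod.fst := by
    rw [Measure.map_map measurable_fst measurable_swap]
    rfl
  rw [h1, Y.sq_swap, Y.sq_fst]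

theorem Fac.sq_prod (Y : Fac G μ) {φ ψ : Ω → ℂ} (hφ : BM φ) (hψ : BM ψ) :
    ∫ z, φ z.1 * ψ z.2 ∂Y.sq = ∫ x, Y.E φ x * Y.E ψ x ∂μ := by
  have h1 : BM fun z : Ω × Ω => φ z.1 * ψ z.2 :=
    (hφ.comp measurable_fst).mul (hψ.comp measurable_snd)
  rw [Y.sq_integral h1, ← Y.E_adj hφ hψ]
  refine integral_congr_ae (Filter.Eventually.of_forall fun x => ?_)
  change ∫ y, φ x * ψ y ∂(Y.κ x) = φ x * Y.E ψ x
  rw [integral_const_mul]
  rfl

theorem Fac.h_eq (Y : Fac G μ) {φ : Ω → ℂ} (hφ : BM φ) :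
    ((Y.h φ : ℝ) : ℂ) = ∫ z, φ z.1 * conj (φ z.2) ∂Y.sq := by
  rw [Y.sq_prod hφ hφ.conj]
  unfold Fac.h
  rw [← integral_complex_ofReal]
  refine integral_congr_ae (Filter.Eventually.of_forall fun x => ?_)
  change ((‖Y.E φ x‖ ^ 2 : ℝ) : ℂ) = Y.E φ x * Y.E (fun y => conj (φ y)) x
  rw [Y.E_conj, Complex.mul_conj, Complex.normSq_eq_norm_sq]

theorem InvSet.swap {D : Set (Ω × Ω)} (hD : InvSet G D) : InvSet G (Prod.swap ⁻¹' D) := by
  refine ⟨measurable_swap hD.1, fun g => ?_⟩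
  have h1 := hD.2 g
  ext z
  have h2 : (Prod.swap z ∈ (fun x : Ω × Ω => g • x) ⁻¹' D) ↔ Prod.swap z ∈ D := by rw [h1]
  exact h2

end Dadc30
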