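import Pool.Agent.Lib.MP_dadc30_co.Chars
import Pool.Agent.Lib.MP_dadc30_co.Geo
import Pool.Agent.Lib.MP_dadc30_co.Sq

/-!
# MP_dadc30_co, module Rad: radial symmetry, scaling and difference laws.
-/

open MeasureTheory ProbabilityTheory Filter Topology
open scoped ENNReal ComplexConjugate

namespace Dadc30

theorem ft_zero (ν : Measure X) [IsFiniteMeasure ν] : ft ν 0 = ((ν Set.univ).toReal : ℂ) := by
  unfold ft
  simp_rw [chi_zero]
  simp [Measure.real]

theorem ft_norm_le (ν : Measure X) [IsFiniteMeasure ν] (z : K) :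
    ‖ft ν z‖ ≤ (ν Set.univ).toReal := by
  unfold ft
  have h := norm_integral_le_of_norm_le_const (μ := ν) (f := chi z) (C := 1)
    (Eventually.of_forall fun x => (chi_norm z x).le)
  simpa [Measure.real] using h

theorem ft_smul {ν : Measure X} (hν : PMP Γ₀ ν) (w : Γ₀) (z : K) : ft ν (toK w * z) = ft ν z := by
  unfold ft
  have h1 : ∀ x, chi (toK w * z) x = chi z (w • x) := by
    intro x
    rw [chi_smul]
  simp_rw [h1]
  have h2 := integral_map (μ := ν) (φ := fun x : X => w • x) (f := chi z)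
    (measurable_smul_X w).aemeasurable (measurable_chi z).aestronglyMeasurable
  rw [← h2, (hν w).map_eq]

theorem ft_radial {ν : Measure X} (hν : PMP Γ₀ ν) {z z' : K} (h : ‖(z : ℂ)‖ = ‖(z' : ℂ)‖) :
    ft ν z = ft ν z' := by
  by_cases hz : z = 0
  · have hz' : z' = 0 := by
      rw [hz] at h
      have h1 : ‖(z' : ℂ)‖ = 0 := by rw [← h]; simp
      rw [norm_eq_zero] at h1
      exact Subtype.ext h1
    rw [hz, hz']
  · obtain ⟨w, hw⟩ := exists_rot hz h
    rw [hw, ft_smul hν]

/-- real valued, because `-1 ∈ Γ` -/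
theorem ft_real {ν : Measure X} (hν : PMP Γ₀ ν) (z : K) : (ft ν z).im = 0 := by
  have h1 : ft ν (-z) = ft ν z := by
    apply ft_radial hν
    simp
  have h2 : ft ν (-z) = conj (ft ν z) := by
    unfold ft
    simp_rw [chi_neg]
    exact integral_conj
  rw [h2] at h1
  exact Complex.conj_eq_iff_im.1 h1

theorem h_radial {ν : Measure X} [IsProbabilityMeasure ν] (hν : PMP Γ₀ ν) (Y : Fac Γ₀ ν)
    {z z' : K} (h : ‖(z : ℂ)‖ = ‖(z' : ℂ)‖) : Y.h (chi z) = Y.h (chi z') := by
  by_cases hz : z = 0
  · have hz' : z' = 0 := by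
      rw [hz] at h
      have h1 : ‖(z' : ℂ)‖ = 0 := by rw [← h]; simp
      rw [norm_eq_zero] at h1
      exact Subtype.ext h1
    rw [hz, hz']
  · obtain ⟨w, hw⟩ := exists_rot hz h
    rw [hw]
    unfold Fac.h
    have h1 : ∀ x, Y.E (chi (toK w * z)) x = Y.E (chi z) (w • x) := by
      intro x
      rw [Y.E_equiv hν (BM_chi z) w x]
      congr 1
    simp_rw [h1]
    have hm : Measurable fun x => ‖Y.E (chi z) x‖ ^ 2 := (Y.E_measurable' (BM_chi z)).norm.pow_const 2
    have h2 := integral_map (μ := ν) (φ := fun x : X => w • x) (f := fun x => ‖Y.E (chi z) x‖ ^ 2)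
      (measurable_smul_X w).aemeasurable hm.aestronglyMeasurable
    rw [(hν w).map_eq] at h2
    exact h2

theorem ft_map_scale (ν : Measure X) (t z : K) : ft (ν.map (scale t)) z = ft ν (t * z) := by
  unfold ft
  rw [integral_map (measurable_scale t).aemeasurable (measurable_chi z).aestronglyMeasurable]
  simp_rw [chi_scale]

theorem pmp_map_scale {ν : Measure X} (hν : PMP Γ₀ ν) (t : K) : PMP Γ₀ (ν.map (scale t)) := by
  intro w
  refine ⟨measurable_smul_X w, ?_⟩
  rw [Measure.map_map (measurable_smul_X w) (measurable_scale t)]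
  have h1 : (fun x : X => w • x) ∘ scale t = scale t ∘ (fun x : X => w • x) := by
    funext x
    exact smul_scale_X w t x
  rw [h1, ← Measure.map_map (measurable_scale t) (measurable_smul_X w), (hν w).map_eq]

theorem erg_map_scale {ν : Measure X} (hE : Erg Γ₀ ν) (t : K) : Erg Γ₀ (ν.map (scale t)) := by
  intro A hA
  have hB : InvSet Γ₀ (scale t ⁻¹' A) := by
    refine ⟨measurable_scale t hA.1, fun w => ?_⟩
    ext x
    show scale t (w • x) ∈ A ↔ scale t x ∈ A
    rw [← smul_scale_X]
    have h1 := hA.2 w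
    exact Set.ext_iff.1 h1 (scale t x)
  rw [Measure.map_apply (measurable_scale t) hA.1,
    Measure.map_apply (measurable_scale t) hA.1.compl]
  exact hE _ hB

theorem Xc_map_scale (ν : Measure X) {t : K} (ht : t ≠ 0) : (ν.map (scale t)) Xc = ν Xc := by
  rw [Measure.map_apply (measurable_scale t) measurableSet_Xc]
  congr 1
  ext x
  exact Xc_scale ht x

/-- law of `x / x'` -/
noncomputable def diffLaw (m : Measure (X × X)) : Measure X := m.map fun z => z.1 / z.2

instance (m : Measure (X × X)) [IsFiniteMeasure m] : IsFiniteMeasure (diffLaw m) := by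
  unfold diffLaw; infer_instance
theorem diffLaw_prob (m : Measure (X × X)) [IsProbabilityMeasure m] :
    IsProbabilityMeasure (diffLaw m) := by
  unfold diffLaw
  exact Measure.isProbabilityMeasure_map measurable_div_X.aemeasurable

theorem diffLaw_pmp {m : Measure (X × X)} (hm : PMP Γ₀ m) : PMP Γ₀ (diffLaw m) := by
  intro w
  refine ⟨measurable_smul_X w, ?_⟩
  unfold diffLaw
  rw [Measure.map_map (measurable_smul_X w) measurable_div_X]
  have h1 : (fun x : X => w • x) ∘ (fun z : X × X => z.1 / z.2) =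
      (fun z : X × X => z.1 / z.2) ∘ (fun z : X × X => w • z) := by
    funext z
    exact smul_div_X w z.1 z.2
  rw [h1, ← Measure.map_map measurable_div_X (hm w).measurable, (hm w).map_eq]

theorem ft_diffLaw (m : Measure (X × X)) (z : K) :
    ft (diffLaw m) z = ∫ p, chi z p.1 * conj (chi z p.2) ∂m := by
  unfold ft diffLaw
  rw [integral_map measurable_div_X.aemeasurable (measurable_chi z).aestronglyMeasurable]
  simp_rw [chi_div]

theorem ft_diffLaw_sq {ν : Measure X} [IsProbabilityMeasure ν] (Y : Fac Γ₀ ν) (z : K) :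
    ft (diffLaw Y.sq) z = ((Y.h (chi z) : ℝ) : ℂ) := by
  rw [ft_diffLaw, Y.h_eq (BM_chi z)]

theorem diffLaw_Xc (m : Measure (X × X)) : diffLaw m Xc = m {z : X × X | z.1 / z.2 ∈ Xc} := by
  unfold diffLaw
  rw [Measure.map_apply measurable_div_X measurableSet_Xc]
  rfl

theorem ft_diffLaw_prod (ν : Measure X) [IsFiniteMeasure ν] (z : K) :
    ft (diffLaw (ν.prod ν)) z = ((‖ft ν z‖ ^ 2 : ℝ) : ℂ) := by
  rw [ft_diffLaw]
  rw [integral_prod_mul (μ := ν) (ν := ν) (chi z) (fun y => conj (chi z y))]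
  rw [integral_conj]
  unfold ft
  rw [Complex.mul_conj, Complex.normSq_eq_norm_sq]

theorem pmp_prod {ν : Measure X} [IsFiniteMeasure ν] (hν : PMP Γ₀ ν) : PMP Γ₀ (ν.prod ν) := by
  intro w
  exact (hν w).prod (hν w)

end Dadc30
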