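import Pool.Agent.Lib.MP_dadc30_co.LemC3
import Pool.Agent.Lib.MP_dadc30_co.Alpha
import Pool.Agent.Lib.MP_dadc30_co.Rad

/-!
# MP_dadc30_co, module MainIneq: the main inequality.

`near_pos`: `alpha_le` with `φ = ψ = chi a`; `chi a (w•x) * chi a x = chi (w a + a) x`.
`main_ineq`: by `alpha_le` with `φ = chi a`, `ψ = chi b` and the mean
`M' = (M.pull sqHom)` shifted by `-1` (i.e. `w = -u²`):
`h(a)h(b) ≤ M_u h(chi(-a u² + b))`, and `|-a u² + b| = |a u - b ū| = |c u - c ū + d|` (`e4`), so by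
`h_radial` `h(a)h(b) ≤ M_u h(x ↦ χ_c(u•x) · conj χ_c(u⁻¹•x) · χ_d(x))`; then `lemC_fin` with
`φ₁ = chi c`, `φ₂ = conj chi c`, `φ₃ = chi d` (`W.E (conj φ) = conj (W.E φ)`).
-/

open MeasureTheory ProbabilityTheory Filter Topology
open scoped ENNReal ComplexConjugate

namespace Dadc30

theorem MainIneq_bdd {ν : Measure X} [IsProbabilityMeasure ν] (Y : Fac Γ₀ ν) (a b : K) :
    Bdd (fun w : Γ₀ => Y.h (fun x => chi a (w • x) * chi b x)) := by
  refine BMR.bdd_integral (C := 1) (fun w x => ?_) ν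
  rw [abs_of_nonneg (by positivity)]
  refine pow_le_one₀ (norm_nonneg _) (Y.E_bound (fun y => ?_) x)
  rw [norm_mul, chi_norm, chi_norm, one_mul]

theorem MainIneq_toK_inv (u : Γ₀) : toK u * toK u⁻¹ = 1 := by
  rw [← toK_mul, mul_inv_cancel]
  apply Subtype.ext
  simp [toK]

theorem near_pos {ν : Measure X} [IsProbabilityMeasure ν] (hν : PMP Γ₀ ν) (hE : Erg Γ₀ ν)
    (Y : Fac Γ₀ ν) (M : InvMean Γ₀) (a : K) :
    Y.h (chi a) ^ 2 ≤ M.m (fun w => Y.h (chi (toK w * a + a))) := by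
  have h := alpha_le hν hE Y (BM_chi a) (BM_chi a) M
  rw [← sq] at h
  refine h.trans (le_of_eq ?_)
  congr 1
  funext w
  congr 1
  funext x
  rw [chi_smul, chi_add]

theorem main_ineq {ν : Measure X} [IsProbabilityMeasure ν] (hν : PMP Γ₀ ν) (hE : Erg Γ₀ ν)
    {Y V W : Fac Γ₀ ν} (h1 : IsNext Y V) (h2 : IsNext V W) (M : InvMean Γ₀)
    (a b c d : A₀) (ha : 0 < (a : ℝ)) (hb : 0 < (b : ℝ)) (hc : c * c = a * b)
    (hd : d = a - b) :
    Y.h (chi (A₀.toK a)) * Y.h (chi (A₀.toK b)) ≤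
      M.m (fun u => ∫ x, ‖W.E (chi (A₀.toK c)) (u • x)‖ ^ 2 *
        ‖W.E (chi (A₀.toK c)) (u⁻¹ • x)‖ ^ 2 * ‖W.E (chi (A₀.toK d)) x‖ ^ 2 ∂ν) := by
  obtain ⟨w0, hw0⟩ := exists_negOne
  have h := alpha_le hν hE Y (BM_chi (A₀.toK a)) (BM_chi (A₀.toK b))
    (M.pull (sqHom Γ₀) (sqHom_surj divis_Γ))
  rw [← (M.pull (sqHom Γ₀) (sqHom_surj divis_Γ)).inv' w0 _ (MainIneq_bdd Y _ _),
    InvMean.pull_m] at h
  refine h.trans ?_
  have h3 := lemC_fin divis_Γ hν h1 h2 (BM_chi (A₀.toK c)) (BM_chi (A₀.toK c)).conj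
    (BM_chi (A₀.toK d)) M
  simp only [W.E_conj, RCLike.norm_conj] at h3
  refine le_trans (le_of_eq ?_) h3
  congr 1
  funext u
  have e1 : (fun x => chi (A₀.toK a) ((w0 * sqHom Γ₀ u) • x) * chi (A₀.toK b) x) =
      chi (toK (w0 * sqHom Γ₀ u) * A₀.toK a + A₀.toK b) := by
    funext x
    rw [chi_add, chi_smul]
  have e2 : (fun x => chi (A₀.toK c) (u • x) * conj (chi (A₀.toK c) (u⁻¹ • x)) *
      chi (A₀.toK d) x) = chi (A₀.toK c * toK u - A₀.toK c * toK u⁻¹ + A₀.toK d) := by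
    funext x
    rw [chi_add, chi_sub, chi_smul, chi_smul, mul_comm (toK u), mul_comm (toK u⁻¹)]
  rw [e1, e2]
  apply h_radial hν
  rw [← e4 a b c d hc hd u]
  have e3 : toK (w0 * sqHom Γ₀ u) * A₀.toK a + A₀.toK b =
      (- toK u) * (A₀.toK a * toK u - A₀.toK b * toK u⁻¹) := by
    have hs : sqHom Γ₀ u = u * u := rfl
    rw [hs, toK_mul, toK_mul, hw0]
    linear_combination (-A₀.toK b) * MainIneq_toK_inv u
  rw [e3]
  push_cast
  rw [norm_mul, norm_neg, toK_norm, one_mul]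

end Dadc30
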