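import Pool.Agent.Lib.MP_dadc30_co.Mean

/-!
# MP_dadc30_co, module MeanC: elementary API of the complex extension of an invariant mean.
`‖M.c f‖ ≤ M.m ‖f‖`: multiply by a unimodular constant and use `Re ≤ ‖·‖`.
-/

open MeasureTheory ProbabilityTheory Filter Topology
open scoped ENNReal ComplexConjugate

namespace Dadc30

variable {G : Type} [CommGroup G]

/-! ### auxiliary closure of boundedness -/

theorem MeanC_add {ι : Type*} {f g : ι → ℂ} (hf : BddC f) (hg : BddC g) :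
    BddC (fun u => f u + g u) := by
  obtain ⟨C, hC⟩ := hf
  obtain ⟨D, hD⟩ := hg
  exact ⟨C + D, fun i => (norm_add_le _ _).trans (add_le_add (hC i) (hD i))⟩

theorem MeanC_smul {ι : Type*} (a : ℂ) {f : ι → ℂ} (hf : BddC f) :
    BddC (fun u => a * f u) := by
  obtain ⟨C, hC⟩ := hf
  exact ⟨‖a‖ * C, fun i => by
    rw [norm_mul]; exact mul_le_mul_of_nonneg_left (hC i) (norm_nonneg _)⟩

theorem MeanC_bddsmul {ι : Type*} (a : ℝ) {f : ι → ℝ} (hf : Bdd f) :
    Bdd (fun u => a * f u) := (Bdd.const a).mul hf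

theorem MeanC_ext {z w : ℂ} (h1 : z.re = w.re) (h2 : z.im = w.im) : z = w := Complex.ext h1 h2

/-! ### complex mean -/

theorem InvMean.c_im (M : InvMean G) (f : G → ℂ) : (M.c f).im = M.m (fun u => (f u).im) := rfl
theorem InvMean.MeanC_re (M : InvMean G) (f : G → ℂ) : (M.c f).re = M.m (fun u => (f u).re) := rfl

theorem InvMean.c_add (M : InvMean G) {f g : G → ℂ} (hf : BddC f) (hg : BddC g) :
    M.c (fun u => f u + g u) = M.c f + M.c g := by
  apply Complex.ext
  · rw [Complex.add_re, M.MeanC_re, M.MeanC_re, M.MeanC_re, ← M.add' _ _ hf.re hg.re]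
    rfl
  · rw [Complex.add_im, M.c_im, M.c_im, M.c_im, ← M.add' _ _ hf.im hg.im]
    rfl
theorem InvMean.c_sub (M : InvMean G) {f g : G → ℂ} (hf : BddC f) (hg : BddC g) :
    M.c (fun u => f u - g u) = M.c f - M.c g := by
  apply Complex.ext
  · rw [Complex.sub_re, M.MeanC_re, M.MeanC_re, M.MeanC_re, ← M.m_sub hf.re hg.re]
    rfl
  · rw [Complex.sub_im, M.c_im, M.c_im, M.c_im, ← M.m_sub hf.im hg.im]
    rfl
theorem InvMean.c_smul (M : InvMean G) (a : ℂ) {f : G → ℂ} (hf : BddC f) :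
    M.c (fun u => a * f u) = a * M.c f := by
  apply Complex.ext
  · rw [Complex.mul_re, M.MeanC_re, M.MeanC_re, M.c_im, ← M.smul' _ _ hf.re, ← M.smul' _ _ hf.im,
      ← M.m_sub (MeanC_bddsmul _ hf.re) (MeanC_bddsmul _ hf.im)]
    congr 1
  · rw [Complex.mul_im, M.MeanC_re, M.c_im, M.c_im, ← M.smul' _ _ hf.re, ← M.smul' _ _ hf.im,
      ← M.add' _ _ (MeanC_bddsmul _ hf.im) (MeanC_bddsmul _ hf.re)]
    congr 1
theorem InvMean.c_const (M : InvMean G) (a : ℂ) : M.c (fun _ => a) = a := by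
  apply Complex.ext
  · rw [M.MeanC_re, M.m_const]
  · rw [M.c_im, M.m_const]
theorem InvMean.c_sum (M : InvMean G) {ι : Type*} (s : Finset ι) (f : ι → G → ℂ)
    (hf : ∀ i ∈ s, BddC (f i)) :
    M.c (fun u => ∑ i ∈ s, f i u) = ∑ i ∈ s, M.c (f i) := by
  apply Complex.ext
  · rw [Complex.re_sum, M.MeanC_re]
    simp only [Complex.re_sum, M.MeanC_re]
    exact M.m_sum s (fun i u => (f i u).re) (fun i hi => (hf i hi).re)
  · rw [Complex.im_sum, M.c_im]
    simp only [Complex.im_sum, M.c_im]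
    exact M.m_sum s (fun i u => (f i u).im) (fun i hi => (hf i hi).im)
theorem InvMean.norm_c_le (M : InvMean G) {f : G → ℂ} (hf : BddC f) :
    ‖M.c f‖ ≤ M.m (fun u => ‖f u‖) := by
  have h0 : 0 ≤ M.m (fun u => ‖f u‖) := M.m_nonneg hf.norm (fun u => norm_nonneg _)
  by_cases hz : M.c f = 0
  · rw [hz, norm_zero]; exact h0
  · have hn : (‖M.c f‖ : ℝ) ≠ 0 := norm_ne_zero_iff.mpr hz
    have hnc : ((‖M.c f‖ : ℝ) : ℂ) ≠ 0 := by exact_mod_cast hn
    set a : ℂ := conj (M.c f) / ((‖M.c f‖ : ℝ) : ℂ) with ha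
    have hna : ‖a‖ = 1 := by
      rw [ha, norm_div, RCLike.norm_conj, Complex.norm_real, norm_norm, div_self hn]
    have h1 : M.c (fun u => a * f u) = ((‖M.c f‖ : ℝ) : ℂ) := by
      rw [M.c_smul a hf, ha, div_mul_eq_mul_div, mul_comm, Complex.mul_conj,
        Complex.normSq_eq_norm_sq, div_eq_iff hnc]
      push_cast
      ring
    have h2 : ‖M.c f‖ = M.m (fun u => (a * f u).re) := by
      rw [← M.MeanC_re, h1, Complex.ofReal_re]
    rw [h2]
    refine M.mono' _ _ (MeanC_smul a hf).re hf.norm (fun u => ?_)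
    calc (a * f u).re ≤ ‖a * f u‖ := Complex.re_le_norm _
      _ = ‖f u‖ := by rw [norm_mul, hna, one_mul]
theorem InvMean.norm_c_le_of_le (M : InvMean G) {f : G → ℂ} {C : ℝ} (h : ∀ u, ‖f u‖ ≤ C) :
    ‖M.c f‖ ≤ C := by
  have hf : BddC f := ⟨C, h⟩
  exact (M.norm_c_le hf).trans (M.m_le_of_le hf.norm h)
theorem InvMean.c_inv (M : InvMean G) (w : G) {f : G → ℂ} (hf : BddC f) :
    M.c (fun u => f (w * u)) = M.c f := by
  apply Complex.ext
  · rw [M.MeanC_re, M.MeanC_re]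
    exact M.inv' w _ hf.re
  · rw [M.c_im, M.c_im]
    exact M.inv' w _ hf.im
theorem InvMean.c_conj (M : InvMean G) {f : G → ℂ} (hf : BddC f) :
    M.c (fun u => conj (f u)) = conj (M.c f) := by
  apply Complex.ext
  · rw [Complex.conj_re, M.MeanC_re, M.MeanC_re]
    simp only [Complex.conj_re]
  · rw [Complex.conj_im, M.c_im, M.c_im, ← M.m_neg hf.im]
    simp only [Complex.conj_im]
theorem InvMean.c_ofReal (M : InvMean G) {f : G → ℝ} (hf : Bdd f) :
    M.c (fun u => (f u : ℂ)) = (M.m f : ℂ) := by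
  apply Complex.ext
  · rw [M.MeanC_re]
    simp only [Complex.ofReal_re]
  · rw [M.c_im]
    simp only [Complex.ofReal_im]
    exact M.m_const 0
theorem InvMean.c_re (M : InvMean G) (f : G → ℂ) : (M.c f).re = M.m (fun u => (f u).re) := rfl
theorem InvMean.pull_c (M : InvMean G) (σ : G →* G) (hσ : Function.Surjective σ) (f : G → ℂ) :
    (M.pull σ hσ).c f = M.c fun u => f (σ u) := rfl

end Dadc30
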