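import Pool.Agent.Lib.MP_dadc30_co.METerg

/-!
# MP_dadc30_co, module Mid: the MID lemma

For every `p₀ > 0` there is `ε > 0`: in an ergodic system, if `P, Q : Ω → [0,1]` satisfy
`p₀ ≤ ∫P ≤ 1-p₀` and `∫Q ≤ ∫P + ε` then `M_u ∫ P(ux) P(u⁻¹x) (1 - Q(x)) > ε`.

Proof (paper).  `p = ∫P`, `q̄ = ∫Q`, `E = ∫P² ≤ p`.  Suppose `M_u∫P(ux)P(u⁻¹x)(1-Q) ≤ ε`.
(0) `M_u ∫P(ux)P(u⁻¹x) = M_u ∫ P(u²x)P(x) = p²` (met_erg_real for `M.pull sqHom`).
(1) `p² - ε ≤ M_u∫P(ux)P(u⁻¹x)Q ≤ E q̄` (AM-GM `ab ≤ (a²+b²)/2` and met_erg_real), so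
    `q̄ ≥ p - ε/p` and `E ≥ (p²-ε)/(p+ε)`.
(2) `M_u∫(P(ux)-P(u⁻¹x))² Q = 2E q̄ - 2 M_u∫P(ux)P(u⁻¹x)Q ≤ 2p(p+ε) - 2(p²-ε) ≤ 4ε`.
(3) For `v : G` let `R(v) = ∫Q(x)Q(vx)`, `r(v) = ∫P(x)P(vx)`.  By (2) at the point `vx` and the
    substitution `u ↦ u v⁻¹`: `M_u∫(P(ux)-P(u⁻¹v²x))²Q(vx) ≤ 4ε`.  With (2):
    `M_u∫(P(u⁻¹x)-P(u⁻¹v²x))²Q(x)Q(vx) ≤ 16ε`, and the left side is
    `(2E - 2r(v²)) R(v)` by met_erg_real (for the mean `M.pull invHom`).
(4) `M_u∫P(ux)P(u⁻¹v²x)(1-Q(vx)) ≤ ε` (same substitution), so multiplying by `Q(x) ≤ 1` and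
    replacing `P(ux)` by `P(u⁻¹x)` (error `≤ (M_u∫(P(ux)-P(u⁻¹x))²Q)^{1/2} ≤ 2√ε`):
    `(q̄ - R(v)) r(v²) = M_u∫P(u⁻¹x)P(u⁻¹v²x)(1-Q(vx))Q(x) ≤ ε + 2√ε`.
(5) Hence for every `v`: `R(v) ≤ δ` or `R(v) ≥ p - δ`, with `δ = δ(ε,p₀) → 0`.
    `H = {v : R(v) ≥ p - δ}` is a subgroup: `R(v⁻¹) = R(v)`,
    `R(vw) = ∫Q(v⁻¹x)Q(wx) ≥ q̄ - (q̄-R(v)) - (q̄-R(w)) ≥ p/2 > δ`, `R(1) ≥ q̄² > δ`.
(6) `M_v R(v) = q̄² ≥ (p-ε/p)² > δ`, so finitely many cosets of `H` cover `G` (if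
    `g_1 H, …, g_N H` are disjoint then `N·M(1_H) ≤ 1`, and `M(1_H) ≥ q̄² - δ`).  So `H` has
    finite index, and as `G` is divisible, `H = G` (`g = h^k ∈ H` where `k` = index;
    `Subgroup.pow_index_mem`).
(7) So `q̄² = M_v R(v) ≥ p - δ`, while `q̄² ≤ (p+ε)²`: contradiction with
    `p(1-p) ≥ p₀/2`-ish for small `ε`.
-/

open MeasureTheory ProbabilityTheory Filter Topology
open scoped ENNReal ComplexConjugate

namespace Dadc30

set_option linter.unusedSectionVars false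

section Mid

variable {G : Type} [CommGroup G] {Ω : Type} [MeasurableSpace Ω] [MulAction G Ω]
  {μ : Measure Ω}

private def Mid_UB (F : G → Ω → ℝ) : Prop :=
  (∀ u, Measurable (F u)) ∧ ∃ C : ℝ, ∀ u x, |F u x| ≤ C

private theorem Mid_UB.add {F H : G → Ω → ℝ} (hF : Mid_UB F) (hH : Mid_UB H) :
    Mid_UB (fun u x => F u x + H u x) := by
  obtain ⟨hF1, C, hC⟩ := hF
  obtain ⟨hH1, D, hD⟩ := hH
  exact ⟨fun u => (hF1 u).add (hH1 u), C + D, fun u x =>
    (abs_add_le _ _).trans (add_le_add (hC u x) (hD u x))⟩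

private theorem Mid_UB.sub {F H : G → Ω → ℝ} (hF : Mid_UB F) (hH : Mid_UB H) :
    Mid_UB (fun u x => F u x - H u x) := by
  obtain ⟨hF1, C, hC⟩ := hF
  obtain ⟨hH1, D, hD⟩ := hH
  exact ⟨fun u => (hF1 u).sub (hH1 u), C + D, fun u x =>
    (abs_sub _ _).trans (add_le_add (hC u x) (hD u x))⟩

private theorem Mid_UB.mul {F H : G → Ω → ℝ} (hF : Mid_UB F) (hH : Mid_UB H) :
    Mid_UB (fun u x => F u x * H u x) := by
  obtain ⟨hF1, C, hC⟩ := hF
  obtain ⟨hH1, D, hD⟩ := hH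
  refine ⟨fun u => (hF1 u).mul (hH1 u), C * D, fun u x => ?_⟩
  rw [abs_mul]
  exact mul_le_mul (hC u x) (hD u x) (abs_nonneg _) ((abs_nonneg _).trans (hC u x))

private theorem Mid_UB.const (c : ℝ) : Mid_UB (fun (_ : G) (_ : Ω) => c) :=
  ⟨fun _ => measurable_const, |c|, fun _ _ => le_rfl⟩

private noncomputable def Mid_II (M : InvMean G) (μ : Measure Ω) (F : G → Ω → ℝ) : ℝ :=
  M.m (fun u => ∫ x, F u x ∂μ)

private theorem Mid_int [IsProbabilityMeasure μ] {F : Ω → ℝ} (hF : Measurable F) {C : ℝ}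
    (hC : ∀ x, |F x| ≤ C) : Integrable F μ :=
  Integrable.of_bound hF.aestronglyMeasurable C (Filter.Eventually.of_forall hC)

private theorem Mid_UB.int [IsProbabilityMeasure μ] {F : G → Ω → ℝ} (hF : Mid_UB F) (u : G) :
    Integrable (F u) μ := by
  obtain ⟨hF1, C, hC⟩ := hF
  exact Mid_int (hF1 u) (hC u)

private theorem Mid_UB.bdd [IsProbabilityMeasure μ] {F : G → Ω → ℝ} (hF : Mid_UB F) :
    Bdd (fun u => ∫ x, F u x ∂μ) := by
  obtain ⟨hF1, C, hC⟩ := hF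
  refine ⟨C, fun u => ?_⟩
  have h := norm_integral_le_of_norm_le_const (μ := μ) (f := F u) (C := C)
    (Filter.Eventually.of_forall fun x => hC u x)
  simpa using h

private theorem Mid_II_add [IsProbabilityMeasure μ] (M : InvMean G) {F H : G → Ω → ℝ}
    (hF : Mid_UB F) (hH : Mid_UB H) :
    Mid_II M μ (fun u x => F u x + H u x) = Mid_II M μ F + Mid_II M μ H := by
  unfold Mid_II
  rw [← M.add' _ _ hF.bdd hH.bdd]
  congr 1
  funext u
  exact integral_add (hF.int u) (hH.int u)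

private theorem Mid_II_smul [IsProbabilityMeasure μ] (M : InvMean G) (c : ℝ) {F : G → Ω → ℝ}
    (hF : Mid_UB F) :
    Mid_II M μ (fun u x => c * F u x) = c * Mid_II M μ F := by
  unfold Mid_II
  rw [← M.smul' _ _ hF.bdd]
  congr 1
  funext u
  exact integral_const_mul c (F u)

private theorem Mid_II_const [IsProbabilityMeasure μ] (M : InvMean G) (c : ℝ) :
    Mid_II M μ (fun (_ : G) (_ : Ω) => c) = c := by
  unfold Mid_II
  simp only [integral_const, probReal_univ, one_smul]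
  exact M.m_const c

private theorem Mid_II_mono [IsProbabilityMeasure μ] (M : InvMean G) {F H : G → Ω → ℝ}
    (hF : Mid_UB F) (hH : Mid_UB H) (h : ∀ u x, F u x ≤ H u x) :
    Mid_II M μ F ≤ Mid_II M μ H := by
  unfold Mid_II
  refine M.mono' _ _ hF.bdd hH.bdd fun u => ?_
  exact integral_mono (hF.int u) (hH.int u) (h u)

private theorem Mid_smul (hμ : PMP G μ) (g : G) {F : Ω → ℝ} (hF : Measurable F) :
    ∫ x, F (g • x) ∂μ = ∫ x, F x ∂μ := by
  have h := integral_map (μ := μ) (φ := fun x : Ω => g • x) (f := F)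
    (hμ g).measurable.aemeasurable (by
      exact hF.aestronglyMeasurable)
  rw [(hμ g).map_eq] at h
  exact h.symm

private theorem Mid_shift [IsProbabilityMeasure μ] (M : InvMean G) (w : G) {F : G → Ω → ℝ}
    (hF : Mid_UB F) : Mid_II M μ (fun u x => F (w * u) x) = Mid_II M μ F := by
  unfold Mid_II
  exact M.inv' w (fun u => ∫ x, F u x ∂μ) hF.bdd

private theorem Mid_shiftv [IsProbabilityMeasure μ] (hμ : PMP G μ) (M : InvMean G) (v : G)
    (f : Ω → Ω → Ω → ℝ) (hf : Mid_UB (fun (u : G) x => f (u • x) (u⁻¹ • x) x)) :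
    Mid_II M μ (fun (u : G) x => f (u • x) ((v * v) • u⁻¹ • x) (v • x)) =
      Mid_II M μ (fun (u : G) x => f (u • x) (u⁻¹ • x) x) := by
  rw [← Mid_shift M v⁻¹ hf]
  unfold Mid_II
  congr 1
  funext u
  rw [← Mid_smul hμ v (hf.1 (v⁻¹ * u))]
  congr 1
  funext x
  have h1 : (v⁻¹ * u) • v • x = u • x := by
    rw [smul_smul]; congr 1; rw [mul_comm v⁻¹ u, mul_assoc, inv_mul_cancel, mul_one]
  have h2 : (v⁻¹ * u)⁻¹ • v • x = (v * v) • u⁻¹ • x := by
    rw [smul_smul, smul_smul]; congr 1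
    rw [mul_inv, inv_inv]
    rw [mul_assoc, mul_comm u⁻¹ v, ← mul_assoc]
  show f (u • x) ((v * v) • u⁻¹ • x) (v • x) =
    f ((v⁻¹ * u) • v • x) ((v⁻¹ * u)⁻¹ • v • x) (v • x)
  rw [h1, h2]

private theorem Mid_erg [Countable G] [IsProbabilityMeasure μ] (hμ : PMP G μ) (hE : Erg G μ)
    (M : InvMean G) {A B : Ω → ℝ} (hA : BMR A) (hB : BMR B) :
    Mid_II M μ (fun (u : G) x => A (u • x) * B x) = (∫ x, A x ∂μ) * ∫ x, B x ∂μ :=
  met_erg_real hμ hE M hA hB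

private theorem Mid_erg_inv [Countable G] [IsProbabilityMeasure μ] (hμ : PMP G μ)
    (hE : Erg G μ) (M : InvMean G) {A B : Ω → ℝ} (hA : BMR A) (hB : BMR B) :
    Mid_II M μ (fun (u : G) x => A (u⁻¹ • x) * B x) = (∫ x, A x ∂μ) * ∫ x, B x ∂μ :=
  met_erg_real hμ hE (M.pull (invHom G) invHom_surj) hA hB

/-- step (0) -/
private theorem Mid_zero [Countable G] (hG : Divis G) [IsProbabilityMeasure μ] (hμ : PMP G μ)
    (hE : Erg G μ) (M : InvMean G) {P : Ω → ℝ} (hP : BMR P) :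
    Mid_II M μ (fun (u : G) x => P (u • x) * P (u⁻¹ • x)) = (∫ x, P x ∂μ) * ∫ x, P x ∂μ := by
  rw [← met_erg_real hμ hE (M.pull (sqHom G) (sqHom_surj hG)) hP hP]
  rw [InvMean.pull_m]
  unfold Mid_II
  congr 1
  funext u
  have hm : Measurable (fun x => P (u • x) * P (u⁻¹ • x)) :=
    (hP.1.comp (hμ u).measurable).mul (hP.1.comp (hμ u⁻¹).measurable)
  rw [← Mid_smul hμ u hm]
  congr 1
  funext x
  have h1 : u • u • x = (sqHom G u) • x := by rw [smul_smul]; rfl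
  rw [h1, inv_smul_smul]

private theorem Mid_int3 {f g h : Ω → ℝ} (hf : Integrable f μ) (hg : Integrable g μ)
    (hh : Integrable h μ) : ∫ x, f x + g x - h x ∂μ =
      (∫ x, f x ∂μ) + (∫ x, g x ∂μ) - ∫ x, h x ∂μ := by
  rw [integral_sub (f := fun x => f x + g x) (hf.add hg) hh, integral_add hf hg]

private theorem Mid_int3' [IsProbabilityMeasure μ] {f g : Ω → ℝ} (hf : Integrable f μ)
    (hg : Integrable g μ) (c : ℝ) : ∫ x, f x - g x + c ∂μ =
      (∫ x, f x ∂μ) - (∫ x, g x ∂μ) + c := by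
  rw [integral_add (f := fun x => f x - g x) (hf.sub hg) (integrable_const c),
    integral_sub hf hg]
  simp

end Mid

private theorem Mid_eta {p₀ η : ℝ} (hp₀ : 0 < p₀) (hp₁ : p₀ ≤ 1 / 2)
    (hη : η = p₀ ^ 4 / 1000) : 0 < η ∧ η ≤ p₀ / 1000 ∧ η ≤ 1 ∧ η ^ 2 ≤ p₀ ^ 2 / 1000 ∧
      η ^ 2 ≤ η ∧ η ^ 2 ≤ p₀ / 2 := by
  have h0 : 0 < η := by rw [hη]; positivity
  have h2 : η ≤ p₀ / 1000 := by
    rw [hη]
    have : p₀ ^ 4 = p₀ * p₀ ^ 3 := by ring
    have h3 : p₀ ^ 3 ≤ 1 := pow_le_one₀ hp₀.le (by linarith)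
    rw [this]
    nlinarith
  have h3 : η ≤ 1 := by linarith
  have h4 : η ^ 2 ≤ η := by nlinarith
  have h5 : η ^ 2 ≤ (p₀ / 1000) * (p₀ / 1000) := by
    rw [pow_two]; exact mul_le_mul h2 h2 h0.le (by positivity)
  refine ⟨h0, h2, h3, ?_, h4, by linarith⟩
  nlinarith

private theorem Mid_s2 {p e X Y : ℝ} (hp : p ≤ 1) (he : 0 ≤ e)
    (h1 : Y ≤ p * (p + e)) (h2 : p * p - e ≤ X) : Y + Y - 2 * X ≤ 4 * e := by
  nlinarith

private theorem Mid_s3 {p₀ p q e E : ℝ} (hp₀ : 0 < p₀) (hp : p₀ ≤ p) (hq0 : 0 ≤ q)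
    (hq1 : q ≤ 1) (hE0 : 0 ≤ E) (hEp : E ≤ p) (he : e ≤ p₀ ^ 2 / 1000)
    (h : p * p - e ≤ E * q) : p₀ ^ 2 / 2 ≤ E ∧ p₀ / 2 ≤ q := by
  have h1 : E * q ≤ E := by nlinarith
  have h2 : p₀ ^ 2 ≤ p * p := by nlinarith
  refine ⟨by nlinarith, ?_⟩
  by_contra hc
  push Not at hc
  have h3 : E * q ≤ p * q := mul_le_mul_of_nonneg_right hEp hq0
  have h4 : p * q ≤ p * (p₀ / 2) := mul_le_mul_of_nonneg_left hc.le (by linarith)
  have h5 : p * (p₀ / 2) ≤ p * p / 2 := by nlinarith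
  nlinarith

private theorem Mid_s4 {p q e E : ℝ} (hp : 0 ≤ p) (hq0 : 0 ≤ q) (hEp : E ≤ p)
    (hq : q ≤ p + e) : E * q ≤ p * (p + e) :=
  (mul_le_mul_of_nonneg_right hEp hq0).trans (mul_le_mul_of_nonneg_left hq hp)

private theorem Mid_pt1 {α β γ s t : ℝ} (k1 : 0 ≤ s ∧ s ≤ 1) (k2 : 0 ≤ t ∧ t ≤ 1) :
    (β - γ) * (β - γ) * (s * t) ≤
      2 * ((α - β) * (α - β) * s) + 2 * ((α - γ) * (α - γ) * t) := by
  have hst : 0 ≤ s * t := mul_nonneg k1.1 k2.1
  have hst1 : s * t ≤ s := mul_le_of_le_one_right k1.1 k2.2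
  have hst2 : s * t ≤ t := mul_le_of_le_one_left k2.1 k1.2
  have z1 : (β - γ) * (β - γ) ≤ 2 * ((α - β) * (α - β)) + 2 * ((α - γ) * (α - γ)) := by
    nlinarith [mul_self_nonneg (2 * α - β - γ)]
  have z2 : (β - γ) * (β - γ) * (s * t) ≤
      (2 * ((α - β) * (α - β)) + 2 * ((α - γ) * (α - γ))) * (s * t) :=
    mul_le_mul_of_nonneg_right z1 hst
  have z3 : (α - β) * (α - β) * (s * t) ≤ (α - β) * (α - β) * s :=
    mul_le_mul_of_nonneg_left hst1 (mul_self_nonneg _)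
  have z4 : (α - γ) * (α - γ) * (s * t) ≤ (α - γ) * (α - γ) * t :=
    mul_le_mul_of_nonneg_left hst2 (mul_self_nonneg _)
  linarith

private theorem Mid_pt2 {η α β γ s t : ℝ} (hη : 0 < η) (k1 : 0 ≤ s ∧ s ≤ 1)
    (k2 : 0 ≤ t ∧ t ≤ 1) (l1 : 0 ≤ α ∧ α ≤ 1) (l3 : 0 ≤ γ ∧ γ ≤ 1) :
    β * γ * ((1 - t) * s) ≤ α * γ * (1 - t) +
      1 / (4 * η) * ((α - β) * (α - β) * s) + η := by
  have hη3 : 0 < 1 / (4 * η) := by positivity
  obtain ⟨k, hk⟩ : ∃ k, k = γ * (1 - t) := ⟨_, rfl⟩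
  have hk0 : 0 ≤ k := by rw [hk]; exact mul_nonneg l3.1 (by linarith [k2.2])
  have hk1 : k ≤ 1 := by
    rw [hk]; exact mul_le_one₀ l3.2 (by linarith [k2.2]) (by linarith [k2.1])
  have z1 : (β - α) * k ≤ 1 / (4 * η) * ((α - β) * (α - β)) + η := by
    have y1 : 0 ≤ 1 / (4 * η) * ((β - α - 2 * η * k) * (β - α - 2 * η * k)) :=
      mul_nonneg hη3.le (mul_self_nonneg _)
    have y2 : 1 / (4 * η) * ((β - α - 2 * η * k) * (β - α - 2 * η * k)) =
        1 / (4 * η) * ((α - β) * (α - β)) - (β - α) * k + η * (k * k) := by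
      field_simp
      ring
    rw [y2] at y1
    have y3 : η * (k * k) ≤ η := mul_le_of_le_one_right hη.le (mul_le_one₀ hk1 hk0 hk1)
    linarith
  have z2 : (β - α) * k * s ≤ (1 / (4 * η) * ((α - β) * (α - β)) + η) * s :=
    mul_le_mul_of_nonneg_right z1 k1.1
  have z3 : η * s ≤ η := mul_le_of_le_one_right hη.le k1.2
  have z4 : α * k * s ≤ α * k := mul_le_of_le_one_right (mul_nonneg l1.1 hk0) k1.2
  have z5 : β * γ * ((1 - t) * s) = (β - α) * k * s + α * k * s := by rw [hk]; ring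
  have z6 : α * γ * (1 - t) = α * k := by rw [hk]; ring
  rw [z5, z6]
  linarith

private theorem Mid_abs1 {a b : ℝ} (k1 : 0 ≤ a ∧ a ≤ 1) (k2 : 0 ≤ b ∧ b ≤ 1) :
    |(a - b) * (a - b)| ≤ 1 := by
  rw [abs_mul]
  have h : |a - b| ≤ 1 := by
    rw [abs_le]; constructor <;> linarith [k1.1, k1.2, k2.1, k2.2]
  exact mul_le_one₀ h (abs_nonneg _) h

private theorem Mid_pt3 {a b c : ℝ} (k1 : 0 ≤ a ∧ a ≤ 1) (k2 : 0 ≤ b ∧ b ≤ 1)
    (k3 : 0 ≤ c ∧ c ≤ 1) : a * b + a * c - a ≤ b * c := by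
  have z1 : 0 ≤ a * ((1 - b) * (1 - c)) :=
    mul_nonneg k1.1 (mul_nonneg (by linarith [k2.2]) (by linarith [k3.2]))
  have z2 : 0 ≤ (1 - a) * (b * c) :=
    mul_nonneg (by linarith [k1.2]) (mul_nonneg k2.1 k3.1)
  nlinarith

private theorem Mid_fin {p₀ q : ℝ} (hp₀ : 0 < p₀) (hp₁ : p₀ ≤ 1 / 2) (h1 : p₀ / 2 ≤ q)
    (h2 : q ≤ 1 - p₀ / 2) (h3 : q - p₀ ^ 2 / 50 ≤ q * q) : False := by
  have h4 : 0 ≤ (q - p₀ / 2) * (1 - p₀ / 2 - q) := mul_nonneg (by linarith) (by linarith)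
  nlinarith

private theorem Mid_small {p₀ : ℝ} (hp₀ : 0 < p₀) (hp₁ : p₀ ≤ 1 / 2) :
    p₀ ^ 2 ≤ p₀ / 2 := by
  nlinarith

/-- the algebra of step (5) -/
private theorem Mid_dich {p₀ η E q R r : ℝ} (hp₀ : 0 < p₀) (hp₁ : p₀ ≤ 1 / 2)
    (hη : η = p₀ ^ 4 / 1000) (hE : p₀ ^ 2 / 2 ≤ E)
    (h1 : (2 * E - 2 * r) * R ≤ 16 * η ^ 2) (h2 : r * (q - R) ≤ 3 * η) :
    R ≤ p₀ ^ 2 / 50 ∨ q - p₀ ^ 2 / 50 ≤ R := by
  have hp2 : 0 < p₀ ^ 2 := by positivity
  have hp4 : p₀ ^ 4 = p₀ ^ 2 * p₀ ^ 2 := by ring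
  have hp21 : p₀ ^ 2 ≤ 1 := by nlinarith
  have hη0 : 0 < η := by rw [hη]; positivity
  have hη1 : η ≤ p₀ ^ 2 / 1000 := by rw [hη, hp4]; nlinarith
  by_cases hr : E / 2 ≤ r
  · right
    by_contra hcon
    push Not at hcon
    have h3 : p₀ ^ 2 / 50 < q - R := by linarith
    have h4 : p₀ ^ 2 / 4 ≤ r := by linarith
    have h5 : p₀ ^ 2 / 4 * (p₀ ^ 2 / 50) ≤ r * (q - R) :=
      mul_le_mul h4 h3.le (by positivity) (by linarith)
    have h6 : 3 * η = 3 * (p₀ ^ 2 * p₀ ^ 2) / 1000 := by rw [hη, hp4]; ring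
    nlinarith
  · left
    push Not at hr
    by_contra hcon
    push Not at hcon
    have h3 : p₀ ^ 2 / 2 ≤ 2 * E - 2 * r := by linarith
    have h5 : p₀ ^ 2 / 2 * (p₀ ^ 2 / 50) ≤ (2 * E - 2 * r) * R :=
      mul_le_mul h3 hcon.le (by positivity) (by linarith)
    have h6 : η ^ 2 ≤ η * (p₀ ^ 2 / 1000) := by nlinarith
    have h7 : η * (p₀ ^ 2 / 1000) ≤ (p₀ ^ 2 / 1000) * (p₀ ^ 2 / 1000) := by nlinarith
    nlinarith

/-- a subgroup of positive mean has finite index -/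
private theorem Mid_finite {G : Type} [CommGroup G] (M : InvMean G) (H : Subgroup G)
    (h : 0 < M.m (fun u => Set.indicator (H : Set G) (fun _ => (1 : ℝ)) u)) :
    Finite (G ⧸ H) := by
  classical
  by_contra hinf
  rw [not_finite_iff_infinite] at hinf
  set a := M.m (fun u => Set.indicator (H : Set G) (fun _ => (1 : ℝ)) u) with ha
  obtain ⟨N, hN⟩ := exists_nat_gt (1 / a)
  have hN' : 1 < N * a := by
    rw [div_lt_iff₀ h] at hN
    exact hN
  let ι := Infinite.natEmbedding (G ⧸ H)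
  let g : ℕ → G := fun i => (Quotient.out (ι i))
  have hg : ∀ i, ((g i : G) : G ⧸ H) = ι i := fun i => Quotient.out_eq (ι i)
  let f : ℕ → G → ℝ := fun i u => Set.indicator (H : Set G) (fun _ => (1 : ℝ)) ((g i)⁻¹ * u)
  have hfb : ∀ i, Bdd (f i) := by
    intro i
    refine ⟨1, fun u => ?_⟩
    simp only [f, Set.indicator]
    split_ifs <;> simp
  have hfm : ∀ i, M.m (f i) = a := by
    intro i
    have hb : Bdd (fun u => Set.indicator (H : Set G) (fun _ => (1 : ℝ)) u) := by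
      refine ⟨1, fun u => ?_⟩
      simp only [Set.indicator]
      split_ifs <;> simp
    exact M.inv' (g i)⁻¹ (fun u => Set.indicator (H : Set G) (fun _ => (1 : ℝ)) u) hb
  have hsum : M.m (fun u => ∑ i ∈ Finset.range N, f i u) = N * a := by
    rw [M.m_sum (Finset.range N) f (fun i _ => hfb i)]
    simp [hfm]
  have hle : ∀ u, ∑ i ∈ Finset.range N, f i u ≤ 1 := by
    intro u
    by_cases hex : ∃ i ∈ Finset.range N, (g i)⁻¹ * u ∈ H
    · obtain ⟨i, hi, hu⟩ := hex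
      rw [Finset.sum_eq_single i]
      · simp only [f, Set.indicator]
        split_ifs <;> simp
      · intro j hj hji
        simp only [f]
        rw [Set.indicator_of_notMem]
        intro hju
        apply hji
        apply ι.injective
        rw [← hg i, ← hg j]
        have h1 : ((g i : G) : G ⧸ H) = ((u : G) : G ⧸ H) := QuotientGroup.eq.2 hu
        have h2 : ((g j : G) : G ⧸ H) = ((u : G) : G ⧸ H) := QuotientGroup.eq.2 hju
        rw [h1, h2]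
      · intro hni; exact absurd hi hni
    · push Not at hex
      have : ∑ i ∈ Finset.range N, f i u = 0 := by
        apply Finset.sum_eq_zero
        intro i hi
        simp only [f]
        exact Set.indicator_of_notMem (hex i hi) _
      rw [this]; norm_num
  have hb : Bdd (fun u => ∑ i ∈ Finset.range N, f i u) :=
    Bdd.sum (Finset.range N) (fun i _ => hfb i)
  have h2 := M.m_le_of_le hb hle
  rw [hsum] at h2
  linarith

theorem mid (G : Type) [CommGroup G] [Countable G] (hG : Divis G) (p₀ : ℝ) (hp₀ : 0 < p₀) :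
    ∃ ε > (0 : ℝ), ∀ (Ω : Type) [MeasurableSpace Ω] [MulAction G Ω] (μ : Measure Ω)
      [IsProbabilityMeasure μ], PMP G μ → Erg G μ → ∀ (M : InvMean G) (P Q : Ω → ℝ),
      Measurable P → Measurable Q → (∀ x, 0 ≤ P x ∧ P x ≤ 1) → (∀ x, 0 ≤ Q x ∧ Q x ≤ 1) →
      p₀ ≤ ∫ x, P x ∂μ → ∫ x, P x ∂μ ≤ 1 - p₀ → ∫ x, Q x ∂μ ≤ (∫ x, P x ∂μ) + ε →
      ε < M.m (fun u => ∫ x, P (u • x) * P (u⁻¹ • x) * (1 - Q x) ∂μ) := by
  obtain ⟨η, hη⟩ : ∃ η : ℝ, η = p₀ ^ 4 / 1000 := ⟨_, rfl⟩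
  have hη0 : 0 < η := by rw [hη]; positivity
  refine ⟨η ^ 2, by positivity, ?_⟩
  intro Ω _ _ μ _ hμ hErg M P Q hPm hQm hP hQ hp1 hp2 hq
  by_contra hcon
  push Not at hcon
  -- names
  set p : ℝ := ∫ x, P x ∂μ with hp
  set q : ℝ := ∫ x, Q x ∂μ with hqdef
  set E : ℝ := ∫ x, P x * P x ∂μ with hEdef
  have hp₁ : p₀ ≤ 1 / 2 := by linarith
  have bP : BMR P := ⟨hPm, 1, fun x => by rw [abs_of_nonneg (hP x).1]; exact (hP x).2⟩
  have bQ : BMR Q := ⟨hQm, 1, fun x => by rw [abs_of_nonneg (hQ x).1]; exact (hQ x).2⟩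
  have msm : ∀ (g : G) (F : Ω → ℝ), Measurable F → Measurable (fun x => F (g • x)) :=
    fun g F hF => hF.comp (hμ g).measurable
  -- the families
  have ua : Mid_UB (fun (u : G) x => P (u • x)) :=
    ⟨fun u => msm u P hPm, 1, fun u x => by
      rw [abs_of_nonneg (hP _).1]; exact (hP _).2⟩
  have ub : Mid_UB (fun (u : G) x => P (u⁻¹ • x)) :=
    ⟨fun u => msm u⁻¹ P hPm, 1, fun u x => by
      rw [abs_of_nonneg (hP _).1]; exact (hP _).2⟩
  have uQ : Mid_UB (fun (_ : G) x => Q x) :=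
    ⟨fun u => hQm, 1, fun u x => by
      rw [abs_of_nonneg (hQ _).1]; exact (hQ _).2⟩
  have u1 : Mid_UB (fun (_ : G) (_ : Ω) => (1 : ℝ)) := Mid_UB.const 1
  have intP : Integrable P μ := Mid_int hPm (C := 1) (fun x => by
    rw [abs_of_nonneg (hP _).1]; exact (hP _).2)
  have intQ : Integrable Q μ := Mid_int hQm (C := 1) (fun x => by
    rw [abs_of_nonneg (hQ _).1]; exact (hQ _).2)
  have mPP : Measurable (fun x => P x * P x) := hPm.mul hPm
  have bPP : BMR (fun x => P x * P x) := ⟨mPP, 1, fun x => by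
    rw [abs_of_nonneg (mul_nonneg (hP x).1 (hP x).1)]
    exact mul_le_one₀ (hP x).2 (hP x).1 (hP x).2⟩
  have intPP : Integrable (fun x => P x * P x) μ := by
    obtain ⟨C, hC⟩ := bPP.2
    exact Mid_int mPP hC
  have hE0 : 0 ≤ E := integral_nonneg fun x => mul_nonneg (hP x).1 (hP x).1
  have hEp : E ≤ p := integral_mono intPP intP fun x => by
    exact mul_le_of_le_one_right (hP x).1 (hP x).2
  have hq0 : 0 ≤ q := integral_nonneg fun x => (hQ x).1
  have hq1 : q ≤ 1 := by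
    have := integral_mono intQ (integrable_const (1 : ℝ)) (fun x => (hQ x).2)
    simpa using this
  -- (0)
  have e0 : Mid_II M μ (fun (u : G) x => P (u • x) * P (u⁻¹ • x)) = p * p :=
    Mid_zero hG hμ hErg M bP
  -- (1)
  have uab := ua.mul ub
  have uabQ := uab.mul uQ
  have uab1Q := uab.mul (u1.sub uQ)
  have hcon' : Mid_II M μ (fun (u : G) x => P (u • x) * P (u⁻¹ • x) * (1 - Q x)) ≤ η ^ 2 := hcon
  have e1 : Mid_II M μ (fun (u : G) x => P (u • x) * P (u⁻¹ • x) * Q x) +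
      Mid_II M μ (fun (u : G) x => P (u • x) * P (u⁻¹ • x) * (1 - Q x)) = p * p := by
    rw [← Mid_II_add M uabQ uab1Q, ← e0]
    congr 1
    funext u x
    ring
  have e1' : p * p - η ^ 2 ≤
      Mid_II M μ (fun (u : G) x => P (u • x) * P (u⁻¹ • x) * Q x) := by linarith
  have uaaQ := (ua.mul ua).mul uQ
  have ubbQ := (ub.mul ub).mul uQ
  have eaa : Mid_II M μ (fun (u : G) x => P (u • x) * P (u • x) * Q x) = E * q :=
    Mid_erg hμ hErg M bPP bQ
  have ebb : Mid_II M μ (fun (u : G) x => P (u⁻¹ • x) * P (u⁻¹ • x) * Q x) = E * q :=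
    Mid_erg_inv hμ hErg M bPP bQ
  -- (2)
  have uD : Mid_UB (fun (u : G) x => (P (u • x) - P (u⁻¹ • x)) * (P (u • x) - P (u⁻¹ • x)) * Q x)
    := ((ua.sub ub).mul (ua.sub ub)).mul uQ
  have e2 : Mid_II M μ
      (fun (u : G) x => (P (u • x) - P (u⁻¹ • x)) * (P (u • x) - P (u⁻¹ • x)) * Q x) =
      E * q + E * q - 2 * Mid_II M μ (fun (u : G) x => P (u • x) * P (u⁻¹ • x) * Q x) := by
    have h1 := Mid_II_add M (μ := μ) uaaQ ubbQ
    have h2 := Mid_II_smul M (μ := μ) 2 uabQ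
    have h3 := Mid_II_add M (μ := μ) uD ((Mid_UB.const 2).mul uabQ)
    rw [h2] at h3
    rw [eaa, ebb] at h1
    rw [← h1, eq_sub_iff_add_eq, ← h3]
    congr 1
    funext u x
    ring
  have hD0 : 0 ≤ Mid_II M μ
      (fun (u : G) x => (P (u • x) - P (u⁻¹ • x)) * (P (u • x) - P (u⁻¹ • x)) * Q x) := by
    rw [← Mid_II_const M (μ := μ) (0 : ℝ)]
    exact Mid_II_mono M (Mid_UB.const 0) uD fun u x =>
      mul_nonneg (mul_self_nonneg _) (hQ x).1
  have hEq : p * p - η ^ 2 ≤ E * q := by linarith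
  have hp0 : 0 < p := lt_of_lt_of_le hp₀ hp1
  have hple : p ≤ 1 := by linarith
  have hEq2 : E * q ≤ p * (p + η ^ 2) := Mid_s4 hp0.le hq0 hEp hq
  obtain ⟨-, -, hη1', hη1, hηη, hηp⟩ := Mid_eta hp₀ hp₁ hη
  have hη2 : 0 < η ^ 2 := by positivity
  have e2' : Mid_II M μ
      (fun (u : G) x => (P (u • x) - P (u⁻¹ • x)) * (P (u • x) - P (u⁻¹ • x)) * Q x) ≤
      4 * η ^ 2 := by
    rw [e2]
    exact Mid_s2 hple hη2.le hEq2 e1'
  obtain ⟨hElow, hqlow⟩ := Mid_s3 hp₀ hp1 hq0 hq1 hE0 hEp hη1 hEq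
  -- R
  set R : G → ℝ := fun v => ∫ x, Q x * Q (v • x) ∂μ with hR
  have mQv : ∀ v : G, Measurable (fun x => Q (v • x)) := fun v => msm v Q hQm
  have bQQ : ∀ v : G, BMR (fun x => Q x * Q (v • x)) := fun v =>
    ⟨hQm.mul (mQv v), 1, fun x => by
      rw [abs_of_nonneg (mul_nonneg (hQ _).1 (hQ _).1)]
      exact mul_le_one₀ (hQ x).2 (hQ _).1 (hQ _).2⟩
  have iQQ : ∀ v : G, Integrable (fun x => Q x * Q (v • x)) μ := fun v => by
    obtain ⟨C, hC⟩ := (bQQ v).2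
    exact Mid_int (bQQ v).1 hC
  have hR0 : ∀ v, 0 ≤ R v := fun v => integral_nonneg fun x => mul_nonneg (hQ _).1 (hQ _).1
  have hRq : ∀ v, R v ≤ q := fun v => integral_mono (iQQ v) intQ fun x => by
    exact mul_le_of_le_one_right (hQ x).1 (hQ (v • x)).2
  -- (3), (4), (5)
  have dich : ∀ v, R v ≤ p₀ ^ 2 / 50 ∨ q - p₀ ^ 2 / 50 ≤ R v := by
    intro v
    have uc : Mid_UB (fun (u : G) x => P ((v * v) • u⁻¹ • x)) :=
      ⟨fun u => msm u⁻¹ _ (msm (v * v) P hPm), 1, fun u x => by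
        rw [abs_of_nonneg (hP _).1]; exact (hP _).2⟩
    have uQv : Mid_UB (fun (_ : G) x => Q (v • x)) :=
      ⟨fun u => mQv v, 1, fun u x => by
        rw [abs_of_nonneg (hQ _).1]; exact (hQ _).2⟩
    set r : ℝ := ∫ x, P x * P ((v * v) • x) ∂μ with hr
    -- shifted square
    have s1 : Mid_II M μ (fun (u : G) x => (P (u • x) - P ((v * v) • u⁻¹ • x)) *
        (P (u • x) - P ((v * v) • u⁻¹ • x)) * Q (v • x)) ≤ 4 * η ^ 2 := by
      rw [Mid_shiftv hμ M v (fun a b c => (P a - P b) * (P a - P b) * Q c) uD]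
      exact e2'
    have us1 : Mid_UB (fun (u : G) x => (P (u • x) - P ((v * v) • u⁻¹ • x)) *
        (P (u • x) - P ((v * v) • u⁻¹ • x)) * Q (v • x)) :=
      ((ua.sub uc).mul (ua.sub uc)).mul uQv
    have s2 : Mid_II M μ (fun (u : G) x => P (u • x) * P ((v * v) • u⁻¹ • x) *
        (1 - Q (v • x))) ≤ η ^ 2 := by
      rw [Mid_shiftv hμ M v (fun a b c => P a * P b * (1 - Q c)) uab1Q]
      exact hcon'
    have us2 : Mid_UB (fun (u : G) x => P (u • x) * P ((v * v) • u⁻¹ • x) *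
        (1 - Q (v • x))) := (ua.mul uc).mul (u1.sub uQv)
    -- first product formula
    have mP2 : Measurable (fun x => P ((v * v) • x)) := msm (v * v) P hPm
    have bA : BMR (fun x => (P x - P ((v * v) • x)) * (P x - P ((v * v) • x))) := by
      refine ⟨(hPm.sub mP2).mul (hPm.sub mP2), 1, fun x => ?_⟩
      exact Mid_abs1 (hP x) (hP ((v * v) • x))
    have f1 : Mid_II M μ (fun (u : G) x => (P (u⁻¹ • x) - P ((v * v) • u⁻¹ • x)) *
        (P (u⁻¹ • x) - P ((v * v) • u⁻¹ • x)) * (Q x * Q (v • x))) =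
        (2 * E - 2 * r) * R v := by
      rw [Mid_erg_inv hμ hErg M bA (bQQ v)]
      congr 1
      have iP2 : Integrable (fun x => P ((v * v) • x) * P ((v * v) • x)) μ :=
        Mid_int (mP2.mul mP2) (C := 1) fun x => by
          rw [abs_of_nonneg (mul_nonneg (hP _).1 (hP _).1)]
          exact mul_le_one₀ (hP _).2 (hP _).1 (hP _).2
      have iPm : Integrable (fun x => P x * P ((v * v) • x)) μ :=
        Mid_int (hPm.mul mP2) (C := 1) fun x => by
          rw [abs_of_nonneg (mul_nonneg (hP _).1 (hP _).1)]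
          exact mul_le_one₀ (hP _).2 (hP _).1 (hP _).2
      have e3 : ∫ x, P ((v * v) • x) * P ((v * v) • x) ∂μ = E :=
        Mid_smul hμ (v * v) mPP
      have e4 : ∫ x, (P x - P ((v * v) • x)) * (P x - P ((v * v) • x)) ∂μ =
          ∫ x, (P x * P x + P ((v * v) • x) * P ((v * v) • x)) -
            2 * (P x * P ((v * v) • x)) ∂μ := by
        congr 1; funext x; ring
      rw [e4, Mid_int3 intPP iP2 (iPm.const_mul 2), e3, integral_const_mul]
      ring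
    have uf1 : Mid_UB (fun (u : G) x => (P (u⁻¹ • x) - P ((v * v) • u⁻¹ • x)) *
        (P (u⁻¹ • x) - P ((v * v) • u⁻¹ • x)) * (Q x * Q (v • x))) :=
      ((ub.sub uc).mul (ub.sub uc)).mul (uQ.mul uQv)
    have g1 : (2 * E - 2 * r) * R v ≤ 16 * η ^ 2 := by
      rw [← f1]
      have h1 := Mid_II_mono M (μ := μ) uf1
        (((Mid_UB.const 2).mul uD).add ((Mid_UB.const 2).mul us1)) (by
          intro u x
          exact Mid_pt1 (hQ x) (hQ (v • x)))
      rw [Mid_II_add M ((Mid_UB.const 2).mul uD) ((Mid_UB.const 2).mul us1),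
        Mid_II_smul M 2 uD, Mid_II_smul M 2 us1] at h1
      linarith
    -- second product formula
    have bA2 : BMR (fun x => P x * P ((v * v) • x)) := ⟨hPm.mul mP2, 1, fun x => by
      rw [abs_of_nonneg (mul_nonneg (hP _).1 (hP _).1)]
      exact mul_le_one₀ (hP _).2 (hP _).1 (hP _).2⟩
    have bB2 : BMR (fun x => (1 - Q (v • x)) * Q x) := by
      refine ⟨(measurable_const.sub (mQv v)).mul hQm, 1, fun x => ?_⟩
      have k1 := hQ x
      have k2 := hQ (v • x)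
      rw [abs_of_nonneg (mul_nonneg (by linarith [k2.2]) k1.1)]
      exact mul_le_one₀ (by linarith [k2.1]) k1.1 k1.2
    have f2 : Mid_II M μ (fun (u : G) x => P (u⁻¹ • x) * P ((v * v) • u⁻¹ • x) *
        ((1 - Q (v • x)) * Q x)) = r * (q - R v) := by
      rw [Mid_erg_inv hμ hErg M bA2 bB2]
      congr 1
      have e5 : ∫ x, (1 - Q (v • x)) * Q x ∂μ = ∫ x, (Q x - Q x * Q (v • x)) ∂μ := by
        congr 1; funext x; ring
      rw [e5, integral_sub intQ (iQQ v)]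
    have uf2 : Mid_UB (fun (u : G) x => P (u⁻¹ • x) * P ((v * v) • u⁻¹ • x) *
        ((1 - Q (v • x)) * Q x)) := (ub.mul uc).mul ((u1.sub uQv).mul uQ)
    have hη3 : 0 < 1 / (4 * η) := by positivity
    have g2 : r * (q - R v) ≤ 3 * η := by
      rw [← f2]
      have h1 := Mid_II_mono M (μ := μ) uf2
        ((us2.add ((Mid_UB.const (1 / (4 * η))).mul uD)).add (Mid_UB.const η)) (by
          intro u x
          exact Mid_pt2 hη0 (hQ x) (hQ (v • x)) (hP (u • x)) (hP ((v * v) • u⁻¹ • x)))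
      rw [Mid_II_add M (us2.add ((Mid_UB.const (1 / (4 * η))).mul uD)) (Mid_UB.const η),
        Mid_II_add M us2 ((Mid_UB.const (1 / (4 * η))).mul uD),
        Mid_II_smul M (1 / (4 * η)) uD, Mid_II_const M η] at h1
      have h2 : 1 / (4 * η) * Mid_II M μ (fun (u : G) x =>
          (P (u • x) - P (u⁻¹ • x)) * (P (u • x) - P (u⁻¹ • x)) * Q x) ≤
          1 / (4 * η) * (4 * η ^ 2) := mul_le_mul_of_nonneg_left e2' hη3.le
      have h3 : 1 / (4 * η) * (4 * η ^ 2) = η := by field_simp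
      linarith
    exact Mid_dich hp₀ hp₁ hη hElow g1 g2
  have hδ : 0 < p₀ ^ 2 / 50 := by positivity
  have hpp : p₀ ^ 2 ≤ p₀ / 2 := Mid_small hp₀ hp₁
  have hqq : p₀ ^ 2 / 4 ≤ q * q := by
    have h1 : p₀ / 2 * (p₀ / 2) ≤ q * q := mul_le_mul hqlow hqlow (by positivity) hq0
    have h2 : p₀ / 2 * (p₀ / 2) = p₀ ^ 2 / 4 := by ring
    linarith
  -- the subgroup
  have Rinv : ∀ v, R v⁻¹ = R v := by
    intro v
    have h1 := Mid_smul hμ v (F := fun x => Q x * Q (v⁻¹ • x)) (bQQ v⁻¹).1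
    show ∫ x, Q x * Q (v⁻¹ • x) ∂μ = ∫ x, Q x * Q (v • x) ∂μ
    rw [← h1]
    congr 1
    funext x
    rw [inv_smul_smul, mul_comm]
  have Rmul : ∀ v w, R v + R w - q ≤ R (v * w) := by
    intro v w
    have h1 : R (v * w) = ∫ x, Q (v⁻¹ • x) * Q (w • x) ∂μ := by
      have := Mid_smul hμ v (F := fun x => Q (v⁻¹ • x) * Q (w • x))
        ((mQv v⁻¹).mul (mQv w))
      rw [← this]
      show ∫ x, Q x * Q ((v * w) • x) ∂μ = _
      congr 1
      funext x
      rw [inv_smul_smul, smul_smul, mul_comm w v]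
    have h2 : R v + R w - q = ∫ x, (Q x * Q (v⁻¹ • x) + Q x * Q (w • x)) - Q x ∂μ := by
      rw [Mid_int3 (iQQ v⁻¹) (iQQ w) intQ]
      show R v + R w - q = R v⁻¹ + R w - q
      rw [Rinv]
    rw [h1, h2]
    have i3 : Integrable (fun x => Q (v⁻¹ • x) * Q (w • x)) μ :=
      Mid_int ((mQv v⁻¹).mul (mQv w)) (C := 1) fun x => by
        rw [abs_of_nonneg (mul_nonneg (hQ _).1 (hQ _).1)]
        exact mul_le_one₀ (hQ _).2 (hQ _).1 (hQ _).2
    refine integral_mono (((iQQ v⁻¹).add (iQQ w)).sub intQ) i3 fun x => ?_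
    exact Mid_pt3 (hQ x) (hQ (v⁻¹ • x)) (hQ (w • x))
  have R1 : q * q ≤ R 1 := by
    have i2 : Integrable (fun x => Q x * Q ((1 : G) • x)) μ := iQQ 1
    have h1 : 0 ≤ ∫ x, (Q x - q) * (Q x - q) ∂μ :=
      integral_nonneg fun x => mul_self_nonneg _
    have h2 : ∫ x, (Q x - q) * (Q x - q) ∂μ =
        ∫ x, (Q x * Q ((1 : G) • x) - 2 * q * Q x) + q * q ∂μ := by
      congr 1; funext x; rw [one_smul]; ring
    rw [h2, Mid_int3' i2 (intQ.const_mul (2 * q)) (q * q), integral_const_mul] at h1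
    change 0 ≤ R 1 - 2 * q * q + q * q at h1
    linarith
  let H : Subgroup G :=
    { carrier := {v | q - p₀ ^ 2 / 50 ≤ R v}
      one_mem' := by
        show q - p₀ ^ 2 / 50 ≤ R 1
        rcases dich 1 with h | h
        · exfalso
          linarith
        · exact h
      mul_mem' := by
        intro v w hv hw
        have hv' : q - p₀ ^ 2 / 50 ≤ R v := hv
        have hw' : q - p₀ ^ 2 / 50 ≤ R w := hw
        show q - p₀ ^ 2 / 50 ≤ R (v * w)
        rcases dich (v * w) with h | h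
        · exfalso
          have := Rmul v w
          linarith
        · exact h
      inv_mem' := by
        intro v hv
        have hv' : q - p₀ ^ 2 / 50 ≤ R v := hv
        show q - p₀ ^ 2 / 50 ≤ R v⁻¹
        rw [Rinv]; exact hv' }
  have hHmem : ∀ v, v ∈ H ↔ q - p₀ ^ 2 / 50 ≤ R v := fun v => Iff.rfl
  have bR : Bdd R := ⟨1, fun v => by
    rw [abs_of_nonneg (hR0 v)]; exact (hRq v).trans hq1⟩
  have mR : M.m R = q * q := by
    have h1 := met_erg_real hμ hErg M bQ bQ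
    rw [← h1]
    congr 1
    funext v
    show ∫ x, Q x * Q (v • x) ∂μ = _
    congr 1
    funext x
    ring
  have bInd : Bdd (fun u => Set.indicator (H : Set G) (fun _ => (1 : ℝ)) u) := by
    classical
    refine ⟨1, fun u => ?_⟩
    simp only [Set.indicator]
    split_ifs <;> simp
  have hind : q * q - p₀ ^ 2 / 50 ≤
      M.m (fun u => Set.indicator (H : Set G) (fun _ => (1 : ℝ)) u) := by
    classical
    have h1 := M.mono' R (fun u => p₀ ^ 2 / 50 +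
      Set.indicator (H : Set G) (fun _ => (1 : ℝ)) u) bR ((Bdd.const _).add bInd) (by
        intro v
        by_cases hv : v ∈ H
        · rw [Set.indicator_of_mem (show v ∈ (H : Set G) from hv)]
          have := hRq v
          linarith
        · rw [Set.indicator_of_notMem (show v ∉ (H : Set G) from hv), add_zero]
          rcases dich v with h | h
          · exact h
          · exact absurd h hv)
    rw [M.add' _ _ (Bdd.const _) bInd, M.m_const, mR] at h1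
    linarith
  have hfin : Finite (G ⧸ H) := Mid_finite M H (by linarith)
  have hFI : H.FiniteIndex := Subgroup.finiteIndex_of_finite_quotient
  have hall : ∀ v, v ∈ H := by
    intro v
    obtain ⟨h, hh⟩ := hG H.index (Nat.pos_of_ne_zero hFI.index_ne_zero) v
    rw [← hh]
    exact Subgroup.pow_index_mem H h
  have hlow : q - p₀ ^ 2 / 50 ≤ q * q := by
    rw [← mR]
    exact M.le_m_of_le bR fun v => hall v
  have hq3 : q ≤ 1 - p₀ / 2 := by linarith
  exact Mid_fin hp₀ hp₁ hqlow hq3 hlow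

end Dadc30
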