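import Pool.Agent.Lib.MP_dadc30_co.Next

/-!
# MP_dadc30_co, module NearDiagA: constant sections and near-diagonal invariant sets.

* `sq_const`: `x ↦ κ_x(D_x)` (`D_x = {y | (x,y) ∈ D}`) is strictly `G`-invariant, hence a.e.
  constant `= Y.sq D`; so `Y.sq (D ∩ {z.1 ∈ A}) = ∫_A κ_x(D_x) dμ = μ(A) Y.sq D`.
* `rho_inv`: `D_{g•x} = g D_x` and `κ (g•x) = (κ x).map g`.
* `nbhd_pos`: choose a finite measurable partition `(A_i)` of `Ω` and sets `B_{D,i}` with
  `Y.sq (D Δ ⋃ A_i × B_{D,i}) < η` for all `D ∈ Φ` (approximation of measurable sets of a product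
  by finite unions of rectangles).  Let `e_D(x) = κ_x(D_x Δ B_{D,i(x)})`, `∫ e_D dμ < η`; the set
  `Gd = {x | ∀ D ∈ Φ, e_D(x) < δ/2}` has positive measure for small `η` (Markov).  Some
  `A_i ∩ Gd =: S` has positive measure and `Y.sq (S × S) = ∫ |E[1_S|Y]|² ≥ μ(S)² > 0`; for a.e.
  `z ∈ S × S`: `κ_{z.1} = κ_{z.2}` so `rho D z ≤ e_D(z.1) + e_D(z.2) < δ`.
-/

open MeasureTheory ProbabilityTheory Filter Topology
open scoped ENNReal ComplexConjugate

namespace Dadc30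

variable {G : Type} [CommGroup G] {Ω : Type} [MeasurableSpace Ω] [MulAction G Ω]
  {μ : Measure Ω} [IsProbabilityMeasure μ]

/-- `ρ_D(x,x') = κ_x(D_x Δ D_{x'})` -/
noncomputable def Fac.rho (Y : Fac G μ) (D : Set (Ω × Ω)) (z : Ω × Ω) : ℝ≥0∞ :=
  Y.κ z.1 {y | ¬ ((z.1, y) ∈ D ↔ (z.2, y) ∈ D)}

/-- near-diagonal set -/
def Fac.nbhd (Y : Fac G μ) (Φ : Finset (Set (Ω × Ω))) (δ : ℝ≥0∞) : Set (Ω × Ω) :=
  {z | ∀ D ∈ Φ, Y.rho D z < δ}

/-- strictly invariant functions are a.e. constant -/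
theorem NearDiagA_const {β : Type*} [MeasurableSpace β] [Nonempty β]
    [MeasurableSpace.CountablySeparated β] (hE : Erg G μ) {F : Ω → β} (hF : Measurable F)
    (hi : ∀ (g : G) x, F (g • x) = F x) : ∃ c, ∀ᵐ x ∂μ, F x = c := by
  obtain ⟨c, hc⟩ := Filter.exists_eventuallyEq_const_of_forall_separating (l := ae μ) (f := F)
    MeasurableSet (fun U hU => by
      have hinv : InvSet G (F ⁻¹' U) := by
        refine ⟨hF hU, fun g => ?_⟩
        ext x
        show F (g • x) ∈ U ↔ F x ∈ U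
        rw [hi]
      rcases hE _ hinv with h | h
      · exact Or.inr (measure_eq_zero_iff_ae_notMem.1 h)
      · refine Or.inl ?_
        have h2 := measure_eq_zero_iff_ae_notMem.1 h
        filter_upwards [h2] with x hx
        by_contra hcon
        exact hx hcon)
  exact ⟨c, hc⟩

theorem NearDiagA_sec_measurable (Y : Fac G μ) {D : Set (Ω × Ω)} (hD : MeasurableSet D) :
    Measurable (fun x => Y.κ x {y | (x, y) ∈ D}) :=
  Kernel.measurable_kernel_prodMk_left hD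

theorem NearDiagA_map (hμ : PMP G μ) (Y : Fac G μ) (g : G) (x : Ω) {S : Set Ω}
    (hS : MeasurableSet S) : Y.κ (g • x) S = Y.κ x {y | g • y ∈ S} := by
  rw [Y.equiv g x, Measure.map_apply (hμ g).measurable hS]
  rfl

theorem NearDiagA_inv_iff {D : Set (Ω × Ω)} (hD : InvSet G D) (g : G) (x y : Ω) :
    (g • x, g • y) ∈ D ↔ (x, y) ∈ D := by
  have h := hD.2 g
  have h2 : (x, y) ∈ (fun z : Ω × Ω => g • z) ⁻¹' D ↔ (x, y) ∈ D := by rw [h]
  exact h2

theorem NearDiagA_sec_inv (hμ : PMP G μ) (Y : Fac G μ) {D : Set (Ω × Ω)} (hD : InvSet G D)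
    (g : G) (x : Ω) : Y.κ (g • x) {y | (g • x, y) ∈ D} = Y.κ x {y | (x, y) ∈ D} := by
  have hS : MeasurableSet {y | (g • x, y) ∈ D} := measurable_prodMk_left hD.1
  rw [NearDiagA_map hμ Y g x hS]
  congr 1
  ext y
  exact NearDiagA_inv_iff hD g x y

theorem sq_const (hμ : PMP G μ) (hE : Erg G μ) (Y : Fac G μ) {D : Set (Ω × Ω)}
    (hD : InvSet G D) {A : Set Ω} (hA : MeasurableSet A) :
    Y.sq (D ∩ {z | z.1 ∈ A}) = Y.sq D * μ A := by
  have hFm := NearDiagA_sec_measurable Y hD.1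
  obtain ⟨c, hc⟩ := NearDiagA_const (F := fun x => Y.κ x {y | (x, y) ∈ D}) hE hFm
    (fun g x => NearDiagA_sec_inv hμ Y hD g x)
  have hDA : MeasurableSet (D ∩ {z | z.1 ∈ A}) := hD.1.inter (measurable_fst hA)
  have h1 : Y.sq D = c := by
    rw [Y.sq_apply hD.1, lintegral_congr_ae hc, lintegral_const, measure_univ, mul_one]
  rw [h1, Y.sq_apply hDA]
  have h2 : ∀ x, Y.κ x {y | (x, y) ∈ D ∩ {z : Ω × Ω | z.1 ∈ A}} =
      A.indicator (fun x => Y.κ x {y | (x, y) ∈ D}) x := by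
    intro x
    by_cases hx : x ∈ A
    · rw [Set.indicator_of_mem hx]
      congr 1
      ext y
      exact ⟨fun h => h.1, fun h => ⟨h, hx⟩⟩
    · rw [Set.indicator_of_notMem hx]
      have h3 : {y | (x, y) ∈ D ∩ {z : Ω × Ω | z.1 ∈ A}} = ∅ := by
        ext y
        exact ⟨fun h => hx h.2, fun h => absurd h (Set.notMem_empty y)⟩
      rw [h3, measure_empty]
  rw [lintegral_congr h2, lintegral_indicator hA,
    lintegral_congr_ae (ae_restrict_of_ae hc), lintegral_const, Measure.restrict_apply_univ]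

theorem sq_const_snd (hμ : PMP G μ) (hE : Erg G μ) (Y : Fac G μ) {D : Set (Ω × Ω)}
    (hD : InvSet G D) {A : Set Ω} (hA : MeasurableSet A) :
    Y.sq (D ∩ {z | z.2 ∈ A}) = Y.sq D * μ A := by
  have hDA : MeasurableSet (D ∩ {z | z.2 ∈ A}) := hD.1.inter (measurable_snd hA)
  have h1 : Y.sq (D ∩ {z | z.2 ∈ A}) = Y.sq (Prod.swap ⁻¹' (D ∩ {z | z.2 ∈ A})) := by
    conv_lhs => rw [← Y.sq_swap]
    rw [Measure.map_apply measurable_swap hDA]
  have h2 : Y.sq D = Y.sq (Prod.swap ⁻¹' D) := by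
    conv_lhs => rw [← Y.sq_swap]
    rw [Measure.map_apply measurable_swap hD.1]
  rw [h1, h2, ← sq_const hμ hE Y hD.swap hA]
  rfl

theorem NearDiagA_fst (hμ : PMP G μ) (hE : Erg G μ) (Y : Fac G μ) {D : Set (Ω × Ω)}
    (hD : InvSet G D) : (Y.sq.restrict D).map Prod.fst = Y.sq D • μ := by
  ext A hA
  rw [Measure.map_apply measurable_fst hA, Measure.restrict_apply (measurable_fst hA),
    Measure.smul_apply, smul_eq_mul, ← sq_const hμ hE Y hD hA, Set.inter_comm]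
  rfl

theorem NearDiagA_snd (hμ : PMP G μ) (hE : Erg G μ) (Y : Fac G μ) {D : Set (Ω × Ω)}
    (hD : InvSet G D) : (Y.sq.restrict D).map Prod.snd = Y.sq D • μ := by
  ext A hA
  rw [Measure.map_apply measurable_snd hA, Measure.restrict_apply (measurable_snd hA),
    Measure.smul_apply, smul_eq_mul, ← sq_const_snd hμ hE Y hD hA, Set.inter_comm]
  rfl

/-- integral form: the first marginal of `Y.sq` restricted to `D` is `(Y.sq D) μ` -/
theorem sq_const_integral (hμ : PMP G μ) (hE : Erg G μ) (Y : Fac G μ) {D : Set (Ω × Ω)}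
    (hD : InvSet G D) {f : Ω → ℝ} (hf : BMR f) :
    ∫ z in D, f z.1 ∂Y.sq = (Y.sq D).toReal * ∫ x, f x ∂μ := by
  have h1 := integral_map (μ := Y.sq.restrict D) (φ := Prod.fst) measurable_fst.aemeasurable
    (f := f) hf.1.aestronglyMeasurable
  rw [← h1, NearDiagA_fst hμ hE Y hD, integral_smul_measure, smul_eq_mul]

theorem sq_const_integral_snd (hμ : PMP G μ) (hE : Erg G μ) (Y : Fac G μ) {D : Set (Ω × Ω)}
    (hD : InvSet G D) {f : Ω → ℝ} (hf : BMR f) :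
    ∫ z in D, f z.2 ∂Y.sq = (Y.sq D).toReal * ∫ x, f x ∂μ := by
  have h1 := integral_map (μ := Y.sq.restrict D) (φ := Prod.snd) measurable_snd.aemeasurable
    (f := f) hf.1.aestronglyMeasurable
  rw [← h1, NearDiagA_snd hμ hE Y hD, integral_smul_measure, smul_eq_mul]

theorem NearDiagA_iff {α : Type*} [MeasurableSpace α] {P Q : α → Prop}
    (hP : MeasurableSet {a | P a}) (hQ : MeasurableSet {a | Q a}) :
    MeasurableSet {a | ¬ (P a ↔ Q a)} := by
  have h : {a | ¬ (P a ↔ Q a)} = ({a | P a} \ {a | Q a}) ∪ ({a | Q a} \ {a | P a}) := by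
    ext a
    show ¬ (P a ↔ Q a) ↔ (P a ∧ ¬ Q a) ∨ (Q a ∧ ¬ P a)
    tauto
  rw [h]
  exact (hP.diff hQ).union (hQ.diff hP)

theorem rho_measurable (Y : Fac G μ) {D : Set (Ω × Ω)} (hD : MeasurableSet D) :
    Measurable (Y.rho D) := by
  have ht : MeasurableSet {p : (Ω × Ω) × Ω | ¬ ((p.1.1, p.2) ∈ D ↔ (p.1.2, p.2) ∈ D)} := by
    refine NearDiagA_iff ?_ ?_
    · exact ((measurable_fst.comp measurable_fst).prodMk measurable_snd) hD
    · exact ((measurable_snd.comp measurable_fst).prodMk measurable_snd) hD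
  have h := Kernel.measurable_kernel_prodMk_left (κ := Y.κ.comap Prod.fst measurable_fst) ht
  exact h

theorem rho_inv (hμ : PMP G μ) (Y : Fac G μ) {D : Set (Ω × Ω)} (hD : InvSet G D) (g : G)
    (z : Ω × Ω) : Y.rho D (g • z) = Y.rho D z := by
  have hS : MeasurableSet {y | ¬ ((g • z.1, y) ∈ D ↔ (g • z.2, y) ∈ D)} :=
    NearDiagA_iff (measurable_prodMk_left hD.1) (measurable_prodMk_left hD.1)
  have h1 : Y.rho D (g • z) = Y.κ (g • z.1) {y | ¬ ((g • z.1, y) ∈ D ↔ (g • z.2, y) ∈ D)} := rfl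
  rw [h1, NearDiagA_map hμ Y g z.1 hS]
  unfold Fac.rho
  congr 1
  ext y
  show ¬ ((g • z.1, g • y) ∈ D ↔ (g • z.2, g • y) ∈ D) ↔ ¬ ((z.1, y) ∈ D ↔ (z.2, y) ∈ D)
  rw [NearDiagA_inv_iff hD, NearDiagA_inv_iff hD]

theorem nbhd_inv (hμ : PMP G μ) (Y : Fac G μ) {Φ : Finset (Set (Ω × Ω))}
    (hΦ : ∀ D ∈ Φ, InvSet G D) (δ : ℝ≥0∞) : InvSet G (Y.nbhd Φ δ) := by
  refine ⟨?_, fun g => ?_⟩
  · have h : Y.nbhd Φ δ = ⋂ D ∈ Φ, {z | Y.rho D z < δ} := by
      ext z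
      simp only [Fac.nbhd, Set.mem_ofPred_eq, Set.mem_iInter]
    rw [h]
    exact Finset.measurableSet_biInter _ fun D hD =>
      measurableSet_lt (rho_measurable Y (hΦ D hD).1) measurable_const
  · ext z
    show (∀ D ∈ Φ, Y.rho D (g • z) < δ) ↔ ∀ D ∈ Φ, Y.rho D z < δ
    constructor
    · intro h D hD
      rw [← rho_inv hμ Y (hΦ D hD) g z]
      exact h D hD
    · intro h D hD
      rw [rho_inv hμ Y (hΦ D hD) g z]
      exact h D hD

theorem nbhd_mono (Y : Fac G μ) {Φ Φ' : Finset (Set (Ω × Ω))} (h : Φ ⊆ Φ') {δ δ' : ℝ≥0∞}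
    (hδ : δ' ≤ δ) : Y.nbhd Φ' δ' ⊆ Y.nbhd Φ δ :=
  fun _ hz D hD => lt_of_lt_of_le (hz D (h hD)) hδ

end Dadc30
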