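import Pool.Agent.Lib.MP_dadc30_co.Sq
import Pool.Agent.Lib.MP_dadc30_co.Ker
import Pool.Agent.Lib.MP_dadc30_co.Inv

/-!
# MP_dadc30_co, module Next: the next factor `I(Y)`.

`exists_next`: apply `exists_fac` to `Y.nextM`; `q_{D,B}(g•x) = q_{D,g⁻¹B}(x)` because `D` is
invariant and `κ` equivariant; measurability of `q_{D,B}`:
`Kernel.measurable_kernel_prodMk_left'`-like lemma.
-/

open MeasureTheory ProbabilityTheory Filter Topology
open scoped ENNReal ComplexConjugate

namespace Dadc30

variable {G : Type} [CommGroup G] {Ω : Type} [MeasurableSpace Ω] [MulAction G Ω]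
  {μ : Measure Ω} [IsProbabilityMeasure μ]

theorem next_le {Y V : Fac G μ} (h : IsNext Y V) : Y.m ≤ V.m := by
  intro A hA
  rw [h]
  exact MeasurableSpace.measurableSet_generateFrom (Or.inl hA)

theorem q_measurable (Y : Fac G μ) {D : Set (Ω × Ω)} {B : Set Ω} (hD : MeasurableSet D)
    (hB : MeasurableSet B) : Measurable (Y.q D B) := by
  have h := Kernel.measurable_kernel_prodMk_left (κ := Y.κ) (t := Prod.snd ⁻¹' B ∩ D)
    ((measurable_snd hB).inter hD)
  exact h

theorem q_measurable_next {Y V : Fac G μ} (h : IsNext Y V) {D : Set (Ω × Ω)} {B : Set Ω}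
    (hD : InvSet G D) (hB : MeasurableSet B) : Measurable[V.m] (Y.q D B) := by
  refine measurable_of_Iio fun s => ?_
  rw [h]
  exact MeasurableSpace.measurableSet_generateFrom (Or.inr ⟨D, B, s, hD, hB, rfl⟩)

theorem Next_q_smul (hμ : PMP G μ) (Y : Fac G μ) {D : Set (Ω × Ω)} {B : Set Ω}
    (hD : InvSet G D) (hB : MeasurableSet B) (g : G) (x : Ω) :
    Y.q D B (g • x) = Y.q D ((fun y : Ω => g • y) ⁻¹' B) x := by
  unfold Fac.q
  have hms : MeasurableSet {y | y ∈ B ∧ (g • x, y) ∈ D} :=
    hB.inter (measurable_prodMk_left hD.1)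
  rw [Y.equiv g x, Measure.map_apply (hμ g).measurable hms]
  congr 1
  ext y
  have h1 : ((g • x, g • y) : Ω × Ω) ∈ D ↔ (x, y) ∈ D := by
    have h2 := hD.2 g
    constructor
    · intro h3
      rw [← h2]
      exact h3
    · intro h3
      rw [← h2] at h3
      exact h3
  simp only [Set.mem_preimage, Set.mem_ofPred_eq, h1]

theorem exists_next [Countable G] [StandardBorelSpace Ω] (hμ : PMP G μ) (Y : Fac G μ) :
    ∃ V : Fac G μ, IsNext Y V := by
  refine exists_fac Y.nextM hμ ?_ ?_ ?_
  · apply MeasurableSpace.generateFrom_le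
    rintro A (hA | ⟨D, B, s, hD, hB, rfl⟩)
    · exact Y.le A hA
    · exact q_measurable Y hD.1 hB measurableSet_Iio
  · intro N hN h0
    exact MeasurableSpace.measurableSet_generateFrom (Or.inl (Y.null N hN h0))
  · intro g A hA
    have hm : @Measurable Ω Ω Y.nextM Y.nextM (fun x : Ω => g • x) := by
      refine @measurable_generateFrom Ω Ω Y.nextM _ _ ?_
      rintro A (hA | ⟨D, B, s, hD, hB, rfl⟩)
      · exact MeasurableSpace.measurableSet_generateFrom (Or.inl (Y.inv g A hA))
      · apply MeasurableSpace.measurableSet_generateFrom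
        refine Or.inr ⟨D, (fun y : Ω => g • y) ⁻¹' B, s, hD, (hμ g).measurable hB, ?_⟩
        ext x
        simp only [Set.mem_preimage, Set.mem_ofPred_eq, Next_q_smul hμ Y hD hB g x]
    exact hm hA

end Dadc30
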