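import Pool.Agent.Lib.MP_dadc30_co.GoodNext
import Pool.Agent.Lib.MP_dadc30_co.ErgDec
import Pool.Agent.Lib.MP_dadc30_co.Rad

/-!
# MP_dadc30_co, module PropV: `h_V` is approximated by transforms of ergodic singular measures.

Let `D` be from `near_diag` for the family `chi r`, `r ∈ R` and `ε' = ε/(|R|+1)`; `m_D` = law of
`z.1/z.2` under `Y.sq` conditioned on `D` (`(Y.sq D)⁻¹ • (Y.sq.restrict D)` mapped): a
`Γ₀`-invariant probability measure with `m_D Xc = 0` and
`|Re ft m_D r - V.h (chi r)| ≤ ε'`.  For every invariant `E ⊆ X`, the set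
`D ∩ {z.1/z.2 ∈ E}` is invariant and `diag_upper` gives
`Re ∫_E χ_r dm_D ≤ m_D(E) V.h(chi r)`.  Let `κ` be from `erg_dec` for `m_D` and
`ψ_r(y) = Re ft (κ y) r`, an `invSA`-measurable function with `∫_E ψ_r dm_D = Re ∫_E χ_r dm_D`;
with `E = {ψ_r > V.h(chi r)}`: `ψ_r ≤ V.h (chi r)` a.e.  Since
`∫ ∑_{r ∈ R} (V.h(chi r) - ψ_r) dm_D ≤ |R| ε' < ε`, some `y` in the full-measure set where
`κ y` is invariant, ergodic, `κ y Xc = 0` and `ψ_r ≤ V.h (chi r)` has
`∑_r (V.h (chi r) - ψ_r(y)) ≤ ε`.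
-/

open MeasureTheory ProbabilityTheory Filter Topology
open scoped ENNReal ComplexConjugate

namespace Dadc30

/-- disintegration over an invariant set -/
theorem PropV_integral {G : Type} [CommGroup G] {Ω : Type} [MeasurableSpace Ω] [MulAction G Ω]
    {μ : Measure Ω} [IsProbabilityMeasure μ] {κ : Kernel Ω Ω} [IsMarkovKernel κ]
    (hcond : ∀ A B, InvSet G A → MeasurableSet B → ∫⁻ x in A, κ x B ∂μ = μ (A ∩ B))
    {A : Set Ω} (hA : InvSet G A) {c : Ω → ℝ} (hc : BMR c) :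
    ∫ x in A, ∫ y, c y ∂(κ x) ∂μ = ∫ x in A, c x ∂μ := by
  have hsnd : ((μ.restrict A) ⊗ₘ κ).map Prod.snd = μ.restrict A := by
    ext B hB
    rw [Measure.map_apply measurable_snd hB, Measure.compProd_apply (measurable_snd hB),
      Measure.restrict_apply hB, Set.inter_comm, ← hcond A B hA hB]
    rfl
  have h1 : BMR (fun z : Ω × Ω => c z.2) := hc.comp measurable_snd
  have h2 := Measure.integral_compProd (h1.integrable ((μ.restrict A) ⊗ₘ κ))
  have h3 : ∫ x in A, c x ∂μ = ∫ z, c z.2 ∂((μ.restrict A) ⊗ₘ κ) := by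
    conv_lhs => rw [← hsnd]
    rw [integral_map measurable_snd.aemeasurable hc.1.aestronglyMeasurable]
  rw [h3, h2]

theorem propV {ν : Measure X} [IsProbabilityMeasure ν] (hν : PMP Γ₀ ν) (hE : Erg Γ₀ ν)
    {Y V : Fac Γ₀ ν} (h : IsNext Y V) (hs : Y.sing) (R : Finset K) (ε : ℝ) (hε : 0 < ε) :
    ∃ m : Measure X, IsProbabilityMeasure m ∧ PMP Γ₀ m ∧ Erg Γ₀ m ∧ m Xc = 0 ∧
      ∀ r ∈ R, |(ft m r).re - V.h (chi r)| ≤ ε := by
  obtain ⟨ε', hε'⟩ : ∃ ε' : ℝ, ε' = ε / (R.card + 1) := ⟨_, rfl⟩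
  have hε'0 : 0 < ε' := by rw [hε']; positivity
  have hε'1 : (R.card : ℝ) * ε' ≤ ε := by
    rw [hε', mul_div_assoc', div_le_iff₀ (by positivity)]
    nlinarith [hε.le]
  obtain ⟨D, hD, hpos, happ⟩ := near_diag hν hE h R (fun r => chi r)
    (fun r _ => measurable_chi r) (fun r _ x => (chi_norm r x).le) ε' hε'0
  have hDne : Y.sq D ≠ 0 := hpos.ne'
  have hDtop : Y.sq D ≠ ∞ := measure_ne_top _ _
  have hDr : 0 < (Y.sq D).toReal := ENNReal.toReal_pos hDne hDtop
  -- the conditioned measure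
  obtain ⟨P, hP⟩ : ∃ P : Measure (X × X), P = (Y.sq D)⁻¹ • Y.sq.restrict D := ⟨_, rfl⟩
  have hPprob : IsProbabilityMeasure P := by
    rw [hP]
    constructor
    rw [Measure.smul_apply, Measure.restrict_apply_univ, smul_eq_mul,
      ENNReal.inv_mul_cancel hDne hDtop]
  have hPpmp : PMP Γ₀ P := by
    intro g
    have h1 := (Y.sq_pmp hν g).restrict_preimage hD.1
    rw [hD.2 g] at h1
    rw [hP]
    exact h1.smul_measure _
  have hPint : ∀ (f : X × X → ℂ) (E : Set (X × X)), MeasurableSet E →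
      ∫ z in E, f z ∂P = ((Y.sq D).toReal⁻¹ : ℝ) • ∫ z in D ∩ E, f z ∂Y.sq := by
    intro f E hEm
    rw [hP, Measure.restrict_smul, integral_smul_measure, ENNReal.toReal_inv,
      Measure.restrict_restrict hEm, Set.inter_comm]
  obtain ⟨m, hm⟩ : ∃ m : Measure X, m = diffLaw P := ⟨_, rfl⟩
  have hmprob : IsProbabilityMeasure m := by rw [hm]; exact diffLaw_prob P
  have hmpmp : PMP Γ₀ m := by rw [hm]; exact diffLaw_pmp hPpmp
  have hmXc : m Xc = 0 := by
    rw [hm, diffLaw_Xc, hP, Measure.smul_apply]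
    have h1 : (Y.sq.restrict D) {z : X × X | z.1 / z.2 ∈ Xc} = 0 :=
      nonpos_iff_eq_zero.mp ((Measure.restrict_apply_le _ _).trans (le_of_eq hs))
    rw [h1, smul_zero]
  -- integrals over sets for `m`
  have hmint : ∀ (r : K) (E : Set X), MeasurableSet E →
      ∫ x in E, chi r x ∂m = ((Y.sq D).toReal⁻¹ : ℝ) •
        ∫ z in D ∩ {z : X × X | z.1 / z.2 ∈ E}, chi r z.1 * conj (chi r z.2) ∂Y.sq := by
    intro r E hEm
    have hEm' : MeasurableSet {z : X × X | z.1 / z.2 ∈ E} := measurable_div_X hEm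
    rw [← hPint _ _ hEm', hm]
    unfold diffLaw
    rw [setIntegral_map hEm (measurable_chi r).aestronglyMeasurable
      measurable_div_X.aemeasurable]
    simp only [chi_div]
    rfl
  have hmE : ∀ E : Set X, MeasurableSet E → (m E).toReal =
      (Y.sq D).toReal⁻¹ * (Y.sq (D ∩ {z : X × X | z.1 / z.2 ∈ E})).toReal := by
    intro E hEm
    have hEm' : MeasurableSet {z : X × X | z.1 / z.2 ∈ E} := measurable_div_X hEm
    have h1 : m E = (Y.sq D)⁻¹ * Y.sq (D ∩ {z : X × X | z.1 / z.2 ∈ E}) := by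
      rw [hm]
      unfold diffLaw
      rw [Measure.map_apply measurable_div_X hEm, hP, Measure.smul_apply, smul_eq_mul,
        Measure.restrict_apply (measurable_div_X hEm), Set.inter_comm]
      rfl
    rw [h1, ENNReal.toReal_mul, ENNReal.toReal_inv]
  have hupper : ∀ (r : K) (E : Set X), InvSet Γ₀ E →
      (∫ x in E, chi r x ∂m).re ≤ (m E).toReal * V.h (chi r) := by
    intro r E hEi
    have hDE : InvSet Γ₀ (D ∩ {z : X × X | z.1 / z.2 ∈ E}) := by
      refine ⟨hD.1.inter (measurable_div_X hEi.1), fun g => ?_⟩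
      rw [Set.preimage_inter, hD.2 g]
      congr 1
      ext z
      show (g • z.1) / (g • z.2) ∈ E ↔ z.1 / z.2 ∈ E
      rw [← smul_div_X]
      have h2 : (z.1 / z.2 ∈ (fun x : X => g • x) ⁻¹' E) ↔ z.1 / z.2 ∈ E := by rw [hEi.2 g]
      exact h2
    have h1 := diag_upper hν hE h (BM_chi r) hDE
    rw [hmint r E hEi.1, hmE E hEi.1, Complex.smul_re, smul_eq_mul, mul_assoc]
    exact mul_le_mul_of_nonneg_left h1 (inv_nonneg.mpr hDr.le)
  have hlower : ∀ r ∈ R, V.h (chi r) - ε' ≤ (∫ x, chi r x ∂m).re := by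
    intro r hr
    have h1 := (abs_le.mp (happ r hr)).1
    have h2 := hmint r Set.univ MeasurableSet.univ
    rw [Measure.restrict_univ] at h2
    have h3 : D ∩ {z : X × X | z.1 / z.2 ∈ (Set.univ : Set X)} = D := by
      ext z; simp
    rw [h2, h3, Complex.smul_re, smul_eq_mul, ← div_eq_inv_mul, le_div_iff₀ hDr]
    linarith
  -- the ergodic decomposition
  obtain ⟨κ, hκM, hκmeas, hκcond, hκae⟩ := erg_dec (G := Γ₀) hmpmp
  obtain ⟨ψ, hψ⟩ : ∃ ψ : K → X → ℝ, ψ = fun r y => ∫ x, (chi r x).re ∂(κ y) := ⟨_, rfl⟩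
  have hψft : ∀ r y, (ft (κ y) r).re = ψ r y := by
    intro r y
    rw [hψ]
    exact (integral_re (𝕜 := ℂ) ((BM_chi r).integrable (κ y))).symm
  have hψmeas : ∀ r, Measurable (ψ r) := by
    intro r
    rw [hψ]
    exact ((BM_chi r).re.1.stronglyMeasurable.integral_kernel (κ := κ)).measurable
  have hκinv : ∀ (g : Γ₀) (y : X), κ (g • y) = κ y := by
    intro g y
    ext B hB
    have h1 : InvSet Γ₀ ((fun x => κ x B) ⁻¹' {κ y B}) := hκmeas B hB (measurableSet_singleton _)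
    have h2 : y ∈ (fun x : X => g • x) ⁻¹' ((fun x => κ x B) ⁻¹' {κ y B}) := by
      rw [h1.2 g]; rfl
    exact h2
  have hψinv : ∀ r (g : Γ₀) (y : X), ψ r (g • y) = ψ r y := by
    intro r g y
    rw [hψ]
    simp only [hκinv g y]
  have hψbd : ∀ r y, |ψ r y| ≤ 1 := by
    intro r y
    rw [← hψft r y]
    refine (Complex.abs_re_le_norm _).trans ?_
    have h1 := ft_norm_le (κ y) r
    rw [measure_univ, ENNReal.toReal_one] at h1
    exact h1
  have hψint : ∀ r (A : Set X), Integrable (ψ r) (m.restrict A) := fun r A =>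
    Integrable.of_bound (hψmeas r).aestronglyMeasurable 1 (ae_of_all _ fun y => hψbd r y)
  have hψE : ∀ r (A : Set X), InvSet Γ₀ A → ∫ y in A, ψ r y ∂m = (∫ x in A, chi r x ∂m).re := by
    intro r A hA
    rw [hψ, PropV_integral hκcond hA (BM_chi r).re]
    exact integral_re (𝕜 := ℂ) ((BM_chi r).integrable (m.restrict A))
  have hle : ∀ r, ∀ᵐ y ∂m, ψ r y ≤ V.h (chi r) := by
    intro r
    have hEi : InvSet Γ₀ {y | V.h (chi r) < ψ r y} := by
      refine ⟨measurableSet_lt measurable_const (hψmeas r), fun g => ?_⟩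
      ext y
      simp only [Set.mem_preimage, Set.mem_ofPred_eq, hψinv r g y]
    have h1 := hupper r _ hEi
    rw [← hψE r _ hEi] at h1
    have h2 : ∫ y in {y | V.h (chi r) < ψ r y}, (ψ r y - V.h (chi r)) ∂m ≤ 0 := by
      rw [integral_sub (hψint r _) (integrable_const _), integral_const,
        measureReal_restrict_apply_univ, smul_eq_mul]
      have h3 : m.real {y | V.h (chi r) < ψ r y} = (m {y | V.h (chi r) < ψ r y}).toReal := rfl
      rw [h3]
      linarith
    have h4 : 0 ≤ᵐ[m.restrict {y | V.h (chi r) < ψ r y}] fun y => ψ r y - V.h (chi r) := by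
      filter_upwards [ae_restrict_mem hEi.1] with y hy
      have : V.h (chi r) < ψ r y := hy
      exact (sub_pos.mpr this).le
    have h5 : ∫ y in {y | V.h (chi r) < ψ r y}, (ψ r y - V.h (chi r)) ∂m = 0 :=
      le_antisymm h2 (integral_nonneg_of_ae h4)
    have h6 := (integral_eq_zero_iff_of_nonneg_ae h4
      ((hψint r _).sub (integrable_const _))).mp h5
    have h7 : ∀ᵐ y ∂(m.restrict {y | V.h (chi r) < ψ r y}), False := by
      filter_upwards [h6, ae_restrict_mem hEi.1] with y hy1 hy2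
      have h8 : V.h (chi r) < ψ r y := hy2
      have h9 : ψ r y - V.h (chi r) = 0 := hy1
      linarith
    have h10 : m {y | V.h (chi r) < ψ r y} = 0 := by
      rw [← Measure.restrict_eq_zero]
      exact ae_eq_bot.mp (Filter.eventually_false_iff_eq_bot.mp h7)
    rw [ae_iff]
    simpa only [not_le] using h10
  have hXcκ : ∀ᵐ y ∂m, κ y Xc = 0 := by
    have h1 := hκcond Set.univ Xc ⟨MeasurableSet.univ, fun g => rfl⟩ measurableSet_Xc
    rw [Measure.restrict_univ, Set.univ_inter, hmXc] at h1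
    exact (lintegral_eq_zero_iff (κ.measurable_coe measurableSet_Xc)).mp h1
  have hall : ∀ᵐ y ∂m, (PMP Γ₀ (κ y) ∧ Erg Γ₀ (κ y)) ∧ κ y Xc = 0 ∧
      ∀ r ∈ R, ψ r y ≤ V.h (chi r) := by
    have h1 : ∀ᵐ y ∂m, ∀ r ∈ R, ψ r y ≤ V.h (chi r) :=
      (ae_ball_iff R.countable_toSet).mpr fun r _ => hle r
    filter_upwards [hκae, hXcκ, h1] with y ha hb hc
    exact ⟨ha, hb, hc⟩
  obtain ⟨Φ, hΦ⟩ : ∃ Φ : X → ℝ, Φ = fun y => ∑ r ∈ R, (V.h (chi r) - ψ r y) := ⟨_, rfl⟩
  have hΦi : Integrable Φ m := by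
    rw [hΦ]
    refine integrable_finsetSum R fun r _ => ?_
    have := hψint r Set.univ
    rw [Measure.restrict_univ] at this
    exact (integrable_const _).sub this
  obtain ⟨y, hyN, hy⟩ := exists_notMem_null_le_integral hΦi (ae_iff.mp hall)
  have hgood : (PMP Γ₀ (κ y) ∧ Erg Γ₀ (κ y)) ∧ κ y Xc = 0 ∧
      ∀ r ∈ R, ψ r y ≤ V.h (chi r) := by
    by_contra hcon
    exact hyN hcon
  have hΦle : ∫ y, Φ y ∂m ≤ ε := by
    have h1 : ∫ y, Φ y ∂m = ∑ r ∈ R, (V.h (chi r) - (∫ x, chi r x ∂m).re) := by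
      rw [hΦ, integral_finsetSum]
      · refine Finset.sum_congr rfl fun r _ => ?_
        have h2 := hψint r Set.univ
        rw [Measure.restrict_univ] at h2
        have h3 := hψE r Set.univ ⟨MeasurableSet.univ, fun g => rfl⟩
        rw [Measure.restrict_univ] at h3
        rw [integral_sub (integrable_const _) h2, integral_const, h3]
        simp
      · intro r _
        have h2 := hψint r Set.univ
        rw [Measure.restrict_univ] at h2
        exact (integrable_const _).sub h2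
    rw [h1]
    have h2 : ∑ r ∈ R, (V.h (chi r) - (∫ x, chi r x ∂m).re) ≤ ∑ _r ∈ R, ε' :=
      Finset.sum_le_sum fun r hr => by have := hlower r hr; linarith
    rw [Finset.sum_const, nsmul_eq_mul] at h2
    exact h2.trans hε'1
  refine ⟨κ y, inferInstance, hgood.1.1, hgood.1.2, hgood.2.1, fun r hr => ?_⟩
  rw [hψft]
  have h1 : V.h (chi r) - ψ r y ≤ Φ y := by
    rw [hΦ]
    exact Finset.single_le_sum (f := fun r => V.h (chi r) - ψ r y)
      (fun i hi => sub_nonneg.mpr (hgood.2.2 i hi)) hr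
  have h2 := hgood.2.2 r hr
  rw [abs_le]
  constructor
  · linarith
  · linarith

end Dadc30
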