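import Pool.Agent.Lib.MP_dadc30_co.QLdefs

/-!
# MP_dadc30_co, module QLa: the measure of `BZ Z N`.

`E|a|² = N^{-2|Z|} ∑_{n,m ∈ [N]^Z} f_j(∑ (n_z - m_z) z)`; the proportion `w` of pairs with
`∑ (n_z-m_z) z = 0` is at most `1/N` (fix all coordinates but one: for each `n_{z0}` at most one
`m_{z0}`), the other terms tend to `Φ`; so `E|a|² → w + (1-w)Φ`, and likewise
`E|a|⁴ → w' + (1-w')Φ`, `0 ≤ w, w' ≤ 1/N`.  With `S = |a|² ∈ [0,1]`:
`|ν(BZ) - E S| ≤ 2 E S(1-S)`.  Here `|Φ| ≤ 1`.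
`ql_close`: all factors have norm ≤ 1, so each has norm² ≥ 1/2; geometric sum
`|∑_{n<N} ζ^n| ≤ 2/|ζ-1|`.
-/

open MeasureTheory ProbabilityTheory Filter Topology
open scoped ENNReal ComplexConjugate

namespace Dadc30

theorem QLa_aZ_measurable (Z : Finset K) (N : ℕ) : Measurable (aZ Z N) := by
  unfold aZ
  refine Finset.measurable_prod _ fun z _ => ?_
  refine Measurable.const_mul ?_ _
  refine Finset.measurable_sum _ fun n _ => ?_
  exact (measurable_chi z).pow_const n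

theorem measurableSet_BZ (Z : Finset K) (N : ℕ) : MeasurableSet (BZ Z N) := by
  unfold BZ
  exact measurableSet_le measurable_const ((QLa_aZ_measurable Z N).norm.pow_const 2)

theorem measurableSet_near (Z : Finset K) (η : ℝ) : MeasurableSet (near Z η) := by
  have : near Z η = ⋂ z ∈ Z, {x : X | ‖chi z x - 1‖ ≤ η} := by
    ext x
    simp [near]
  rw [this]
  refine Finset.measurableSet_biInter Z fun z _ => ?_
  exact measurableSet_le ((measurable_chi z).sub_const 1).norm measurable_const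

/-! ### averages of characters -/

/-- the average of a finite family of characters -/
noncomputable def QLa_Av {J : Type} [Fintype J] (v : J → K) (x : X) : ℂ :=
  (Fintype.card J : ℂ)⁻¹ * ∑ j, chi (v j) x

theorem QLa_Av_mul {I J : Type} [Fintype I] [Fintype J] (u : I → K) (v : J → K) (x : X) :
    QLa_Av u x * QLa_Av v x = QLa_Av (fun p : I × J => u p.1 + v p.2) x := by
  unfold QLa_Av
  rw [Fintype.card_prod, Fintype.sum_prod_type, mul_mul_mul_comm, Finset.sum_mul_sum]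
  simp only [chi_add]
  push_cast
  rw [mul_inv]

theorem QLa_Av_conj {J : Type} [Fintype J] (v : J → K) (x : X) :
    conj (QLa_Av v x) = QLa_Av (fun j => - v j) x := by
  unfold QLa_Av
  rw [map_mul, map_sum, map_inv₀, Complex.conj_natCast]
  simp only [chi_neg]

theorem QLa_chi_sum {ι : Type*} (s : Finset ι) (f : ι → K) (x : X) :
    chi (∑ i ∈ s, f i) x = ∏ i ∈ s, chi (f i) x := by
  classical
  induction s using Finset.induction_on with
  | empty => rw [Finset.sum_empty, Finset.prod_empty, chi_zero]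
  | insert a s ha ih => rw [Finset.sum_insert ha, Finset.prod_insert ha, chi_add, ih]

/-- the frequencies -/
noncomputable def QLa_e (Z : Finset K) (N : ℕ) (n : Z → Fin N) : K :=
  ∑ z : Z, ((n z : ℕ) : K) * (z : K)

theorem QLa_aZ_eq (Z : Finset K) (N : ℕ) (x : X) : aZ Z N x = QLa_Av (QLa_e Z N) x := by
  classical
  unfold aZ QLa_Av
  rw [Finset.prod_mul_distrib, Finset.prod_const]
  have h1 : ∏ z ∈ Z, ∑ n ∈ Finset.range N, chi z x ^ n =
      ∑ n : Z → Fin N, ∏ z : Z, chi (z : K) x ^ ((n z : Fin N) : ℕ) := by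
    rw [← Finset.prod_coe_sort Z]
    simp_rw [Finset.sum_range]
    rw [Finset.prod_univ_sum, Fintype.piFinset_univ]
  rw [h1]
  congr 1
  · simp
  · refine Finset.sum_congr rfl fun n _ => ?_
    unfold QLa_e
    rw [QLa_chi_sum]
    refine Finset.prod_congr rfl fun z _ => ?_
    rw [chi_nsmul]

/-- the number of coincidences -/
theorem QLa_count {I : Type} [Fintype I] [DecidableEq K] (Z : Finset K) (z0 : K) (hz0 : z0 ∈ Z)
    (h0 : z0 ≠ 0) (N : ℕ) (c : I → K) :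
    (Finset.univ.filter fun p : I × (Z → Fin N) => c p.1 + - QLa_e Z N p.2 = 0).card * N ≤
      Fintype.card (I × (Z → Fin N)) := by
  classical
  set A := Finset.univ.filter fun p : I × (Z → Fin N) => c p.1 + - QLa_e Z N p.2 = 0 with hA
  have h1 : (A ×ˢ (Finset.univ : Finset (Fin N))).card = A.card * N := by
    rw [Finset.card_product, Finset.card_univ, Fintype.card_fin]
  rw [← h1, ← Finset.card_univ]
  refine Finset.card_le_card_of_injOn
    (fun q : (I × (Z → Fin N)) × Fin N => (q.1.1, Function.update q.1.2 ⟨z0, hz0⟩ q.2))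
    (fun _ _ => Finset.mem_univ _) ?_
  rintro ⟨⟨i, m⟩, t⟩ hp ⟨⟨i', m'⟩, t'⟩ hp' heq
  have hp1 : (i, m) ∈ A := (Finset.mem_product.mp hp).1
  have hp2 : (i', m') ∈ A := (Finset.mem_product.mp hp').1
  rw [hA, Finset.mem_filter] at hp1 hp2
  have e1 : i = i' := congrArg Prod.fst heq
  have e2 : Function.update m ⟨z0, hz0⟩ t = Function.update m' ⟨z0, hz0⟩ t' :=
    congrArg Prod.snd heq
  have e3 : t = t' := by
    have := congrFun e2 ⟨z0, hz0⟩
    rwa [Function.update_self, Function.update_self] at this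
  have e4 : ∀ z, z ≠ (⟨z0, hz0⟩ : Z) → m z = m' z := by
    intro z hz
    have := congrFun e2 z
    rwa [Function.update_of_ne hz, Function.update_of_ne hz] at this
  subst e1
  subst e3
  have e5 : QLa_e Z N m = QLa_e Z N m' := by
    have a1 : c i + - QLa_e Z N m = 0 := hp1.2
    have a2 : c i + - QLa_e Z N m' = 0 := hp2.2
    have a3 : - QLa_e Z N m = - QLa_e Z N m' := by
      rw [← a2] at a1
      exact add_left_cancel a1
    exact neg_injective a3
  have e6 : m ⟨z0, hz0⟩ = m' ⟨z0, hz0⟩ := by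
    unfold QLa_e at e5
    rw [← Finset.add_sum_erase _ _ (Finset.mem_univ (⟨z0, hz0⟩ : Z)),
      ← Finset.add_sum_erase (Finset.univ : Finset Z) (fun z : Z => ((m' z : ℕ) : K) * (z : K))
        (Finset.mem_univ (⟨z0, hz0⟩ : Z))] at e5
    have e7 : ∑ z ∈ (Finset.univ : Finset Z).erase ⟨z0, hz0⟩, ((m z : ℕ) : K) * (z : K) =
        ∑ z ∈ (Finset.univ : Finset Z).erase ⟨z0, hz0⟩, ((m' z : ℕ) : K) * (z : K) := by
      refine Finset.sum_congr rfl fun z hz => ?_
      rw [e4 z (Finset.ne_of_mem_erase hz)]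
    rw [e7] at e5
    have e8 := add_right_cancel e5
    have e9 : ((m ⟨z0, hz0⟩ : ℕ) : K) = ((m' ⟨z0, hz0⟩ : ℕ) : K) := mul_right_cancel₀ h0 e8
    exact Fin.ext (Nat.cast_injective e9)
  have e10 : m = m' := by
    funext z
    by_cases hz : z = ⟨z0, hz0⟩
    · rw [hz]; exact e6
    · exact e4 z hz
  rw [e10]

/-- integrals of averages of characters -/
theorem QLa_integral {J : Type} [Fintype J] (v : J → K) (S : X → ℝ)
    (hS : ∀ x, ((S x : ℝ) : ℂ) = QLa_Av v x) (ν : Measure X) [IsFiniteMeasure ν] :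
    ∫ x, S x ∂ν = (Fintype.card J : ℝ)⁻¹ * ∑ j, (ft ν (v j)).re := by
  have h1 : ((∫ x, S x ∂ν : ℝ) : ℂ) = (Fintype.card J : ℂ)⁻¹ * ∑ j, ft ν (v j) := by
    rw [← integral_complex_ofReal]
    simp_rw [hS]
    unfold QLa_Av
    rw [integral_const_mul, integral_finsetSum _ fun j _ => (BM_chi (v j)).integrable ν]
    rfl
  have h2 := congrArg Complex.re h1
  rw [Complex.ofReal_re] at h2
  rw [h2]
  have h3 : (Fintype.card J : ℂ)⁻¹ = (((Fintype.card J : ℝ)⁻¹ : ℝ) : ℂ) := by push_cast; rfl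
  rw [h3, Complex.re_ofReal_mul, Complex.re_sum]

theorem QLa_lim {J : Type} [Fintype J] [Nonempty J] (v : J → K) (S : X → ℝ)
    (hS : ∀ x, ((S x : ℝ) : ℂ) = QLa_Av v x) (ν : ℕ → Measure X)
    (hp : ∀ j, IsProbabilityMeasure (ν j)) (Φ : ℝ)
    (h : ∀ z : K, z ≠ 0 → Tendsto (fun j => (ft (ν j) z).re) atTop (𝓝 Φ)) [DecidableEq K]
    (N : ℕ) (hN : 0 < N)
    (hc : (Finset.univ.filter fun j => v j = 0).card * N ≤ Fintype.card J) :
    ∃ w : ℝ, 0 ≤ w ∧ w ≤ 1 / N ∧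
      Tendsto (fun i => ∫ x, S x ∂(ν i)) atTop (𝓝 (w + (1 - w) * Φ)) := by
  have hN' : (0 : ℝ) < N := by exact_mod_cast hN
  have hJ : (0 : ℝ) < Fintype.card J := by exact_mod_cast Fintype.card_pos
  refine ⟨(Finset.univ.filter fun j => v j = 0).card / Fintype.card J, by positivity, ?_, ?_⟩
  · rw [div_le_div_iff₀ hJ hN', one_mul]
    exact_mod_cast hc
  · have h1 : ∀ i, ∫ x, S x ∂(ν i) = (Fintype.card J : ℝ)⁻¹ * ∑ j, (ft (ν i) (v j)).re :=
      fun i => QLa_integral v S hS (ν i)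
    simp_rw [h1]
    have h2 : ∀ j : J, Tendsto (fun i => (ft (ν i) (v j)).re) atTop
        (𝓝 (if v j = 0 then 1 else Φ)) := by
      intro j
      by_cases hj : v j = 0
      · rw [if_pos hj, hj]
        have : (fun i => (ft (ν i) 0).re) = fun _ => (1 : ℝ) := by
          funext i
          unfold ft
          simp_rw [chi_zero]
          simp
        rw [this]
        exact tendsto_const_nhds
      · rw [if_neg hj]
        exact h _ hj
    have h3 := (tendsto_finsetSum (Finset.univ : Finset J) fun j _ => h2 j).const_mul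
      (Fintype.card J : ℝ)⁻¹
    have h4 : (Fintype.card J : ℝ)⁻¹ * ∑ j : J, (if v j = 0 then 1 else Φ) =
        (Finset.univ.filter fun j => v j = 0).card / Fintype.card J +
        (1 - (Finset.univ.filter fun j => v j = 0).card / Fintype.card J) * Φ := by
      have h5 : ∑ j : J, (if v j = 0 then (1 : ℝ) else Φ) =
          (Finset.univ.filter fun j => v j = 0).card +
          ((Fintype.card J : ℝ) - (Finset.univ.filter fun j => v j = 0).card) * Φ := by
        have h6 : ∀ j : J, (if v j = 0 then (1 : ℝ) else Φ) =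
            Φ + (if v j = 0 then (1 - Φ) else 0) := by
          intro j
          split_ifs <;> ring
        simp_rw [h6]
        rw [Finset.sum_add_distrib, ← Finset.sum_filter, Finset.sum_const, Finset.sum_const,
          Finset.card_univ]
        simp only [nsmul_eq_mul]
        ring
      rw [h5]
      field_simp
    rw [h4] at h3
    exact h3

theorem QLa_aZ_norm_le (Z : Finset K) (N : ℕ) (x : X) : ‖aZ Z N x‖ ≤ 1 := by
  rw [QLa_aZ_eq]
  unfold QLa_Av
  rw [norm_mul, norm_inv, Complex.norm_natCast]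
  have h1 : ‖∑ j : Z → Fin N, chi (QLa_e Z N j) x‖ ≤ Fintype.card (Z → Fin N) := by
    refine (norm_sum_le _ _).trans ?_
    simp_rw [chi_norm]
    simp
  rcases Nat.eq_zero_or_pos (Fintype.card (Z → Fin N)) with h2 | h2
  · rw [h2]; simp
  · have h3 : (0 : ℝ) < Fintype.card (Z → Fin N) := by exact_mod_cast h2
    rw [inv_mul_le_iff₀ h3, mul_one]
    exact h1

/-- the indicator function of `s ≥ 1/2` against `s` -/
theorem QLa_pt {s : ℝ} (h0 : 0 ≤ s) (h1 : s ≤ 1) :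
    |(if 1 / 2 ≤ s then 1 else 0) - s| ≤ 2 * (s - s ^ 2) := by
  split_ifs with h
  · rw [abs_of_nonneg (by linarith)]
    nlinarith
  · push Not at h
    rw [zero_sub, abs_neg, abs_of_nonneg h0]
    nlinarith

theorem QLa_meas_le (Z : Finset K) (N : ℕ) (ν : Measure X) [IsProbabilityMeasure ν] :
    |(ν (BZ Z N)).toReal - ∫ x, ‖aZ Z N x‖ ^ 2 ∂ν| ≤
      2 * ((∫ x, ‖aZ Z N x‖ ^ 2 ∂ν) - ∫ x, (‖aZ Z N x‖ ^ 2) ^ 2 ∂ν) := by
  classical
  have hm := (QLa_aZ_measurable Z N).norm.pow_const 2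
  have hle : ∀ x, ‖aZ Z N x‖ ^ 2 ≤ 1 := fun x =>
    pow_le_one₀ (norm_nonneg _) (QLa_aZ_norm_le Z N x)
  have hi1 : Integrable (fun x => ‖aZ Z N x‖ ^ 2) ν :=
    Integrable.of_bound hm.aestronglyMeasurable 1 (Filter.Eventually.of_forall fun x => by
      rw [Real.norm_eq_abs, abs_of_nonneg (by positivity)]; exact hle x)
  have hi2 : Integrable (fun x => (‖aZ Z N x‖ ^ 2) ^ 2) ν :=
    Integrable.of_bound (hm.pow_const 2).aestronglyMeasurable 1
      (Filter.Eventually.of_forall fun x => by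
        rw [Real.norm_eq_abs, abs_of_nonneg (by positivity)]
        exact pow_le_one₀ (by positivity) (hle x))
  have hB := measurableSet_BZ Z N
  have hi3 : Integrable (fun x => (BZ Z N).indicator (fun _ => (1 : ℝ)) x) ν :=
    (integrable_const (1 : ℝ)).indicator hB
  have h1 : (ν (BZ Z N)).toReal = ∫ x, (BZ Z N).indicator (fun _ => (1 : ℝ)) x ∂ν := by
    rw [integral_indicator hB]
    simp [Measure.real]
  rw [h1, ← integral_sub hi3 hi1, ← integral_sub hi1 hi2, ← integral_const_mul]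
  refine (abs_integral_le_integral_abs).trans ?_
  refine integral_mono (hi3.sub hi1).abs ((hi1.sub hi2).const_mul 2) fun x => ?_
  have h2 := QLa_pt (s := ‖aZ Z N x‖ ^ 2) (by positivity) (hle x)
  have h3 : (BZ Z N).indicator (fun _ => (1 : ℝ)) x =
      if 1 / 2 ≤ ‖aZ Z N x‖ ^ 2 then 1 else 0 := by
    rw [Set.indicator_apply]
    rfl
  simp only [Pi.sub_apply]
  rw [h3]
  exact h2

theorem ql_meas (ν : ℕ → Measure X) (hp : ∀ j, IsProbabilityMeasure (ν j))
    (hν : ∀ j, PMP Γ₀ (ν j)) (Φ : ℝ)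
    (h : ∀ z : K, z ≠ 0 → Tendsto (fun j => (ft (ν j) z).re) atTop (𝓝 Φ))
    (Z : Finset K) (hZ : Z.Nonempty) (h0 : ∀ z ∈ Z, z ≠ 0) (N : ℕ) (hN : 0 < N) :
    ∀ᶠ j in atTop, |((ν j) (BZ Z N)).toReal - Φ| ≤ 20 / N := by
  classical
  obtain ⟨z0, hz0⟩ := hZ
  have hN' : (0 : ℝ) < N := by exact_mod_cast hN
  have hne : NeZero N := ⟨hN.ne'⟩
  have hz := h0 z0 hz0
  -- `|Φ| ≤ 1`
  have hΦ : |Φ| ≤ 1 := by
    refine le_of_tendsto (h z0 hz).abs (Filter.Eventually.of_forall fun j => ?_)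
    refine (Complex.abs_re_le_norm _).trans ?_
    unfold ft
    have := norm_integral_le_of_norm_le_const (μ := ν j) (f := fun x => chi z0 x) (C := 1)
      (Filter.Eventually.of_forall fun x => (chi_norm z0 x).le)
    simpa using this
  obtain ⟨hΦ1, hΦ2⟩ := abs_le.mp hΦ
  -- the two limits
  have hS1 : ∀ x, ((‖aZ Z N x‖ ^ 2 : ℝ) : ℂ) =
      QLa_Av (fun p : (Z → Fin N) × (Z → Fin N) => QLa_e Z N p.1 + - QLa_e Z N p.2) x := by
    intro x
    rw [← QLa_Av_mul (QLa_e Z N) (fun m => - QLa_e Z N m), ← QLa_Av_conj, ← QLa_aZ_eq,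
      Complex.mul_conj, Complex.normSq_eq_norm_sq]
  have hS2 : ∀ x, (((‖aZ Z N x‖ ^ 2) ^ 2 : ℝ) : ℂ) =
      QLa_Av (fun p : (((Z → Fin N) × (Z → Fin N)) × (Z → Fin N)) × (Z → Fin N) =>
        (QLa_e Z N p.1.1.1 + - QLa_e Z N p.1.1.2 + QLa_e Z N p.1.2) + - QLa_e Z N p.2) x := by
    intro x
    rw [← QLa_Av_mul (fun q : ((Z → Fin N) × (Z → Fin N)) × (Z → Fin N) =>
        QLa_e Z N q.1.1 + - QLa_e Z N q.1.2 + QLa_e Z N q.2) (fun m => - QLa_e Z N m),
      ← QLa_Av_mul (fun q : (Z → Fin N) × (Z → Fin N) => QLa_e Z N q.1 + - QLa_e Z N q.2)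
        (QLa_e Z N), ← hS1, ← QLa_Av_conj, ← QLa_aZ_eq, mul_assoc, Complex.mul_conj,
      Complex.normSq_eq_norm_sq]
    push_cast
    ring
  obtain ⟨w, hw0, hw1, hw⟩ := QLa_lim _ _ hS1 ν hp Φ h N hN
    (QLa_count Z z0 hz0 hz N (QLa_e Z N))
  obtain ⟨w', hw0', hw1', hw'⟩ := QLa_lim _ _ hS2 ν hp Φ h N hN
    (QLa_count Z z0 hz0 hz N (fun q : ((Z → Fin N) × (Z → Fin N)) × (Z → Fin N) =>
        QLa_e Z N q.1.1 + - QLa_e Z N q.1.2 + QLa_e Z N q.2))
  have hlim := ((hw.sub_const Φ).abs).add ((hw.sub hw').const_mul 2)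
  have hlt : |w + (1 - w) * Φ - Φ| + 2 * (w + (1 - w) * Φ - (w' + (1 - w') * Φ)) < 20 / N := by
    have e1 : w + (1 - w) * Φ - Φ = w * (1 - Φ) := by ring
    have e2 : w + (1 - w) * Φ - (w' + (1 - w') * Φ) = (w - w') * (1 - Φ) := by ring
    rw [e1, e2, abs_of_nonneg (mul_nonneg hw0 (by linarith))]
    have e3 : w * (1 - Φ) ≤ 1 / N * 2 := mul_le_mul hw1 (by linarith) (by linarith) (by positivity)
    have e4 : (w - w') * (1 - Φ) ≤ 1 / N * 2 :=
      mul_le_mul (by linarith) (by linarith) (by linarith) (by positivity)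
    have e5 : (20 : ℝ) / N = 20 * (1 / N) := by ring
    have e6 : (0 : ℝ) < 1 / N := by positivity
    rw [e5]
    linarith
  filter_upwards [hlim.eventually_lt_const hlt] with j hj
  have h1 := QLa_meas_le Z N (ν j)
  have h2 : |((ν j) (BZ Z N)).toReal - Φ| ≤
      |((ν j) (BZ Z N)).toReal - ∫ x, ‖aZ Z N x‖ ^ 2 ∂(ν j)| +
        |(∫ x, ‖aZ Z N x‖ ^ 2 ∂(ν j)) - Φ| := abs_sub_le _ _ _
  linarith

theorem QLa_factor_norm_le (N : ℕ) (z : K) (x : X) :
    ‖(N : ℂ)⁻¹ * ∑ n ∈ Finset.range N, (chi z x) ^ n‖ ≤ 1 := by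
  have h1 : ‖∑ n ∈ Finset.range N, (chi z x) ^ n‖ ≤ N := by
    refine (norm_sum_le _ _).trans ?_
    simp_rw [norm_pow, chi_norm, one_pow]
    simp
  rw [norm_mul, norm_inv, Complex.norm_natCast]
  rcases Nat.eq_zero_or_pos N with h2 | h2
  · rw [h2]; simp
  · have h3 : (0 : ℝ) < N := by exact_mod_cast h2
    rw [inv_mul_le_iff₀ h3, mul_one]
    exact h1

theorem ql_close (Z : Finset K) (N : ℕ) (hN : 0 < N) : BZ Z N ⊆ near Z (3 / N) := by
  intro x hx z hz
  have hN' : (0 : ℝ) < N := by exact_mod_cast hN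
  have hx' : 1 / 2 ≤ ‖aZ Z N x‖ ^ 2 := hx
  set F : K → ℂ := fun z => (N : ℂ)⁻¹ * ∑ n ∈ Finset.range N, (chi z x) ^ n with hF
  have h1 : ‖aZ Z N x‖ ≤ ‖F z‖ := by
    have h2 : aZ Z N x = ∏ z ∈ Z, F z := rfl
    classical
    rw [h2, norm_prod, ← Finset.mul_prod_erase Z _ hz]
    refine mul_le_of_le_one_right (norm_nonneg _) ?_
    exact Finset.prod_le_one (fun _ _ => norm_nonneg _) fun y _ => QLa_factor_norm_le N y x
  have h3 : 1 / 2 ≤ ‖F z‖ ^ 2 := hx'.trans (pow_le_pow_left₀ (norm_nonneg _) h1 2)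
  have h4 : F z * (chi z x - 1) = (N : ℂ)⁻¹ * (chi z x ^ N - 1) := by
    rw [hF]
    simp only
    rw [mul_assoc, geom_sum_mul]
  have h5 : ‖F z‖ * ‖chi z x - 1‖ ≤ 2 / N := by
    rw [← norm_mul, h4, norm_mul, norm_inv, Complex.norm_natCast]
    have h6 : ‖chi z x ^ N - 1‖ ≤ 2 := by
      refine (norm_sub_le _ _).trans ?_
      rw [norm_pow, chi_norm, one_pow, norm_one]
      norm_num
    rw [inv_mul_le_iff₀ hN']
    calc ‖chi z x ^ N - 1‖ ≤ 2 := h6
      _ = N * (2 / N) := by field_simp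
  have h7 : 2 / 3 ≤ ‖F z‖ := by
    by_contra hcon
    push Not at hcon
    have : ‖F z‖ ^ 2 < (2 / 3) ^ 2 := pow_lt_pow_left₀ hcon (norm_nonneg _) (by norm_num)
    norm_num at this
    linarith
  have h8 : 2 / 3 * ‖chi z x - 1‖ ≤ 2 / N :=
    (mul_le_mul_of_nonneg_right h7 (norm_nonneg _)).trans h5
  have h9 : (3 : ℝ) / N = 3 / 2 * (2 / N) := by ring
  rw [h9]
  linarith

/-- `|χ_1 - 1| ≤ 1/(4N)` implies `|(1/N)∑ χ_1^n - 1| ≤ 1/4` -/
theorem ql_in (N : ℕ) (hN : 0 < N) : near {1} (1 / (4 * N)) ⊆ BZ {1} N := by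
  intro x hx
  have hN' : (0 : ℝ) < N := by exact_mod_cast hN
  have hNc : (N : ℂ) ≠ 0 := by exact_mod_cast hN.ne'
  have hx1 : ‖chi 1 x - 1‖ ≤ 1 / (4 * N) := hx 1 (Finset.mem_singleton_self 1)
  have h1 : ∀ n : ℕ, ‖chi 1 x ^ n - 1‖ ≤ n * ‖chi 1 x - 1‖ := by
    intro n
    have h2 : chi 1 x ^ n - 1 = (∑ k ∈ Finset.range n, chi 1 x ^ k) * (chi 1 x - 1) :=
      (geom_sum_mul _ _).symm
    rw [h2, norm_mul]
    refine mul_le_mul_of_nonneg_right ?_ (norm_nonneg _)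
    refine (norm_sum_le _ _).trans ?_
    simp_rw [norm_pow, chi_norm, one_pow]
    simp
  have h3 : aZ {1} N x - 1 = (N : ℂ)⁻¹ * ∑ n ∈ Finset.range N, (chi 1 x ^ n - 1) := by
    unfold aZ
    rw [Finset.prod_singleton, Finset.sum_sub_distrib]
    simp only [Finset.sum_const, Finset.card_range, nsmul_eq_mul, mul_one]
    field_simp
  have h4 : ‖aZ {1} N x - 1‖ ≤ 1 / 4 := by
    rw [h3, norm_mul, norm_inv, Complex.norm_natCast, inv_mul_le_iff₀ hN']
    refine (norm_sum_le _ _).trans ?_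
    have h5 : ∀ n ∈ Finset.range N, ‖chi 1 x ^ n - 1‖ ≤ 1 / 4 := by
      intro n hn
      refine (h1 n).trans ?_
      have hn' : (n : ℝ) ≤ N := by exact_mod_cast (Finset.mem_range.mp hn).le
      calc (n : ℝ) * ‖chi 1 x - 1‖ ≤ N * (1 / (4 * N)) :=
            mul_le_mul hn' hx1 (norm_nonneg _) hN'.le
        _ = 1 / 4 := by field_simp
    refine (Finset.sum_le_sum h5).trans ?_
    simp
  have h6 : 3 / 4 ≤ ‖aZ {1} N x‖ := by
    have h7 : ‖(1 : ℂ)‖ ≤ ‖aZ {1} N x‖ + ‖aZ {1} N x - 1‖ := by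
      have h8 : (1 : ℂ) = aZ {1} N x - (aZ {1} N x - 1) := by ring
      calc ‖(1 : ℂ)‖ = ‖aZ {1} N x - (aZ {1} N x - 1)‖ := by rw [← h8]
        _ ≤ _ := norm_sub_le _ _
    rw [norm_one] at h7
    linarith
  change 1 / 2 ≤ ‖aZ {1} N x‖ ^ 2
  nlinarith

end Dadc30
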