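import Pool.Agent.Lib.MP_dadc30_co.QLa

/-!
# MP_dadc30_co, module QLb: three good rotations reconstruct `u`, `ū` and `1`.

`ql_vdm`: the linear system `v(w_i u) = (w_i/2)·u - (w̄_i/2)·ū + (3/4)·1`, `i = 0,1,2`, in the
unknowns `u, ū, 1` has determinant `-(3/16)·det(w_i, w̄_i, 1)`, and multiplying row `i` by `w_i`
gives a Vandermonde determinant in `w_0,w_1,w_2`: non-zero (`w_i` distinct).
`ql_count`: choose `N0` distinct `w_1, …, w_{N0} ∈ Γ₀`; let `Z` be the set of all non-zero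
coefficients `α_i, β_i, γ_i` of `ql_vdm` over all triples (plus `1`), `η = 1/(12 N)`.  If
`scale (vv (w_m u)) x ∈ near Z η` for three indices `m` then `χ_1(u•x) = x(u) = ∏ x(α_i v_i)` is
within `3η = 1/(4N)` of 1, so `u•x ∈ BZ {1} N` by `ql_in`; similarly `u⁻¹•x` and `x`.  So
`#{m | …} ≤ 2 + N0·1[u•x, u⁻¹•x, x ∈ BZ {1} N]`; integrate, take the mean over `u` and use
invariance of the mean under `u ↦ w_m u`.
-/

open MeasureTheory ProbabilityTheory Filter Topology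
open scoped ENNReal ComplexConjugate

namespace Dadc30

theorem QLb_vandermonde {F : Type*} [Field F] (w : Fin 3 → F) (hw : Function.Injective w)
    (t0 t1 t2 : F) : ∃ a : Fin 3 → F, (∑ i, a i = t0) ∧ (∑ i, a i * w i = t1) ∧
      (∑ i, a i * (w i) ^ 2 = t2) := by
  have h01 : w 0 - w 1 ≠ 0 := sub_ne_zero.2 (fun h => absurd (hw h) (by decide))
  have h02 : w 0 - w 2 ≠ 0 := sub_ne_zero.2 (fun h => absurd (hw h) (by decide))
  have h12 : w 1 - w 2 ≠ 0 := sub_ne_zero.2 (fun h => absurd (hw h) (by decide))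
  refine ⟨![(t2 - (w 1 + w 2) * t1 + w 1 * w 2 * t0) / ((w 0 - w 1) * (w 0 - w 2)),
    -(t2 - (w 0 + w 2) * t1 + w 0 * w 2 * t0) / ((w 0 - w 1) * (w 1 - w 2)),
    (t2 - (w 0 + w 1) * t1 + w 0 * w 1 * t0) / ((w 0 - w 2) * (w 1 - w 2))], ?_, ?_, ?_⟩ <;>
  · simp only [Fin.sum_univ_three, Matrix.cons_val_zero, Matrix.cons_val_one, Matrix.cons_val]
    field_simp
    ring

theorem QLb_toK_one : toK (1 : Γ₀) = 1 := by
  apply Subtype.ext
  simp [toK]

theorem QLb_comb (w : Fin 3 → Γ₀) (hw : Function.Injective w) (t0 t1 t2 : K) :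
    ∃ α : Fin 3 → K, ∀ u : Γ₀, ∑ i, α i * vv (w i * u) =
      (1 / 2) * toK u * t2 - (1 / 2) * toK u⁻¹ * t0 + 3 / 4 * t1 := by
  obtain ⟨a, h0, h1, h2⟩ := QLb_vandermonde (fun i => toK (w i))
    (toK_injective.comp hw) t0 t1 t2
  refine ⟨fun i => a i * toK (w i), fun u => ?_⟩
  have key : ∀ i, a i * toK (w i) * vv (w i * u) =
      (1 / 2) * toK u * (a i * toK (w i) ^ 2) - (1 / 2) * toK u⁻¹ * a i +
        3 / 4 * (a i * toK (w i)) := by
    intro i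
    have h3 : toK (w i) * toK (w i)⁻¹ = 1 := by
      rw [← toK_mul, mul_inv_cancel, QLb_toK_one]
    unfold vv
    rw [mul_inv, toK_mul, toK_mul]
    linear_combination (-(1 / 2) * a i * toK u⁻¹) * h3
  simp_rw [key]
  rw [Finset.sum_add_distrib, Finset.sum_sub_distrib, ← Finset.mul_sum, ← Finset.mul_sum,
    ← Finset.mul_sum, h0, h1, h2]

theorem ql_vdm (w : Fin 3 → Γ₀) (hw : Function.Injective w) :
    ∃ α β γ : Fin 3 → K, ∀ u : Γ₀, (∑ i, α i * vv (w i * u) = toK u) ∧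
      (∑ i, β i * vv (w i * u) = toK u⁻¹) ∧ (∑ i, γ i * vv (w i * u) = 1) := by
  obtain ⟨α, hα⟩ := QLb_comb w hw 0 0 2
  obtain ⟨β, hβ⟩ := QLb_comb w hw (-2) 0 0
  obtain ⟨γ, hγ⟩ := QLb_comb w hw 0 (4 / 3) 0
  refine ⟨α, β, γ, fun u => ⟨?_, ?_, ?_⟩⟩
  · rw [hα]; ring
  · rw [hβ]; ring
  · rw [hγ]; ring

theorem QLb_chi_add (a b : K) (x : X) :
    ‖chi (a + b) x - 1‖ ≤ ‖chi a x - 1‖ + ‖chi b x - 1‖ := by
  have h1 : chi (a + b) x - 1 = (chi a x - 1) + chi a x * (chi b x - 1) := by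
    rw [chi_add]; ring
  rw [h1]
  refine (norm_add_le _ _).trans ?_
  rw [norm_mul, chi_norm, one_mul]

theorem QLb_chi_sum (a : Fin 3 → K) (x : X) {η : ℝ} (h : ∀ i, ‖chi (a i) x - 1‖ ≤ η) :
    ‖chi (∑ i, a i) x - 1‖ ≤ 3 * η := by
  rw [Fin.sum_univ_three]
  have h1 := QLb_chi_add (a 0 + a 1) (a 2) x
  have h2 := QLb_chi_add (a 0) (a 1) x
  have h3 := h 0
  have h4 := h 1
  have h5 := h 2
  linarith

/-- a combination of three good vectors -/
theorem QLb_three {Z : Finset K} {N : ℕ} (hN : 0 < N) {x : X} {α : Fin 3 → K} {v : Fin 3 → K}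
    {s : K} (hs : ∑ i, α i * v i = s) (hα : ∀ i, α i = 0 ∨ α i ∈ Z)
    (hx : ∀ i, scale (v i) x ∈ near Z (1 / (12 * N))) : ‖chi s x - 1‖ ≤ 1 / (4 * N) := by
  have hN' : (0 : ℝ) < N := by exact_mod_cast hN
  have h1 : ∀ i, ‖chi (α i * v i) x - 1‖ ≤ 1 / (12 * N) := by
    intro i
    rcases hα i with h | h
    · rw [h, zero_mul, chi_zero, sub_self, norm_zero]
      positivity
    · have h2 := hx i (α i) h
      rw [chi_scale, mul_comm] at h2
      exact h2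
  have h3 := QLb_chi_sum (fun i => α i * v i) x h1
  rw [hs] at h3
  refine h3.trans (le_of_eq ?_)
  field_simp
  norm_num

theorem QLb_mem {N : ℕ} (hN : 0 < N) {x : X} (h : ‖chi 1 x - 1‖ ≤ 1 / (4 * N)) :
    x ∈ BZ {1} N := by
  apply ql_in N hN
  intro z hz
  rw [Finset.mem_singleton] at hz
  rw [hz]
  exact h

/-- counting -/
theorem QLb_measure {Ω : Type} [MeasurableSpace Ω] (ν : Measure Ω) [IsProbabilityMeasure ν]
    (n : ℕ) (A : Fin n → Set Ω) (hA : ∀ i, MeasurableSet (A i)) (B : Set Ω)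
    (hB : MeasurableSet B)
    (h : ∀ x, ∀ i j k : Fin n, i ≠ j → i ≠ k → j ≠ k → x ∈ A i → x ∈ A j → x ∈ A k → x ∈ B) :
    ∑ i, (ν (A i)).toReal ≤ 2 + n * (ν B).toReal := by
  classical
  have hint : ∀ S : Set Ω, MeasurableSet S →
      Integrable (S.indicator (fun _ => (1 : ℝ))) ν :=
    fun S hS => (integrable_const (1 : ℝ)).indicator hS
  have hval : ∀ S : Set Ω, MeasurableSet S →
      ∫ x, S.indicator (fun _ => (1 : ℝ)) x ∂ν = (ν S).toReal := by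
    intro S hS
    rw [integral_indicator_const _ hS, smul_eq_mul, mul_one]
    rfl
  have hpt : ∀ x, ∑ i, (A i).indicator (fun _ => (1 : ℝ)) x ≤
      2 + n * B.indicator (fun _ => (1 : ℝ)) x := by
    intro x
    have h1 : ∑ i, (A i).indicator (fun _ => (1 : ℝ)) x =
        ((Finset.univ.filter fun i => x ∈ A i).card : ℝ) := by
      rw [Finset.card_filter]
      push_cast
      refine Finset.sum_congr rfl fun i _ => ?_
      rw [Set.indicator_apply]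
    rw [h1]
    by_cases hx : x ∈ B
    · rw [Set.indicator_of_mem hx, mul_one]
      have h2 : (Finset.univ.filter fun i => x ∈ A i).card ≤ n := by
        refine (Finset.card_le_univ _).trans ?_
        rw [Fintype.card_fin]
      have h3 : ((Finset.univ.filter fun i => x ∈ A i).card : ℝ) ≤ n := by exact_mod_cast h2
      linarith
    · rw [Set.indicator_of_notMem hx, mul_zero, add_zero]
      have h2 : (Finset.univ.filter fun i => x ∈ A i).card ≤ 2 := by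
        by_contra hcon
        push Not at hcon
        obtain ⟨i, hi, j, hj, k, hk, hij, hik, hjk⟩ := Finset.two_lt_card.1 hcon
        rw [Finset.mem_filter] at hi hj hk
        exact hx (h x i j k hij hik hjk hi.2 hj.2 hk.2)
      exact_mod_cast h2
  calc ∑ i, (ν (A i)).toReal
      = ∫ x, ∑ i, (A i).indicator (fun _ => (1 : ℝ)) x ∂ν := by
        rw [integral_finsetSum _ fun i _ => hint _ (hA i)]
        exact Finset.sum_congr rfl fun i _ => (hval _ (hA i)).symm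
    _ ≤ ∫ x, (2 + n * B.indicator (fun _ => (1 : ℝ)) x) ∂ν := by
        refine integral_mono (integrable_finsetSum _ fun i _ => hint _ (hA i)) ?_ hpt
        exact (integrable_const 2).add ((hint _ hB).const_mul _)
    _ = 2 + n * (ν B).toReal := by
        rw [integral_add (integrable_const 2) ((hint _ hB).const_mul _), integral_const_mul,
          hval _ hB]
        simp

theorem QLb_bdd {ι : Type*} {Ω : Type} [MeasurableSpace Ω] (ν : Measure Ω)
    [IsProbabilityMeasure ν] (S : ι → Set Ω) : Bdd (fun i => (ν (S i)).toReal) := by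
  refine ⟨1, fun i => ?_⟩
  rw [abs_of_nonneg ENNReal.toReal_nonneg]
  have h := ENNReal.toReal_mono ENNReal.one_ne_top (prob_le_one (μ := ν) (s := S i))
  simpa using h

theorem QLb_finset {F ι : Type*} [Field F] [Finite ι] (c : ι → F) :
    ∃ Z : Finset F, 1 ∈ Z ∧ (∀ z ∈ Z, z ≠ 0) ∧ ∀ i, c i = 0 ∨ c i ∈ Z := by
  classical
  have hfin : (Set.range c).Finite := Set.finite_range c
  refine ⟨insert 1 (hfin.toFinset.filter (· ≠ 0)), Finset.mem_insert_self _ _, ?_, ?_⟩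
  · intro z hz
    rcases Finset.mem_insert.1 hz with h | h
    · rw [h]; exact one_ne_zero
    · exact (Finset.mem_filter.1 h).2
  · intro i
    by_cases h0 : c i = 0
    · exact Or.inl h0
    · right
      refine Finset.mem_insert_of_mem (Finset.mem_filter.2 ⟨?_, h0⟩)
      rw [Set.Finite.mem_toFinset]
      exact ⟨i, rfl⟩

theorem QLb_exists_Z (N0 : ℕ) (W : Fin N0 → Γ₀) (hW : Function.Injective W) :
    ∃ Z : Finset K, 1 ∈ Z ∧ (∀ z ∈ Z, z ≠ 0) ∧ ∀ t : Fin 3 → Fin N0, Function.Injective t →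
      ∃ α β γ : Fin 3 → K, (∀ a, α a = 0 ∨ α a ∈ Z) ∧ (∀ a, β a = 0 ∨ β a ∈ Z) ∧
        (∀ a, γ a = 0 ∨ γ a ∈ Z) ∧ ∀ u : Γ₀, (∑ i, α i * vv (W (t i) * u) = toK u) ∧
        (∑ i, β i * vv (W (t i) * u) = toK u⁻¹) ∧ (∑ i, γ i * vv (W (t i) * u) = 1) := by
  have hex : ∀ t : {t : Fin 3 → Fin N0 // Function.Injective t}, ∃ α β γ : Fin 3 → K,
      ∀ u : Γ₀, (∑ i, α i * vv (W (t.1 i) * u) = toK u) ∧
        (∑ i, β i * vv (W (t.1 i) * u) = toK u⁻¹) ∧ (∑ i, γ i * vv (W (t.1 i) * u) = 1) :=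
    fun t => ql_vdm (fun i => W (t.1 i)) (hW.comp t.2)
  choose α β γ hαβγ using hex
  obtain ⟨Z, h1, h2, h3⟩ := QLb_finset
    (fun r : ({t : Fin 3 → Fin N0 // Function.Injective t} × Fin 3) ⊕
      (({t : Fin 3 → Fin N0 // Function.Injective t} × Fin 3) ⊕
        ({t : Fin 3 → Fin N0 // Function.Injective t} × Fin 3)) =>
      Sum.elim (fun s => α s.1 s.2) (Sum.elim (fun s => β s.1 s.2) (fun s => γ s.1 s.2)) r)
  refine ⟨Z, h1, h2, fun t ht => ⟨α ⟨t, ht⟩, β ⟨t, ht⟩, γ ⟨t, ht⟩, ?_, ?_, ?_, hαβγ ⟨t, ht⟩⟩⟩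
  · exact fun a => h3 (Sum.inl (⟨t, ht⟩, a))
  · exact fun a => h3 (Sum.inr (Sum.inl (⟨t, ht⟩, a)))
  · exact fun a => h3 (Sum.inr (Sum.inr (⟨t, ht⟩, a)))

theorem QLb_inj3 {n : ℕ} {i j k : Fin n} (hij : i ≠ j) (hik : i ≠ k) (hjk : j ≠ k) :
    Function.Injective ![i, j, k] := by
  intro a b hab
  fin_cases a <;> fin_cases b <;> first
    | rfl
    | exact absurd hab hij
    | exact absurd hab hik
    | exact absurd hab hjk
    | exact absurd hab.symm hij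
    | exact absurd hab.symm hik
    | exact absurd hab.symm hjk

theorem QLb_mean {G : Type} [CommGroup G] (M : InvMean G) (n : ℕ) (hn : 0 < n) (W : Fin n → G)
    (f g : G → ℝ) (hf : Bdd f) (hg : Bdd g) (h : ∀ u, ∑ i, f (W i * u) ≤ 2 + n * g u) :
    M.m f ≤ M.m g + 2 / n := by
  have hn' : (0 : ℝ) < n := by exact_mod_cast hn
  have hfi : ∀ i : Fin n, Bdd (fun u => f (W i * u)) := fun i => hf.comp fun u => W i * u
  have h1 : M.m (fun u => ∑ i, f (W i * u)) = n * M.m f := by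
    rw [M.m_sum Finset.univ (fun i u => f (W i * u)) (fun i _ => hfi i)]
    rw [Finset.sum_congr rfl fun i _ => M.inv' (W i) f hf]
    simp
  have h3 : M.m (fun u => 2 + n * g u) = 2 + n * M.m g := by
    rw [M.add' (fun _ => 2) (fun u => n * g u) (Bdd.const 2) ((Bdd.const (n : ℝ)).mul hg),
      M.m_const, M.smul' _ _ hg]
  have h4 : M.m (fun u => ∑ i, f (W i * u)) ≤ M.m (fun u => 2 + n * g u) :=
    M.mono' _ _ (Bdd.sum Finset.univ fun i _ => hfi i)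
      ((Bdd.const 2).add ((Bdd.const (n : ℝ)).mul hg)) h
  rw [h1, h3] at h4
  have h5 : M.m f ≤ (2 + n * M.m g) / n := by
    rw [le_div_iff₀ hn', mul_comm]
    exact h4
  refine h5.trans (le_of_eq ?_)
  field_simp
  ring

theorem QLb_pt {N : ℕ} (hN : 0 < N) {Z : Finset K} {α β γ : Fin 3 → K} {t : Fin 3 → Γ₀}
    (hα : ∀ a, α a = 0 ∨ α a ∈ Z) (hβ : ∀ a, β a = 0 ∨ β a ∈ Z)
    (hγ : ∀ a, γ a = 0 ∨ γ a ∈ Z) {u : Γ₀} (h1 : ∑ i, α i * vv (t i * u) = toK u)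
    (h2 : ∑ i, β i * vv (t i * u) = toK u⁻¹) (h3 : ∑ i, γ i * vv (t i * u) = 1) {x : X}
    (hx : ∀ a, scale (vv (t a * u)) x ∈ near Z (1 / (12 * N))) :
    u • x ∈ BZ {1} N ∧ u⁻¹ • x ∈ BZ {1} N ∧ x ∈ BZ {1} N := by
  refine ⟨?_, ?_, ?_⟩
  · apply QLb_mem hN
    rw [chi_smul, mul_one]
    exact QLb_three hN h1 hα hx
  · apply QLb_mem hN
    rw [chi_smul, mul_one]
    exact QLb_three hN h2 hβ hx
  · apply QLb_mem hN
    exact QLb_three hN h3 hγ hx

theorem QLb_count {N N0 : ℕ} (hN : 0 < N) (W : Fin N0 → Γ₀) (Z : Finset K)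
    (hZ : ∀ t : Fin 3 → Fin N0, Function.Injective t →
      ∃ α β γ : Fin 3 → K, (∀ a, α a = 0 ∨ α a ∈ Z) ∧ (∀ a, β a = 0 ∨ β a ∈ Z) ∧
        (∀ a, γ a = 0 ∨ γ a ∈ Z) ∧ ∀ u : Γ₀, (∑ i, α i * vv (W (t i) * u) = toK u) ∧
        (∑ i, β i * vv (W (t i) * u) = toK u⁻¹) ∧ (∑ i, γ i * vv (W (t i) * u) = 1))
    (ν : Measure X) [IsProbabilityMeasure ν] (u : Γ₀) :
    ∑ i : Fin N0, (ν {x | scale (vv (W i * u)) x ∈ near Z (1 / (12 * N))}).toReal ≤
      2 + N0 * (ν {x | u • x ∈ BZ {1} N ∧ u⁻¹ • x ∈ BZ {1} N ∧ x ∈ BZ {1} N}).toReal := by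
  have hA : ∀ i, MeasurableSet {x | scale (vv (W i * u)) x ∈ near Z (1 / (12 * N))} :=
    fun i => measurableSet_preimage (measurable_scale (vv (W i * u)))
      (measurableSet_near Z (1 / (12 * N)))
  have hB1 : MeasurableSet {x : X | u • x ∈ BZ {1} N} :=
    measurableSet_preimage (measurable_smul_X u) (measurableSet_BZ {1} N)
  have hB2 : MeasurableSet {x : X | u⁻¹ • x ∈ BZ {1} N} :=
    measurableSet_preimage (measurable_smul_X u⁻¹) (measurableSet_BZ {1} N)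
  have hB3 : MeasurableSet {x : X | x ∈ BZ {1} N} := measurableSet_BZ {1} N
  have hB : MeasurableSet {x | u • x ∈ BZ {1} N ∧ u⁻¹ • x ∈ BZ {1} N ∧ x ∈ BZ {1} N} := by
    have h := hB1.inter (hB2.inter hB3)
    refine (congrArg MeasurableSet ?_).mp h
    ext x
    exact Iff.rfl
  refine QLb_measure ν N0 _ hA _ hB ?_
  intro x i j k hij hik hjk hi hj hk
  obtain ⟨α, β, γ, hα, hβ, hγ, hs⟩ := hZ ![i, j, k] (QLb_inj3 hij hik hjk)
  obtain ⟨h1, h2, h3⟩ := hs u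
  refine QLb_pt (t := fun a => W (![i, j, k] a)) hN hα hβ hγ h1 h2 h3 ?_
  intro a
  fin_cases a
  · exact hi
  · exact hj
  · exact hk

theorem ql_count (N : ℕ) (hN : 0 < N) (N0 : ℕ) (hN0 : 0 < N0) :
    ∃ (Z : Finset K) (η : ℝ), Z.Nonempty ∧ (∀ z ∈ Z, z ≠ 0) ∧ 0 < η ∧
      ∀ (ν : Measure X) [IsProbabilityMeasure ν], PMP Γ₀ ν → ∀ M : InvMean Γ₀,
        M.m (fun u => (ν {x | scale (vv u) x ∈ near Z η}).toReal) ≤
          M.m (fun u => (ν {x | u • x ∈ BZ {1} N ∧ u⁻¹ • x ∈ BZ {1} N ∧ x ∈ BZ {1} N}).toReal)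
            + 2 / N0 := by
  -- the rotations
  obtain ⟨W, hW⟩ : ∃ W : Fin N0 → Γ₀, Function.Injective W :=
    ⟨fun i => Infinite.natEmbedding Γ₀ i.val, fun i j h =>
      Fin.ext ((Infinite.natEmbedding Γ₀).injective h)⟩
  obtain ⟨Z, hZ1, hZ0, hZ⟩ := QLb_exists_Z N0 W hW
  have hN' : (0 : ℝ) < N := by exact_mod_cast hN
  refine ⟨Z, 1 / (12 * N), ⟨1, hZ1⟩, hZ0, by positivity, ?_⟩
  intro ν _ _ M
  exact QLb_mean M N0 hN0 W _ _ (QLb_bdd ν _) (QLb_bdd ν _) (QLb_count hN W Z hZ ν)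

end Dadc30
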