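import Pool.Agent.Lib.MP_dadc30_co.Rad
import Pool.Agent.Lib.MP_dadc30_co.Mid

/-!
# MP_dadc30_co, module QLdefs: definitions for the lemma QL.
-/

open MeasureTheory ProbabilityTheory Filter Topology
open scoped ENNReal ComplexConjugate

namespace Dadc30

/-- `a_{Z,N}(x) = ∏_{z ∈ Z} (1/N) ∑_{n<N} χ_z(x)^n` -/
noncomputable def aZ (Z : Finset K) (N : ℕ) (x : X) : ℂ :=
  ∏ z ∈ Z, ((N : ℂ)⁻¹ * ∑ n ∈ Finset.range N, (chi z x) ^ n)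

/-- `{|a_{Z,N}|² ≥ 1/2}` -/
def BZ (Z : Finset K) (N : ℕ) : Set X := {x | 1 / 2 ≤ ‖aZ Z N x‖ ^ 2}

/-- all `χ_z`, `z ∈ Z`, are `η`-close to 1 -/
def near (Z : Finset K) (η : ℝ) : Set X := {x | ∀ z ∈ Z, ‖chi z x - 1‖ ≤ η}

/-- `v(u) = (u - ū)/2 + 3/4` -/
noncomputable def vv (u : Γ₀) : K := (1 / 2) * toK u - (1 / 2) * toK u⁻¹ + 3 / 4

end Dadc30
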