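import Mathlib
import Pool.Agent.Lib.MP_dadc30_co.Core

set_option autoImplicit false

namespace Pool.Agent.Lib.MP_dadc30_co

open Finset

/-- from natural to rational weights -/
lemma rat_weights {P : Type*} [MetricSpace P] (c : ℝ)
    (hnat : ∀ (X : Finset P) (w : P → ℕ), 0 < ∑ x ∈ X, w x →
      ∃ S ⊆ X, UnitFree (S : Set P) ∧ c * (∑ x ∈ X, (w x : ℝ)) < ∑ x ∈ S, (w x : ℝ))
    (X : Finset P) (w : P → ℚ) (hw : ∀ x ∈ X, 0 ≤ w x) (hpos : 0 < ∑ x ∈ X, w x) :
    ∃ S ⊆ X, UnitFree (S : Set P) ∧ c * (∑ x ∈ X, (w x : ℝ)) < ∑ x ∈ S, (w x : ℝ) := by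
  classical
  let D : ℕ := ∏ x ∈ X, (w x).den
  have hD : 0 < D := Finset.prod_pos (fun x _ => (w x).den_pos)
  have hint : ∀ x ∈ X, ∃ a : ℕ, (D : ℚ) * w x = a := by
    intro x hx
    obtain ⟨E, hE⟩ : (w x).den ∣ D := Finset.dvd_prod_of_mem _ hx
    have h1 : ((w x).den : ℚ) * w x = (w x).num := by
      have := Rat.mul_den_eq_num (w x)
      linarith
    have h2 : 0 ≤ (w x).num := Rat.num_nonneg.mpr (hw x hx)
    refine ⟨E * (w x).num.toNat, ?_⟩
    have h3 : (((w x).num.toNat : ℕ) : ℚ) = (w x).num := by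
      have := Int.toNat_of_nonneg h2
      exact_mod_cast this
    push_cast
    rw [h3, hE, ← h1]
    push_cast
    ring
  choose! a ha using hint
  have ha' : ∀ x ∈ X, ((a x : ℕ) : ℝ) = D * (w x : ℝ) := by
    intro x hx
    have := ha x hx
    have : (((D : ℚ) * w x : ℚ) : ℝ) = ((a x : ℚ) : ℝ) := by rw [this]
    push_cast at this
    exact this.symm
  have hDr : (0 : ℝ) < D := by exact_mod_cast hD
  obtain ⟨S, hS, hfree, hlt⟩ := hnat X a (by
    have h1 : (0 : ℚ) < D * ∑ x ∈ X, w x := by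
      have : (0 : ℚ) < D := by exact_mod_cast hD
      positivity
    rw [Finset.mul_sum, Finset.sum_congr rfl (fun x hx => ha x hx)] at h1
    exact_mod_cast h1)
  refine ⟨S, hS, hfree, ?_⟩
  rw [Finset.sum_congr rfl (fun x hx => ha' x hx),
    Finset.sum_congr rfl (fun x hx => ha' x (hS hx)), ← Finset.mul_sum, ← Finset.mul_sum] at hlt
  have h2 : (D : ℝ) * (c * ∑ x ∈ X, (w x : ℝ)) < D * ∑ x ∈ S, (w x : ℝ) := by linarith
  exact lt_of_mul_lt_mul_left h2 hDr.le

/-- coordinates of finitely many reals over the rationals -/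
lemma exists_coords {P : Type*} (X : Finset P) (w : P → ℝ) :
    ∃ (d : ℕ) (β : Fin d → ℝ) (A : P → Fin d → ℚ),
      (∀ x ∈ X, w x = ∑ i, (A x i : ℝ) * β i) ∧
      (∀ a : Fin d → ℚ, ∑ i, (a i : ℝ) * β i = 0 → a = 0) := by
  classical
  let V : Submodule ℚ ℝ := Submodule.span ℚ ((X.image w : Finset ℝ) : Set ℝ)
  have : Module.Finite ℚ V := Module.Finite.span_of_finite ℚ (Finset.finite_toSet _)
  let b := Module.finBasis ℚ V
  refine ⟨_, fun i => (b i : ℝ), fun x => if h : w x ∈ V then b.repr ⟨w x, h⟩ else 0, ?_, ?_⟩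
  · intro x hx
    have hx' : w x ∈ V := Submodule.subset_span (by
      rw [Finset.mem_coe]
      exact Finset.mem_image_of_mem w hx)
    simp only [hx', dif_pos]
    have := congrArg (fun v : V => (v : ℝ)) (b.sum_repr ⟨w x, hx'⟩)
    simp only [Submodule.coe_sum, Submodule.coe_smul] at this
    refine this.symm.trans (Finset.sum_congr rfl (fun i _ => ?_))
    rw [Rat.smul_def]
  · intro a ha
    have h1 : ∑ i, a i • b i = 0 := by
      apply Subtype.ext
      simp only [Submodule.coe_sum, Submodule.coe_smul, Submodule.coe_zero]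
      rw [← ha]
      refine Finset.sum_congr rfl (fun i _ => ?_)
      rw [Rat.smul_def]
    have := Fintype.linearIndependent_iff.mp b.linearIndependent a h1
    funext i
    exact this i

theorem real_weights {P : Type*} [MetricSpace P] (c : ℝ)
    (hnat : ∀ (X : Finset P) (w : P → ℕ), 0 < ∑ x ∈ X, w x →
      ∃ S ⊆ X, UnitFree (S : Set P) ∧ c * (∑ x ∈ X, (w x : ℝ)) < ∑ x ∈ S, (w x : ℝ))
    (X : Finset P) (w : P → ℝ) (hw : ∀ x ∈ X, 0 ≤ w x) (hpos : 0 < ∑ x ∈ X, w x) :
    ∃ S ⊆ X, UnitFree (S : Set P) ∧ c * (∑ x ∈ X, w x) < ∑ x ∈ S, w x := by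
  classical
  by_contra hcon
  push Not at hcon
  obtain ⟨d, β, A, hA, hind⟩ := exists_coords X w
  -- the heaviest unit free subset
  have hne : (X.powerset.filter (fun S : Finset P => UnitFree (S : Set P))).Nonempty :=
    ⟨∅, Finset.mem_filter.mpr ⟨by simp, by intro x hx; simp at hx⟩⟩
  obtain ⟨S₀, hS₀, hmax⟩ := Finset.exists_max_image _ (fun S : Finset P => ∑ x ∈ S, w x) hne
  rw [Finset.mem_filter, Finset.mem_powerset] at hS₀
  -- the weights for a real vector `r`
  let W : (Fin d → ℝ) → P → ℝ := fun r x => ∑ i, (A x i : ℝ) * r i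
  have hWβ : ∀ x ∈ X, W β x = w x := fun x hx => (hA x hx).symm
  have hWcont : ∀ x, Continuous (fun r => W r x) := by
    intro x
    exact continuous_finsetSum _ (fun i _ => continuous_const.mul (continuous_apply i))
  have hWsum : ∀ (S : Finset P) (r : Fin d → ℝ), ∑ x ∈ S, W r x =
      ∑ i, (((∑ x ∈ S, A x i : ℚ)) : ℝ) * r i := by
    intro S r
    simp only [W]
    rw [Finset.sum_comm]
    refine Finset.sum_congr rfl (fun i _ => ?_)
    rw [← Finset.sum_mul]
    push_cast
    rfl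
  -- near `β`
  have hev1 : ∀ x ∈ X, ∀ᶠ r in nhds β, 0 ≤ W r x := by
    intro x hx
    rcases (hw x hx).eq_or_lt with h0 | h0
    · have hA0 : A x = 0 := hind (A x) (by rw [← hA x hx, ← h0])
      refine Filter.Eventually.of_forall (fun r => ?_)
      simp [W, hA0]
    · have h1 : 0 < W β x := by rw [hWβ x hx]; exact h0
      exact ((hWcont x).continuousAt.eventually (lt_mem_nhds h1)).mono (fun r hr => hr.le)
  have hev2 : ∀ᶠ r in nhds β, 0 < ∑ x ∈ X, W r x := by
    have hc : Continuous (fun r => ∑ x ∈ X, W r x) :=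
      continuous_finsetSum _ (fun x _ => hWcont x)
    have h1 : 0 < ∑ x ∈ X, W β x := by
      rw [Finset.sum_congr rfl (fun x hx => hWβ x hx)]
      exact hpos
    exact hc.continuousAt.eventually (lt_mem_nhds h1)
  have hev3 : ∀ S ∈ X.powerset.filter (fun S : Finset P => UnitFree (S : Set P)),
      ∀ᶠ r in nhds β, ∑ x ∈ S, W r x ≤ ∑ x ∈ S₀, W r x := by
    intro S hS
    have hle := hmax S hS
    rw [Finset.mem_filter, Finset.mem_powerset] at hS
    have e1 : ∑ x ∈ S, W β x = ∑ x ∈ S, w x :=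
      Finset.sum_congr rfl (fun x hx => hWβ x (hS.1 hx))
    have e2 : ∑ x ∈ S₀, W β x = ∑ x ∈ S₀, w x :=
      Finset.sum_congr rfl (fun x hx => hWβ x (hS₀.1 hx))
    rcases hle.eq_or_lt with h0 | h0
    · have h1 : (fun i => ∑ x ∈ S, A x i) - (fun i => ∑ x ∈ S₀, A x i) = 0 := by
        apply hind
        have h2 : ∑ x ∈ S, W β x - ∑ x ∈ S₀, W β x = 0 := by rw [e1, e2, h0, sub_self]
        rw [hWsum, hWsum, ← Finset.sum_sub_distrib] at h2
        rw [← h2]
        refine Finset.sum_congr rfl (fun i _ => ?_)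
        simp only [Pi.sub_apply]
        push_cast
        ring
      refine Filter.Eventually.of_forall (fun r => ?_)
      rw [hWsum, hWsum]
      apply le_of_eq
      refine Finset.sum_congr rfl (fun i _ => ?_)
      have := congrFun h1 i
      simp only [Pi.sub_apply, Pi.zero_apply, sub_eq_zero] at this
      rw [this]
    · have hc1 : Continuous (fun r => ∑ x ∈ S, W r x) :=
        continuous_finsetSum _ (fun x _ => hWcont x)
      have hc2 : Continuous (fun r => ∑ x ∈ S₀, W r x) :=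
        continuous_finsetSum _ (fun x _ => hWcont x)
      have h1 : ∑ x ∈ S, W β x < ∑ x ∈ S₀, W β x := by rw [e1, e2]; exact h0
      exact (hc1.continuousAt.eventually_lt hc2.continuousAt h1).mono (fun r hr => hr.le)
  let Gd : Set (Fin d → ℝ) := {r | (∀ x ∈ X, 0 ≤ W r x) ∧ (0 < ∑ x ∈ X, W r x) ∧
      ∀ S ∈ X.powerset.filter (fun S : Finset P => UnitFree (S : Set P)),
        ∑ x ∈ S, W r x ≤ ∑ x ∈ S₀, W r x}
  have hev : Gd ∈ nhds β := by
    change ∀ᶠ r in nhds β, (∀ x ∈ X, 0 ≤ W r x) ∧ (0 < ∑ x ∈ X, W r x) ∧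
      ∀ S ∈ X.powerset.filter (fun S : Finset P => UnitFree (S : Set P)),
        ∑ x ∈ S, W r x ≤ ∑ x ∈ S₀, W r x
    refine (Filter.Eventually.and ?_ (hev2.and ?_))
    · exact (Finset.eventually_all X).mpr hev1
    · exact (Finset.eventually_all _).mpr hev3
  -- the linear functional
  let γ : Fin d → ℝ := fun i => ((∑ x ∈ S₀, A x i : ℚ) : ℝ) - c * ((∑ x ∈ X, A x i : ℚ) : ℝ)
  let F : (Fin d → ℝ) → ℝ := fun r => ∑ i, γ i * r i
  have hF : ∀ r, F r = ∑ x ∈ S₀, W r x - c * ∑ x ∈ X, W r x := by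
    intro r
    rw [hWsum, hWsum, Finset.mul_sum, ← Finset.sum_sub_distrib]
    refine Finset.sum_congr rfl (fun i _ => ?_)
    simp only [γ]
    ring
  have hFc : Continuous F :=
    continuous_finsetSum _ (fun i _ => continuous_const.mul (continuous_apply i))
  have hFβ : F β ≤ 0 := by
    rw [hF, Finset.sum_congr rfl (fun x hx => hWβ x (hS₀.1 hx)),
      Finset.sum_congr rfl (fun x hx => hWβ x hx)]
    have := hcon S₀ hS₀.1 hS₀.2
    linarith
  -- rational points near `β` have `F > 0`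
  have hrat : ∀ r : Fin d → ℚ, ((∀ x ∈ X, 0 ≤ W (fun i => (r i : ℝ)) x) ∧
      (0 < ∑ x ∈ X, W (fun i => (r i : ℝ)) x) ∧
      ∀ S ∈ X.powerset.filter (fun S : Finset P => UnitFree (S : Set P)),
        ∑ x ∈ S, W (fun i => (r i : ℝ)) x ≤ ∑ x ∈ S₀, W (fun i => (r i : ℝ)) x) →
      0 < F (fun i => (r i : ℝ)) := by
    intro r ⟨h1, h2, h3⟩
    let w' : P → ℚ := fun x => ∑ i, A x i * r i
    have hw' : ∀ x, ((w' x : ℚ) : ℝ) = W (fun i => (r i : ℝ)) x := by
      intro x
      simp only [w', W]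
      push_cast
      rfl
    obtain ⟨S, hS, hfree, hlt⟩ := rat_weights c hnat X w' (by
      intro x hx
      have := h1 x hx
      rw [← hw'] at this
      exact_mod_cast this) (by
      have := h2
      simp only [← hw'] at this
      exact_mod_cast this)
    simp only [hw'] at hlt
    have := h3 S (Finset.mem_filter.mpr ⟨Finset.mem_powerset.mpr hS, hfree⟩)
    rw [hF]
    linarith
  have hdense : DenseRange (fun (r : Fin d → ℚ) (i : Fin d) => (r i : ℝ)) :=
    DenseRange.piMap (fun _ => Rat.denseRange_cast)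
  by_cases hγ : γ = 0
  · obtain ⟨r, hr⟩ := hdense.exists_mem_open isOpen_interior
      ⟨β, mem_interior_iff_mem_nhds.mpr hev⟩
    have h0 : (fun i => (r i : ℝ)) ∈ Gd := interior_subset hr
    have h1 := hrat r h0
    simp [F, hγ] at h1
  · -- move in the direction `-γ`
    have hpath : Filter.Tendsto (fun η : ℝ => β - η • γ) (nhdsWithin 0 (Set.Ioi 0)) (nhds β) := by
      have : Continuous (fun η : ℝ => β - η • γ) := by fun_prop
      have h1 := this.tendsto 0
      simp only [zero_smul, sub_zero] at h1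
      exact h1.mono_left nhdsWithin_le_nhds
    have hev' := hpath.eventually (eventually_mem_nhds_iff.mpr hev)
    obtain ⟨η, hη1, hη2⟩ := (hev'.and self_mem_nhdsWithin).exists
    have hη0 : (0 : ℝ) < η := hη2
    have hFη : F (β - η • γ) < 0 := by
      have e1 : F (β - η • γ) = F β - η * ∑ i, γ i * γ i := by
        simp only [F, Pi.sub_apply, Pi.smul_apply, smul_eq_mul]
        rw [Finset.mul_sum, ← Finset.sum_sub_distrib]
        refine Finset.sum_congr rfl (fun i _ => ?_)
        ring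
      have e2 : 0 < ∑ i, γ i * γ i := by
        obtain ⟨i, hi⟩ := Function.ne_iff.mp hγ
        have hi' : γ i ≠ 0 := hi
        refine Finset.sum_pos' (fun j _ => mul_self_nonneg _) ⟨i, Finset.mem_univ _, ?_⟩
        exact mul_self_pos.mpr hi'
      rw [e1]
      have := mul_pos hη0 e2
      linarith
    obtain ⟨r, hr⟩ := hdense.exists_mem_open
      (isOpen_interior.inter (isOpen_lt hFc continuous_const))
      ⟨β - η • γ, mem_interior_iff_mem_nhds.mpr hη1, hFη⟩
    have h0 : (fun i => (r i : ℝ)) ∈ Gd := interior_subset hr.1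
    have h1 := hrat r h0
    have h2 : F (fun i => (r i : ℝ)) < 0 := hr.2
    linarith

end Pool.Agent.Lib.MP_dadc30_co
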