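import Pool.Agent.Lib.MP_dadc30_co.MeanC

/-!
# MP_dadc30_co, module VdC: van der Corput lemma for invariant means, trilinear form.
-/

open MeasureTheory ProbabilityTheory Filter Topology
open scoped ENNReal ComplexConjugate

namespace Dadc30

variable {G : Type} [CommGroup G]

section VdCAux

variable {Y : Type} [MeasurableSpace Y]

/-- the sum `∑ x_{w u}` over a list of `w` -/
noncomputable def VdC_S (x : G → Y → ℂ) (l : List G) (u : G) (y : Y) : ℂ :=
  (l.map (fun w => x (w * u) y)).sum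

theorem VdC_S_nil (x : G → Y → ℂ) (u : G) (y : Y) : VdC_S x [] u y = 0 := rfl

theorem VdC_S_cons (x : G → Y → ℂ) (a : G) (l : List G) (u : G) (y : Y) :
    VdC_S x (a :: l) u y = x (a * u) y + VdC_S x l u y := by
  simp [VdC_S]

theorem VdC_S_meas {x : G → Y → ℂ} (hx : ∀ u, Measurable (x u)) (l : List G) (u : G) :
    Measurable (VdC_S x l u) := by
  induction l with
  | nil => exact measurable_const
  | cons a l ih =>
    have : VdC_S x (a :: l) u = fun y => x (a * u) y + VdC_S x l u y := by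
      funext y; exact VdC_S_cons x a l u y
    rw [this]
    exact (hx (a * u)).add ih

theorem VdC_S_bound {x : G → Y → ℂ} {C : ℝ} (hC : ∀ u y, ‖x u y‖ ≤ C) (l : List G) (u : G)
    (y : Y) : ‖VdC_S x l u y‖ ≤ l.length * C := by
  induction l with
  | nil => simp [VdC_S_nil]
  | cons a l ih =>
    rw [VdC_S_cons]
    refine (norm_add_le _ _).trans ?_
    have h1 := hC (a * u) y
    rw [List.length_cons]
    push_cast
    linarith

theorem VdC_int (m : Measure Y) [IsProbabilityMeasure m] {f : Y → ℂ} (hf : Measurable f) {C : ℝ}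
    (h : ∀ y, ‖f y‖ ≤ C) : Integrable f m :=
  Integrable.of_bound hf.aestronglyMeasurable C (ae_of_all _ h)

theorem VdC_intR (m : Measure Y) [IsProbabilityMeasure m] {f : Y → ℝ} (hf : Measurable f) {C : ℝ}
    (h : ∀ y, ‖f y‖ ≤ C) : Integrable f m :=
  Integrable.of_bound hf.aestronglyMeasurable C (ae_of_all _ h)

theorem VdC_le (m : Measure Y) [IsProbabilityMeasure m] {f : Y → ℂ} {C : ℝ}
    (h : ∀ y, ‖f y‖ ≤ C) : ‖∫ y, f y ∂m‖ ≤ C := by
  have := norm_integral_le_of_norm_le_const (μ := m) (ae_of_all _ h)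
  simpa using this

theorem VdC_leR (m : Measure Y) [IsProbabilityMeasure m] {f : Y → ℝ} {C : ℝ}
    (h : ∀ y, ‖f y‖ ≤ C) : ‖∫ y, f y ∂m‖ ≤ C := by
  have := norm_integral_le_of_norm_le_const (μ := m) (ae_of_all _ h)
  simpa using this

theorem VdC_sq (m : Measure Y) [IsProbabilityMeasure m] {f : Y → ℝ} (hf : Measurable f) {C : ℝ}
    (h : ∀ y, ‖f y‖ ≤ C) : (∫ y, f y ∂m) ^ 2 ≤ ∫ y, f y ^ 2 ∂m := by
  set c := ∫ y, f y ∂m with hc
  have hi : Integrable f m := VdC_intR m hf h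
  have hi2 : Integrable (fun y => f y ^ 2) m := by
    apply VdC_intR m (hf.pow_const 2) (C := C ^ 2)
    intro y
    rw [norm_pow]
    exact pow_le_pow_left₀ (norm_nonneg _) (h y) 2
  have h0 : 0 ≤ ∫ y, (f y - c) ^ 2 ∂m := integral_nonneg fun y => sq_nonneg _
  have h1 : ∫ y, (f y - c) ^ 2 ∂m = ∫ y, f y ^ 2 ∂m - c ^ 2 := by
    have e1 : (fun y => (f y - c) ^ 2) = fun y => (f y ^ 2 - (2 * c) * f y) + c ^ 2 := by
      funext y; ring
    have hi3 : Integrable (fun y => f y ^ 2 - (2 * c) * f y) m := hi2.sub (hi.const_mul _)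
    rw [e1, integral_add hi3 (integrable_const _),
      integral_sub hi2 (hi.const_mul _), integral_const_mul, ← hc, integral_const]
    simp
    ring
  rw [h1] at h0
  linarith

/-- the correlation function -/
noncomputable def VdC_g (M : InvMean G) (m : Measure Y) (x : G → Y → ℂ) (w : G) : ℂ :=
  M.c (fun u => ∫ y, x (w * u) y * conj (x u y) ∂m)

section

variable (M : InvMean G) (m : Measure Y) [IsProbabilityMeasure m] {x : G → Y → ℂ} {C : ℝ}

theorem VdC_prod_bound (hC : ∀ u y, ‖x u y‖ ≤ C) (a b : G) (y : Y) :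
    ‖x a y * conj (x b y)‖ ≤ C * C := by
  rw [norm_mul, RCLike.norm_conj]
  exact mul_le_mul (hC _ _) (hC _ _) (norm_nonneg _) ((norm_nonneg _).trans (hC a y))

theorem VdC_g_bound (hC : ∀ u y, ‖x u y‖ ≤ C) (w : G) : ‖VdC_g M m x w‖ ≤ C * C := by
  apply M.norm_c_le_of_le
  intro u
  apply VdC_le
  intro y
  exact VdC_prod_bound hC _ _ y

theorem VdC_shift (hC : ∀ u y, ‖x u y‖ ≤ C) (a w : G) :
    M.c (fun u => ∫ y, x (a * u) y * conj (x (w * u) y) ∂m) = VdC_g M m x (a * w⁻¹) := by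
  have h := M.c_inv w (f := fun u => ∫ y, x (a * w⁻¹ * u) y * conj (x u y) ∂m)
    ⟨C * C, fun u => VdC_le m fun y => VdC_prod_bound hC _ _ y⟩
  unfold VdC_g
  rw [← h]
  congr 1
  funext u
  have e : a * w⁻¹ * (w * u) = a * u := by group
  rw [e]

theorem VdC_S_prod_bound (hC : ∀ u y, ‖x u y‖ ≤ C) (a u : G) (l : List G) (y : Y) :
    ‖x a y * conj (VdC_S x l u y)‖ ≤ C * (l.length * C) := by
  rw [norm_mul, RCLike.norm_conj]
  exact mul_le_mul (hC _ _) (VdC_S_bound hC _ _ _) (norm_nonneg _) ((norm_nonneg _).trans (hC a y))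

theorem VdC_sum (hx : ∀ u, Measurable (x u)) (hC : ∀ u y, ‖x u y‖ ≤ C) (a : G) (l : List G) :
    M.c (fun u => ∫ y, x (a * u) y * conj (VdC_S x l u y) ∂m) =
      (l.map (fun w => VdC_g M m x (a * w⁻¹))).sum := by
  induction l with
  | nil =>
    simp only [VdC_S_nil, map_zero, mul_zero, integral_zero, List.map_nil, List.sum_nil]
    exact M.c_const 0
  | cons b l ih =>
    have e : (fun u => ∫ y, x (a * u) y * conj (VdC_S x (b :: l) u y) ∂m) =
        fun u => (∫ y, x (a * u) y * conj (x (b * u) y) ∂m) +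
          ∫ y, x (a * u) y * conj (VdC_S x l u y) ∂m := by
      funext u
      rw [← integral_add]
      · congr 1
        funext y
        rw [VdC_S_cons, map_add, mul_add]
      · apply VdC_int m _ (VdC_prod_bound hC (a * u) (b * u))
        exact (hx _).mul (Complex.continuous_conj.measurable.comp (hx _))
      · apply VdC_int m _ (VdC_S_prod_bound hC (a * u) u l)
        exact (hx _).mul (Complex.continuous_conj.measurable.comp (VdC_S_meas hx l u))
    rw [e, M.c_add, ih, VdC_shift M m hC a b, List.map_cons, List.sum_cons]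
    · exact ⟨C * C, fun u => VdC_le m fun y => VdC_prod_bound hC _ _ y⟩
    · exact ⟨C * (l.length * C), fun u => VdC_le m fun y => VdC_S_prod_bound hC _ _ _ y⟩

theorem VdC_sumn_bdd (hC : ∀ u y, ‖x u y‖ ≤ C) (l : List G) :
    Bdd (fun a => (l.map (fun w => ‖VdC_g M m x (a * w⁻¹)‖)).sum) := by
  induction l with
  | nil => exact ⟨0, fun a => by simp⟩
  | cons b l ih =>
    obtain ⟨D, hD⟩ := ih
    refine ⟨C * C + D, fun a => ?_⟩
    dsimp only
    rw [List.map_cons, List.sum_cons]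
    refine (abs_add_le _ _).trans ?_
    apply add_le_add _ (hD a)
    rw [abs_of_nonneg (norm_nonneg _)]
    exact VdC_g_bound M m hC _

theorem VdC_sumn_zero (hC : ∀ u y, ‖x u y‖ ≤ C) (l : List G)
    (hγ : M.m (fun w => ‖VdC_g M m x w‖) = 0) :
    M.m (fun a => (l.map (fun w => ‖VdC_g M m x (a * w⁻¹)‖)).sum) = 0 := by
  induction l with
  | nil =>
    simp only [List.map_nil, List.sum_nil]
    exact M.m_const 0
  | cons b l ih =>
    have hb : Bdd (fun w => ‖VdC_g M m x w‖) := ⟨C * C, fun w => by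
      rw [abs_of_nonneg (norm_nonneg _)]
      exact VdC_g_bound M m hC _⟩
    have e : (fun a => ((b :: l).map (fun w => ‖VdC_g M m x (a * w⁻¹)‖)).sum) =
        fun a => ‖VdC_g M m x (b⁻¹ * a)‖ + (l.map (fun w => ‖VdC_g M m x (a * w⁻¹)‖)).sum := by
      funext a
      rw [List.map_cons, List.sum_cons, mul_comm a b⁻¹]
    rw [e, M.add' _ _ _ (VdC_sumn_bdd M m hC l), ih,
      M.inv' b⁻¹ (fun w => ‖VdC_g M m x w‖) hb, hγ, add_zero]
    exact ⟨C * C, fun w => by
      rw [abs_of_nonneg (norm_nonneg _)]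
      exact VdC_g_bound M m hC _⟩

theorem VdC_sqb (hC : ∀ u y, ‖x u y‖ ≤ C) (l : List G) (u : G) (y : Y) :
    ‖‖VdC_S x l u y‖ ^ 2‖ ≤ (l.length * C) ^ 2 := by
  rw [norm_pow, norm_norm]
  exact pow_le_pow_left₀ (norm_nonneg _) (VdC_S_bound hC _ _ _) 2

theorem VdC_sqb1 (hC : ∀ u y, ‖x u y‖ ≤ C) (u : G) (y : Y) :
    ‖‖x u y‖ ^ 2‖ ≤ C ^ 2 := by
  rw [norm_pow, norm_norm]
  exact pow_le_pow_left₀ (norm_nonneg _) (hC _ _) 2

theorem VdC_greedy (hx : ∀ u, Measurable (x u)) (hC : ∀ u y, ‖x u y‖ ≤ C)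
    (hγ : M.m (fun w => ‖VdC_g M m x w‖) = 0) (N : ℕ) : ∀ ε : ℝ, 0 < ε →
    ∃ l : List G, l.length = N ∧
      M.m (fun u => ∫ y, ‖VdC_S x l u y‖ ^ 2 ∂m) ≤ N * C ^ 2 + ε := by
  induction N with
  | zero =>
    intro ε hε
    refine ⟨[], rfl, ?_⟩
    have e : (fun u : G => ∫ y, ‖VdC_S x [] u y‖ ^ 2 ∂m) = fun _ => (0 : ℝ) := by
      funext u
      simp [VdC_S_nil]
    rw [e, M.m_const]
    simpa using hε.le
  | succ N ih =>
    intro ε hε
    obtain ⟨l, hl, hlm⟩ := ih (ε / 2) (by linarith)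
    have hz := VdC_sumn_zero M m hC l hγ
    have hbd := VdC_sumn_bdd M m hC l
    obtain ⟨a, ha⟩ : ∃ a, (l.map (fun w => ‖VdC_g M m x (a * w⁻¹)‖)).sum < ε / 4 := by
      by_contra hcon
      push Not at hcon
      have := M.le_m_of_le hbd hcon
      rw [hz] at this
      linarith
    refine ⟨a :: l, by simp [hl], ?_⟩
    have hm1 : ∀ u, Integrable (fun y => ‖x (a * u) y‖ ^ 2) m := fun u =>
      VdC_intR m ((hx _).norm.pow_const 2) (VdC_sqb1 hC _)
    have hm2 : ∀ u, Integrable (fun y => ‖VdC_S x l u y‖ ^ 2) m := fun u =>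
      VdC_intR m ((VdC_S_meas hx l u).norm.pow_const 2) (VdC_sqb hC l u)
    have hm3 : ∀ u, Integrable (fun y => x (a * u) y * conj (VdC_S x l u y)) m := fun u =>
      VdC_int m ((hx _).mul (Complex.continuous_conj.measurable.comp (VdC_S_meas hx l u)))
        (VdC_S_prod_bound hC (a * u) u l)
    have e : (fun u => ∫ y, ‖VdC_S x (a :: l) u y‖ ^ 2 ∂m) = fun u =>
        ((∫ y, ‖x (a * u) y‖ ^ 2 ∂m) + ∫ y, ‖VdC_S x l u y‖ ^ 2 ∂m) +
          2 * (∫ y, x (a * u) y * conj (VdC_S x l u y) ∂m).re := by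
      funext u
      have e1 : (fun y => ‖VdC_S x (a :: l) u y‖ ^ 2) = fun y =>
          (‖x (a * u) y‖ ^ 2 + ‖VdC_S x l u y‖ ^ 2) +
            2 * (x (a * u) y * conj (VdC_S x l u y)).re := by
        funext y
        rw [VdC_S_cons, ← Complex.normSq_eq_norm_sq, ← Complex.normSq_eq_norm_sq,
          ← Complex.normSq_eq_norm_sq, Complex.normSq_add]
      have e2 : (∫ y, x (a * u) y * conj (VdC_S x l u y) ∂m).re =
          ∫ y, (x (a * u) y * conj (VdC_S x l u y)).re ∂m := by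
        have := integral_re (𝕜 := ℂ) (hm3 u)
        exact this.symm
      have hm12 : Integrable (fun y => ‖x (a * u) y‖ ^ 2 + ‖VdC_S x l u y‖ ^ 2) m :=
        (hm1 u).add (hm2 u)
      have hm4 : Integrable (fun y => 2 * (x (a * u) y * conj (VdC_S x l u y)).re) m :=
        ((hm3 u).re).const_mul 2
      rw [e1, integral_add hm12 hm4, integral_add (hm1 u) (hm2 u),
        integral_const_mul, e2]
    have hbb : BddC (fun u => ∫ y, x (a * u) y * conj (VdC_S x l u y) ∂m) :=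
      ⟨C * (l.length * C), fun u => VdC_le m fun y => VdC_S_prod_bound hC _ _ _ y⟩
    have hb1 : Bdd (fun u => ∫ y, ‖x (a * u) y‖ ^ 2 ∂m) :=
      ⟨C ^ 2, fun u => VdC_leR m (VdC_sqb1 hC _)⟩
    have hb2 : Bdd (fun u => ∫ y, ‖VdC_S x l u y‖ ^ 2 ∂m) :=
      ⟨(l.length * C) ^ 2, fun u => VdC_leR m (VdC_sqb hC l u)⟩
    have hb3 : Bdd (fun u => 2 * (∫ y, x (a * u) y * conj (VdC_S x l u y) ∂m).re) :=
      (Bdd.const 2).mul hbb.re
    rw [e, M.add' _ _ (hb1.add hb2) hb3, M.add' _ _ hb1 hb2, M.smul' _ _ hbb.re, ← M.c_re,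
      VdC_sum M m hx hC a l]
    have h1 : M.m (fun u => ∫ y, ‖x (a * u) y‖ ^ 2 ∂m) ≤ C ^ 2 := by
      apply M.m_le_of_le hb1
      intro u
      exact (le_abs_self _).trans (VdC_leR m (VdC_sqb1 hC _))
    have h2 : ∀ l' : List G, ((l'.map (fun w => VdC_g M m x (a * w⁻¹))).sum).re ≤
        (l'.map (fun w => ‖VdC_g M m x (a * w⁻¹)‖)).sum := by
      intro l'
      induction l' with
      | nil => simp
      | cons b l' ih' =>
        rw [List.map_cons, List.sum_cons, List.map_cons, List.sum_cons, Complex.add_re]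
        exact add_le_add (Complex.re_le_norm _) ih'
    have h3 := h2 l
    push_cast
    linarith

theorem VdC_lin (hx : ∀ u, Measurable (x u)) (hC : ∀ u y, ‖x u y‖ ≤ C) {ψ : Y → ℂ}
    (hψ : Measurable ψ) {D : ℝ} (hD : ∀ y, ‖ψ y‖ ≤ D) (l : List G) :
    M.c (fun u => ∫ y, VdC_S x l u y * ψ y ∂m) =
      (l.length : ℂ) * M.c (fun u => ∫ y, x u y * ψ y ∂m) := by
  have hxb : ∀ u y, ‖x u y * ψ y‖ ≤ C * D := by
    intro u y
    rw [norm_mul]
    exact mul_le_mul (hC _ _) (hD _) (norm_nonneg _) ((norm_nonneg _).trans (hC u y))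
  have hSb : ∀ (l : List G) u y, ‖VdC_S x l u y * ψ y‖ ≤ (l.length * C) * D := by
    intro l u y
    rw [norm_mul]
    exact mul_le_mul (VdC_S_bound hC _ _ _) (hD _) (norm_nonneg _)
      ((norm_nonneg _).trans (VdC_S_bound hC l u y))
  induction l with
  | nil =>
    simp only [VdC_S_nil, zero_mul, integral_zero, List.length_nil, Nat.cast_zero]
    exact M.c_const 0
  | cons a l ih =>
    have e : (fun u => ∫ y, VdC_S x (a :: l) u y * ψ y ∂m) =
        fun u => (∫ y, x (a * u) y * ψ y ∂m) + ∫ y, VdC_S x l u y * ψ y ∂m := by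
      funext u
      rw [← integral_add]
      · congr 1
        funext y
        rw [VdC_S_cons, add_mul]
      · exact VdC_int m ((hx _).mul hψ) (hxb _)
      · exact VdC_int m ((VdC_S_meas hx l u).mul hψ) (hSb l u)
    rw [e, M.c_add, ih, M.c_inv a (f := fun u => ∫ y, x u y * ψ y ∂m), List.length_cons]
    · push_cast
      ring
    · exact ⟨C * D, fun u => VdC_le m (hxb _)⟩
    · exact ⟨C * D, fun u => VdC_le m (hxb _)⟩
    · exact ⟨(l.length * C) * D, fun u => VdC_le m (hSb l u)⟩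

end

end VdCAux

/-- van der Corput.  Proof: for `w_1, …, w_N ∈ G`,
`M_u ∫ x_u ψ = M_u ∫ (1/N) ∑_i x_{w_i u} ψ`, so its norm is at most
`‖ψ‖_∞ (M_u ∫ |(1/N) ∑_i x_{w_i u}|²)^{1/2} = ‖ψ‖_∞ ((1/N²) ∑_{i,j} γ(w_i w_j⁻¹))^{1/2}`, where
`γ(w) = M_u ∫ x_{wu} conj x_u`.  Since `M_w |γ(w)| = 0` one can choose greedily `w_N` with
`|γ(w_N w_i⁻¹)| < ε` for all `i < N` (the mean over `w` of `∑_i |γ(w w_i⁻¹)|` is zero). -/
theorem vdc (M : InvMean G) {Y : Type} [MeasurableSpace Y] (m : Measure Y)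
    [IsProbabilityMeasure m] (x : G → Y → ℂ) (hx : ∀ u, Measurable (x u)) (C : ℝ)
    (hC : ∀ u y, ‖x u y‖ ≤ C)
    (hγ : M.m (fun w => ‖M.c (fun u => ∫ y, x (w * u) y * conj (x u y) ∂m)‖) = 0)
    {ψ : Y → ℂ} (hψ : BM ψ) :
    M.c (fun u => ∫ y, x u y * ψ y ∂m) = 0 := by
  obtain ⟨hψm, D, hD⟩ := hψ
  obtain ⟨y0⟩ := nonempty_of_isProbabilityMeasure m
  have hD0 : 0 ≤ D := (norm_nonneg _).trans (hD y0)
  have hC0 : 0 ≤ C := (norm_nonneg _).trans (hC 1 y0)
  set A := M.c (fun u => ∫ y, x u y * ψ y ∂m) with hA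
  have key : ∀ N : ℕ, ((N : ℝ) * ‖A‖) ^ 2 ≤ D ^ 2 * (N * C ^ 2 + 1) := by
    intro N
    obtain ⟨l, hl, hlm⟩ := VdC_greedy M m hx hC hγ N 1 one_pos
    have h1 := VdC_lin M m hx hC hψm hD l
    rw [hl, ← hA] at h1
    have hSb : ∀ u y, ‖VdC_S x l u y * ψ y‖ ≤ (l.length * C) * D := by
      intro u y
      rw [norm_mul]
      exact mul_le_mul (VdC_S_bound hC _ _ _) (hD _) (norm_nonneg _)
        ((norm_nonneg _).trans (VdC_S_bound hC l u y))
    have hbb : BddC (fun u => ∫ y, VdC_S x l u y * ψ y ∂m) :=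
      ⟨(l.length * C) * D, fun u => VdC_le m (hSb u)⟩
    have h2 : ‖(N : ℂ) * A‖ ≤ M.m (fun u => ‖∫ y, VdC_S x l u y * ψ y ∂m‖) := by
      rw [← h1]
      exact M.norm_c_le hbb
    have h3 : (N : ℝ) * ‖A‖ = ‖(N : ℂ) * A‖ := by
      rw [norm_mul, Complex.norm_natCast]
    rw [h3]
    calc ‖(N : ℂ) * A‖ ^ 2 ≤ (M.m (fun u => ‖∫ y, VdC_S x l u y * ψ y ∂m‖)) ^ 2 :=
          pow_le_pow_left₀ (norm_nonneg _) h2 2
      _ ≤ M.m (fun u => ‖∫ y, VdC_S x l u y * ψ y ∂m‖ ^ 2) := M.m_sq_le hbb.norm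
      _ ≤ M.m (fun u => D ^ 2 * ∫ y, ‖VdC_S x l u y‖ ^ 2 ∂m) := by
          apply M.mono'
          · exact hbb.norm.pow 2
          · exact (Bdd.const _).mul ⟨(l.length * C) ^ 2, fun u => VdC_leR m (VdC_sqb hC l u)⟩
          · intro u
            have e1 : ‖∫ y, VdC_S x l u y * ψ y ∂m‖ ≤ D * ∫ y, ‖VdC_S x l u y‖ ∂m := by
              refine (norm_integral_le_integral_norm _).trans ?_
              rw [← integral_const_mul]
              apply integral_mono
              · exact (VdC_int m ((VdC_S_meas hx l u).mul hψm) (hSb u)).norm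
              · exact ((VdC_int m (VdC_S_meas hx l u) (VdC_S_bound hC l u)).norm).const_mul D
              · intro y
                dsimp only
                rw [norm_mul, mul_comm]
                exact mul_le_mul_of_nonneg_right (hD y) (norm_nonneg _)
            calc ‖∫ y, VdC_S x l u y * ψ y ∂m‖ ^ 2 ≤ (D * ∫ y, ‖VdC_S x l u y‖ ∂m) ^ 2 :=
                  pow_le_pow_left₀ (norm_nonneg _) e1 2
              _ = D ^ 2 * (∫ y, ‖VdC_S x l u y‖ ∂m) ^ 2 := by ring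
              _ ≤ D ^ 2 * ∫ y, ‖VdC_S x l u y‖ ^ 2 ∂m := by
                  apply mul_le_mul_of_nonneg_left _ (sq_nonneg _)
                  apply VdC_sq m (VdC_S_meas hx l u).norm (C := l.length * C)
                  intro y
                  rw [norm_norm]
                  exact VdC_S_bound hC l u y
      _ = D ^ 2 * M.m (fun u => ∫ y, ‖VdC_S x l u y‖ ^ 2 ∂m) :=
          M.smul' _ _ ⟨(l.length * C) ^ 2, fun u => VdC_leR m (VdC_sqb hC l u)⟩
      _ ≤ D ^ 2 * (N * C ^ 2 + 1) := mul_le_mul_of_nonneg_left hlm (sq_nonneg _)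
  -- conclusion
  by_contra hne
  have hpos : 0 < ‖A‖ ^ 2 := pow_pos (norm_pos_iff.2 hne) 2
  obtain ⟨N, hN⟩ := exists_nat_gt ((D ^ 2 * (C ^ 2 + 1)) / ‖A‖ ^ 2)
  rw [div_lt_iff₀ hpos] at hN
  have hN0 : 0 < (N : ℝ) := by
    by_contra h0
    have h1 : (N : ℝ) * ‖A‖ ^ 2 ≤ 0 :=
      mul_nonpos_of_nonpos_of_nonneg (not_lt.1 h0) hpos.le
    have h2 : 0 ≤ D ^ 2 * (C ^ 2 + 1) := by positivity
    linarith
  have hN1 : (1 : ℝ) ≤ N := by
    have : 0 < N := by exact_mod_cast hN0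
    exact_mod_cast this
  have h1 := key N
  have h2 : D ^ 2 * (N * C ^ 2 + 1) ≤ N * (D ^ 2 * (C ^ 2 + 1)) := by
    have : D ^ 2 * 1 ≤ D ^ 2 * N := mul_le_mul_of_nonneg_left hN1 (sq_nonneg _)
    nlinarith
  have h3 : (N : ℝ) * (D ^ 2 * (C ^ 2 + 1)) < N * (N * ‖A‖ ^ 2) :=
    mul_lt_mul_of_pos_left hN hN0
  have h4 : ((N : ℝ) * ‖A‖) ^ 2 = N * (N * ‖A‖ ^ 2) := by ring
  linarith

end Dadc30
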